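import Pool.Agent.WarR.Conv
import Pool.Agent.WarM.Many
import Pool.Agent.WarN.Exc2
import Pool.Agent.WarN.Pen

/-!
# Property `W` in degree 2 from the kernels   (helper14)
-/

set_option autoImplicit false

open Module MvPolynomial

namespace Pool.Agent.WarR

open Pool.Agent.War

theorem W_of_KQ {n s h : ℕ} (H : KQ ℂ (n + 1) s h 0 0) : Waring.W 2 h n s := by
  obtain ⟨z, a, y, hK⟩ := H.kill
  exact Waring.W_of_dual z a fun g hg h1 h2 => hK g hg h1 h2 fun i => i.elim0

/-- the expected range without the exceptions -/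
def Crit (n s h : ℕ) : Prop :=
  s ≤ h ∧ s * NN n 2 ≤ h * (n + s) ∧ ¬ (s = 3 ∧ Odd n ∧ 2 * h = 3 * n + 1)

theorem two_NN (n : ℕ) : 2 * NN n 2 = (n + 1) * (n + 2) := by
  unfold NN
  have h1 : (n + 2).choose n = (n + 2).choose 2 := by
    rw [← Nat.choose_symm (show n ≤ n + 2 by omega), Nat.add_sub_cancel_left]
  rw [h1, Nat.choose_two_right]
  have h3 : (n + 2) * (n + 2 - 1) = (n + 1) * (n + 2) := by
    rw [show n + 2 - 1 = n + 1 by omega]; ring
  rw [h3, Nat.mul_div_cancel' ?_]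
  have := Nat.even_mul_succ_self (n + 1)
  exact this.two_dvd

/-- **Degree 2.** -/
theorem W_two_of (hyp : ∀ n s h, 2 ≤ n → 3 ≤ s → s < NN n 2 → Crit n s h →
    (∀ h' < h, ¬ Crit n s h') → KQ ℂ (n + 1) s h 0 0) (n s h : ℕ) (hn : 2 ≤ n) (hs : 2 ≤ s) :
    Waring.W 2 h n s ↔ (min s ((n + 2).choose n) ≤ h ∧ s * (n + 2).choose n ≤ h * (n + s)) ∧
      ¬ (s = 3 ∧ Odd n ∧ 2 * h = 3 * n + 1) := by
  classical
  constructor
  · intro H
    refine ⟨⟨H.bound2, H.bound1 (by omega)⟩, ?_⟩
    rintro ⟨rfl, hodd, hh⟩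
    exact WarN.not_W_net hodd (by omega) H
  · rintro ⟨⟨H1, H2⟩, H3⟩
    by_cases hN : (n + 2).choose n ≤ h
    · exact (WarM.W_top s (by omega : 1 ≤ n)).mono hN
    · have hsN : s < NN n 2 := by
        by_contra hle
        push Not at hle
        exact hN (by rw [min_eq_right hle] at H1; exact H1)
      have hsh : s ≤ h := by
        rw [min_eq_left (show s ≤ (n + 2).choose n from hsN.le)] at H1; exact H1
      rcases Nat.lt_or_ge 2 s with h3 | h3
      · have hex : ∃ h', Crit n s h' := ⟨h, hsh, H2, H3⟩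
        have h4 := Nat.find_spec hex
        have h5 : Nat.find hex ≤ h := Nat.find_min' hex ⟨hsh, H2, H3⟩
        exact (W_of_KQ (hyp n s _ hn h3 hsN h4 fun h' hh' => Nat.find_min hex hh')).mono h5
      · have hs2 : s = 2 := by omega
        subst hs2
        refine WarN.W_pencil h n ?_
        have h4 := two_NN n
        have h5 : (n + 1) * (n + 2) ≤ h * (n + 2) := h4 ▸ H2
        exact Nat.le_of_mul_le_mul_right h5 (by omega)

end Pool.Agent.WarR
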