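import Pool.Agent.WarR.Step

/-!
# Blocks, simple points, the step without split point   (helper14)
-/

set_option autoImplicit false

open Module

namespace Pool.Agent.WarR

open Pool.Agent.War

section

variable {K : Type*} [Field K]

theorem KQ.mono {m b x s r r' : ℕ} (h : KQ K m b x s r) (hr : r ≤ r') : KQ K m b x s r' := by
  obtain ⟨c, hc⟩ := h
  exact ⟨c, hc.trans hr⟩

/-- the tuple of forms vanishes if all values vanish -/
theorem eq_zero_of_values [NeZero (2 : K)] {m : ℕ} {A : SF K m}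
    (h : ∀ z, bf (A : Fin m → Fin m → K) z z = 0) : A = 0 := by
  have h2 : (2 : K) ≠ 0 := NeZero.ne 2
  apply Subtype.ext
  funext i j
  have e : bf (A : Fin m → Fin m → K) (Pi.single i 1 + Pi.single j 1)
      (Pi.single i 1 + Pi.single j 1) = bf (A : Fin m → Fin m → K) (Pi.single i 1) (Pi.single i 1) +
      2 * (A : Fin m → Fin m → K) i j + bf (A : Fin m → Fin m → K) (Pi.single j 1)
        (Pi.single j 1) := by
    rw [bf_add_right, bf_comm A.2 _ (Pi.single i 1), bf_comm A.2 _ (Pi.single j 1), bf_add_right,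
      bf_add_right, bf_single, bf_single, bf_single, bf_single, A.2 j i]
    ring
  rw [h, h, h] at e
  have e2 : 2 * (A : Fin m → Fin m → K) i j = 0 := by linear_combination -e
  exact (mul_eq_zero.1 e2).resolve_left h2

/-- a general simple point lowers the dimension -/
theorem KQ.add_simple [CharZero K] {m b x s r : ℕ} (k : ℕ) (h : KQ K m b x s r) :
    KQ K m b x (s + k) (r - k) := by
  classical
  obtain ⟨⟨z, a, y⟩, hc⟩ := h
  obtain ⟨w, hw⟩ := red (K := K) (fun q : (Fin m → K) × (Fin b → K) => dvF (K := K) q.2 q.1 q.1)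
    (ZK (z, a, y)) ⊥ (fun F _ hF => by
      by_contra hcon
      push Not at hcon
      apply hF
      rw [Submodule.mem_bot]
      funext j
      refine eq_zero_of_values fun z => ?_
      have := hcon (z, Pi.single j 1)
      rw [dvF_apply, Finset.sum_eq_single j] at this
      · beta_reduce at this
        simp only [Pi.single_eq_same, one_mul] at this
        exact this
      · intro l _ hl
        simp only [Pi.single_eq_of_ne hl, zero_mul]
      · simp) k
  refine KQ.of_cfg (I := Fin x) (J := Fin s ⊕ Fin k)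
    (z, a, Sum.elim y fun i => (w i).1) (Fintype.card_fin x) (by simp) ?_
  rw [finrank_bot, max_eq_left (Nat.zero_le _)] at hw
  refine (Submodule.finrank_mono ?_).trans (hw.trans (by omega))
  intro F hF
  obtain ⟨h1, h2, h3⟩ := mem_ZK.1 hF
  refine ⟨mem_ZK.2 ⟨h1, h2, fun l j => h3 (Sum.inl l) j⟩, ?_⟩
  rw [SetLike.mem_coe, Submodule.mem_iInf]
  intro i
  rw [LinearMap.mem_ker, dvF_apply]
  exact Finset.sum_eq_zero fun j _ => by
    have := h3 (Sum.inr i) j
    change bf (F j : Fin m → Fin m → K) (w i).1 (w i).1 = 0 at this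
    rw [this, mul_zero]

/-- a full point instead of a simple point -/
theorem KQ.simple_to_full {m b x s r : ℕ} (h : KQ K m b x (s + 1) r) : KQ K m b (x + 1) s r := by
  obtain ⟨⟨z, a, y⟩, hc⟩ := h
  refine KQ.of_cfg (I := Fin x ⊕ Unit) (J := Fin s)
    (Sum.elim z fun _ => y (Fin.last s), Sum.elim a 0, fun l => y l.castSucc) (by simp) (by simp) ?_
  refine (Submodule.finrank_mono ?_).trans hc
  intro F hF
  obtain ⟨w1, w2, w3⟩ := mem_ZK.1 hF
  refine mem_ZK.2 ⟨fun i j => w1 (Sum.inl i) j, fun i v => w2 (Sum.inl i) v, fun l j => ?_⟩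
  refine Fin.lastCases ?_ (fun l => ?_) l
  · exact w1 (Sum.inr ()) j
  · exact w3 l j

/-- a simple point instead of a full point: at most `m - 1` more dimensions -/
theorem KQ.full_to_simple [CharZero K] {m b x s r : ℕ} (h : KQ K m b (x + 1) s r) :
    KQ K m b x (s + 1) (r + m) := by
  classical
  obtain ⟨⟨z, a, y⟩, hc⟩ := h
  refine KQ.of_cfg (I := Fin x) (J := Fin s ⊕ Unit)
    (fun i => z i.castSucc, fun i => a i.castSucc, Sum.elim y fun _ => z (Fin.last x)) (by simp)
    (by simp) ?_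
  let T : (Fin b → SF K m) →ₗ[K] (Fin m → K) :=
    LinearMap.pi fun k => dvF (a (Fin.last x)) (z (Fin.last x)) (Pi.single k 1)
  refine (finrank_le_map_add_ker T _).trans ?_
  have h1 : finrank K ((ZK (I := Fin x) (J := Fin s ⊕ Unit) (fun i => z i.castSucc,
      fun i => a i.castSucc, Sum.elim y fun _ => z (Fin.last x))).map T) ≤ m := by
    refine (Submodule.finrank_le _).trans ?_
    rw [Module.finrank_fin_fun]
  refine (Nat.add_le_add h1 ((Submodule.finrank_mono ?_).trans hc)).trans (by omega)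
  rintro F ⟨hF, hF2⟩
  obtain ⟨w1, w2, w3⟩ := mem_ZK.1 hF
  refine mem_ZK.2 ⟨fun i j => ?_, fun i => ?_, fun l j => w3 (Sum.inl l) j⟩
  · refine Fin.lastCases ?_ (fun i => ?_) i
    · exact w3 (Sum.inr ()) j
    · exact w1 i j
  · rw [full_iff (fun j => (F j : Fin m → Fin m → K))]
    intro k
    refine Fin.lastCases ?_ (fun i => ?_) i
    · exact congrFun (LinearMap.mem_ker.1 hF2) k
    · exact w2 i _

/-- without a simple point the dimension is larger by at most `b` -/
theorem KQ.drop_simple {m b x s r : ℕ} (h : KQ K m b x (s + 1) r) : KQ K m b x s (r + b) := by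
  obtain ⟨⟨z, a, y⟩, hc⟩ := h
  refine ⟨(z, a, fun l => y l.castSucc), ?_⟩
  have h1 := finrank_le_map_add_ker (evA (K := K) (b := b) (y (Fin.last s)))
    (ZK (z, a, fun l : Fin s => y l.castSucc))
  have h2 : finrank K ((ZK (z, a, fun l : Fin s => y l.castSucc)).map
      (evA (K := K) (b := b) (y (Fin.last s)))) ≤ b := by
    refine (Submodule.finrank_le _).trans ?_
    rw [Module.finrank_fin_fun]
  have h3 : finrank K ↥(ZK (z, a, fun l : Fin s => y l.castSucc) ⊓
      LinearMap.ker (evA (K := K) (b := b) (y (Fin.last s)))) ≤ r := by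
    refine (Submodule.finrank_mono ?_).trans hc
    rintro F ⟨hF, hF2⟩
    obtain ⟨w1, w2, w3⟩ := mem_ZK.1 hF
    refine mem_ZK.2 ⟨w1, w2, fun l j => ?_⟩
    refine Fin.lastCases ?_ (fun l => ?_) l
    · exact congrFun (LinearMap.mem_ker.1 hF2) j
    · exact w3 l j
  omega

/-- a subspace of a product -/
theorem finrank_two {V V1 V2 : Type*} [AddCommGroup V] [Module K V] [AddCommGroup V1] [Module K V1]
    [AddCommGroup V2] [Module K V2] [FiniteDimensional K V] [FiniteDimensional K V1]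
    [FiniteDimensional K V2] (S : Submodule K V) (S1 : Submodule K V1) (S2 : Submodule K V2)
    (Ψ1 : V →ₗ[K] V1) (Ψ2 : V →ₗ[K] V2) (h1 : ∀ v ∈ S, Ψ1 v ∈ S1)
    (h2 : ∀ v ∈ S, Ψ1 v = 0 → Ψ2 v ∈ S2) (hinj : ∀ v ∈ S, Ψ1 v = 0 → Ψ2 v = 0 → v = 0) :
    finrank K S ≤ finrank K S1 + finrank K S2 := by
  have e1 := finrank_le_map_add_ker Ψ1 S
  have e2 : finrank K (S.map Ψ1) ≤ finrank K S1 := Submodule.finrank_mono (by
    rintro _ ⟨v, hv, rfl⟩
    exact h1 v hv)
  have e3 := finrank_le_map_add_ker Ψ2 (S ⊓ LinearMap.ker Ψ1)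
  have e4 : (S ⊓ LinearMap.ker Ψ1) ⊓ LinearMap.ker Ψ2 = ⊥ := by
    rw [eq_bot_iff]
    rintro v ⟨⟨hv, hv1⟩, hv2⟩
    rw [Submodule.mem_bot]
    exact hinj v hv hv1 hv2
  have e5 : finrank K ((S ⊓ LinearMap.ker Ψ1).map Ψ2) ≤ finrank K S2 := Submodule.finrank_mono (by
    rintro _ ⟨v, ⟨hv, hv1⟩, rfl⟩
    exact h2 v hv hv1)
  rw [e4, finrank_bot] at e3
  omega

/-- **Blocks.** -/
theorem KQ.blocks [CharZero K] {m b1 b2 x1 x2 y r1 r2 : ℕ} (h1 : KQ K m b1 x1 (y + x2) r1)
    (h2 : KQ K m b2 x2 (y + x1) r2) : KQ K m (b1 + b2) (x1 + x2) y (r1 + r2) := by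
  classical
  let X : Type _ := ((Fin x1 → Fin m → K) × (Fin x2 → Fin m → K) × (Fin y → Fin m → K)) ×
    (Fin x1 → Fin b1 → K) × (Fin x2 → Fin b2 → K)
  let e1 : Fin y ⊕ Fin x2 ≃ Fin (y + x2) := finSumFinEquiv
  let e2 : Fin y ⊕ Fin x1 ≃ Fin (y + x1) := finSumFinEquiv
  let L1 : X →ₗ[K] Cfg K m b1 (Fin x1) (Fin (y + x2)) :=
    { toFun := fun q => (q.1.1, q.2.1, fun l => Sum.elim q.1.2.2 q.1.2.1 (e1.symm l))
      map_add' := fun p q => by
        refine Prod.ext rfl (Prod.ext rfl ?_)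
        funext l
        change Sum.elim (p + q).1.2.2 (p + q).1.2.1 (e1.symm l) = Sum.elim p.1.2.2 p.1.2.1 (e1.symm l)
          + Sum.elim q.1.2.2 q.1.2.1 (e1.symm l)
        rcases e1.symm l with i | i <;> rfl
      map_smul' := fun r p => by
        refine Prod.ext rfl (Prod.ext rfl ?_)
        funext l
        change Sum.elim (r • p).1.2.2 (r • p).1.2.1 (e1.symm l) =
          r • Sum.elim p.1.2.2 p.1.2.1 (e1.symm l)
        rcases e1.symm l with i | i <;> rfl }
  let L2 : X →ₗ[K] Cfg K m b2 (Fin x2) (Fin (y + x1)) :=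
    { toFun := fun q => (q.1.2.1, q.2.2, fun l => Sum.elim q.1.2.2 q.1.1 (e2.symm l))
      map_add' := fun p q => by
        refine Prod.ext rfl (Prod.ext rfl ?_)
        funext l
        change Sum.elim (p + q).1.2.2 (p + q).1.1 (e2.symm l) = Sum.elim p.1.2.2 p.1.1 (e2.symm l)
          + Sum.elim q.1.2.2 q.1.1 (e2.symm l)
        rcases e2.symm l with i | i <;> rfl
      map_smul' := fun r p => by
        refine Prod.ext rfl (Prod.ext rfl ?_)
        funext l
        change Sum.elim (r • p).1.2.2 (r • p).1.1 (e2.symm l) =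
          r • Sum.elim p.1.2.2 p.1.1 (e2.symm l)
        rcases e2.symm l with i | i <;> rfl }
  have hL1 : Function.Surjective L1 := by
    rintro ⟨z, a, w⟩
    refine ⟨((z, fun i => w (e1 (Sum.inr i)), fun i => w (e1 (Sum.inl i))), a, 0), ?_⟩
    refine Prod.ext rfl (Prod.ext rfl ?_)
    funext l
    obtain ⟨l, rfl⟩ := e1.surjective l
    change Sum.elim _ _ (e1.symm (e1 l)) = _
    rw [e1.symm_apply_apply]
    rcases l with i | i <;> rfl
  have hL2 : Function.Surjective L2 := by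
    rintro ⟨z, a, w⟩
    refine ⟨((fun i => w (e2 (Sum.inr i)), z, fun i => w (e2 (Sum.inl i))), 0, a), ?_⟩
    refine Prod.ext rfl (Prod.ext rfl ?_)
    funext l
    obtain ⟨l, rfl⟩ := e2.surjective l
    change Sum.elim _ _ (e2.symm (e2 l)) = _
    rw [e2.symm_apply_apply]
    rcases l with i | i <;> rfl
  obtain ⟨⟨⟨z1, z2, w⟩, a1, a2⟩, k1, k2⟩ := ((h1.gen.comp L1 hL1).and (h2.gen.comp L2 hL2)).exists
  let c : Cfg K m (b1 + b2) (Fin x1 ⊕ Fin x2) (Fin y) :=
    (Sum.elim z1 z2, Sum.elim (fun i => Fin.append (a1 i) 0) fun i => Fin.append 0 (a2 i), w)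
  refine KQ.of_cfg c (by simp) (by simp) ?_
  let Ψ1 : (Fin (b1 + b2) → SF K m) →ₗ[K] (Fin b1 → SF K m) :=
    { toFun := fun F j => F (Fin.castAdd b2 j)
      map_add' := fun _ _ => rfl
      map_smul' := fun _ _ => rfl }
  let Ψ2 : (Fin (b1 + b2) → SF K m) →ₗ[K] (Fin b2 → SF K m) :=
    { toFun := fun F j => F (Fin.natAdd b1 j)
      map_add' := fun _ _ => rfl
      map_smul' := fun _ _ => rfl }
  have hmem : ∀ F ∈ ZK c, Ψ1 F ∈ ZK (L1 ((z1, z2, w), a1, a2)) ∧
      Ψ2 F ∈ ZK (L2 ((z1, z2, w), a1, a2)) := by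
    intro F hF
    obtain ⟨w1, w2, w3⟩ := mem_ZK.1 hF
    refine ⟨mem_ZK.2 ⟨fun i j => w1 (Sum.inl i) _, fun i v => ?_, fun l j => ?_⟩,
      mem_ZK.2 ⟨fun i j => w1 (Sum.inr i) _, fun i v => ?_, fun l j => ?_⟩⟩
    · have := w2 (Sum.inl i) v
      rw [Fin.sum_univ_add] at this
      have e : ∀ j : Fin b2, c.2.1 (Sum.inl i) (Fin.natAdd b1 j) = 0 := fun j => by
        change Fin.append (a1 i) 0 (Fin.natAdd b1 j) = 0
        rw [Fin.append_right]; rfl
      have e' : ∀ j : Fin b1, c.2.1 (Sum.inl i) (Fin.castAdd b2 j) = a1 i j := fun j => by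
        change Fin.append (a1 i) 0 (Fin.castAdd b2 j) = _
        rw [Fin.append_left]
      simp only [e, e', zero_mul, Finset.sum_const_zero, add_zero] at this
      exact this
    · obtain ⟨l, rfl⟩ := e1.surjective l
      change bf (F (Fin.castAdd b2 j) : Fin m → Fin m → K) (Sum.elim w z2 (e1.symm (e1 l)))
        (Sum.elim w z2 (e1.symm (e1 l))) = 0
      rw [e1.symm_apply_apply]
      rcases l with i | i
      · exact w3 i _
      · exact w1 (Sum.inr i) _
    · have := w2 (Sum.inr i) v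
      rw [Fin.sum_univ_add] at this
      have e : ∀ j : Fin b1, c.2.1 (Sum.inr i) (Fin.castAdd b2 j) = 0 := fun j => by
        change Fin.append 0 (a2 i) (Fin.castAdd b2 j) = 0
        rw [Fin.append_left]; rfl
      have e' : ∀ j : Fin b2, c.2.1 (Sum.inr i) (Fin.natAdd b1 j) = a2 i j := fun j => by
        change Fin.append 0 (a2 i) (Fin.natAdd b1 j) = _
        rw [Fin.append_right]
      simp only [e, e', zero_mul, Finset.sum_const_zero, zero_add] at this
      exact this
    · obtain ⟨l, rfl⟩ := e2.surjective l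
      change bf (F (Fin.natAdd b1 j) : Fin m → Fin m → K) (Sum.elim w z1 (e2.symm (e2 l)))
        (Sum.elim w z1 (e2.symm (e2 l))) = 0
      rw [e2.symm_apply_apply]
      rcases l with i | i
      · exact w3 i _
      · exact w1 (Sum.inl i) _
  refine (finrank_two (ZK c) _ _ Ψ1 Ψ2 (fun F hF => (hmem F hF).1) (fun F hF _ => (hmem F hF).2)
    fun F _ h3 h4 => ?_).trans (Nat.add_le_add k1 k2)
  funext j
  refine Fin.addCases (fun j => ?_) (fun j => ?_) j
  · exact congrFun h3 j
  · exact congrFun h4 j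

end

end Pool.Agent.WarR
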