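import Pool.Agent.WarR.Star
import Pool.Agent.WarR.Tools

/-!
# The peeling rank lemma (MP_db021c_ag, degree 2)   (helper62, after helper42, note 2404)

`GD E S z`: the symmetric matrices which vanish at the points `z u`, `u ∈ S`, and at the pairs of `E` inside `S`.
`Ind K m E S`: for some (equivalently: for general) points the conditions are independent, written as
`finrank (GD E S z) + (|S| + number of pairs) ≤ C(m+1, 2)`.

* `Ind.peel`: a point with at most `m` neighbours may be removed together with one dimension.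
* `Ind.isolated`: a point without neighbours costs one condition.
* `Ind.clique`: at most `m` points: every graph is allowed.
* `Ind.centres`: note 2404 of helper42.
* `Ind.SD`: the decoupled system `SD` of the star limit.
-/

set_option autoImplicit false

open Module

namespace Pool.Agent.WarR

open Pool.Agent.War

section Peel

variable {K : Type*} [Field K]

/-- the matrices which vanish on the points of `S` and on the pairs of `E` inside `S` -/
def GD {m : ℕ} {U : Type} (E : U → U → Prop) (S : Finset U) (z : U → Fin m → K) :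
    Submodule K (SF K m) where
  carrier := {A | (∀ u ∈ S, bf (A : Fin m → Fin m → K) (z u) (z u) = 0) ∧
    ∀ u ∈ S, ∀ v ∈ S, E u v → bf (A : Fin m → Fin m → K) (z u) (z v) = 0}
  add_mem' := by
    rintro A B ⟨h1, h2⟩ ⟨k1, k2⟩
    refine ⟨fun u hu => ?_, fun u hu v hv e => ?_⟩
    · rw [Submodule.coe_add, bf_add, h1 u hu, k1 u hu, add_zero]
    · rw [Submodule.coe_add, bf_add, h2 u hu v hv e, k2 u hu v hv e, add_zero]
  zero_mem' := by
    refine ⟨fun u hu => ?_, fun u hu v hv e => ?_⟩ <;> simp [bf_zero]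
  smul_mem' := by
    rintro r A ⟨h1, h2⟩
    refine ⟨fun u hu => ?_, fun u hu v hv e => ?_⟩
    · rw [Submodule.coe_smul, bf_smul, h1 u hu, mul_zero]
    · rw [Submodule.coe_smul, bf_smul, h2 u hu v hv e, mul_zero]

theorem mem_GD {m : ℕ} {U : Type} {E : U → U → Prop} {S : Finset U} {z : U → Fin m → K}
    {A : SF K m} : A ∈ GD E S z ↔
    (∀ u ∈ S, bf (A : Fin m → Fin m → K) (z u) (z u) = 0) ∧
    ∀ u ∈ S, ∀ v ∈ S, E u v → bf (A : Fin m → Fin m → K) (z u) (z v) = 0 := Iff.rfl

/-- the value at a pair -/
def evB {m : ℕ} (x y : Fin m → K) : SF K m →ₗ[K] K := (bfL x y).comp (SF K m).subtype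

@[simp] theorem evB_apply {m : ℕ} (x y : Fin m → K) (A : SF K m) :
    evB x y A = bf (A : Fin m → Fin m → K) x y := rfl

theorem LP_pt {m : ℕ} {U : Type} (u : U) (k : Fin m) :
    LP fun z : U → Fin m → K => z u k :=
  LP_apply (LinearMap.proj u : (U → Fin m → K) →ₗ[K] (Fin m → K)) k

theorem PK_GD {m : ℕ} {U : Type} [Finite U] (E : U → U → Prop) (S : Finset U) :
    PK fun z : U → Fin m → K => GD E S z := by
  have h1 : PK fun z : U → Fin m → K => ⨅ u : {u // u ∈ S}, LinearMap.ker (evB (z u) (z u)) := by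
    refine PK.iInf fun u => PK.one (φ := fun z : U → Fin m → K => evB (z u) (z u)) fun A => ?_
    simp only [evB_apply]
    exact LP_bf _ (LP_pt u.1) (LP_pt u.1)
  have h2 : PK fun z : U → Fin m → K => ⨅ p : {p : U × U // p.1 ∈ S ∧ p.2 ∈ S ∧ E p.1 p.2},
      LinearMap.ker (evB (z p.1.1) (z p.1.2)) := by
    refine PK.iInf fun p => PK.one (φ := fun z : U → Fin m → K => evB (z p.1.1) (z p.1.2))
      fun A => ?_
    simp only [evB_apply]
    exact LP_bf _ (LP_pt p.1.1) (LP_pt p.1.2)
  refine (h1.inf h2).congr fun z => ?_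
  ext A
  simp only [Submodule.mem_inf, Submodule.mem_iInf, LinearMap.mem_ker, evB_apply, mem_GD,
    Subtype.forall, Prod.forall]
  constructor
  · rintro ⟨k1, k2⟩
    exact ⟨k1, fun u hu v hv e => k2 u v ⟨hu, hv, e⟩⟩
  · rintro ⟨k1, k2⟩
    exact ⟨k1, fun u v e => k2 u e.1 v e.2.1 e.2.2⟩

theorem finrank_SF_le (m : ℕ) : finrank K (SF K m) ≤ (m + 1).choose 2 := by
  classical
  let L : SF K m →ₗ[K] (Sym2 (Fin m) → K) :=
    { toFun := fun A s => Sym2.lift ⟨fun i j => (A : Fin m → Fin m → K) i j, fun i j => A.2 i j⟩ s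
      map_add' := fun A B => by
        funext s
        induction s using Sym2.inductionOn with
        | _ i j => rfl
      map_smul' := fun r A => by
        funext s
        induction s using Sym2.inductionOn with
        | _ i j => rfl }
  have hL : Function.Injective L := by
    intro A B h
    apply Subtype.ext
    funext i j
    exact congrFun h s(i, j)
  have := LinearMap.finrank_le_finrank_of_injective hL
  rw [Module.finrank_fintype_fun_eq_card, Sym2.card, Fintype.card_fin] at this
  exact this

open Classical in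
/-- the neighbours of `c` in `S` -/
noncomputable def nb {U : Type} (E : U → U → Prop) (S : Finset U) (c : U) : Finset U :=
  S.filter fun u => E c u ∨ E u c

open Classical in
/-- the pairs of `E` inside `S` -/
noncomputable def ep {U : Type} (E : U → U → Prop) (S : Finset U) : Finset (U × U) :=
  (S ×ˢ S).filter fun p => E p.1 p.2

theorem mem_nb {U : Type} {E : U → U → Prop} {S : Finset U} {c u : U} :
    u ∈ nb E S c ↔ u ∈ S ∧ (E c u ∨ E u c) := by
  simp [nb]

theorem mem_ep {U : Type} {E : U → U → Prop} {S : Finset U} {p : U × U} :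
    p ∈ ep E S ↔ (p.1 ∈ S ∧ p.2 ∈ S) ∧ E p.1 p.2 := by
  simp [ep]

/-- asymmetric relations -/
def Asy {U : Type} (E : U → U → Prop) : Prop := ∀ u v, E u v → ¬ E v u

theorem Asy.irr {U : Type} {E : U → U → Prop} (h : Asy E) (u : U) : ¬ E u u := fun e => h u u e e

theorem card_ep_insert {U : Type} [DecidableEq U] {E : U → U → Prop} (hE : Asy E) {S : Finset U}
    {c : U} (hc : c ∉ S) : (ep E (insert c S)).card = (ep E S).card + (nb E S c).card := by
  classical
  have e1 : ep E (insert c S) = ep E S ∪
      ((nb E S c).image fun u => if E c u then (c, u) else (u, c)) := by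
    ext ⟨u, v⟩
    simp only [mem_ep, Finset.mem_union, Finset.mem_image, mem_nb, Finset.mem_insert]
    constructor
    · rintro ⟨⟨rfl | hu, rfl | hv⟩, e⟩
      · exact absurd e (hE.irr _)
      · exact Or.inr ⟨v, ⟨hv, Or.inl e⟩, by rw [if_pos e]⟩
      · refine Or.inr ⟨u, ⟨hu, Or.inr e⟩, ?_⟩
        rw [if_neg (hE _ _ e)]
      · exact Or.inl ⟨⟨hu, hv⟩, e⟩
    · rintro (⟨⟨hu, hv⟩, e⟩ | ⟨w, ⟨hw, e⟩, h⟩)
      · exact ⟨⟨Or.inr hu, Or.inr hv⟩, e⟩
      · by_cases hcw : E c w
        · rw [if_pos hcw] at h
          obtain ⟨rfl, rfl⟩ := Prod.ext_iff.1 h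
          exact ⟨⟨Or.inl rfl, Or.inr hw⟩, hcw⟩
        · rw [if_neg hcw] at h
          obtain ⟨rfl, rfl⟩ := Prod.ext_iff.1 h
          exact ⟨⟨Or.inr hw, Or.inl rfl⟩, e.resolve_left hcw⟩
  rw [e1, Finset.card_union_of_disjoint, Finset.card_image_of_injOn]
  · intro u hu v hv h
    have hu' := (mem_nb.1 hu).1
    have hv' := (mem_nb.1 hv).1
    simp only at h
    by_cases h1 : E c u <;> by_cases h2 : E c v <;> simp only [h1, h2, if_true, if_false] at h
    · exact (Prod.ext_iff.1 h).2
    · exact absurd ((show c = v from (Prod.ext_iff.1 h).1) ▸ hv') hc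
    · exact absurd ((show u = c from (Prod.ext_iff.1 h).1) ▸ hu') hc
    · exact (Prod.ext_iff.1 h).1
  · rw [Finset.disjoint_left]
    rintro ⟨u, v⟩ h1 h2
    obtain ⟨w, hw, h⟩ := Finset.mem_image.1 h2
    have h3 := (mem_ep.1 h1).1
    by_cases hcw : E c w
    · rw [if_pos hcw] at h
      obtain ⟨rfl, rfl⟩ := Prod.ext_iff.1 h
      exact hc h3.1
    · rw [if_neg hcw] at h
      obtain ⟨rfl, rfl⟩ := Prod.ext_iff.1 h
      exact hc h3.2

/-- independence of the conditions -/
def Ind (K : Type*) [Field K] (m : ℕ) {U : Type} (E : U → U → Prop) (S : Finset U) : Prop :=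
  ∃ z : U → Fin m → K, finrank K (GD E S z) + (S.card + (ep E S).card) ≤ (m + 1).choose 2

theorem Ind.gen {m : ℕ} {U : Type} [Finite U] {E : U → U → Prop} {S : Finset U}
    (h : Ind K m E S) : Gen K fun z : U → Fin m → K =>
      finrank K (GD E S z) + (S.card + (ep E S).card) ≤ (m + 1).choose 2 := by
  obtain ⟨z, hz⟩ := h
  have h1 := (PK_GD E S).gen_finrank (x₀ := z)
    (k := (m + 1).choose 2 - (S.card + (ep E S).card)) (by omega)
  exact h1.mono fun x hx => by omega

theorem Ind.count {m : ℕ} {U : Type} {E : U → U → Prop} {S : Finset U}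
    (h : Ind K m E S) : S.card + (ep E S).card ≤ (m + 1).choose 2 := by
  obtain ⟨z, hz⟩ := h
  omega

theorem Ind.empty (m : ℕ) {U : Type} (E : U → U → Prop) : Ind K m E (∅ : Finset U) := by
  refine ⟨0, ?_⟩
  have h1 : (ep E (∅ : Finset U)).card = 0 := by
    simp [ep]
  rw [h1, Finset.card_empty]
  exact (Submodule.finrank_le _).trans (finrank_SF_le m)

/-- linear independence of at most `m` points is a generic property -/
theorem gen_indep {m : ℕ} {U : Type} [Finite U] (N : Finset U) (hN : N.card ≤ m) :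
    Gen K fun z : U → Fin m → K => LinearIndependent K fun u : N => z u := by
  classical
  have hPK : PK fun z : U → Fin m → K => ⨅ k : Fin m,
      LinearMap.ker (∑ u : N, (z u k) • (LinearMap.proj u : (N → K) →ₗ[K] K)) := by
    refine PK.iInf fun k => PK.one
      (φ := fun z : U → Fin m → K => ∑ u : N, (z u k) • (LinearMap.proj u : (N → K) →ₗ[K] K))
      fun a => ?_
    simp only [LinearMap.sum_apply, LinearMap.smul_apply, LinearMap.proj_apply, smul_eq_mul]
    exact LP.sum _ fun u _ => (LP_pt u.1 k).mul (LP.const _)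
  obtain ⟨f⟩ : Nonempty (N ↪ Fin m) := Function.Embedding.nonempty_of_card_le (by simpa using hN)
  have h0 : (⨅ k : Fin m, LinearMap.ker (∑ u : N, ((fun u k => if h : u ∈ N then
      (Pi.single (f ⟨u, h⟩) (1 : K) : Fin m → K) k else 0) (u : U) k) •
        (LinearMap.proj u : (N → K) →ₗ[K] K))) = ⊥ := by
    rw [eq_bot_iff]
    intro a ha
    rw [Submodule.mem_bot]
    funext u
    have h1 := (Submodule.mem_iInf _).1 ha (f u)
    rw [LinearMap.mem_ker] at h1
    simp only [LinearMap.sum_apply, LinearMap.smul_apply, LinearMap.proj_apply, smul_eq_mul] at h1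
    rw [Finset.sum_eq_single u] at h1
    · simpa using h1
    · intro v _ hv
      have : f u ≠ f v := fun h => hv (f.injective h).symm
      simp [Pi.single_apply, this]
    · simp
  refine (hPK.gen_bot (x₀ := fun u k => if h : u ∈ N then
      (Pi.single (f ⟨u, h⟩) (1 : K) : Fin m → K) k else 0) h0).mono fun z hz => ?_
  rw [Fintype.linearIndependent_iff]
  intro a ha u
  have h1 : a ∈ (⨅ k : Fin m,
      LinearMap.ker (∑ u : N, (z u k) • (LinearMap.proj u : (N → K) →ₗ[K] K))) := by
    rw [Submodule.mem_iInf]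
    intro k
    rw [LinearMap.mem_ker]
    have := congrFun ha k
    simp only [Finset.sum_apply, Pi.smul_apply, smul_eq_mul, Pi.zero_apply] at this
    simp only [LinearMap.sum_apply, LinearMap.smul_apply, LinearMap.proj_apply, smul_eq_mul]
    rw [← this]
    exact Finset.sum_congr rfl fun u _ => mul_comm _ _
  rw [hz, Submodule.mem_bot] at h1
  rw [h1]
  rfl

theorem bf_cons {m : ℕ} (A : Fin (m + 1) → Fin (m + 1) → K) (w w' : Fin m → K) :
    bf A (Fin.cons 0 w) (Fin.cons 0 w') = bf (fun i j => A i.succ j.succ) w w' := by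
  unfold bf
  simp [Fin.sum_univ_succ]

theorem bf_single_cons {m : ℕ} (A : Fin (m + 1) → Fin (m + 1) → K) (w : Fin m → K) :
    bf A (Pi.single 0 1) (Fin.cons 0 w) = ∑ j, w j * A 0 j.succ := by
  unfold bf
  simp [Fin.sum_univ_succ]

/-- the row without the diagonal entry -/
def row0 {m : ℕ} : SF K (m + 1) →ₗ[K] (Fin m → K) where
  toFun A := fun k => (A : Fin (m + 1) → Fin (m + 1) → K) 0 k.succ
  map_add' _ _ := rfl
  map_smul' _ _ := rfl

/-- **Peeling.** -/
theorem Ind.peel [Infinite K] {m : ℕ} {U : Type} [Finite U] [DecidableEq U] {E : U → U → Prop}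
    (hE : Asy E) {S : Finset U} {c : U} (hc : c ∉ S) (hnb : (nb E S c).card ≤ m)
    (h : Ind K m E S) : Ind K (m + 1) E (insert c S) := by
  classical
  obtain ⟨z, hz, hli⟩ := (h.gen.and (gen_indep (nb E S c) hnb)).exists
  let M : Matrix (nb E S c) (Fin m) K := Matrix.of fun u j => z u j
  have hM : M.rank = (nb E S c).card := by
    have h1 : LinearIndependent K M.row := hli
    rw [h1.rank_matrix]
    simp
  have hk : finrank K (LinearMap.ker M.mulVecLin) = m - (nb E S c).card := by
    have h1 := LinearMap.finrank_range_add_finrank_ker M.mulVecLin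
    rw [Module.finrank_fintype_fun_eq_card, Fintype.card_fin] at h1
    have h2 : finrank K (LinearMap.range M.mulVecLin) = (nb E S c).card := hM
    omega
  let z' : U → Fin (m + 1) → K := fun u => if u = c then Pi.single 0 1 else Fin.cons 0 (z u)
  have hzc : z' c = Pi.single 0 1 := by simp [z']
  have hzu : ∀ u, u ≠ c → z' u = Fin.cons 0 (z u) := fun u hu => by simp [z', hu]
  have hne : ∀ u ∈ S, u ≠ c := fun u hu h => hc (h ▸ hu)
  have key : finrank K (GD E (insert c S) z') ≤
      finrank K (LinearMap.ker M.mulVecLin) + finrank K (GD E S z) := by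
    refine finrank_two (GD E (insert c S) z') (LinearMap.ker M.mulVecLin) (GD E S z) row0 resH
      ?_ ?_ ?_
    · intro A hA
      rw [LinearMap.mem_ker]
      funext u
      rw [Matrix.mulVecLin_apply]
      change ∑ j, z u j * (A : Fin (m + 1) → Fin (m + 1) → K) 0 j.succ = 0
      rw [← bf_single_cons]
      have hu := mem_nb.1 u.2
      have h1 := hzu u (hne u hu.1)
      rw [← h1, ← hzc]
      rcases hu.2 with e | e
      · exact hA.2 c (Finset.mem_insert_self _ _) u (Finset.mem_insert_of_mem hu.1) e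
      · rw [bf_comm A.2]
        exact hA.2 u (Finset.mem_insert_of_mem hu.1) c (Finset.mem_insert_self _ _) e
    · intro A hA _
      refine ⟨fun u hu => ?_, fun u hu v hv e => ?_⟩
      · have := hA.1 u (Finset.mem_insert_of_mem hu)
        rw [hzu u (hne u hu), bf_cons] at this
        exact this
      · have := hA.2 u (Finset.mem_insert_of_mem hu) v (Finset.mem_insert_of_mem hv) e
        rw [hzu u (hne u hu), hzu v (hne v hv), bf_cons] at this
        exact this
    · intro A hA h1 h2
      apply Subtype.ext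
      funext i j
      have h00 : (A : Fin (m + 1) → Fin (m + 1) → K) 0 0 = 0 := by
        have := hA.1 c (Finset.mem_insert_self _ _)
        rw [hzc, bf_single] at this
        exact this
      have h0 : ∀ j : Fin m, (A : Fin (m + 1) → Fin (m + 1) → K) 0 j.succ = 0 :=
        fun j => congrFun h1 j
      have h3 : ∀ i j : Fin m, (A : Fin (m + 1) → Fin (m + 1) → K) i.succ j.succ = 0 := by
        intro i j
        have := congrArg (fun B : SF K m => (B : Fin m → Fin m → K) i j) h2
        simpa [resH_apply] using this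
      refine Fin.cases ?_ (fun i => ?_) i
      · refine Fin.cases ?_ (fun j => ?_) j
        · exact h00
        · exact h0 j
      · refine Fin.cases ?_ (fun j => ?_) j
        · rw [A.2 i.succ 0]
          exact h0 i
        · exact h3 i j
  refine ⟨z', ?_⟩
  rw [card_ep_insert hE hc, Finset.card_insert_of_notMem hc]
  have hch : (m + 1 + 1).choose 2 = (m + 1) + (m + 1).choose 2 := by
    rw [Nat.choose_succ_succ' (m + 1) 1, Nat.choose_one_right]
  omega

/-- the kernel has at most the expected dimension -/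
def Fil (K : Type*) [Field K] (m : ℕ) {U : Type} (E : U → U → Prop) (T : Finset U) : Prop :=
  ∃ z : U → Fin m → K, finrank K (GD E T z) ≤ (m + 1).choose 2 - (T.card + (ep E T).card)

theorem Ind.fil {m : ℕ} {U : Type} {E : U → U → Prop} {S : Finset U} (h : Ind K m E S) :
    Fil K m E S := by
  obtain ⟨z, hz⟩ := h
  exact ⟨z, by omega⟩

theorem Fil.ind {m : ℕ} {U : Type} {E : U → U → Prop} {S : Finset U} (h : Fil K m E S)
    (hc : S.card + (ep E S).card ≤ (m + 1).choose 2) : Ind K m E S := by
  obtain ⟨z, hz⟩ := h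
  exact ⟨z, by omega⟩

/-- a point without neighbours lowers the dimension by one -/
theorem Fil.isolated [CharZero K] {m : ℕ} {U : Type} [DecidableEq U] {E : U → U → Prop}
    (hE : Asy E) {S : Finset U} {c : U} (hc : c ∉ S) (hnb : nb E S c = ∅)
    (h : Fil K m E S) : Fil K m E (insert c S) := by
  classical
  obtain ⟨z, hz⟩ := h
  have hne : ∀ u ∈ S, u ≠ c := fun u hu h => hc (h ▸ hu)
  have hle : ∀ w : Fin m → K, GD E (insert c S) (Function.update z c w) ≤
      GD E S z ⊓ LinearMap.ker (evB w w) := by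
    intro w A hA
    refine ⟨⟨fun u hu => ?_, fun u hu v hv e => ?_⟩, ?_⟩
    · have := hA.1 u (Finset.mem_insert_of_mem hu)
      rwa [Function.update_of_ne (hne u hu)] at this
    · have := hA.2 u (Finset.mem_insert_of_mem hu) v (Finset.mem_insert_of_mem hv) e
      rwa [Function.update_of_ne (hne u hu), Function.update_of_ne (hne v hv)] at this
    · have := hA.1 c (Finset.mem_insert_self _ _)
      rw [Function.update_self] at this
      exact this
  have e1 : (ep E (insert c S)).card = (ep E S).card := by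
    rw [card_ep_insert hE hc, hnb, Finset.card_empty, add_zero]
  obtain ⟨y, hy⟩ := red (K := K) (fun w : Fin m → K => evB w w) (GD E S z) ⊥ (fun A _ hA => by
    by_contra hcon
    push Not at hcon
    exact hA (by
      rw [Submodule.mem_bot]
      exact eq_zero_of_values fun z => hcon z)) 1
  rw [finrank_bot, max_eq_left (Nat.zero_le _)] at hy
  refine ⟨Function.update z c (y 0), ?_⟩
  have h2 : finrank K (GD E (insert c S) (Function.update z c (y 0))) ≤
      finrank K (GD E S z) - 1 := by
    refine (Submodule.finrank_mono ((hle (y 0)).trans ?_)).trans hy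
    refine inf_le_inf_left _ (le_iInf fun i => ?_)
    rw [Subsingleton.elim i 0]
  rw [e1, Finset.card_insert_of_notMem hc]
  omega

/-- a set of points without neighbours: `T` contains `S`, and all pairs inside `T` are pairs
inside `S` -/
theorem Fil.extend [CharZero K] {m : ℕ} {U : Type} {E : U → U → Prop} (hE : Asy E)
    {S T : Finset U} (hST : S ⊆ T) (hT : ∀ u ∈ T, ∀ v ∈ T, E u v → u ∈ S ∧ v ∈ S)
    (h : Fil K m E S) : Fil K m E T := by
  classical
  obtain ⟨R, hR, rfl⟩ : ∃ R : Finset U, Disjoint R S ∧ T = R ∪ S := by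
    refine ⟨T \ S, Finset.sdiff_disjoint, ?_⟩
    rw [Finset.sdiff_union_of_subset hST]
  clear hST
  induction R using Finset.induction_on with
  | empty => simpa using h
  | insert c R hc ih =>
    rw [Finset.disjoint_insert_left] at hR
    have h1 := ih hR.2 (fun u hu v hv e => hT u (by
      rw [Finset.insert_union]; exact Finset.mem_insert_of_mem hu) v (by
      rw [Finset.insert_union]; exact Finset.mem_insert_of_mem hv) e)
    rw [Finset.insert_union]
    refine h1.isolated hE (by simp [hc, hR.1]) ?_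
    rw [Finset.eq_empty_iff_forall_notMem]
    intro u hu
    obtain ⟨h2, h3⟩ := mem_nb.1 hu
    have hcT : c ∈ insert c R ∪ S := by simp
    have huT : u ∈ insert c R ∪ S := by
      rw [Finset.insert_union]; exact Finset.mem_insert_of_mem h2
    rcases h3 with e | e
    · exact hR.1 (hT c hcT u huT e).1
    · exact hR.1 (hT u huT c hcT e).2

/-- **Few points.** -/
theorem Ind.clique [Infinite K] {m : ℕ} {U : Type} [Finite U] {E : U → U → Prop} (hE : Asy E)
    {S : Finset U} (hS : S.card ≤ m) : Ind K m E S := by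
  classical
  induction S using Finset.induction_on generalizing m with
  | empty => exact Ind.empty m E
  | insert c S hc ih =>
    rw [Finset.card_insert_of_notMem hc] at hS
    obtain ⟨m, rfl⟩ : ∃ m', m = m' + 1 := ⟨m - 1, by omega⟩
    refine (ih (m := m) (by omega)).peel hE hc ?_
    have : (nb E S c).card ≤ S.card := Finset.card_le_card fun u hu => (mem_nb.1 hu).1
    omega

/-- **Centres.** Every point of `C` has at most `m` neighbours outside `C`. -/
theorem Ind.centres [Infinite K] {m : ℕ} {U : Type} [Finite U] [DecidableEq U]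
    {E : U → U → Prop} (hE : Asy E) {C R : Finset U} (hCR : Disjoint C R)
    (hC : ∀ c ∈ C, (nb E R c).card ≤ m) (hR : Ind K m E R) : Ind K (m + C.card) E (C ∪ R) := by
  classical
  induction C using Finset.induction_on with
  | empty => simpa using hR
  | insert c C hc ih =>
    rw [Finset.disjoint_insert_left] at hCR
    have h1 := ih hCR.2 fun c' hc' => hC c' (Finset.mem_insert_of_mem hc')
    rw [Finset.card_insert_of_notMem hc, Finset.insert_union]
    refine h1.peel hE (by simp [hc, hCR.1]) ?_
    have h2 : nb E (C ∪ R) c ⊆ C ∪ nb E R c := by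
      intro u hu
      obtain ⟨h3, h4⟩ := mem_nb.1 hu
      rcases Finset.mem_union.1 h3 with h5 | h5
      · exact Finset.mem_union_left _ h5
      · exact Finset.mem_union_right _ (mem_nb.2 ⟨h5, h4⟩)
    have h3 := (Finset.card_le_card h2).trans (Finset.card_union_le _ _)
    have h4 := hC c (Finset.mem_insert_self _ _)
    change (nb E (C ∪ R) c).card ≤ m + C.card
    omega

/-- **The peeling lemma** (helper42, note 2404): `C` the centres, `P` at most `m` further points, `L` points such
that all pairs inside `P ∪ L` are pairs inside `P`. -/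
theorem Ind.note [CharZero K] {m : ℕ} {U : Type} [Finite U] [DecidableEq U]
    {E : U → U → Prop} (hE : Asy E) {C P L : Finset U} (hC : Disjoint C (P ∪ L))
    (hCn : ∀ c ∈ C, (nb E (P ∪ L) c).card ≤ m) (hP : P.card ≤ m)
    (hL : ∀ u ∈ P ∪ L, ∀ v ∈ P ∪ L, E u v → u ∈ P ∧ v ∈ P)
    (hct : (P ∪ L).card + (ep E (P ∪ L)).card ≤ (m + 1).choose 2) :
    Ind K (m + C.card) E (C ∪ (P ∪ L)) := by
  classical
  have : Infinite K := CharZero.infinite K
  refine Ind.centres hE hC hCn (Fil.ind ?_ hct)
  exact (Ind.clique hE hP).fil.extend hE Finset.subset_union_left hL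

/-- as `GD`, and singular at the points of `Z` -/
def HD {m : ℕ} {U : Type} (E : U → U → Prop) (Z T : Finset U) (z : U → Fin m → K) :
    Submodule K (SF K m) where
  carrier := {A | A ∈ GD E T z ∧ ∀ u ∈ Z, ∀ v, bf (A : Fin m → Fin m → K) (z u) v = 0}
  add_mem' := by
    rintro A B ⟨h1, h2⟩ ⟨k1, k2⟩
    refine ⟨add_mem h1 k1, fun u hu v => ?_⟩
    rw [Submodule.coe_add, bf_add, h2 u hu, k2 u hu, add_zero]
  zero_mem' := ⟨zero_mem _, fun u hu v => by simp [bf_zero]⟩
  smul_mem' := by
    rintro r A ⟨h1, h2⟩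
    refine ⟨Submodule.smul_mem _ _ h1, fun u hu v => ?_⟩
    rw [Submodule.coe_smul, bf_smul, h2 u hu, mul_zero]

/-- one more singular point, one more dimension -/
theorem HD_step {m r : ℕ} {U : Type} [DecidableEq U] {E : U → U → Prop} {Z T : Finset U} {c : U}
    (hZ : c ∉ Z) (hT : c ∉ T) (h : ∃ z : U → Fin m → K, finrank K (HD E Z T z) ≤ r) :
    ∃ z : U → Fin (m + 1) → K, finrank K (HD E (insert c Z) T z) ≤ r := by
  classical
  obtain ⟨z, hz⟩ := h
  let z' : U → Fin (m + 1) → K := fun u => if u = c then Pi.single 0 1 else Fin.cons 0 (z u)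
  have hzc : z' c = Pi.single 0 1 := by simp [z']
  have hzu : ∀ u, u ≠ c → z' u = Fin.cons 0 (z u) := fun u hu => by simp [z', hu]
  have hneT : ∀ u ∈ T, u ≠ c := fun u hu h => hT (h ▸ hu)
  have hneZ : ∀ u ∈ Z, u ≠ c := fun u hu h => hZ (h ▸ hu)
  refine ⟨z', le_trans ?_ hz⟩
  have h0 : ∀ A ∈ HD E (insert c Z) T z', ∀ j,
      (A : Fin (m + 1) → Fin (m + 1) → K) 0 j = 0 := by
    intro A hA j
    have := hA.2 c (Finset.mem_insert_self _ _) (Pi.single j 1)
    rw [hzc, bf_single] at this
    exact this
  have key := finrank_two (HD E (insert c Z) T z') (⊥ : Submodule K (Fin m → K)) (HD E Z T z)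
    row0 resH
    (fun A hA => by
      rw [Submodule.mem_bot]
      funext j
      exact h0 A hA j.succ)
    (fun A hA _ => by
      refine ⟨⟨fun u hu => ?_, fun u hu v hv e => ?_⟩, fun u hu v => ?_⟩
      · have := hA.1.1 u hu
        rw [hzu u (hneT u hu), bf_cons] at this
        exact this
      · have := hA.1.2 u hu v hv e
        rw [hzu u (hneT u hu), hzu v (hneT v hv), bf_cons] at this
        exact this
      · have := hA.2 u (Finset.mem_insert_of_mem hu) (Fin.cons 0 v)
        rw [hzu u (hneZ u hu), bf_cons] at this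
        exact this)
    (fun A hA _ h2 => by
      apply Subtype.ext
      funext i j
      have h3 : ∀ i j : Fin m, (A : Fin (m + 1) → Fin (m + 1) → K) i.succ j.succ = 0 := by
        intro i j
        have := congrArg (fun B : SF K m => (B : Fin m → Fin m → K) i j) h2
        simpa [resH_apply] using this
      refine Fin.cases ?_ (fun i => ?_) i
      · exact h0 A hA j
      · refine Fin.cases ?_ (fun j => ?_) j
        · rw [A.2 i.succ 0]
          exact h0 A hA i.succ
        · exact h3 i j)
  rw [finrank_bot, zero_add] at key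
  exact key

theorem HD_ex {m r : ℕ} {U : Type} {E : U → U → Prop} {Z T : Finset U}
    (hZT : Disjoint Z T) (h : ∃ z : U → Fin m → K, finrank K (GD E T z) ≤ r) :
    ∃ z : U → Fin (m + Z.card) → K, finrank K (HD E Z T z) ≤ r := by
  classical
  induction Z using Finset.induction_on with
  | empty =>
    obtain ⟨z, hz⟩ := h
    exact ⟨z, (Submodule.finrank_mono fun A (hA : A ∈ HD E ∅ T z) => hA.1).trans hz⟩
  | insert c Z hc ih =>
    rw [Finset.disjoint_insert_left] at hZT
    rw [Finset.card_insert_of_notMem hc]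
    exact HD_step hc hZT.1 (ih hZT.2)

/-- the pairs of the form `k` in the star limit, outside the group `k` -/
def SE {b : ℕ} {I J : Type} (g lab : I → Fin b) (ord : I → ℕ) (k : Fin b) :
    I ⊕ J → I ⊕ J → Prop
  | Sum.inl i, Sum.inl i' => g i = g i' ∧ ord i < ord i' ∧ lab i = k
  | _, _ => False

theorem SE_asy {b : ℕ} {I J : Type} (g lab : I → Fin b) (ord : I → ℕ) (k : Fin b) :
    Asy (SE (J := J) g lab ord k) := by
  rintro (i | i) (j | j) h1 h2
  · exact absurd (lt_trans h1.2.1 h2.2.1) (lt_irrefl _)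
  · exact h1
  · exact h1
  · exact h1

open Classical in
/-- the points outside the group `k` -/
noncomputable def ST {b : ℕ} {I J : Type} [Fintype I] [Fintype J] (g : I → Fin b) (k : Fin b) :
    Finset (I ⊕ J) := Finset.univ.filter fun u => ∀ i, u = Sum.inl i → g i ≠ k

theorem PK_SD {m b : ℕ} {I J : Type} [Finite I] [Finite J] (g lab : I → Fin b) (ord : I → ℕ)
    (k : Fin b) : PK fun q : (I → Fin m → K) × (J → Fin m → K) => SD q.1 q.2 g lab ord k := by
  have l1 : ∀ (i : I) (a : Fin m), LP fun q : (I → Fin m → K) × (J → Fin m → K) => q.1 i a :=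
    fun i a => (LP_pt i a).comp_linear (LinearMap.fst K (I → Fin m → K) (J → Fin m → K))
  have l2 : ∀ (l : J) (a : Fin m), LP fun q : (I → Fin m → K) × (J → Fin m → K) => q.2 l a :=
    fun l a => (LP_pt l a).comp_linear (LinearMap.snd K (I → Fin m → K) (J → Fin m → K))
  have h1 : PK fun q : (I → Fin m → K) × (J → Fin m → K) =>
      ⨅ i : I, LinearMap.ker (evB (q.1 i) (q.1 i)) := by
    refine PK.iInf fun i => PK.one (φ := fun q : (I → Fin m → K) × (J → Fin m → K) =>
      evB (q.1 i) (q.1 i)) fun A => ?_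
    simp only [evB_apply]
    exact LP_bf _ (l1 i) (l1 i)
  have h2 : PK fun q : (I → Fin m → K) × (J → Fin m → K) =>
      ⨅ i : J, LinearMap.ker (evB (q.2 i) (q.2 i)) := by
    refine PK.iInf fun i => PK.one (φ := fun q : (I → Fin m → K) × (J → Fin m → K) =>
      evB (q.2 i) (q.2 i)) fun A => ?_
    simp only [evB_apply]
    exact LP_bf _ (l2 i) (l2 i)
  have h3 : PK fun q : (I → Fin m → K) × (J → Fin m → K) =>
      ⨅ i : {p : I × Fin m // g p.1 = k}, LinearMap.ker (evB (q.1 i.1.1) (Pi.single i.1.2 1)) := by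
    refine PK.iInf fun i => PK.one (φ := fun q : (I → Fin m → K) × (J → Fin m → K) =>
      evB (q.1 i.1.1) (Pi.single i.1.2 1)) fun A => ?_
    simp only [evB_apply]
    exact LP_bf _ (l1 i.1.1) fun _ => LP.const _
  have h4 : PK fun q : (I → Fin m → K) × (J → Fin m → K) =>
      ⨅ p : {p : I × I // g p.1 = g p.2 ∧ ord p.1 < ord p.2 ∧ lab p.1 = k},
        LinearMap.ker (evB (q.1 p.1.1) (q.1 p.1.2)) := by
    refine PK.iInf fun p => PK.one (φ := fun q : (I → Fin m → K) × (J → Fin m → K) =>
      evB (q.1 p.1.1) (q.1 p.1.2)) fun A => ?_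
    simp only [evB_apply]
    exact LP_bf _ (l1 p.1.1) (l1 p.1.2)
  refine (((h1.inf h2).inf h3).inf h4).congr fun q => ?_
  ext A
  simp only [Submodule.mem_inf, Submodule.mem_iInf, LinearMap.mem_ker, evB_apply, mem_SD,
    Subtype.forall, Prod.forall]
  have e : ∀ i, (∀ v, bf (A : Fin m → Fin m → K) (q.1 i) v = 0) ↔
      ∀ a : Fin m, bf (A : Fin m → Fin m → K) (q.1 i) (Pi.single a 1) = 0 := by
    intro i
    have := full_iff (b := 1) (fun _ => (A : Fin m → Fin m → K)) (fun _ => 1) (q.1 i)
    simpa using this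
  constructor
  · rintro ⟨⟨⟨k1, k2⟩, k3⟩, k4⟩
    exact ⟨k1, k2, fun i hi => (e i).2 fun a => k3 i a hi, fun i i' e1 e2 e3 => k4 i i' ⟨e1, e2, e3⟩⟩
  · rintro ⟨k1, k2, k3, k4⟩
    exact ⟨⟨⟨k1, k2⟩, fun i a hi => (e i).1 (k3 i hi) a⟩, fun i i' ⟨e1, e2, e3⟩ => k4 i i' e1 e2 e3⟩

open Classical in
/-- **The rank lemma for the star limit.** If the conditions of a set `S` of points outside the group `k`, which contains
all the pairs of the form `k`, are independent in dimension `m` (= total dimension minus the size of the group), then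
for general points the decoupled system `SD` has at most the expected dimension. -/
theorem SD_gen [CharZero K] {m M b : ℕ} {I J : Type} [Fintype I] [Fintype J] (g lab : I → Fin b)
    (ord : I → ℕ) (k : Fin b) (hM : M = m + (Finset.univ.filter fun i => g i = k).card)
    (S : Finset (I ⊕ J)) (hS : S ⊆ ST g k)
    (hE : ∀ i i', g i ≠ k → g i = g i' → ord i < ord i' → lab i = k →
      Sum.inl i ∈ S ∧ Sum.inl i' ∈ S)
    (hI : Ind K m (SE g lab ord k) S) :
    Gen K fun q : (I → Fin M → K) × (J → Fin M → K) => finrank K (SD q.1 q.2 g lab ord k) ≤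
      (m + 1).choose 2 - ((ST (J := J) g k).card + (ep (SE g lab ord k) (ST (J := J) g k)).card) := by
  subst hM
  have hT : ∀ u ∈ ST (J := J) g k, ∀ v ∈ ST (J := J) g k, SE g lab ord k u v → u ∈ S ∧ v ∈ S := by
    rintro (i | i) hi (j | j) hj e
    · exact hE i j ((Finset.mem_filter.1 hi).2 i rfl) e.1 e.2.1 e.2.2
    · exact absurd e id
    · exact absurd e id
    · exact absurd e id
  have h1 := hI.fil.extend (SE_asy g lab ord k) hS hT
  let Z : Finset (I ⊕ J) := (Finset.univ.filter fun i => g i = k).map Function.Embedding.inl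
  have hZ : Z.card = (Finset.univ.filter fun i => g i = k).card := Finset.card_map _
  have hd : Disjoint Z (ST g k) := by
    rw [Finset.disjoint_left]
    intro u hu hu'
    obtain ⟨i, hi, rfl⟩ := Finset.mem_map.1 hu
    exact (Finset.mem_filter.1 hu').2 i rfl (Finset.mem_filter.1 hi).2
  have h2 := HD_ex hd h1
  rw [hZ] at h2
  obtain ⟨z, hz⟩ := h2
  refine (PK_SD g lab ord k).gen_finrank
    (x₀ := (fun i => z (Sum.inl i), fun j => z (Sum.inr j))) ((Submodule.finrank_mono ?_).trans hz)
  intro A hA
  obtain ⟨k1, k2, k3, k4⟩ := mem_SD.1 hA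
  refine ⟨⟨?_, ?_⟩, ?_⟩
  · rintro (i | i) _
    · exact k1 i
    · exact k2 i
  · rintro (i | i) _ (j | j) _ e
    · exact k4 i j e.1 e.2.1 e.2.2
    · exact absurd e id
    · exact absurd e id
    · exact absurd e id
  · intro u hu v
    obtain ⟨i, hi, rfl⟩ := Finset.mem_map.1 hu
    exact k3 i (Finset.mem_filter.1 hi).2 v

end Peel

end Pool.Agent.WarR
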