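import Pool.Agent.WarR.Defs

/-!
# Pencils of quadratic forms with full and simple points   (helper41)

`KQ K m 2 x s ((m - x) (m + 1) - 2 s)` for `2 ≤ x ≤ m`, and `KQ K m 2 x s 0` for `m ≤ x`. Explicit
configuration: the full points are coordinate vectors, the simple points are sums of at most four of them.
-/

set_option autoImplicit false

open Module

namespace Pool.Agent.WarR

open Pool.Agent.War

namespace Pen

section

variable {K : Type*} [Field K]

/-- a coordinate vector -/
def u (K : Type*) [Field K] (m a : ℕ) : Fin m → K := fun t => if (t : ℕ) = a then 1 else 0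

theorem u_eq {m : ℕ} (a : Fin m) : u K m a = Pi.single a 1 := by
  funext t
  rw [u, Pi.single_apply]
  simp only [Fin.ext_iff]

theorem bf_u {m : ℕ} (A : Fin m → Fin m → K) (a b : Fin m) : bf A (u K m a) (u K m b) = A a b := by
  rw [u_eq, u_eq, bf_single]

theorem bf_add_left {m : ℕ} (A : Fin m → Fin m → K) (x y z : Fin m → K) :
    bf A (x + y) z = bf A x z + bf A y z := by
  simp only [bf, Pi.add_apply, add_mul, Finset.sum_add_distrib]

/-! ### general lemmas -/

theorem mono_full {m b x s r : ℕ} (h : KQ K m b x s r) : KQ K m b (x + 1) s r := by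
  obtain ⟨c, hc⟩ := h
  refine KQ.of_cfg (I := Option (Fin x)) (J := Fin s)
    ((fun i => i.elim 0 c.1, fun i => i.elim 0 c.2.1, c.2.2) : Cfg K m b (Option (Fin x)) (Fin s))
    (by simp) (Fintype.card_fin s) ((Submodule.finrank_mono ?_).trans hc)
  intro F hF
  obtain ⟨h1, h2, h3⟩ := mem_ZK.1 hF
  exact mem_ZK.2 ⟨fun i j => h1 (some i) j, fun i v => h2 (some i) v, h3⟩

theorem mono_simple {m b x s r : ℕ} (h : KQ K m b x s r) : KQ K m b x (s + 1) r := by
  obtain ⟨c, hc⟩ := h
  refine KQ.of_cfg (I := Fin x) (J := Option (Fin s))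
    ((c.1, c.2.1, fun i => i.elim 0 c.2.2) : Cfg K m b (Fin x) (Option (Fin s)))
    (Fintype.card_fin x) (by simp) ((Submodule.finrank_mono ?_).trans hc)
  intro F hF
  obtain ⟨h1, h2, h3⟩ := mem_ZK.1 hF
  exact mem_ZK.2 ⟨h1, h2, fun i j => h3 (some i) j⟩

/-- the values of all the forms at a point -/
def evB {m b : ℕ} (z : Fin m → K) : (Fin b → SF K m) →ₗ[K] (Fin b → K) where
  toFun F j := bf (F j : Fin m → Fin m → K) z z
  map_add' F G := by
    funext j
    rw [Pi.add_apply, Submodule.coe_add, bf_add, Pi.add_apply]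
  map_smul' r F := by
    funext j
    rw [Pi.smul_apply, Submodule.coe_smul, bf_smul]; rfl

/-- one simple point costs at most `b` -/
theorem rm_simple {m b x s r : ℕ} (h : KQ K m b x (s + 1) r) : KQ K m b x s (r + b) := by
  obtain ⟨c, hc⟩ := h
  refine ⟨(c.1, c.2.1, fun l => c.2.2 l.castSucc), ?_⟩
  have h1 := finrank_le_map_add_ker (evB (c.2.2 (Fin.last s)))
    (ZK ((c.1, c.2.1, fun l => c.2.2 l.castSucc) : Cfg K m b (Fin x) (Fin s)))
  have h2 : finrank K ((ZK ((c.1, c.2.1, fun l => c.2.2 l.castSucc) :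
      Cfg K m b (Fin x) (Fin s))).map (evB (c.2.2 (Fin.last s)))) ≤ b :=
    (Submodule.finrank_le _).trans (by simp)
  have h3 : ZK ((c.1, c.2.1, fun l => c.2.2 l.castSucc) : Cfg K m b (Fin x) (Fin s)) ⊓
      LinearMap.ker (evB (c.2.2 (Fin.last s))) ≤ ZK c := by
    rintro F ⟨hF, hF0⟩
    obtain ⟨k1, k2, k3⟩ := mem_ZK.1 hF
    refine mem_ZK.2 ⟨k1, k2, fun l j => ?_⟩
    refine Fin.lastCases ?_ (fun l => k3 l j) l
    exact congrFun (LinearMap.mem_ker.1 hF0) j
  have h4 := Submodule.finrank_mono h3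
  omega

theorem rm_simples {m b x s r : ℕ} : ∀ t : ℕ, KQ K m b x (s + t) r → KQ K m b x s (r + b * t)
  | 0, h => by simpa using h
  | t + 1, h => by
    have h1 := rm_simples t (rm_simple (s := s + t) h)
    rwa [show r + b + b * t = r + b * (t + 1) by ring] at h1

/-- a nonzero quadratic form has a nonzero value -/
theorem exists_val [CharZero K] {m : ℕ} {A : Fin m → Fin m → K} (hA : A ∈ SF K m) (h : A ≠ 0) :
    ∃ z, bf A z z ≠ 0 := by
  by_contra hcon
  push Not at hcon
  apply h
  funext i j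
  have h1 := hcon (u K m i + u K m j)
  rw [bf_add_left, bf_add_right, bf_add_right, hcon, hcon, bf_comm hA (u K m j) (u K m i), bf_u] at h1
  have h2 : 2 * A i j = 0 := by linear_combination h1
  exact (mul_eq_zero.1 h2).resolve_left two_ne_zero

/-- one more simple point lowers a positive dimension -/
theorem add_simple [CharZero K] {m b x s r : ℕ} (h : KQ K m b x s (r + 1)) :
    KQ K m b x (s + 1) r := by
  obtain ⟨c, hc⟩ := h
  by_cases h0 : ZK c = ⊥
  · refine mono_simple ⟨c, ?_⟩
    rw [h0, finrank_bot]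
    exact Nat.zero_le _
  · obtain ⟨F, hF, hF0⟩ := (Submodule.ne_bot_iff _).1 h0
    obtain ⟨j, hj⟩ : ∃ j, F j ≠ 0 := by
      by_contra hcon
      push Not at hcon
      exact hF0 (funext hcon)
    obtain ⟨z, hz⟩ := exists_val (F j).2 (fun h => hj (Subtype.ext h))
    let c' : Cfg K m b (Fin x) (Option (Fin s)) := (c.1, c.2.1, fun i => i.elim z c.2.2)
    refine KQ.of_cfg c' (Fintype.card_fin x) (by simp) ?_
    have hlt : ZK c' < ZK c := by
      refine lt_of_le_of_ne ?_ ?_
      · intro G hG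
        obtain ⟨h1, h2, h3⟩ := mem_ZK.1 hG
        exact mem_ZK.2 ⟨h1, h2, fun i j => h3 (some i) j⟩
      · intro he
        rw [← he] at hF
        exact hz ((mem_ZK.1 hF).2.2 none j)
    have := Submodule.finrank_lt_finrank_of_lt hlt
    omega

/-! ### the equations -/

theorem core [CharZero K] (h o M : ℕ) (ho : o ≤ 1) (hh : 1 ≤ h) (G0 G1 : ℕ → ℕ → K)
    (s0 : ∀ a b, G0 a b = G0 b a) (s1 : ∀ a b, G1 a b = G1 b a)
    (full : ∀ i < 2 * h + o, ∀ c, G0 i c + i * G1 i c = 0)
    (diag : ∀ i < 2 * h + o, G0 i i = 0 ∧ G1 i i = 0)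
    (p1 : ∀ k < M, G0 (2 * h + o + k) (2 * h + o + k) = 0 ∧ G1 (2 * h + o + k) (2 * h + o + k) = 0)
    (p2 : ∀ k < M, ∀ j < h, ∀ G ∈ ({G0, G1} : Set (ℕ → ℕ → K)),
      G (2 * h + o + k) (2 * j + o * (k % 2)) + G (2 * h + o + k) (2 * j + o * (k % 2) + 1) = 0)
    (p3 : ∀ k < M, ∀ k' < k, G0 (2 * h + o + k) (2 * h + o + k') = 0 ∧
      G1 (2 * h + o + k) (2 * h + o + k') = 0)
    (p4 : ∀ t, o = 1 → 2 * t + 1 < M → ∀ G ∈ ({G0, G1} : Set (ℕ → ℕ → K)),
      G (2 * h + o + 2 * t) 0 + G (2 * h + o + 2 * t) (2 * h) +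
        (G (2 * h + o + (2 * t + 1)) 0 + G (2 * h + o + (2 * t + 1)) (2 * h)) = 0)
    (hl : o = 1 → ∀ k, k + 1 = M → k % 2 = 0 → G1 (2 * h + o + k) (2 * h) = 0) :
    ∀ a < 2 * h + o + M, ∀ b < 2 * h + o + M, G0 a b = 0 ∧ G1 a b = 0 := by
  -- full points
  have hii : ∀ i < 2 * h + o, ∀ i' < 2 * h + o, G0 i i' = 0 ∧ G1 i i' = 0 := by
    intro i hi i' hi'
    by_cases hne : i = i'
    · subst hne
      exact diag i hi
    have e1 := full i hi i'
    have e2 := full i' hi' i
    rw [s0 i' i, s1 i' i] at e2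
    have e3 : ((i : K) - i') * G1 i i' = 0 := by linear_combination e1 - e2
    have e4 : (i : K) - i' ≠ 0 := by
      intro h0
      exact hne (Nat.cast_injective (sub_eq_zero.1 h0))
    have e5 := (mul_eq_zero.1 e3).resolve_left e4
    refine ⟨?_, e5⟩
    rw [e5] at e1
    linear_combination e1
  -- the zeroth row from the first row
  have h01 : ∀ k, ∀ i < 2 * h + o, G1 (2 * h + o + k) i = 0 → G0 (2 * h + o + k) i = 0 := by
    intro k i hi h1
    have e1 := full i hi (2 * h + o + k)
    rw [s1, h1, mul_zero, add_zero, s0] at e1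
    exact e1
  have hf : ∀ k, ∀ i < 2 * h + o, G0 (2 * h + o + k) i = - (i * G1 (2 * h + o + k) i) := by
    intro k i hi
    have e1 := full i hi (2 * h + o + k)
    rw [s0, s1] at e1
    linear_combination e1
  -- covered indices
  have hpair : ∀ k < M, ∀ j < h, G1 (2 * h + o + k) (2 * j + o * (k % 2)) = 0 ∧
      G1 (2 * h + o + k) (2 * j + o * (k % 2) + 1) = 0 := by
    intro k hk j hj
    have e0 := p2 k hk j hj G0 (by simp)
    have e1 := p2 k hk j hj G1 (by simp)
    have hlt : 2 * j + o * (k % 2) + 1 < 2 * h + o := by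
      have : o * (k % 2) ≤ o := by
        have : k % 2 ≤ 1 := by omega
        nlinarith
      omega
    rw [hf k _ (by omega), hf k _ hlt] at e0
    push_cast at e0
    have e2 : G1 (2 * h + o + k) (2 * j + o * (k % 2) + 1) = 0 := by
      linear_combination -e0 - (2 * (j : K) + o * ((k % 2 : ℕ) : K)) * e1
    refine ⟨?_, e2⟩
    rw [e2, add_zero] at e1
    exact e1
  have hcov : ∀ k < M, ∀ i, o * (k % 2) ≤ i → i < 2 * h + o * (k % 2) →
      G1 (2 * h + o + k) i = 0 := by
    intro k hk i hi1 hi2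
    obtain ⟨w, hw⟩ : ∃ w, i = w + o * (k % 2) := ⟨i - o * (k % 2), by omega⟩
    rcases Nat.even_or_odd' w with ⟨j, hj | hj⟩
    · have := (hpair k hk j (by omega)).1
      rw [hw, hj]
      exact this
    · have := (hpair k hk j (by omega)).2
      rw [hw, hj]
      rw [show 2 * j + 1 + o * (k % 2) = 2 * j + o * (k % 2) + 1 by ring]
      exact this
  -- the leftovers
  have hleft : ∀ t, o = 1 → 2 * t + 1 < M → G1 (2 * h + o + 2 * t) (2 * h) = 0 ∧
      G1 (2 * h + o + (2 * t + 1)) 0 = 0 := by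
    intro t ho1 ht
    have c1 : G1 (2 * h + o + 2 * t) 0 = 0 := by
      refine hcov (2 * t) (by omega) 0 ?_ ?_
      · rw [Nat.mul_mod_right, mul_zero]
      · rw [Nat.mul_mod_right, mul_zero]
        omega
    have c2 : G1 (2 * h + o + (2 * t + 1)) (2 * h) = 0 := by
      have hm : (2 * t + 1) % 2 = 1 := by omega
      refine hcov (2 * t + 1) ht (2 * h) ?_ ?_
      · rw [hm, ho1]
        omega
      · rw [hm, ho1]
        omega
    have e0 := p4 t ho1 ht G0 (by simp)
    have e1 := p4 t ho1 ht G1 (by simp)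
    rw [hf _ 0 (by omega), hf _ (2 * h) (by omega), hf _ 0 (by omega), hf _ (2 * h) (by omega),
      c1, c2] at e0
    rw [c1, c2] at e1
    push_cast at e0
    have e2 : (2 * (h : K)) * G1 (2 * h + o + 2 * t) (2 * h) = 0 := by linear_combination -e0
    have e3 : (2 * (h : K)) ≠ 0 := by
      have : (h : K) ≠ 0 := Nat.cast_ne_zero.2 (by omega)
      exact mul_ne_zero two_ne_zero this
    have e4 := (mul_eq_zero.1 e2).resolve_left e3
    refine ⟨e4, ?_⟩
    rw [e4] at e1
    linear_combination e1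
  have hki : ∀ k < M, ∀ i < 2 * h + o, G1 (2 * h + o + k) i = 0 := by
    intro k hk i hi
    by_cases hc : o * (k % 2) ≤ i ∧ i < 2 * h + o * (k % 2)
    · exact hcov k hk i hc.1 hc.2
    · have ho1 : o = 1 := by
        by_contra h0
        have : o = 0 := by omega
        subst this
        apply hc
        constructor <;> omega
      rcases Nat.mod_two_eq_zero_or_one k with hk2 | hk2
      · rw [hk2, mul_zero] at hc
        have hi2 : i = 2 * h := by omega
        rw [hi2]
        by_cases hkM : k + 1 < M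
        · have := (hleft (k / 2) ho1 (by omega)).1
          rwa [show 2 * (k / 2) = k by omega] at this
        · exact hl ho1 k (by omega) hk2
      · rw [hk2, ho1] at hc
        have hi2 : i = 0 := by omega
        rw [hi2]
        have := (hleft (k / 2) ho1 (by omega)).2
        rwa [show 2 * (k / 2) + 1 = k by omega] at this
  -- all the entries
  intro a ha b hb
  by_cases ha1 : a < 2 * h + o
  · by_cases hb1 : b < 2 * h + o
    · exact hii a ha1 b hb1
    · obtain ⟨k, hk⟩ : ∃ k, b = 2 * h + o + k := ⟨b - (2 * h + o), by omega⟩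
      rw [s0, s1, hk]
      have h1 := hki k (by omega) a ha1
      exact ⟨h01 k a ha1 h1, h1⟩
  · obtain ⟨k, hk⟩ : ∃ k, a = 2 * h + o + k := ⟨a - (2 * h + o), by omega⟩
    by_cases hb1 : b < 2 * h + o
    · rw [hk]
      have h1 := hki k (by omega) b hb1
      exact ⟨h01 k b hb1 h1, h1⟩
    · obtain ⟨k', hk'⟩ : ∃ k', b = 2 * h + o + k' := ⟨b - (2 * h + o), by omega⟩
      rcases lt_trichotomy k' k with h1 | h1 | h1
      · rw [hk, hk']
        exact p3 k (by omega) k' h1
      · rw [hk, hk', h1]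
        exact p1 k (by omega)
      · rw [s0, s1, hk, hk']
        exact p3 k' (by omega) k h1

/-! ### the configuration -/

/-- the simple points -/
abbrev JT (h o M : ℕ) : Type :=
  Fin M ⊕ ((Fin M × Fin h) ⊕ (((k : Fin M) × Fin k) ⊕ Fin (o * (M / 2))))

/-- the configuration -/
def cfgP (K : Type*) [Field K] (h o M : ℕ) :
    Cfg K (2 * h + o + M) 2 (Fin (2 * h + o)) (JT h o M) :=
  (fun i => u K _ i, fun i j => if j = 0 then 1 else (i : K),
    Sum.elim (fun k => u K _ (2 * h + o + k))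
      (Sum.elim (fun q => u K _ (2 * h + o + q.1) + (u K _ (2 * (q.2 : ℕ) + o * ((q.1 : ℕ) % 2)) +
          u K _ (2 * (q.2 : ℕ) + o * ((q.1 : ℕ) % 2) + 1)))
        (Sum.elim (fun q => u K _ (2 * h + o + q.1) + u K _ (2 * h + o + q.2))
          fun t => (u K _ (2 * h + o + 2 * (t : ℕ)) + u K _ (2 * h + o + (2 * (t : ℕ) + 1))) +
            (u K _ 0 + u K _ (2 * h)))))

theorem card_JT (h o M : ℕ) : 2 * Fintype.card (JT h o M) + o * (M % 2) =
    M * (2 * h + o + M + 1) := by
  have h1 : (∑ k : Fin M, (k : ℕ)) * 2 = M * (M - 1) := by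
    rw [Fin.sum_univ_eq_sum_range (fun i => i) M]
    exact Finset.sum_range_id_mul_two M
  have h2 : Fintype.card (JT h o M) = M + (M * h + ((∑ k : Fin M, (k : ℕ)) + o * (M / 2))) := by
    simp [JT, Fintype.card_sum, Fintype.card_sigma]
  have h3 : M * (M - 1) + M = M * M := by
    cases M with
    | zero => rfl
    | succ M => rw [Nat.add_sub_cancel]; ring
  have h4 : o * (M / 2) * 2 + o * (M % 2) = o * M := by
    have := Nat.div_add_mod M 2
    calc o * (M / 2) * 2 + o * (M % 2) = o * (2 * (M / 2) + M % 2) := by ring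
      _ = o * M := by rw [this]
  rw [h2]
  nlinarith

theorem quad2 {m : ℕ} {A : Fin m → Fin m → K} (hA : A ∈ SF K m) (x y : Fin m → K) :
    bf A (x + y) (x + y) = bf A x x + bf A y y + 2 * bf A x y := by
  rw [bf_add_left, bf_add_right, bf_add_right, bf_comm hA y x]
  ring

/-- the kernel of the configuration -/
theorem pen_ker [CharZero K] {h o M : ℕ} (ho : o ≤ 1) (hh : 1 ≤ h) {F : Fin 2 → SF K (2 * h + o + M)}
    (hF : F ∈ ZK (cfgP K h o M))
    (hl : o = 1 → ∀ k, k + 1 = M → k % 2 = 0 →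
      bf (F 1 : Fin (2 * h + o + M) → Fin (2 * h + o + M) → K) (u K _ (2 * h + o + k))
        (u K _ (2 * h)) = 0) : F = 0 := by
  obtain ⟨h1, h2, h3⟩ := mem_ZK.1 hF
  have hs : ∀ j, ∀ x y, bf (F j : Fin (2 * h + o + M) → Fin (2 * h + o + M) → K) x y =
      bf (F j : Fin (2 * h + o + M) → Fin (2 * h + o + M) → K) y x := fun j x y =>
    bf_comm (F j).2 x y
  have hdiag : ∀ j, ∀ i < 2 * h + o, bf (F j : Fin (2 * h + o + M) → Fin (2 * h + o + M) → K)
      (u K _ i) (u K _ i) = 0 := fun j i hi => h1 ⟨i, hi⟩ j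
  have hfull : ∀ i < 2 * h + o, ∀ v,
      bf (F 0 : Fin (2 * h + o + M) → Fin (2 * h + o + M) → K) (u K _ i) v +
        i * bf (F 1 : Fin (2 * h + o + M) → Fin (2 * h + o + M) → K) (u K _ i) v = 0 := by
    intro i hi v
    have := h2 ⟨i, hi⟩ v
    rw [Fin.sum_univ_two] at this
    change (if (0 : Fin 2) = 0 then (1 : K) else (i : K)) * bf (F 0 : _ → _ → K) (u K _ i) v +
      (if (1 : Fin 2) = 0 then (1 : K) else (i : K)) * bf (F 1 : _ → _ → K) (u K _ i) v = 0 at this
    rw [if_pos rfl, if_neg (by decide), one_mul] at this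
    exact this
  -- entries of the full points
  have hii : ∀ j, ∀ i < 2 * h + o, ∀ i' < 2 * h + o,
      bf (F j : Fin (2 * h + o + M) → Fin (2 * h + o + M) → K) (u K _ i) (u K _ i') = 0 := by
    intro j i hi i' hi'
    by_cases hne : i = i'
    · subst hne
      exact hdiag j i hi
    have e1 := hfull i hi (u K _ i')
    have e2 := hfull i' hi' (u K _ i)
    rw [hs 0 (u K _ i'), hs 1 (u K _ i')] at e2
    have e3 : ((i : K) - i') * bf (F 1 : Fin (2 * h + o + M) → Fin (2 * h + o + M) → K)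
        (u K _ i) (u K _ i') = 0 := by linear_combination e1 - e2
    have e4 : (i : K) - i' ≠ 0 := by
      intro h0
      exact hne (Nat.cast_injective (sub_eq_zero.1 h0))
    have e5 := (mul_eq_zero.1 e3).resolve_left e4
    rw [e5, mul_zero, add_zero] at e1
    fin_cases j
    · exact e1
    · exact e5
  have hp1 : ∀ j, ∀ k < M, bf (F j : Fin (2 * h + o + M) → Fin (2 * h + o + M) → K)
      (u K _ (2 * h + o + k)) (u K _ (2 * h + o + k)) = 0 := fun j k hk => h3 (Sum.inl ⟨k, hk⟩) j
  have hp2 : ∀ j, ∀ k < M, ∀ l < h, bf (F j : Fin (2 * h + o + M) → Fin (2 * h + o + M) → K)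
      (u K _ (2 * h + o + k)) (u K _ (2 * l + o * (k % 2))) +
      bf (F j : Fin (2 * h + o + M) → Fin (2 * h + o + M) → K)
      (u K _ (2 * h + o + k)) (u K _ (2 * l + o * (k % 2) + 1)) = 0 := by
    intro j k hk l hl2
    have h4 : bf (F j : Fin (2 * h + o + M) → Fin (2 * h + o + M) → K)
        (u K _ (2 * h + o + k) + (u K _ (2 * l + o * (k % 2)) + u K _ (2 * l + o * (k % 2) + 1)))
        (u K _ (2 * h + o + k) + (u K _ (2 * l + o * (k % 2)) + u K _ (2 * l + o * (k % 2) + 1)))
        = 0 := h3 (Sum.inr (Sum.inl (⟨k, hk⟩, ⟨l, hl2⟩))) j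
    have hlt : 2 * l + o * (k % 2) + 1 < 2 * h + o := by
      have : o * (k % 2) ≤ o := by
        have : k % 2 ≤ 1 := by omega
        nlinarith
      omega
    rw [quad2 (F j).2, quad2 (F j).2, bf_add_right, hp1 j k hk, hdiag j _ (by omega),
      hdiag j _ hlt, hii j _ (by omega) _ hlt] at h4
    have h5 : 2 * (bf (F j : Fin (2 * h + o + M) → Fin (2 * h + o + M) → K)
      (u K _ (2 * h + o + k)) (u K _ (2 * l + o * (k % 2))) +
      bf (F j : Fin (2 * h + o + M) → Fin (2 * h + o + M) → K)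
      (u K _ (2 * h + o + k)) (u K _ (2 * l + o * (k % 2) + 1))) = 0 := by
      linear_combination h4
    exact (mul_eq_zero.1 h5).resolve_left two_ne_zero
  have hp3 : ∀ j, ∀ k < M, ∀ k' < k, bf (F j : Fin (2 * h + o + M) → Fin (2 * h + o + M) → K)
      (u K _ (2 * h + o + k)) (u K _ (2 * h + o + k')) = 0 := by
    intro j k hk k' hk'
    have h4 : bf (F j : Fin (2 * h + o + M) → Fin (2 * h + o + M) → K)
        (u K _ (2 * h + o + k) + u K _ (2 * h + o + k'))
        (u K _ (2 * h + o + k) + u K _ (2 * h + o + k')) = 0 :=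
      h3 (Sum.inr (Sum.inr (Sum.inl ⟨⟨k, hk⟩, ⟨k', hk'⟩⟩))) j
    rw [quad2 (F j).2, hp1 j k hk, hp1 j k' (by omega)] at h4
    have h5 : 2 * bf (F j : Fin (2 * h + o + M) → Fin (2 * h + o + M) → K)
      (u K _ (2 * h + o + k)) (u K _ (2 * h + o + k')) = 0 := by linear_combination h4
    exact (mul_eq_zero.1 h5).resolve_left two_ne_zero
  have hp4 : ∀ j, ∀ t, o = 1 → 2 * t + 1 < M →
      bf (F j : Fin (2 * h + o + M) → Fin (2 * h + o + M) → K) (u K _ (2 * h + o + 2 * t)) (u K _ 0) +
      bf (F j : Fin (2 * h + o + M) → Fin (2 * h + o + M) → K) (u K _ (2 * h + o + 2 * t))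
        (u K _ (2 * h)) +
      (bf (F j : Fin (2 * h + o + M) → Fin (2 * h + o + M) → K) (u K _ (2 * h + o + (2 * t + 1)))
        (u K _ 0) +
      bf (F j : Fin (2 * h + o + M) → Fin (2 * h + o + M) → K) (u K _ (2 * h + o + (2 * t + 1)))
        (u K _ (2 * h))) = 0 := by
    intro j t ho1 ht
    have ht2 : t < o * (M / 2) := by
      rw [ho1, one_mul]
      omega
    have h4 : bf (F j : Fin (2 * h + o + M) → Fin (2 * h + o + M) → K)
        ((u K _ (2 * h + o + 2 * t) + u K _ (2 * h + o + (2 * t + 1))) +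
            (u K _ 0 + u K _ (2 * h)))
        ((u K _ (2 * h + o + 2 * t) + u K _ (2 * h + o + (2 * t + 1))) +
            (u K _ 0 + u K _ (2 * h))) = 0 :=
      h3 (Sum.inr (Sum.inr (Sum.inr ⟨t, ht2⟩))) j
    have h6 := hp3 j (2 * t + 1) ht (2 * t) (by omega)
    rw [hs] at h6
    rw [quad2 (F j).2, quad2 (F j).2, quad2 (F j).2, bf_add_left, bf_add_right, bf_add_right,
      hp1 j _ (by omega), hp1 j _ ht, hdiag j 0 (by omega), hdiag j (2 * h) (by omega),
      hii j 0 (by omega) (2 * h) (by omega), h6] at h4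
    have h5 : 2 * (bf (F j : Fin (2 * h + o + M) → Fin (2 * h + o + M) → K)
        (u K _ (2 * h + o + 2 * t)) (u K _ 0) +
      bf (F j : Fin (2 * h + o + M) → Fin (2 * h + o + M) → K) (u K _ (2 * h + o + 2 * t))
        (u K _ (2 * h)) +
      (bf (F j : Fin (2 * h + o + M) → Fin (2 * h + o + M) → K) (u K _ (2 * h + o + (2 * t + 1)))
        (u K _ 0) +
      bf (F j : Fin (2 * h + o + M) → Fin (2 * h + o + M) → K) (u K _ (2 * h + o + (2 * t + 1)))
        (u K _ (2 * h)))) = 0 := by
      linear_combination h4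
    exact (mul_eq_zero.1 h5).resolve_left two_ne_zero
  have hc := core (K := K) h o M ho hh
    (fun a b => bf (F 0 : Fin (2 * h + o + M) → Fin (2 * h + o + M) → K) (u K _ a) (u K _ b))
    (fun a b => bf (F 1 : Fin (2 * h + o + M) → Fin (2 * h + o + M) → K) (u K _ a) (u K _ b))
    (fun a b => hs 0 _ _) (fun a b => hs 1 _ _) (fun i hi c => hfull i hi _)
    (fun i hi => ⟨hdiag 0 i hi, hdiag 1 i hi⟩) (fun k hk => ⟨hp1 0 k hk, hp1 1 k hk⟩)
    (fun k hk j hj G hG => by
      rcases hG with rfl | rfl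
      · exact hp2 0 k hk j hj
      · exact hp2 1 k hk j hj)
    (fun k hk k' hk' => ⟨hp3 0 k hk k' hk', hp3 1 k hk k' hk'⟩)
    (fun t ho1 ht G hG => by
      rcases hG with rfl | rfl
      · exact hp4 0 t ho1 ht
      · exact hp4 1 t ho1 ht) hl
  funext j
  apply Subtype.ext
  funext a b
  have h7 := hc a a.2 b b.2
  simp only [bf_u] at h7
  fin_cases j
  · exact h7.1
  · exact h7.2

/-- the base configuration: the dimension is at most the parity -/
theorem pen_base [CharZero K] (h o M : ℕ) (ho : o ≤ 1) (hh : 1 ≤ h) :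
    KQ K (2 * h + o + M) 2 (2 * h + o) (Fintype.card (JT h o M)) (o * (M % 2)) := by
  refine KQ.of_cfg (cfgP K h o M) (Fintype.card_fin _) rfl ?_
  by_cases hcase : o = 1 ∧ M % 2 = 1
  · obtain ⟨ho1, hM⟩ := hcase
    have he : o * (M % 2) = 1 := by rw [ho1, hM]
    rw [he]
    let φ : (Fin 2 → SF K (2 * h + o + M)) →ₗ[K] K :=
      { toFun := fun F => bf (F 1 : Fin (2 * h + o + M) → Fin (2 * h + o + M) → K)
          (u K _ (2 * h + o + (M - 1))) (u K _ (2 * h))
        map_add' := fun F G => by rw [Pi.add_apply, Submodule.coe_add, bf_add]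
        map_smul' := fun r F => by rw [Pi.smul_apply, Submodule.coe_smul, bf_smul]; rfl }
    have h1 := finrank_le_map_add_ker φ (ZK (cfgP K h o M))
    have h2 : finrank K ((ZK (cfgP K h o M)).map φ) ≤ 1 :=
      (Submodule.finrank_le _).trans (by simp)
    have h3 : ZK (cfgP K h o M) ⊓ LinearMap.ker φ = ⊥ := by
      rw [eq_bot_iff]
      rintro F ⟨hF, hF0⟩
      rw [Submodule.mem_bot]
      refine pen_ker ho hh hF fun _ k hk _ => ?_
      have h4 : k = M - 1 := by omega
      rw [h4]
      exact hF0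
    rw [h3, finrank_bot] at h1
    omega
  · have h3 : ZK (cfgP K h o M) = ⊥ := by
      rw [eq_bot_iff]
      intro F hF
      rw [Submodule.mem_bot]
      refine pen_ker ho hh hF fun ho1 k hk hk2 => ?_
      exact absurd ⟨ho1, by omega⟩ hcase
    rw [h3, finrank_bot]
    exact Nat.zero_le _

end

end Pen

open Pen

/-- **Pencils**, `2 ≤ x ≤ m` full points and any number of simple points. -/
theorem pencil {K : Type*} [Field K] [CharZero K] {m x : ℕ} (hx : 2 ≤ x) (hxm : x ≤ m) (s : ℕ) :
    KQ K m 2 x s ((m - x) * (m + 1) - 2 * s) := by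
  obtain ⟨h, o, ho, rfl⟩ : ∃ h o, o ≤ 1 ∧ x = 2 * h + o :=
    ⟨x / 2, x % 2, by omega, by omega⟩
  obtain ⟨M, rfl⟩ : ∃ M, m = 2 * h + o + M := ⟨m - (2 * h + o), by omega⟩
  have hb := pen_base (K := K) h o M ho (by omega)
  have hc := card_JT h o M
  rw [Nat.add_sub_cancel_left]
  set T := Fintype.card (JT h o M) with hT
  rcases le_total s T with hs | hs
  · obtain ⟨t, ht⟩ : ∃ t, T = s + t := ⟨T - s, by omega⟩
    rw [ht] at hb
    have h1 := rm_simples t hb
    have h2 : M * (2 * h + o + M + 1) - 2 * s = o * (M % 2) + 2 * t := by omega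
    rw [h2]
    exact h1
  · have h0 : ∀ t, KQ K (2 * h + o + M) 2 (2 * h + o) (T + t)
        (M * (2 * h + o + M + 1) - 2 * (T + t)) := by
      intro t
      induction t with
      | zero =>
        rw [add_zero]
        have : M * (2 * h + o + M + 1) - 2 * T = o * (M % 2) := by omega
        rw [this]
        exact hb
      | succ t ih =>
        have h2 : M * (2 * h + o + M + 1) - 2 * (T + (t + 1)) = 0 := by
          have : o * (M % 2) ≤ 1 := by
            have : M % 2 ≤ 1 := by omega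
            nlinarith
          omega
        rw [h2]
        refine add_simple (r := 0) ?_
        obtain ⟨c, hc'⟩ := ih
        refine ⟨c, hc'.trans ?_⟩
        have : o * (M % 2) ≤ 1 := by
          have : M % 2 ≤ 1 := by omega
          nlinarith
        omega
    obtain ⟨t, ht⟩ : ∃ t, s = T + t := ⟨s - T, by omega⟩
    rw [ht]
    exact h0 t

/-- **Pencils** with at least `m` full points. -/
theorem pencil_zero {K : Type*} [Field K] [CharZero K] {m x : ℕ} (hxm : m ≤ x) (s : ℕ) :
    KQ K m 2 x s 0 := by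
  have h0 : KQ K m 2 m 0 0 := by
    refine ⟨(fun i => u K _ i, fun i j => if j = 0 then 1 else (i : K), fun l => l.elim0), ?_⟩
    have h3 : ZK ((fun i => u K _ i, fun i j => if j = 0 then 1 else (i : K), fun l => l.elim0) :
        Cfg K m 2 (Fin m) (Fin 0)) = ⊥ := by
      rw [eq_bot_iff]
      intro F hF
      rw [Submodule.mem_bot]
      obtain ⟨h1, h2, -⟩ := mem_ZK.1 hF
      have hfull : ∀ i k : Fin m, (F 0 : Fin m → Fin m → K) i k +
          (i : ℕ) * (F 1 : Fin m → Fin m → K) i k = 0 := by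
        intro i k
        have := h2 i (u K m k)
        rw [Fin.sum_univ_two] at this
        change (if (0 : Fin 2) = 0 then (1 : K) else ((i : ℕ) : K)) *
          bf (F 0 : Fin m → Fin m → K) (u K m i) (u K m k) +
          (if (1 : Fin 2) = 0 then (1 : K) else ((i : ℕ) : K)) *
          bf (F 1 : Fin m → Fin m → K) (u K m i) (u K m k) = 0 at this
        rw [if_pos rfl, if_neg (by decide), one_mul, bf_u, bf_u] at this
        exact this
      have hdiag : ∀ (j : Fin 2) (i : Fin m), (F j : Fin m → Fin m → K) i i = 0 := by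
        intro j i
        have := h1 i j
        change bf (F j : Fin m → Fin m → K) (u K m i) (u K m i) = 0 at this
        rwa [bf_u] at this
      have hall : ∀ i k : Fin m, (F 0 : Fin m → Fin m → K) i k = 0 ∧
          (F 1 : Fin m → Fin m → K) i k = 0 := by
        intro i k
        by_cases hne : i = k
        · subst hne
          exact ⟨hdiag 0 i, hdiag 1 i⟩
        have e1 := hfull i k
        have e2 := hfull k i
        rw [(F 0).2 k i, (F 1).2 k i] at e2
        have e3 : (((i : ℕ) : K) - ((k : ℕ) : K)) * (F 1 : Fin m → Fin m → K) i k = 0 := by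
          linear_combination e1 - e2
        have e4 : ((i : ℕ) : K) - ((k : ℕ) : K) ≠ 0 := by
          intro h0
          exact hne (Fin.ext (Nat.cast_injective (sub_eq_zero.1 h0)))
        have e5 := (mul_eq_zero.1 e3).resolve_left e4
        rw [e5, mul_zero, add_zero] at e1
        exact ⟨e1, e5⟩
      funext j
      apply Subtype.ext
      funext i k
      fin_cases j
      · exact (hall i k).1
      · exact (hall i k).2
    rw [h3, finrank_bot]
  have h1 : ∀ t, KQ K m 2 (m + t) 0 0 := by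
    intro t
    induction t with
    | zero => exact h0
    | succ t ih => exact mono_full ih
  obtain ⟨t, rfl⟩ : ∃ t, x = m + t := ⟨x - m, by omega⟩
  induction s with
  | zero => exact h1 t
  | succ s ih => exact mono_simple ih

end Pool.Agent.WarR
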