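import Pool.Agent.WarR.Tools

/-!
# The step without split point   (helper14)

All full points and `y₁` simple points on `H`, `m - p + 1` simple points off `H`.
-/

set_option autoImplicit false

open Module

namespace Pool.Agent.WarR

open Pool.Agent.War

section

variable {K : Type*} [Field K]

/-- the residual space for the off points `(1, lam o)` -/
def E0 {m b : ℕ} {I O : Type} (lam : O → Fin m → K) (c : (I → Fin m → K) × (I → Fin b → K)) :
    Submodule K (Fin b → Fin m → K) :=
  (⨅ o, LinearMap.ker (lv (lam o))) ⊓ ⨅ i, LinearMap.ker (ro (c.2 i, c.1 i))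

theorem mem_E0 {m b : ℕ} {I O : Type} {lam : O → Fin m → K}
    {c : (I → Fin m → K) × (I → Fin b → K)} {G : Fin b → Fin m → K} :
    G ∈ E0 lam c ↔ (∀ o, lv (lam o) G = 0) ∧ ∀ i, ro (c.2 i, c.1 i) G = 0 := by
  simp only [E0, Submodule.mem_inf, Submodule.mem_iInf, LinearMap.mem_ker]

theorem PK_E0 {m b x : ℕ} {O : Type} [Finite O] (lam : O → Fin m → K) :
    PK fun c : (Fin x → Fin m → K) × (Fin x → Fin b → K) => E0 lam c := by
  have l1 : ∀ (i : Fin x) (k : Fin m),
      LP fun c : (Fin x → Fin m → K) × (Fin x → Fin b → K) => c.1 i k := fun i k =>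
    LP_apply ((LinearMap.proj i : (Fin x → Fin m → K) →ₗ[K] (Fin m → K)).comp
      (LinearMap.fst K (Fin x → Fin m → K) (Fin x → Fin b → K))) k
  have l2 : ∀ (i : Fin x) (k : Fin b),
      LP fun c : (Fin x → Fin m → K) × (Fin x → Fin b → K) => c.2 i k := fun i k =>
    LP_apply ((LinearMap.proj i : (Fin x → Fin b → K) →ₗ[K] (Fin b → K)).comp
      (LinearMap.snd K (Fin x → Fin m → K) (Fin x → Fin b → K))) k
  have h1 : ∀ o, PK fun _ : (Fin x → Fin m → K) × (Fin x → Fin b → K) =>
      LinearMap.ker (lv (K := K) (b := b) (lam o)) := fun o =>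
    PK_lv (v := fun _ => lam o) fun k => LP.const _
  have h2 : ∀ i : Fin x, PK fun c : (Fin x → Fin m → K) × (Fin x → Fin b → K) =>
      LinearMap.ker (ro (c.2 i, c.1 i)) := fun i => PK_ro (l1 i) (l2 i)
  exact (PK.iInf h1).inf (PK.iInf h2)

/-- a linear map vanishing on `m - p` basis vectors, with general rank one conditions -/
theorem E0_gen {m b x p : ℕ} (hp : p ≤ m) : ∃ lam : Fin (m - p) → Fin m → K,
    Gen K fun c : (Fin x → Fin m → K) × (Fin x → Fin b → K) =>
      finrank K (E0 lam c) ≤ b * p - x := by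
  classical
  have hcard : Fintype.card (Fin (m - p) ⊕ Fin p) = m := by
    simp only [Fintype.card_sum, Fintype.card_fin]
    omega
  let e : Fin (m - p) ⊕ Fin p ≃ Fin m := Fintype.equivFinOfCardEq hcard
  refine ⟨fun o => Pi.single (e (Sum.inl o)) 1, ?_⟩
  let W : Submodule K (Fin b → Fin m → K) :=
    ⨅ o : Fin (m - p), LinearMap.ker (lv (Pi.single (e (Sum.inl o)) 1))
  have hW : ∀ G ∈ W, ∀ j o, G j (e (Sum.inl o)) = 0 := by
    intro G hG j o
    rw [Submodule.mem_iInf] at hG
    rw [← lv_single (e (Sum.inl o)) G j]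
    exact congrFun (LinearMap.mem_ker.1 (hG o)) j
  have hWdim : finrank K W ≤ b * p := by
    let T : (Fin b → Fin m → K) →ₗ[K] (Fin b → Fin p → K) :=
      { toFun := fun G j l => G j (e (Sum.inr l))
        map_add' := fun _ _ => rfl
        map_smul' := fun _ _ => rfl }
    have hinj : Function.Injective (T.comp W.subtype) := by
      rw [← LinearMap.ker_eq_bot, LinearMap.ker_eq_bot']
      intro G hG
      have h2 : ∀ j l, (G : Fin b → Fin m → K) j (e (Sum.inr l)) = 0 :=
        fun j l => congrFun (congrFun hG j) l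
      apply Subtype.ext
      funext j i
      obtain ⟨q, rfl⟩ := e.surjective i
      rcases q with i | i
      · exact hW G G.2 j i
      · exact h2 j i
    have := LinearMap.finrank_le_finrank_of_injective hinj
    refine this.trans ?_
    rw [Module.finrank_pi_fintype]
    simp
  obtain ⟨y, hy⟩ := red (K := K) (ro (K := K) (m := m) (b := b)) W ⊥ (fun w _ hw => by
    rw [Submodule.mem_bot] at hw
    by_contra hcon
    push Not at hcon
    apply hw
    funext j i
    have := hcon (Pi.single j 1, Pi.single i 1)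
    have h2 : ro ((Pi.single j 1 : Fin b → K), (Pi.single i 1 : Fin m → K)) w = w j i := by
      rw [ro_apply, Finset.sum_eq_single j]
      · have := lv_single i w j
        rw [lv_apply] at this
        simp only [Pi.single_eq_same, one_mul]
        exact this
      · intro l _ hl
        simp [hl]
      · simp
    rw [← h2, this]
    rfl) x
  refine (PK_E0 _).gen_finrank (x₀ := (fun i => (y i).2, fun i => (y i).1)) ?_
  refine (Submodule.finrank_mono (fun G hG => ?_)).trans (hy.trans ?_)
  · obtain ⟨g1, g2⟩ := mem_E0.1 hG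
    refine ⟨?_, ?_⟩
    · rw [SetLike.mem_coe, Submodule.mem_iInf]
      exact fun o => g1 o
    · rw [SetLike.mem_coe, Submodule.mem_iInf]
      exact fun i => g2 i
  · rw [finrank_bot]
    refine max_le ?_ (Nat.zero_le _)
    omega

/-- **The step without split point.** -/
theorem step0 [CharZero K] {m b x y1 p ρ : ℕ} (h1 : KQ K m b x y1 ρ) (hp : p ≤ m) :
    KQ K (m + 1) b x (y1 + (m - p + 1)) (ρ + (b * p - x)) := by
  classical
  have h2K : (2 : K) ≠ 0 := two_ne_zero
  obtain ⟨lam, hlam⟩ := E0_gen (K := K) (b := b) (x := x) hp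
  let L : Cfg K m b (Fin x) (Fin y1) →ₗ[K] (Fin x → Fin m → K) × (Fin x → Fin b → K) :=
    { toFun := fun q => (q.1, q.2.1)
      map_add' := fun _ _ => rfl
      map_smul' := fun _ _ => rfl }
  obtain ⟨⟨z, a, y⟩, k1, k2⟩ := (h1.gen.and (hlam.comp L fun q => ⟨(q.1, q.2, 0), rfl⟩)).exists
  change finrank K (E0 lam (z, a)) ≤ b * p - x at k2
  let O : Type := Unit ⊕ Fin (m - p)
  let lm : O → Fin m → K := Sum.elim (fun _ => 0) lam
  let c : Cfg K (m + 1) b (Fin x) (Fin y1 ⊕ O) :=
    (fun i => Fin.cons 0 (z i), a, Sum.elim (fun l => Fin.cons 0 (y l)) fun o => Fin.cons 1 (lm o))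
  refine KQ.of_cfg c (Fintype.card_fin x) ?_ ?_
  · change Fintype.card (Fin y1 ⊕ (Unit ⊕ Fin (m - p))) = _
    rw [Fintype.card_sum, Fintype.card_sum, Fintype.card_unit, Fintype.card_fin,
      Fintype.card_fin]
    omega
  let Ψ1 : (Fin b → SF K (m + 1)) →ₗ[K] (Fin b → SF K m) :=
    { toFun := fun F j => resH (F j)
      map_add' := fun F G => by
        funext j
        simp only [Pi.add_apply, map_add]
      map_smul' := fun r F => by
        funext j
        simp only [Pi.smul_apply, map_smul, RingHom.id_apply] }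
  let Ψ2 : (Fin b → SF K (m + 1)) →ₗ[K] (Fin b → Fin m → K) :=
    { toFun := fun F j k => linL (F j) k.succ
      map_add' := fun F G => by
        funext j k
        simp only [Pi.add_apply, map_add]
      map_smul' := fun r F => by
        funext j k
        simp only [Pi.smul_apply, map_smul, RingHom.id_apply] }
  have hlv : ∀ (F : Fin b → SF K (m + 1)) v j, lv v (Ψ2 F) j = ∑ k, v k * linL (F j) k.succ :=
    fun F v j => rfl
  have hd : ∀ (F : Fin b → SF K (m + 1)) j (s : K) (v : Fin m → K),
      bf (F j : Fin (m + 1) → Fin (m + 1) → K) (Fin.cons s v) (Fin.cons s v) =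
        bf (resH (F j) : Fin m → Fin m → K) v v +
          2 * s * (s * linL (F j) 0 + lv v (Ψ2 F) j) := by
    intro F j s v
    rw [bf_decomp, hlv]
    simp only [Fin.sum_univ_succ, Fin.cons_zero, Fin.cons_succ]
    ring
  have hd2 : ∀ (F : Fin b → SF K (m + 1)) j (v w : Fin m → K),
      bf (F j : Fin (m + 1) → Fin (m + 1) → K)
      (Fin.cons 0 v) (Fin.cons 0 w) = bf (resH (F j) : Fin m → Fin m → K) v w := by
    intro F j v w
    rw [bf_decomp]
    simp only [Fin.cons_zero, Fin.cons_succ, zero_mul, add_zero]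
  have hd3 : ∀ (F : Fin b → SF K (m + 1)) j (v : Fin m → K),
      bf (F j : Fin (m + 1) → Fin (m + 1) → K)
      (Fin.cons 0 v) (Pi.single 0 1) = lv v (Ψ2 F) j := by
    intro F j v
    rw [bf_decomp, hlv]
    have e1 : bf (resH (F j) : Fin m → Fin m → K) (fun k => (Fin.cons 0 v : Fin (m + 1) → K) k.succ)
        (fun k : Fin m => (Pi.single 0 1 : Fin (m + 1) → K) k.succ) = 0 := by
      unfold bf
      refine Finset.sum_eq_zero fun i _ => Finset.sum_eq_zero fun k _ => ?_
      have : (Pi.single 0 1 : Fin (m + 1) → K) k.succ = 0 :=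
        Pi.single_eq_of_ne (Fin.succ_ne_zero k) 1
      simp only [this, mul_zero, zero_mul]
    rw [e1]
    simp only [Fin.sum_univ_succ, Fin.cons_zero, Fin.cons_succ, Pi.single_eq_same]
    ring
  have key : ∀ F ∈ ZK c, Ψ1 F = 0 → (∀ j, linL (F j) 0 = 0) ∧ ∀ o, lv (lam o) (Ψ2 F) = 0 := by
    intro F hF hF0
    obtain ⟨w1, w2, w3⟩ := mem_ZK.1 hF
    have hr : ∀ j, resH (F j) = 0 := fun j => congrFun hF0 j
    have e : ∀ o j, linL (F j) 0 + lv (lm o) (Ψ2 F) j = 0 := by
      intro o j
      have := w3 (Sum.inr o) j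
      change bf (F j : Fin (m + 1) → Fin (m + 1) → K) (Fin.cons 1 (lm o)) (Fin.cons 1 (lm o)) = 0
        at this
      rw [hd, hr, Submodule.coe_zero, bf_zero, zero_add, mul_one, one_mul] at this
      exact (mul_eq_zero.1 this).resolve_left h2K
    have e0 : ∀ j, linL (F j) 0 = 0 := by
      intro j
      have := e (Sum.inl ()) j
      have e' : lv (lm (Sum.inl ())) (Ψ2 F) j = 0 := by
        rw [lv_apply]
        exact Finset.sum_eq_zero fun k _ => by simp [lm]
      rwa [e', add_zero] at this
    refine ⟨e0, fun o => ?_⟩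
    funext j
    have := e (Sum.inr o) j
    rw [e0 j, zero_add] at this
    exact this
  refine (finrank_two (ZK c) (ZK (z, a, y)) (E0 lam (z, a)) Ψ1 Ψ2 (fun F hF => ?_)
    (fun F hF hF0 => ?_) fun F hF h3 h4 => ?_).trans (Nat.add_le_add k1 k2)
  · obtain ⟨w1, w2, w3⟩ := mem_ZK.1 hF
    refine mem_ZK.2 ⟨fun i j => ?_, fun i v => ?_, fun l j => ?_⟩
    · have := w1 i j
      change bf (F j : Fin (m + 1) → Fin (m + 1) → K) (Fin.cons 0 (z i)) (Fin.cons 0 (z i)) = 0
        at this
      rw [hd2] at this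
      exact this
    · have := w2 i (Fin.cons 0 v)
      change ∑ j, a i j * bf (F j : Fin (m + 1) → Fin (m + 1) → K) (Fin.cons 0 (z i))
        (Fin.cons 0 v) = 0 at this
      simp only [hd2] at this
      exact this
    · have := w3 (Sum.inl l) j
      change bf (F j : Fin (m + 1) → Fin (m + 1) → K) (Fin.cons 0 (y l)) (Fin.cons 0 (y l)) = 0
        at this
      rw [hd2] at this
      exact this
  · refine mem_E0.2 ⟨(key F hF hF0).2, fun i => ?_⟩
    have := (mem_ZK.1 hF).2.1 i (Pi.single 0 1)
    change ∑ j, a i j * bf (F j : Fin (m + 1) → Fin (m + 1) → K) (Fin.cons 0 (z i))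
      (Pi.single 0 1) = 0 at this
    simp only [hd3] at this
    exact this
  · funext j
    refine resH_linL_inj (congrFun h3 j) ?_
    funext k
    refine Fin.cases ((key F hF h3).1 j) (fun k => ?_) k
    exact congrFun (congrFun h4 j) k

end

end Pool.Agent.WarR
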