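import Pool.Agent.WarR.Tools

/-!
# The two sides `Sup`, `Sub` for `b` quadratic forms in `m` variables and `x` full points   (helper9)

`NV m = m (m + 1) / 2`; `w` is the dimension of the quadrics through all the points, so there are
`s = NV m - x - w` simple points.  `SS K m b x` = both sides.
-/

set_option autoImplicit false

namespace Pool.Agent.WarR

/-- the dimension of the quadratic forms in `m` variables -/
def NV (m : ℕ) : ℕ := m * (m + 1) / 2

theorem two_NV (m : ℕ) : 2 * NV m = m * (m + 1) :=
  Nat.mul_div_cancel' (Nat.even_mul_succ_self m).two_dvd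

theorem NV_succ (m : ℕ) : NV (m + 1) = NV m + (m + 1) := by
  have h1 := two_NV m
  have h2 := two_NV (m + 1)
  nlinarith

/-- kernel `0` as soon as `b w ≤ (m - 1) x` -/
def Sup (K : Type*) [Field K] (m b x : ℕ) : Prop :=
  ∀ s w, s + x + w = NV m → b * w ≤ (m - 1) * x → KQ K m b x s 0

/-- kernel of the expected dimension as soon as `(m - 1) x ≤ b w` -/
def Sub (K : Type*) [Field K] (m b x : ℕ) : Prop :=
  ∀ s w, s + x + w = NV m → (m - 1) * x ≤ b * w → KQ K m b x s (b * w - (m - 1) * x)

/-- not the exception: three forms in `n + 1` variables, `n` odd, `(3 n + 1) / 2` points -/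
def Good (n b x : ℕ) : Prop := ¬ (b = 3 ∧ 2 * x = 3 * n + 1)

/-- both sides -/
def SS (K : Type*) [Field K] (m b x : ℕ) : Prop := Sup K m b x ∧ Sub K m b x

section

variable {K : Type*} [Field K]

theorem KQ.more_simple [CharZero K] {m b x s : ℕ} (h : KQ K m b x s 0) {s' : ℕ} (hs : s ≤ s') :
    KQ K m b x s' 0 := by
  obtain ⟨k, rfl⟩ := Nat.exists_eq_add_of_le hs
  simpa using h.add_simple k

theorem KQ.less_simple {m b x s r : ℕ} (k : ℕ) (h : KQ K m b x (s + k) r) :
    KQ K m b x s (r + b * k) := by
  induction k generalizing r with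
  | zero => exact h
  | succ k ih =>
    have := ih (r := r + b) (by
      have h' : KQ K m b x (s + k + 1) r := h
      exact h'.drop_simple)
    rw [Nat.mul_add, Nat.mul_one, Nat.add_comm (b * k) b, ← Nat.add_assoc]
    exact this

/-- more full points -/
theorem KQ.more_full [CharZero K] {m b x s : ℕ} (h : KQ K m b x s 0) (k : ℕ) :
    KQ K m b (x + k) s 0 := by
  induction k with
  | zero => exact h
  | succ k ih => exact (ih.more_simple (Nat.le_succ s)).simple_to_full

/-- it is enough to know both sides at the critical number -/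
theorem SS.of_crit [CharZero K] {m b x s w : ℕ} (hs : s + x + w = NV m) (h1 : (m - 1) * x ≤ b * w)
    (h2 : b * w < (m - 1) * x + b) (k1 : KQ K m b x s (b * w - (m - 1) * x))
    (k2 : KQ K m b x (s + 1) 0) : SS K m b x := by
  constructor
  · intro s' w' hs' h
    rcases Nat.lt_or_ge s' (s + 1) with hlt | hge
    · have hw : w ≤ w' := by omega
      have : b * w ≤ b * w' := Nat.mul_le_mul_left b hw
      have hb : b * w = (m - 1) * x := by omega
      have k1' : KQ K m b x s 0 := by
        rw [hb, Nat.sub_self] at k1
        exact k1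
      rcases Nat.eq_or_lt_of_le hw with he | hl
      · have : s' = s := by omega
        rw [this]
        exact k1'
      · -- `b = 0`
        have hb0 : b = 0 := by
          by_contra hb0
          have : b * w < b * w' := Nat.mul_lt_mul_of_pos_left hl (Nat.pos_of_ne_zero hb0)
          omega
        omega
    · exact k2.more_simple hge
  · intro s' w' hs' h
    rcases Nat.lt_or_ge s s' with hlt | hge
    · -- `w' < w`, impossible unless perfect
      have hw : w' < w := by omega
      have h3 : b * w' + b ≤ b * w := by
        have h4 : b * (w' + 1) ≤ b * w := Nat.mul_le_mul_left b hw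
        rw [Nat.mul_add, Nat.mul_one] at h4
        exact h4
      omega
    · obtain ⟨k, rfl⟩ := Nat.exists_eq_add_of_le hge
      have hw : w' = w + k := by omega
      subst hw
      have := k1.less_simple k
      have e : b * (w + k) - (m - 1) * x = b * w - (m - 1) * x + b * k := by
        rw [Nat.mul_add]
        omega
      rw [e]
      exact this

/-- no room for simple points: only the kernel without simple points -/
theorem SS.of_neg [CharZero K] {m b x : ℕ} (hE : b * NV m < x * (m - 1 + b)) (hx : x ≤ NV m)
    (k : KQ K m b x 0 0) : SS K m b x := by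
  constructor
  · intro s w _ _
    exact k.more_simple (Nat.zero_le s)
  · intro s w hs h
    exfalso
    have h1 : b * w ≤ b * (NV m - x) := Nat.mul_le_mul_left b (by omega)
    have h2 : b * (NV m - x) + b * x = b * NV m := by
      rw [← Nat.mul_add, Nat.sub_add_cancel hx]
    have h3 : x * (m - 1 + b) = (m - 1) * x + b * x := by ring
    omega

/-- the critical number exists if there is room -/
theorem exists_crit {m b x : ℕ} (hb : 0 < b) (hE : x * (m - 1 + b) ≤ b * NV m) :
    ∃ s w, s + x + w = NV m ∧ (m - 1) * x ≤ b * w ∧ b * w < (m - 1) * x + b := by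
  obtain ⟨w, h1, h2⟩ : ∃ w, (m - 1) * x ≤ b * w ∧ b * w < (m - 1) * x + b := by
    refine ⟨((m - 1) * x + b - 1) / b, ?_, ?_⟩
    · have := Nat.div_add_mod ((m - 1) * x + b - 1) b
      have := Nat.mod_lt ((m - 1) * x + b - 1) hb
      omega
    · have := Nat.div_add_mod ((m - 1) * x + b - 1) b
      omega
  have h3 : x + w ≤ NV m := by
    have h4 : x * (m - 1 + b) = (m - 1) * x + b * x := by ring
    have h5 : b * (x + w) < b * (NV m + 1) := by
      rw [Nat.mul_add, Nat.mul_add, Nat.mul_one]
      omega
    have := Nat.lt_of_mul_lt_mul_left h5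
    omega
  exact ⟨NV m - (x + w), w, by omega, h1, h2⟩

end

end Pool.Agent.WarR
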