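import Pool.Agent.WarR.Step
import Pool.Agent.WarR.Plain
import Pool.Agent.WarR.Pencil
import Pool.Agent.WarR.Sdef
import Pool.Agent.WarR.Peel

/-!
# Assembly for quadratic forms (MP_db021c_ag, degree 2): the induction on the dimension   (helper9)

Dimension `m` = number of variables; `b` forms, `x` full points.
-/

set_option autoImplicit false

namespace Pool.Agent.WarR

/-- the step of helper68 (all the full points on the hyperplane, one simple point near it) -/
def HorStmt (K : Type*) [Field K] : Prop :=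
  ∀ m b x y1 ρ w r : ℕ, KQ K m b x y1 ρ → KQ K m b x (y1 + 1) 0 → b ≤ x → x ≤ b * w →
    b * (w - 1) < x → b ≤ 2 * (m - w) → ρ + b * w ≤ r + b + x →
    KQ K (m + 1) b x (y1 + 1 + (m + 1 - w)) r

/-- the condition `b ≤ 2 (m - w)` of the step is automatic -/
theorem hor_cond {n b x w : ℕ} (hn : 4 ≤ n) (hb : 3 ≤ b) (hbn : b ≤ n + 2)
    (hE : x * (n + b) ≤ b * NV (n + 1)) (hw : b * (w - 1) < x) : b ≤ 2 * (n + 1 - w) := by
  by_contra hcon
  have h2 := two_NV (n + 1)
  obtain ⟨u, hu⟩ : ∃ u, w = u + 1 ∨ w = 0 := ⟨w - 1, by omega⟩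
  rcases hu with rfl | rfl
  · have hw' : b * u < x := by simpa using hw
    -- `2 * (n - u) < b`
    have h3 : 2 * n + 1 ≤ b + 2 * u := by omega
    have h4 : 2 * (b * u + 1) * (n + b) ≤ b * ((n + 1) * (n + 2)) := by
      have : (b * u + 1) * (n + b) ≤ x * (n + b) := Nat.mul_le_mul_right _ hw'
      nlinarith
    have h5 : 2 * u * (n + b) < (n + 1) * (n + 2) := by
      by_contra h
      have h := Nat.not_lt.1 h
      have : b * ((n + 1) * (n + 2)) ≤ b * (2 * u * (n + b)) := Nat.mul_le_mul_left _ h
      nlinarith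
    -- `(2n + 1 - b)(n + b) ≤ 2u(n+b) < (n+1)(n+2)`
    obtain ⟨t, ht⟩ : ∃ t, n + 2 = b + t := ⟨n + 2 - b, by omega⟩
    have h6 : (2 * n + 1 - b) ≤ 2 * u := by omega
    obtain ⟨v, hv⟩ : ∃ v, 2 * n + 1 = b + v := ⟨2 * n + 1 - b, by omega⟩
    have h7 : v ≤ 2 * u := by omega
    have h8 : v * (n + b) < (n + 1) * (n + 2) := lt_of_le_of_lt (Nat.mul_le_mul_right _ h7) h5
    -- with b = 3 + i, t + b = n + 2
    obtain ⟨i, rfl⟩ := Nat.exists_eq_add_of_le hb
    have hn' : n = 1 + i + t := by omega
    have hv' : v = i + 2 * t := by omega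
    subst hn' hv'
    nlinarith [Nat.zero_le (i * t), Nat.zero_le (t * t), Nat.zero_le (i * i)]
  · omega

section

variable {K : Type*} [Field K]

/-- **The step `m → m + 1`.** -/
theorem SS.hor [CharZero K] (HH : HorStmt K) {m b x : ℕ} (hm : 5 ≤ m) (hb : 3 ≤ b)
    (hbm : b ≤ m + 1) (hbx : b ≤ x) (hE : x * (m - 1 + b) ≤ b * NV m) (h : SS K m b x) :
    SS K (m + 1) b x := by
  obtain ⟨n, rfl⟩ : ∃ n, m = n + 1 := ⟨m - 1, by omega⟩
  simp only [Nat.add_sub_cancel] at hE
  have hb0 : 0 < b := by omega
  -- the critical number of H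
  obtain ⟨y1, c', hy1, hc1, hc2⟩ := exists_crit (m := n + 1) (b := b) (x := x) hb0
    (by simpa only [Nat.add_sub_cancel] using hE)
  simp only [Nat.add_sub_cancel] at hc1 hc2
  obtain ⟨ρ, hρ⟩ : ∃ ρ, b * c' = n * x + ρ := Nat.exists_eq_add_of_le hc1
  have hρb : ρ < b := by omega
  have hx0 : 0 < n * x := Nat.mul_pos (by omega) (by omega)
  have hc0 : 1 ≤ c' := by
    by_contra hc
    have : c' = 0 := by omega
    subst this
    omega
  have k1 : KQ K (n + 1) b x y1 ρ := by
    have := h.2 y1 c' hy1 (by simpa only [Nat.add_sub_cancel] using hc1)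
    rwa [Nat.add_sub_cancel, hρ, Nat.add_sub_cancel_left] at this
  have k2 : KQ K (n + 1) b x (y1 + 1) 0 := by
    refine h.1 (y1 + 1) (c' - 1) (by omega) ?_
    rw [Nat.add_sub_cancel, Nat.mul_sub, Nat.mul_one]
    omega
  obtain ⟨q, β, hq, hβ⟩ : ∃ q β, x = b * q + β ∧ β < b :=
    ⟨x / b, x % b, (Nat.div_add_mod x b).symm, Nat.mod_lt _ hb0⟩
  have hq1 : 1 ≤ q := by
    by_contra hq0
    have : q = 0 := by omega
    subst this
    simp at hq
    omega
  have hNN := NV_succ (n + 1)
  -- `q + 1 ≤ n + 2`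
  have hqn : q + 1 ≤ n + 2 := by
    have h2 := two_NV (n + 1)
    have h3 : b * q * (n + b) ≤ b * NV (n + 1) := le_trans (Nat.mul_le_mul_right _ (by omega)) hE
    have h4 : q * (n + b) ≤ NV (n + 1) := by
      by_contra hc
      have hc := Nat.not_le.1 hc
      have : b * NV (n + 1) < b * (q * (n + b)) := Nat.mul_lt_mul_of_pos_left hc hb0
      nlinarith
    by_contra hc
    have hc : n + 2 ≤ q := by omega
    have : (n + 2) * (n + b) ≤ q * (n + b) := Nat.mul_le_mul_right _ hc
    nlinarith
  -- the four constructions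
  have S1 : β = 0 → KQ K (n + 2) b x (y1 + (n + 2 - q)) ρ := by
    intro h0
    have := step0 (p := q) k1 (by omega)
    have e1 : n + 1 - q + 1 = n + 2 - q := by omega
    have e2 : b * q - x = 0 := by omega
    rwa [e1, e2, Nat.add_zero] at this
  have S2 : KQ K (n + 2) b x (y1 + 1 + (n + 2 - q)) 0 := by
    have := step0 (p := q) k2 (by omega)
    have e1 : n + 1 - q + 1 = n + 2 - q := by omega
    have e2 : b * q - x = 0 := by omega
    rwa [e1, e2, Nat.add_zero] at this
  have S3 : q + 1 ≤ n + 1 → KQ K (n + 2) b x (y1 + (n + 2 - (q + 1))) (ρ + (b - β)) := by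
    intro hq2
    have := step0 (p := q + 1) k1 hq2
    have e1 : n + 1 - (q + 1) + 1 = n + 2 - (q + 1) := by omega
    have e2 : b * (q + 1) - x = b - β := by
      rw [Nat.mul_add, Nat.mul_one]
      omega
    rwa [e1, e2] at this
  have hw : b ≤ 2 * (n + 1 - (q + 1)) ∨ β = 0 := by
    by_cases h0 : β = 0
    · exact Or.inr h0
    · left
      exact hor_cond (by omega) hb hbm hE (by simp only [Nat.add_sub_cancel]; omega)
  have S4 : 0 < β → ∀ r, ρ ≤ r + β → KQ K (n + 2) b x (y1 + 1 + (n + 2 - (q + 1))) r := by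
    intro h0 r hr
    have hw' : b ≤ 2 * (n + 1 - (q + 1)) := by
      rcases hw with h | h
      · exact h
      · omega
    refine HH (n + 1) b x y1 ρ (q + 1) r k1 k2 hbx ?_ ?_ hw' ?_
    · rw [Nat.mul_add, Nat.mul_one]; omega
    · simp only [Nat.add_sub_cancel]; omega
    · rw [Nat.mul_add, Nat.mul_one]; omega
  have key : b * (c' + q) + β = (n + 1) * x + ρ := by
    have : b * (c' + q) = b * c' + b * q := Nat.mul_add _ _ _
    rw [this, hρ, Nat.add_mul, Nat.one_mul]
    omega
  have hmul : ∀ a : ℕ, b * (a + 1) = b * a + b := fun a => by ring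
  rcases Nat.lt_or_ge ρ β with hlt | hge
  · -- critical `c' + q + 1`
    have hval : b * (c' + q + 1) - (n + 1) * x = ρ + (b - β) := by
      have := hmul (c' + q)
      omega
    have hq2 : q + 1 ≤ n + 1 := by
      rcases hw with h | h <;> omega
    refine SS.of_crit (s := y1 + (n + 2 - (q + 1))) (w := c' + q + 1) ?_ ?_ ?_ ?_ ?_
    · rw [hNN]; omega
    · have := hmul (c' + q)
      simp only [Nat.add_sub_cancel]
      omega
    · have := hmul (c' + q)
      simp only [Nat.add_sub_cancel]
      omega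
    · simp only [Nat.add_sub_cancel]
      rw [hval]
      exact S3 hq2
    · have := S4 (by omega) 0 (by omega)
      have e : y1 + 1 + (n + 2 - (q + 1)) = y1 + (n + 2 - (q + 1)) + 1 := by omega
      rwa [e] at this
  · -- critical `c' + q`
    have hval : b * (c' + q) - (n + 1) * x = ρ - β := by omega
    refine SS.of_crit (s := y1 + (n + 2 - q)) (w := c' + q) ?_ ?_ ?_ ?_ ?_
    · rw [hNN]; omega
    · simp only [Nat.add_sub_cancel]
      omega
    · simp only [Nat.add_sub_cancel]
      omega
    · simp only [Nat.add_sub_cancel]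
      rw [hval]
      rcases Nat.eq_zero_or_pos β with h0 | h0
      · rw [h0, Nat.sub_zero]
        exact S1 h0
      · have := S4 h0 (ρ - β) (by omega)
        have e : y1 + 1 + (n + 2 - (q + 1)) = y1 + (n + 2 - q) := by
          have : q + 1 ≤ n + 1 := by
            rcases hw with h | h <;> omega
          omega
        rwa [e] at this
    · have e : y1 + 1 + (n + 2 - q) = y1 + (n + 2 - q) + 1 := by omega
      have := S2
      rwa [e] at this

/-- pencils -/
theorem SS.two [CharZero K] {m x : ℕ} (hx : 2 ≤ x) : SS K m 2 x := by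
  rcases Nat.lt_or_ge m x with h | h
  · constructor
    · intro s w _ _
      exact pencil_zero h.le s
    · intro s w hs hw
      exact (pencil_zero h.le s).mono (Nat.zero_le _)
  · obtain ⟨t, rfl⟩ := Nat.exists_eq_add_of_le h
    obtain ⟨n, hn⟩ : ∃ n, x + t = n + 1 := ⟨x + t - 1, by omega⟩
    have h2 := two_NV (x + t)
    have key : ∀ s w, s + x + w = NV (x + t) →
        (x + t - x) * (x + t + 1) + (x + t - 1) * x = 2 * w + 2 * s := by
      intro s w hs
      have e1 : x + t - x = t := by omega
      have e2 : x + t - 1 = n := by omega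
      rw [e1, e2]
      have e3 : 2 * s + 2 * x + 2 * w = (x + t) * (x + t + 1) := by omega
      have e4 : (x + t) * (x + t + 1) = t * (x + t + 1) + x * (n + 2) := by
        have : x + t + 1 = n + 2 := by omega
        rw [this]; ring
      have e5 : x * (n + 2) = n * x + 2 * x := by ring
      omega
    constructor
    · intro s w hs hw
      have k := key s w hs
      refine (pencil hx h s).mono ?_
      omega
    · intro s w hs hw
      have k := key s w hs
      refine (pencil hx h s).mono ?_
      omega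

/-- `b = m + 1` forms: the block `m - 1` and a pencil -/
theorem SS.split [CharZero K] {m x : ℕ} (hm : 3 ≤ m) (hx : m + 1 ≤ x)
    (hE : x * (m - 1 + (m + 1)) ≤ (m + 1) * NV m)
    (H : ∀ w, m - 1 ≤ w → w ≤ NV m → SS K m (m - 1) w) : SS K m (m + 1) x := by
  obtain ⟨n, rfl⟩ : ∃ n, m = n + 1 := ⟨m - 1, by omega⟩
  obtain ⟨s, w, hs, h1, h2⟩ := exists_crit (m := n + 1) (b := n + 1 + 1) (x := x) (by omega) hE
  simp only [Nat.add_sub_cancel] at H h1 h2
  have e1 : (n + 1 + 1) * w = n * w + 2 * w := by ring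
  -- `n ≤ w`
  have hw : n ≤ w := by
    by_contra hc
    have hc : w + 1 ≤ n := by omega
    have a1 : n * (n + 2) ≤ n * x := Nat.mul_le_mul_left _ hx
    have a2 : (n + 1 + 1) * (w + 1) ≤ (n + 1 + 1) * n := Nat.mul_le_mul_left _ hc
    nlinarith
  -- `w + 2 ≤ x`
  have hwx : w + 2 ≤ x := by
    by_contra hc
    have hc : x ≤ w + 1 := by omega
    have a1 : n * x ≤ n * (w + 1) := Nat.mul_le_mul_left _ hc
    have a2 : n * (w + 1) = n * w + n := by ring
    -- `(n+2) w < n x + n + 2 ≤ n w + 2 n + 2` so `w ≤ n`, `w = n`, `x ≥ n + 2`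
    omega
  obtain ⟨x2, rfl⟩ := Nat.exists_eq_add_of_le (show w ≤ x by omega)
  have e2 : n * (w + x2) = n * w + n * x2 := by ring
  have P1 := H w hw (by omega)
  have P2 : SS K (n + 1) 2 x2 := SS.two (by omega)
  have e3 : n + 1 + 1 = n + 2 := by ring
  -- the exact side
  have k1 : KQ K (n + 1) (n + 2) (w + x2) s ((n + 1 + 1) * w - n * (w + x2)) := by
    have a1 : KQ K (n + 1) n w (s + x2) 0 := P1.1 _ w (by omega) (by simp)
    have a2 : KQ K (n + 1) 2 x2 (s + w) (2 * w - n * x2) := by
      have := P2.2 (s + w) w (by omega) (by simp only [Nat.add_sub_cancel]; omega)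
      simpa only [Nat.add_sub_cancel] using this
    have a3 := a1.blocks a2
    refine a3.mono ?_
    omega
  rw [← e3] at k1
  refine SS.of_crit (s := s) (w := w) (by omega) (by simpa only [Nat.add_sub_cancel] using h1)
    (by simpa only [Nat.add_sub_cancel] using h2) (by simpa only [Nat.add_sub_cancel] using k1) ?_
  rcases Nat.eq_or_lt_of_le hw with h0 | h0
  · -- `w = n`: perfect
    have hp : (n + 1 + 1) * w - n * (w + x2) = 0 := by
      subst h0
      have a1 : n * (n + 2) ≤ n * (n + x2) := Nat.mul_le_mul_left _ hx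
      have : (n + 1 + 1) * n = n * (n + 2) := by ring
      omega
    rw [hp] at k1
    exact k1.more_simple (Nat.le_succ s)
  · obtain ⟨v, rfl⟩ : ∃ v, w = v + 1 := ⟨w - 1, by omega⟩
    have P3 := H v (by omega) (by omega)
    have P4 : SS K (n + 1) 2 (x2 + 1) := SS.two (by omega)
    have a1 : KQ K (n + 1) n v (s + 1 + (x2 + 1)) 0 := P3.1 _ v (by omega) (by simp)
    have a2 : KQ K (n + 1) 2 (x2 + 1) (s + 1 + v) 0 := by
      refine P4.1 _ v (by omega) ?_
      simp only [Nat.add_sub_cancel]
      have b1 : (n + 1 + 1) * (v + 1) = n * v + n + 2 * v + 2 := by ring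
      have b2 : n * (v + 1 + x2) = n * v + n * (x2 + 1) := by ring
      omega
    have a3 := a1.blocks a2
    have e4 : v + (x2 + 1) = v + 1 + x2 := by omega
    rwa [e4] at a3

/-- the level `n` (`n + 1` variables): both sides for all `2 ≤ b ≤ n + 1`, without the exception -/
def LV (K : Type*) [Field K] (n : ℕ) : Prop :=
  ∀ b x, 2 ≤ b → b ≤ n + 1 → b ≤ x → Good n b x → SS K (n + 1) b x

/-- the cases `b = 3`, `b = 4` -/
def SS34 (K : Type*) [Field K] (n : ℕ) : Prop :=
  ∀ b x, (b = 3 ∨ b = 4) → b ≤ x → Good n b x → SS K (n + 1) b x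

/-- base windows: the pairs `(b, x)` which cannot be reached from the hyperplane, up to the
smallest number of full points without room -/
def Win (K : Type*) [Field K] (n : ℕ) : Prop :=
  ∀ b x, 5 ≤ b → b ≤ n + 1 → b * NV n < x * (n - 1 + b) → (x - 1) * (n + b) ≤ b * NV (n + 1) →
    (∀ b' x', 2 ≤ b' → b' < b → b' ≤ x' → Good n b' x' → SS K (n + 1) b' x') → SS K (n + 1) b x

/-- more points than coefficients -/
theorem SS.big {m b x : ℕ} (hx : NV m < x) : SS K m b x :=
  ⟨fun s w hs _ => absurd hs (by omega), fun s w hs _ => absurd hs (by omega)⟩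

/-- the minimal number of points without room -/
theorem exists_min {n b x : ℕ} (hn : 1 ≤ n) (hb : 1 ≤ b) (hbx : b ≤ x) (hbn : b ≤ n + 1)
    (hE : b * NV (n + 1) < x * (n + b)) : ∃ x0, b ≤ x0 ∧ x0 ≤ x ∧
      b * NV (n + 1) < x0 * (n + b) ∧ (x0 - 1) * (n + b) ≤ b * NV (n + 1) := by
  induction x with
  | zero => simp at hE
  | succ x ih =>
    rcases Nat.lt_or_ge (b * NV (n + 1)) (x * (n + b)) with h | h
    · rcases Nat.lt_or_ge x b with h1 | h1
      · -- `x + 1 = b`, but `(b - 1) (n + b) ≤ b NV (n + 1)`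
        exfalso
        have h2 := two_NV (n + 1)
        have hx : x + 1 = b := by omega
        subst hx
        have h5 : 2 * (x * (n + (x + 1))) ≤ (x + 1) * ((n + 1) * (n + 1 + 1)) := by
          have h6 : x ≤ n := by omega
          obtain ⟨t, rfl⟩ := Nat.exists_eq_add_of_le h6
          nlinarith [Nat.zero_le (x * t), Nat.zero_le (t * t), Nat.zero_le (x * x),
            Nat.zero_le (x * x * x), Nat.zero_le (x * x * t), Nat.zero_le (x * t * t)]
        nlinarith
      · obtain ⟨x0, a1, a2, a3, a4⟩ := ih h1 h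
        exact ⟨x0, a1, by omega, a3, a4⟩
    · exact ⟨x + 1, hbx, le_rfl, hE, by simpa using h⟩

/-- the windows give the whole level -/
theorem LV.succ [CharZero K] (HH : HorStmt K) {n : ℕ} (hn : 4 ≤ n) (h : LV K n)
    (h34 : SS34 K (n + 1)) (hw : Win K (n + 1)) : LV K (n + 1) := by
  intro b
  induction b using Nat.strong_induction_on with
  | _ b ih =>
  intro x hb hbm hbx hex
  rcases Nat.lt_or_ge b 5 with hb5 | hb5
  · rcases Nat.eq_or_lt_of_le hb with rfl | hb3
    · exact SS.two hbx
    · exact h34 b x (by omega) hbx hex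
  rcases Nat.lt_or_ge (NV (n + 1 + 1)) x with hxN | hxN
  · exact SS.big hxN
  have IH : ∀ b' x', 2 ≤ b' → b' < b → b' ≤ x' → Good (n + 1) b' x' → SS K (n + 1 + 1) b' x' :=
    fun b' x' h1 h2 h3 h4 => ih b' h2 x' h1 (by omega) h3 h4
  rcases Nat.lt_or_ge (b * NV (n + 1)) (x * (n + b)) with hE | hE
  · -- windows
    rcases Nat.lt_or_ge (b * NV (n + 1 + 1)) (x * (n + 1 + b)) with hE' | hE'
    · -- no room
      obtain ⟨x0, a1, a2, a3, a4⟩ := exists_min (n := n + 1) (by omega) (by omega) hbx hbm hE'
      have hlo : b * NV (n + 1) < x0 * (n + b) := by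
        have e1 := NV_succ (n + 1)
        rw [e1] at a3
        rcases Nat.lt_or_ge (b * (n + 1 + 1)) x0 with h1 | h1
        · have h2 := two_NV (n + 1)
          have h3 : b * (n + 1 + 1) * (n + b) ≤ x0 * (n + b) := Nat.mul_le_mul_right _ h1.le
          have h4 : b * NV (n + 1) < b * ((n + 1 + 1) * (n + b)) := by
            refine Nat.mul_lt_mul_of_pos_left ?_ (by omega)
            nlinarith
          nlinarith
        · nlinarith
      have k := hw b x0 hb5 hbm (by
        have e1 : n + 1 - 1 = n := by omega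
        rw [e1]
        exact hlo) a4 IH
      have k0 : KQ K (n + 1 + 1) b x0 0 0 := by
        obtain ⟨w, hw0⟩ := Nat.exists_eq_add_of_le (show x0 ≤ NV (n + 1 + 1) by omega)
        refine k.1 0 w (by omega) ?_
        rw [hw0] at a3
        have e1 : b * (x0 + w) = b * x0 + b * w := by ring
        have e2 : x0 * (n + 1 + b) = (n + 1) * x0 + b * x0 := by ring
        simp only [Nat.add_sub_cancel]
        omega
      refine SS.of_neg (by simpa only [Nat.add_sub_cancel] using hE') hxN ?_
      obtain ⟨k, rfl⟩ := Nat.exists_eq_add_of_le a2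
      exact k0.more_full k
    · refine hw b x hb5 hbm (by
        have e1 : n + 1 - 1 = n := by omega
        rw [e1]
        exact hE) ?_ IH
      exact le_trans (Nat.mul_le_mul_right _ (Nat.sub_le x 1)) hE'
  · -- the step
    refine SS.hor HH (by omega) (by omega) hbm hbx (by simpa only [Nat.add_sub_cancel] using hE) ?_
    rcases Nat.eq_or_lt_of_le hbm with rfl | hbm'
    · refine SS.split (by omega) hbx (by simpa only [Nat.add_sub_cancel] using hE) ?_
      intro w hw1 hw2
      rw [Nat.add_sub_cancel] at hw1 ⊢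
      rcases Nat.lt_or_ge n 5 with h5 | h5
      · -- `n = 4`
        exact h n w (by omega) (by omega) hw1 (fun hc => by omega)
      · exact h n w (by omega) (by omega) hw1 (fun hc => by omega)
    · exact h b x hb (by omega) hbx (fun hc => by omega)

/-- all levels -/
theorem LV.all [CharZero K] (HH : HorStmt K) (h4 : LV K 4) (h34 : ∀ n, 5 ≤ n → SS34 K n)
    (hw : ∀ n, 5 ≤ n → Win K n) : ∀ n, 4 ≤ n → LV K n := by
  intro n hn
  induction n, hn using Nat.le_induction with
  | base => exact h4
  | succ n hn ih => exact LV.succ HH hn ih (h34 _ (by omega)) (hw _ (by omega))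

/-- one form, one full point -/
theorem one_one [CharZero K] (n s : ℕ) : KQ K (n + 1) 1 1 s (NV n - s) := by
  have h0 : KQ K (n + 1) 1 1 0 (NV n) := by
    refine ⟨(fun _ => Pi.single 0 1, fun _ _ => 1, fun l => l.elim0), ?_⟩
    have e : NV n = (n + 1).choose 2 := by
      unfold NV
      rw [Nat.choose_two_right, Nat.add_sub_cancel, Nat.mul_comm]
    rw [e]
    refine le_trans ?_ (finrank_SF_le (K := K) n)
    let T : (Fin 1 → SF K (n + 1)) →ₗ[K] SF K n :=
      { toFun := fun F => ⟨fun i j => (F 0 : Fin (n + 1) → Fin (n + 1) → K) i.succ j.succ,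
          fun i j => (F 0).2 _ _⟩
        map_add' := fun _ _ => rfl
        map_smul' := fun _ _ => rfl }
    refine LinearMap.finrank_le_finrank_of_injective (f := T.domRestrict _) ?_
    refine (injective_iff_map_eq_zero _).2 ?_
    rintro ⟨F, hF⟩ hT
    obtain ⟨-, h2, -⟩ := mem_ZK.1 hF
    apply Subtype.ext
    change F = 0
    have h3 : ∀ k : Fin (n + 1), (F 0 : Fin (n + 1) → Fin (n + 1) → K) 0 k = 0 := by
      intro k
      have := h2 0 (Pi.single k 1)
      simpa [bf_single] using this
    have h5 : ∀ i j : Fin n, (F 0 : Fin (n + 1) → Fin (n + 1) → K) i.succ j.succ = 0 := by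
      intro i j
      exact congrFun (congrFun (congrArg Subtype.val hT) i) j
    funext l
    obtain rfl : l = 0 := Subsingleton.elim _ _
    apply Subtype.ext
    funext i j
    change (F 0 : Fin (n + 1) → Fin (n + 1) → K) i j = 0
    refine Fin.cases ?_ (fun i => ?_) i
    · exact h3 j
    · refine Fin.cases ?_ (fun j => h5 i j) j
      rw [(F 0).2]
      exact h3 _
  simpa using h0.add_simple s

/-- `n = 4` -/
theorem LV.four [CharZero K] (h34 : SS34 K 4) : LV K 4 := by
  intro b x hb hbm hbx hex
  rcases Nat.lt_or_ge b 5 with hb5 | hb5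
  · rcases Nat.eq_or_lt_of_le hb with rfl | hb3
    · exact SS.two hbx
    · exact h34 b x (by omega) hbx hex
  obtain rfl : b = 5 := by omega
  have N4 : NV 4 = 10 := rfl
  have N5 : NV (4 + 1) = 15 := rfl
  -- the general scheme: critical `s`, `w`; exact side = block `1` + block `4`, other side
  -- = block `2` + block `3`
  have two : ∀ y, 2 ≤ y → ∀ s w, s + y + w = 15 → 2 * w ≤ 4 * y → KQ K 5 2 y s 0 := by
    intro y hy s w hs hw
    exact (SS.two (K := K) (m := 4 + 1) hy).1 s w (by omega) (by omega)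
  have three : ∀ y, 3 ≤ y → ∀ s w, s + y + w = 15 → 3 * w ≤ 4 * y → KQ K 5 3 y s 0 := by
    intro y hy s w hs hw
    exact (h34 3 y (Or.inl rfl) hy (fun hc => by omega)).1 s w (by omega) (by omega)
  have four : ∀ y, 4 ≤ y → ∀ s w, s + y + w = 15 → 4 * w ≤ 4 * y → KQ K 5 4 y s 0 := by
    intro y hy s w hs hw
    exact (h34 4 y (Or.inr rfl) hy (fun hc => by omega)).1 s w (by omega) (by omega)
  have k9 : KQ K 5 5 9 0 0 :=
    KQ.blocks (b1 := 2) (b2 := 3) (x1 := 4) (x2 := 5) (y := 0) (r1 := 0) (r2 := 0)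
      (two 4 (by omega) 5 6 (by omega) (by omega)) (three 5 (by omega) 4 6 (by omega) (by omega))
  rcases Nat.lt_or_ge 8 x with h9 | h9
  · obtain ⟨k, rfl⟩ := Nat.exists_eq_add_of_le (show 9 ≤ x from h9)
    rcases Nat.lt_or_ge (NV (4 + 1)) (9 + k) with hN | hN
    · exact SS.big hN
    · exact SS.of_neg (by omega) hN (k9.more_full k)
  · have hx : x = 5 ∨ x = 6 ∨ x = 7 ∨ x = 8 := by omega
    rcases hx with rfl | rfl | rfl | rfl
    · have a := KQ.blocks (b1 := 2) (b2 := 3) (x1 := 2) (x2 := 3) (y := 6) (r1 := 0) (r2 := 0)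
        (two 2 (by omega) 9 4 (by omega) (by omega)) (three 3 (by omega) 8 4 (by omega) (by omega))
      exact SS.of_crit (s := 6) (w := 4) (by omega) (by omega) (by omega) (by simpa using a)
        (KQ.more_simple a (by omega))
    · have a := KQ.blocks (b1 := 1) (b2 := 4) (x1 := 1) (x2 := 5) (y := 4) (r1 := 1) (r2 := 0)
        (by simpa [N4] using one_one (K := K) 4 9) (four 5 (by omega) 5 5 (by omega) (by omega))
      have b := KQ.blocks (b1 := 2) (b2 := 3) (x1 := 2) (x2 := 4) (y := 5) (r1 := 0) (r2 := 0)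
        (two 2 (by omega) 9 4 (by omega) (by omega)) (three 4 (by omega) 7 4 (by omega) (by omega))
      exact SS.of_crit (s := 4) (w := 5) (by omega) (by omega) (by omega) (by simpa using a) b
    · have a := KQ.blocks (b1 := 1) (b2 := 4) (x1 := 1) (x2 := 6) (y := 2) (r1 := 2) (r2 := 0)
        (by simpa [N4] using one_one (K := K) 4 8) (four 6 (by omega) 3 6 (by omega) (by omega))
      have b := KQ.blocks (b1 := 2) (b2 := 3) (x1 := 3) (x2 := 4) (y := 3) (r1 := 0) (r2 := 0)
        (two 3 (by omega) 7 5 (by omega) (by omega)) (three 4 (by omega) 6 5 (by omega) (by omega))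
      exact SS.of_crit (s := 2) (w := 6) (by omega) (by omega) (by omega) (by simpa using a) b
    · have a := KQ.blocks (b1 := 1) (b2 := 4) (x1 := 1) (x2 := 7) (y := 0) (r1 := 3) (r2 := 0)
        (by simpa [N4] using one_one (K := K) 4 7) (four 7 (by omega) 1 7 (by omega) (by omega))
      have b := KQ.blocks (b1 := 2) (b2 := 3) (x1 := 3) (x2 := 5) (y := 1) (r1 := 0) (r2 := 0)
        (two 3 (by omega) 6 6 (by omega) (by omega)) (three 5 (by omega) 4 6 (by omega) (by omega))
      exact SS.of_crit (s := 0) (w := 7) (by omega) (by omega) (by omega) (by simpa using a) b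

/-- kernel `0` for any number of forms -/
theorem LV.sup [CharZero K] {n : ℕ} (hn : 4 ≤ n) (h : LV K n) :
    ∀ b x s w, 2 ≤ b → b ≤ x → s + x + w = NV (n + 1) → b * w ≤ n * x →
      Good n b x → (n + 1 < b → w * 4 ≤ (n + 1) * (n + 1)) → KQ K (n + 1) b x s 0 := by
  intro b
  induction b using Nat.strong_induction_on with
  | _ b ih =>
    intro x s w hb hbx hs hw hex hbig
    rcases Nat.lt_or_ge (n + 1) b with hbm | hbm
    · have hbig' := hbig hbm
      clear hbig
      -- blocks `n` and `b - n`
      obtain ⟨b2, rfl⟩ := Nat.exists_eq_add_of_le (show n ≤ b by omega)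
      obtain ⟨x1, hx1⟩ : ∃ x1, x1 = max w n := ⟨_, rfl⟩
      have hw1 : w ≤ x1 := by omega
      have hn1 : n ≤ x1 := by omega
      have e1 : (n + b2) * w = n * w + b2 * w := by ring
      -- the rest has enough points
      have hrest : x1 + b2 ≤ x ∧ b2 * w ≤ n * (x - x1) := by
        rcases Nat.lt_or_ge w n with h1 | h1
        · have : x1 = n := by omega
          subst this
          refine ⟨by omega, ?_⟩
          have a1 : b2 * w ≤ b2 * x1 := Nat.mul_le_mul_left _ h1.le
          have a2 : x1 * b2 ≤ x1 * (x - x1) := Nat.mul_le_mul_left _ (by omega)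
          nlinarith
        · have : x1 = w := by omega
          subst this
          have a0 : x1 ≤ x := by
            by_contra hc
            have hc : x + 1 ≤ x1 := by omega
            have a1 : n * (x + 1) ≤ n * x1 := Nat.mul_le_mul_left _ hc
            have a2 : n * (x + 1) = n * x + n := by ring
            omega
          obtain ⟨t, rfl⟩ := Nat.exists_eq_add_of_le a0
          have a3 : n * (x1 + t) = n * x1 + n * t := by ring
          have a4 : b2 * x1 ≤ n * t := by omega
          refine ⟨?_, ?_⟩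
          · have a5 : b2 * n ≤ b2 * x1 := Nat.mul_le_mul_left _ h1
            have a6 : n * b2 ≤ n * t := by nlinarith
            have := Nat.le_of_mul_le_mul_left a6 (by omega)
            omega
          · have : x1 + t - x1 = t := by omega
            rw [this]
            exact a4
      obtain ⟨hr1, hr2⟩ := hrest
      obtain ⟨x2, rfl⟩ := Nat.exists_eq_add_of_le (show x1 ≤ x by omega)
      rw [Nat.add_sub_cancel_left] at hr2
      have q1 : KQ K (n + 1) n x1 (s + x2) 0 := by
        refine (h n x1 (by omega) (by omega) hn1 (fun hc => by omega)).1 _ w (by omega) ?_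
        simp only [Nat.add_sub_cancel]
        exact Nat.mul_le_mul_left _ hw1
      have q2 : KQ K (n + 1) b2 x2 (s + x1) 0 := by
        by_cases hexc : b2 = 3 ∧ 2 * x2 = 3 * n + 1
        · -- one point is superfluous
          obtain ⟨rfl, hx2⟩ := hexc
          obtain ⟨y, rfl⟩ : ∃ y, x2 = y + 1 := ⟨x2 - 1, by omega⟩
          refine KQ.simple_to_full ?_
          refine ih 3 (by omega) y (s + x1 + 1) w (by omega) (by omega) (by omega) ?_
            (fun hc => by omega) (fun hc => by omega)
          nlinarith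
        · exact ih b2 (by omega) x2 (s + x1) w (by omega) (by omega) (by omega) hr2 hexc
            (fun _ => hbig')
      exact q1.blocks q2
    · exact (h b x hb hbm hbx hex).1 s w hs
        (by simpa only [Nat.add_sub_cancel] using hw)

/-- **All targets**: no simple points. -/
theorem LV.target [CharZero K] {n : ℕ} (hn : 4 ≤ n) (h : LV K n) {b x : ℕ} (hb : 2 ≤ b)
    (hbN : b ≤ NV (n + 1)) (hbx : b ≤ x) (hE : b * NV (n + 1) ≤ x * (n + b)) (hex : Good n b x) :
    KQ K (n + 1) b x 0 0 := by
  rcases Nat.le_total x (NV (n + 1)) with hx | hx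
  · obtain ⟨w, hw⟩ := Nat.exists_eq_add_of_le hx
    refine LV.sup hn h b x 0 w hb hbx (by omega) ?_ hex ?_
    · rw [hw] at hE
      have e1 : b * (x + w) = b * x + b * w := by ring
      have e2 : x * (n + b) = n * x + b * x := by ring
      omega
    · intro hbm
      have h2 := two_NV (n + 1)
      rw [hw] at hE h2
      have h3 : b * w ≤ n * x := by nlinarith
      have h4 : (n + 2) * w ≤ n * x := le_trans (Nat.mul_le_mul_right _ (by omega)) h3
      nlinarith
  · have k : KQ K (n + 1) b (NV (n + 1)) 0 0 := by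
      refine LV.sup hn h b _ 0 0 hb hbN (by omega) (by simp) ?_ (by simp)
      rintro ⟨-, h3⟩
      have h2 := two_NV (n + 1)
      rw [h2] at h3
      nlinarith
    obtain ⟨t, rfl⟩ := Nat.exists_eq_add_of_le hx
    exact k.more_full t

end

end Pool.Agent.WarR
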