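import Pool.Agent.WarR.Defs

/-!
# The codimension two step   (helper41)

`b` full points off a subspace of codimension two, with pairwise independent directions and the standard
basis vectors as labels. The residual system is the system of a multigraph.
-/

set_option autoImplicit false

open Module

namespace Pool.Agent.WarR

open Pool.Agent.War

namespace Cod2

section

variable {K : Type*} [Field K]

/-- first coordinate of the direction of the point `j` -/
def pp (K : Type*) [Field K] (j : ℕ) : K := if j = 1 then 0 else 1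

/-- second coordinate of the direction of the point `j` -/
def qq (K : Type*) [Field K] (j : ℕ) : K := (j : K)

/-- the rest of the point `j` -/
def PP (K : Type*) [Field K] (m j : ℕ) : Fin m → K := fun k => if (k : ℕ) + 2 = j then 1 else 0

theorem pp_one : pp K 1 = 0 := if_pos rfl

theorem pp_ne {j : ℕ} (h : j ≠ 1) : pp K j = 1 := if_neg h

theorem qq_ne [CharZero K] {j : ℕ} (h : j ≠ 0) : qq K j ≠ 0 := Nat.cast_ne_zero.2 h

theorem pq_ne [CharZero K] {i j : ℕ} (h : i ≠ j) : pp K i * qq K j - pp K j * qq K i ≠ 0 := by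
  by_cases hi : i = 1
  · subst hi
    rw [pp_one, pp_ne h.symm]
    simp [qq]
  · by_cases hj : j = 1
    · subst hj
      rw [pp_one, pp_ne hi]
      simp [qq]
    · rw [pp_ne hi, pp_ne hj, one_mul, one_mul]
      intro h0
      exact h (Nat.cast_injective (sub_eq_zero.1 h0)).symm

/-- a row -/
def r0 {m : ℕ} (A : Fin (m + 2) → Fin (m + 2) → K) (v : Fin m → K) : K :=
  ∑ k, v k * A 0 k.succ.succ

/-- a row -/
def r1 {m : ℕ} (A : Fin (m + 2) → Fin (m + 2) → K) (v : Fin m → K) : K :=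
  ∑ k, v k * A 1 k.succ.succ

/-- the restriction -/
def rs {m : ℕ} (A : Fin (m + 2) → Fin (m + 2) → K) : Fin m → Fin m → K :=
  fun i j => A i.succ.succ j.succ.succ

theorem expand {m : ℕ} {A : Fin (m + 2) → Fin (m + 2) → K} (hA : A ∈ SF K (m + 2))
    (s t s' t' : K) (v v' : Fin m → K) :
    bf A (Fin.cons s (Fin.cons t v)) (Fin.cons s' (Fin.cons t' v')) =
      s * s' * A 0 0 + (s * t' + t * s') * A 0 1 + t * t' * A 1 1 + s * r0 A v' + s' * r0 A v +
        t * r1 A v' + t' * r1 A v + bf (rs A) v v' := by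
  have e1 : ∑ i : Fin m, v i * s' * A i.succ.succ 0 = s' * r0 A v := by
    rw [r0, Finset.mul_sum]
    refine Finset.sum_congr rfl fun i _ => ?_
    rw [hA i.succ.succ 0]
    ring
  have e2 : ∑ i : Fin m, v i * t' * A i.succ.succ 1 = t' * r1 A v := by
    rw [r1, Finset.mul_sum]
    refine Finset.sum_congr rfl fun i _ => ?_
    rw [hA i.succ.succ 1]
    ring
  have e3 : ∑ j : Fin m, s * v' j * A 0 j.succ.succ = s * r0 A v' := by
    rw [r0, Finset.mul_sum]
    refine Finset.sum_congr rfl fun i _ => ?_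
    ring
  have e4 : ∑ j : Fin m, t * v' j * A 1 j.succ.succ = t * r1 A v' := by
    rw [r1, Finset.mul_sum]
    refine Finset.sum_congr rfl fun i _ => ?_
    ring
  have e5 : A 1 0 = A 0 1 := hA 1 0
  unfold bf rs
  simp only [Fin.sum_univ_succ, Fin.cons_zero, Fin.cons_succ, Fin.succ_zero_eq_one,
    Finset.sum_add_distrib]
  rw [e1, e2, e3, e4, e5]
  ring

/-- the points off the subspace -/
def zz (K : Type*) [Field K] (m j : ℕ) : Fin (m + 2) → K :=
  Fin.cons (pp K j) (Fin.cons (qq K j) (PP K m j))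

/-- the points on the subspace -/
def hh {m : ℕ} (z : Fin m → K) : Fin (m + 2) → K := Fin.cons 0 (Fin.cons 0 z)

theorem r0_zero {m : ℕ} (A : Fin (m + 2) → Fin (m + 2) → K) : r0 A 0 = 0 := by simp [r0]

theorem r1_zero {m : ℕ} (A : Fin (m + 2) → Fin (m + 2) → K) : r1 A 0 = 0 := by simp [r1]

theorem r0_PP {m : ℕ} (A : Fin (m + 2) → Fin (m + 2) → K) (k : Fin m) :
    r0 A (PP K m ((k : ℕ) + 2)) = A 0 k.succ.succ := by
  unfold r0 PP
  rw [Finset.sum_eq_single k]
  · simp
  · intro l _ hl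
    have : (l : ℕ) + 2 ≠ (k : ℕ) + 2 := fun h => hl (Fin.ext (by omega))
    rw [if_neg this, zero_mul]
  · simp

theorem r1_PP {m : ℕ} (A : Fin (m + 2) → Fin (m + 2) → K) (k : Fin m) :
    r1 A (PP K m ((k : ℕ) + 2)) = A 1 k.succ.succ := by
  unfold r1 PP
  rw [Finset.sum_eq_single k]
  · simp
  · intro l _ hl
    have : (l : ℕ) + 2 ≠ (k : ℕ) + 2 := fun h => hl (Fin.ext (by omega))
    rw [if_neg this, zero_mul]
  · simp

theorem PP_zero (m : ℕ) : PP K m 0 = 0 := by
  funext k
  exact if_neg (by omega)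

theorem PP_one (m : ℕ) : PP K m 1 = 0 := by
  funext k
  exact if_neg (by omega)

/-- the linear form of the `j`-th form -/
def bet {m : ℕ} (j : ℕ) (A : Fin (m + 2) → Fin (m + 2) → K) : Fin m → K := fun k =>
  if j = 1 then A 0 k.succ.succ else - A 1 k.succ.succ

/-- the data of the forms which vanish on the subspace -/
theorem local_j [CharZero K] {m : ℕ} (b : ℕ) (hb : 2 ≤ b) (j : ℕ)
    (A : Fin (m + 2) → Fin (m + 2) → K) (hA : A ∈ SF K (m + 2)) (h0 : rs A = 0)
    (h1 : ∀ l < b, bf A (zz K m l) (zz K m l) = 0) (h2 : ∀ v, bf A (zz K m j) v = 0) :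
    A 0 0 = 0 ∧ A 0 1 = 0 ∧ A 1 1 = 0 ∧ (∀ k : Fin m, A 0 k.succ.succ = qq K j * bet j A k) ∧
      (∀ k : Fin m, A 1 k.succ.succ = - (pp K j * bet j A k)) ∧
      ∀ k : Fin m, (k : ℕ) + 2 < b → bet j A k = 0 := by
  have hbf0 : ∀ v v' : Fin m → K, bf (rs A) v v' = 0 := fun v v' => by rw [h0, bf_zero]
  have a00 : A 0 0 = 0 := by
    have := h1 0 (by omega)
    rw [zz, expand hA, PP_zero, pp_ne (by norm_num), hbf0, r0_zero, r1_zero] at this
    simpa [qq] using this
  have a11 : A 1 1 = 0 := by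
    have := h1 1 (by omega)
    rw [zz, expand hA, PP_one, pp_one, hbf0, r0_zero, r1_zero] at this
    simpa [qq] using this
  -- the conditions of the point `j`
  have c0 : qq K j * A 0 1 + r0 A (PP K m j) = 0 := by
    have := h2 (Fin.cons 1 (Fin.cons 0 0))
    rw [zz, expand hA, hbf0, r0_zero, r1_zero, a00] at this
    linear_combination this
  have c1 : pp K j * A 0 1 + r1 A (PP K m j) = 0 := by
    have := h2 (Fin.cons 0 (Fin.cons 1 0))
    rw [zz, expand hA, hbf0, r0_zero, r1_zero, a11] at this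
    linear_combination this
  have c2 : ∀ v : Fin m → K, pp K j * r0 A v + qq K j * r1 A v = 0 := by
    intro v
    have := h2 (Fin.cons 0 (Fin.cons 0 v))
    rw [zz, expand hA, hbf0] at this
    linear_combination this
  have c3 : ∀ k : Fin m, pp K j * A 0 k.succ.succ + qq K j * A 1 k.succ.succ = 0 := by
    intro k
    have := c2 (PP K m ((k : ℕ) + 2))
    rwa [r0_PP, r1_PP] at this
  have a01 : A 0 1 = 0 := by
    by_cases hj0 : j = 0
    · subst hj0
      rw [PP_zero, r1_zero, pp_ne (by norm_num)] at c1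
      linear_combination c1
    · by_cases hj1 : j = 1
      · subst hj1
        rw [PP_one, r0_zero] at c0
        simpa [qq] using c0
      · have h3 := c2 (PP K m j)
        have h4 : pp K j = 1 := pp_ne hj1
        rw [h4] at c1 h3
        have h5 : 2 * (qq K j * A 0 1) = 0 := by linear_combination c0 + qq K j * c1 - h3
        have h6 := qq_ne (K := K) hj0
        have h7 := (mul_eq_zero.1 h5).resolve_left two_ne_zero
        exact (mul_eq_zero.1 h7).resolve_left h6
  have b0 : ∀ k : Fin m, A 0 k.succ.succ = qq K j * bet j A k := by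
    intro k
    by_cases hj1 : j = 1
    · subst hj1
      simp [bet, qq]
    · have h3 := c3 k
      rw [pp_ne hj1] at h3
      rw [bet, if_neg hj1]
      linear_combination h3
  have b1 : ∀ k : Fin m, A 1 k.succ.succ = - (pp K j * bet j A k) := by
    intro k
    by_cases hj1 : j = 1
    · subst hj1
      have h3 := c3 k
      rw [pp_one] at h3 ⊢
      have h4 : qq K 1 = 1 := by simp [qq]
      rw [h4] at h3
      linear_combination h3
    · rw [bet, if_neg hj1, pp_ne hj1]
      ring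
  refine ⟨a00, a01, a11, b0, b1, fun k hk => ?_⟩
  have hbe : r0 A (PP K m ((k : ℕ) + 2)) = qq K j * bet j A k := by rw [r0_PP, b0]
  have hbe1 : r1 A (PP K m ((k : ℕ) + 2)) = - (pp K j * bet j A k) := by rw [r1_PP, b1]
  by_cases hkj : (k : ℕ) + 2 = j
  · have h4 : qq K j ≠ 0 := qq_ne (by omega)
    rw [a01, mul_zero, zero_add, ← hkj, hbe] at c0
    exact (mul_eq_zero.1 c0).resolve_left h4
  · have h3 := h1 ((k : ℕ) + 2) hk
    rw [zz, expand hA, hbf0, a00, a01, a11, hbe, hbe1] at h3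
    have h4 := pq_ne (K := K) hkj
    have h5 : 2 * ((pp K ((k : ℕ) + 2) * qq K j - pp K j * qq K ((k : ℕ) + 2)) * bet j A k) = 0 := by
      linear_combination h3
    have h7 := (mul_eq_zero.1 h5).resolve_left two_ne_zero
    exact (mul_eq_zero.1 h7).resolve_left h4

/-! ### the residual system -/

/-- the functional of a point on the subspace -/
def om {m b : ℕ} (w : Fin b → K) (a : Fin b → K) (z : Fin m → K) :
    (Fin b → Fin m → K) →ₗ[K] K where
  toFun β := ∑ j, a j * (w j * ∑ k, z k * β j k)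
  map_add' β γ := by
    simp only [Pi.add_apply, mul_add, Finset.sum_add_distrib]
  map_smul' c β := by
    simp only [Pi.smul_apply, smul_eq_mul, RingHom.id_apply, Finset.mul_sum]
    refine Finset.sum_congr rfl fun j _ => Finset.sum_congr rfl fun k _ => by ring

@[simp] theorem om_apply {m b : ℕ} (w : Fin b → K) (a : Fin b → K) (z : Fin m → K)
    (β : Fin b → Fin m → K) : om w a z β = ∑ j, a j * (w j * ∑ k, z k * β j k) := rfl

/-- the coordinate functional -/
def co {m b : ℕ} (j : Fin b) (k : Fin m) : (Fin b → Fin m → K) →ₗ[K] K :=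
  (LinearMap.proj k : (Fin m → K) →ₗ[K] K).comp (LinearMap.proj j)

/-- the residual system -/
def RS {m b : ℕ} (p q : Fin b → K) {x s : ℕ} (c : Cfg K m b (Fin x) (Fin s)) :
    Submodule K (Fin b → Fin m → K) :=
  (⨅ t : Fin b × {k : Fin m // (k : ℕ) + 2 < b}, LinearMap.ker (co t.1 t.2.1)) ⊓
    ((⨅ i, LinearMap.ker (om p (c.2.1 i) (c.1 i))) ⊓ ⨅ i, LinearMap.ker (om q (c.2.1 i) (c.1 i)))

theorem mem_RS {m b : ℕ} {p q : Fin b → K} {x s : ℕ} {c : Cfg K m b (Fin x) (Fin s)}
    {β : Fin b → Fin m → K} : β ∈ RS p q c ↔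
      (∀ (j : Fin b) (k : Fin m), (k : ℕ) + 2 < b → β j k = 0) ∧
      (∀ i, ∑ j, c.2.1 i j * (p j * ∑ k, c.1 i k * β j k) = 0) ∧
      ∀ i, ∑ j, c.2.1 i j * (q j * ∑ k, c.1 i k * β j k) = 0 := by
  simp only [RS, Submodule.mem_inf, Submodule.mem_iInf, LinearMap.mem_ker, om_apply, co,
    LinearMap.comp_apply, LinearMap.proj_apply, Prod.forall, Subtype.forall]

theorem PK_RS {m b : ℕ} (p q : Fin b → K) {x s : ℕ} :
    PK fun c : Cfg K m b (Fin x) (Fin s) => RS p q c := by
  have h1 : ∀ w : Fin b → K, PK fun c : Cfg K m b (Fin x) (Fin s) =>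
      ⨅ i, LinearMap.ker (om w (c.2.1 i) (c.1 i)) := fun w => by
    refine PK.iInf fun i => PK.one (φ := fun c : Cfg K m b (Fin x) (Fin s) =>
      om w (c.2.1 i) (c.1 i)) fun β => ?_
    simp only [om_apply]
    exact LP.sum _ fun j _ => (LP_c2 i j).mul ((LP.const _).mul
      (LP.sum _ fun k _ => (LP_c1 i k).mul (LP.const _)))
  have h0 : PK fun _ : Cfg K m b (Fin x) (Fin s) =>
      (⨅ t : Fin b × {k : Fin m // (k : ℕ) + 2 < b}, LinearMap.ker (co (K := K) t.1 t.2.1)) :=
    PK.iInf fun t => PK.one (φ := fun _ : Cfg K m b (Fin x) (Fin s) =>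
      (co t.1 t.2.1 : (Fin b → Fin m → K) →ₗ[K] K)) fun β => LP.const _
  exact h0.inf ((h1 p).inf (h1 q))

/-- the labels of the multigraph -/
def lab (K : Type*) [Field K] (b i : ℕ) : Fin b → K := fun j =>
  (if (2 * i) % b = j then 1 else 0) + if (2 * i + 1) % b = j then 1 else 0

/-- points on the moment curve -/
def mom (K : Type*) [Field K] (m i : ℕ) : Fin m → K := fun k => ((i : K) + 1) ^ (k : ℕ)

theorem sum_lab {b i : ℕ} (hb : 2 ≤ b) (g : Fin b → K) :
    ∑ j, lab K b i j * g j = g ⟨(2 * i) % b, Nat.mod_lt _ (by omega)⟩ +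
      g ⟨(2 * i + 1) % b, Nat.mod_lt _ (by omega)⟩ := by
  unfold lab
  simp only [add_mul, Finset.sum_add_distrib, ite_mul, one_mul, zero_mul]
  congr 1
  · rw [Finset.sum_eq_single ⟨(2 * i) % b, Nat.mod_lt _ (by omega)⟩]
    · simp
    · intro j _ hj
      rw [if_neg]
      intro h
      exact hj (Fin.ext h.symm)
    · simp
  · rw [Finset.sum_eq_single ⟨(2 * i + 1) % b, Nat.mod_lt _ (by omega)⟩]
    · simp
    · intro j _ hj
      rw [if_neg]
      intro h
      exact hj (Fin.ext h.symm)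
    · simp

theorem mod_ne {b i : ℕ} (hb : 2 ≤ b) : (2 * i) % b ≠ (2 * i + 1) % b := by
  intro h
  have h1 : (2 * i) ≡ (2 * i + 1) [MOD b] := h
  have h2 := (Nat.modEq_iff_dvd' (by omega)).1 h1
  rw [Nat.add_sub_cancel_left] at h2
  have := Nat.le_of_dvd one_pos h2
  omega

/-- the residual system is injective for the multigraph -/
theorem RS_bot [CharZero K] (e d x s : ℕ) (h : (e + 2) * d ≤ 2 * x) :
    RS (m := e + d) (b := e + 2) (fun j => pp K j) (fun j => qq K j)
      ((fun i => mom K (e + d) i, fun i => lab K (e + 2) i, fun _ => 0) :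
        Cfg K (e + d) (e + 2) (Fin x) (Fin s)) = ⊥ := by
  rw [eq_bot_iff]
  intro β hβ
  rw [mem_RS] at hβ
  obtain ⟨h1, h2, h3⟩ := hβ
  rw [Submodule.mem_bot]
  -- the values at the points of the edges
  have hval : ∀ i : Fin x, (∑ k, mom K (e + d) i k *
      β ⟨(2 * (i : ℕ)) % (e + 2), Nat.mod_lt _ (by omega)⟩ k = 0) ∧
      ∑ k, mom K (e + d) i k *
        β ⟨(2 * (i : ℕ) + 1) % (e + 2), Nat.mod_lt _ (by omega)⟩ k = 0 := by
    intro i
    have k2 := h2 i
    have k3 := h3 i
    change ∑ j, lab K (e + 2) i j * (pp K j * ∑ k, mom K (e + d) i k * β j k) = 0 at k2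
    change ∑ j, lab K (e + 2) i j * (qq K j * ∑ k, mom K (e + d) i k * β j k) = 0 at k3
    rw [sum_lab (by omega)] at k2 k3
    have hne := pq_ne (K := K) (mod_ne (b := e + 2) (i := (i : ℕ)) (by omega))
    simp only at k2 k3
    set S := ∑ k, mom K (e + d) i k *
      β ⟨(2 * (i : ℕ)) % (e + 2), Nat.mod_lt _ (by omega)⟩ k
    set T := ∑ k, mom K (e + d) i k *
      β ⟨(2 * (i : ℕ) + 1) % (e + 2), Nat.mod_lt _ (by omega)⟩ k
    set ps := pp K ((2 * (i : ℕ)) % (e + 2))
    set pt := pp K ((2 * (i : ℕ) + 1) % (e + 2))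
    set qs := qq K ((2 * (i : ℕ)) % (e + 2))
    set qt := qq K ((2 * (i : ℕ) + 1) % (e + 2))
    constructor
    · have : (ps * qt - pt * qs) * S = 0 := by linear_combination qt * k2 - pt * k3
      exact (mul_eq_zero.1 this).resolve_left hne
    · have : (ps * qt - pt * qs) * T = 0 := by linear_combination ps * k3 - qs * k2
      exact (mul_eq_zero.1 this).resolve_left hne
  -- the rows
  have hrow : ∀ j : Fin (e + 2), ∀ c < d, ∃ i : ℕ, i < x ∧ i = ((j : ℕ) + c * (e + 2)) / 2 ∧
      ∑ k, mom K (e + d) i k * β j k = 0 := by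
    intro j c hc
    have hj := j.2
    have hlt : (j : ℕ) + c * (e + 2) < 2 * x := by
      have : (c + 1) * (e + 2) ≤ d * (e + 2) := Nat.mul_le_mul_right _ hc
      nlinarith
    have hmod : ((j : ℕ) + c * (e + 2)) % (e + 2) = j := by
      rw [Nat.add_mul_mod_self_right, Nat.mod_eq_of_lt hj]
    refine ⟨((j : ℕ) + c * (e + 2)) / 2, by omega, rfl, ?_⟩
    obtain ⟨v1, v2⟩ := hval ⟨((j : ℕ) + c * (e + 2)) / 2, by omega⟩
    simp only at v1 v2
    rcases Nat.even_or_odd' ((j : ℕ) + c * (e + 2)) with ⟨u, hu | hu⟩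
    · have e1 : 2 * (((j : ℕ) + c * (e + 2)) / 2) = (j : ℕ) + c * (e + 2) := by omega
      have e2 : (⟨(2 * (((j : ℕ) + c * (e + 2)) / 2)) % (e + 2), Nat.mod_lt _ (by omega)⟩ :
          Fin (e + 2)) = j := Fin.ext (by
        show _ % _ = _
        rw [e1, hmod])
      rwa [e2] at v1
    · have e1 : 2 * (((j : ℕ) + c * (e + 2)) / 2) + 1 = (j : ℕ) + c * (e + 2) := by omega
      have e2 : (⟨(2 * (((j : ℕ) + c * (e + 2)) / 2) + 1) % (e + 2), Nat.mod_lt _ (by omega)⟩ :
          Fin (e + 2)) = j := Fin.ext (by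
        show _ % _ = _
        rw [e1, hmod])
      rwa [e2] at v2
  funext j
  have hd : (fun k : Fin d => β j (Fin.natAdd e k)) = 0 := by
    refine Matrix.eq_zero_of_forall_index_sum_pow_mul_eq_zero
      (f := fun c : Fin d => (((((j : ℕ) + c * (e + 2)) / 2 : ℕ) : K) + 1)) ?_ ?_
    · intro c c' hcc
      have h4 : ((j : ℕ) + c * (e + 2)) / 2 = ((j : ℕ) + c' * (e + 2)) / 2 :=
        Nat.cast_injective (R := K) (add_right_cancel hcc)
      apply Fin.ext
      by_contra hne
      rcases lt_or_gt_of_ne hne with h5 | h5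
      · have : ((c : ℕ) + 1) * (e + 2) ≤ c' * (e + 2) := Nat.mul_le_mul_right _ h5
        have h6 : (c : ℕ) * (e + 2) + 2 ≤ c' * (e + 2) := by nlinarith
        omega
      · have : ((c' : ℕ) + 1) * (e + 2) ≤ c * (e + 2) := Nat.mul_le_mul_right _ h5
        have h6 : (c' : ℕ) * (e + 2) + 2 ≤ c * (e + 2) := by nlinarith
        omega
    · intro c
      obtain ⟨i, -, hi, h6⟩ := hrow j c c.2
      rw [Fin.sum_univ_add] at h6
      have h7 : ∑ k : Fin e, mom K (e + d) i (Fin.castAdd d k) * β j (Fin.castAdd d k) = 0 := by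
        refine Finset.sum_eq_zero fun k _ => ?_
        rw [h1 j (Fin.castAdd d k) (by rw [Fin.val_castAdd]; omega), mul_zero]
      rw [h7, zero_add] at h6
      have h8 : ((i : K) + 1) ^ e * ∑ k : Fin d, ((i : K) + 1) ^ (k : ℕ) * β j (Fin.natAdd e k) =
          0 := by
        rw [← h6, Finset.mul_sum]
        refine Finset.sum_congr rfl fun k _ => ?_
        rw [mom, Fin.val_natAdd, pow_add]
        ring
      have h9 : ((i : K) + 1) ≠ 0 := by exact_mod_cast Nat.succ_ne_zero i
      have h10 := (mul_eq_zero.1 h8).resolve_left (pow_ne_zero _ h9)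
      rw [hi] at h10
      exact h10
  funext k
  refine Fin.addCases (fun k => ?_) (fun k => ?_) k
  · exact h1 j (Fin.castAdd d k) (by rw [Fin.val_castAdd]; omega)
  · exact congrFun hd k

theorem rs_mem {m : ℕ} {A : Fin (m + 2) → Fin (m + 2) → K} (hA : A ∈ SF K (m + 2)) :
    rs A ∈ SF K m := fun i j => hA i.succ.succ j.succ.succ

/-- the restriction of the tuples -/
def rst (K : Type*) [Field K] (m b : ℕ) : (Fin b → SF K (m + 2)) →ₗ[K] (Fin b → SF K m) where
  toFun F j := ⟨rs (F j : Fin (m + 2) → Fin (m + 2) → K), rs_mem (F j).2⟩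
  map_add' _ _ := rfl
  map_smul' _ _ := rfl

theorem bf_hh {m : ℕ} {A : Fin (m + 2) → Fin (m + 2) → K} (hA : A ∈ SF K (m + 2))
    (z v : Fin m → K) : bf A (hh z) (hh v) = bf (rs A) z v := by
  rw [hh, hh, expand hA]
  ring

theorem bf_hh0 {m : ℕ} {A : Fin (m + 2) → Fin (m + 2) → K} (hA : A ∈ SF K (m + 2))
    (z : Fin m → K) : bf A (hh z) (Fin.cons 1 (Fin.cons 0 0)) = r0 A z := by
  rw [hh, expand hA, r0_zero, r1_zero]
  have : bf (rs A) z 0 = 0 := by simp [bf]
  rw [this]
  ring

theorem bf_hh1 {m : ℕ} {A : Fin (m + 2) → Fin (m + 2) → K} (hA : A ∈ SF K (m + 2))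
    (z : Fin m → K) : bf A (hh z) (Fin.cons 0 (Fin.cons 1 0)) = r1 A z := by
  rw [hh, expand hA, r0_zero, r1_zero]
  have : bf (rs A) z 0 = 0 := by simp [bf]
  rw [this]
  ring

/-- the configuration of the step -/
def cfg2 {m b x s : ℕ} (c : Cfg K m b (Fin x) (Fin s)) :
    Cfg K (m + 2) b (Fin x ⊕ Fin b) (Fin s) :=
  (Sum.elim (fun i => hh (c.1 i)) fun l => zz K m l,
    Sum.elim c.2.1 fun l => Pi.single l 1, fun l => hh (c.2.2 l))

end

end Cod2

open Cod2 in
/-- **The codimension two step.** `b` full points off a subspace of codimension two. -/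
theorem cod2 {K : Type*} [Field K] [CharZero K] {m b x s r : ℕ} (hb : 2 ≤ b) (hbm : b ≤ m + 2)
    (hx : b * (m + 2 - b) ≤ 2 * x) (H : KQ K m b x s r) : KQ K (m + 2) b (x + b) s r := by
  classical
  obtain ⟨e, rfl⟩ : ∃ e, b = e + 2 := ⟨b - 2, by omega⟩
  obtain ⟨d, rfl⟩ : ∃ d, m = e + d := ⟨m - e, by omega⟩
  have hd : e + d + 2 - (e + 2) = d := by omega
  rw [hd] at hx
  obtain ⟨c, hc1, hc2⟩ := (H.gen.and ((PK_RS (K := K) (m := e + d) (b := e + 2) (x := x) (s := s)
    (fun j => pp K j) (fun j => qq K j)).gen_bot (RS_bot e d x s hx))).exists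
  refine KQ.of_cfg (cfg2 c) (by simp) (Fintype.card_fin s) ?_
  have hker : ZK (cfg2 c) ⊓ LinearMap.ker (rst K (e + d) (e + 2)) = ⊥ := by
    rw [eq_bot_iff]
    rintro F ⟨hF, hF0⟩
    rw [Submodule.mem_bot]
    obtain ⟨h1, h2, h3⟩ := mem_ZK.1 hF
    have hrs : ∀ j, rs (F j : Fin (e + d + 2) → Fin (e + d + 2) → K) = 0 := fun j =>
      congrArg Subtype.val (congrFun (LinearMap.mem_ker.1 hF0) j)
    have hloc : ∀ j : Fin (e + 2), _ := fun j => local_j (e + 2) (by omega) (j : ℕ)
      (F j : Fin (e + d + 2) → Fin (e + d + 2) → K) (F j).2 (hrs j)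
      (fun l hl => h1 (Sum.inr ⟨l, hl⟩) j) (fun v => by
        have := h2 (Sum.inr j) v
        change ∑ l, (Pi.single j (1 : K) : Fin (e + 2) → K) l *
          bf (F l : Fin (e + d + 2) → Fin (e + d + 2) → K) (zz K (e + d) j) v = 0 at this
        rw [Finset.sum_eq_single j, Pi.single_eq_same, one_mul] at this
        · exact this
        · intro l _ hl
          rw [Pi.single_eq_of_ne hl, zero_mul]
        · simp)
    let β : Fin (e + 2) → Fin (e + d) → K := fun j =>
      bet j (F j : Fin (e + d + 2) → Fin (e + d + 2) → K)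
    have hr0 : ∀ (j : Fin (e + 2)) (z : Fin (e + d) → K),
        r0 (F j : Fin (e + d + 2) → Fin (e + d + 2) → K) z = qq K j * ∑ k, z k * β j k := by
      intro j z
      rw [r0, Finset.mul_sum]
      refine Finset.sum_congr rfl fun k _ => ?_
      rw [(hloc j).2.2.2.1 k]
      ring
    have hr1 : ∀ (j : Fin (e + 2)) (z : Fin (e + d) → K),
        r1 (F j : Fin (e + d + 2) → Fin (e + d + 2) → K) z = - (pp K j * ∑ k, z k * β j k) := by
      intro j z
      rw [r1, Finset.mul_sum, ← Finset.sum_neg_distrib]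
      refine Finset.sum_congr rfl fun k _ => ?_
      rw [(hloc j).2.2.2.2.1 k]
      ring
    have hβ : β ∈ RS (fun j : Fin (e + 2) => pp K j) (fun j => qq K j) c := by
      refine mem_RS.2 ⟨fun j k hk => (hloc j).2.2.2.2.2 k hk, fun i => ?_, fun i => ?_⟩
      · have := h2 (Sum.inl i) (Fin.cons 0 (Fin.cons 1 0))
        change ∑ j, c.2.1 i j * bf (F j : Fin (e + d + 2) → Fin (e + d + 2) → K) (hh (c.1 i))
          (Fin.cons 0 (Fin.cons 1 0)) = 0 at this
        simp only [bf_hh1 (F _).2, hr1, mul_neg, Finset.sum_neg_distrib, neg_eq_zero] at this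
        exact this
      · have := h2 (Sum.inl i) (Fin.cons 1 (Fin.cons 0 0))
        change ∑ j, c.2.1 i j * bf (F j : Fin (e + d + 2) → Fin (e + d + 2) → K) (hh (c.1 i))
          (Fin.cons 1 (Fin.cons 0 0)) = 0 at this
        simp only [bf_hh0 (F _).2, hr0] at this
        exact this
    rw [hc2, Submodule.mem_bot] at hβ
    funext j
    apply Subtype.ext
    funext i k
    have hA := (F j).2
    obtain ⟨a1, a2, a3, a4, a5, -⟩ := hloc j
    have hβj : ∀ k, bet j (F j : Fin (e + d + 2) → Fin (e + d + 2) → K) k = 0 := fun k =>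
      congrFun (congrFun hβ j) k
    have b4 : ∀ k : Fin (e + d), (F j : Fin (e + d + 2) → Fin (e + d + 2) → K) 0 k.succ.succ = 0 :=
      fun k => by rw [a4, hβj, mul_zero]
    have b5 : ∀ k : Fin (e + d), (F j : Fin (e + d + 2) → Fin (e + d + 2) → K) 1 k.succ.succ = 0 :=
      fun k => by rw [a5, hβj, mul_zero, neg_zero]
    change (F j : Fin (e + d + 2) → Fin (e + d + 2) → K) i k = 0
    refine Fin.cases ?_ (fun i => Fin.cases ?_ (fun i => ?_) i) i
    · refine Fin.cases a1 (fun k => Fin.cases a2 (fun k => b4 k) k) k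
    · refine Fin.cases ?_ (fun k => Fin.cases a3 (fun k => b5 k) k) k
      exact (hA _ _).trans a2
    · refine Fin.cases ?_ (fun k => Fin.cases ?_ (fun k => ?_) k) k
      · exact (hA _ _).trans (b4 i)
      · exact (hA _ _).trans (b5 i)
      · exact congrFun (congrFun (hrs j) i) k
  have hmap : (ZK (cfg2 c)).map (rst K (e + d) (e + 2)) ≤ ZK c := by
    rintro _ ⟨F, hF, rfl⟩
    obtain ⟨h1, h2, h3⟩ := mem_ZK.1 hF
    refine mem_ZK.2 ⟨fun i j => ?_, fun i v => ?_, fun l j => ?_⟩
    · have := h1 (Sum.inl i) j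
      exact (bf_hh (F j).2 (c.1 i) (c.1 i)).symm.trans this
    · have := h2 (Sum.inl i) (hh v)
      change ∑ j, c.2.1 i j * bf (F j : Fin (e + d + 2) → Fin (e + d + 2) → K) (hh (c.1 i))
        (hh v) = 0 at this
      simp only [bf_hh (F _).2] at this
      exact this
    · have := h3 l j
      exact (bf_hh (F j).2 (c.2.2 l) (c.2.2 l)).symm.trans this
  have h5 := finrank_le_map_add_ker (rst K (e + d) (e + 2)) (ZK (cfg2 c))
  rw [hker, finrank_bot, add_zero] at h5
  exact h5.trans ((Submodule.finrank_mono hmap).trans hc1)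

end Pool.Agent.WarR
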