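import Pool.Agent.WarR.Flow
import Pool.Agent.WarR.Cod2
import Pool.Agent.WarR.Pencil
import Pool.Agent.WarR.As

/-!
# Three quadratic forms, both sides (MP_db021c_ag, degree 2)   (helper41)
-/

set_option autoImplicit false

open Module

namespace Pool.Agent.WarR

open Pool.Agent.War

section

variable {K : Type*} [Field K]

/-- one level up, by the split simple point -/
theorem SS.step [CharZero K] {m b x : ℕ} (hm : 2 ≤ m) (hb : 0 < b) (hbx : b ≤ x)
    (hE : x * (m - 1 + b) ≤ b * NV m) (h : SS K m b x)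
    (hs : ∀ ρ p, ρ < b → b * p + ρ < x + b → min ρ (x - b * p) + p + 1 ≤ m) :
    SS K (m + 1) b x := by
  obtain ⟨s, w, h1, h2, h3⟩ := exists_crit hb hE
  have hm1 : 0 < (m - 1) * x := Nat.mul_pos (by omega) (by omega)
  obtain ⟨w', rfl⟩ : ∃ w', w = w' + 1 := by
    refine ⟨w - 1, ?_⟩
    have : w ≠ 0 := by
      rintro rfl
      omega
    omega
  have hmx : (m - 1) * x + x = m * x := by
    obtain ⟨m', rfl⟩ : ∃ m', m = m' + 1 := ⟨m - 1, by omega⟩
    rw [Nat.add_sub_cancel]
    ring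
  have hbw : b * (w' + 1) = b * w' + b := by ring
  have k1 := h.2 s (w' + 1) h1 h2
  have k2 := h.1 (s + 1) w' (by omega) (by omega)
  obtain ⟨ρ, hρ⟩ : ∃ ρ, b * (w' + 1) - (m - 1) * x = ρ := ⟨_, rfl⟩
  rw [hρ] at k1
  have hρb : ρ < b := by omega
  obtain ⟨p, hp1, hp2⟩ : ∃ p, x ≤ b * (p + 1) + ρ ∧ b * p + ρ < x := by
    refine ⟨(x - ρ - 1) / b, ?_, ?_⟩
    · have e1 := Nat.div_add_mod (x - ρ - 1) b
      have e2 := Nat.mod_lt (x - ρ - 1) hb
      rw [Nat.mul_add, Nat.mul_one]
      omega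
    · have e1 := Nat.div_add_mod (x - ρ - 1) b
      omega
  have hbp : b * (p + 1) = b * p + b := by ring
  have hs1 := hs ρ (p + 1) hρb (by omega)
  have hs2 := hs ρ p hρb (by omega)
  have hpm : p + 1 ≤ m := by omega
  have e3 : b * (w' + 1 + (p + 1)) = b * (w' + 1) + b * (p + 1) := by ring
  have e4 : b * (w' + 1 + p) = b * (w' + 1) + b * p := by ring
  have q1 := step' (r := b * (w' + 1 + (p + 1)) - m * x) k1 k2 hbx hs1 (by omega)
  have q2 := step' (r := 0) k1 k2 hbx hs2 (by omega)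
  refine SS.of_crit (s := s + 1 + (m - (p + 1))) (w := w' + 1 + (p + 1)) ?_ ?_ ?_ ?_ ?_
  · rw [NV_succ]
    omega
  · rw [Nat.add_sub_cancel]
    omega
  · rw [Nat.add_sub_cancel]
    omega
  · rw [Nat.add_sub_cancel]
    exact q1
  · have : s + 1 + (m - (p + 1)) + 1 = s + 1 + (m - p) := by omega
    rw [this]
    exact q2

/-! ### the rank conditions -/

theorem cnd_of0 {m rk rp up rpp : ℕ} (h : rk + rp ≤ m) : cnd m rk rp up rpp 0 :=
  Or.inr (Or.inl ⟨rfl, by omega⟩)

theorem cnd_of1 {m rk rp up rpp upp : ℕ} (h0 : 0 < upp) (h1 : upp < rpp)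
    (h2 : rk + upp + 1 ≤ m) (h3 : rk + rp + 1 ≤ m)
    (h4 : rp + upp + (rp.choose 2 - up) ≤ (m - rk).choose 2) : cnd m rk rp up rpp upp := by
  have e1 : nc rpp upp = 1 := by
    unfold nc
    rw [if_neg (by omega), if_pos h1]
  have e2 : tqq rpp upp = rpp - 1 - upp := by
    unfold tqq
    rw [if_pos h1]
  refine Or.inr (Or.inr ⟨?_, ?_, ?_⟩)
  · rw [e2]
    omega
  · rw [e1]
    omega
  · rw [e1, e2]
    have : m - rk - 1 + 1 = m - rk := by omega
    rw [this]
    omega

theorem cnd_of2 {m rk rp up rpp upp : ℕ} (h1 : rpp ≤ upp) (h0 : 0 < rpp)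
    (h2 : rk + rpp ≤ m) (h3 : rk + rp + 2 ≤ m)
    (h4 : rp + (rpp - 2) + (rp.choose 2 - up) ≤ (m - rk - 1).choose 2) :
    cnd m rk rp up rpp upp := by
  have e1 : nc rpp upp = 2 := by
    unfold nc
    rw [if_neg (by omega), if_neg (by omega)]
  have e2 : tqq rpp upp = 0 := by
    unfold tqq
    rw [if_neg (by omega)]
  refine Or.inr (Or.inr ⟨?_, ?_, ?_⟩)
  · rw [e2]
    omega
  · rw [e1]
    omega
  · rw [e1, e2]
    have : m - rk - 2 + 1 = m - rk - 1 := by omega
    rw [this]
    omega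

theorem ch_succ (k : ℕ) : (k + 1).choose 2 = k.choose 2 + k := by
  rw [Nat.choose_succ_succ' k 1, Nat.choose_one_right, add_comm]

/-! ### three forms -/

theorem b3_even0 : KQ K 1 3 0 1 0 := by
  refine ⟨(fun l => l.elim0, fun l => l.elim0, fun _ _ => 1), ?_⟩
  have h3 : ZK ((fun l => l.elim0, fun l => l.elim0, fun _ _ => 1) :
      Cfg K 1 3 (Fin 0) (Fin 1)) = ⊥ := by
    rw [eq_bot_iff]
    intro F hF
    rw [Submodule.mem_bot]
    obtain ⟨-, -, h3⟩ := mem_ZK.1 hF
    funext j
    apply Subtype.ext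
    funext a c
    have h := h3 0 j
    rw [Subsingleton.elim a 0, Subsingleton.elim c 0]
    unfold bf at h
    simpa using h
  rw [h3, finrank_bot]

theorem b3_even [CharZero K] (k : ℕ) : KQ K (2 * k + 1) 3 (3 * k) 1 0 := by
  induction k with
  | zero => exact b3_even0
  | succ k ih =>
    have h := cod2 (K := K) (b := 3) (by norm_num) (by omega) (by omega) ih
    exact h

theorem b3_odd0 [CharZero K] : KQ K 2 3 2 1 0 := by
  refine ⟨(fun i => Pi.single i 1, fun _ _ => 0, fun _ _ => 1), ?_⟩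
  have h3 : ZK ((fun i => Pi.single i 1, fun _ _ => 0, fun _ _ => 1) :
      Cfg K 2 3 (Fin 2) (Fin 1)) = ⊥ := by
    rw [eq_bot_iff]
    intro F hF
    rw [Submodule.mem_bot]
    obtain ⟨h1, -, h3⟩ := mem_ZK.1 hF
    funext j
    apply Subtype.ext
    have e0 := h1 0 j
    have e1 := h1 1 j
    have e2 := h3 0 j
    change bf (F j : Fin 2 → Fin 2 → K) (Pi.single 0 1) (Pi.single 0 1) = 0 at e0
    change bf (F j : Fin 2 → Fin 2 → K) (Pi.single 1 1) (Pi.single 1 1) = 0 at e1
    change bf (F j : Fin 2 → Fin 2 → K) (fun _ => 1) (fun _ => 1) = 0 at e2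
    have e3 : (F j : Fin 2 → Fin 2 → K) 1 0 = (F j : Fin 2 → Fin 2 → K) 0 1 := (F j).2 1 0
    rw [bf_single] at e0 e1
    unfold bf at e2
    simp only [Fin.sum_univ_two, e0, e1, e3, mul_one, one_mul, zero_add, add_zero] at e2
    have e4 : 2 * (F j : Fin 2 → Fin 2 → K) 0 1 = 0 := by linear_combination e2
    have e5 := (mul_eq_zero.1 e4).resolve_left two_ne_zero
    funext a c
    change (F j : Fin 2 → Fin 2 → K) a c = 0
    fin_cases a <;> fin_cases c
    · exact e0
    · exact e5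
    · exact e3.trans e5
    · exact e1
  rw [h3, finrank_bot]

theorem b3_odd [CharZero K] (k : ℕ) : KQ K (2 * k + 2) 3 (3 * k + 2) 1 0 := by
  induction k with
  | zero => exact b3_odd0
  | succ k ih =>
    have h := cod2 (K := K) (b := 3) (by norm_num) (by omega) (by omega) ih
    exact h

theorem sq_ch (k : ℕ) : k * k = 2 * k.choose 2 + k := by
  have hT := Nat.choose_two_right k
  have h3 : k * (k - 1) / 2 * 2 = k * (k - 1) :=
    Nat.div_mul_cancel (Nat.even_mul_pred_self k).two_dvd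
  rcases Nat.eq_zero_or_pos k with rfl | h0
  · rfl
  obtain ⟨j, rfl⟩ : ∃ j, k = j + 1 := ⟨k - 1, by omega⟩
  rw [Nat.add_sub_cancel] at hT h3
  have h2 : (j + 1) * j + (j + 1) = (j + 1) * (j + 1) := by ring
  omega

theorem b3c_aux [CharZero K] {k s u v R : ℕ} (hu0 : 0 < u) (hu : u < k) (hv0 : 0 < v)
    (hv : v ≤ k) (huv : u ≤ v)
    (hR : (2 + v - (s + u)) + (k + 2 - (s + v)) + (1 + u - s) ≤ R) :
    KQ K (2 * k + 2) 3 (3 * k + 1) s R := by
  have c1 := ch_succ k
  have c2 : (k + 2).choose 2 = (k + 1).choose 2 + (k + 1) := ch_succ (k + 1)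
  have c3 : (k + 3).choose 2 = (k + 2).choose 2 + (k + 2) := ch_succ (k + 2)
  have hT := sq_ch k
  have hkk : k * 2 ≤ k * k := Nat.mul_le_mul_left k (by omega)
  have a1 : 2 * k + 2 - k = k + 2 := by omega
  have a2 : 2 * k + 2 + 1 - k = k + 3 := by omega
  have a3 : 2 * k + 2 + 1 - (k + 1) = k + 2 := by omega
  refine chain3 k k (k + 1) 0 u v (by omega) (by omega) (by omega) (by omega) (by omega)
    (cnd_of1 hu0 (by omega) (by omega) (by omega) ?_)
    (cnd_of1 hv0 (by omega) (by omega) (by omega) ?_) (cnd_of0 (by omega)) ?_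
  · rw [a1]
    omega
  · rw [a1]
    omega
  · have d0 : dfc (2 * k + 2) (3 * k + 1) s k (k + 1) v u ≤ 2 + v - (s + u) := by
      unfold dfc
      rw [a2]
      omega
    have d1 : dfc (2 * k + 2) (3 * k + 1) s k k 0 v ≤ k + 2 - (s + v) := by
      unfold dfc
      rw [a2]
      omega
    have d2 : dfc (2 * k + 2) (3 * k + 1) s (k + 1) k u 0 ≤ 1 + u - s := by
      unfold dfc
      rw [a3]
      omega
    exact (Nat.add_le_add (Nat.add_le_add d0 d1) d2).trans hR

/-- `n` odd, both sides at the last number -/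
theorem b3c [CharZero K] {k : ℕ} (hk : 2 ≤ k) : SS K (2 * k + 2) 3 (3 * k + 1) := by
  have hkk := sq_ch k
  have hNV : NV (2 * k + 2) = 4 * k.choose 2 + 7 * k + 3 := by
    have h1 := two_NV (2 * k + 2)
    have h2 : (2 * k + 2) * (2 * k + 2 + 1) = 4 * (k * k) + 10 * k + 6 := by ring
    omega
  have hmx : (2 * k + 2 - 1) * (3 * k + 1) = 12 * k.choose 2 + 11 * k + 1 := by
    have h2 : (2 * k + 2 - 1) = 2 * k + 1 := by omega
    have h3 : (2 * k + 1) * (3 * k + 1) = 6 * (k * k) + 5 * k + 1 := by ring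
    rw [h2, h3]
    omega
  obtain ⟨s, hs1, hs2⟩ : ∃ s, 3 * s ≤ k + 5 ∧ k + 5 < 3 * s + 3 := ⟨(k + 5) / 3, by omega, by omega⟩
  refine SS.of_crit (s := s) (w := 4 * k.choose 2 + 4 * k + 2 - s) ?_ ?_ ?_ ?_ ?_
  · rw [hNV]
    omega
  · rw [hmx]
    omega
  · rw [hmx]
    omega
  · rw [hmx]
    refine b3c_aux (u := s - 1) (v := k + 2 - s) (by omega) (by omega) (by omega) (by omega)
      (by omega) ?_
    omega
  · refine b3c_aux (u := min s (k + 1 - s)) (v := k + 1 - s) (by omega) (by omega) (by omega)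
      (by omega) (by omega) ?_
    omega

theorem b3b_aux [CharZero K] {j s u v R : ℕ} (hj : 1 ≤ j) (hu : u ≤ j) (hv : v ≤ j)
    (hR : (2 + v - s) + (j + 4 + u - (s + v)) + (j + 2 - (s + u)) ≤ R) :
    KQ K (2 * j + 3) 3 (3 * j + 2) s R := by
  have c1 := ch_succ j
  have c2 : (j + 2).choose 2 = (j + 1).choose 2 + (j + 1) := ch_succ (j + 1)
  have c3 : (j + 3).choose 2 = (j + 2).choose 2 + (j + 2) := ch_succ (j + 2)
  have c4 : (j + 4).choose 2 = (j + 3).choose 2 + (j + 3) := ch_succ (j + 3)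
  have hT := sq_ch j
  have a1 : 2 * j + 3 - j = j + 3 := by omega
  have a2 : 2 * j + 3 - (j + 1) = j + 2 := by omega
  have a3 : 2 * j + 3 + 1 - (j + 1) = j + 3 := by omega
  have a4 : 2 * j + 3 + 1 - j = j + 4 := by omega
  have q1 : cnd (2 * j + 3) j (j + 1) u (j + 1) v := by
    rcases Nat.eq_zero_or_pos v with rfl | hv0
    · exact cnd_of0 (by omega)
    · refine cnd_of1 hv0 (by omega) (by omega) (by omega) ?_
      rw [a1]
      omega
  have q2 : cnd (2 * j + 3) (j + 1) j 0 (j + 1) u := by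
    rcases Nat.eq_zero_or_pos u with rfl | hu0
    · exact cnd_of0 (by omega)
    · refine cnd_of1 hu0 (by omega) (by omega) (by omega) ?_
      rw [a2]
      omega
  refine chain3 (j + 1) j (j + 1) u 0 v (by omega) (by omega) (by omega) (by omega) (by omega)
    (cnd_of0 (by omega)) q1 q2 ?_
  have d0 : dfc (2 * j + 3) (3 * j + 2) s (j + 1) (j + 1) v 0 ≤ 2 + v - s := by
    unfold dfc
    rw [a3]
    omega
  have d1 : dfc (2 * j + 3) (3 * j + 2) s j (j + 1) u v ≤ j + 4 + u - (s + v) := by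
    unfold dfc
    rw [a4]
    omega
  have d2 : dfc (2 * j + 3) (3 * j + 2) s (j + 1) j 0 u ≤ j + 2 - (s + u) := by
    unfold dfc
    rw [a3]
    omega
  exact (Nat.add_le_add (Nat.add_le_add d0 d1) d2).trans hR

/-- `n` even, both sides at the number before the last -/
theorem b3b [CharZero K] {j : ℕ} (hj : 1 ≤ j) : SS K (2 * j + 3) 3 (3 * j + 2) := by
  have hkk := sq_ch j
  have hNV : NV (2 * j + 3) = 4 * j.choose 2 + 9 * j + 6 := by
    have h1 := two_NV (2 * j + 3)
    have h2 : (2 * j + 3) * (2 * j + 3 + 1) = 4 * (j * j) + 14 * j + 12 := by ring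
    omega
  have hmx : (2 * j + 3 - 1) * (3 * j + 2) = 12 * j.choose 2 + 16 * j + 4 := by
    have h2 : (2 * j + 3 - 1) = 2 * j + 2 := by omega
    have h3 : (2 * j + 2) * (3 * j + 2) = 6 * (j * j) + 10 * j + 4 := by ring
    rw [h2, h3]
    omega
  obtain ⟨s, hs1, hs2⟩ : ∃ s, 3 * s ≤ 2 * j + 8 ∧ 2 * j + 8 < 3 * s + 3 :=
    ⟨(2 * j + 8) / 3, by omega, by omega⟩
  refine SS.of_crit (s := s) (w := 4 * j.choose 2 + 6 * j + 4 - s) ?_ ?_ ?_ ?_ ?_
  · rw [hNV]
    omega
  · rw [hmx]
    omega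
  · rw [hmx]
    omega
  · rw [hmx]
    refine b3b_aux hj (u := j + 2 - s) (v := s - 2) (by omega) (by omega) ?_
    omega
  · refine b3b_aux hj (u := j + 1 - s) (v := min (s - 1) j) (by omega) (by omega) ?_
    omega

/-- `n` even, the perfect number -/
theorem b3a [CharZero K] (k : ℕ) : SS K (2 * k + 1) 3 (3 * k) := by
  have hNV : NV (2 * k + 1) = 2 * (k * k) + 3 * k + 1 := by
    have h1 := two_NV (2 * k + 1)
    have h2 : (2 * k + 1) * (2 * k + 1 + 1) = 2 * (2 * (k * k) + 3 * k + 1) := by ring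
    omega
  have hmx : (2 * k + 1 - 1) * (3 * k) = 6 * (k * k) := by
    rw [Nat.add_sub_cancel]
    ring
  refine SS.of_crit (s := 1) (w := 2 * (k * k)) ?_ ?_ ?_ ?_ ?_
  · rw [hNV]
    omega
  · rw [hmx]
    omega
  · rw [hmx]
    omega
  · exact (b3_even k).mono (Nat.zero_le _)
  · exact (b3_even k).more_simple (by norm_num)

/-- large `x`, `n` even -/
theorem b3_big_even [CharZero K] {k x : ℕ} (hx : 3 * k + 1 ≤ x) : KQ K (2 * k + 1) 3 x 0 0 := by
  obtain ⟨t, rfl⟩ := Nat.exists_eq_add_of_le hx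
  exact ((b3_even k).simple_to_full (s := 0)).more_full t

/-- large `x`, `n` odd -/
theorem b3_big_odd [CharZero K] {k x : ℕ} (hx : 3 * k + 3 ≤ x) : KQ K (2 * k + 2) 3 x 0 0 := by
  obtain ⟨t, rfl⟩ := Nat.exists_eq_add_of_le hx
  exact ((b3_odd k).simple_to_full (s := 0)).more_full t

/-- negative: no room for simple points -/
theorem SS.neg [CharZero K] {m b x : ℕ} (hE : b * NV m < x * (m - 1 + b))
    (k : KQ K m b x 0 0) : SS K m b x := by
  rcases Nat.lt_or_ge (NV m) x with h | h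
  · exact SS.big h
  · exact SS.of_neg hE h k

/-- the level `n = 4`; `h1` is the only seed -/
theorem ss3_four [CharZero K] (h1 : KQ K 5 3 4 6 0) {x : ℕ} (hx : 3 ≤ x) : SS K 5 3 x := by
  have hN : NV 5 = 15 := rfl
  rcases Nat.lt_or_ge x 7 with h | h
  · have h' : x = 3 ∨ x = 4 ∨ x = 5 ∨ x = 6 := by omega
    rcases h' with rfl | rfl | rfl | rfl
    · have k1 : KQ K 5 3 3 8 0 := by
        refine chain3 1 1 1 0 0 0 rfl (by omega) (by omega) (by omega) (by omega)
          (cnd_of0 (by omega)) (cnd_of0 (by omega)) (cnd_of0 (by omega)) ?_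
        decide
      exact SS.of_crit (s := 8) (w := 4) rfl (by norm_num) (by norm_num)
        (k1.mono (Nat.zero_le _)) (k1.more_simple (by norm_num))
    · have k1 : KQ K 5 2 3 6 0 := by
        have h := pencil (K := K) (m := 5) (x := 3) (by norm_num) (by norm_num) 6
        exact h
      have k2 : KQ K 5 1 1 8 2 := by
        have h := one_one (K := K) 4 8
        exact h
      have k3 : KQ K 5 (2 + 1) (3 + 1) 5 (0 + 2) := KQ.blocks k1 k2
      exact SS.of_crit (s := 5) (w := 6) rfl (by norm_num) (by norm_num) k3 h1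
    · exact b3b (K := K) (j := 1) le_rfl
    · exact b3a (K := K) 2
  · refine SS.neg ?_ (b3_big_even (k := 2) (by omega))
    rw [hN]
    omega

/-- **Three forms.** -/
theorem ss3 [CharZero K] (h1 : KQ K 5 3 4 6 0) {n : ℕ} (hn : 4 ≤ n) :
    ∀ x, 3 ≤ x → 2 * x ≠ 3 * n + 1 → SS K (n + 1) 3 x := by
  induction n, hn using Nat.le_induction with
  | base =>
    intro x hx _
    exact ss3_four h1 hx
  | succ n hn ih =>
    intro x hx hg
    rcases Nat.even_or_odd' (n + 1) with ⟨k, hk | hk⟩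
    · -- `n + 1 = 2 k`
      have hk3 : 3 ≤ k := by omega
      have hNV : NV (2 * k + 1) = 2 * (k * k) + 3 * k + 1 := by
        have h1 := two_NV (2 * k + 1)
        have h2 : (2 * k + 1) * (2 * k + 1 + 1) = 2 * (2 * (k * k) + 3 * k + 1) := by ring
        omega
      have hNV' : NV (2 * k) = 2 * (k * k) + k := by
        have h1 := two_NV (2 * k)
        have h2 : (2 * k) * (2 * k + 1) = 2 * (2 * (k * k) + k) := by ring
        omega
      rcases Nat.lt_or_ge x (3 * k - 1) with h | h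
      · have hE : x * (n + 1 - 1 + 3) ≤ 3 * NV (n + 1) := by
          rw [hk, hNV']
          have h2 : x * (2 * k - 1 + 3) ≤ (3 * k - 2) * (2 * k - 1 + 3) :=
            Nat.mul_le_mul_right _ (by omega)
          obtain ⟨j, rfl⟩ : ∃ j, k = j + 1 := ⟨k - 1, by omega⟩
          have e1 : 3 * (j + 1) - 2 = 3 * j + 1 := by omega
          have e2 : 2 * (j + 1) - 1 + 3 = 2 * j + 4 := by omega
          rw [e1, e2] at h2
          rw [e2]
          refine h2.trans ?_
          have e3 : (3 * j + 1) * (2 * j + 4) = 6 * (j * j) + 14 * j + 4 := by ring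
          have e4 : 3 * (2 * ((j + 1) * (j + 1)) + (j + 1)) = 6 * (j * j) + 15 * j + 9 := by ring
          omega
        refine SS.step (by omega) (by norm_num) hx hE (ih x hx (by omega)) ?_
        intro ρ p hρ hp
        omega
      · rw [hk]
        rcases Nat.lt_or_ge x (3 * k + 1) with h' | h'
        · have h'' : x = 3 * k - 1 ∨ x = 3 * k := by omega
          rcases h'' with rfl | rfl
          · obtain ⟨j, rfl⟩ : ∃ j, k = j + 1 := ⟨k - 1, by omega⟩
            have e := b3b (K := K) (j := j) (by omega)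
            have e1 : 3 * (j + 1) - 1 = 3 * j + 2 := by omega
            rw [e1]
            exact e
          · exact b3a k
        · refine SS.neg ?_ (b3_big_even h')
          rw [hNV]
          have h2 : (3 * k + 1) * (2 * k + 1 - 1 + 3) ≤ x * (2 * k + 1 - 1 + 3) :=
            Nat.mul_le_mul_right _ h'
          refine lt_of_lt_of_le ?_ h2
          have e2 : 2 * k + 1 - 1 + 3 = 2 * k + 3 := by omega
          rw [e2]
          have e3 : (3 * k + 1) * (2 * k + 3) = 6 * (k * k) + 11 * k + 3 := by ring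
          omega
    · -- `n + 1 = 2 k + 1`
      have hk3 : 2 ≤ k := by omega
      have hNV : NV (2 * k + 1 + 1) = 2 * (k * k) + 5 * k + 3 := by
        have h1 := two_NV (2 * k + 1 + 1)
        have h2 : (2 * k + 1 + 1) * (2 * k + 1 + 1 + 1) = 2 * (2 * (k * k) + 5 * k + 3) := by ring
        omega
      have hNV' : NV (2 * k + 1) = 2 * (k * k) + 3 * k + 1 := by
        have h1 := two_NV (2 * k + 1)
        have h2 : (2 * k + 1) * (2 * k + 1 + 1) = 2 * (2 * (k * k) + 3 * k + 1) := by ring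
        omega
      rcases Nat.lt_or_ge x (3 * k + 1) with h | h
      · have hE : x * (n + 1 - 1 + 3) ≤ 3 * NV (n + 1) := by
          rw [hk, hNV']
          have h2 : x * (2 * k + 1 - 1 + 3) ≤ (3 * k) * (2 * k + 1 - 1 + 3) :=
            Nat.mul_le_mul_right _ (by omega)
          refine h2.trans ?_
          have e2 : 2 * k + 1 - 1 + 3 = 2 * k + 3 := by omega
          rw [e2]
          have e3 : (3 * k) * (2 * k + 3) = 6 * (k * k) + 9 * k := by ring
          omega
        refine SS.step (by omega) (by norm_num) hx hE (ih x hx (by omega)) ?_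
        intro ρ p hρ hp
        omega
      · rw [hk]
        rcases Nat.lt_or_ge x (3 * k + 3) with h' | h'
        · have h'' : x = 3 * k + 1 := by omega
          subst h''
          exact b3c hk3
        · refine SS.neg ?_ (b3_big_odd h')
          rw [hNV]
          have h2 : (3 * k + 3) * (2 * k + 1 + 1 - 1 + 3) ≤ x * (2 * k + 1 + 1 - 1 + 3) :=
            Nat.mul_le_mul_right _ h'
          refine lt_of_lt_of_le ?_ h2
          have e2 : 2 * k + 1 + 1 - 1 + 3 = 2 * k + 4 := by omega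
          rw [e2]
          have e3 : (3 * k + 3) * (2 * k + 4) = 6 * (k * k) + 18 * k + 12 := by ring
          omega

end

end Pool.Agent.WarR
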