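import Pool.Agent.WarR.Sdef

/-!
# Three seeds in five variables (MP_db021c_ag, degree 2)   (helper9)

Explicit configurations; the unknown coefficients vanish by explicit linear combinations.
-/

set_option autoImplicit false

open Module

namespace Pool.Agent.WarR

section

variable {K : Type*} [Field K]

theorem bf5 {A : Fin 5 → Fin 5 → K} (hA : A ∈ SF K 5) (x0 x1 x2 x3 x4 y0 y1 y2 y3 y4 : K) :
    bf A ![x0, x1, x2, x3, x4] ![y0, y1, y2, y3, y4] =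
      x0 * y0 * A 0 0 + x1 * y1 * A 1 1 + x2 * y2 * A 2 2 + x3 * y3 * A 3 3 + x4 * y4 * A 4 4 +
      (x0 * y1 + x1 * y0) * A 0 1 + (x0 * y2 + x2 * y0) * A 0 2 + (x0 * y3 + x3 * y0) * A 0 3 +
      (x0 * y4 + x4 * y0) * A 0 4 + (x1 * y2 + x2 * y1) * A 1 2 + (x1 * y3 + x3 * y1) * A 1 3 +
      (x1 * y4 + x4 * y1) * A 1 4 + (x2 * y3 + x3 * y2) * A 2 3 + (x2 * y4 + x4 * y2) * A 2 4 +
      (x3 * y4 + x4 * y3) * A 3 4 := by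
  have e := fun i j => hA i j
  simp only [bf, Fin.sum_univ_five, Matrix.cons_val]
  rw [e 1 0, e 2 0, e 3 0, e 4 0, e 2 1, e 3 1, e 4 1, e 3 2, e 4 2, e 4 3]
  ring

theorem zero5 {A : Fin 5 → Fin 5 → K} (hA : A ∈ SF K 5) (u00 : A 0 0 = 0) (u01 : A 0 1 = 0)
    (u02 : A 0 2 = 0) (u03 : A 0 3 = 0) (u04 : A 0 4 = 0) (u11 : A 1 1 = 0) (u12 : A 1 2 = 0)
    (u13 : A 1 3 = 0) (u14 : A 1 4 = 0) (u22 : A 2 2 = 0) (u23 : A 2 3 = 0) (u24 : A 2 4 = 0)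
    (u33 : A 3 3 = 0) (u34 : A 3 4 = 0) (u44 : A 4 4 = 0) : A = 0 := by
  have e := fun i j => hA i j
  funext i j
  change A i j = 0
  fin_cases i <;> fin_cases j <;> first | assumption | (rw [e]; assumption)

theorem finrank_zero_of {m b : ℕ} {I J : Type} {c : Cfg K m b I J}
    (h : ∀ F ∈ ZK c, F = 0) : finrank K (ZK c) = 0 := by
  have : ZK c = ⊥ := (Submodule.eq_bot_iff _).2 h
  rw [this, finrank_bot]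

variable [CharZero K]

/-- three forms, four full points, six simple points -/
theorem s1 : KQ K 5 3 4 6 0 := by
  refine ⟨((![![1, 0, 0, 0, 0], ![0, 1, 0, 0, 0], ![0, 0, 1, 0, 0], ![0, 0, 0, 1, 0]] : Fin 4 → Fin 5 → K),
    (![![1, 0, 0], ![0, 1, 0], ![0, 0, 1], ![1, 1, 1]] : Fin 4 → Fin 3 → K),
    (![![0, 0, 0, 0, 1], ![1, 1, 0, 0, 1], ![0, 0, 1, 1, 1], ![1, 0, 1, 0, 1], ![0, 1, 0, 1, 1], ![1, 1, 1, 1, 1]] : Fin 6 → Fin 5 → K)), ?_⟩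
  refine (finrank_zero_of fun F hF => ?_).le
  obtain ⟨h1, h2, h3⟩ := mem_ZK.1 hF
  have c0 : (F 0 : Fin 5 → Fin 5 → K) 0 0 = 0 := by
    linear_combination (bf5 (F 0).2 1 0 0 0 0 1 0 0 0 0).symm.trans (h1 0 0)
  have c1 : (F 1 : Fin 5 → Fin 5 → K) 0 0 = 0 := by
    linear_combination (bf5 (F 1).2 1 0 0 0 0 1 0 0 0 0).symm.trans (h1 0 1)
  have c2 : (F 2 : Fin 5 → Fin 5 → K) 0 0 = 0 := by
    linear_combination (bf5 (F 2).2 1 0 0 0 0 1 0 0 0 0).symm.trans (h1 0 2)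
  have c3 : (F 0 : Fin 5 → Fin 5 → K) 1 1 = 0 := by
    linear_combination (bf5 (F 0).2 0 1 0 0 0 0 1 0 0 0).symm.trans (h1 1 0)
  have c4 : (F 1 : Fin 5 → Fin 5 → K) 1 1 = 0 := by
    linear_combination (bf5 (F 1).2 0 1 0 0 0 0 1 0 0 0).symm.trans (h1 1 1)
  have c5 : (F 2 : Fin 5 → Fin 5 → K) 1 1 = 0 := by
    linear_combination (bf5 (F 2).2 0 1 0 0 0 0 1 0 0 0).symm.trans (h1 1 2)
  have c6 : (F 0 : Fin 5 → Fin 5 → K) 2 2 = 0 := by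
    linear_combination (bf5 (F 0).2 0 0 1 0 0 0 0 1 0 0).symm.trans (h1 2 0)
  have c7 : (F 1 : Fin 5 → Fin 5 → K) 2 2 = 0 := by
    linear_combination (bf5 (F 1).2 0 0 1 0 0 0 0 1 0 0).symm.trans (h1 2 1)
  have c8 : (F 2 : Fin 5 → Fin 5 → K) 2 2 = 0 := by
    linear_combination (bf5 (F 2).2 0 0 1 0 0 0 0 1 0 0).symm.trans (h1 2 2)
  have c9 : (F 0 : Fin 5 → Fin 5 → K) 3 3 = 0 := by
    linear_combination (bf5 (F 0).2 0 0 0 1 0 0 0 0 1 0).symm.trans (h1 3 0)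
  have c10 : (F 1 : Fin 5 → Fin 5 → K) 3 3 = 0 := by
    linear_combination (bf5 (F 1).2 0 0 0 1 0 0 0 0 1 0).symm.trans (h1 3 1)
  have c11 : (F 2 : Fin 5 → Fin 5 → K) 3 3 = 0 := by
    linear_combination (bf5 (F 2).2 0 0 0 1 0 0 0 0 1 0).symm.trans (h1 3 2)
  have c13 : (F 0 : Fin 5 → Fin 5 → K) 0 1 = 0 := by
    have c : 1 * bf (F 0 : Fin 5 → Fin 5 → K) ![1, 0, 0, 0, 0] ![0, 1, 0, 0, 0] + 0 * bf (F 1 : Fin 5 → Fin 5 → K) ![1, 0, 0, 0, 0] ![0, 1, 0, 0, 0] + 0 * bf (F 2 : Fin 5 → Fin 5 → K) ![1, 0, 0, 0, 0] ![0, 1, 0, 0, 0] = 0 :=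
      (Fin.sum_univ_three _).symm.trans (h2 0 ![0, 1, 0, 0, 0])
    rw [bf5 (F 0).2, bf5 (F 1).2, bf5 (F 2).2] at c
    linear_combination c
  have c14 : (F 0 : Fin 5 → Fin 5 → K) 0 2 = 0 := by
    have c : 1 * bf (F 0 : Fin 5 → Fin 5 → K) ![1, 0, 0, 0, 0] ![0, 0, 1, 0, 0] + 0 * bf (F 1 : Fin 5 → Fin 5 → K) ![1, 0, 0, 0, 0] ![0, 0, 1, 0, 0] + 0 * bf (F 2 : Fin 5 → Fin 5 → K) ![1, 0, 0, 0, 0] ![0, 0, 1, 0, 0] = 0 :=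
      (Fin.sum_univ_three _).symm.trans (h2 0 ![0, 0, 1, 0, 0])
    rw [bf5 (F 0).2, bf5 (F 1).2, bf5 (F 2).2] at c
    linear_combination c
  have c15 : (F 0 : Fin 5 → Fin 5 → K) 0 3 = 0 := by
    have c : 1 * bf (F 0 : Fin 5 → Fin 5 → K) ![1, 0, 0, 0, 0] ![0, 0, 0, 1, 0] + 0 * bf (F 1 : Fin 5 → Fin 5 → K) ![1, 0, 0, 0, 0] ![0, 0, 0, 1, 0] + 0 * bf (F 2 : Fin 5 → Fin 5 → K) ![1, 0, 0, 0, 0] ![0, 0, 0, 1, 0] = 0 :=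
      (Fin.sum_univ_three _).symm.trans (h2 0 ![0, 0, 0, 1, 0])
    rw [bf5 (F 0).2, bf5 (F 1).2, bf5 (F 2).2] at c
    linear_combination c
  have c16 : (F 0 : Fin 5 → Fin 5 → K) 0 4 = 0 := by
    have c : 1 * bf (F 0 : Fin 5 → Fin 5 → K) ![1, 0, 0, 0, 0] ![0, 0, 0, 0, 1] + 0 * bf (F 1 : Fin 5 → Fin 5 → K) ![1, 0, 0, 0, 0] ![0, 0, 0, 0, 1] + 0 * bf (F 2 : Fin 5 → Fin 5 → K) ![1, 0, 0, 0, 0] ![0, 0, 0, 0, 1] = 0 :=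
      (Fin.sum_univ_three _).symm.trans (h2 0 ![0, 0, 0, 0, 1])
    rw [bf5 (F 0).2, bf5 (F 1).2, bf5 (F 2).2] at c
    linear_combination c
  have c17 : (F 1 : Fin 5 → Fin 5 → K) 0 1 = 0 := by
    have c : 0 * bf (F 0 : Fin 5 → Fin 5 → K) ![0, 1, 0, 0, 0] ![1, 0, 0, 0, 0] + 1 * bf (F 1 : Fin 5 → Fin 5 → K) ![0, 1, 0, 0, 0] ![1, 0, 0, 0, 0] + 0 * bf (F 2 : Fin 5 → Fin 5 → K) ![0, 1, 0, 0, 0] ![1, 0, 0, 0, 0] = 0 :=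
      (Fin.sum_univ_three _).symm.trans (h2 1 ![1, 0, 0, 0, 0])
    rw [bf5 (F 0).2, bf5 (F 1).2, bf5 (F 2).2] at c
    linear_combination c
  have c19 : (F 1 : Fin 5 → Fin 5 → K) 1 2 = 0 := by
    have c : 0 * bf (F 0 : Fin 5 → Fin 5 → K) ![0, 1, 0, 0, 0] ![0, 0, 1, 0, 0] + 1 * bf (F 1 : Fin 5 → Fin 5 → K) ![0, 1, 0, 0, 0] ![0, 0, 1, 0, 0] + 0 * bf (F 2 : Fin 5 → Fin 5 → K) ![0, 1, 0, 0, 0] ![0, 0, 1, 0, 0] = 0 :=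
      (Fin.sum_univ_three _).symm.trans (h2 1 ![0, 0, 1, 0, 0])
    rw [bf5 (F 0).2, bf5 (F 1).2, bf5 (F 2).2] at c
    linear_combination c
  have c20 : (F 1 : Fin 5 → Fin 5 → K) 1 3 = 0 := by
    have c : 0 * bf (F 0 : Fin 5 → Fin 5 → K) ![0, 1, 0, 0, 0] ![0, 0, 0, 1, 0] + 1 * bf (F 1 : Fin 5 → Fin 5 → K) ![0, 1, 0, 0, 0] ![0, 0, 0, 1, 0] + 0 * bf (F 2 : Fin 5 → Fin 5 → K) ![0, 1, 0, 0, 0] ![0, 0, 0, 1, 0] = 0 :=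
      (Fin.sum_univ_three _).symm.trans (h2 1 ![0, 0, 0, 1, 0])
    rw [bf5 (F 0).2, bf5 (F 1).2, bf5 (F 2).2] at c
    linear_combination c
  have c21 : (F 1 : Fin 5 → Fin 5 → K) 1 4 = 0 := by
    have c : 0 * bf (F 0 : Fin 5 → Fin 5 → K) ![0, 1, 0, 0, 0] ![0, 0, 0, 0, 1] + 1 * bf (F 1 : Fin 5 → Fin 5 → K) ![0, 1, 0, 0, 0] ![0, 0, 0, 0, 1] + 0 * bf (F 2 : Fin 5 → Fin 5 → K) ![0, 1, 0, 0, 0] ![0, 0, 0, 0, 1] = 0 :=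
      (Fin.sum_univ_three _).symm.trans (h2 1 ![0, 0, 0, 0, 1])
    rw [bf5 (F 0).2, bf5 (F 1).2, bf5 (F 2).2] at c
    linear_combination c
  have c22 : (F 2 : Fin 5 → Fin 5 → K) 0 2 = 0 := by
    have c : 0 * bf (F 0 : Fin 5 → Fin 5 → K) ![0, 0, 1, 0, 0] ![1, 0, 0, 0, 0] + 0 * bf (F 1 : Fin 5 → Fin 5 → K) ![0, 0, 1, 0, 0] ![1, 0, 0, 0, 0] + 1 * bf (F 2 : Fin 5 → Fin 5 → K) ![0, 0, 1, 0, 0] ![1, 0, 0, 0, 0] = 0 :=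
      (Fin.sum_univ_three _).symm.trans (h2 2 ![1, 0, 0, 0, 0])
    rw [bf5 (F 0).2, bf5 (F 1).2, bf5 (F 2).2] at c
    linear_combination c
  have c23 : (F 2 : Fin 5 → Fin 5 → K) 1 2 = 0 := by
    have c : 0 * bf (F 0 : Fin 5 → Fin 5 → K) ![0, 0, 1, 0, 0] ![0, 1, 0, 0, 0] + 0 * bf (F 1 : Fin 5 → Fin 5 → K) ![0, 0, 1, 0, 0] ![0, 1, 0, 0, 0] + 1 * bf (F 2 : Fin 5 → Fin 5 → K) ![0, 0, 1, 0, 0] ![0, 1, 0, 0, 0] = 0 :=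
      (Fin.sum_univ_three _).symm.trans (h2 2 ![0, 1, 0, 0, 0])
    rw [bf5 (F 0).2, bf5 (F 1).2, bf5 (F 2).2] at c
    linear_combination c
  have c25 : (F 2 : Fin 5 → Fin 5 → K) 2 3 = 0 := by
    have c : 0 * bf (F 0 : Fin 5 → Fin 5 → K) ![0, 0, 1, 0, 0] ![0, 0, 0, 1, 0] + 0 * bf (F 1 : Fin 5 → Fin 5 → K) ![0, 0, 1, 0, 0] ![0, 0, 0, 1, 0] + 1 * bf (F 2 : Fin 5 → Fin 5 → K) ![0, 0, 1, 0, 0] ![0, 0, 0, 1, 0] = 0 :=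
      (Fin.sum_univ_three _).symm.trans (h2 2 ![0, 0, 0, 1, 0])
    rw [bf5 (F 0).2, bf5 (F 1).2, bf5 (F 2).2] at c
    linear_combination c
  have c26 : (F 2 : Fin 5 → Fin 5 → K) 2 4 = 0 := by
    have c : 0 * bf (F 0 : Fin 5 → Fin 5 → K) ![0, 0, 1, 0, 0] ![0, 0, 0, 0, 1] + 0 * bf (F 1 : Fin 5 → Fin 5 → K) ![0, 0, 1, 0, 0] ![0, 0, 0, 0, 1] + 1 * bf (F 2 : Fin 5 → Fin 5 → K) ![0, 0, 1, 0, 0] ![0, 0, 0, 0, 1] = 0 :=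
      (Fin.sum_univ_three _).symm.trans (h2 2 ![0, 0, 0, 0, 1])
    rw [bf5 (F 0).2, bf5 (F 1).2, bf5 (F 2).2] at c
    linear_combination c
  have c27 : (F 0 : Fin 5 → Fin 5 → K) 0 3 + (F 1 : Fin 5 → Fin 5 → K) 0 3 + (F 2 : Fin 5 → Fin 5 → K) 0 3 = 0 := by
    have c : 1 * bf (F 0 : Fin 5 → Fin 5 → K) ![0, 0, 0, 1, 0] ![1, 0, 0, 0, 0] + 1 * bf (F 1 : Fin 5 → Fin 5 → K) ![0, 0, 0, 1, 0] ![1, 0, 0, 0, 0] + 1 * bf (F 2 : Fin 5 → Fin 5 → K) ![0, 0, 0, 1, 0] ![1, 0, 0, 0, 0] = 0 :=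
      (Fin.sum_univ_three _).symm.trans (h2 3 ![1, 0, 0, 0, 0])
    rw [bf5 (F 0).2, bf5 (F 1).2, bf5 (F 2).2] at c
    linear_combination c
  have c28 : (F 0 : Fin 5 → Fin 5 → K) 1 3 + (F 1 : Fin 5 → Fin 5 → K) 1 3 + (F 2 : Fin 5 → Fin 5 → K) 1 3 = 0 := by
    have c : 1 * bf (F 0 : Fin 5 → Fin 5 → K) ![0, 0, 0, 1, 0] ![0, 1, 0, 0, 0] + 1 * bf (F 1 : Fin 5 → Fin 5 → K) ![0, 0, 0, 1, 0] ![0, 1, 0, 0, 0] + 1 * bf (F 2 : Fin 5 → Fin 5 → K) ![0, 0, 0, 1, 0] ![0, 1, 0, 0, 0] = 0 :=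
      (Fin.sum_univ_three _).symm.trans (h2 3 ![0, 1, 0, 0, 0])
    rw [bf5 (F 0).2, bf5 (F 1).2, bf5 (F 2).2] at c
    linear_combination c
  have c29 : (F 0 : Fin 5 → Fin 5 → K) 2 3 + (F 1 : Fin 5 → Fin 5 → K) 2 3 + (F 2 : Fin 5 → Fin 5 → K) 2 3 = 0 := by
    have c : 1 * bf (F 0 : Fin 5 → Fin 5 → K) ![0, 0, 0, 1, 0] ![0, 0, 1, 0, 0] + 1 * bf (F 1 : Fin 5 → Fin 5 → K) ![0, 0, 0, 1, 0] ![0, 0, 1, 0, 0] + 1 * bf (F 2 : Fin 5 → Fin 5 → K) ![0, 0, 0, 1, 0] ![0, 0, 1, 0, 0] = 0 :=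
      (Fin.sum_univ_three _).symm.trans (h2 3 ![0, 0, 1, 0, 0])
    rw [bf5 (F 0).2, bf5 (F 1).2, bf5 (F 2).2] at c
    linear_combination c
  have c31 : (F 0 : Fin 5 → Fin 5 → K) 3 4 + (F 1 : Fin 5 → Fin 5 → K) 3 4 + (F 2 : Fin 5 → Fin 5 → K) 3 4 = 0 := by
    have c : 1 * bf (F 0 : Fin 5 → Fin 5 → K) ![0, 0, 0, 1, 0] ![0, 0, 0, 0, 1] + 1 * bf (F 1 : Fin 5 → Fin 5 → K) ![0, 0, 0, 1, 0] ![0, 0, 0, 0, 1] + 1 * bf (F 2 : Fin 5 → Fin 5 → K) ![0, 0, 0, 1, 0] ![0, 0, 0, 0, 1] = 0 :=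
      (Fin.sum_univ_three _).symm.trans (h2 3 ![0, 0, 0, 0, 1])
    rw [bf5 (F 0).2, bf5 (F 1).2, bf5 (F 2).2] at c
    linear_combination c
  have c32 : (F 0 : Fin 5 → Fin 5 → K) 4 4 = 0 := by
    linear_combination (bf5 (F 0).2 0 0 0 0 1 0 0 0 0 1).symm.trans (h3 0 0)
  have c33 : (F 1 : Fin 5 → Fin 5 → K) 4 4 = 0 := by
    linear_combination (bf5 (F 1).2 0 0 0 0 1 0 0 0 0 1).symm.trans (h3 0 1)
  have c34 : (F 2 : Fin 5 → Fin 5 → K) 4 4 = 0 := by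
    linear_combination (bf5 (F 2).2 0 0 0 0 1 0 0 0 0 1).symm.trans (h3 0 2)
  have c35 : (F 0 : Fin 5 → Fin 5 → K) 0 0 + (2) * (F 0 : Fin 5 → Fin 5 → K) 0 1 + (2) * (F 0 : Fin 5 → Fin 5 → K) 0 4 + (F 0 : Fin 5 → Fin 5 → K) 1 1 + (2) * (F 0 : Fin 5 → Fin 5 → K) 1 4 + (F 0 : Fin 5 → Fin 5 → K) 4 4 = 0 := by
    linear_combination (bf5 (F 0).2 1 1 0 0 1 1 1 0 0 1).symm.trans (h3 1 0)
  have c36 : (F 1 : Fin 5 → Fin 5 → K) 0 0 + (2) * (F 1 : Fin 5 → Fin 5 → K) 0 1 + (2) * (F 1 : Fin 5 → Fin 5 → K) 0 4 + (F 1 : Fin 5 → Fin 5 → K) 1 1 + (2) * (F 1 : Fin 5 → Fin 5 → K) 1 4 + (F 1 : Fin 5 → Fin 5 → K) 4 4 = 0 := by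
    linear_combination (bf5 (F 1).2 1 1 0 0 1 1 1 0 0 1).symm.trans (h3 1 1)
  have c37 : (F 2 : Fin 5 → Fin 5 → K) 0 0 + (2) * (F 2 : Fin 5 → Fin 5 → K) 0 1 + (2) * (F 2 : Fin 5 → Fin 5 → K) 0 4 + (F 2 : Fin 5 → Fin 5 → K) 1 1 + (2) * (F 2 : Fin 5 → Fin 5 → K) 1 4 + (F 2 : Fin 5 → Fin 5 → K) 4 4 = 0 := by
    linear_combination (bf5 (F 2).2 1 1 0 0 1 1 1 0 0 1).symm.trans (h3 1 2)
  have c38 : (F 0 : Fin 5 → Fin 5 → K) 2 2 + (2) * (F 0 : Fin 5 → Fin 5 → K) 2 3 + (2) * (F 0 : Fin 5 → Fin 5 → K) 2 4 + (F 0 : Fin 5 → Fin 5 → K) 3 3 + (2) * (F 0 : Fin 5 → Fin 5 → K) 3 4 + (F 0 : Fin 5 → Fin 5 → K) 4 4 = 0 := by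
    linear_combination (bf5 (F 0).2 0 0 1 1 1 0 0 1 1 1).symm.trans (h3 2 0)
  have c39 : (F 1 : Fin 5 → Fin 5 → K) 2 2 + (2) * (F 1 : Fin 5 → Fin 5 → K) 2 3 + (2) * (F 1 : Fin 5 → Fin 5 → K) 2 4 + (F 1 : Fin 5 → Fin 5 → K) 3 3 + (2) * (F 1 : Fin 5 → Fin 5 → K) 3 4 + (F 1 : Fin 5 → Fin 5 → K) 4 4 = 0 := by
    linear_combination (bf5 (F 1).2 0 0 1 1 1 0 0 1 1 1).symm.trans (h3 2 1)
  have c40 : (F 2 : Fin 5 → Fin 5 → K) 2 2 + (2) * (F 2 : Fin 5 → Fin 5 → K) 2 3 + (2) * (F 2 : Fin 5 → Fin 5 → K) 2 4 + (F 2 : Fin 5 → Fin 5 → K) 3 3 + (2) * (F 2 : Fin 5 → Fin 5 → K) 3 4 + (F 2 : Fin 5 → Fin 5 → K) 4 4 = 0 := by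
    linear_combination (bf5 (F 2).2 0 0 1 1 1 0 0 1 1 1).symm.trans (h3 2 2)
  have c41 : (F 0 : Fin 5 → Fin 5 → K) 0 0 + (2) * (F 0 : Fin 5 → Fin 5 → K) 0 2 + (2) * (F 0 : Fin 5 → Fin 5 → K) 0 4 + (F 0 : Fin 5 → Fin 5 → K) 2 2 + (2) * (F 0 : Fin 5 → Fin 5 → K) 2 4 + (F 0 : Fin 5 → Fin 5 → K) 4 4 = 0 := by
    linear_combination (bf5 (F 0).2 1 0 1 0 1 1 0 1 0 1).symm.trans (h3 3 0)
  have c42 : (F 1 : Fin 5 → Fin 5 → K) 0 0 + (2) * (F 1 : Fin 5 → Fin 5 → K) 0 2 + (2) * (F 1 : Fin 5 → Fin 5 → K) 0 4 + (F 1 : Fin 5 → Fin 5 → K) 2 2 + (2) * (F 1 : Fin 5 → Fin 5 → K) 2 4 + (F 1 : Fin 5 → Fin 5 → K) 4 4 = 0 := by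
    linear_combination (bf5 (F 1).2 1 0 1 0 1 1 0 1 0 1).symm.trans (h3 3 1)
  have c43 : (F 2 : Fin 5 → Fin 5 → K) 0 0 + (2) * (F 2 : Fin 5 → Fin 5 → K) 0 2 + (2) * (F 2 : Fin 5 → Fin 5 → K) 0 4 + (F 2 : Fin 5 → Fin 5 → K) 2 2 + (2) * (F 2 : Fin 5 → Fin 5 → K) 2 4 + (F 2 : Fin 5 → Fin 5 → K) 4 4 = 0 := by
    linear_combination (bf5 (F 2).2 1 0 1 0 1 1 0 1 0 1).symm.trans (h3 3 2)
  have c44 : (F 0 : Fin 5 → Fin 5 → K) 1 1 + (2) * (F 0 : Fin 5 → Fin 5 → K) 1 3 + (2) * (F 0 : Fin 5 → Fin 5 → K) 1 4 + (F 0 : Fin 5 → Fin 5 → K) 3 3 + (2) * (F 0 : Fin 5 → Fin 5 → K) 3 4 + (F 0 : Fin 5 → Fin 5 → K) 4 4 = 0 := by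
    linear_combination (bf5 (F 0).2 0 1 0 1 1 0 1 0 1 1).symm.trans (h3 4 0)
  have c45 : (F 1 : Fin 5 → Fin 5 → K) 1 1 + (2) * (F 1 : Fin 5 → Fin 5 → K) 1 3 + (2) * (F 1 : Fin 5 → Fin 5 → K) 1 4 + (F 1 : Fin 5 → Fin 5 → K) 3 3 + (2) * (F 1 : Fin 5 → Fin 5 → K) 3 4 + (F 1 : Fin 5 → Fin 5 → K) 4 4 = 0 := by
    linear_combination (bf5 (F 1).2 0 1 0 1 1 0 1 0 1 1).symm.trans (h3 4 1)
  have c46 : (F 2 : Fin 5 → Fin 5 → K) 1 1 + (2) * (F 2 : Fin 5 → Fin 5 → K) 1 3 + (2) * (F 2 : Fin 5 → Fin 5 → K) 1 4 + (F 2 : Fin 5 → Fin 5 → K) 3 3 + (2) * (F 2 : Fin 5 → Fin 5 → K) 3 4 + (F 2 : Fin 5 → Fin 5 → K) 4 4 = 0 := by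
    linear_combination (bf5 (F 2).2 0 1 0 1 1 0 1 0 1 1).symm.trans (h3 4 2)
  have c47 : (F 0 : Fin 5 → Fin 5 → K) 0 0 + (2) * (F 0 : Fin 5 → Fin 5 → K) 0 1 + (2) * (F 0 : Fin 5 → Fin 5 → K) 0 2 + (2) * (F 0 : Fin 5 → Fin 5 → K) 0 3 + (2) * (F 0 : Fin 5 → Fin 5 → K) 0 4 + (F 0 : Fin 5 → Fin 5 → K) 1 1 + (2) * (F 0 : Fin 5 → Fin 5 → K) 1 2 + (2) * (F 0 : Fin 5 → Fin 5 → K) 1 3 + (2) * (F 0 : Fin 5 → Fin 5 → K) 1 4 + (F 0 : Fin 5 → Fin 5 → K) 2 2 + (2) * (F 0 : Fin 5 → Fin 5 → K) 2 3 + (2) * (F 0 : Fin 5 → Fin 5 → K) 2 4 + (F 0 : Fin 5 → Fin 5 → K) 3 3 + (2) * (F 0 : Fin 5 → Fin 5 → K) 3 4 + (F 0 : Fin 5 → Fin 5 → K) 4 4 = 0 := by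
    linear_combination (bf5 (F 0).2 1 1 1 1 1 1 1 1 1 1).symm.trans (h3 5 0)
  have c48 : (F 1 : Fin 5 → Fin 5 → K) 0 0 + (2) * (F 1 : Fin 5 → Fin 5 → K) 0 1 + (2) * (F 1 : Fin 5 → Fin 5 → K) 0 2 + (2) * (F 1 : Fin 5 → Fin 5 → K) 0 3 + (2) * (F 1 : Fin 5 → Fin 5 → K) 0 4 + (F 1 : Fin 5 → Fin 5 → K) 1 1 + (2) * (F 1 : Fin 5 → Fin 5 → K) 1 2 + (2) * (F 1 : Fin 5 → Fin 5 → K) 1 3 + (2) * (F 1 : Fin 5 → Fin 5 → K) 1 4 + (F 1 : Fin 5 → Fin 5 → K) 2 2 + (2) * (F 1 : Fin 5 → Fin 5 → K) 2 3 + (2) * (F 1 : Fin 5 → Fin 5 → K) 2 4 + (F 1 : Fin 5 → Fin 5 → K) 3 3 + (2) * (F 1 : Fin 5 → Fin 5 → K) 3 4 + (F 1 : Fin 5 → Fin 5 → K) 4 4 = 0 := by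
    linear_combination (bf5 (F 1).2 1 1 1 1 1 1 1 1 1 1).symm.trans (h3 5 1)
  have z0 : (F 0 : Fin 5 → Fin 5 → K) = 0 := by
    have u00 : (F 0 : Fin 5 → Fin 5 → K) 0 0 = 0 := by
      linear_combination (1) * c0
    have u01 : (F 0 : Fin 5 → Fin 5 → K) 0 1 = 0 := by
      linear_combination (1) * c13
    have u02 : (F 0 : Fin 5 → Fin 5 → K) 0 2 = 0 := by
      linear_combination (1) * c14
    have u03 : (F 0 : Fin 5 → Fin 5 → K) 0 3 = 0 := by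
      linear_combination (1) * c15
    have u04 : (F 0 : Fin 5 → Fin 5 → K) 0 4 = 0 := by
      linear_combination (1) * c16
    have u11 : (F 0 : Fin 5 → Fin 5 → K) 1 1 = 0 := by
      linear_combination (1) * c3
    have u12 : (F 0 : Fin 5 → Fin 5 → K) 1 2 = 0 := by
      linear_combination (-1 / 2) * c0 + (1 / 2) * c4 + (1 / 2) * c8 + (1 / 2) * c9 + (1 / 2) * c10 + (1 / 2) * c11 + (-1) * c13 + (-1) * c14 + (-1) * c15 + (-1) * c16 + (1) * c20 + (1) * c21 + (1) * c25 + (1) * c26 + (1) * c31 + (1 / 2) * c32 + (1 / 2) * c33 + (1 / 2) * c34 + (-1 / 2) * c38 + (-1 / 2) * c40 + (-1 / 2) * c44 + (-1 / 2) * c45 + (1 / 2) * c47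
    have u13 : (F 0 : Fin 5 → Fin 5 → K) 1 3 = 0 := by
      linear_combination (1 / 2) * c0 + (-1 / 2) * c4 + (-1 / 2) * c8 + (-1 / 2) * c9 + (-1 / 2) * c10 + (-1 / 2) * c11 + (1) * c13 + (1) * c16 + (-1) * c20 + (-1) * c21 + (-1) * c25 + (-1) * c26 + (-1) * c31 + (-1 / 2) * c33 + (-1 / 2) * c34 + (-1 / 2) * c35 + (1 / 2) * c40 + (1 / 2) * c44 + (1 / 2) * c45
    have u14 : (F 0 : Fin 5 → Fin 5 → K) 1 4 = 0 := by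
      linear_combination (-1 / 2) * c0 + (-1 / 2) * c3 + (-1) * c13 + (-1) * c16 + (-1 / 2) * c32 + (1 / 2) * c35
    have u22 : (F 0 : Fin 5 → Fin 5 → K) 2 2 = 0 := by
      linear_combination (1) * c6
    have u23 : (F 0 : Fin 5 → Fin 5 → K) 2 3 = 0 := by
      linear_combination (1 / 2) * c0 + (-1 / 2) * c4 + (-1 / 2) * c8 + (-1 / 2) * c9 + (-1 / 2) * c10 + (-1 / 2) * c11 + (1) * c14 + (1) * c16 + (-1) * c20 + (-1) * c21 + (-1) * c25 + (-1) * c26 + (-1) * c31 + (-1 / 2) * c33 + (-1 / 2) * c34 + (1 / 2) * c38 + (1 / 2) * c40 + (-1 / 2) * c41 + (1 / 2) * c45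
    have u24 : (F 0 : Fin 5 → Fin 5 → K) 2 4 = 0 := by
      linear_combination (-1 / 2) * c0 + (-1 / 2) * c6 + (-1) * c14 + (-1) * c16 + (-1 / 2) * c32 + (1 / 2) * c41
    have u33 : (F 0 : Fin 5 → Fin 5 → K) 3 3 = 0 := by
      linear_combination (1) * c9
    have u34 : (F 0 : Fin 5 → Fin 5 → K) 3 4 = 0 := by
      linear_combination (1 / 2) * c4 + (1 / 2) * c8 + (1 / 2) * c10 + (1 / 2) * c11 + (1) * c20 + (1) * c21 + (1) * c25 + (1) * c26 + (1) * c31 + (1 / 2) * c33 + (1 / 2) * c34 + (-1 / 2) * c40 + (-1 / 2) * c45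
    have u44 : (F 0 : Fin 5 → Fin 5 → K) 4 4 = 0 := by
      linear_combination (1) * c32
    exact zero5 (F 0).2 u00 u01 u02 u03 u04 u11 u12 u13 u14 u22 u23 u24 u33 u34 u44
  have z1 : (F 1 : Fin 5 → Fin 5 → K) = 0 := by
    have u00 : (F 1 : Fin 5 → Fin 5 → K) 0 0 = 0 := by
      linear_combination (1) * c1
    have u01 : (F 1 : Fin 5 → Fin 5 → K) 0 1 = 0 := by
      linear_combination (1) * c17
    have u02 : (F 1 : Fin 5 → Fin 5 → K) 0 2 = 0 := by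
      linear_combination (-1 / 2) * c0 + (1 / 2) * c4 + (1 / 2) * c8 + (1 / 2) * c9 + (1 / 2) * c10 + (1 / 2) * c11 + (-1) * c14 + (-1) * c16 + (1) * c17 + (1) * c21 + (1) * c26 + (1) * c29 + (1) * c31 + (1 / 2) * c33 + (1 / 2) * c34 + (-1 / 2) * c36 + (-1 / 2) * c38 + (-1 / 2) * c39 + (-1 / 2) * c40 + (1 / 2) * c41 + (1 / 2) * c42
    have u03 : (F 1 : Fin 5 → Fin 5 → K) 0 3 = 0 := by
      linear_combination (1 / 2) * c0 + (-1 / 2) * c4 + (-1 / 2) * c8 + (-1 / 2) * c9 + (-1 / 2) * c10 + (-1 / 2) * c11 + (1) * c14 + (1) * c16 + (-1) * c17 + (-1) * c19 + (-1) * c20 + (-1) * c21 + (-1) * c26 + (-1) * c29 + (-1) * c31 + (-1 / 2) * c34 + (1 / 2) * c38 + (1 / 2) * c40 + (-1 / 2) * c41 + (-1 / 2) * c42 + (1 / 2) * c48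
    have u04 : (F 1 : Fin 5 → Fin 5 → K) 0 4 = 0 := by
      linear_combination (-1 / 2) * c1 + (-1 / 2) * c4 + (-1) * c17 + (-1) * c21 + (-1 / 2) * c33 + (1 / 2) * c36
    have u11 : (F 1 : Fin 5 → Fin 5 → K) 1 1 = 0 := by
      linear_combination (1) * c4
    have u12 : (F 1 : Fin 5 → Fin 5 → K) 1 2 = 0 := by
      linear_combination (1) * c19
    have u13 : (F 1 : Fin 5 → Fin 5 → K) 1 3 = 0 := by
      linear_combination (1) * c20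
    have u14 : (F 1 : Fin 5 → Fin 5 → K) 1 4 = 0 := by
      linear_combination (1) * c21
    have u22 : (F 1 : Fin 5 → Fin 5 → K) 2 2 = 0 := by
      linear_combination (1) * c7
    have u23 : (F 1 : Fin 5 → Fin 5 → K) 2 3 = 0 := by
      linear_combination (-1 / 2) * c0 + (1 / 2) * c4 + (1 / 2) * c8 + (1 / 2) * c9 + (1 / 2) * c10 + (1 / 2) * c11 + (-1) * c14 + (-1) * c16 + (1) * c20 + (1) * c21 + (1) * c26 + (1) * c29 + (1) * c31 + (1 / 2) * c33 + (1 / 2) * c34 + (-1 / 2) * c38 + (-1 / 2) * c40 + (1 / 2) * c41 + (-1 / 2) * c45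
    have u24 : (F 1 : Fin 5 → Fin 5 → K) 2 4 = 0 := by
      linear_combination (1 / 2) * c0 + (-1 / 2) * c7 + (-1 / 2) * c8 + (-1 / 2) * c9 + (-1 / 2) * c10 + (-1 / 2) * c11 + (1) * c14 + (1) * c16 + (-1) * c26 + (-1) * c29 + (-1) * c31 + (-1 / 2) * c33 + (-1 / 2) * c34 + (1 / 2) * c38 + (1 / 2) * c39 + (1 / 2) * c40 + (-1 / 2) * c41
    have u33 : (F 1 : Fin 5 → Fin 5 → K) 3 3 = 0 := by
      linear_combination (1) * c10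
    have u34 : (F 1 : Fin 5 → Fin 5 → K) 3 4 = 0 := by
      linear_combination (-1 / 2) * c4 + (-1 / 2) * c10 + (-1) * c20 + (-1) * c21 + (-1 / 2) * c33 + (1 / 2) * c45
    have u44 : (F 1 : Fin 5 → Fin 5 → K) 4 4 = 0 := by
      linear_combination (1) * c33
    exact zero5 (F 1).2 u00 u01 u02 u03 u04 u11 u12 u13 u14 u22 u23 u24 u33 u34 u44
  have z2 : (F 2 : Fin 5 → Fin 5 → K) = 0 := by
    have u00 : (F 2 : Fin 5 → Fin 5 → K) 0 0 = 0 := by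
      linear_combination (1) * c2
    have u01 : (F 2 : Fin 5 → Fin 5 → K) 0 1 = 0 := by
      linear_combination (-1 / 2) * c0 + (1 / 2) * c4 + (1 / 2) * c8 + (1 / 2) * c9 + (1 / 2) * c10 + (1 / 2) * c11 + (-1) * c13 + (-1) * c16 + (1) * c21 + (1) * c22 + (1) * c26 + (1) * c28 + (1) * c31 + (1 / 2) * c33 + (1 / 2) * c34 + (1 / 2) * c35 + (1 / 2) * c37 + (-1 / 2) * c43 + (-1 / 2) * c44 + (-1 / 2) * c45 + (-1 / 2) * c46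
    have u02 : (F 2 : Fin 5 → Fin 5 → K) 0 2 = 0 := by
      linear_combination (1) * c22
    have u03 : (F 2 : Fin 5 → Fin 5 → K) 0 3 = 0 := by
      linear_combination (-1 / 2) * c0 + (1 / 2) * c4 + (1 / 2) * c8 + (1 / 2) * c9 + (1 / 2) * c10 + (1 / 2) * c11 + (-1) * c14 + (-1) * c15 + (-1) * c16 + (1) * c17 + (1) * c19 + (1) * c20 + (1) * c21 + (1) * c26 + (1) * c27 + (1) * c29 + (1) * c31 + (1 / 2) * c34 + (-1 / 2) * c38 + (-1 / 2) * c40 + (1 / 2) * c41 + (1 / 2) * c42 + (-1 / 2) * c48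
    have u04 : (F 2 : Fin 5 → Fin 5 → K) 0 4 = 0 := by
      linear_combination (-1 / 2) * c2 + (-1 / 2) * c8 + (-1) * c22 + (-1) * c26 + (-1 / 2) * c34 + (1 / 2) * c43
    have u11 : (F 2 : Fin 5 → Fin 5 → K) 1 1 = 0 := by
      linear_combination (1) * c5
    have u12 : (F 2 : Fin 5 → Fin 5 → K) 1 2 = 0 := by
      linear_combination (1) * c23
    have u13 : (F 2 : Fin 5 → Fin 5 → K) 1 3 = 0 := by
      linear_combination (-1 / 2) * c0 + (1 / 2) * c4 + (1 / 2) * c8 + (1 / 2) * c9 + (1 / 2) * c10 + (1 / 2) * c11 + (-1) * c13 + (-1) * c16 + (1) * c21 + (1) * c25 + (1) * c26 + (1) * c28 + (1) * c31 + (1 / 2) * c33 + (1 / 2) * c34 + (1 / 2) * c35 + (-1 / 2) * c40 + (-1 / 2) * c44 + (-1 / 2) * c45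
    have u14 : (F 2 : Fin 5 → Fin 5 → K) 1 4 = 0 := by
      linear_combination (1 / 2) * c0 + (-1 / 2) * c4 + (-1 / 2) * c5 + (-1 / 2) * c9 + (-1 / 2) * c10 + (-1 / 2) * c11 + (1) * c13 + (1) * c16 + (-1) * c21 + (-1) * c28 + (-1) * c31 + (-1 / 2) * c33 + (-1 / 2) * c34 + (-1 / 2) * c35 + (1 / 2) * c44 + (1 / 2) * c45 + (1 / 2) * c46
    have u22 : (F 2 : Fin 5 → Fin 5 → K) 2 2 = 0 := by
      linear_combination (1) * c8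
    have u23 : (F 2 : Fin 5 → Fin 5 → K) 2 3 = 0 := by
      linear_combination (1) * c25
    have u24 : (F 2 : Fin 5 → Fin 5 → K) 2 4 = 0 := by
      linear_combination (1) * c26
    have u33 : (F 2 : Fin 5 → Fin 5 → K) 3 3 = 0 := by
      linear_combination (1) * c11
    have u34 : (F 2 : Fin 5 → Fin 5 → K) 3 4 = 0 := by
      linear_combination (-1 / 2) * c8 + (-1 / 2) * c11 + (-1) * c25 + (-1) * c26 + (-1 / 2) * c34 + (1 / 2) * c40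
    have u44 : (F 2 : Fin 5 → Fin 5 → K) 4 4 = 0 := by
      linear_combination (1) * c34
    exact zero5 (F 2).2 u00 u01 u02 u03 u04 u11 u12 u13 u14 u22 u23 u24 u33 u34 u44
  funext j
  apply Subtype.ext
  fin_cases j
  · exact z0
  · exact z1
  · exact z2

/-- four forms, five full points, five simple points -/
theorem s2 : KQ K 5 4 5 5 0 := by
  refine ⟨((![![1, 0, 0, 0, 0], ![0, 1, 0, 0, 0], ![0, 0, 1, 0, 0], ![0, 0, 0, 1, 0], ![0, 0, 0, 0, 1]] : Fin 5 → Fin 5 → K),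
    (![![1, 0, 0, 0], ![0, 1, 0, 0], ![0, 0, 1, 0], ![0, 0, 0, 1], ![1, 1, 1, 1]] : Fin 5 → Fin 4 → K),
    (![![0, 1, 1, 1, 0], ![1, 0, 1, 1, 0], ![0, 1, 1, 0, 1], ![1, 1, 0, 0, 1], ![1, 0, 0, 1, 1]] : Fin 5 → Fin 5 → K)), ?_⟩
  refine (finrank_zero_of fun F hF => ?_).le
  obtain ⟨h1, h2, h3⟩ := mem_ZK.1 hF
  have c0 : (F 0 : Fin 5 → Fin 5 → K) 0 0 = 0 := by
    linear_combination (bf5 (F 0).2 1 0 0 0 0 1 0 0 0 0).symm.trans (h1 0 0)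
  have c1 : (F 1 : Fin 5 → Fin 5 → K) 0 0 = 0 := by
    linear_combination (bf5 (F 1).2 1 0 0 0 0 1 0 0 0 0).symm.trans (h1 0 1)
  have c2 : (F 2 : Fin 5 → Fin 5 → K) 0 0 = 0 := by
    linear_combination (bf5 (F 2).2 1 0 0 0 0 1 0 0 0 0).symm.trans (h1 0 2)
  have c3 : (F 3 : Fin 5 → Fin 5 → K) 0 0 = 0 := by
    linear_combination (bf5 (F 3).2 1 0 0 0 0 1 0 0 0 0).symm.trans (h1 0 3)
  have c4 : (F 0 : Fin 5 → Fin 5 → K) 1 1 = 0 := by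
    linear_combination (bf5 (F 0).2 0 1 0 0 0 0 1 0 0 0).symm.trans (h1 1 0)
  have c5 : (F 1 : Fin 5 → Fin 5 → K) 1 1 = 0 := by
    linear_combination (bf5 (F 1).2 0 1 0 0 0 0 1 0 0 0).symm.trans (h1 1 1)
  have c6 : (F 2 : Fin 5 → Fin 5 → K) 1 1 = 0 := by
    linear_combination (bf5 (F 2).2 0 1 0 0 0 0 1 0 0 0).symm.trans (h1 1 2)
  have c7 : (F 3 : Fin 5 → Fin 5 → K) 1 1 = 0 := by
    linear_combination (bf5 (F 3).2 0 1 0 0 0 0 1 0 0 0).symm.trans (h1 1 3)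
  have c8 : (F 0 : Fin 5 → Fin 5 → K) 2 2 = 0 := by
    linear_combination (bf5 (F 0).2 0 0 1 0 0 0 0 1 0 0).symm.trans (h1 2 0)
  have c9 : (F 1 : Fin 5 → Fin 5 → K) 2 2 = 0 := by
    linear_combination (bf5 (F 1).2 0 0 1 0 0 0 0 1 0 0).symm.trans (h1 2 1)
  have c10 : (F 2 : Fin 5 → Fin 5 → K) 2 2 = 0 := by
    linear_combination (bf5 (F 2).2 0 0 1 0 0 0 0 1 0 0).symm.trans (h1 2 2)
  have c11 : (F 3 : Fin 5 → Fin 5 → K) 2 2 = 0 := by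
    linear_combination (bf5 (F 3).2 0 0 1 0 0 0 0 1 0 0).symm.trans (h1 2 3)
  have c12 : (F 0 : Fin 5 → Fin 5 → K) 3 3 = 0 := by
    linear_combination (bf5 (F 0).2 0 0 0 1 0 0 0 0 1 0).symm.trans (h1 3 0)
  have c13 : (F 1 : Fin 5 → Fin 5 → K) 3 3 = 0 := by
    linear_combination (bf5 (F 1).2 0 0 0 1 0 0 0 0 1 0).symm.trans (h1 3 1)
  have c14 : (F 2 : Fin 5 → Fin 5 → K) 3 3 = 0 := by
    linear_combination (bf5 (F 2).2 0 0 0 1 0 0 0 0 1 0).symm.trans (h1 3 2)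
  have c15 : (F 3 : Fin 5 → Fin 5 → K) 3 3 = 0 := by
    linear_combination (bf5 (F 3).2 0 0 0 1 0 0 0 0 1 0).symm.trans (h1 3 3)
  have c16 : (F 0 : Fin 5 → Fin 5 → K) 4 4 = 0 := by
    linear_combination (bf5 (F 0).2 0 0 0 0 1 0 0 0 0 1).symm.trans (h1 4 0)
  have c17 : (F 1 : Fin 5 → Fin 5 → K) 4 4 = 0 := by
    linear_combination (bf5 (F 1).2 0 0 0 0 1 0 0 0 0 1).symm.trans (h1 4 1)
  have c18 : (F 2 : Fin 5 → Fin 5 → K) 4 4 = 0 := by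
    linear_combination (bf5 (F 2).2 0 0 0 0 1 0 0 0 0 1).symm.trans (h1 4 2)
  have c19 : (F 3 : Fin 5 → Fin 5 → K) 4 4 = 0 := by
    linear_combination (bf5 (F 3).2 0 0 0 0 1 0 0 0 0 1).symm.trans (h1 4 3)
  have c21 : (F 0 : Fin 5 → Fin 5 → K) 0 1 = 0 := by
    have c : 1 * bf (F 0 : Fin 5 → Fin 5 → K) ![1, 0, 0, 0, 0] ![0, 1, 0, 0, 0] + 0 * bf (F 1 : Fin 5 → Fin 5 → K) ![1, 0, 0, 0, 0] ![0, 1, 0, 0, 0] + 0 * bf (F 2 : Fin 5 → Fin 5 → K) ![1, 0, 0, 0, 0] ![0, 1, 0, 0, 0] + 0 * bf (F 3 : Fin 5 → Fin 5 → K) ![1, 0, 0, 0, 0] ![0, 1, 0, 0, 0] = 0 :=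
      (Fin.sum_univ_four _).symm.trans (h2 0 ![0, 1, 0, 0, 0])
    rw [bf5 (F 0).2, bf5 (F 1).2, bf5 (F 2).2, bf5 (F 3).2] at c
    linear_combination c
  have c22 : (F 0 : Fin 5 → Fin 5 → K) 0 2 = 0 := by
    have c : 1 * bf (F 0 : Fin 5 → Fin 5 → K) ![1, 0, 0, 0, 0] ![0, 0, 1, 0, 0] + 0 * bf (F 1 : Fin 5 → Fin 5 → K) ![1, 0, 0, 0, 0] ![0, 0, 1, 0, 0] + 0 * bf (F 2 : Fin 5 → Fin 5 → K) ![1, 0, 0, 0, 0] ![0, 0, 1, 0, 0] + 0 * bf (F 3 : Fin 5 → Fin 5 → K) ![1, 0, 0, 0, 0] ![0, 0, 1, 0, 0] = 0 :=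
      (Fin.sum_univ_four _).symm.trans (h2 0 ![0, 0, 1, 0, 0])
    rw [bf5 (F 0).2, bf5 (F 1).2, bf5 (F 2).2, bf5 (F 3).2] at c
    linear_combination c
  have c23 : (F 0 : Fin 5 → Fin 5 → K) 0 3 = 0 := by
    have c : 1 * bf (F 0 : Fin 5 → Fin 5 → K) ![1, 0, 0, 0, 0] ![0, 0, 0, 1, 0] + 0 * bf (F 1 : Fin 5 → Fin 5 → K) ![1, 0, 0, 0, 0] ![0, 0, 0, 1, 0] + 0 * bf (F 2 : Fin 5 → Fin 5 → K) ![1, 0, 0, 0, 0] ![0, 0, 0, 1, 0] + 0 * bf (F 3 : Fin 5 → Fin 5 → K) ![1, 0, 0, 0, 0] ![0, 0, 0, 1, 0] = 0 :=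
      (Fin.sum_univ_four _).symm.trans (h2 0 ![0, 0, 0, 1, 0])
    rw [bf5 (F 0).2, bf5 (F 1).2, bf5 (F 2).2, bf5 (F 3).2] at c
    linear_combination c
  have c24 : (F 0 : Fin 5 → Fin 5 → K) 0 4 = 0 := by
    have c : 1 * bf (F 0 : Fin 5 → Fin 5 → K) ![1, 0, 0, 0, 0] ![0, 0, 0, 0, 1] + 0 * bf (F 1 : Fin 5 → Fin 5 → K) ![1, 0, 0, 0, 0] ![0, 0, 0, 0, 1] + 0 * bf (F 2 : Fin 5 → Fin 5 → K) ![1, 0, 0, 0, 0] ![0, 0, 0, 0, 1] + 0 * bf (F 3 : Fin 5 → Fin 5 → K) ![1, 0, 0, 0, 0] ![0, 0, 0, 0, 1] = 0 :=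
      (Fin.sum_univ_four _).symm.trans (h2 0 ![0, 0, 0, 0, 1])
    rw [bf5 (F 0).2, bf5 (F 1).2, bf5 (F 2).2, bf5 (F 3).2] at c
    linear_combination c
  have c25 : (F 1 : Fin 5 → Fin 5 → K) 0 1 = 0 := by
    have c : 0 * bf (F 0 : Fin 5 → Fin 5 → K) ![0, 1, 0, 0, 0] ![1, 0, 0, 0, 0] + 1 * bf (F 1 : Fin 5 → Fin 5 → K) ![0, 1, 0, 0, 0] ![1, 0, 0, 0, 0] + 0 * bf (F 2 : Fin 5 → Fin 5 → K) ![0, 1, 0, 0, 0] ![1, 0, 0, 0, 0] + 0 * bf (F 3 : Fin 5 → Fin 5 → K) ![0, 1, 0, 0, 0] ![1, 0, 0, 0, 0] = 0 :=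
      (Fin.sum_univ_four _).symm.trans (h2 1 ![1, 0, 0, 0, 0])
    rw [bf5 (F 0).2, bf5 (F 1).2, bf5 (F 2).2, bf5 (F 3).2] at c
    linear_combination c
  have c27 : (F 1 : Fin 5 → Fin 5 → K) 1 2 = 0 := by
    have c : 0 * bf (F 0 : Fin 5 → Fin 5 → K) ![0, 1, 0, 0, 0] ![0, 0, 1, 0, 0] + 1 * bf (F 1 : Fin 5 → Fin 5 → K) ![0, 1, 0, 0, 0] ![0, 0, 1, 0, 0] + 0 * bf (F 2 : Fin 5 → Fin 5 → K) ![0, 1, 0, 0, 0] ![0, 0, 1, 0, 0] + 0 * bf (F 3 : Fin 5 → Fin 5 → K) ![0, 1, 0, 0, 0] ![0, 0, 1, 0, 0] = 0 :=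
      (Fin.sum_univ_four _).symm.trans (h2 1 ![0, 0, 1, 0, 0])
    rw [bf5 (F 0).2, bf5 (F 1).2, bf5 (F 2).2, bf5 (F 3).2] at c
    linear_combination c
  have c28 : (F 1 : Fin 5 → Fin 5 → K) 1 3 = 0 := by
    have c : 0 * bf (F 0 : Fin 5 → Fin 5 → K) ![0, 1, 0, 0, 0] ![0, 0, 0, 1, 0] + 1 * bf (F 1 : Fin 5 → Fin 5 → K) ![0, 1, 0, 0, 0] ![0, 0, 0, 1, 0] + 0 * bf (F 2 : Fin 5 → Fin 5 → K) ![0, 1, 0, 0, 0] ![0, 0, 0, 1, 0] + 0 * bf (F 3 : Fin 5 → Fin 5 → K) ![0, 1, 0, 0, 0] ![0, 0, 0, 1, 0] = 0 :=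
      (Fin.sum_univ_four _).symm.trans (h2 1 ![0, 0, 0, 1, 0])
    rw [bf5 (F 0).2, bf5 (F 1).2, bf5 (F 2).2, bf5 (F 3).2] at c
    linear_combination c
  have c29 : (F 1 : Fin 5 → Fin 5 → K) 1 4 = 0 := by
    have c : 0 * bf (F 0 : Fin 5 → Fin 5 → K) ![0, 1, 0, 0, 0] ![0, 0, 0, 0, 1] + 1 * bf (F 1 : Fin 5 → Fin 5 → K) ![0, 1, 0, 0, 0] ![0, 0, 0, 0, 1] + 0 * bf (F 2 : Fin 5 → Fin 5 → K) ![0, 1, 0, 0, 0] ![0, 0, 0, 0, 1] + 0 * bf (F 3 : Fin 5 → Fin 5 → K) ![0, 1, 0, 0, 0] ![0, 0, 0, 0, 1] = 0 :=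
      (Fin.sum_univ_four _).symm.trans (h2 1 ![0, 0, 0, 0, 1])
    rw [bf5 (F 0).2, bf5 (F 1).2, bf5 (F 2).2, bf5 (F 3).2] at c
    linear_combination c
  have c30 : (F 2 : Fin 5 → Fin 5 → K) 0 2 = 0 := by
    have c : 0 * bf (F 0 : Fin 5 → Fin 5 → K) ![0, 0, 1, 0, 0] ![1, 0, 0, 0, 0] + 0 * bf (F 1 : Fin 5 → Fin 5 → K) ![0, 0, 1, 0, 0] ![1, 0, 0, 0, 0] + 1 * bf (F 2 : Fin 5 → Fin 5 → K) ![0, 0, 1, 0, 0] ![1, 0, 0, 0, 0] + 0 * bf (F 3 : Fin 5 → Fin 5 → K) ![0, 0, 1, 0, 0] ![1, 0, 0, 0, 0] = 0 :=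
      (Fin.sum_univ_four _).symm.trans (h2 2 ![1, 0, 0, 0, 0])
    rw [bf5 (F 0).2, bf5 (F 1).2, bf5 (F 2).2, bf5 (F 3).2] at c
    linear_combination c
  have c31 : (F 2 : Fin 5 → Fin 5 → K) 1 2 = 0 := by
    have c : 0 * bf (F 0 : Fin 5 → Fin 5 → K) ![0, 0, 1, 0, 0] ![0, 1, 0, 0, 0] + 0 * bf (F 1 : Fin 5 → Fin 5 → K) ![0, 0, 1, 0, 0] ![0, 1, 0, 0, 0] + 1 * bf (F 2 : Fin 5 → Fin 5 → K) ![0, 0, 1, 0, 0] ![0, 1, 0, 0, 0] + 0 * bf (F 3 : Fin 5 → Fin 5 → K) ![0, 0, 1, 0, 0] ![0, 1, 0, 0, 0] = 0 :=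
      (Fin.sum_univ_four _).symm.trans (h2 2 ![0, 1, 0, 0, 0])
    rw [bf5 (F 0).2, bf5 (F 1).2, bf5 (F 2).2, bf5 (F 3).2] at c
    linear_combination c
  have c33 : (F 2 : Fin 5 → Fin 5 → K) 2 3 = 0 := by
    have c : 0 * bf (F 0 : Fin 5 → Fin 5 → K) ![0, 0, 1, 0, 0] ![0, 0, 0, 1, 0] + 0 * bf (F 1 : Fin 5 → Fin 5 → K) ![0, 0, 1, 0, 0] ![0, 0, 0, 1, 0] + 1 * bf (F 2 : Fin 5 → Fin 5 → K) ![0, 0, 1, 0, 0] ![0, 0, 0, 1, 0] + 0 * bf (F 3 : Fin 5 → Fin 5 → K) ![0, 0, 1, 0, 0] ![0, 0, 0, 1, 0] = 0 :=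
      (Fin.sum_univ_four _).symm.trans (h2 2 ![0, 0, 0, 1, 0])
    rw [bf5 (F 0).2, bf5 (F 1).2, bf5 (F 2).2, bf5 (F 3).2] at c
    linear_combination c
  have c34 : (F 2 : Fin 5 → Fin 5 → K) 2 4 = 0 := by
    have c : 0 * bf (F 0 : Fin 5 → Fin 5 → K) ![0, 0, 1, 0, 0] ![0, 0, 0, 0, 1] + 0 * bf (F 1 : Fin 5 → Fin 5 → K) ![0, 0, 1, 0, 0] ![0, 0, 0, 0, 1] + 1 * bf (F 2 : Fin 5 → Fin 5 → K) ![0, 0, 1, 0, 0] ![0, 0, 0, 0, 1] + 0 * bf (F 3 : Fin 5 → Fin 5 → K) ![0, 0, 1, 0, 0] ![0, 0, 0, 0, 1] = 0 :=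
      (Fin.sum_univ_four _).symm.trans (h2 2 ![0, 0, 0, 0, 1])
    rw [bf5 (F 0).2, bf5 (F 1).2, bf5 (F 2).2, bf5 (F 3).2] at c
    linear_combination c
  have c35 : (F 3 : Fin 5 → Fin 5 → K) 0 3 = 0 := by
    have c : 0 * bf (F 0 : Fin 5 → Fin 5 → K) ![0, 0, 0, 1, 0] ![1, 0, 0, 0, 0] + 0 * bf (F 1 : Fin 5 → Fin 5 → K) ![0, 0, 0, 1, 0] ![1, 0, 0, 0, 0] + 0 * bf (F 2 : Fin 5 → Fin 5 → K) ![0, 0, 0, 1, 0] ![1, 0, 0, 0, 0] + 1 * bf (F 3 : Fin 5 → Fin 5 → K) ![0, 0, 0, 1, 0] ![1, 0, 0, 0, 0] = 0 :=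
      (Fin.sum_univ_four _).symm.trans (h2 3 ![1, 0, 0, 0, 0])
    rw [bf5 (F 0).2, bf5 (F 1).2, bf5 (F 2).2, bf5 (F 3).2] at c
    linear_combination c
  have c36 : (F 3 : Fin 5 → Fin 5 → K) 1 3 = 0 := by
    have c : 0 * bf (F 0 : Fin 5 → Fin 5 → K) ![0, 0, 0, 1, 0] ![0, 1, 0, 0, 0] + 0 * bf (F 1 : Fin 5 → Fin 5 → K) ![0, 0, 0, 1, 0] ![0, 1, 0, 0, 0] + 0 * bf (F 2 : Fin 5 → Fin 5 → K) ![0, 0, 0, 1, 0] ![0, 1, 0, 0, 0] + 1 * bf (F 3 : Fin 5 → Fin 5 → K) ![0, 0, 0, 1, 0] ![0, 1, 0, 0, 0] = 0 :=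
      (Fin.sum_univ_four _).symm.trans (h2 3 ![0, 1, 0, 0, 0])
    rw [bf5 (F 0).2, bf5 (F 1).2, bf5 (F 2).2, bf5 (F 3).2] at c
    linear_combination c
  have c37 : (F 3 : Fin 5 → Fin 5 → K) 2 3 = 0 := by
    have c : 0 * bf (F 0 : Fin 5 → Fin 5 → K) ![0, 0, 0, 1, 0] ![0, 0, 1, 0, 0] + 0 * bf (F 1 : Fin 5 → Fin 5 → K) ![0, 0, 0, 1, 0] ![0, 0, 1, 0, 0] + 0 * bf (F 2 : Fin 5 → Fin 5 → K) ![0, 0, 0, 1, 0] ![0, 0, 1, 0, 0] + 1 * bf (F 3 : Fin 5 → Fin 5 → K) ![0, 0, 0, 1, 0] ![0, 0, 1, 0, 0] = 0 :=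
      (Fin.sum_univ_four _).symm.trans (h2 3 ![0, 0, 1, 0, 0])
    rw [bf5 (F 0).2, bf5 (F 1).2, bf5 (F 2).2, bf5 (F 3).2] at c
    linear_combination c
  have c39 : (F 3 : Fin 5 → Fin 5 → K) 3 4 = 0 := by
    have c : 0 * bf (F 0 : Fin 5 → Fin 5 → K) ![0, 0, 0, 1, 0] ![0, 0, 0, 0, 1] + 0 * bf (F 1 : Fin 5 → Fin 5 → K) ![0, 0, 0, 1, 0] ![0, 0, 0, 0, 1] + 0 * bf (F 2 : Fin 5 → Fin 5 → K) ![0, 0, 0, 1, 0] ![0, 0, 0, 0, 1] + 1 * bf (F 3 : Fin 5 → Fin 5 → K) ![0, 0, 0, 1, 0] ![0, 0, 0, 0, 1] = 0 :=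
      (Fin.sum_univ_four _).symm.trans (h2 3 ![0, 0, 0, 0, 1])
    rw [bf5 (F 0).2, bf5 (F 1).2, bf5 (F 2).2, bf5 (F 3).2] at c
    linear_combination c
  have c40 : (F 0 : Fin 5 → Fin 5 → K) 0 4 + (F 1 : Fin 5 → Fin 5 → K) 0 4 + (F 2 : Fin 5 → Fin 5 → K) 0 4 + (F 3 : Fin 5 → Fin 5 → K) 0 4 = 0 := by
    have c : 1 * bf (F 0 : Fin 5 → Fin 5 → K) ![0, 0, 0, 0, 1] ![1, 0, 0, 0, 0] + 1 * bf (F 1 : Fin 5 → Fin 5 → K) ![0, 0, 0, 0, 1] ![1, 0, 0, 0, 0] + 1 * bf (F 2 : Fin 5 → Fin 5 → K) ![0, 0, 0, 0, 1] ![1, 0, 0, 0, 0] + 1 * bf (F 3 : Fin 5 → Fin 5 → K) ![0, 0, 0, 0, 1] ![1, 0, 0, 0, 0] = 0 :=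
      (Fin.sum_univ_four _).symm.trans (h2 4 ![1, 0, 0, 0, 0])
    rw [bf5 (F 0).2, bf5 (F 1).2, bf5 (F 2).2, bf5 (F 3).2] at c
    linear_combination c
  have c41 : (F 0 : Fin 5 → Fin 5 → K) 1 4 + (F 1 : Fin 5 → Fin 5 → K) 1 4 + (F 2 : Fin 5 → Fin 5 → K) 1 4 + (F 3 : Fin 5 → Fin 5 → K) 1 4 = 0 := by
    have c : 1 * bf (F 0 : Fin 5 → Fin 5 → K) ![0, 0, 0, 0, 1] ![0, 1, 0, 0, 0] + 1 * bf (F 1 : Fin 5 → Fin 5 → K) ![0, 0, 0, 0, 1] ![0, 1, 0, 0, 0] + 1 * bf (F 2 : Fin 5 → Fin 5 → K) ![0, 0, 0, 0, 1] ![0, 1, 0, 0, 0] + 1 * bf (F 3 : Fin 5 → Fin 5 → K) ![0, 0, 0, 0, 1] ![0, 1, 0, 0, 0] = 0 :=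
      (Fin.sum_univ_four _).symm.trans (h2 4 ![0, 1, 0, 0, 0])
    rw [bf5 (F 0).2, bf5 (F 1).2, bf5 (F 2).2, bf5 (F 3).2] at c
    linear_combination c
  have c42 : (F 0 : Fin 5 → Fin 5 → K) 2 4 + (F 1 : Fin 5 → Fin 5 → K) 2 4 + (F 2 : Fin 5 → Fin 5 → K) 2 4 + (F 3 : Fin 5 → Fin 5 → K) 2 4 = 0 := by
    have c : 1 * bf (F 0 : Fin 5 → Fin 5 → K) ![0, 0, 0, 0, 1] ![0, 0, 1, 0, 0] + 1 * bf (F 1 : Fin 5 → Fin 5 → K) ![0, 0, 0, 0, 1] ![0, 0, 1, 0, 0] + 1 * bf (F 2 : Fin 5 → Fin 5 → K) ![0, 0, 0, 0, 1] ![0, 0, 1, 0, 0] + 1 * bf (F 3 : Fin 5 → Fin 5 → K) ![0, 0, 0, 0, 1] ![0, 0, 1, 0, 0] = 0 :=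
      (Fin.sum_univ_four _).symm.trans (h2 4 ![0, 0, 1, 0, 0])
    rw [bf5 (F 0).2, bf5 (F 1).2, bf5 (F 2).2, bf5 (F 3).2] at c
    linear_combination c
  have c43 : (F 0 : Fin 5 → Fin 5 → K) 3 4 + (F 1 : Fin 5 → Fin 5 → K) 3 4 + (F 2 : Fin 5 → Fin 5 → K) 3 4 + (F 3 : Fin 5 → Fin 5 → K) 3 4 = 0 := by
    have c : 1 * bf (F 0 : Fin 5 → Fin 5 → K) ![0, 0, 0, 0, 1] ![0, 0, 0, 1, 0] + 1 * bf (F 1 : Fin 5 → Fin 5 → K) ![0, 0, 0, 0, 1] ![0, 0, 0, 1, 0] + 1 * bf (F 2 : Fin 5 → Fin 5 → K) ![0, 0, 0, 0, 1] ![0, 0, 0, 1, 0] + 1 * bf (F 3 : Fin 5 → Fin 5 → K) ![0, 0, 0, 0, 1] ![0, 0, 0, 1, 0] = 0 :=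
      (Fin.sum_univ_four _).symm.trans (h2 4 ![0, 0, 0, 1, 0])
    rw [bf5 (F 0).2, bf5 (F 1).2, bf5 (F 2).2, bf5 (F 3).2] at c
    linear_combination c
  have c45 : (F 0 : Fin 5 → Fin 5 → K) 1 1 + (2) * (F 0 : Fin 5 → Fin 5 → K) 1 2 + (2) * (F 0 : Fin 5 → Fin 5 → K) 1 3 + (F 0 : Fin 5 → Fin 5 → K) 2 2 + (2) * (F 0 : Fin 5 → Fin 5 → K) 2 3 + (F 0 : Fin 5 → Fin 5 → K) 3 3 = 0 := by
    linear_combination (bf5 (F 0).2 0 1 1 1 0 0 1 1 1 0).symm.trans (h3 0 0)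
  have c46 : (F 1 : Fin 5 → Fin 5 → K) 1 1 + (2) * (F 1 : Fin 5 → Fin 5 → K) 1 2 + (2) * (F 1 : Fin 5 → Fin 5 → K) 1 3 + (F 1 : Fin 5 → Fin 5 → K) 2 2 + (2) * (F 1 : Fin 5 → Fin 5 → K) 2 3 + (F 1 : Fin 5 → Fin 5 → K) 3 3 = 0 := by
    linear_combination (bf5 (F 1).2 0 1 1 1 0 0 1 1 1 0).symm.trans (h3 0 1)
  have c47 : (F 2 : Fin 5 → Fin 5 → K) 1 1 + (2) * (F 2 : Fin 5 → Fin 5 → K) 1 2 + (2) * (F 2 : Fin 5 → Fin 5 → K) 1 3 + (F 2 : Fin 5 → Fin 5 → K) 2 2 + (2) * (F 2 : Fin 5 → Fin 5 → K) 2 3 + (F 2 : Fin 5 → Fin 5 → K) 3 3 = 0 := by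
    linear_combination (bf5 (F 2).2 0 1 1 1 0 0 1 1 1 0).symm.trans (h3 0 2)
  have c48 : (F 3 : Fin 5 → Fin 5 → K) 1 1 + (2) * (F 3 : Fin 5 → Fin 5 → K) 1 2 + (2) * (F 3 : Fin 5 → Fin 5 → K) 1 3 + (F 3 : Fin 5 → Fin 5 → K) 2 2 + (2) * (F 3 : Fin 5 → Fin 5 → K) 2 3 + (F 3 : Fin 5 → Fin 5 → K) 3 3 = 0 := by
    linear_combination (bf5 (F 3).2 0 1 1 1 0 0 1 1 1 0).symm.trans (h3 0 3)
  have c49 : (F 0 : Fin 5 → Fin 5 → K) 0 0 + (2) * (F 0 : Fin 5 → Fin 5 → K) 0 2 + (2) * (F 0 : Fin 5 → Fin 5 → K) 0 3 + (F 0 : Fin 5 → Fin 5 → K) 2 2 + (2) * (F 0 : Fin 5 → Fin 5 → K) 2 3 + (F 0 : Fin 5 → Fin 5 → K) 3 3 = 0 := by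
    linear_combination (bf5 (F 0).2 1 0 1 1 0 1 0 1 1 0).symm.trans (h3 1 0)
  have c50 : (F 1 : Fin 5 → Fin 5 → K) 0 0 + (2) * (F 1 : Fin 5 → Fin 5 → K) 0 2 + (2) * (F 1 : Fin 5 → Fin 5 → K) 0 3 + (F 1 : Fin 5 → Fin 5 → K) 2 2 + (2) * (F 1 : Fin 5 → Fin 5 → K) 2 3 + (F 1 : Fin 5 → Fin 5 → K) 3 3 = 0 := by
    linear_combination (bf5 (F 1).2 1 0 1 1 0 1 0 1 1 0).symm.trans (h3 1 1)
  have c51 : (F 2 : Fin 5 → Fin 5 → K) 0 0 + (2) * (F 2 : Fin 5 → Fin 5 → K) 0 2 + (2) * (F 2 : Fin 5 → Fin 5 → K) 0 3 + (F 2 : Fin 5 → Fin 5 → K) 2 2 + (2) * (F 2 : Fin 5 → Fin 5 → K) 2 3 + (F 2 : Fin 5 → Fin 5 → K) 3 3 = 0 := by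
    linear_combination (bf5 (F 2).2 1 0 1 1 0 1 0 1 1 0).symm.trans (h3 1 2)
  have c52 : (F 3 : Fin 5 → Fin 5 → K) 0 0 + (2) * (F 3 : Fin 5 → Fin 5 → K) 0 2 + (2) * (F 3 : Fin 5 → Fin 5 → K) 0 3 + (F 3 : Fin 5 → Fin 5 → K) 2 2 + (2) * (F 3 : Fin 5 → Fin 5 → K) 2 3 + (F 3 : Fin 5 → Fin 5 → K) 3 3 = 0 := by
    linear_combination (bf5 (F 3).2 1 0 1 1 0 1 0 1 1 0).symm.trans (h3 1 3)
  have c53 : (F 0 : Fin 5 → Fin 5 → K) 1 1 + (2) * (F 0 : Fin 5 → Fin 5 → K) 1 2 + (2) * (F 0 : Fin 5 → Fin 5 → K) 1 4 + (F 0 : Fin 5 → Fin 5 → K) 2 2 + (2) * (F 0 : Fin 5 → Fin 5 → K) 2 4 + (F 0 : Fin 5 → Fin 5 → K) 4 4 = 0 := by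
    linear_combination (bf5 (F 0).2 0 1 1 0 1 0 1 1 0 1).symm.trans (h3 2 0)
  have c54 : (F 1 : Fin 5 → Fin 5 → K) 1 1 + (2) * (F 1 : Fin 5 → Fin 5 → K) 1 2 + (2) * (F 1 : Fin 5 → Fin 5 → K) 1 4 + (F 1 : Fin 5 → Fin 5 → K) 2 2 + (2) * (F 1 : Fin 5 → Fin 5 → K) 2 4 + (F 1 : Fin 5 → Fin 5 → K) 4 4 = 0 := by
    linear_combination (bf5 (F 1).2 0 1 1 0 1 0 1 1 0 1).symm.trans (h3 2 1)
  have c55 : (F 2 : Fin 5 → Fin 5 → K) 1 1 + (2) * (F 2 : Fin 5 → Fin 5 → K) 1 2 + (2) * (F 2 : Fin 5 → Fin 5 → K) 1 4 + (F 2 : Fin 5 → Fin 5 → K) 2 2 + (2) * (F 2 : Fin 5 → Fin 5 → K) 2 4 + (F 2 : Fin 5 → Fin 5 → K) 4 4 = 0 := by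
    linear_combination (bf5 (F 2).2 0 1 1 0 1 0 1 1 0 1).symm.trans (h3 2 2)
  have c56 : (F 3 : Fin 5 → Fin 5 → K) 1 1 + (2) * (F 3 : Fin 5 → Fin 5 → K) 1 2 + (2) * (F 3 : Fin 5 → Fin 5 → K) 1 4 + (F 3 : Fin 5 → Fin 5 → K) 2 2 + (2) * (F 3 : Fin 5 → Fin 5 → K) 2 4 + (F 3 : Fin 5 → Fin 5 → K) 4 4 = 0 := by
    linear_combination (bf5 (F 3).2 0 1 1 0 1 0 1 1 0 1).symm.trans (h3 2 3)
  have c57 : (F 0 : Fin 5 → Fin 5 → K) 0 0 + (2) * (F 0 : Fin 5 → Fin 5 → K) 0 1 + (2) * (F 0 : Fin 5 → Fin 5 → K) 0 4 + (F 0 : Fin 5 → Fin 5 → K) 1 1 + (2) * (F 0 : Fin 5 → Fin 5 → K) 1 4 + (F 0 : Fin 5 → Fin 5 → K) 4 4 = 0 := by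
    linear_combination (bf5 (F 0).2 1 1 0 0 1 1 1 0 0 1).symm.trans (h3 3 0)
  have c58 : (F 1 : Fin 5 → Fin 5 → K) 0 0 + (2) * (F 1 : Fin 5 → Fin 5 → K) 0 1 + (2) * (F 1 : Fin 5 → Fin 5 → K) 0 4 + (F 1 : Fin 5 → Fin 5 → K) 1 1 + (2) * (F 1 : Fin 5 → Fin 5 → K) 1 4 + (F 1 : Fin 5 → Fin 5 → K) 4 4 = 0 := by
    linear_combination (bf5 (F 1).2 1 1 0 0 1 1 1 0 0 1).symm.trans (h3 3 1)
  have c59 : (F 2 : Fin 5 → Fin 5 → K) 0 0 + (2) * (F 2 : Fin 5 → Fin 5 → K) 0 1 + (2) * (F 2 : Fin 5 → Fin 5 → K) 0 4 + (F 2 : Fin 5 → Fin 5 → K) 1 1 + (2) * (F 2 : Fin 5 → Fin 5 → K) 1 4 + (F 2 : Fin 5 → Fin 5 → K) 4 4 = 0 := by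
    linear_combination (bf5 (F 2).2 1 1 0 0 1 1 1 0 0 1).symm.trans (h3 3 2)
  have c60 : (F 3 : Fin 5 → Fin 5 → K) 0 0 + (2) * (F 3 : Fin 5 → Fin 5 → K) 0 1 + (2) * (F 3 : Fin 5 → Fin 5 → K) 0 4 + (F 3 : Fin 5 → Fin 5 → K) 1 1 + (2) * (F 3 : Fin 5 → Fin 5 → K) 1 4 + (F 3 : Fin 5 → Fin 5 → K) 4 4 = 0 := by
    linear_combination (bf5 (F 3).2 1 1 0 0 1 1 1 0 0 1).symm.trans (h3 3 3)
  have c61 : (F 0 : Fin 5 → Fin 5 → K) 0 0 + (2) * (F 0 : Fin 5 → Fin 5 → K) 0 3 + (2) * (F 0 : Fin 5 → Fin 5 → K) 0 4 + (F 0 : Fin 5 → Fin 5 → K) 3 3 + (2) * (F 0 : Fin 5 → Fin 5 → K) 3 4 + (F 0 : Fin 5 → Fin 5 → K) 4 4 = 0 := by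
    linear_combination (bf5 (F 0).2 1 0 0 1 1 1 0 0 1 1).symm.trans (h3 4 0)
  have c62 : (F 1 : Fin 5 → Fin 5 → K) 0 0 + (2) * (F 1 : Fin 5 → Fin 5 → K) 0 3 + (2) * (F 1 : Fin 5 → Fin 5 → K) 0 4 + (F 1 : Fin 5 → Fin 5 → K) 3 3 + (2) * (F 1 : Fin 5 → Fin 5 → K) 3 4 + (F 1 : Fin 5 → Fin 5 → K) 4 4 = 0 := by
    linear_combination (bf5 (F 1).2 1 0 0 1 1 1 0 0 1 1).symm.trans (h3 4 1)
  have c63 : (F 2 : Fin 5 → Fin 5 → K) 0 0 + (2) * (F 2 : Fin 5 → Fin 5 → K) 0 3 + (2) * (F 2 : Fin 5 → Fin 5 → K) 0 4 + (F 2 : Fin 5 → Fin 5 → K) 3 3 + (2) * (F 2 : Fin 5 → Fin 5 → K) 3 4 + (F 2 : Fin 5 → Fin 5 → K) 4 4 = 0 := by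
    linear_combination (bf5 (F 2).2 1 0 0 1 1 1 0 0 1 1).symm.trans (h3 4 2)
  have c64 : (F 3 : Fin 5 → Fin 5 → K) 0 0 + (2) * (F 3 : Fin 5 → Fin 5 → K) 0 3 + (2) * (F 3 : Fin 5 → Fin 5 → K) 0 4 + (F 3 : Fin 5 → Fin 5 → K) 3 3 + (2) * (F 3 : Fin 5 → Fin 5 → K) 3 4 + (F 3 : Fin 5 → Fin 5 → K) 4 4 = 0 := by
    linear_combination (bf5 (F 3).2 1 0 0 1 1 1 0 0 1 1).symm.trans (h3 4 3)
  have z0 : (F 0 : Fin 5 → Fin 5 → K) = 0 := by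
    have u00 : (F 0 : Fin 5 → Fin 5 → K) 0 0 = 0 := by
      linear_combination (1) * c0
    have u01 : (F 0 : Fin 5 → Fin 5 → K) 0 1 = 0 := by
      linear_combination (1) * c21
    have u02 : (F 0 : Fin 5 → Fin 5 → K) 0 2 = 0 := by
      linear_combination (1) * c22
    have u03 : (F 0 : Fin 5 → Fin 5 → K) 0 3 = 0 := by
      linear_combination (1) * c23
    have u04 : (F 0 : Fin 5 → Fin 5 → K) 0 4 = 0 := by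
      linear_combination (1) * c24
    have u11 : (F 0 : Fin 5 → Fin 5 → K) 1 1 = 0 := by
      linear_combination (1) * c4
    have u12 : (F 0 : Fin 5 → Fin 5 → K) 1 2 = 0 := by
      linear_combination (-1 / 2) * c4 + (-1 / 2) * c5 + (-1 / 2) * c6 + (-1 / 2) * c8 + (-1 / 2) * c9 + (-1 / 2) * c10 + (1 / 2) * c15 + (-1 / 2) * c16 + (-1 / 2) * c17 + (-1 / 2) * c18 + (-1 / 2) * c19 + (-1) * c27 + (-1) * c31 + (1) * c36 + (1) * c37 + (-1) * c41 + (-1) * c42 + (-1 / 2) * c48 + (1 / 2) * c53 + (1 / 2) * c54 + (1 / 2) * c55 + (1 / 2) * c56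
    have u13 : (F 0 : Fin 5 → Fin 5 → K) 1 3 = 0 := by
      linear_combination (1 / 2) * c0 + (1 / 2) * c5 + (1 / 2) * c6 + (1 / 2) * c8 + (1 / 2) * c9 + (1 / 2) * c10 + (-1 / 2) * c15 + (1 / 2) * c16 + (1 / 2) * c17 + (1 / 2) * c18 + (1 / 2) * c19 + (1) * c22 + (1) * c23 + (1) * c27 + (1) * c31 + (-1) * c36 + (-1) * c37 + (1) * c41 + (1) * c42 + (1 / 2) * c45 + (1 / 2) * c48 + (-1 / 2) * c49 + (-1 / 2) * c53 + (-1 / 2) * c54 + (-1 / 2) * c55 + (-1 / 2) * c56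
    have u14 : (F 0 : Fin 5 → Fin 5 → K) 1 4 = 0 := by
      linear_combination (-1 / 2) * c0 + (-1 / 2) * c4 + (-1 / 2) * c16 + (-1) * c21 + (-1) * c24 + (1 / 2) * c57
    have u22 : (F 0 : Fin 5 → Fin 5 → K) 2 2 = 0 := by
      linear_combination (1) * c8
    have u23 : (F 0 : Fin 5 → Fin 5 → K) 2 3 = 0 := by
      linear_combination (-1 / 2) * c0 + (-1 / 2) * c8 + (-1 / 2) * c12 + (-1) * c22 + (-1) * c23 + (1 / 2) * c49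
    have u24 : (F 0 : Fin 5 → Fin 5 → K) 2 4 = 0 := by
      linear_combination (1 / 2) * c0 + (1 / 2) * c4 + (1 / 2) * c5 + (1 / 2) * c6 + (1 / 2) * c9 + (1 / 2) * c10 + (-1 / 2) * c15 + (1 / 2) * c16 + (1 / 2) * c17 + (1 / 2) * c18 + (1 / 2) * c19 + (1) * c21 + (1) * c24 + (1) * c27 + (1) * c31 + (-1) * c36 + (-1) * c37 + (1) * c41 + (1) * c42 + (1 / 2) * c48 + (-1 / 2) * c54 + (-1 / 2) * c55 + (-1 / 2) * c56 + (-1 / 2) * c57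
    have u33 : (F 0 : Fin 5 → Fin 5 → K) 3 3 = 0 := by
      linear_combination (1) * c12
    have u34 : (F 0 : Fin 5 → Fin 5 → K) 3 4 = 0 := by
      linear_combination (-1 / 2) * c0 + (-1 / 2) * c12 + (-1 / 2) * c16 + (-1) * c23 + (-1) * c24 + (1 / 2) * c61
    have u44 : (F 0 : Fin 5 → Fin 5 → K) 4 4 = 0 := by
      linear_combination (1) * c16
    exact zero5 (F 0).2 u00 u01 u02 u03 u04 u11 u12 u13 u14 u22 u23 u24 u33 u34 u44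
  have z1 : (F 1 : Fin 5 → Fin 5 → K) = 0 := by
    have u00 : (F 1 : Fin 5 → Fin 5 → K) 0 0 = 0 := by
      linear_combination (1) * c1
    have u01 : (F 1 : Fin 5 → Fin 5 → K) 0 1 = 0 := by
      linear_combination (1) * c25
    have u02 : (F 1 : Fin 5 → Fin 5 → K) 0 2 = 0 := by
      linear_combination (1 / 2) * c0 + (1 / 2) * c3 + (1 / 2) * c5 + (-1 / 2) * c10 + (1 / 2) * c12 + (1 / 2) * c13 + (1 / 2) * c15 + (1 / 2) * c16 + (1 / 2) * c17 + (1 / 2) * c18 + (1 / 2) * c19 + (1) * c23 + (1) * c27 + (1) * c28 + (-1) * c30 + (-1) * c33 + (1) * c35 + (1) * c40 + (1) * c43 + (-1 / 2) * c46 + (1 / 2) * c50 + (1 / 2) * c51 + (-1 / 2) * c61 + (-1 / 2) * c62 + (-1 / 2) * c63 + (-1 / 2) * c64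
    have u03 : (F 1 : Fin 5 → Fin 5 → K) 0 3 = 0 := by
      linear_combination (-1 / 2) * c0 + (-1 / 2) * c1 + (-1 / 2) * c3 + (1 / 2) * c10 + (-1 / 2) * c12 + (-1 / 2) * c13 + (-1 / 2) * c15 + (-1 / 2) * c16 + (-1 / 2) * c17 + (-1 / 2) * c18 + (-1 / 2) * c19 + (-1) * c23 + (1) * c30 + (1) * c33 + (-1) * c35 + (-1) * c40 + (-1) * c43 + (-1 / 2) * c51 + (1 / 2) * c61 + (1 / 2) * c62 + (1 / 2) * c63 + (1 / 2) * c64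
    have u04 : (F 1 : Fin 5 → Fin 5 → K) 0 4 = 0 := by
      linear_combination (-1 / 2) * c1 + (-1 / 2) * c5 + (-1 / 2) * c17 + (-1) * c25 + (-1) * c29 + (1 / 2) * c58
    have u11 : (F 1 : Fin 5 → Fin 5 → K) 1 1 = 0 := by
      linear_combination (1) * c5
    have u12 : (F 1 : Fin 5 → Fin 5 → K) 1 2 = 0 := by
      linear_combination (1) * c27
    have u13 : (F 1 : Fin 5 → Fin 5 → K) 1 3 = 0 := by
      linear_combination (1) * c28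
    have u14 : (F 1 : Fin 5 → Fin 5 → K) 1 4 = 0 := by
      linear_combination (1) * c29
    have u22 : (F 1 : Fin 5 → Fin 5 → K) 2 2 = 0 := by
      linear_combination (1) * c9
    have u23 : (F 1 : Fin 5 → Fin 5 → K) 2 3 = 0 := by
      linear_combination (-1 / 2) * c5 + (-1 / 2) * c9 + (-1 / 2) * c13 + (-1) * c27 + (-1) * c28 + (1 / 2) * c46
    have u24 : (F 1 : Fin 5 → Fin 5 → K) 2 4 = 0 := by
      linear_combination (-1 / 2) * c5 + (-1 / 2) * c9 + (-1 / 2) * c17 + (-1) * c27 + (-1) * c29 + (1 / 2) * c54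
    have u33 : (F 1 : Fin 5 → Fin 5 → K) 3 3 = 0 := by
      linear_combination (1) * c13
    have u34 : (F 1 : Fin 5 → Fin 5 → K) 3 4 = 0 := by
      linear_combination (1 / 2) * c0 + (1 / 2) * c1 + (1 / 2) * c3 + (1 / 2) * c5 + (-1 / 2) * c10 + (1 / 2) * c12 + (1 / 2) * c15 + (1 / 2) * c16 + (1 / 2) * c17 + (1 / 2) * c18 + (1 / 2) * c19 + (1) * c23 + (1) * c25 + (1) * c29 + (-1) * c30 + (-1) * c33 + (1) * c35 + (1) * c40 + (1) * c43 + (1 / 2) * c51 + (-1 / 2) * c58 + (-1 / 2) * c61 + (-1 / 2) * c63 + (-1 / 2) * c64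
    have u44 : (F 1 : Fin 5 → Fin 5 → K) 4 4 = 0 := by
      linear_combination (1) * c17
    exact zero5 (F 1).2 u00 u01 u02 u03 u04 u11 u12 u13 u14 u22 u23 u24 u33 u34 u44
  have z2 : (F 2 : Fin 5 → Fin 5 → K) = 0 := by
    have u00 : (F 2 : Fin 5 → Fin 5 → K) 0 0 = 0 := by
      linear_combination (1) * c2
    have u01 : (F 2 : Fin 5 → Fin 5 → K) 0 1 = 0 := by
      linear_combination (-1 / 2) * c1 + (-1 / 2) * c2 + (-1 / 2) * c3 + (-1 / 2) * c5 + (1 / 2) * c10 + (-1 / 2) * c15 + (-1 / 2) * c17 + (-1 / 2) * c19 + (1) * c24 + (-1) * c25 + (-1) * c29 + (1) * c31 + (1) * c34 + (-1) * c35 + (-1) * c39 + (-1) * c40 + (-1 / 2) * c55 + (1 / 2) * c58 + (1 / 2) * c59 + (1 / 2) * c64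
    have u02 : (F 2 : Fin 5 → Fin 5 → K) 0 2 = 0 := by
      linear_combination (1) * c30
    have u03 : (F 2 : Fin 5 → Fin 5 → K) 0 3 = 0 := by
      linear_combination (-1 / 2) * c2 + (-1 / 2) * c10 + (-1 / 2) * c14 + (-1) * c30 + (-1) * c33 + (1 / 2) * c51
    have u04 : (F 2 : Fin 5 → Fin 5 → K) 0 4 = 0 := by
      linear_combination (1 / 2) * c1 + (1 / 2) * c3 + (1 / 2) * c5 + (1 / 2) * c15 + (1 / 2) * c17 + (1 / 2) * c19 + (-1) * c24 + (1) * c25 + (1) * c29 + (1) * c35 + (1) * c39 + (1) * c40 + (-1 / 2) * c58 + (-1 / 2) * c64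
    have u11 : (F 2 : Fin 5 → Fin 5 → K) 1 1 = 0 := by
      linear_combination (1) * c6
    have u12 : (F 2 : Fin 5 → Fin 5 → K) 1 2 = 0 := by
      linear_combination (1) * c31
    have u13 : (F 2 : Fin 5 → Fin 5 → K) 1 3 = 0 := by
      linear_combination (-1 / 2) * c6 + (-1 / 2) * c10 + (-1 / 2) * c14 + (-1) * c31 + (-1) * c33 + (1 / 2) * c47
    have u14 : (F 2 : Fin 5 → Fin 5 → K) 1 4 = 0 := by
      linear_combination (-1 / 2) * c6 + (-1 / 2) * c10 + (-1 / 2) * c18 + (-1) * c31 + (-1) * c34 + (1 / 2) * c55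
    have u22 : (F 2 : Fin 5 → Fin 5 → K) 2 2 = 0 := by
      linear_combination (1) * c10
    have u23 : (F 2 : Fin 5 → Fin 5 → K) 2 3 = 0 := by
      linear_combination (1) * c33
    have u24 : (F 2 : Fin 5 → Fin 5 → K) 2 4 = 0 := by
      linear_combination (1) * c34
    have u33 : (F 2 : Fin 5 → Fin 5 → K) 3 3 = 0 := by
      linear_combination (1) * c14
    have u34 : (F 2 : Fin 5 → Fin 5 → K) 3 4 = 0 := by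
      linear_combination (-1 / 2) * c1 + (-1 / 2) * c3 + (-1 / 2) * c5 + (1 / 2) * c10 + (-1 / 2) * c15 + (-1 / 2) * c17 + (-1 / 2) * c18 + (-1 / 2) * c19 + (1) * c24 + (-1) * c25 + (-1) * c29 + (1) * c30 + (1) * c33 + (-1) * c35 + (-1) * c39 + (-1) * c40 + (-1 / 2) * c51 + (1 / 2) * c58 + (1 / 2) * c63 + (1 / 2) * c64
    have u44 : (F 2 : Fin 5 → Fin 5 → K) 4 4 = 0 := by
      linear_combination (1) * c18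
    exact zero5 (F 2).2 u00 u01 u02 u03 u04 u11 u12 u13 u14 u22 u23 u24 u33 u34 u44
  have z3 : (F 3 : Fin 5 → Fin 5 → K) = 0 := by
    have u00 : (F 3 : Fin 5 → Fin 5 → K) 0 0 = 0 := by
      linear_combination (1) * c3
    have u01 : (F 3 : Fin 5 → Fin 5 → K) 0 1 = 0 := by
      linear_combination (-1 / 2) * c0 + (-1 / 2) * c4 + (-1 / 2) * c6 + (-1 / 2) * c7 + (-1 / 2) * c10 + (1 / 2) * c15 + (-1 / 2) * c16 + (-1 / 2) * c18 + (-1) * c21 + (-1) * c24 + (1) * c29 + (-1) * c31 + (-1) * c34 + (1) * c35 + (1) * c39 + (-1) * c41 + (1 / 2) * c55 + (1 / 2) * c57 + (1 / 2) * c60 + (-1 / 2) * c64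
    have u02 : (F 3 : Fin 5 → Fin 5 → K) 0 2 = 0 := by
      linear_combination (-1 / 2) * c3 + (-1 / 2) * c11 + (-1 / 2) * c15 + (-1) * c35 + (-1) * c37 + (1 / 2) * c52
    have u03 : (F 3 : Fin 5 → Fin 5 → K) 0 3 = 0 := by
      linear_combination (1) * c35
    have u04 : (F 3 : Fin 5 → Fin 5 → K) 0 4 = 0 := by
      linear_combination (-1 / 2) * c3 + (-1 / 2) * c15 + (-1 / 2) * c19 + (-1) * c35 + (-1) * c39 + (1 / 2) * c64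
    have u11 : (F 3 : Fin 5 → Fin 5 → K) 1 1 = 0 := by
      linear_combination (1) * c7
    have u12 : (F 3 : Fin 5 → Fin 5 → K) 1 2 = 0 := by
      linear_combination (-1 / 2) * c7 + (-1 / 2) * c11 + (-1 / 2) * c15 + (-1) * c36 + (-1) * c37 + (1 / 2) * c48
    have u13 : (F 3 : Fin 5 → Fin 5 → K) 1 3 = 0 := by
      linear_combination (1) * c36
    have u14 : (F 3 : Fin 5 → Fin 5 → K) 1 4 = 0 := by
      linear_combination (1 / 2) * c0 + (1 / 2) * c4 + (1 / 2) * c6 + (1 / 2) * c10 + (1 / 2) * c16 + (1 / 2) * c18 + (1) * c21 + (1) * c24 + (-1) * c29 + (1) * c31 + (1) * c34 + (1) * c41 + (-1 / 2) * c55 + (-1 / 2) * c57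
    have u22 : (F 3 : Fin 5 → Fin 5 → K) 2 2 = 0 := by
      linear_combination (1) * c11
    have u23 : (F 3 : Fin 5 → Fin 5 → K) 2 3 = 0 := by
      linear_combination (1) * c37
    have u24 : (F 3 : Fin 5 → Fin 5 → K) 2 4 = 0 := by
      linear_combination (-1 / 2) * c0 + (-1 / 2) * c4 + (-1 / 2) * c6 + (-1 / 2) * c10 + (1 / 2) * c15 + (-1 / 2) * c16 + (-1 / 2) * c18 + (-1 / 2) * c19 + (-1) * c21 + (-1) * c24 + (1) * c29 + (-1) * c31 + (-1) * c34 + (1) * c36 + (1) * c37 + (-1) * c41 + (-1 / 2) * c48 + (1 / 2) * c55 + (1 / 2) * c56 + (1 / 2) * c57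
    have u33 : (F 3 : Fin 5 → Fin 5 → K) 3 3 = 0 := by
      linear_combination (1) * c15
    have u34 : (F 3 : Fin 5 → Fin 5 → K) 3 4 = 0 := by
      linear_combination (1) * c39
    have u44 : (F 3 : Fin 5 → Fin 5 → K) 4 4 = 0 := by
      linear_combination (1) * c19
    exact zero5 (F 3).2 u00 u01 u02 u03 u04 u11 u12 u13 u14 u22 u23 u24 u33 u34 u44
  funext j
  apply Subtype.ext
  fin_cases j
  · exact z0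
  · exact z1
  · exact z2
  · exact z3

/-- four forms, seven full points, one simple point -/
theorem s3 : KQ K 5 4 7 1 0 := by
  refine ⟨((![![1, 0, 0, 0, 0], ![0, 1, 0, 0, 0], ![0, 0, 1, 0, 0], ![0, 0, 0, 1, 0], ![0, 0, 0, 0, 1], ![1, 1, 0, 0, 1], ![0, 1, 1, 1, -1]] : Fin 7 → Fin 5 → K),
    (![![1, 0, 0, 0], ![0, 1, 0, 0], ![0, 0, 1, 0], ![0, 0, 0, 1], ![1, 0, 1, 0], ![0, 1, 0, 1], ![1, 1, 0, 0]] : Fin 7 → Fin 4 → K),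
    (![![1, 0, 1, -1, 0]] : Fin 1 → Fin 5 → K)), ?_⟩
  refine (finrank_zero_of fun F hF => ?_).le
  obtain ⟨h1, h2, h3⟩ := mem_ZK.1 hF
  have c0 : (F 0 : Fin 5 → Fin 5 → K) 0 0 = 0 := by
    linear_combination (bf5 (F 0).2 1 0 0 0 0 1 0 0 0 0).symm.trans (h1 0 0)
  have c1 : (F 1 : Fin 5 → Fin 5 → K) 0 0 = 0 := by
    linear_combination (bf5 (F 1).2 1 0 0 0 0 1 0 0 0 0).symm.trans (h1 0 1)
  have c2 : (F 2 : Fin 5 → Fin 5 → K) 0 0 = 0 := by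
    linear_combination (bf5 (F 2).2 1 0 0 0 0 1 0 0 0 0).symm.trans (h1 0 2)
  have c3 : (F 3 : Fin 5 → Fin 5 → K) 0 0 = 0 := by
    linear_combination (bf5 (F 3).2 1 0 0 0 0 1 0 0 0 0).symm.trans (h1 0 3)
  have c4 : (F 0 : Fin 5 → Fin 5 → K) 1 1 = 0 := by
    linear_combination (bf5 (F 0).2 0 1 0 0 0 0 1 0 0 0).symm.trans (h1 1 0)
  have c5 : (F 1 : Fin 5 → Fin 5 → K) 1 1 = 0 := by
    linear_combination (bf5 (F 1).2 0 1 0 0 0 0 1 0 0 0).symm.trans (h1 1 1)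
  have c6 : (F 2 : Fin 5 → Fin 5 → K) 1 1 = 0 := by
    linear_combination (bf5 (F 2).2 0 1 0 0 0 0 1 0 0 0).symm.trans (h1 1 2)
  have c7 : (F 3 : Fin 5 → Fin 5 → K) 1 1 = 0 := by
    linear_combination (bf5 (F 3).2 0 1 0 0 0 0 1 0 0 0).symm.trans (h1 1 3)
  have c8 : (F 0 : Fin 5 → Fin 5 → K) 2 2 = 0 := by
    linear_combination (bf5 (F 0).2 0 0 1 0 0 0 0 1 0 0).symm.trans (h1 2 0)
  have c9 : (F 1 : Fin 5 → Fin 5 → K) 2 2 = 0 := by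
    linear_combination (bf5 (F 1).2 0 0 1 0 0 0 0 1 0 0).symm.trans (h1 2 1)
  have c10 : (F 2 : Fin 5 → Fin 5 → K) 2 2 = 0 := by
    linear_combination (bf5 (F 2).2 0 0 1 0 0 0 0 1 0 0).symm.trans (h1 2 2)
  have c11 : (F 3 : Fin 5 → Fin 5 → K) 2 2 = 0 := by
    linear_combination (bf5 (F 3).2 0 0 1 0 0 0 0 1 0 0).symm.trans (h1 2 3)
  have c12 : (F 0 : Fin 5 → Fin 5 → K) 3 3 = 0 := by
    linear_combination (bf5 (F 0).2 0 0 0 1 0 0 0 0 1 0).symm.trans (h1 3 0)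
  have c13 : (F 1 : Fin 5 → Fin 5 → K) 3 3 = 0 := by
    linear_combination (bf5 (F 1).2 0 0 0 1 0 0 0 0 1 0).symm.trans (h1 3 1)
  have c14 : (F 2 : Fin 5 → Fin 5 → K) 3 3 = 0 := by
    linear_combination (bf5 (F 2).2 0 0 0 1 0 0 0 0 1 0).symm.trans (h1 3 2)
  have c15 : (F 3 : Fin 5 → Fin 5 → K) 3 3 = 0 := by
    linear_combination (bf5 (F 3).2 0 0 0 1 0 0 0 0 1 0).symm.trans (h1 3 3)
  have c16 : (F 0 : Fin 5 → Fin 5 → K) 4 4 = 0 := by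
    linear_combination (bf5 (F 0).2 0 0 0 0 1 0 0 0 0 1).symm.trans (h1 4 0)
  have c17 : (F 1 : Fin 5 → Fin 5 → K) 4 4 = 0 := by
    linear_combination (bf5 (F 1).2 0 0 0 0 1 0 0 0 0 1).symm.trans (h1 4 1)
  have c18 : (F 2 : Fin 5 → Fin 5 → K) 4 4 = 0 := by
    linear_combination (bf5 (F 2).2 0 0 0 0 1 0 0 0 0 1).symm.trans (h1 4 2)
  have c19 : (F 3 : Fin 5 → Fin 5 → K) 4 4 = 0 := by
    linear_combination (bf5 (F 3).2 0 0 0 0 1 0 0 0 0 1).symm.trans (h1 4 3)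
  have c20 : (F 0 : Fin 5 → Fin 5 → K) 0 0 + (2) * (F 0 : Fin 5 → Fin 5 → K) 0 1 + (2) * (F 0 : Fin 5 → Fin 5 → K) 0 4 + (F 0 : Fin 5 → Fin 5 → K) 1 1 + (2) * (F 0 : Fin 5 → Fin 5 → K) 1 4 + (F 0 : Fin 5 → Fin 5 → K) 4 4 = 0 := by
    linear_combination (bf5 (F 0).2 1 1 0 0 1 1 1 0 0 1).symm.trans (h1 5 0)
  have c21 : (F 1 : Fin 5 → Fin 5 → K) 0 0 + (2) * (F 1 : Fin 5 → Fin 5 → K) 0 1 + (2) * (F 1 : Fin 5 → Fin 5 → K) 0 4 + (F 1 : Fin 5 → Fin 5 → K) 1 1 + (2) * (F 1 : Fin 5 → Fin 5 → K) 1 4 + (F 1 : Fin 5 → Fin 5 → K) 4 4 = 0 := by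
    linear_combination (bf5 (F 1).2 1 1 0 0 1 1 1 0 0 1).symm.trans (h1 5 1)
  have c22 : (F 2 : Fin 5 → Fin 5 → K) 0 0 + (2) * (F 2 : Fin 5 → Fin 5 → K) 0 1 + (2) * (F 2 : Fin 5 → Fin 5 → K) 0 4 + (F 2 : Fin 5 → Fin 5 → K) 1 1 + (2) * (F 2 : Fin 5 → Fin 5 → K) 1 4 + (F 2 : Fin 5 → Fin 5 → K) 4 4 = 0 := by
    linear_combination (bf5 (F 2).2 1 1 0 0 1 1 1 0 0 1).symm.trans (h1 5 2)
  have c23 : (F 3 : Fin 5 → Fin 5 → K) 0 0 + (2) * (F 3 : Fin 5 → Fin 5 → K) 0 1 + (2) * (F 3 : Fin 5 → Fin 5 → K) 0 4 + (F 3 : Fin 5 → Fin 5 → K) 1 1 + (2) * (F 3 : Fin 5 → Fin 5 → K) 1 4 + (F 3 : Fin 5 → Fin 5 → K) 4 4 = 0 := by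
    linear_combination (bf5 (F 3).2 1 1 0 0 1 1 1 0 0 1).symm.trans (h1 5 3)
  have c24 : (F 0 : Fin 5 → Fin 5 → K) 1 1 + (2) * (F 0 : Fin 5 → Fin 5 → K) 1 2 + (2) * (F 0 : Fin 5 → Fin 5 → K) 1 3 + (-2) * (F 0 : Fin 5 → Fin 5 → K) 1 4 + (F 0 : Fin 5 → Fin 5 → K) 2 2 + (2) * (F 0 : Fin 5 → Fin 5 → K) 2 3 + (-2) * (F 0 : Fin 5 → Fin 5 → K) 2 4 + (F 0 : Fin 5 → Fin 5 → K) 3 3 + (-2) * (F 0 : Fin 5 → Fin 5 → K) 3 4 + (F 0 : Fin 5 → Fin 5 → K) 4 4 = 0 := by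
    linear_combination (bf5 (F 0).2 0 1 1 1 (-1) 0 1 1 1 (-1)).symm.trans (h1 6 0)
  have c26 : (F 2 : Fin 5 → Fin 5 → K) 1 1 + (2) * (F 2 : Fin 5 → Fin 5 → K) 1 2 + (2) * (F 2 : Fin 5 → Fin 5 → K) 1 3 + (-2) * (F 2 : Fin 5 → Fin 5 → K) 1 4 + (F 2 : Fin 5 → Fin 5 → K) 2 2 + (2) * (F 2 : Fin 5 → Fin 5 → K) 2 3 + (-2) * (F 2 : Fin 5 → Fin 5 → K) 2 4 + (F 2 : Fin 5 → Fin 5 → K) 3 3 + (-2) * (F 2 : Fin 5 → Fin 5 → K) 3 4 + (F 2 : Fin 5 → Fin 5 → K) 4 4 = 0 := by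
    linear_combination (bf5 (F 2).2 0 1 1 1 (-1) 0 1 1 1 (-1)).symm.trans (h1 6 2)
  have c27 : (F 3 : Fin 5 → Fin 5 → K) 1 1 + (2) * (F 3 : Fin 5 → Fin 5 → K) 1 2 + (2) * (F 3 : Fin 5 → Fin 5 → K) 1 3 + (-2) * (F 3 : Fin 5 → Fin 5 → K) 1 4 + (F 3 : Fin 5 → Fin 5 → K) 2 2 + (2) * (F 3 : Fin 5 → Fin 5 → K) 2 3 + (-2) * (F 3 : Fin 5 → Fin 5 → K) 2 4 + (F 3 : Fin 5 → Fin 5 → K) 3 3 + (-2) * (F 3 : Fin 5 → Fin 5 → K) 3 4 + (F 3 : Fin 5 → Fin 5 → K) 4 4 = 0 := by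
    linear_combination (bf5 (F 3).2 0 1 1 1 (-1) 0 1 1 1 (-1)).symm.trans (h1 6 3)
  have c29 : (F 0 : Fin 5 → Fin 5 → K) 0 1 = 0 := by
    have c : 1 * bf (F 0 : Fin 5 → Fin 5 → K) ![1, 0, 0, 0, 0] ![0, 1, 0, 0, 0] + 0 * bf (F 1 : Fin 5 → Fin 5 → K) ![1, 0, 0, 0, 0] ![0, 1, 0, 0, 0] + 0 * bf (F 2 : Fin 5 → Fin 5 → K) ![1, 0, 0, 0, 0] ![0, 1, 0, 0, 0] + 0 * bf (F 3 : Fin 5 → Fin 5 → K) ![1, 0, 0, 0, 0] ![0, 1, 0, 0, 0] = 0 :=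
      (Fin.sum_univ_four _).symm.trans (h2 0 ![0, 1, 0, 0, 0])
    rw [bf5 (F 0).2, bf5 (F 1).2, bf5 (F 2).2, bf5 (F 3).2] at c
    linear_combination c
  have c30 : (F 0 : Fin 5 → Fin 5 → K) 0 2 = 0 := by
    have c : 1 * bf (F 0 : Fin 5 → Fin 5 → K) ![1, 0, 0, 0, 0] ![0, 0, 1, 0, 0] + 0 * bf (F 1 : Fin 5 → Fin 5 → K) ![1, 0, 0, 0, 0] ![0, 0, 1, 0, 0] + 0 * bf (F 2 : Fin 5 → Fin 5 → K) ![1, 0, 0, 0, 0] ![0, 0, 1, 0, 0] + 0 * bf (F 3 : Fin 5 → Fin 5 → K) ![1, 0, 0, 0, 0] ![0, 0, 1, 0, 0] = 0 :=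
      (Fin.sum_univ_four _).symm.trans (h2 0 ![0, 0, 1, 0, 0])
    rw [bf5 (F 0).2, bf5 (F 1).2, bf5 (F 2).2, bf5 (F 3).2] at c
    linear_combination c
  have c31 : (F 0 : Fin 5 → Fin 5 → K) 0 3 = 0 := by
    have c : 1 * bf (F 0 : Fin 5 → Fin 5 → K) ![1, 0, 0, 0, 0] ![0, 0, 0, 1, 0] + 0 * bf (F 1 : Fin 5 → Fin 5 → K) ![1, 0, 0, 0, 0] ![0, 0, 0, 1, 0] + 0 * bf (F 2 : Fin 5 → Fin 5 → K) ![1, 0, 0, 0, 0] ![0, 0, 0, 1, 0] + 0 * bf (F 3 : Fin 5 → Fin 5 → K) ![1, 0, 0, 0, 0] ![0, 0, 0, 1, 0] = 0 :=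
      (Fin.sum_univ_four _).symm.trans (h2 0 ![0, 0, 0, 1, 0])
    rw [bf5 (F 0).2, bf5 (F 1).2, bf5 (F 2).2, bf5 (F 3).2] at c
    linear_combination c
  have c32 : (F 0 : Fin 5 → Fin 5 → K) 0 4 = 0 := by
    have c : 1 * bf (F 0 : Fin 5 → Fin 5 → K) ![1, 0, 0, 0, 0] ![0, 0, 0, 0, 1] + 0 * bf (F 1 : Fin 5 → Fin 5 → K) ![1, 0, 0, 0, 0] ![0, 0, 0, 0, 1] + 0 * bf (F 2 : Fin 5 → Fin 5 → K) ![1, 0, 0, 0, 0] ![0, 0, 0, 0, 1] + 0 * bf (F 3 : Fin 5 → Fin 5 → K) ![1, 0, 0, 0, 0] ![0, 0, 0, 0, 1] = 0 :=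
      (Fin.sum_univ_four _).symm.trans (h2 0 ![0, 0, 0, 0, 1])
    rw [bf5 (F 0).2, bf5 (F 1).2, bf5 (F 2).2, bf5 (F 3).2] at c
    linear_combination c
  have c33 : (F 1 : Fin 5 → Fin 5 → K) 0 1 = 0 := by
    have c : 0 * bf (F 0 : Fin 5 → Fin 5 → K) ![0, 1, 0, 0, 0] ![1, 0, 0, 0, 0] + 1 * bf (F 1 : Fin 5 → Fin 5 → K) ![0, 1, 0, 0, 0] ![1, 0, 0, 0, 0] + 0 * bf (F 2 : Fin 5 → Fin 5 → K) ![0, 1, 0, 0, 0] ![1, 0, 0, 0, 0] + 0 * bf (F 3 : Fin 5 → Fin 5 → K) ![0, 1, 0, 0, 0] ![1, 0, 0, 0, 0] = 0 :=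
      (Fin.sum_univ_four _).symm.trans (h2 1 ![1, 0, 0, 0, 0])
    rw [bf5 (F 0).2, bf5 (F 1).2, bf5 (F 2).2, bf5 (F 3).2] at c
    linear_combination c
  have c35 : (F 1 : Fin 5 → Fin 5 → K) 1 2 = 0 := by
    have c : 0 * bf (F 0 : Fin 5 → Fin 5 → K) ![0, 1, 0, 0, 0] ![0, 0, 1, 0, 0] + 1 * bf (F 1 : Fin 5 → Fin 5 → K) ![0, 1, 0, 0, 0] ![0, 0, 1, 0, 0] + 0 * bf (F 2 : Fin 5 → Fin 5 → K) ![0, 1, 0, 0, 0] ![0, 0, 1, 0, 0] + 0 * bf (F 3 : Fin 5 → Fin 5 → K) ![0, 1, 0, 0, 0] ![0, 0, 1, 0, 0] = 0 :=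
      (Fin.sum_univ_four _).symm.trans (h2 1 ![0, 0, 1, 0, 0])
    rw [bf5 (F 0).2, bf5 (F 1).2, bf5 (F 2).2, bf5 (F 3).2] at c
    linear_combination c
  have c36 : (F 1 : Fin 5 → Fin 5 → K) 1 3 = 0 := by
    have c : 0 * bf (F 0 : Fin 5 → Fin 5 → K) ![0, 1, 0, 0, 0] ![0, 0, 0, 1, 0] + 1 * bf (F 1 : Fin 5 → Fin 5 → K) ![0, 1, 0, 0, 0] ![0, 0, 0, 1, 0] + 0 * bf (F 2 : Fin 5 → Fin 5 → K) ![0, 1, 0, 0, 0] ![0, 0, 0, 1, 0] + 0 * bf (F 3 : Fin 5 → Fin 5 → K) ![0, 1, 0, 0, 0] ![0, 0, 0, 1, 0] = 0 :=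
      (Fin.sum_univ_four _).symm.trans (h2 1 ![0, 0, 0, 1, 0])
    rw [bf5 (F 0).2, bf5 (F 1).2, bf5 (F 2).2, bf5 (F 3).2] at c
    linear_combination c
  have c37 : (F 1 : Fin 5 → Fin 5 → K) 1 4 = 0 := by
    have c : 0 * bf (F 0 : Fin 5 → Fin 5 → K) ![0, 1, 0, 0, 0] ![0, 0, 0, 0, 1] + 1 * bf (F 1 : Fin 5 → Fin 5 → K) ![0, 1, 0, 0, 0] ![0, 0, 0, 0, 1] + 0 * bf (F 2 : Fin 5 → Fin 5 → K) ![0, 1, 0, 0, 0] ![0, 0, 0, 0, 1] + 0 * bf (F 3 : Fin 5 → Fin 5 → K) ![0, 1, 0, 0, 0] ![0, 0, 0, 0, 1] = 0 :=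
      (Fin.sum_univ_four _).symm.trans (h2 1 ![0, 0, 0, 0, 1])
    rw [bf5 (F 0).2, bf5 (F 1).2, bf5 (F 2).2, bf5 (F 3).2] at c
    linear_combination c
  have c38 : (F 2 : Fin 5 → Fin 5 → K) 0 2 = 0 := by
    have c : 0 * bf (F 0 : Fin 5 → Fin 5 → K) ![0, 0, 1, 0, 0] ![1, 0, 0, 0, 0] + 0 * bf (F 1 : Fin 5 → Fin 5 → K) ![0, 0, 1, 0, 0] ![1, 0, 0, 0, 0] + 1 * bf (F 2 : Fin 5 → Fin 5 → K) ![0, 0, 1, 0, 0] ![1, 0, 0, 0, 0] + 0 * bf (F 3 : Fin 5 → Fin 5 → K) ![0, 0, 1, 0, 0] ![1, 0, 0, 0, 0] = 0 :=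
      (Fin.sum_univ_four _).symm.trans (h2 2 ![1, 0, 0, 0, 0])
    rw [bf5 (F 0).2, bf5 (F 1).2, bf5 (F 2).2, bf5 (F 3).2] at c
    linear_combination c
  have c39 : (F 2 : Fin 5 → Fin 5 → K) 1 2 = 0 := by
    have c : 0 * bf (F 0 : Fin 5 → Fin 5 → K) ![0, 0, 1, 0, 0] ![0, 1, 0, 0, 0] + 0 * bf (F 1 : Fin 5 → Fin 5 → K) ![0, 0, 1, 0, 0] ![0, 1, 0, 0, 0] + 1 * bf (F 2 : Fin 5 → Fin 5 → K) ![0, 0, 1, 0, 0] ![0, 1, 0, 0, 0] + 0 * bf (F 3 : Fin 5 → Fin 5 → K) ![0, 0, 1, 0, 0] ![0, 1, 0, 0, 0] = 0 :=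
      (Fin.sum_univ_four _).symm.trans (h2 2 ![0, 1, 0, 0, 0])
    rw [bf5 (F 0).2, bf5 (F 1).2, bf5 (F 2).2, bf5 (F 3).2] at c
    linear_combination c
  have c41 : (F 2 : Fin 5 → Fin 5 → K) 2 3 = 0 := by
    have c : 0 * bf (F 0 : Fin 5 → Fin 5 → K) ![0, 0, 1, 0, 0] ![0, 0, 0, 1, 0] + 0 * bf (F 1 : Fin 5 → Fin 5 → K) ![0, 0, 1, 0, 0] ![0, 0, 0, 1, 0] + 1 * bf (F 2 : Fin 5 → Fin 5 → K) ![0, 0, 1, 0, 0] ![0, 0, 0, 1, 0] + 0 * bf (F 3 : Fin 5 → Fin 5 → K) ![0, 0, 1, 0, 0] ![0, 0, 0, 1, 0] = 0 :=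
      (Fin.sum_univ_four _).symm.trans (h2 2 ![0, 0, 0, 1, 0])
    rw [bf5 (F 0).2, bf5 (F 1).2, bf5 (F 2).2, bf5 (F 3).2] at c
    linear_combination c
  have c42 : (F 2 : Fin 5 → Fin 5 → K) 2 4 = 0 := by
    have c : 0 * bf (F 0 : Fin 5 → Fin 5 → K) ![0, 0, 1, 0, 0] ![0, 0, 0, 0, 1] + 0 * bf (F 1 : Fin 5 → Fin 5 → K) ![0, 0, 1, 0, 0] ![0, 0, 0, 0, 1] + 1 * bf (F 2 : Fin 5 → Fin 5 → K) ![0, 0, 1, 0, 0] ![0, 0, 0, 0, 1] + 0 * bf (F 3 : Fin 5 → Fin 5 → K) ![0, 0, 1, 0, 0] ![0, 0, 0, 0, 1] = 0 :=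
      (Fin.sum_univ_four _).symm.trans (h2 2 ![0, 0, 0, 0, 1])
    rw [bf5 (F 0).2, bf5 (F 1).2, bf5 (F 2).2, bf5 (F 3).2] at c
    linear_combination c
  have c43 : (F 3 : Fin 5 → Fin 5 → K) 0 3 = 0 := by
    have c : 0 * bf (F 0 : Fin 5 → Fin 5 → K) ![0, 0, 0, 1, 0] ![1, 0, 0, 0, 0] + 0 * bf (F 1 : Fin 5 → Fin 5 → K) ![0, 0, 0, 1, 0] ![1, 0, 0, 0, 0] + 0 * bf (F 2 : Fin 5 → Fin 5 → K) ![0, 0, 0, 1, 0] ![1, 0, 0, 0, 0] + 1 * bf (F 3 : Fin 5 → Fin 5 → K) ![0, 0, 0, 1, 0] ![1, 0, 0, 0, 0] = 0 :=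
      (Fin.sum_univ_four _).symm.trans (h2 3 ![1, 0, 0, 0, 0])
    rw [bf5 (F 0).2, bf5 (F 1).2, bf5 (F 2).2, bf5 (F 3).2] at c
    linear_combination c
  have c44 : (F 3 : Fin 5 → Fin 5 → K) 1 3 = 0 := by
    have c : 0 * bf (F 0 : Fin 5 → Fin 5 → K) ![0, 0, 0, 1, 0] ![0, 1, 0, 0, 0] + 0 * bf (F 1 : Fin 5 → Fin 5 → K) ![0, 0, 0, 1, 0] ![0, 1, 0, 0, 0] + 0 * bf (F 2 : Fin 5 → Fin 5 → K) ![0, 0, 0, 1, 0] ![0, 1, 0, 0, 0] + 1 * bf (F 3 : Fin 5 → Fin 5 → K) ![0, 0, 0, 1, 0] ![0, 1, 0, 0, 0] = 0 :=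
      (Fin.sum_univ_four _).symm.trans (h2 3 ![0, 1, 0, 0, 0])
    rw [bf5 (F 0).2, bf5 (F 1).2, bf5 (F 2).2, bf5 (F 3).2] at c
    linear_combination c
  have c45 : (F 3 : Fin 5 → Fin 5 → K) 2 3 = 0 := by
    have c : 0 * bf (F 0 : Fin 5 → Fin 5 → K) ![0, 0, 0, 1, 0] ![0, 0, 1, 0, 0] + 0 * bf (F 1 : Fin 5 → Fin 5 → K) ![0, 0, 0, 1, 0] ![0, 0, 1, 0, 0] + 0 * bf (F 2 : Fin 5 → Fin 5 → K) ![0, 0, 0, 1, 0] ![0, 0, 1, 0, 0] + 1 * bf (F 3 : Fin 5 → Fin 5 → K) ![0, 0, 0, 1, 0] ![0, 0, 1, 0, 0] = 0 :=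
      (Fin.sum_univ_four _).symm.trans (h2 3 ![0, 0, 1, 0, 0])
    rw [bf5 (F 0).2, bf5 (F 1).2, bf5 (F 2).2, bf5 (F 3).2] at c
    linear_combination c
  have c47 : (F 3 : Fin 5 → Fin 5 → K) 3 4 = 0 := by
    have c : 0 * bf (F 0 : Fin 5 → Fin 5 → K) ![0, 0, 0, 1, 0] ![0, 0, 0, 0, 1] + 0 * bf (F 1 : Fin 5 → Fin 5 → K) ![0, 0, 0, 1, 0] ![0, 0, 0, 0, 1] + 0 * bf (F 2 : Fin 5 → Fin 5 → K) ![0, 0, 0, 1, 0] ![0, 0, 0, 0, 1] + 1 * bf (F 3 : Fin 5 → Fin 5 → K) ![0, 0, 0, 1, 0] ![0, 0, 0, 0, 1] = 0 :=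
      (Fin.sum_univ_four _).symm.trans (h2 3 ![0, 0, 0, 0, 1])
    rw [bf5 (F 0).2, bf5 (F 1).2, bf5 (F 2).2, bf5 (F 3).2] at c
    linear_combination c
  have c48 : (F 0 : Fin 5 → Fin 5 → K) 0 4 + (F 2 : Fin 5 → Fin 5 → K) 0 4 = 0 := by
    have c : 1 * bf (F 0 : Fin 5 → Fin 5 → K) ![0, 0, 0, 0, 1] ![1, 0, 0, 0, 0] + 0 * bf (F 1 : Fin 5 → Fin 5 → K) ![0, 0, 0, 0, 1] ![1, 0, 0, 0, 0] + 1 * bf (F 2 : Fin 5 → Fin 5 → K) ![0, 0, 0, 0, 1] ![1, 0, 0, 0, 0] + 0 * bf (F 3 : Fin 5 → Fin 5 → K) ![0, 0, 0, 0, 1] ![1, 0, 0, 0, 0] = 0 :=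
      (Fin.sum_univ_four _).symm.trans (h2 4 ![1, 0, 0, 0, 0])
    rw [bf5 (F 0).2, bf5 (F 1).2, bf5 (F 2).2, bf5 (F 3).2] at c
    linear_combination c
  have c49 : (F 0 : Fin 5 → Fin 5 → K) 1 4 + (F 2 : Fin 5 → Fin 5 → K) 1 4 = 0 := by
    have c : 1 * bf (F 0 : Fin 5 → Fin 5 → K) ![0, 0, 0, 0, 1] ![0, 1, 0, 0, 0] + 0 * bf (F 1 : Fin 5 → Fin 5 → K) ![0, 0, 0, 0, 1] ![0, 1, 0, 0, 0] + 1 * bf (F 2 : Fin 5 → Fin 5 → K) ![0, 0, 0, 0, 1] ![0, 1, 0, 0, 0] + 0 * bf (F 3 : Fin 5 → Fin 5 → K) ![0, 0, 0, 0, 1] ![0, 1, 0, 0, 0] = 0 :=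
      (Fin.sum_univ_four _).symm.trans (h2 4 ![0, 1, 0, 0, 0])
    rw [bf5 (F 0).2, bf5 (F 1).2, bf5 (F 2).2, bf5 (F 3).2] at c
    linear_combination c
  have c50 : (F 0 : Fin 5 → Fin 5 → K) 2 4 + (F 2 : Fin 5 → Fin 5 → K) 2 4 = 0 := by
    have c : 1 * bf (F 0 : Fin 5 → Fin 5 → K) ![0, 0, 0, 0, 1] ![0, 0, 1, 0, 0] + 0 * bf (F 1 : Fin 5 → Fin 5 → K) ![0, 0, 0, 0, 1] ![0, 0, 1, 0, 0] + 1 * bf (F 2 : Fin 5 → Fin 5 → K) ![0, 0, 0, 0, 1] ![0, 0, 1, 0, 0] + 0 * bf (F 3 : Fin 5 → Fin 5 → K) ![0, 0, 0, 0, 1] ![0, 0, 1, 0, 0] = 0 :=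
      (Fin.sum_univ_four _).symm.trans (h2 4 ![0, 0, 1, 0, 0])
    rw [bf5 (F 0).2, bf5 (F 1).2, bf5 (F 2).2, bf5 (F 3).2] at c
    linear_combination c
  have c51 : (F 0 : Fin 5 → Fin 5 → K) 3 4 + (F 2 : Fin 5 → Fin 5 → K) 3 4 = 0 := by
    have c : 1 * bf (F 0 : Fin 5 → Fin 5 → K) ![0, 0, 0, 0, 1] ![0, 0, 0, 1, 0] + 0 * bf (F 1 : Fin 5 → Fin 5 → K) ![0, 0, 0, 0, 1] ![0, 0, 0, 1, 0] + 1 * bf (F 2 : Fin 5 → Fin 5 → K) ![0, 0, 0, 0, 1] ![0, 0, 0, 1, 0] + 0 * bf (F 3 : Fin 5 → Fin 5 → K) ![0, 0, 0, 0, 1] ![0, 0, 0, 1, 0] = 0 :=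
      (Fin.sum_univ_four _).symm.trans (h2 4 ![0, 0, 0, 1, 0])
    rw [bf5 (F 0).2, bf5 (F 1).2, bf5 (F 2).2, bf5 (F 3).2] at c
    linear_combination c
  have c53 : (F 1 : Fin 5 → Fin 5 → K) 0 0 + (F 1 : Fin 5 → Fin 5 → K) 0 1 + (F 1 : Fin 5 → Fin 5 → K) 0 4 + (F 3 : Fin 5 → Fin 5 → K) 0 0 + (F 3 : Fin 5 → Fin 5 → K) 0 1 + (F 3 : Fin 5 → Fin 5 → K) 0 4 = 0 := by
    have c : 0 * bf (F 0 : Fin 5 → Fin 5 → K) ![1, 1, 0, 0, 1] ![1, 0, 0, 0, 0] + 1 * bf (F 1 : Fin 5 → Fin 5 → K) ![1, 1, 0, 0, 1] ![1, 0, 0, 0, 0] + 0 * bf (F 2 : Fin 5 → Fin 5 → K) ![1, 1, 0, 0, 1] ![1, 0, 0, 0, 0] + 1 * bf (F 3 : Fin 5 → Fin 5 → K) ![1, 1, 0, 0, 1] ![1, 0, 0, 0, 0] = 0 :=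
      (Fin.sum_univ_four _).symm.trans (h2 5 ![1, 0, 0, 0, 0])
    rw [bf5 (F 0).2, bf5 (F 1).2, bf5 (F 2).2, bf5 (F 3).2] at c
    linear_combination c
  have c54 : (F 1 : Fin 5 → Fin 5 → K) 0 1 + (F 1 : Fin 5 → Fin 5 → K) 1 1 + (F 1 : Fin 5 → Fin 5 → K) 1 4 + (F 3 : Fin 5 → Fin 5 → K) 0 1 + (F 3 : Fin 5 → Fin 5 → K) 1 1 + (F 3 : Fin 5 → Fin 5 → K) 1 4 = 0 := by
    have c : 0 * bf (F 0 : Fin 5 → Fin 5 → K) ![1, 1, 0, 0, 1] ![0, 1, 0, 0, 0] + 1 * bf (F 1 : Fin 5 → Fin 5 → K) ![1, 1, 0, 0, 1] ![0, 1, 0, 0, 0] + 0 * bf (F 2 : Fin 5 → Fin 5 → K) ![1, 1, 0, 0, 1] ![0, 1, 0, 0, 0] + 1 * bf (F 3 : Fin 5 → Fin 5 → K) ![1, 1, 0, 0, 1] ![0, 1, 0, 0, 0] = 0 :=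
      (Fin.sum_univ_four _).symm.trans (h2 5 ![0, 1, 0, 0, 0])
    rw [bf5 (F 0).2, bf5 (F 1).2, bf5 (F 2).2, bf5 (F 3).2] at c
    linear_combination c
  have c55 : (F 1 : Fin 5 → Fin 5 → K) 0 2 + (F 1 : Fin 5 → Fin 5 → K) 1 2 + (F 1 : Fin 5 → Fin 5 → K) 2 4 + (F 3 : Fin 5 → Fin 5 → K) 0 2 + (F 3 : Fin 5 → Fin 5 → K) 1 2 + (F 3 : Fin 5 → Fin 5 → K) 2 4 = 0 := by
    have c : 0 * bf (F 0 : Fin 5 → Fin 5 → K) ![1, 1, 0, 0, 1] ![0, 0, 1, 0, 0] + 1 * bf (F 1 : Fin 5 → Fin 5 → K) ![1, 1, 0, 0, 1] ![0, 0, 1, 0, 0] + 0 * bf (F 2 : Fin 5 → Fin 5 → K) ![1, 1, 0, 0, 1] ![0, 0, 1, 0, 0] + 1 * bf (F 3 : Fin 5 → Fin 5 → K) ![1, 1, 0, 0, 1] ![0, 0, 1, 0, 0] = 0 :=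
      (Fin.sum_univ_four _).symm.trans (h2 5 ![0, 0, 1, 0, 0])
    rw [bf5 (F 0).2, bf5 (F 1).2, bf5 (F 2).2, bf5 (F 3).2] at c
    linear_combination c
  have c56 : (F 1 : Fin 5 → Fin 5 → K) 0 3 + (F 1 : Fin 5 → Fin 5 → K) 1 3 + (F 1 : Fin 5 → Fin 5 → K) 3 4 + (F 3 : Fin 5 → Fin 5 → K) 0 3 + (F 3 : Fin 5 → Fin 5 → K) 1 3 + (F 3 : Fin 5 → Fin 5 → K) 3 4 = 0 := by
    have c : 0 * bf (F 0 : Fin 5 → Fin 5 → K) ![1, 1, 0, 0, 1] ![0, 0, 0, 1, 0] + 1 * bf (F 1 : Fin 5 → Fin 5 → K) ![1, 1, 0, 0, 1] ![0, 0, 0, 1, 0] + 0 * bf (F 2 : Fin 5 → Fin 5 → K) ![1, 1, 0, 0, 1] ![0, 0, 0, 1, 0] + 1 * bf (F 3 : Fin 5 → Fin 5 → K) ![1, 1, 0, 0, 1] ![0, 0, 0, 1, 0] = 0 :=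
      (Fin.sum_univ_four _).symm.trans (h2 5 ![0, 0, 0, 1, 0])
    rw [bf5 (F 0).2, bf5 (F 1).2, bf5 (F 2).2, bf5 (F 3).2] at c
    linear_combination c
  have c58 : (F 0 : Fin 5 → Fin 5 → K) 0 1 + (F 0 : Fin 5 → Fin 5 → K) 0 2 + (F 0 : Fin 5 → Fin 5 → K) 0 3 + (-1) * (F 0 : Fin 5 → Fin 5 → K) 0 4 + (F 1 : Fin 5 → Fin 5 → K) 0 1 + (F 1 : Fin 5 → Fin 5 → K) 0 2 + (F 1 : Fin 5 → Fin 5 → K) 0 3 + (-1) * (F 1 : Fin 5 → Fin 5 → K) 0 4 = 0 := by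
    have c : 1 * bf (F 0 : Fin 5 → Fin 5 → K) ![0, 1, 1, 1, -1] ![1, 0, 0, 0, 0] + 1 * bf (F 1 : Fin 5 → Fin 5 → K) ![0, 1, 1, 1, -1] ![1, 0, 0, 0, 0] + 0 * bf (F 2 : Fin 5 → Fin 5 → K) ![0, 1, 1, 1, -1] ![1, 0, 0, 0, 0] + 0 * bf (F 3 : Fin 5 → Fin 5 → K) ![0, 1, 1, 1, -1] ![1, 0, 0, 0, 0] = 0 :=
      (Fin.sum_univ_four _).symm.trans (h2 6 ![1, 0, 0, 0, 0])
    rw [bf5 (F 0).2, bf5 (F 1).2, bf5 (F 2).2, bf5 (F 3).2] at c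
    linear_combination c
  have c59 : (F 0 : Fin 5 → Fin 5 → K) 1 1 + (F 0 : Fin 5 → Fin 5 → K) 1 2 + (F 0 : Fin 5 → Fin 5 → K) 1 3 + (-1) * (F 0 : Fin 5 → Fin 5 → K) 1 4 + (F 1 : Fin 5 → Fin 5 → K) 1 1 + (F 1 : Fin 5 → Fin 5 → K) 1 2 + (F 1 : Fin 5 → Fin 5 → K) 1 3 + (-1) * (F 1 : Fin 5 → Fin 5 → K) 1 4 = 0 := by
    have c : 1 * bf (F 0 : Fin 5 → Fin 5 → K) ![0, 1, 1, 1, -1] ![0, 1, 0, 0, 0] + 1 * bf (F 1 : Fin 5 → Fin 5 → K) ![0, 1, 1, 1, -1] ![0, 1, 0, 0, 0] + 0 * bf (F 2 : Fin 5 → Fin 5 → K) ![0, 1, 1, 1, -1] ![0, 1, 0, 0, 0] + 0 * bf (F 3 : Fin 5 → Fin 5 → K) ![0, 1, 1, 1, -1] ![0, 1, 0, 0, 0] = 0 :=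
      (Fin.sum_univ_four _).symm.trans (h2 6 ![0, 1, 0, 0, 0])
    rw [bf5 (F 0).2, bf5 (F 1).2, bf5 (F 2).2, bf5 (F 3).2] at c
    linear_combination c
  have c60 : (F 0 : Fin 5 → Fin 5 → K) 1 2 + (F 0 : Fin 5 → Fin 5 → K) 2 2 + (F 0 : Fin 5 → Fin 5 → K) 2 3 + (-1) * (F 0 : Fin 5 → Fin 5 → K) 2 4 + (F 1 : Fin 5 → Fin 5 → K) 1 2 + (F 1 : Fin 5 → Fin 5 → K) 2 2 + (F 1 : Fin 5 → Fin 5 → K) 2 3 + (-1) * (F 1 : Fin 5 → Fin 5 → K) 2 4 = 0 := by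
    have c : 1 * bf (F 0 : Fin 5 → Fin 5 → K) ![0, 1, 1, 1, -1] ![0, 0, 1, 0, 0] + 1 * bf (F 1 : Fin 5 → Fin 5 → K) ![0, 1, 1, 1, -1] ![0, 0, 1, 0, 0] + 0 * bf (F 2 : Fin 5 → Fin 5 → K) ![0, 1, 1, 1, -1] ![0, 0, 1, 0, 0] + 0 * bf (F 3 : Fin 5 → Fin 5 → K) ![0, 1, 1, 1, -1] ![0, 0, 1, 0, 0] = 0 :=
      (Fin.sum_univ_four _).symm.trans (h2 6 ![0, 0, 1, 0, 0])
    rw [bf5 (F 0).2, bf5 (F 1).2, bf5 (F 2).2, bf5 (F 3).2] at c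
    linear_combination c
  have c61 : (F 0 : Fin 5 → Fin 5 → K) 1 3 + (F 0 : Fin 5 → Fin 5 → K) 2 3 + (F 0 : Fin 5 → Fin 5 → K) 3 3 + (-1) * (F 0 : Fin 5 → Fin 5 → K) 3 4 + (F 1 : Fin 5 → Fin 5 → K) 1 3 + (F 1 : Fin 5 → Fin 5 → K) 2 3 + (F 1 : Fin 5 → Fin 5 → K) 3 3 + (-1) * (F 1 : Fin 5 → Fin 5 → K) 3 4 = 0 := by
    have c : 1 * bf (F 0 : Fin 5 → Fin 5 → K) ![0, 1, 1, 1, -1] ![0, 0, 0, 1, 0] + 1 * bf (F 1 : Fin 5 → Fin 5 → K) ![0, 1, 1, 1, -1] ![0, 0, 0, 1, 0] + 0 * bf (F 2 : Fin 5 → Fin 5 → K) ![0, 1, 1, 1, -1] ![0, 0, 0, 1, 0] + 0 * bf (F 3 : Fin 5 → Fin 5 → K) ![0, 1, 1, 1, -1] ![0, 0, 0, 1, 0] = 0 :=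
      (Fin.sum_univ_four _).symm.trans (h2 6 ![0, 0, 0, 1, 0])
    rw [bf5 (F 0).2, bf5 (F 1).2, bf5 (F 2).2, bf5 (F 3).2] at c
    linear_combination c
  have c62 : (F 0 : Fin 5 → Fin 5 → K) 1 4 + (F 0 : Fin 5 → Fin 5 → K) 2 4 + (F 0 : Fin 5 → Fin 5 → K) 3 4 + (-1) * (F 0 : Fin 5 → Fin 5 → K) 4 4 + (F 1 : Fin 5 → Fin 5 → K) 1 4 + (F 1 : Fin 5 → Fin 5 → K) 2 4 + (F 1 : Fin 5 → Fin 5 → K) 3 4 + (-1) * (F 1 : Fin 5 → Fin 5 → K) 4 4 = 0 := by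
    have c : 1 * bf (F 0 : Fin 5 → Fin 5 → K) ![0, 1, 1, 1, -1] ![0, 0, 0, 0, 1] + 1 * bf (F 1 : Fin 5 → Fin 5 → K) ![0, 1, 1, 1, -1] ![0, 0, 0, 0, 1] + 0 * bf (F 2 : Fin 5 → Fin 5 → K) ![0, 1, 1, 1, -1] ![0, 0, 0, 0, 1] + 0 * bf (F 3 : Fin 5 → Fin 5 → K) ![0, 1, 1, 1, -1] ![0, 0, 0, 0, 1] = 0 :=
      (Fin.sum_univ_four _).symm.trans (h2 6 ![0, 0, 0, 0, 1])
    rw [bf5 (F 0).2, bf5 (F 1).2, bf5 (F 2).2, bf5 (F 3).2] at c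
    linear_combination c
  have c63 : (F 0 : Fin 5 → Fin 5 → K) 0 0 + (2) * (F 0 : Fin 5 → Fin 5 → K) 0 2 + (-2) * (F 0 : Fin 5 → Fin 5 → K) 0 3 + (F 0 : Fin 5 → Fin 5 → K) 2 2 + (-2) * (F 0 : Fin 5 → Fin 5 → K) 2 3 + (F 0 : Fin 5 → Fin 5 → K) 3 3 = 0 := by
    linear_combination (bf5 (F 0).2 1 0 1 (-1) 0 1 0 1 (-1) 0).symm.trans (h3 0 0)
  have c64 : (F 1 : Fin 5 → Fin 5 → K) 0 0 + (2) * (F 1 : Fin 5 → Fin 5 → K) 0 2 + (-2) * (F 1 : Fin 5 → Fin 5 → K) 0 3 + (F 1 : Fin 5 → Fin 5 → K) 2 2 + (-2) * (F 1 : Fin 5 → Fin 5 → K) 2 3 + (F 1 : Fin 5 → Fin 5 → K) 3 3 = 0 := by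
    linear_combination (bf5 (F 1).2 1 0 1 (-1) 0 1 0 1 (-1) 0).symm.trans (h3 0 1)
  have c65 : (F 2 : Fin 5 → Fin 5 → K) 0 0 + (2) * (F 2 : Fin 5 → Fin 5 → K) 0 2 + (-2) * (F 2 : Fin 5 → Fin 5 → K) 0 3 + (F 2 : Fin 5 → Fin 5 → K) 2 2 + (-2) * (F 2 : Fin 5 → Fin 5 → K) 2 3 + (F 2 : Fin 5 → Fin 5 → K) 3 3 = 0 := by
    linear_combination (bf5 (F 2).2 1 0 1 (-1) 0 1 0 1 (-1) 0).symm.trans (h3 0 2)
  have c66 : (F 3 : Fin 5 → Fin 5 → K) 0 0 + (2) * (F 3 : Fin 5 → Fin 5 → K) 0 2 + (-2) * (F 3 : Fin 5 → Fin 5 → K) 0 3 + (F 3 : Fin 5 → Fin 5 → K) 2 2 + (-2) * (F 3 : Fin 5 → Fin 5 → K) 2 3 + (F 3 : Fin 5 → Fin 5 → K) 3 3 = 0 := by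
    linear_combination (bf5 (F 3).2 1 0 1 (-1) 0 1 0 1 (-1) 0).symm.trans (h3 0 3)
  have z0 : (F 0 : Fin 5 → Fin 5 → K) = 0 := by
    have u00 : (F 0 : Fin 5 → Fin 5 → K) 0 0 = 0 := by
      linear_combination (1) * c0
    have u01 : (F 0 : Fin 5 → Fin 5 → K) 0 1 = 0 := by
      linear_combination (1) * c29
    have u02 : (F 0 : Fin 5 → Fin 5 → K) 0 2 = 0 := by
      linear_combination (1) * c30
    have u03 : (F 0 : Fin 5 → Fin 5 → K) 0 3 = 0 := by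
      linear_combination (1) * c31
    have u04 : (F 0 : Fin 5 → Fin 5 → K) 0 4 = 0 := by
      linear_combination (1) * c32
    have u11 : (F 0 : Fin 5 → Fin 5 → K) 1 1 = 0 := by
      linear_combination (1) * c4
    have u12 : (F 0 : Fin 5 → Fin 5 → K) 1 2 = 0 := by
      linear_combination (-1 / 2) * c0 + (-1 / 2) * c4 + (-1) * c8 + (1) * c13 + (-1 / 2) * c16 + (1 / 4) * c20 + (1 / 4) * c21 + (1 / 2) * c24 + (-1) * c29 + (-1) * c30 + (-1) * c33 + (2) * c36 + (-1) * c37 + (-1) * c42 + (1) * c43 + (1) * c44 + (1) * c47 + (1) * c50 + (-1) * c56 + (1 / 2) * c58 + (-1 / 4) * c59 + (1 / 4) * c60 + (-3 / 4) * c61 + (1 / 4) * c62 + (1 / 4) * c63 + (-1 / 4) * c64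
    have u13 : (F 0 : Fin 5 → Fin 5 → K) 1 3 = 0 := by
      linear_combination (-1) * c4 + (-1) * c5 + (1) * c8 + (-1) * c13 + (1 / 4) * c20 + (-1 / 4) * c21 + (-1 / 2) * c24 + (1) * c30 + (-1) * c32 + (1) * c33 + (-1) * c35 + (-3) * c36 + (2) * c37 + (1) * c42 + (-1) * c43 + (-1) * c44 + (-1) * c47 + (-1) * c50 + (1) * c56 + (-1 / 2) * c58 + (5 / 4) * c59 + (-1 / 4) * c60 + (3 / 4) * c61 + (-1 / 4) * c62 + (-1 / 4) * c63 + (1 / 4) * c64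
    have u14 : (F 0 : Fin 5 → Fin 5 → K) 1 4 = 0 := by
      linear_combination (-1 / 2) * c0 + (-1 / 2) * c4 + (-1 / 2) * c16 + (1 / 2) * c20 + (-1) * c29 + (-1) * c32
    have u22 : (F 0 : Fin 5 → Fin 5 → K) 2 2 = 0 := by
      linear_combination (1) * c8
    have u23 : (F 0 : Fin 5 → Fin 5 → K) 2 3 = 0 := by
      linear_combination (1 / 2) * c0 + (1 / 2) * c8 + (1 / 2) * c12 + (1) * c30 + (-1) * c31 + (-1 / 2) * c63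
    have u24 : (F 0 : Fin 5 → Fin 5 → K) 2 4 = 0 := by
      linear_combination (-1) * c42 + (1) * c50
    have u33 : (F 0 : Fin 5 → Fin 5 → K) 3 3 = 0 := by
      linear_combination (1) * c12
    have u34 : (F 0 : Fin 5 → Fin 5 → K) 3 4 = 0 := by
      linear_combination (1 / 2) * c0 + (-1 / 2) * c4 + (-1) * c5 + (1) * c8 + (1) * c12 + (1 / 2) * c16 + (-1 / 2) * c24 + (1) * c30 + (-1) * c31 + (-1) * c35 + (-1) * c36 + (1) * c37 + (1) * c42 + (-1) * c50 + (1) * c59 + (-1 / 2) * c63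
    have u44 : (F 0 : Fin 5 → Fin 5 → K) 4 4 = 0 := by
      linear_combination (1) * c16
    exact zero5 (F 0).2 u00 u01 u02 u03 u04 u11 u12 u13 u14 u22 u23 u24 u33 u34 u44
  have z1 : (F 1 : Fin 5 → Fin 5 → K) = 0 := by
    have u00 : (F 1 : Fin 5 → Fin 5 → K) 0 0 = 0 := by
      linear_combination (1) * c1
    have u01 : (F 1 : Fin 5 → Fin 5 → K) 0 1 = 0 := by
      linear_combination (1) * c33
    have u02 : (F 1 : Fin 5 → Fin 5 → K) 0 2 = 0 := by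
      linear_combination (-1 / 2) * c1 + (1 / 2) * c4 + (-1 / 2) * c8 + (-1 / 2) * c9 + (-1 / 2) * c12 + (-1 / 2) * c13 + (1 / 2) * c16 + (-1 / 4) * c20 + (1 / 4) * c21 + (-1) * c30 + (1) * c32 + (-1) * c33 + (-1) * c37 + (1 / 2) * c58 + (-1 / 4) * c59 + (1 / 4) * c60 + (1 / 4) * c61 + (1 / 4) * c62 + (1 / 4) * c63 + (1 / 4) * c64
    have u03 : (F 1 : Fin 5 → Fin 5 → K) 0 3 = 0 := by
      linear_combination (-1 / 2) * c4 + (-1 / 2) * c5 + (1 / 2) * c8 + (1 / 2) * c9 + (1 / 2) * c12 + (1 / 2) * c13 + (-1 / 2) * c16 + (-1 / 2) * c17 + (1 / 4) * c20 + (1 / 4) * c21 + (-1) * c29 + (-1) * c31 + (-1) * c33 + (1 / 2) * c58 + (1 / 4) * c59 + (-1 / 4) * c60 + (-1 / 4) * c61 + (-1 / 4) * c62 + (-1 / 4) * c63 + (-1 / 4) * c64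
    have u04 : (F 1 : Fin 5 → Fin 5 → K) 0 4 = 0 := by
      linear_combination (-1 / 2) * c1 + (-1 / 2) * c5 + (-1 / 2) * c17 + (1 / 2) * c21 + (-1) * c33 + (-1) * c37
    have u11 : (F 1 : Fin 5 → Fin 5 → K) 1 1 = 0 := by
      linear_combination (1) * c5
    have u12 : (F 1 : Fin 5 → Fin 5 → K) 1 2 = 0 := by
      linear_combination (1) * c35
    have u13 : (F 1 : Fin 5 → Fin 5 → K) 1 3 = 0 := by
      linear_combination (1) * c36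
    have u14 : (F 1 : Fin 5 → Fin 5 → K) 1 4 = 0 := by
      linear_combination (1) * c37
    have u22 : (F 1 : Fin 5 → Fin 5 → K) 2 2 = 0 := by
      linear_combination (1) * c9
    have u23 : (F 1 : Fin 5 → Fin 5 → K) 2 3 = 0 := by
      linear_combination (1) * c4 + (1 / 2) * c5 + (-1) * c8 + (-1 / 2) * c9 + (-1) * c12 + (-1 / 2) * c13 + (1) * c16 + (1 / 2) * c17 + (-1 / 2) * c20 + (1) * c29 + (-1) * c30 + (1) * c31 + (1) * c32 + (-1) * c37 + (-1 / 2) * c59 + (1 / 2) * c60 + (1 / 2) * c61 + (1 / 2) * c62 + (1 / 2) * c63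
    have u24 : (F 1 : Fin 5 → Fin 5 → K) 2 4 = 0 := by
      linear_combination (1 / 2) * c4 + (1 / 2) * c5 + (-1 / 2) * c8 + (1 / 2) * c9 + (-1 / 2) * c12 + (1 / 2) * c13 + (1 / 2) * c16 + (1 / 2) * c17 + (-1 / 4) * c20 + (1 / 4) * c21 + (1 / 2) * c24 + (-1) * c30 + (1) * c32 + (-1) * c33 + (1) * c35 + (2) * c36 + (-2) * c37 + (1) * c43 + (1) * c44 + (1) * c47 + (-1) * c56 + (1 / 2) * c58 + (-3 / 4) * c59 + (-1 / 4) * c60 + (-1 / 4) * c61 + (3 / 4) * c62 + (1 / 4) * c63 + (-1 / 4) * c64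
    have u33 : (F 1 : Fin 5 → Fin 5 → K) 3 3 = 0 := by
      linear_combination (1) * c13
    have u34 : (F 1 : Fin 5 → Fin 5 → K) 3 4 = 0 := by
      linear_combination (1 / 2) * c4 + (1 / 2) * c5 + (-1 / 2) * c8 + (-1 / 2) * c9 + (-1 / 2) * c12 + (-1 / 2) * c13 + (1 / 2) * c16 + (1 / 2) * c17 + (-1 / 4) * c20 + (-1 / 4) * c21 + (1) * c29 + (1) * c31 + (1) * c33 + (-1) * c36 + (-1) * c43 + (-1) * c44 + (-1) * c47 + (1) * c56 + (-1 / 2) * c58 + (-1 / 4) * c59 + (1 / 4) * c60 + (1 / 4) * c61 + (1 / 4) * c62 + (1 / 4) * c63 + (1 / 4) * c64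
    have u44 : (F 1 : Fin 5 → Fin 5 → K) 4 4 = 0 := by
      linear_combination (1) * c17
    exact zero5 (F 1).2 u00 u01 u02 u03 u04 u11 u12 u13 u14 u22 u23 u24 u33 u34 u44
  have z2 : (F 2 : Fin 5 → Fin 5 → K) = 0 := by
    have u00 : (F 2 : Fin 5 → Fin 5 → K) 0 0 = 0 := by
      linear_combination (1) * c2
    have u01 : (F 2 : Fin 5 → Fin 5 → K) 0 1 = 0 := by
      linear_combination (-1 / 2) * c0 + (-1 / 2) * c2 + (-1 / 2) * c4 + (-1 / 2) * c6 + (-1 / 2) * c16 + (-1 / 2) * c18 + (1 / 2) * c20 + (1 / 2) * c22 + (-1) * c29 + (-1) * c48 + (-1) * c49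
    have u02 : (F 2 : Fin 5 → Fin 5 → K) 0 2 = 0 := by
      linear_combination (1) * c38
    have u03 : (F 2 : Fin 5 → Fin 5 → K) 0 3 = 0 := by
      linear_combination (1 / 2) * c2 + (1 / 2) * c10 + (1 / 2) * c14 + (1) * c38 + (-1) * c41 + (-1 / 2) * c65
    have u04 : (F 2 : Fin 5 → Fin 5 → K) 0 4 = 0 := by
      linear_combination (-1) * c32 + (1) * c48
    have u11 : (F 2 : Fin 5 → Fin 5 → K) 1 1 = 0 := by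
      linear_combination (1) * c6
    have u12 : (F 2 : Fin 5 → Fin 5 → K) 1 2 = 0 := by
      linear_combination (1) * c39
    have u13 : (F 2 : Fin 5 → Fin 5 → K) 1 3 = 0 := by
      linear_combination (1) * c4 + (1) * c5 + (-1 / 2) * c6 + (-1) * c8 + (-1 / 2) * c10 + (-1) * c12 + (-1 / 2) * c14 + (-1 / 2) * c18 + (-1 / 2) * c20 + (1 / 2) * c24 + (1 / 2) * c26 + (1) * c29 + (-1) * c30 + (1) * c31 + (1) * c32 + (1) * c35 + (1) * c36 + (-1) * c37 + (-1) * c39 + (-1) * c41 + (1) * c49 + (1) * c50 + (1) * c51 + (-1) * c59 + (1 / 2) * c63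
    have u14 : (F 2 : Fin 5 → Fin 5 → K) 1 4 = 0 := by
      linear_combination (1 / 2) * c0 + (1 / 2) * c4 + (1 / 2) * c16 + (-1 / 2) * c20 + (1) * c29 + (1) * c32 + (1) * c49
    have u22 : (F 2 : Fin 5 → Fin 5 → K) 2 2 = 0 := by
      linear_combination (1) * c10
    have u23 : (F 2 : Fin 5 → Fin 5 → K) 2 3 = 0 := by
      linear_combination (1) * c41
    have u24 : (F 2 : Fin 5 → Fin 5 → K) 2 4 = 0 := by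
      linear_combination (1) * c42
    have u33 : (F 2 : Fin 5 → Fin 5 → K) 3 3 = 0 := by
      linear_combination (1) * c14
    have u34 : (F 2 : Fin 5 → Fin 5 → K) 3 4 = 0 := by
      linear_combination (-1 / 2) * c0 + (1 / 2) * c4 + (1) * c5 + (-1) * c8 + (-1) * c12 + (-1 / 2) * c16 + (1 / 2) * c24 + (-1) * c30 + (1) * c31 + (1) * c35 + (1) * c36 + (-1) * c37 + (-1) * c42 + (1) * c50 + (1) * c51 + (-1) * c59 + (1 / 2) * c63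
    have u44 : (F 2 : Fin 5 → Fin 5 → K) 4 4 = 0 := by
      linear_combination (1) * c18
    exact zero5 (F 2).2 u00 u01 u02 u03 u04 u11 u12 u13 u14 u22 u23 u24 u33 u34 u44
  have z3 : (F 3 : Fin 5 → Fin 5 → K) = 0 := by
    have u00 : (F 3 : Fin 5 → Fin 5 → K) 0 0 = 0 := by
      linear_combination (1) * c3
    have u01 : (F 3 : Fin 5 → Fin 5 → K) 0 1 = 0 := by
      linear_combination (-1 / 2) * c1 + (-1 / 2) * c3 + (-1 / 2) * c5 + (-1 / 2) * c7 + (1 / 2) * c17 + (1 / 2) * c19 + (-1 / 2) * c21 + (-1 / 2) * c23 + (-1) * c33 + (1) * c53 + (1) * c54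
    have u02 : (F 3 : Fin 5 → Fin 5 → K) 0 2 = 0 := by
      linear_combination (-1 / 2) * c3 + (-1 / 2) * c11 + (-1 / 2) * c15 + (1) * c43 + (1) * c45 + (1 / 2) * c66
    have u03 : (F 3 : Fin 5 → Fin 5 → K) 0 3 = 0 := by
      linear_combination (1) * c43
    have u04 : (F 3 : Fin 5 → Fin 5 → K) 0 4 = 0 := by
      linear_combination (-1 / 2) * c3 + (1) * c5 + (1 / 2) * c7 + (-1 / 2) * c19 + (1 / 2) * c23 + (1) * c33 + (1) * c37 + (-1) * c54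
    have u11 : (F 3 : Fin 5 → Fin 5 → K) 1 1 = 0 := by
      linear_combination (1) * c7
    have u12 : (F 3 : Fin 5 → Fin 5 → K) 1 2 = 0 := by
      linear_combination (1 / 2) * c1 + (1 / 2) * c3 + (-1 / 2) * c4 + (-1 / 2) * c5 + (-1 / 2) * c7 + (1 / 2) * c8 + (1 / 2) * c12 + (-1 / 2) * c16 + (-1 / 2) * c17 + (-1 / 2) * c19 + (1 / 4) * c20 + (1 / 4) * c23 + (-1 / 4) * c24 + (1 / 4) * c27 + (1) * c30 + (-1) * c32 + (1) * c33 + (-1) * c35 + (-1) * c36 + (1) * c37 + (-1) * c43 + (-1) * c44 + (-1) * c45 + (-1 / 2) * c53 + (1 / 2) * c55 + (1 / 2) * c56 + (-1 / 2) * c58 + (1 / 2) * c59 + (-1 / 2) * c62 + (-1 / 4) * c63 + (-1 / 4) * c66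
    have u13 : (F 3 : Fin 5 → Fin 5 → K) 1 3 = 0 := by
      linear_combination (1) * c44
    have u14 : (F 3 : Fin 5 → Fin 5 → K) 1 4 = 0 := by
      linear_combination (1 / 2) * c1 + (1 / 2) * c3 + (-1 / 2) * c5 + (-1 / 2) * c7 + (-1 / 2) * c17 + (-1 / 2) * c19 + (1 / 2) * c21 + (1 / 2) * c23 + (-1) * c37 + (-1) * c53
    have u22 : (F 3 : Fin 5 → Fin 5 → K) 2 2 = 0 := by
      linear_combination (1) * c11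
    have u23 : (F 3 : Fin 5 → Fin 5 → K) 2 3 = 0 := by
      linear_combination (1) * c45
    have u24 : (F 3 : Fin 5 → Fin 5 → K) 2 4 = 0 := by
      linear_combination (-1 / 2) * c4 + (1 / 2) * c7 + (1 / 2) * c8 + (1 / 2) * c11 + (1 / 2) * c12 + (1 / 2) * c15 + (-1 / 2) * c16 + (1 / 2) * c19 + (1 / 4) * c20 + (-1 / 2) * c21 + (-1 / 4) * c23 + (-1 / 4) * c24 + (-1 / 4) * c27 + (1) * c30 + (-1) * c32 + (1) * c33 + (-1) * c35 + (-1) * c36 + (2) * c37 + (-1) * c43 + (-1) * c47 + (1 / 2) * c53 + (1 / 2) * c55 + (1 / 2) * c56 + (-1 / 2) * c58 + (1 / 2) * c59 + (-1 / 2) * c62 + (-1 / 4) * c63 + (-1 / 4) * c66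
    have u33 : (F 3 : Fin 5 → Fin 5 → K) 3 3 = 0 := by
      linear_combination (1) * c15
    have u34 : (F 3 : Fin 5 → Fin 5 → K) 3 4 = 0 := by
      linear_combination (1) * c47
    have u44 : (F 3 : Fin 5 → Fin 5 → K) 4 4 = 0 := by
      linear_combination (1) * c19
    exact zero5 (F 3).2 u00 u01 u02 u03 u04 u11 u12 u13 u14 u22 u23 u24 u33 u34 u44
  funext j
  apply Subtype.ext
  fin_cases j
  · exact z0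
  · exact z1
  · exact z2
  · exact z3

end

end Pool.Agent.WarR
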