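import Pool.Agent.WarR.StarT

/-!
# A seed of the chain: 4 quadratic forms in 9 variables, 15 full points   (helper68)

Groups of 4, 4, 4, 3 points; the stars (assignment of helper51): form 3 gets the clique of group 0
and the star of size 3 of group 1, form 0 the stars of size 3 and 1 of group 2, form 1 the stars of
size 2 of the groups 2 and 3, form 2 the stars of size 2 and 1 of group 1 and the star of size 1 of
group 3. For every form the points are basis vectors and sums of two basis vectors.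
-/

set_option autoImplicit false

open Module

namespace Pool.Agent.WarR

open Pool.Agent.War

section

variable {K : Type*} [Field K]

/-- the star limit without simple points and transfers, every form at its own points -/
theorem star_free [CharZero K] {m b : ℕ} {I : Type} [Fintype I] [DecidableEq I]
    (g lab : I → Fin b) (ord : I → ℕ)
    (h : ∀ k, ∃ z : I → Fin m → K, ∀ A : SF K m,
      (∀ i, bf (A : Fin m → Fin m → K) (z i) (z i) = 0) →
      (∀ i, g i = k → ∀ v, bf (A : Fin m → Fin m → K) (z i) v = 0) →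
      (∀ i i', g i = g i' → ord i < ord i' → lab i = k →
        bf (A : Fin m → Fin m → K) (z i) (z i') = 0) → A = 0) :
    KQ K m b (Fintype.card I) 0 0 := by
  classical
  have h1 := star_param (K := K) (two_ne_zero) (m := m) (b := b) (X := I) (I := I) (J := Fin 0)
    (T := Fin 0) (fun i x => if i = x then 1 else 0) (fun l => l.elim0) g lab ord
    (fun t => t.elim0) (fun t => t.elim0) (fun t => t.elim0) (fun t => t.elim0)
    (fun t => t.elim0) (fun t => t.elim0) (fun _ => 0) (fun k => by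
      obtain ⟨z, hz⟩ := h k
      refine ⟨z, ?_⟩
      have e : lin (fun i x : I => if i = x then (1 : K) else 0) z = z := by
        funext i
        simp [lin]
      rw [e, Nat.le_zero]
      have : SDT z (lin (fun l : Fin 0 => l.elim0) z) g lab ord (fun t : Fin 0 => t.elim0)
          (lin (fun t : Fin 0 => t.elim0) z) k = (⊥ : Submodule K (SF K m)) := by
        rw [eq_bot_iff]
        intro A hA
        obtain ⟨h2, -⟩ := mem_SDT.1 hA
        obtain ⟨h3, -, h4, h5⟩ := mem_SD.1 h2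
        exact hz A h3 h4 h5
      rw [this]
      exact finrank_bot K _)
  simpa using h1

namespace S4Aux

theorem bf_add_l {m : ℕ} (A : Fin m → Fin m → K) (x y z : Fin m → K) :
    bf A (x + y) z = bf A x z + bf A y z := by
  simp only [bf, Pi.add_apply, add_mul, Finset.sum_add_distrib]

/-- basis vectors -/
def E (p : Fin 9) : Fin 9 → K := Pi.single p 1

theorem bf_E (A : Fin 9 → Fin 9 → K) (p q : Fin 9) : bf A (E p) (E q) = A p q := bf_single A p q

theorem sq_EE [CharZero K] {A : SF K 9} {p q : Fin 9}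
    (h : bf (A : Fin 9 → Fin 9 → K) (E p + E q) (E p + E q) = 0)
    (hp : (A : Fin 9 → Fin 9 → K) p p = 0) (hq : (A : Fin 9 → Fin 9 → K) q q = 0) :
    (A : Fin 9 → Fin 9 → K) p q = 0 := by
  rw [bf_add_l, bf_add_right, bf_add_right, bf_E, bf_E, bf_E, bf_E, hp, hq, A.2 q p] at h
  have h2 : (2 : K) * (A : Fin 9 → Fin 9 → K) p q = 0 := by linear_combination h
  exact (mul_eq_zero.1 h2).resolve_left two_ne_zero

/-- groups -/
def gr : Fin 15 → Fin 4 := ![0, 0, 0, 0, 1, 1, 1, 1, 2, 2, 2, 2, 3, 3, 3]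

/-- labels -/
def lb : Fin 15 → Fin 4 := ![3, 3, 3, 3, 3, 2, 2, 2, 0, 1, 0, 0, 1, 2, 2]

/-- points of form 0 -/
def z0 : Fin 15 → Fin 9 → K := ![E 0, E 1, E 2, E 3, E 8, E 4 + E 8, E 5 + E 6, E 5 + E 7, E 4, E 5, E 6, E 7, E 5 + E 8, E 6 + E 8, E 7 + E 8]

/-- points of form 1 -/
def z1 : Fin 15 → Fin 9 → K := ![E 4 + E 7, E 4 + E 8, E 5 + E 6, E 6 + E 7, E 0, E 1, E 2, E 3, E 6 + E 8, E 4, E 5, E 6, E 7, E 8, E 8 + E 5]

/-- points of form 2 -/
def z2 : Fin 15 → Fin 9 → K := ![E 4 + E 7, E 4 + E 8, E 5 + E 7, E 5 + E 8, E 6 + E 7, E 4, E 5, E 6, E 0, E 1, E 2, E 3, E 6 + E 8, E 7, E 8]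

/-- points of form 3 -/
def z3 : Fin 15 → Fin 9 → K := ![E 3, E 4, E 5, E 6, E 7, E 8, E 8 + E 3, E 8 + E 4, E 5 + E 7, E 5 + E 8, E 6 + E 7, E 6 + E 8, E 0, E 1, E 2]

theorem zero_of {A : SF K 9} (h : ∀ p q : Fin 9, p ≤ q → (A : Fin 9 → Fin 9 → K) p q = 0) :
    A = 0 := by
  apply Subtype.ext
  funext p q
  rcases le_total p q with hpq | hpq
  · exact h p q hpq
  · rw [A.2 p q]
    exact h q p hpq

theorem form0 [CharZero K] (A : SF K 9)
    (hs : ∀ i, bf (A : Fin 9 → Fin 9 → K) (z0 i) (z0 i) = 0)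
    (hg : ∀ i, gr i = 0 → ∀ v, bf (A : Fin 9 → Fin 9 → K) (z0 i) v = 0)
    (hp : ∀ i i' : Fin 15, gr i = gr i' → (i : ℕ) < i' → lb i = 0 →
      bf (A : Fin 9 → Fin 9 → K) (z0 i) (z0 i') = 0) : A = 0 := by
  have r0 : ∀ q, (A : Fin 9 → Fin 9 → K) 0 q = 0 := fun q => by
    have := hg 0 rfl (E q)
    change bf (A : Fin 9 → Fin 9 → K) (E 0) (E q) = 0 at this
    rwa [bf_E] at this
  have r1 : ∀ q, (A : Fin 9 → Fin 9 → K) 1 q = 0 := fun q => by
    have := hg 1 rfl (E q)
    change bf (A : Fin 9 → Fin 9 → K) (E 1) (E q) = 0 at this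
    rwa [bf_E] at this
  have r2 : ∀ q, (A : Fin 9 → Fin 9 → K) 2 q = 0 := fun q => by
    have := hg 2 rfl (E q)
    change bf (A : Fin 9 → Fin 9 → K) (E 2) (E q) = 0 at this
    rwa [bf_E] at this
  have r3 : ∀ q, (A : Fin 9 → Fin 9 → K) 3 q = 0 := fun q => by
    have := hg 3 rfl (E q)
    change bf (A : Fin 9 → Fin 9 → K) (E 3) (E q) = 0 at this
    rwa [bf_E] at this
  have a88 : (A : Fin 9 → Fin 9 → K) 8 8 = 0 := by
    have := hs 4
    change bf (A : Fin 9 → Fin 9 → K) (E 8) (E 8) = 0 at this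
    rwa [bf_E] at this
  have a44 : (A : Fin 9 → Fin 9 → K) 4 4 = 0 := by
    have := hs 8
    change bf (A : Fin 9 → Fin 9 → K) (E 4) (E 4) = 0 at this
    rwa [bf_E] at this
  have a55 : (A : Fin 9 → Fin 9 → K) 5 5 = 0 := by
    have := hs 9
    change bf (A : Fin 9 → Fin 9 → K) (E 5) (E 5) = 0 at this
    rwa [bf_E] at this
  have a66 : (A : Fin 9 → Fin 9 → K) 6 6 = 0 := by
    have := hs 10
    change bf (A : Fin 9 → Fin 9 → K) (E 6) (E 6) = 0 at this
    rwa [bf_E] at this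
  have a77 : (A : Fin 9 → Fin 9 → K) 7 7 = 0 := by
    have := hs 11
    change bf (A : Fin 9 → Fin 9 → K) (E 7) (E 7) = 0 at this
    rwa [bf_E] at this
  have a45 : (A : Fin 9 → Fin 9 → K) 4 5 = 0 := by
    have := hp 8 9 rfl (by decide) rfl
    change bf (A : Fin 9 → Fin 9 → K) (E 4) (E 5) = 0 at this
    rwa [bf_E] at this
  have a46 : (A : Fin 9 → Fin 9 → K) 4 6 = 0 := by
    have := hp 8 10 rfl (by decide) rfl
    change bf (A : Fin 9 → Fin 9 → K) (E 4) (E 6) = 0 at this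
    rwa [bf_E] at this
  have a47 : (A : Fin 9 → Fin 9 → K) 4 7 = 0 := by
    have := hp 8 11 rfl (by decide) rfl
    change bf (A : Fin 9 → Fin 9 → K) (E 4) (E 7) = 0 at this
    rwa [bf_E] at this
  have a67 : (A : Fin 9 → Fin 9 → K) 6 7 = 0 := by
    have := hp 10 11 rfl (by decide) rfl
    change bf (A : Fin 9 → Fin 9 → K) (E 6) (E 7) = 0 at this
    rwa [bf_E] at this
  have a48 : (A : Fin 9 → Fin 9 → K) 4 8 = 0 := sq_EE (hs 5) a44 a88
  have a56 : (A : Fin 9 → Fin 9 → K) 5 6 = 0 := sq_EE (hs 6) a55 a66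
  have a57 : (A : Fin 9 → Fin 9 → K) 5 7 = 0 := sq_EE (hs 7) a55 a77
  have a58 : (A : Fin 9 → Fin 9 → K) 5 8 = 0 := sq_EE (hs 12) a55 a88
  have a68 : (A : Fin 9 → Fin 9 → K) 6 8 = 0 := sq_EE (hs 13) a66 a88
  have a78 : (A : Fin 9 → Fin 9 → K) 7 8 = 0 := sq_EE (hs 14) a77 a88
  refine zero_of fun p q hpq => ?_
  fin_cases p <;> fin_cases q <;> first
    | exact absurd hpq (by decide)
    | exact r0 _
    | exact r1 _
    | exact r2 _
    | exact r3 _
    | exact a44
    | exact a45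
    | exact a46
    | exact a47
    | exact a48
    | exact a55
    | exact a56
    | exact a57
    | exact a58
    | exact a66
    | exact a67
    | exact a68
    | exact a77
    | exact a78
    | exact a88

theorem form1 [CharZero K] (A : SF K 9)
    (hs : ∀ i, bf (A : Fin 9 → Fin 9 → K) (z1 i) (z1 i) = 0)
    (hg : ∀ i, gr i = 1 → ∀ v, bf (A : Fin 9 → Fin 9 → K) (z1 i) v = 0)
    (hp : ∀ i i' : Fin 15, gr i = gr i' → (i : ℕ) < i' → lb i = 1 →
      bf (A : Fin 9 → Fin 9 → K) (z1 i) (z1 i') = 0) : A = 0 := by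
  have r0 : ∀ q, (A : Fin 9 → Fin 9 → K) 0 q = 0 := fun q => by
    have := hg 4 rfl (E q)
    change bf (A : Fin 9 → Fin 9 → K) (E 0) (E q) = 0 at this
    rwa [bf_E] at this
  have r1 : ∀ q, (A : Fin 9 → Fin 9 → K) 1 q = 0 := fun q => by
    have := hg 5 rfl (E q)
    change bf (A : Fin 9 → Fin 9 → K) (E 1) (E q) = 0 at this
    rwa [bf_E] at this
  have r2 : ∀ q, (A : Fin 9 → Fin 9 → K) 2 q = 0 := fun q => by
    have := hg 6 rfl (E q)
    change bf (A : Fin 9 → Fin 9 → K) (E 2) (E q) = 0 at this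
    rwa [bf_E] at this
  have r3 : ∀ q, (A : Fin 9 → Fin 9 → K) 3 q = 0 := fun q => by
    have := hg 7 rfl (E q)
    change bf (A : Fin 9 → Fin 9 → K) (E 3) (E q) = 0 at this
    rwa [bf_E] at this
  have a44 : (A : Fin 9 → Fin 9 → K) 4 4 = 0 := by
    have := hs 9
    change bf (A : Fin 9 → Fin 9 → K) (E 4) (E 4) = 0 at this
    rwa [bf_E] at this
  have a55 : (A : Fin 9 → Fin 9 → K) 5 5 = 0 := by
    have := hs 10
    change bf (A : Fin 9 → Fin 9 → K) (E 5) (E 5) = 0 at this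
    rwa [bf_E] at this
  have a66 : (A : Fin 9 → Fin 9 → K) 6 6 = 0 := by
    have := hs 11
    change bf (A : Fin 9 → Fin 9 → K) (E 6) (E 6) = 0 at this
    rwa [bf_E] at this
  have a77 : (A : Fin 9 → Fin 9 → K) 7 7 = 0 := by
    have := hs 12
    change bf (A : Fin 9 → Fin 9 → K) (E 7) (E 7) = 0 at this
    rwa [bf_E] at this
  have a88 : (A : Fin 9 → Fin 9 → K) 8 8 = 0 := by
    have := hs 13
    change bf (A : Fin 9 → Fin 9 → K) (E 8) (E 8) = 0 at this
    rwa [bf_E] at this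
  have a45 : (A : Fin 9 → Fin 9 → K) 4 5 = 0 := by
    have := hp 9 10 rfl (by decide) rfl
    change bf (A : Fin 9 → Fin 9 → K) (E 4) (E 5) = 0 at this
    rwa [bf_E] at this
  have a46 : (A : Fin 9 → Fin 9 → K) 4 6 = 0 := by
    have := hp 9 11 rfl (by decide) rfl
    change bf (A : Fin 9 → Fin 9 → K) (E 4) (E 6) = 0 at this
    rwa [bf_E] at this
  have a78 : (A : Fin 9 → Fin 9 → K) 7 8 = 0 := by
    have := hp 12 13 rfl (by decide) rfl
    change bf (A : Fin 9 → Fin 9 → K) (E 7) (E 8) = 0 at this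
    rwa [bf_E] at this
  have a57 : (A : Fin 9 → Fin 9 → K) 5 7 = 0 := by
    have := hp 12 14 rfl (by decide) rfl
    change bf (A : Fin 9 → Fin 9 → K) (E 7) (E 8 + E 5) = 0 at this
    rw [bf_add_right, bf_E, bf_E, a78, zero_add, A.2 7 5] at this
    exact this
  have a47 : (A : Fin 9 → Fin 9 → K) 4 7 = 0 := sq_EE (hs 0) a44 a77
  have a48 : (A : Fin 9 → Fin 9 → K) 4 8 = 0 := sq_EE (hs 1) a44 a88
  have a56 : (A : Fin 9 → Fin 9 → K) 5 6 = 0 := sq_EE (hs 2) a55 a66
  have a67 : (A : Fin 9 → Fin 9 → K) 6 7 = 0 := sq_EE (hs 3) a66 a77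
  have a68 : (A : Fin 9 → Fin 9 → K) 6 8 = 0 := sq_EE (hs 8) a66 a88
  have a58 : (A : Fin 9 → Fin 9 → K) 5 8 = 0 := by
    rw [A.2 5 8]
    exact sq_EE (hs 14) a88 a55
  refine zero_of fun p q hpq => ?_
  fin_cases p <;> fin_cases q <;> first
    | exact absurd hpq (by decide)
    | exact r0 _
    | exact r1 _
    | exact r2 _
    | exact r3 _
    | exact a44
    | exact a45
    | exact a46
    | exact a47
    | exact a48
    | exact a55
    | exact a56
    | exact a57
    | exact a58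
    | exact a66
    | exact a67
    | exact a68
    | exact a77
    | exact a78
    | exact a88

theorem form2 [CharZero K] (A : SF K 9)
    (hs : ∀ i, bf (A : Fin 9 → Fin 9 → K) (z2 i) (z2 i) = 0)
    (hg : ∀ i, gr i = 2 → ∀ v, bf (A : Fin 9 → Fin 9 → K) (z2 i) v = 0)
    (hp : ∀ i i' : Fin 15, gr i = gr i' → (i : ℕ) < i' → lb i = 2 →
      bf (A : Fin 9 → Fin 9 → K) (z2 i) (z2 i') = 0) : A = 0 := by
  have r0 : ∀ q, (A : Fin 9 → Fin 9 → K) 0 q = 0 := fun q => by
    have := hg 8 rfl (E q)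
    change bf (A : Fin 9 → Fin 9 → K) (E 0) (E q) = 0 at this
    rwa [bf_E] at this
  have r1 : ∀ q, (A : Fin 9 → Fin 9 → K) 1 q = 0 := fun q => by
    have := hg 9 rfl (E q)
    change bf (A : Fin 9 → Fin 9 → K) (E 1) (E q) = 0 at this
    rwa [bf_E] at this
  have r2 : ∀ q, (A : Fin 9 → Fin 9 → K) 2 q = 0 := fun q => by
    have := hg 10 rfl (E q)
    change bf (A : Fin 9 → Fin 9 → K) (E 2) (E q) = 0 at this
    rwa [bf_E] at this
  have r3 : ∀ q, (A : Fin 9 → Fin 9 → K) 3 q = 0 := fun q => by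
    have := hg 11 rfl (E q)
    change bf (A : Fin 9 → Fin 9 → K) (E 3) (E q) = 0 at this
    rwa [bf_E] at this
  have a44 : (A : Fin 9 → Fin 9 → K) 4 4 = 0 := by
    have := hs 5
    change bf (A : Fin 9 → Fin 9 → K) (E 4) (E 4) = 0 at this
    rwa [bf_E] at this
  have a55 : (A : Fin 9 → Fin 9 → K) 5 5 = 0 := by
    have := hs 6
    change bf (A : Fin 9 → Fin 9 → K) (E 5) (E 5) = 0 at this
    rwa [bf_E] at this
  have a66 : (A : Fin 9 → Fin 9 → K) 6 6 = 0 := by
    have := hs 7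
    change bf (A : Fin 9 → Fin 9 → K) (E 6) (E 6) = 0 at this
    rwa [bf_E] at this
  have a77 : (A : Fin 9 → Fin 9 → K) 7 7 = 0 := by
    have := hs 13
    change bf (A : Fin 9 → Fin 9 → K) (E 7) (E 7) = 0 at this
    rwa [bf_E] at this
  have a88 : (A : Fin 9 → Fin 9 → K) 8 8 = 0 := by
    have := hs 14
    change bf (A : Fin 9 → Fin 9 → K) (E 8) (E 8) = 0 at this
    rwa [bf_E] at this
  have a45 : (A : Fin 9 → Fin 9 → K) 4 5 = 0 := by
    have := hp 5 6 rfl (by decide) rfl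
    change bf (A : Fin 9 → Fin 9 → K) (E 4) (E 5) = 0 at this
    rwa [bf_E] at this
  have a46 : (A : Fin 9 → Fin 9 → K) 4 6 = 0 := by
    have := hp 5 7 rfl (by decide) rfl
    change bf (A : Fin 9 → Fin 9 → K) (E 4) (E 6) = 0 at this
    rwa [bf_E] at this
  have a56 : (A : Fin 9 → Fin 9 → K) 5 6 = 0 := by
    have := hp 6 7 rfl (by decide) rfl
    change bf (A : Fin 9 → Fin 9 → K) (E 5) (E 6) = 0 at this
    rwa [bf_E] at this
  have a78 : (A : Fin 9 → Fin 9 → K) 7 8 = 0 := by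
    have := hp 13 14 rfl (by decide) rfl
    change bf (A : Fin 9 → Fin 9 → K) (E 7) (E 8) = 0 at this
    rwa [bf_E] at this
  have a47 : (A : Fin 9 → Fin 9 → K) 4 7 = 0 := sq_EE (hs 0) a44 a77
  have a48 : (A : Fin 9 → Fin 9 → K) 4 8 = 0 := sq_EE (hs 1) a44 a88
  have a57 : (A : Fin 9 → Fin 9 → K) 5 7 = 0 := sq_EE (hs 2) a55 a77
  have a58 : (A : Fin 9 → Fin 9 → K) 5 8 = 0 := sq_EE (hs 3) a55 a88
  have a67 : (A : Fin 9 → Fin 9 → K) 6 7 = 0 := sq_EE (hs 4) a66 a77
  have a68 : (A : Fin 9 → Fin 9 → K) 6 8 = 0 := sq_EE (hs 12) a66 a88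
  refine zero_of fun p q hpq => ?_
  fin_cases p <;> fin_cases q <;> first
    | exact absurd hpq (by decide)
    | exact r0 _
    | exact r1 _
    | exact r2 _
    | exact r3 _
    | exact a44
    | exact a45
    | exact a46
    | exact a47
    | exact a48
    | exact a55
    | exact a56
    | exact a57
    | exact a58
    | exact a66
    | exact a67
    | exact a68
    | exact a77
    | exact a78
    | exact a88

theorem form3 [CharZero K] (A : SF K 9)
    (hs : ∀ i, bf (A : Fin 9 → Fin 9 → K) (z3 i) (z3 i) = 0)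
    (hg : ∀ i, gr i = 3 → ∀ v, bf (A : Fin 9 → Fin 9 → K) (z3 i) v = 0)
    (hp : ∀ i i' : Fin 15, gr i = gr i' → (i : ℕ) < i' → lb i = 3 →
      bf (A : Fin 9 → Fin 9 → K) (z3 i) (z3 i') = 0) : A = 0 := by
  have r0 : ∀ q, (A : Fin 9 → Fin 9 → K) 0 q = 0 := fun q => by
    have := hg 12 rfl (E q)
    change bf (A : Fin 9 → Fin 9 → K) (E 0) (E q) = 0 at this
    rwa [bf_E] at this
  have r1 : ∀ q, (A : Fin 9 → Fin 9 → K) 1 q = 0 := fun q => by
    have := hg 13 rfl (E q)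
    change bf (A : Fin 9 → Fin 9 → K) (E 1) (E q) = 0 at this
    rwa [bf_E] at this
  have r2 : ∀ q, (A : Fin 9 → Fin 9 → K) 2 q = 0 := fun q => by
    have := hg 14 rfl (E q)
    change bf (A : Fin 9 → Fin 9 → K) (E 2) (E q) = 0 at this
    rwa [bf_E] at this
  have a33 : (A : Fin 9 → Fin 9 → K) 3 3 = 0 := by
    have := hs 0
    change bf (A : Fin 9 → Fin 9 → K) (E 3) (E 3) = 0 at this
    rwa [bf_E] at this
  have a44 : (A : Fin 9 → Fin 9 → K) 4 4 = 0 := by
    have := hs 1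
    change bf (A : Fin 9 → Fin 9 → K) (E 4) (E 4) = 0 at this
    rwa [bf_E] at this
  have a55 : (A : Fin 9 → Fin 9 → K) 5 5 = 0 := by
    have := hs 2
    change bf (A : Fin 9 → Fin 9 → K) (E 5) (E 5) = 0 at this
    rwa [bf_E] at this
  have a66 : (A : Fin 9 → Fin 9 → K) 6 6 = 0 := by
    have := hs 3
    change bf (A : Fin 9 → Fin 9 → K) (E 6) (E 6) = 0 at this
    rwa [bf_E] at this
  have a77 : (A : Fin 9 → Fin 9 → K) 7 7 = 0 := by
    have := hs 4
    change bf (A : Fin 9 → Fin 9 → K) (E 7) (E 7) = 0 at this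
    rwa [bf_E] at this
  have a88 : (A : Fin 9 → Fin 9 → K) 8 8 = 0 := by
    have := hs 5
    change bf (A : Fin 9 → Fin 9 → K) (E 8) (E 8) = 0 at this
    rwa [bf_E] at this
  have a34 : (A : Fin 9 → Fin 9 → K) 3 4 = 0 := by
    have := hp 0 1 rfl (by decide) rfl
    change bf (A : Fin 9 → Fin 9 → K) (E 3) (E 4) = 0 at this
    rwa [bf_E] at this
  have a35 : (A : Fin 9 → Fin 9 → K) 3 5 = 0 := by
    have := hp 0 2 rfl (by decide) rfl
    change bf (A : Fin 9 → Fin 9 → K) (E 3) (E 5) = 0 at this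
    rwa [bf_E] at this
  have a36 : (A : Fin 9 → Fin 9 → K) 3 6 = 0 := by
    have := hp 0 3 rfl (by decide) rfl
    change bf (A : Fin 9 → Fin 9 → K) (E 3) (E 6) = 0 at this
    rwa [bf_E] at this
  have a45 : (A : Fin 9 → Fin 9 → K) 4 5 = 0 := by
    have := hp 1 2 rfl (by decide) rfl
    change bf (A : Fin 9 → Fin 9 → K) (E 4) (E 5) = 0 at this
    rwa [bf_E] at this
  have a46 : (A : Fin 9 → Fin 9 → K) 4 6 = 0 := by
    have := hp 1 3 rfl (by decide) rfl
    change bf (A : Fin 9 → Fin 9 → K) (E 4) (E 6) = 0 at this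
    rwa [bf_E] at this
  have a56 : (A : Fin 9 → Fin 9 → K) 5 6 = 0 := by
    have := hp 2 3 rfl (by decide) rfl
    change bf (A : Fin 9 → Fin 9 → K) (E 5) (E 6) = 0 at this
    rwa [bf_E] at this
  have a78 : (A : Fin 9 → Fin 9 → K) 7 8 = 0 := by
    have := hp 4 5 rfl (by decide) rfl
    change bf (A : Fin 9 → Fin 9 → K) (E 7) (E 8) = 0 at this
    rwa [bf_E] at this
  have a37 : (A : Fin 9 → Fin 9 → K) 3 7 = 0 := by
    have := hp 4 6 rfl (by decide) rfl
    change bf (A : Fin 9 → Fin 9 → K) (E 7) (E 8 + E 3) = 0 at this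
    rw [bf_add_right, bf_E, bf_E, a78, zero_add, A.2 7 3] at this
    exact this
  have a47 : (A : Fin 9 → Fin 9 → K) 4 7 = 0 := by
    have := hp 4 7 rfl (by decide) rfl
    change bf (A : Fin 9 → Fin 9 → K) (E 7) (E 8 + E 4) = 0 at this
    rw [bf_add_right, bf_E, bf_E, a78, zero_add, A.2 7 4] at this
    exact this
  have a38 : (A : Fin 9 → Fin 9 → K) 3 8 = 0 := by
    rw [A.2 3 8]
    exact sq_EE (hs 6) a88 a33
  have a48 : (A : Fin 9 → Fin 9 → K) 4 8 = 0 := by
    rw [A.2 4 8]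
    exact sq_EE (hs 7) a88 a44
  have a57 : (A : Fin 9 → Fin 9 → K) 5 7 = 0 := sq_EE (hs 8) a55 a77
  have a58 : (A : Fin 9 → Fin 9 → K) 5 8 = 0 := sq_EE (hs 9) a55 a88
  have a67 : (A : Fin 9 → Fin 9 → K) 6 7 = 0 := sq_EE (hs 10) a66 a77
  have a68 : (A : Fin 9 → Fin 9 → K) 6 8 = 0 := sq_EE (hs 11) a66 a88
  refine zero_of fun p q hpq => ?_
  fin_cases p <;> fin_cases q <;> first
    | exact absurd hpq (by decide)
    | exact r0 _
    | exact r1 _
    | exact r2 _
    | exact a33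
    | exact a34
    | exact a35
    | exact a36
    | exact a37
    | exact a38
    | exact a44
    | exact a45
    | exact a46
    | exact a47
    | exact a48
    | exact a55
    | exact a56
    | exact a57
    | exact a58
    | exact a66
    | exact a67
    | exact a68
    | exact a77
    | exact a78
    | exact a88

end S4Aux

open S4Aux in
theorem s4 [CharZero K] : KQ K 9 4 15 0 0 := by
  have h := star_free (K := K) (m := 9) gr lb (fun i : Fin 15 => (i : ℕ)) (fun k => by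
    fin_cases k
    · exact ⟨z0, form0⟩
    · exact ⟨z1, form1⟩
    · exact ⟨z2, form2⟩
    · exact ⟨z3, form3⟩)
  simpa using h

end

end Pool.Agent.WarR
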