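import Pool.Agent.WarR.StarT
import Pool.Agent.WarR.Peel

/-!
# Certificates modulo 2 for the decoupled forms (MP_db021c_ag, degree 2)   (helper31)

`surj_of_odd`: functionals whose values on some vectors are integers congruent to the identity matrix modulo 2 are
linearly independent. `cert`: an upper bound for the dimension of a space of symmetric matrices which satisfy
conditions `bf A u u = 0` and `bf A u v = 0` for vectors of natural numbers, checked with bit operations.
-/

set_option autoImplicit false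

open Module

namespace Pool.Agent.WarR

open Pool.Agent.War

section Cert

variable {K : Type*} [Field K]

theorem surj_of_odd [CharZero K] {V : Type*} [AddCommGroup V] [Module K V] {D : ℕ}
    (Φ : V →ₗ[K] (Fin D → K)) (E : Fin D → V) (W : Fin D → Fin D → ℤ)
    (hW : ∀ s t, Φ (E t) s = (W s t : K))
    (hodd : ∀ s t, ((W s t : ℤ) : ZMod 2) = if s = t then 1 else 0) : Function.Surjective Φ := by
  classical
  let A : Matrix (Fin D) (Fin D) ℤ := Matrix.of W
  have h1 : A.map (Int.castRingHom (ZMod 2)) = 1 := by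
    ext s t
    simp only [A, Matrix.map_apply, Matrix.of_apply, Int.coe_castRingHom, Matrix.one_apply]
    exact hodd s t
  have h2 : A.det ≠ 0 := by
    intro h
    have h3 : (Int.castRingHom (ZMod 2)) A.det = (A.map (Int.castRingHom (ZMod 2))).det :=
      RingHom.map_det _ _
    rw [h1, Matrix.det_one, h, map_zero] at h3
    exact zero_ne_one h3
  let B : Matrix (Fin D) (Fin D) K := A.map (Int.castRingHom K)
  have h3 : B.det ≠ 0 := by
    have h4 : (Int.castRingHom K) A.det = B.det := RingHom.map_det _ _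
    rw [← h4]
    simpa using h2
  have h4 : IsUnit B.det := isUnit_iff_ne_zero.2 h3
  intro τ
  refine ⟨∑ t, (B⁻¹.mulVec τ) t • E t, ?_⟩
  funext s
  have h5 : B.mulVec (B⁻¹.mulVec τ) = τ := by
    rw [Matrix.mulVec_mulVec, Matrix.mul_nonsing_inv _ h4, Matrix.one_mulVec]
  rw [map_sum]
  simp only [map_smul, Finset.sum_apply, Pi.smul_apply, smul_eq_mul, hW]
  conv_rhs => rw [← h5]
  simp only [Matrix.mulVec, dotProduct, B, A, Matrix.map_apply, Matrix.of_apply,
    Int.coe_castRingHom]
  exact Finset.sum_congr rfl fun t _ => mul_comm _ _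

/-- a basis element of the symmetric matrices -/
def Eb (K : Type*) [Field K] (m : ℕ) (i j : Fin m) : SF K m :=
  ⟨fun a c => (if a = i ∧ c = j then (1 / 2 : K) else 0) + (if a = j ∧ c = i then (1 / 2 : K) else 0),
    by
      intro a c
      show (if a = i ∧ c = j then (1 / 2 : K) else 0) + (if a = j ∧ c = i then (1 / 2 : K) else 0) =
        (if c = i ∧ a = j then (1 / 2 : K) else 0) + (if c = j ∧ a = i then (1 / 2 : K) else 0)
      simp only [and_comm (a := c = i), and_comm (a := c = j)]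
      exact add_comm _ _⟩

theorem bf_Eb {m : ℕ} (i j : Fin m) (u v : Fin m → K) :
    bf (Eb K m i j : Fin m → Fin m → K) u v = (u i * v j + u j * v i) / 2 := by
  have h : ∀ a c : Fin m, (Eb K m i j : Fin m → Fin m → K) a c =
      (if a = i ∧ c = j then (1 / 2 : K) else 0) + (if a = j ∧ c = i then (1 / 2 : K) else 0) :=
    fun a c => rfl
  unfold bf
  simp only [h, mul_add, Finset.sum_add_distrib]
  have h1 : ∀ i j : Fin m, ∑ a, ∑ c, u a * v c * (if a = i ∧ c = j then (1 / 2 : K) else 0) =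
      u i * v j / 2 := by
    intro i j
    rw [Finset.sum_eq_single i, Finset.sum_eq_single j]
    · simp
      ring
    · intro c _ hc
      simp [hc]
    · simp
    · intro a _ ha
      simp [ha]
    · simp
  rw [h1, h1]
  ring

/-- the bit as an element of a ring -/
def bt (R : Type*) [Zero R] [One R] (t n : ℕ) : R := if n.testBit t then 1 else 0

theorem bt_xor (t a b : ℕ) : bt (ZMod 2) t (a ^^^ b) = bt (ZMod 2) t a + bt (ZMod 2) t b := by
  unfold bt
  rw [Nat.testBit_xor]
  cases a.testBit t <;> cases b.testBit t <;> decide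

theorem bt_zero (t : ℕ) : bt (ZMod 2) t 0 = 0 := by
  simp [bt]

theorem bt_two_pow (t s : ℕ) : bt (ZMod 2) t (2 ^ s) = if s = t then 1 else 0 := by
  unfold bt
  rw [Nat.testBit_two_pow]
  simp

/-- exclusive or of a list -/
def xl (l : List ℕ) : ℕ := l.foldr (fun a b => a ^^^ b) 0

theorem bt_xl (t : ℕ) (l : List ℕ) : bt (ZMod 2) t (xl l) = (l.map (bt (ZMod 2) t)).sum := by
  induction l with
  | nil => simp [xl, bt_zero]
  | cons a l ih =>
    have : xl (a :: l) = a ^^^ xl l := rfl
    rw [this, bt_xor, ih, List.map_cons, List.sum_cons]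

/-- the positions of the bits below `m` -/
def supp (m mu : ℕ) : List ℕ := (List.range m).filter fun a => mu.testBit a

theorem sum_range_filter (l : List ℕ) (mu : ℕ) (F : ℕ → ZMod 2) :
    ((l.filter fun a => mu.testBit a).map F).sum = (l.map fun a => bt (ZMod 2) a mu * F a).sum := by
  induction l with
  | nil => rfl
  | cons a l ih =>
    rw [List.filter_cons]
    by_cases h : mu.testBit a
    · rw [if_pos h, List.map_cons, List.sum_cons, ih, List.map_cons, List.sum_cons]
      simp [bt, h]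
    · rw [if_neg h, ih, List.map_cons, List.sum_cons]
      simp [bt, h]

theorem sum_supp (m mu : ℕ) (F : ℕ → ZMod 2) :
    ((supp m mu).map F).sum = ∑ a : Fin m, bt (ZMod 2) (a : ℕ) mu * F a := by
  rw [supp, sum_range_filter, Fin.sum_univ_eq_sum_range (fun a => bt (ZMod 2) a mu * F a) m,
    Finset.sum_list_map_count]
  rw [List.toFinset_range]
  refine Finset.sum_congr rfl fun a ha => ?_
  rw [List.count_eq_one_of_mem (List.nodup_range) (List.mem_range.2 (Finset.mem_range.1 ha)),
    one_smul]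

/-- the entries of a triangular table -/
def tb (T : List (List ℕ)) (i j : ℕ) : ℕ := (T.getD (min i j) []).getD (max i j - min i j) 0

theorem tb_comm (T : List (List ℕ)) (i j : ℕ) : tb T i j = tb T j i := by
  unfold tb
  rw [min_comm, max_comm]

/-- the value for a square -/
def xsq (m : ℕ) (T : List (List ℕ)) (mu : ℕ) : ℕ :=
  xl ((supp m mu).map fun i => xl ((supp m mu).map fun j => if i ≤ j then tb T i j else 0))

/-- the value for a polar value -/
def xpol (m : ℕ) (T : List (List ℕ)) (mu nu : ℕ) : ℕ :=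
  xl ((supp m mu).map fun i => xl ((supp m nu).map fun j => if i = j then 0 else tb T i j))

theorem bt_xsq (m : ℕ) (T : List (List ℕ)) (mu t : ℕ) : bt (ZMod 2) t (xsq m T mu) =
    ∑ i : Fin m, ∑ j : Fin m, if i ≤ j then bt (ZMod 2) t (tb T i j) *
      (bt (ZMod 2) (i : ℕ) mu * bt (ZMod 2) (j : ℕ) mu) else 0 := by
  have h1 : ∀ i : ℕ, bt (ZMod 2) t (xl ((supp m mu).map fun j => if i ≤ j then tb T i j else 0)) =
      ∑ j : Fin m, bt (ZMod 2) (j : ℕ) mu *
        (if i ≤ (j : ℕ) then bt (ZMod 2) t (tb T i j) else 0) := by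
    intro i
    rw [bt_xl, List.map_map, ← sum_supp m mu fun j => if i ≤ j then bt (ZMod 2) t (tb T i j) else 0]
    congr 1
    refine List.map_congr_left fun j _ => ?_
    simp only [Function.comp]
    split_ifs
    · rfl
    · exact bt_zero t
  rw [xsq, bt_xl, List.map_map]
  have h2 : ∀ F : ℕ → ℕ, ((supp m mu).map (bt (ZMod 2) t ∘ F)).sum =
      ∑ i : Fin m, bt (ZMod 2) (i : ℕ) mu * bt (ZMod 2) t (F i) := fun F =>
    sum_supp m mu fun i => bt (ZMod 2) t (F i)
  rw [h2]
  refine Finset.sum_congr rfl fun i _ => ?_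
  rw [h1, Finset.mul_sum]
  refine Finset.sum_congr rfl fun j _ => ?_
  by_cases h : i ≤ j
  · rw [if_pos h, if_pos (by exact h)]
    ring
  · rw [if_neg h, if_neg (by exact h)]
    ring

theorem bt_xpol (m : ℕ) (T : List (List ℕ)) (mu nu t : ℕ) : bt (ZMod 2) t (xpol m T mu nu) =
    ∑ i : Fin m, ∑ j : Fin m, if i = j then 0 else bt (ZMod 2) t (tb T i j) *
      (bt (ZMod 2) (i : ℕ) mu * bt (ZMod 2) (j : ℕ) nu) := by
  have h1 : ∀ i : ℕ, bt (ZMod 2) t (xl ((supp m nu).map fun j => if i = j then 0 else tb T i j)) =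
      ∑ j : Fin m, bt (ZMod 2) (j : ℕ) nu *
        (if i = (j : ℕ) then 0 else bt (ZMod 2) t (tb T i j)) := by
    intro i
    rw [bt_xl, List.map_map, ← sum_supp m nu fun j => if i = j then 0 else bt (ZMod 2) t (tb T i j)]
    congr 1
    refine List.map_congr_left fun j _ => ?_
    simp only [Function.comp]
    split_ifs
    · exact bt_zero t
    · rfl
  rw [xpol, bt_xl, List.map_map]
  have h2 : ∀ F : ℕ → ℕ, ((supp m mu).map (bt (ZMod 2) t ∘ F)).sum =
      ∑ i : Fin m, bt (ZMod 2) (i : ℕ) mu * bt (ZMod 2) t (F i) := fun F =>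
    sum_supp m mu fun i => bt (ZMod 2) t (F i)
  rw [h2]
  refine Finset.sum_congr rfl fun i _ => ?_
  rw [h1, Finset.mul_sum]
  refine Finset.sum_congr rfl fun j _ => ?_
  by_cases h : i = j
  · rw [if_pos h, if_pos (by rw [h])]
    ring
  · rw [if_neg h, if_neg (fun h' => h (Fin.ext h'))]
    ring

/-- the dual vectors of the certificate -/
def dualE (K : Type*) [Field K] (m : ℕ) (T : List (List ℕ)) (t : ℕ) : SF K m :=
  ∑ i : Fin m, ∑ j : Fin m, (if i ≤ j then bt K t (tb T i j) else 0) • Eb K m i j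

theorem bf_sum {m : ℕ} {ι : Type*} (s : Finset ι) (A : ι → SF K m) (u v : Fin m → K) :
    bf ((∑ i ∈ s, A i : SF K m) : Fin m → Fin m → K) u v =
      ∑ i ∈ s, bf (A i : Fin m → Fin m → K) u v := by
  classical
  induction s using Finset.induction_on with
  | empty => simp [bf_zero]
  | insert a s ha ih =>
    rw [Finset.sum_insert ha, Finset.sum_insert ha, Submodule.coe_add, bf_add, ih]

theorem bf_dualE {m : ℕ} (T : List (List ℕ)) (t : ℕ) (u v : Fin m → K) :
    bf (dualE K m T t : Fin m → Fin m → K) u v =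
      ∑ i : Fin m, ∑ j : Fin m, (if i ≤ j then bt K t (tb T i j) else 0) *
        ((u i * v j + u j * v i) / 2) := by
  unfold dualE
  rw [bf_sum]
  refine Finset.sum_congr rfl fun i _ => ?_
  rw [bf_sum]
  refine Finset.sum_congr rfl fun j _ => ?_
  rw [Submodule.coe_smul, bf_smul, bf_Eb]

/-- the integer for a square -/
def Wsq (m : ℕ) (T : List (List ℕ)) (u : Fin m → ℕ) (t : ℕ) : ℤ :=
  ∑ i : Fin m, ∑ j : Fin m, if i ≤ j then bt ℤ t (tb T i j) * (u i * u j) else 0

/-- the integer for a polar value -/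
def Wpol (m : ℕ) (T : List (List ℕ)) (u v : Fin m → ℕ) (t : ℕ) : ℤ :=
  ∑ i : Fin m, ∑ j : Fin m, if i ≤ j then bt ℤ t (tb T i j) * (u i * v j + u j * v i) else 0

theorem cast_bt (R : Type*) [Ring R] (t n : ℕ) : ((bt ℤ t n : ℤ) : R) = bt R t n := by
  unfold bt
  split_ifs <;> simp

theorem bf_dualE_sq [CharZero K] {m : ℕ} (T : List (List ℕ)) (t : ℕ) (u : Fin m → ℕ) :
    bf (dualE K m T t : Fin m → Fin m → K) (fun i => (u i : K)) (fun i => (u i : K)) =
      (Wsq m T u t : K) := by
  rw [bf_dualE, Wsq]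
  push_cast
  refine Finset.sum_congr rfl fun i _ => Finset.sum_congr rfl fun j _ => ?_
  split_ifs
  · rw [cast_bt]
    ring
  · ring

theorem bf_dualE_pol [CharZero K] {m : ℕ} (T : List (List ℕ)) (t : ℕ) (u v : Fin m → ℕ) :
    2 * bf (dualE K m T t : Fin m → Fin m → K) (fun i => (u i : K)) (fun i => (v i : K)) =
      (Wpol m T u v t : K) := by
  rw [bf_dualE, Wpol, Finset.mul_sum]
  push_cast
  refine Finset.sum_congr rfl fun i _ => ?_
  rw [Finset.mul_sum]
  refine Finset.sum_congr rfl fun j _ => ?_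
  split_ifs
  · rw [cast_bt]
    ring
  · ring

theorem Wsq_odd {m : ℕ} (T : List (List ℕ)) (t : ℕ) (u : Fin m → ℕ) (mu : ℕ)
    (hu : ∀ i : Fin m, (u i : ZMod 2) = bt (ZMod 2) (i : ℕ) mu) :
    ((Wsq m T u t : ℤ) : ZMod 2) = bt (ZMod 2) t (xsq m T mu) := by
  rw [bt_xsq, Wsq]
  push_cast
  refine Finset.sum_congr rfl fun i _ => Finset.sum_congr rfl fun j _ => ?_
  split_ifs
  · rw [cast_bt, hu, hu]
  · rfl

theorem Wpol_odd {m : ℕ} (T : List (List ℕ)) (t : ℕ) (u v : Fin m → ℕ) (mu nu : ℕ)
    (hu : ∀ i : Fin m, (u i : ZMod 2) = bt (ZMod 2) (i : ℕ) mu)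
    (hv : ∀ i : Fin m, (v i : ZMod 2) = bt (ZMod 2) (i : ℕ) nu) :
    ((Wpol m T u v t : ℤ) : ZMod 2) = bt (ZMod 2) t (xpol m T mu nu) := by
  rw [bt_xpol, Wpol]
  push_cast
  set f : Fin m → Fin m → ZMod 2 := fun i j => bt (ZMod 2) t (tb T i j) *
    (bt (ZMod 2) (i : ℕ) mu * bt (ZMod 2) (j : ℕ) nu) with hf
  have h1 : ∀ i j : Fin m, (if i ≤ j then ((bt ℤ t (tb T i j) : ℤ) : ZMod 2) *
      ((u i : ZMod 2) * (v j : ZMod 2) + (u j : ZMod 2) * (v i : ZMod 2)) else 0) =
      (if i ≤ j then f i j else 0) + (if i ≤ j then f j i else 0) := by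
    intro i j
    split_ifs
    · rw [cast_bt, hu, hu, hv, hv, hf]
      simp only
      rw [tb_comm T (j : ℕ) (i : ℕ)]
      ring
    · simp
  simp only [h1, Finset.sum_add_distrib]
  have h2 : ∑ i : Fin m, ∑ j : Fin m, (if i ≤ j then f j i else 0) =
      ∑ i : Fin m, ∑ j : Fin m, if j ≤ i then f i j else 0 := Finset.sum_comm
  rw [h2, ← Finset.sum_add_distrib]
  refine Finset.sum_congr rfl fun i _ => ?_
  rw [← Finset.sum_add_distrib]
  refine Finset.sum_congr rfl fun j _ => ?_
  rcases lt_trichotomy i j with h | h | h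
  · rw [if_pos h.le, if_neg (not_le.2 h), if_neg h.ne, add_zero]
  · rw [if_pos h.le, if_pos h.ge, if_pos h]
    exact CharTwo.add_self_eq_zero _
  · rw [if_neg (not_le.2 h), if_pos h.le, if_neg h.ne', zero_add]

/-- **The certificate.** `sq s = true`: the `s`-th condition is `bf A (u s) (u s) = 0`, otherwise it is
`bf A (u s) (v s) = 0`; `mu`, `nu` are the parities. -/
theorem cert [CharZero K] {m D : ℕ} (Z : Submodule K (SF K m)) (T : List (List ℕ))
    (sq : Fin D → Bool) (u v : Fin D → Fin m → ℕ) (mu nu : Fin D → ℕ)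
    (hu : ∀ s (i : Fin m), (u s i : ZMod 2) = bt (ZMod 2) (i : ℕ) (mu s))
    (hv : ∀ s (i : Fin m), (v s i : ZMod 2) = bt (ZMod 2) (i : ℕ) (nu s))
    (h1 : ∀ s, sq s = true → ∀ A ∈ Z,
      bf (A : Fin m → Fin m → K) (fun i => (u s i : K)) (fun i => (u s i : K)) = 0)
    (h2 : ∀ s, sq s = false → ∀ A ∈ Z,
      bf (A : Fin m → Fin m → K) (fun i => (u s i : K)) (fun i => (v s i : K)) = 0)
    (h3 : ∀ s : Fin D, (if sq s then xsq m T (mu s) else xpol m T (mu s) (nu s)) = 2 ^ (s : ℕ)) :
    finrank K Z + D ≤ (m + 1).choose 2 := by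
  classical
  let Φ : SF K m →ₗ[K] (Fin D → K) := LinearMap.pi fun s =>
    if sq s then (bfL (fun i => (u s i : K)) (fun i => (u s i : K))).comp (SF K m).subtype
    else (2 : K) • (bfL (fun i => (u s i : K)) (fun i => (v s i : K))).comp (SF K m).subtype
  have hΦ : ∀ (A : SF K m) (s : Fin D), Φ A s = if sq s then
      bf (A : Fin m → Fin m → K) (fun i => (u s i : K)) (fun i => (u s i : K)) else
      2 * bf (A : Fin m → Fin m → K) (fun i => (u s i : K)) (fun i => (v s i : K)) := by
    intro A s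
    simp only [Φ, LinearMap.pi_apply]
    split_ifs <;> rfl
  have hsurj : Function.Surjective Φ := by
    refine surj_of_odd Φ (fun t => dualE K m T t)
      (fun s t => if sq s then Wsq m T (u s) t else Wpol m T (u s) (v s) t) (fun s t => ?_)
      fun s t => ?_
    · rw [hΦ]
      split_ifs
      · exact bf_dualE_sq T t (u s)
      · exact bf_dualE_pol T t (u s) (v s)
    · have h4 := congrArg (bt (ZMod 2) (t : ℕ)) (h3 s)
      rw [bt_two_pow] at h4
      have h5 : ((s : ℕ) = (t : ℕ)) ↔ s = t := Fin.ext_iff.symm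
      simp only [h5] at h4
      rw [← h4]
      split_ifs
      · exact Wsq_odd T t (u s) (mu s) (hu s)
      · exact Wpol_odd T t (u s) (v s) (mu s) (nu s) (hu s) (hv s)
  have hker : Z ≤ LinearMap.ker Φ := by
    intro A hA
    rw [LinearMap.mem_ker]
    funext s
    rw [hΦ]
    by_cases hs : sq s = true
    · rw [if_pos hs, h1 s hs A hA]
      rfl
    · rw [if_neg hs, h2 s (by simpa using hs) A hA]
      simp
  have h6 := Φ.finrank_range_add_finrank_ker
  have h7 : LinearMap.range Φ = ⊤ := LinearMap.range_eq_top.2 hsurj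
  rw [h7, finrank_top, Module.finrank_fin_fun] at h6
  have h8 := Submodule.finrank_mono hker
  have h9 := finrank_SF_le (K := K) m
  omega

end Cert

end Pool.Agent.WarR
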