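import Pool.Agent.WarR.Peel

/-!
# The chain assignment (MP_db021c_ag, degree 2)   (helper42)

`b ≥ 3` groups, `r k` full points in the group `k` (`k : Fin b`, cyclic). The star of the point `i` of the group `j`
(the pairs `i < i'`) goes to the form `j + 2` if `i ∈ S j` and to the form `j + 1` otherwise. The form `k` gets
`cs (S (k - 2)) + cs (S (k - 1))ᶜ` pairs; `cs A` is the number of the pairs `i < i'` with `i ∈ A`.
`chain_sets`: if every form satisfies one of three rank conditions then the kernel of a general configuration of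
`∑ r k` full points and `y` simple points has dimension at most the expected one, form by form.
-/

set_option autoImplicit false

open Module

namespace Pool.Agent.WarR

open Pool.Agent.War

/-- number of the pairs `i < i'` with `i ∈ A` -/
def cs {r : ℕ} (A : Finset (Fin r)) : ℕ := ∑ i ∈ A, (r - 1 - (i : ℕ))

/-- the pairs `i < i'` with `i ∈ A` -/
def Qp {r : ℕ} (A : Finset (Fin r)) : Finset (Fin r × Fin r) :=
  (A ×ˢ Finset.univ).filter fun p => p.1 < p.2

theorem mem_Qp {r : ℕ} {A : Finset (Fin r)} {p : Fin r × Fin r} :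
    p ∈ Qp A ↔ p.1 ∈ A ∧ p.1 < p.2 := by
  simp [Qp]

theorem card_Qp {r : ℕ} (A : Finset (Fin r)) : (Qp A).card = cs A := by
  unfold Qp cs
  rw [Finset.card_filter, Finset.sum_product]
  refine Finset.sum_congr rfl fun i _ => ?_
  rw [← Finset.card_filter]
  have e : (Finset.univ.filter fun j => i < j) = Finset.Ioi i := by
    ext j
    simp
  rw [e, Fin.card_Ioi]

/-- all the pairs -/
theorem cs_add_compl {r : ℕ} (A : Finset (Fin r)) : cs A + cs Aᶜ = r.choose 2 := by
  have h1 : cs A + cs Aᶜ = ∑ i : Fin r, (r - 1 - (i : ℕ)) := by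
    unfold cs
    rw [← Finset.sum_union disjoint_compl_right, Finset.union_compl]
  rw [h1, Fin.sum_univ_eq_sum_range (fun i => r - 1 - i) r, Finset.sum_range_reflect
    (fun i => i) r, Finset.sum_range_id, Nat.choose_two_right]

open Classical in
theorem mem_ST {b : ℕ} {I J : Type} [Fintype I] [Fintype J] {g : I → Fin b} {k : Fin b}
    {u : I ⊕ J} : u ∈ ST g k ↔ ∀ i, u = Sum.inl i → g i ≠ k := by
  unfold ST
  rw [Finset.mem_filter]
  exact ⟨fun h => h.2, fun h => ⟨Finset.mem_univ _, h⟩⟩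

namespace Chain

section

variable {b : ℕ} {r : Fin b → ℕ}

/-- the full points -/
abbrev CI (r : Fin b → ℕ) : Type := (k : Fin b) × Fin (r k)

/-- the group -/
def cg (i : CI r) : Fin b := i.1

/-- the order -/
def co (i : CI r) : ℕ := (i.2 : ℕ)

/-- the label -/
def cl [NeZero b] (S : ∀ j, Finset (Fin (r j))) (i : CI r) : Fin b :=
  if i.2 ∈ S i.1 then i.1 + 2 else i.1 + 1

/-- some points of one group -/
def gi {y : ℕ} (j : Fin b) (A : Finset (Fin (r j))) : Finset (CI r ⊕ Fin y) :=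
  A.map ⟨fun i => Sum.inl ⟨j, i⟩, fun i i' h => by
    have h1 : (⟨j, i⟩ : CI r) = ⟨j, i'⟩ := Sum.inl_injective h
    rw [Sigma.mk.injEq] at h1
    exact eq_of_heq h1.2⟩

theorem mem_gi {y : ℕ} {j : Fin b} {A : Finset (Fin (r j))} {u : CI r ⊕ Fin y} :
    u ∈ gi j A ↔ ∃ i ∈ A, Sum.inl ⟨j, i⟩ = u := by
  unfold gi
  rw [Finset.mem_map]
  exact Iff.rfl

theorem mem_gi' {y : ℕ} {j : Fin b} {A : Finset (Fin (r j))} {i : Fin (r j)} :
    (Sum.inl ⟨j, i⟩ : CI r ⊕ Fin y) ∈ gi j A ↔ i ∈ A := by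
  rw [mem_gi]
  constructor
  · rintro ⟨i', hi', h⟩
    have h1 : (⟨j, i'⟩ : CI r) = ⟨j, i⟩ := Sum.inl_injective h
    rw [Sigma.mk.injEq] at h1
    rw [← eq_of_heq h1.2]
    exact hi'
  · intro h
    exact ⟨i, h, rfl⟩

theorem card_gi {y : ℕ} (j : Fin b) (A : Finset (Fin (r j))) :
    (gi (y := y) j A).card = A.card := Finset.card_map _

theorem gi_disjoint {y : ℕ} {j j' : Fin b} (h : j ≠ j') (A : Finset (Fin (r j)))
    (B : Finset (Fin (r j'))) : Disjoint (gi (y := y) j A) (gi j' B) := by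
  rw [Finset.disjoint_left]
  intro u hu hv
  obtain ⟨i, _, rfl⟩ := mem_gi.1 hu
  obtain ⟨i', _, h2⟩ := mem_gi.1 hv
  have h1 : (⟨j', i'⟩ : CI r) = ⟨j, i⟩ := Sum.inl_injective h2
  rw [Sigma.mk.injEq] at h1
  exact h h1.1.symm

theorem card_group (k : Fin b) : (Finset.univ.filter fun i : CI r => cg i = k).card = r k := by
  classical
  have e : (Finset.univ.filter fun i : CI r => cg i = k) =
      Finset.univ.map ⟨fun i : Fin (r k) => (⟨k, i⟩ : CI r), fun i i' h => by
        have h' : (⟨k, i⟩ : CI r) = ⟨k, i'⟩ := h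
        rw [Sigma.mk.injEq] at h'
        exact eq_of_heq h'.2⟩ := by
    ext ⟨j, i⟩
    constructor
    · intro h
      have h' : j = k := (Finset.mem_filter.1 h).2
      subst h'
      exact Finset.mem_map.2 ⟨i, Finset.mem_univ _, rfl⟩
    · intro h
      obtain ⟨i', _, h'⟩ := Finset.mem_map.1 h
      have h2 : (⟨k, i'⟩ : CI r) = ⟨j, i⟩ := h'
      rw [Sigma.mk.injEq] at h2
      exact Finset.mem_filter.2 ⟨Finset.mem_univ _, h2.1.symm⟩
  rw [e, Finset.card_map, Finset.card_univ, Fintype.card_fin]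

theorem card_ST {y : ℕ} (k : Fin b) : (ST (J := Fin y) (cg (r := r)) k).card + r k =
    ∑ j, r j + y := by
  classical
  have h1 : (ST (J := Fin y) (cg (r := r)) k) = (gi k Finset.univ)ᶜ := by
    ext u
    rw [Finset.mem_compl]
    constructor
    · intro h hu
      obtain ⟨i, _, rfl⟩ := mem_gi.1 hu
      exact mem_ST.1 h _ rfl rfl
    · intro h
      refine mem_ST.2 ?_
      rintro ⟨j, i⟩ rfl hj
      have hj' : j = k := hj
      subst hj'
      exact h (mem_gi'.2 (Finset.mem_univ _))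
  have h2 : Fintype.card (CI r ⊕ Fin y) = ∑ j, r j + y := by
    rw [Fintype.card_sum, Fintype.card_fin, Fintype.card_sigma]
    simp
  have h3 := Finset.card_add_card_compl (gi (r := r) (y := y) k Finset.univ)
  rw [card_gi, Finset.card_univ, Fintype.card_fin, h2] at h3
  rw [h1]
  omega

end

section

variable {b : ℕ} [NeZero b] {r : Fin b → ℕ}

theorem fin_ne (hb : 3 ≤ b) (k : Fin b) : k - 1 ≠ k ∧ k - 2 ≠ k ∧ k - 2 ≠ k - 1 := by
  obtain ⟨b, rfl⟩ : ∃ b', b = b' + 3 := ⟨b - 3, by omega⟩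
  have h1 : (1 : Fin (b + 3)) ≠ 0 := by
    intro h
    have := congrArg Fin.val h
    simp at this
  have h2 : (2 : Fin (b + 3)) ≠ 0 := by
    intro h
    have := congrArg Fin.val h
    rw [Fin.val_two] at this
    simp at this
  have h3 : (2 : Fin (b + 3)) ≠ 1 := by
    intro h
    have := congrArg Fin.val h
    rw [Fin.val_two, Fin.val_one] at this
    omega
  refine ⟨fun h => h1 ?_, fun h => h2 ?_, fun h => h3 ?_⟩
  · rwa [sub_eq_self] at h
  · rwa [sub_eq_self] at h
  · rwa [sub_right_inj] at h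

theorem cl_eq (S : ∀ j, Finset (Fin (r j))) (k : Fin b) (i : CI r) :
    cl S i = k ↔ (i.1 = k - 2 ∧ i.2 ∈ S i.1) ∨ (i.1 = k - 1 ∧ i.2 ∉ S i.1) := by
  unfold cl
  split_ifs with h
  · rw [← eq_sub_iff_add_eq]
    constructor
    · intro e
      exact Or.inl ⟨e, h⟩
    · rintro (⟨e, _⟩ | ⟨_, h'⟩)
      · exact e
      · exact absurd h h'
  · rw [← eq_sub_iff_add_eq]
    constructor
    · intro e
      exact Or.inr ⟨e, h⟩
    · rintro (⟨_, h'⟩ | ⟨e, _⟩)
      · exact absurd h' h
      · exact e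

/-- the pairs of the form `k` -/
theorem SE_iff {y : ℕ} (S : ∀ j, Finset (Fin (r j))) (k : Fin b)
    (u v : CI r ⊕ Fin y) : SE cg (cl S) co k u v ↔
      (∃ i i' : Fin (r (k - 2)), i ∈ S (k - 2) ∧ i < i' ∧ u = Sum.inl ⟨k - 2, i⟩ ∧
        v = Sum.inl ⟨k - 2, i'⟩) ∨
      ∃ i i' : Fin (r (k - 1)), i ∉ S (k - 1) ∧ i < i' ∧ u = Sum.inl ⟨k - 1, i⟩ ∧
        v = Sum.inl ⟨k - 1, i'⟩ := by
  constructor
  · intro h
    rcases u with ⟨j, i⟩ | l
    · rcases v with ⟨j', i'⟩ | l'
      · obtain ⟨h1, h2, h3⟩ := h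
        have h1' : j = j' := h1
        subst h1'
        have h2' : i < i' := h2
        rcases (cl_eq S k ⟨j, i⟩).1 h3 with ⟨e, hi⟩ | ⟨e, hi⟩
        · left
          have e' : j = k - 2 := e
          subst e'
          exact ⟨i, i', hi, h2', rfl, rfl⟩
        · right
          have e' : j = k - 1 := e
          subst e'
          exact ⟨i, i', hi, h2', rfl, rfl⟩
      · exact absurd h id
    · exact absurd h id
  · rintro (⟨i, i', hi, hlt, rfl, rfl⟩ | ⟨i, i', hi, hlt, rfl, rfl⟩)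
    · exact ⟨rfl, hlt, (cl_eq S k _).2 (Or.inl ⟨rfl, hi⟩)⟩
    · exact ⟨rfl, hlt, (cl_eq S k _).2 (Or.inr ⟨rfl, hi⟩)⟩

/-- the pairs of two points of the group `j` -/
def em (y : ℕ) (j : Fin b) : Fin (r j) × Fin (r j) ↪ (CI r ⊕ Fin y) × (CI r ⊕ Fin y) :=
  ⟨fun p => (Sum.inl ⟨j, p.1⟩, Sum.inl ⟨j, p.2⟩), fun p q h => by
    have h' : ((Sum.inl ⟨j, p.1⟩, Sum.inl ⟨j, p.2⟩) : (CI r ⊕ Fin y) × (CI r ⊕ Fin y)) =
      (Sum.inl ⟨j, q.1⟩, Sum.inl ⟨j, q.2⟩) := h
    rw [Prod.mk.injEq] at h'
    have h1 : (⟨j, p.1⟩ : CI r) = ⟨j, q.1⟩ := Sum.inl_injective h'.1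
    have h2 : (⟨j, p.2⟩ : CI r) = ⟨j, q.2⟩ := Sum.inl_injective h'.2
    rw [Sigma.mk.injEq] at h1 h2
    exact Prod.ext (eq_of_heq h1.2) (eq_of_heq h2.2)⟩

omit [NeZero b] in
theorem em_apply {y : ℕ} (j : Fin b) (p : Fin (r j) × Fin (r j)) :
    em y j p = (Sum.inl ⟨j, p.1⟩, Sum.inl ⟨j, p.2⟩) := rfl

theorem card_ep_ge {y : ℕ} (hb : 3 ≤ b) (S : ∀ j, Finset (Fin (r j))) (k : Fin b) :
    cs (S (k - 2)) + cs (S (k - 1))ᶜ ≤
      (ep (SE cg (cl S) co k) (ST (J := Fin y) (cg (r := r)) k)).card := by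
  classical
  obtain ⟨n1, n2, n3⟩ := fin_ne hb k
  have hST : ∀ j (i : Fin (r j)), j ≠ k → (Sum.inl ⟨j, i⟩ : CI r ⊕ Fin y) ∈
      ST (J := Fin y) (cg (r := r)) k := by
    intro j i hj
    refine mem_ST.2 ?_
    rintro i' h
    have : i' = ⟨j, i⟩ := (Sum.inl_injective h).symm
    subst this
    exact hj
  have h1 : (Qp (S (k - 2))).map (em y (k - 2)) ∪ (Qp (S (k - 1))ᶜ).map (em y (k - 1)) ⊆
      ep (SE cg (cl S) co k) (ST (J := Fin y) (cg (r := r)) k) := by
    intro p hp
    rw [mem_ep]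
    rcases Finset.mem_union.1 hp with hp | hp
    · obtain ⟨q, hq, rfl⟩ := Finset.mem_map.1 hp
      rw [em_apply]
      obtain ⟨hq1, hq2⟩ := mem_Qp.1 hq
      exact ⟨⟨hST _ _ n2, hST _ _ n2⟩, (SE_iff S k _ _).2 (Or.inl ⟨_, _, hq1, hq2, rfl, rfl⟩)⟩
    · obtain ⟨q, hq, rfl⟩ := Finset.mem_map.1 hp
      rw [em_apply]
      obtain ⟨hq1, hq2⟩ := mem_Qp.1 hq
      exact ⟨⟨hST _ _ n1, hST _ _ n1⟩, (SE_iff S k _ _).2
        (Or.inr ⟨_, _, Finset.mem_compl.1 hq1, hq2, rfl, rfl⟩)⟩
  have h2 : Disjoint ((Qp (S (k - 2))).map (em y (k - 2)))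
      ((Qp (S (k - 1))ᶜ).map (em y (k - 1))) := by
    rw [Finset.disjoint_left]
    intro p hp hp'
    obtain ⟨q, _, rfl⟩ := Finset.mem_map.1 hp
    obtain ⟨q', _, h⟩ := Finset.mem_map.1 hp'
    rw [em_apply, em_apply, Prod.mk.injEq] at h
    have h3 : (⟨k - 1, q'.1⟩ : CI r) = ⟨k - 2, q.1⟩ := Sum.inl_injective h.1
    rw [Sigma.mk.injEq] at h3
    exact n3 h3.1.symm
  have h3 := Finset.card_le_card h1
  rw [Finset.card_union_of_disjoint h2, Finset.card_map, Finset.card_map, card_Qp, card_Qp] at h3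
  exact h3

end

end Chain

open Chain

/-- **The chain theorem**, with the sets of the stars. -/
theorem chain_sets {K : Type*} [Field K] [CharZero K] {m b y : ℕ} [NeZero b] (hb : 3 ≤ b)
    (r : Fin b → ℕ) (S : ∀ j, Finset (Fin (r j))) (tp : Fin b → ℕ)
    (htp : ∀ j (i : Fin (r j)), (i : ℕ) < tp j → i ∈ S j) (hr : ∀ k, r k ≤ m)
    (hR : ∀ k, r k + r (k - 1) + r (k - 2) ≤ m ∨
      (S (k - 2) = ∅ ∧ r k + (r (k - 1) - tp (k - 1)) ≤ m) ∨
      (r k + r (k - 2) ≤ m ∧ r k + (r (k - 1) - tp (k - 1)) + (S (k - 2)).card ≤ m ∧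
        (r (k - 1) - tp (k - 1)) + (r (k - 2) - (S (k - 2)).card) + cs (S (k - 1))ᶜ ≤
          (m - r k - (S (k - 2)).card + 1).choose 2)) :
    KQ K m b (∑ k, r k) y (∑ k, ((m + 1 - r k).choose 2 -
      ((∑ j, r j - r k) + y + cs (S (k - 2)) + cs (S (k - 1))ᶜ))) := by
  classical
  have : Infinite K := CharZero.infinite K
  have key : ∀ k, Gen K fun q : (CI r → Fin m → K) × (Fin y → Fin m → K) =>
      finrank K (SD q.1 q.2 cg (cl S) co k) ≤ (m + 1 - r k).choose 2 -
        ((∑ j, r j - r k) + y + cs (S (k - 2)) + cs (S (k - 1))ᶜ) := by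
    intro k
    obtain ⟨n1, n2, n3⟩ := fin_ne hb k
    obtain ⟨m', hm'⟩ : ∃ m', m = m' + r k := ⟨m - r k, by have := hr k; omega⟩
    have hE := SE_asy (J := Fin y) (cg (r := r)) (cl S) co k
    have hmono : ∀ T : Finset (CI r ⊕ Fin y), T ⊆ ST cg k →
        (∀ i i' : Fin (r (k - 2)), i ∈ S (k - 2) → i < i' →
          Sum.inl ⟨k - 2, i⟩ ∈ T ∧ Sum.inl ⟨k - 2, i'⟩ ∈ T) →
        (∀ i i' : Fin (r (k - 1)), i ∉ S (k - 1) → i < i' →
          Sum.inl ⟨k - 1, i⟩ ∈ T ∧ Sum.inl ⟨k - 1, i'⟩ ∈ T) →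
        Ind K m' (SE cg (cl S) co k) T →
        Gen K fun q : (CI r → Fin m → K) × (Fin y → Fin m → K) =>
          finrank K (SD q.1 q.2 cg (cl S) co k) ≤ (m + 1 - r k).choose 2 -
            ((∑ j, r j - r k) + y + cs (S (k - 2)) + cs (S (k - 1))ᶜ) := by
      intro T hT hT2 hT1 hI
      refine (SD_gen (m := m') (M := m) cg (cl S) co k ?_ T hT ?_ hI).mono fun q hq =>
        hq.trans ?_
      · rw [card_group]
        exact hm'
      · rintro ⟨j, i⟩ ⟨j', i'⟩ hj hjj hlt hl
        have hjj' : j = j' := hjj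
        subst hjj'
        have hlt' : i < i' := hlt
        rcases (cl_eq S k ⟨j, i⟩).1 hl with ⟨e, hi⟩ | ⟨e, hi⟩
        · have e' : j = k - 2 := e
          subst e'
          exact hT2 i i' hi hlt'
        · have e' : j = k - 1 := e
          subst e'
          exact hT1 i i' hi hlt'
      · have h1 := card_ST (r := r) (y := y) k
        have h2 := card_ep_ge (y := y) hb S k
        have h3 : m + 1 - r k = m' + 1 := by omega
        have h4 : r k ≤ ∑ j, r j := Finset.single_le_sum (fun _ _ => Nat.zero_le _)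
          (Finset.mem_univ k)
        rw [h3]
        apply Nat.sub_le_sub_left
        omega
    have hg : ∀ j (A : Finset (Fin (r j))), j ≠ k → gi (y := y) j A ⊆ ST cg k := by
      intro j A hj u hu
      obtain ⟨i, _, rfl⟩ := mem_gi.1 hu
      refine mem_ST.2 ?_
      rintro i' h
      have : i' = ⟨j, i⟩ := (Sum.inl_injective h).symm
      subst this
      exact hj
    rcases hR k with h | ⟨hS, h⟩ | ⟨h1, h2, h3⟩
    · -- the three groups are small
      refine hmono (gi (k - 1) Finset.univ ∪ gi (k - 2) Finset.univ)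
        (Finset.union_subset (hg _ _ n1) (hg _ _ n2)) (fun i i' _ _ => ?_) (fun i i' _ _ => ?_)
        (Ind.clique hE ?_)
      · exact ⟨Finset.mem_union_right _ (mem_gi'.2 (Finset.mem_univ _)),
          Finset.mem_union_right _ (mem_gi'.2 (Finset.mem_univ _))⟩
      · exact ⟨Finset.mem_union_left _ (mem_gi'.2 (Finset.mem_univ _)),
          Finset.mem_union_left _ (mem_gi'.2 (Finset.mem_univ _))⟩
      · refine (Finset.card_union_le _ _).trans ?_
        rw [card_gi, card_gi, Finset.card_univ, Finset.card_univ, Fintype.card_fin,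
          Fintype.card_fin]
        omega
    · -- no star from the group `k - 2`
      have hcl : (gi (r := r) (y := y) (k - 1)
          (Finset.univ.filter fun i => tp (k - 1) ≤ (i : ℕ))).card ≤ r (k - 1) - tp (k - 1) := by
        rw [card_gi]
        have e : (Finset.univ.filter fun i : Fin (r (k - 1)) => tp (k - 1) ≤ (i : ℕ)).card =
            r (k - 1) - tp (k - 1) := by
          have h5 : (Finset.univ.filter fun i : Fin (r (k - 1)) => tp (k - 1) ≤ (i : ℕ)).map
              Fin.valEmbedding = Finset.Ico (tp (k - 1)) (r (k - 1)) := by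
            ext a
            simp only [Finset.mem_map, Finset.mem_filter, Finset.mem_univ, true_and,
              Fin.valEmbedding_apply, Finset.mem_Ico]
            constructor
            · rintro ⟨i, hi, rfl⟩
              exact ⟨hi, i.2⟩
            · rintro ⟨ha, hb'⟩
              exact ⟨⟨a, hb'⟩, ha, rfl⟩
          rw [← Finset.card_map Fin.valEmbedding, h5, Nat.card_Ico]
        exact e.le
      refine hmono (gi (k - 1) (Finset.univ.filter fun i => tp (k - 1) ≤ (i : ℕ))) (hg _ _ n1)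
        (fun i i' hi _ => ?_) (fun i i' hi hlt => ?_) (Ind.clique hE (hcl.trans (by omega)))
      · rw [hS] at hi
        exact absurd hi (Finset.notMem_empty _)
      · have hi1 : tp (k - 1) ≤ (i : ℕ) := by
          by_contra hlt'
          exact hi (htp _ _ (not_le.1 hlt'))
        have hi2 : tp (k - 1) ≤ (i' : ℕ) := hi1.trans (le_of_lt hlt)
        exact ⟨mem_gi'.2 (Finset.mem_filter.2 ⟨Finset.mem_univ _, hi1⟩),
          mem_gi'.2 (Finset.mem_filter.2 ⟨Finset.mem_univ _, hi2⟩)⟩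
    · -- centres in the group `k - 2`
      have e0 : (Finset.univ.filter fun i : Fin (r (k - 1)) => tp (k - 1) ≤ (i : ℕ)).card =
          r (k - 1) - tp (k - 1) := by
        have h5 : (Finset.univ.filter fun i : Fin (r (k - 1)) => tp (k - 1) ≤ (i : ℕ)).map
            Fin.valEmbedding = Finset.Ico (tp (k - 1)) (r (k - 1)) := by
          ext a
          simp only [Finset.mem_map, Finset.mem_filter, Finset.mem_univ, true_and,
            Fin.valEmbedding_apply, Finset.mem_Ico]
          constructor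
          · rintro ⟨i, hi, rfl⟩
            exact ⟨hi, i.2⟩
          · rintro ⟨ha, hb'⟩
            exact ⟨⟨a, hb'⟩, ha, rfl⟩
        rw [← Finset.card_map Fin.valEmbedding, h5, Nat.card_Ico]
      set C : Finset (CI r ⊕ Fin y) := gi (k - 2) (S (k - 2)) with hC
      set P : Finset (CI r ⊕ Fin y) := gi (k - 1)
        (Finset.univ.filter fun i => tp (k - 1) ≤ (i : ℕ)) with hP
      set L : Finset (CI r ⊕ Fin y) := gi (k - 2) (S (k - 2))ᶜ with hL
      have cC : C.card = (S (k - 2)).card := card_gi _ _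
      have cP : P.card = r (k - 1) - tp (k - 1) := (card_gi _ _).trans e0
      have cL : L.card = r (k - 2) - (S (k - 2)).card := by
        rw [hL, card_gi, Finset.card_compl, Fintype.card_fin]
      have hSc : (S (k - 2)).card ≤ r (k - 2) := by
        have := Finset.card_le_univ (S (k - 2))
        rwa [Fintype.card_fin] at this
      obtain ⟨m₀, hm₀⟩ : ∃ m₀, m' = m₀ + C.card := ⟨m' - C.card, by rw [cC]; omega⟩
      have hCPL : Disjoint C (P ∪ L) := by
        rw [Finset.disjoint_union_right]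
        refine ⟨gi_disjoint n3 _ _, ?_⟩
        rw [Finset.disjoint_left]
        intro u hu hv
        obtain ⟨i, hi, rfl⟩ := mem_gi.1 hu
        exact (Finset.mem_compl.1 (mem_gi'.1 hv)) hi
      have hPL : ∀ u ∈ P ∪ L, ∀ v ∈ P ∪ L, SE cg (cl S) co k u v →
          ∃ i i' : Fin (r (k - 1)), i ∉ S (k - 1) ∧ i < i' ∧ u = Sum.inl ⟨k - 1, i⟩ ∧
            v = Sum.inl ⟨k - 1, i'⟩ := by
        intro u hu v hv e
        rcases (SE_iff S k u v).1 e with ⟨i, i', hi, _, rfl, _⟩ | h
        · exfalso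
          exact Finset.disjoint_left.1 hCPL (mem_gi'.2 hi) hu
        · exact h
      have hInd : Ind K (m₀ + C.card) (SE cg (cl S) co k) (C ∪ (P ∪ L)) := by
        refine Ind.note hE hCPL ?_ (by rw [cP]; omega) ?_ ?_
        · -- neighbours of the centres
          intro c hc
          obtain ⟨i, hi, rfl⟩ := mem_gi.1 hc
          have h5 : nb (SE cg (cl S) co k) (P ∪ L) (Sum.inl ⟨k - 2, i⟩) ⊆ L := by
            intro u hu
            obtain ⟨hu1, hu2⟩ := mem_nb.1 hu
            have hgrp : ∃ i' : Fin (r (k - 2)), u = Sum.inl ⟨k - 2, i'⟩ := by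
              rcases hu2 with e | e
              · rcases (SE_iff S k _ _).1 e with ⟨a, a', _, _, _, rfl⟩ | ⟨a, a', _, _, ha, _⟩
                · exact ⟨a', rfl⟩
                · exfalso
                  have h6 : (⟨k - 2, i⟩ : CI r) = ⟨k - 1, a⟩ := Sum.inl_injective ha
                  rw [Sigma.mk.injEq] at h6
                  exact n3 h6.1
              · rcases (SE_iff S k _ _).1 e with ⟨a, a', _, _, rfl, _⟩ | ⟨a, a', _, _, _, ha⟩
                · exact ⟨a, rfl⟩
                · exfalso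
                  have h6 : (⟨k - 2, i⟩ : CI r) = ⟨k - 1, a'⟩ := Sum.inl_injective ha
                  rw [Sigma.mk.injEq] at h6
                  exact n3 h6.1
            obtain ⟨i', rfl⟩ := hgrp
            rcases Finset.mem_union.1 hu1 with h7 | h7
            · exfalso
              exact Finset.disjoint_left.1 (gi_disjoint (y := y) n3 Finset.univ
                (Finset.univ.filter fun i => tp (k - 1) ≤ (i : ℕ))) (mem_gi'.2 (Finset.mem_univ _)) h7
            · exact h7
          refine (Finset.card_le_card h5).trans ?_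
          rw [cL]
          omega
        · intro u hu v hv e
          obtain ⟨i, i', hi, hlt, rfl, rfl⟩ := hPL u hu v hv e
          have hi1 : tp (k - 1) ≤ (i : ℕ) := by
            by_contra hlt'
            exact hi (htp _ _ (not_le.1 hlt'))
          have hi2 : tp (k - 1) ≤ (i' : ℕ) := hi1.trans (le_of_lt hlt)
          exact ⟨mem_gi'.2 (Finset.mem_filter.2 ⟨Finset.mem_univ _, hi1⟩),
            mem_gi'.2 (Finset.mem_filter.2 ⟨Finset.mem_univ _, hi2⟩)⟩
        · -- the count
          have h5 : ep (SE cg (cl S) co k) (P ∪ L) ⊆ (Qp (S (k - 1))ᶜ).map (em y (k - 1)) := by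
            intro p hp
            obtain ⟨⟨hp1, hp2⟩, hp3⟩ := mem_ep.1 hp
            obtain ⟨i, i', hi, hlt, e1, e2⟩ := hPL _ hp1 _ hp2 hp3
            refine Finset.mem_map.2 ⟨(i, i'), mem_Qp.2 ⟨Finset.mem_compl.2 hi, hlt⟩, ?_⟩
            rw [em_apply]
            exact Prod.ext e1.symm e2.symm
          have h6 := Finset.card_le_card h5
          rw [Finset.card_map, card_Qp] at h6
          have h7 : (P ∪ L).card ≤ P.card + L.card := Finset.card_union_le _ _
          have h8 : m₀ = m - r k - (S (k - 2)).card := by rw [cC] at hm₀; omega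
          rw [← h8] at h3
          rw [cP, cL] at h7
          omega
      rw [← hm₀] at hInd
      refine hmono (C ∪ (P ∪ L)) ?_ (fun i i' hi hlt => ?_) (fun i i' hi hlt => ?_) hInd
      · exact Finset.union_subset (hg _ _ n2) (Finset.union_subset (hg _ _ n1) (hg _ _ n2))
      · have hall : ∀ a : Fin (r (k - 2)), (Sum.inl ⟨k - 2, a⟩ : CI r ⊕ Fin y) ∈
            C ∪ (P ∪ L) := by
          intro a
          by_cases ha : a ∈ S (k - 2)
          · exact Finset.mem_union_left _ (mem_gi'.2 ha)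
          · exact Finset.mem_union_right _ (Finset.mem_union_right _
              (mem_gi'.2 (Finset.mem_compl.2 ha)))
        exact ⟨hall i, hall i'⟩
      · have hi1 : tp (k - 1) ≤ (i : ℕ) := by
          by_contra hlt'
          exact hi (htp _ _ (not_le.1 hlt'))
        have hi2 : tp (k - 1) ≤ (i' : ℕ) := hi1.trans (le_of_lt hlt)
        exact ⟨Finset.mem_union_right _ (Finset.mem_union_left _
            (mem_gi'.2 (Finset.mem_filter.2 ⟨Finset.mem_univ _, hi1⟩))),
          Finset.mem_union_right _ (Finset.mem_union_left _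
            (mem_gi'.2 (Finset.mem_filter.2 ⟨Finset.mem_univ _, hi2⟩)))⟩
  obtain ⟨q, hq⟩ := (Gen.forall key).exists
  have hst := star q.1 q.2 cg (cl S) co _ hq
  have e1 : Fintype.card (CI r) = ∑ k, r k := by
    rw [Fintype.card_sigma]
    simp
  rw [e1, Fintype.card_fin] at hst
  exact hst

end Pool.Agent.WarR
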