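import Pool.Agent.WarR.Chain

/-!
# The chain assignment, refined rank condition (MP_db021c_ag, degree 2)   (helper41, after `Chain.lean` of helper42)

As `chain_sets`; the points of the group `k - 2` which are not leaves of a star of `S (k - 2)` (the first
`tq (k - 2)` points) are not counted in the rank condition.
-/

set_option autoImplicit false

open Module

namespace Pool.Agent.WarR

open Pool.Agent.War Chain

/-- **The chain theorem**, refined: only the leaves of the stars of `S (k - 2)` are counted. -/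
theorem chain_sets' {K : Type*} [Field K] [CharZero K] {m b y : ℕ} [NeZero b] (hb : 3 ≤ b)
    (r : Fin b → ℕ) (S : ∀ j, Finset (Fin (r j))) (tp tq : Fin b → ℕ)
    (htp : ∀ j (i : Fin (r j)), (i : ℕ) < tp j → i ∈ S j)
    (htq : ∀ j, ∀ i ∈ S j, tq j ≤ (i : ℕ)) (hr : ∀ k, r k ≤ m)
    (hR : ∀ k, r k + r (k - 1) + r (k - 2) ≤ m ∨
      (S (k - 2) = ∅ ∧ r k + (r (k - 1) - tp (k - 1)) ≤ m) ∨
      (r k + (r (k - 2) - tq (k - 2)) ≤ m ∧
        r k + (r (k - 1) - tp (k - 1)) + (S (k - 2)).card ≤ m ∧
        (r (k - 1) - tp (k - 1)) + (r (k - 2) - tq (k - 2) - (S (k - 2)).card) +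
          cs (S (k - 1))ᶜ ≤ (m - r k - (S (k - 2)).card + 1).choose 2)) :
    KQ K m b (∑ k, r k) y (∑ k, ((m + 1 - r k).choose 2 -
      ((∑ j, r j - r k) + y + cs (S (k - 2)) + cs (S (k - 1))ᶜ))) := by
  classical
  have : Infinite K := CharZero.infinite K
  have key : ∀ k, Gen K fun q : (CI r → Fin m → K) × (Fin y → Fin m → K) =>
      finrank K (SD q.1 q.2 cg (cl S) co k) ≤ (m + 1 - r k).choose 2 -
        ((∑ j, r j - r k) + y + cs (S (k - 2)) + cs (S (k - 1))ᶜ) := by
    intro k
    obtain ⟨n1, n2, n3⟩ := fin_ne hb k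
    obtain ⟨m', hm'⟩ : ∃ m', m = m' + r k := ⟨m - r k, by have := hr k; omega⟩
    have hE := SE_asy (J := Fin y) (cg (r := r)) (cl S) co k
    have hmono : ∀ T : Finset (CI r ⊕ Fin y), T ⊆ ST cg k →
        (∀ i i' : Fin (r (k - 2)), i ∈ S (k - 2) → i < i' →
          Sum.inl ⟨k - 2, i⟩ ∈ T ∧ Sum.inl ⟨k - 2, i'⟩ ∈ T) →
        (∀ i i' : Fin (r (k - 1)), i ∉ S (k - 1) → i < i' →
          Sum.inl ⟨k - 1, i⟩ ∈ T ∧ Sum.inl ⟨k - 1, i'⟩ ∈ T) →
        Ind K m' (SE cg (cl S) co k) T →
        Gen K fun q : (CI r → Fin m → K) × (Fin y → Fin m → K) =>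
          finrank K (SD q.1 q.2 cg (cl S) co k) ≤ (m + 1 - r k).choose 2 -
            ((∑ j, r j - r k) + y + cs (S (k - 2)) + cs (S (k - 1))ᶜ) := by
      intro T hT hT2 hT1 hI
      refine (SD_gen (m := m') (M := m) cg (cl S) co k ?_ T hT ?_ hI).mono fun q hq =>
        hq.trans ?_
      · rw [card_group]
        exact hm'
      · rintro ⟨j, i⟩ ⟨j', i'⟩ hj hjj hlt hl
        have hjj' : j = j' := hjj
        subst hjj'
        have hlt' : i < i' := hlt
        rcases (cl_eq S k ⟨j, i⟩).1 hl with ⟨e, hi⟩ | ⟨e, hi⟩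
        · have e' : j = k - 2 := e
          subst e'
          exact hT2 i i' hi hlt'
        · have e' : j = k - 1 := e
          subst e'
          exact hT1 i i' hi hlt'
      · have h1 := card_ST (r := r) (y := y) k
        have h2 := card_ep_ge (y := y) hb S k
        have h3 : m + 1 - r k = m' + 1 := by omega
        have h4 : r k ≤ ∑ j, r j := Finset.single_le_sum (fun _ _ => Nat.zero_le _)
          (Finset.mem_univ k)
        rw [h3]
        apply Nat.sub_le_sub_left
        omega
    have hg : ∀ j (A : Finset (Fin (r j))), j ≠ k → gi (y := y) j A ⊆ ST cg k := by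
      intro j A hj u hu
      obtain ⟨i, _, rfl⟩ := mem_gi.1 hu
      refine mem_ST.2 ?_
      rintro i' h
      have : i' = ⟨j, i⟩ := (Sum.inl_injective h).symm
      subst this
      exact hj
    rcases hR k with h | ⟨hS, h⟩ | ⟨h1, h2, h3⟩
    · -- the three groups are small
      refine hmono (gi (k - 1) Finset.univ ∪ gi (k - 2) Finset.univ)
        (Finset.union_subset (hg _ _ n1) (hg _ _ n2)) (fun i i' _ _ => ?_) (fun i i' _ _ => ?_)
        (Ind.clique hE ?_)
      · exact ⟨Finset.mem_union_right _ (mem_gi'.2 (Finset.mem_univ _)),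
          Finset.mem_union_right _ (mem_gi'.2 (Finset.mem_univ _))⟩
      · exact ⟨Finset.mem_union_left _ (mem_gi'.2 (Finset.mem_univ _)),
          Finset.mem_union_left _ (mem_gi'.2 (Finset.mem_univ _))⟩
      · refine (Finset.card_union_le _ _).trans ?_
        rw [card_gi, card_gi, Finset.card_univ, Finset.card_univ, Fintype.card_fin,
          Fintype.card_fin]
        omega
    · -- no star from the group `k - 2`
      have hcl : (gi (r := r) (y := y) (k - 1)
          (Finset.univ.filter fun i => tp (k - 1) ≤ (i : ℕ))).card ≤ r (k - 1) - tp (k - 1) := by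
        rw [card_gi]
        have e : (Finset.univ.filter fun i : Fin (r (k - 1)) => tp (k - 1) ≤ (i : ℕ)).card =
            r (k - 1) - tp (k - 1) := by
          have h5 : (Finset.univ.filter fun i : Fin (r (k - 1)) => tp (k - 1) ≤ (i : ℕ)).map
              Fin.valEmbedding = Finset.Ico (tp (k - 1)) (r (k - 1)) := by
            ext a
            simp only [Finset.mem_map, Finset.mem_filter, Finset.mem_univ, true_and,
              Fin.valEmbedding_apply, Finset.mem_Ico]
            constructor
            · rintro ⟨i, hi, rfl⟩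
              exact ⟨hi, i.2⟩
            · rintro ⟨ha, hb'⟩
              exact ⟨⟨a, hb'⟩, ha, rfl⟩
          rw [← Finset.card_map Fin.valEmbedding, h5, Nat.card_Ico]
        exact e.le
      refine hmono (gi (k - 1) (Finset.univ.filter fun i => tp (k - 1) ≤ (i : ℕ))) (hg _ _ n1)
        (fun i i' hi _ => ?_) (fun i i' hi hlt => ?_) (Ind.clique hE (hcl.trans (by omega)))
      · rw [hS] at hi
        exact absurd hi (Finset.notMem_empty _)
      · have hi1 : tp (k - 1) ≤ (i : ℕ) := by
          by_contra hlt'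
          exact hi (htp _ _ (not_le.1 hlt'))
        have hi2 : tp (k - 1) ≤ (i' : ℕ) := hi1.trans (le_of_lt hlt)
        exact ⟨mem_gi'.2 (Finset.mem_filter.2 ⟨Finset.mem_univ _, hi1⟩),
          mem_gi'.2 (Finset.mem_filter.2 ⟨Finset.mem_univ _, hi2⟩)⟩
    · -- centres in the group `k - 2`
      have e0 : (Finset.univ.filter fun i : Fin (r (k - 1)) => tp (k - 1) ≤ (i : ℕ)).card =
          r (k - 1) - tp (k - 1) := by
        have h5 : (Finset.univ.filter fun i : Fin (r (k - 1)) => tp (k - 1) ≤ (i : ℕ)).map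
            Fin.valEmbedding = Finset.Ico (tp (k - 1)) (r (k - 1)) := by
          ext a
          simp only [Finset.mem_map, Finset.mem_filter, Finset.mem_univ, true_and,
            Fin.valEmbedding_apply, Finset.mem_Ico]
          constructor
          · rintro ⟨i, hi, rfl⟩
            exact ⟨hi, i.2⟩
          · rintro ⟨ha, hb'⟩
            exact ⟨⟨a, hb'⟩, ha, rfl⟩
        rw [← Finset.card_map Fin.valEmbedding, h5, Nat.card_Ico]
      set C : Finset (CI r ⊕ Fin y) := gi (k - 2) (S (k - 2)) with hC
      set P : Finset (CI r ⊕ Fin y) := gi (k - 1)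
        (Finset.univ.filter fun i => tp (k - 1) ≤ (i : ℕ)) with hP
      set L : Finset (CI r ⊕ Fin y) := gi (k - 2)
        ((Finset.univ.filter fun i => tq (k - 2) ≤ (i : ℕ)) \ S (k - 2)) with hL
      have f0 : (Finset.univ.filter fun i : Fin (r (k - 2)) => tq (k - 2) ≤ (i : ℕ)).card =
          r (k - 2) - tq (k - 2) := by
        have h5 : (Finset.univ.filter fun i : Fin (r (k - 2)) => tq (k - 2) ≤ (i : ℕ)).map
            Fin.valEmbedding = Finset.Ico (tq (k - 2)) (r (k - 2)) := by
          ext a
          simp only [Finset.mem_map, Finset.mem_filter, Finset.mem_univ, true_and,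
            Fin.valEmbedding_apply, Finset.mem_Ico]
          constructor
          · rintro ⟨i, hi, rfl⟩
            exact ⟨hi, i.2⟩
          · rintro ⟨ha, hb'⟩
            exact ⟨⟨a, hb'⟩, ha, rfl⟩
        rw [← Finset.card_map Fin.valEmbedding, h5, Nat.card_Ico]
      have f1 : S (k - 2) ⊆ Finset.univ.filter fun i : Fin (r (k - 2)) => tq (k - 2) ≤ (i : ℕ) :=
        fun i hi => Finset.mem_filter.2 ⟨Finset.mem_univ _, htq _ i hi⟩
      have cC : C.card = (S (k - 2)).card := card_gi _ _
      have cP : P.card = r (k - 1) - tp (k - 1) := (card_gi _ _).trans e0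
      have cL : L.card = r (k - 2) - tq (k - 2) - (S (k - 2)).card := by
        rw [hL, card_gi, Finset.card_sdiff_of_subset f1, f0]
      have hSc : (S (k - 2)).card ≤ r (k - 2) - tq (k - 2) := by
        have := Finset.card_le_card f1
        rwa [f0] at this
      obtain ⟨m₀, hm₀⟩ : ∃ m₀, m' = m₀ + C.card := ⟨m' - C.card, by rw [cC]; omega⟩
      have hCPL : Disjoint C (P ∪ L) := by
        rw [Finset.disjoint_union_right]
        refine ⟨gi_disjoint n3 _ _, ?_⟩
        rw [Finset.disjoint_left]
        intro u hu hv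
        obtain ⟨i, hi, rfl⟩ := mem_gi.1 hu
        exact (Finset.mem_sdiff.1 (mem_gi'.1 hv)).2 hi
      have hPL : ∀ u ∈ P ∪ L, ∀ v ∈ P ∪ L, SE cg (cl S) co k u v →
          ∃ i i' : Fin (r (k - 1)), i ∉ S (k - 1) ∧ i < i' ∧ u = Sum.inl ⟨k - 1, i⟩ ∧
            v = Sum.inl ⟨k - 1, i'⟩ := by
        intro u hu v hv e
        rcases (SE_iff S k u v).1 e with ⟨i, i', hi, _, rfl, _⟩ | h
        · exfalso
          exact Finset.disjoint_left.1 hCPL (mem_gi'.2 hi) hu
        · exact h
      have hInd : Ind K (m₀ + C.card) (SE cg (cl S) co k) (C ∪ (P ∪ L)) := by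
        refine Ind.note hE hCPL ?_ (by rw [cP]; omega) ?_ ?_
        · -- neighbours of the centres
          intro c hc
          obtain ⟨i, hi, rfl⟩ := mem_gi.1 hc
          have h5 : nb (SE cg (cl S) co k) (P ∪ L) (Sum.inl ⟨k - 2, i⟩) ⊆ L := by
            intro u hu
            obtain ⟨hu1, hu2⟩ := mem_nb.1 hu
            have hgrp : ∃ i' : Fin (r (k - 2)), u = Sum.inl ⟨k - 2, i'⟩ := by
              rcases hu2 with e | e
              · rcases (SE_iff S k _ _).1 e with ⟨a, a', _, _, _, rfl⟩ | ⟨a, a', _, _, ha, _⟩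
                · exact ⟨a', rfl⟩
                · exfalso
                  have h6 : (⟨k - 2, i⟩ : CI r) = ⟨k - 1, a⟩ := Sum.inl_injective ha
                  rw [Sigma.mk.injEq] at h6
                  exact n3 h6.1
              · rcases (SE_iff S k _ _).1 e with ⟨a, a', _, _, rfl, _⟩ | ⟨a, a', _, _, _, ha⟩
                · exact ⟨a, rfl⟩
                · exfalso
                  have h6 : (⟨k - 2, i⟩ : CI r) = ⟨k - 1, a'⟩ := Sum.inl_injective ha
                  rw [Sigma.mk.injEq] at h6
                  exact n3 h6.1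
            obtain ⟨i', rfl⟩ := hgrp
            rcases Finset.mem_union.1 hu1 with h7 | h7
            · exfalso
              exact Finset.disjoint_left.1 (gi_disjoint (y := y) n3 Finset.univ
                (Finset.univ.filter fun i => tp (k - 1) ≤ (i : ℕ))) (mem_gi'.2 (Finset.mem_univ _)) h7
            · exact h7
          refine (Finset.card_le_card h5).trans ?_
          rw [cL]
          omega
        · intro u hu v hv e
          obtain ⟨i, i', hi, hlt, rfl, rfl⟩ := hPL u hu v hv e
          have hi1 : tp (k - 1) ≤ (i : ℕ) := by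
            by_contra hlt'
            exact hi (htp _ _ (not_le.1 hlt'))
          have hi2 : tp (k - 1) ≤ (i' : ℕ) := hi1.trans (le_of_lt hlt)
          exact ⟨mem_gi'.2 (Finset.mem_filter.2 ⟨Finset.mem_univ _, hi1⟩),
            mem_gi'.2 (Finset.mem_filter.2 ⟨Finset.mem_univ _, hi2⟩)⟩
        · -- the count
          have h5 : ep (SE cg (cl S) co k) (P ∪ L) ⊆ (Qp (S (k - 1))ᶜ).map (em y (k - 1)) := by
            intro p hp
            obtain ⟨⟨hp1, hp2⟩, hp3⟩ := mem_ep.1 hp
            obtain ⟨i, i', hi, hlt, e1, e2⟩ := hPL _ hp1 _ hp2 hp3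
            refine Finset.mem_map.2 ⟨(i, i'), mem_Qp.2 ⟨Finset.mem_compl.2 hi, hlt⟩, ?_⟩
            rw [em_apply]
            exact Prod.ext e1.symm e2.symm
          have h6 := Finset.card_le_card h5
          rw [Finset.card_map, card_Qp] at h6
          have h7 : (P ∪ L).card ≤ P.card + L.card := Finset.card_union_le _ _
          have h8 : m₀ = m - r k - (S (k - 2)).card := by rw [cC] at hm₀; omega
          rw [← h8] at h3
          rw [cP, cL] at h7
          omega
      rw [← hm₀] at hInd
      refine hmono (C ∪ (P ∪ L)) ?_ (fun i i' hi hlt => ?_) (fun i i' hi hlt => ?_) hInd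
      · exact Finset.union_subset (hg _ _ n2) (Finset.union_subset (hg _ _ n1) (hg _ _ n2))
      · have hall : ∀ a : Fin (r (k - 2)), tq (k - 2) ≤ (a : ℕ) →
            (Sum.inl ⟨k - 2, a⟩ : CI r ⊕ Fin y) ∈ C ∪ (P ∪ L) := by
          intro a hta
          by_cases ha : a ∈ S (k - 2)
          · exact Finset.mem_union_left _ (mem_gi'.2 ha)
          · exact Finset.mem_union_right _ (Finset.mem_union_right _
              (mem_gi'.2 (Finset.mem_sdiff.2 ⟨Finset.mem_filter.2 ⟨Finset.mem_univ _, hta⟩, ha⟩)))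
        have hti := htq _ i hi
        exact ⟨hall i hti, hall i' (hti.trans (le_of_lt hlt))⟩
      · have hi1 : tp (k - 1) ≤ (i : ℕ) := by
          by_contra hlt'
          exact hi (htp _ _ (not_le.1 hlt'))
        have hi2 : tp (k - 1) ≤ (i' : ℕ) := hi1.trans (le_of_lt hlt)
        exact ⟨Finset.mem_union_right _ (Finset.mem_union_left _
            (mem_gi'.2 (Finset.mem_filter.2 ⟨Finset.mem_univ _, hi1⟩))),
          Finset.mem_union_right _ (Finset.mem_union_left _
            (mem_gi'.2 (Finset.mem_filter.2 ⟨Finset.mem_univ _, hi2⟩)))⟩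
  obtain ⟨q, hq⟩ := (Gen.forall key).exists
  have hst := star q.1 q.2 cg (cl S) co _ hq
  have e1 : Fintype.card (CI r) = ∑ k, r k := by
    rw [Fintype.card_sigma]
    simp
  rw [e1, Fintype.card_fin] at hst
  exact hst

end Pool.Agent.WarR
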