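import Pool.Agent.WarR.Chain

/-!
# The chain assignment with numbers (MP_db021c_ag, degree 2)   (helper42)

`gre r F = (t, e)`: `F` pairs are taken from the group of `r` points as the `t` largest stars `r-1, r-2, ..` and one
partial star of size `e` (`e = 0`: none). `chain_flow`: the group `k` sends `F k` pairs to the form `k + 2` and the
others to the form `k + 1`.
-/

set_option autoImplicit false

open Module

namespace Pool.Agent.WarR

open Pool.Agent.War

/-- greedy: the number of complete stars and the size of the partial star -/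
def gre : ℕ → ℕ → ℕ × ℕ
  | 0, F => (0, F)
  | r + 1, F => if 0 < r ∧ r ≤ F then ((gre r (F - r)).1 + 1, (gre r (F - r)).2) else (0, F)

/-- number of complete stars -/
def gt (r F : ℕ) : ℕ := (gre r F).1

/-- number of stars -/
def gs (r F : ℕ) : ℕ := (gre r F).1 + if (gre r F).2 = 0 then 0 else 1

/-- the stars -/
theorem gre_set (r : ℕ) : ∀ F : ℕ, 2 * F ≤ r * (r - 1) → ∃ S : Finset (Fin r),
    cs S = F ∧ S.card = gs r F ∧ ∀ i : Fin r, (i : ℕ) < gt r F → i ∈ S := by
  induction r with
  | zero =>
    intro F hF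
    have : F = 0 := by omega
    subst this
    exact ⟨∅, rfl, rfl, fun i => i.elim0⟩
  | succ r ih =>
    intro F hF
    by_cases h : 0 < r ∧ r ≤ F
    · obtain ⟨S, h1, h2, h3⟩ := ih (F - r) (by
        have : (r + 1) * (r + 1 - 1) = r * (r - 1) + 2 * r := by
          obtain ⟨s, rfl⟩ : ∃ s, r = s + 1 := ⟨r - 1, by omega⟩
          simp only [Nat.add_sub_cancel]
          ring
        omega)
      refine ⟨insert 0 (S.map (Fin.succEmb r)), ?_, ?_, ?_⟩
      · have h4 : cs (S.map (Fin.succEmb r)) = cs S := by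
          unfold cs
          rw [Finset.sum_map]
          refine Finset.sum_congr rfl fun i _ => ?_
          simp only [Fin.coe_succEmb, Fin.val_succ]
          omega
        have h5 : cs (insert 0 (S.map (Fin.succEmb r))) = r + cs (S.map (Fin.succEmb r)) := by
          unfold cs
          rw [Finset.sum_insert (by simp [Fin.succ_ne_zero])]
          simp
        rw [h5, h4, h1]
        omega
      · rw [Finset.card_insert_of_notMem (by simp [Fin.succ_ne_zero]), Finset.card_map, h2]
        unfold gs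
        rw [gre, if_pos h]
        simp only
        omega
      · intro i hi
        refine Fin.cases (fun _ => ?_) (fun j hj => ?_) i hi
        · exact Finset.mem_insert_self _ _
        · refine Finset.mem_insert_of_mem (Finset.mem_map.2 ⟨j, h3 j ?_, rfl⟩)
          have h6 : gt (r + 1) F = gt r (F - r) + 1 := by
            unfold gt
            rw [gre, if_pos h]
          rw [h6, Fin.val_succ] at hj
          omega
    · have hg : gre (r + 1) F = (0, F) := by rw [gre, if_neg h]
      by_cases h0 : F = 0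
      · subst h0
        refine ⟨∅, rfl, ?_, ?_⟩
        · unfold gs
          rw [hg]
          simp
        · intro i hi
          unfold gt at hi
          rw [hg] at hi
          exact absurd hi (Nat.not_lt_zero _)
      · have hr : 0 < r := by
          rcases Nat.eq_zero_or_pos r with h1 | h1
          · subst h1
            simp at hF
            exact absurd hF h0
          · exact h1
        have hFr : F < r := by
          by_contra hc
          exact h ⟨hr, by omega⟩
        refine ⟨{⟨r - F, by omega⟩}, ?_, ?_, ?_⟩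
        · unfold cs
          rw [Finset.sum_singleton]
          simp only
          omega
        · unfold gs
          rw [hg, Finset.card_singleton]
          simp [h0]
        · intro i hi
          unfold gt at hi
          rw [hg] at hi
          exact absurd hi (Nat.not_lt_zero _)

/-- upper bound for the number of the stars -/
theorem gs_le (r : ℕ) : ∀ F t : ℕ, 2 * F ≤ t * (2 * r - 1 - t) → t ≤ r → gs r F ≤ t := by
  induction r with
  | zero =>
    intro F t h ht
    have : t = 0 := by omega
    subst this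
    have : F = 0 := by omega
    subst this
    simp [gs, gre]
  | succ r ih =>
    intro F t h ht
    by_cases hc : 0 < r ∧ r ≤ F
    · have e : gs (r + 1) F = gs r (F - r) + 1 := by
        unfold gs
        rw [gre, if_pos hc]
        simp only
        omega
      rw [e]
      rcases t with _ | t
      · omega
      · have h2 : gs r (F - r) ≤ t := by
          refine ih (F - r) t ?_ (by omega)
          have e1 : (t + 1) * (2 * (r + 1) - 1 - (t + 1)) ≤ t * (2 * r - 1 - t) + 2 * r := by
            obtain ⟨u, hu⟩ : ∃ u, r = t + u := ⟨r - t, by omega⟩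
            subst hu
            rcases Nat.eq_zero_or_pos t with h5 | h5
            · subst h5
              simp
              omega
            · have a1 : 2 * (t + u + 1) - 1 - (t + 1) = t + 2 * u := by omega
              have a2 : 2 * (t + u) - 1 - t = t + 2 * u - 1 := by omega
              rw [a1, a2]
              obtain ⟨v, hv⟩ : ∃ v, t + 2 * u = v + 1 := ⟨t + 2 * u - 1, by omega⟩
              rw [hv, Nat.add_sub_cancel]
              have h6 : 2 * (t + u) = t + (v + 1) := by omega
              rw [h6]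
              apply le_of_eq
              ring
          omega
        omega
    · unfold gs
      rw [gre, if_neg hc]
      simp only
      by_cases h0 : F = 0
      · simp [h0]
      · rw [if_neg h0]
        rcases t with _ | t
        · omega
        · omega

/-- lower bound for the number of the complete stars -/
theorem le_gt (r : ℕ) : ∀ F t : ℕ, t * (2 * r - 1 - t) ≤ 2 * F → t < r → t ≤ gt r F := by
  induction r with
  | zero =>
    intro F t h ht
    omega
  | succ r ih =>
    intro F t h ht
    rcases t with _ | t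
    · exact Nat.zero_le _
    · have e1 : (t + 1) * (2 * (r + 1) - 1 - (t + 1)) = t * (2 * r - 1 - t) + 2 * r := by
        obtain ⟨u, hu⟩ : ∃ u, r = t + u + 1 := ⟨r - t - 1, by omega⟩
        subst hu
        have a1 : 2 * (t + u + 1 + 1) - 1 - (t + 1) = t + 2 * u + 2 := by omega
        have a2 : 2 * (t + u + 1) - 1 - t = t + 2 * u + 1 := by omega
        rw [a1, a2]
        ring
      have hrF : r ≤ F := by
        have : 2 * r ≤ 2 * F := by omega
        omega
      have hr : 0 < r := by omega
      have e2 : gt (r + 1) F = gt r (F - r) + 1 := by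
        unfold gt
        rw [gre, if_pos ⟨hr, hrF⟩]
      rw [e2]
      have := ih (F - r) t (by omega) (by omega)
      omega

/-- the rank condition for the form of a group of `r₀` points; the group before has `r₁` points and sends `F₁` pairs
on, the group before that has `r₂` points and sends `F₂` pairs to this form -/
def RC (m r₀ r₁ r₂ F₁ F₂ : ℕ) : Prop :=
  r₀ + r₁ + r₂ ≤ m ∨ (F₂ = 0 ∧ r₀ + (r₁ - gt r₁ F₁) ≤ m) ∨
    (r₀ + r₂ ≤ m ∧ r₀ + (r₁ - gt r₁ F₁) + gs r₂ F₂ ≤ m ∧
      (r₁ - gt r₁ F₁) + (r₂ - gs r₂ F₂) + (r₁.choose 2 - F₁) ≤ (m - r₀ - gs r₂ F₂ + 1).choose 2)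

instance (m r₀ r₁ r₂ F₁ F₂ : ℕ) : Decidable (RC m r₀ r₁ r₂ F₁ F₂) := by
  unfold RC
  infer_instance

theorem gs_zero (r : ℕ) : gs r 0 = 0 := by
  have := gs_le r 0 0 (by simp) (Nat.zero_le _)
  omega

/-- **The chain theorem**, `Fin b` version. -/
theorem chain_fin {K : Type*} [Field K] [CharZero K] {m b y : ℕ} [NeZero b] (hb : 3 ≤ b)
    (r F : Fin b → ℕ) (hF : ∀ k, 2 * F k ≤ r k * (r k - 1)) (hr : ∀ k, r k ≤ m)
    (hR : ∀ k, RC m (r k) (r (k - 1)) (r (k - 2)) (F (k - 1)) (F (k - 2))) :
    KQ K m b (∑ k, r k) y (∑ k, ((m + 1 - r k).choose 2 -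
      ((∑ j, r j - r k) + y + F (k - 2) + ((r (k - 1)).choose 2 - F (k - 1))))) := by
  choose S h1 h2 h3 using fun k => gre_set (r k) (F k) (hF k)
  have h4 : ∀ k, cs (S k)ᶜ = (r k).choose 2 - F k := by
    intro k
    have := cs_add_compl (S k)
    rw [h1] at this
    omega
  have key := chain_sets (K := K) (m := m) (y := y) hb r S (fun k => gt (r k) (F k)) h3 hr (by
    intro k
    rcases hR k with h | ⟨h, h'⟩ | ⟨h, h', h''⟩
    · exact Or.inl h
    · refine Or.inr (Or.inl ⟨?_, h'⟩)
      have : (S (k - 2)).card = 0 := by rw [h2, h, gs_zero]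
      exact Finset.card_eq_zero.1 this
    · refine Or.inr (Or.inr ⟨h, ?_, ?_⟩)
      · rw [h2]
        exact h'
      · rw [h2, h4]
        exact h'')
  have e : ∀ k, (m + 1 - r k).choose 2 - ((∑ j, r j - r k) + y + cs (S (k - 2)) +
      cs (S (k - 1))ᶜ) = (m + 1 - r k).choose 2 - ((∑ j, r j - r k) + y + F (k - 2) +
        ((r (k - 1)).choose 2 - F (k - 1))) := by
    intro k
    rw [h1, h4]
  rw [Finset.sum_congr rfl fun k _ => e k] at key
  exact key

theorem per_mod {b : ℕ} {r : ℕ → ℕ} (h : ∀ k, r (k + b) = r k) (k : ℕ) : r (k % b) = r k := by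
  have h1 : ∀ a j, r (j + b * a) = r j := by
    intro a
    induction a with
    | zero => intro j; simp
    | succ a ih =>
      intro j
      rw [show j + b * (a + 1) = (j + b * a) + b by ring, h, ih]
  have h2 := h1 (k / b) (k % b)
  rwa [Nat.mod_add_div, eq_comm] at h2

/-- **The chain theorem**, periodic functions. -/
theorem chain_per {K : Type*} [Field K] [CharZero K] {m b x y : ℕ} (hb : 3 ≤ b)
    (r F : ℕ → ℕ) (rp : ∀ k, r (k + b) = r k) (Fp : ∀ k, F (k + b) = F k)
    (hx : ∑ k ∈ Finset.range b, r k = x)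
    (hF : ∀ k, 2 * F k ≤ r k * (r k - 1)) (hr : ∀ k, r k ≤ m)
    (hR : ∀ k, RC m (r (k + 2)) (r (k + 1)) (r k) (F (k + 1)) (F k)) :
    KQ K m b x y (∑ k ∈ Finset.range b, ((m + 1 - r (k + 2)).choose 2 -
      ((x - r (k + 2)) + y + F k + ((r (k + 1)).choose 2 - F (k + 1))))) := by
  have hne : NeZero b := ⟨by omega⟩
  have c1 : ∀ (f : ℕ → ℕ), (∀ k, f (k + b) = f k) → ∀ k : Fin b,
      f ((k - 1 : Fin b) : ℕ) = f ((k : ℕ) + b - 1) := by
    intro f hf k
    have h1 : ((k - 1 : Fin b) : ℕ) = ((k : ℕ) + b - 1) % b := by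
      have h2 : ((1 : Fin b) : ℕ) = 1 := by
        rw [Fin.val_one']
        exact Nat.mod_eq_of_lt (by omega)
      rw [Fin.sub_def]
      simp only [h2]
      congr 1
      omega
    rw [h1, per_mod hf]
  have c2 : ∀ (f : ℕ → ℕ), (∀ k, f (k + b) = f k) → ∀ k : Fin b,
      f ((k - 2 : Fin b) : ℕ) = f ((k : ℕ) + b - 2) := by
    intro f hf k
    have h1 : ((k - 2 : Fin b) : ℕ) = ((k : ℕ) + b - 2) % b := by
      have h2 : ((2 : Fin b) : ℕ) = 2 := by
        have : ((2 : Fin b) : ℕ) = 2 % b := rfl
        rw [this]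
        exact Nat.mod_eq_of_lt (by omega)
      rw [Fin.sub_def]
      simp only [h2]
      congr 1
      omega
    rw [h1, per_mod hf]
  have key := chain_fin (K := K) (m := m) (y := y) hb (fun k : Fin b => r k) (fun k : Fin b => F k)
    (fun k => hF _) (fun k => hr _) (by
      intro k
      simp only [c1 r rp, c2 r rp, c1 F Fp, c2 F Fp]
      have h := hR ((k : ℕ) + b - 2)
      have e1 : (k : ℕ) + b - 2 + 1 = (k : ℕ) + b - 1 := by omega
      have e2 : (k : ℕ) + b - 2 + 2 = (k : ℕ) + b := by omega
      rw [e1, e2, rp] at h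
      exact h)
  simp only [c1 r rp, c1 F Fp, c2 F Fp] at key
  rw [Fin.sum_univ_eq_sum_range (fun k => r k) b, hx] at key
  have e3 := Fin.sum_univ_eq_sum_range (fun k => (m + 1 - r k).choose 2 -
    (x - r k + y + F (k + b - 2) + ((r (k + b - 1)).choose 2 - F (k + b - 1)))) b
  rw [e3] at key
  have e4 : ∑ k ∈ Finset.range b, ((m + 1 - r k).choose 2 -
      (x - r k + y + F (k + b - 2) + ((r (k + b - 1)).choose 2 - F (k + b - 1)))) =
      ∑ k ∈ Finset.range b, ((m + 1 - r (k + 2)).choose 2 -
      ((x - r (k + 2)) + y + F k + ((r (k + 1)).choose 2 - F (k + 1)))) := by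
    have hper : ∀ G : ℕ → ℕ, (∀ k, G (k + b) = G k) →
        ∑ k ∈ Finset.range b, G k = ∑ k ∈ Finset.range b, G (k + 2) := by
      intro G hG
      have h1 : ∀ G : ℕ → ℕ, (∀ k, G (k + b) = G k) →
          ∑ k ∈ Finset.range b, G k = ∑ k ∈ Finset.range b, G (k + 1) := by
        intro G hG
        have h2 := Finset.sum_range_succ G b
        have h3 := Finset.sum_range_succ' G b
        have h4 := hG 0
        rw [zero_add] at h4
        omega
      rw [h1 G hG, h1 (fun k => G (k + 1)) (fun k => by rw [add_right_comm, hG])]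
    let G : ℕ → ℕ := fun k => (m + 1 - r k).choose 2 -
      (x - r k + y + F (k + b - 2) + ((r (k + b - 1)).choose 2 - F (k + b - 1)))
    have hG : ∀ k, G (k + b) = G k := by
      intro k
      simp only [G]
      have e5 : k + b + b - 2 = (k + b - 2) + b := by omega
      have e6 : k + b + b - 1 = (k + b - 1) + b := by omega
      rw [rp, e5, e6, Fp, Fp, rp]
    refine (hper G hG).trans (Finset.sum_congr rfl fun k _ => ?_)
    simp only [G]
    have e5 : k + 2 + b - 2 = k + b := by omega
    have e6 : k + 2 + b - 1 = (k + 1) + b := by omega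
    rw [e5, e6, Fp, Fp, rp]
  rw [e4] at key
  exact key

/-- **The chain theorem**, for a flow: `n + 1 = m`, `x + y + c = N`. -/
theorem chain_flow {K : Type*} [Field K] [CharZero K] {n b x y c : ℕ} (hb : 3 ≤ b)
    (r F W : ℕ → ℕ) (rp : ∀ k, r (k + b) = r k) (Fp : ∀ k, F (k + b) = F k)
    (hx : ∑ k ∈ Finset.range b, r k = x) (hc : x + y + c = (n + 2).choose 2)
    (hF : ∀ k, 2 * F k ≤ r k * (r k - 1)) (hr : ∀ k, r k ≤ n + 1)
    (hW : ∀ k, F k + (r (k + 1)).choose 2 + n * r (k + 2) =
      W (k + 2) + (r (k + 2)).choose 2 + F (k + 1))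
    (hR : ∀ k, RC (n + 1) (r (k + 2)) (r (k + 1)) (r k) (F (k + 1)) (F k)) :
    KQ K (n + 1) b x y (∑ k ∈ Finset.range b, (c - W (k + 2))) := by
  have key := chain_per (K := K) (m := n + 1) (y := y) hb r F rp Fp hx hF hr hR
  have e : ∀ k ∈ Finset.range b, (n + 1 + 1 - r (k + 2)).choose 2 -
      ((x - r (k + 2)) + y + F k + ((r (k + 1)).choose 2 - F (k + 1))) = c - W (k + 2) := by
    intro k _
    have h1 := hF (k + 1)
    have h2 : (r (k + 1)).choose 2 * 2 = r (k + 1) * (r (k + 1) - 1) := by
      rw [Nat.choose_two_right, Nat.div_mul_cancel (Nat.even_mul_pred_self _).two_dvd]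
    have h3 := hW k
    have h4 := hr (k + 2)
    have hk : r (k + 2) ≤ x := by
      rw [← hx, ← per_mod rp (k + 2)]
      exact Finset.single_le_sum (fun _ _ => Nat.zero_le _)
        (Finset.mem_range.2 (Nat.mod_lt _ (by omega)))
    -- C(n+2-ρ,2) + ρ(n+1) = N + C(ρ,2)
    have h5 : (n + 1 + 1 - r (k + 2)).choose 2 + r (k + 2) * (n + 1) =
        (n + 2).choose 2 + (r (k + 2)).choose 2 := by
      obtain ⟨a, ha⟩ : ∃ a, n + 1 = r (k + 2) + a := ⟨n + 1 - r (k + 2), by omega⟩
      have e1 : n + 1 + 1 - r (k + 2) = a + 1 := by omega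
      have e2 : n + 2 = r (k + 2) + a + 1 := by omega
      rw [e1, ha, e2]
      generalize r (k + 2) = ρ
      have t : ∀ z : ℕ, (z + 1).choose 2 * 2 = (z + 1) * z := by
        intro z
        rw [Nat.choose_two_right, Nat.div_mul_cancel (Nat.even_mul_pred_self _).two_dvd]
        simp
      have t1 := t a
      have t2 := t (ρ + a)
      rcases ρ with _ | ρ
      · simp
      · have t3 := t ρ
        have : ((a + 1).choose 2 + (ρ + 1) * (ρ + 1 + a)) * 2 =
            ((ρ + 1 + a + 1).choose 2 + (ρ + 1).choose 2) * 2 := by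
          calc ((a + 1).choose 2 + (ρ + 1) * (ρ + 1 + a)) * 2
              = (a + 1).choose 2 * 2 + (ρ + 1) * (ρ + 1 + a) * 2 := by ring
            _ = (ρ + 1 + a + 1) * (ρ + 1 + a) + (ρ + 1) * ρ := by rw [t1]; ring
            _ = (ρ + 1 + a + 1).choose 2 * 2 + (ρ + 1).choose 2 * 2 := by rw [t2, t3]
            _ = ((ρ + 1 + a + 1).choose 2 + (ρ + 1).choose 2) * 2 := by ring
        exact Nat.eq_of_mul_eq_mul_right (by norm_num) this
    have h6 : r (k + 2) * (n + 1) = n * r (k + 2) + r (k + 2) := by ring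
    omega
  rw [Finset.sum_congr rfl e] at key
  exact key

/-- both sides -/
theorem chain_sup {K : Type*} [Field K] [CharZero K] {n b x y c : ℕ} (hb : 3 ≤ b)
    (r F W : ℕ → ℕ) (rp : ∀ k, r (k + b) = r k) (Fp : ∀ k, F (k + b) = F k)
    (hx : ∑ k ∈ Finset.range b, r k = x) (hc : x + y + c = (n + 2).choose 2)
    (hF : ∀ k, 2 * F k ≤ r k * (r k - 1)) (hr : ∀ k, r k ≤ n + 1)
    (hW : ∀ k, F k + (r (k + 1)).choose 2 + n * r (k + 2) =
      W (k + 2) + (r (k + 2)).choose 2 + F (k + 1))
    (hR : ∀ k, RC (n + 1) (r (k + 2)) (r (k + 1)) (r k) (F (k + 1)) (F k))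
    (hs : ∀ k, c ≤ W k) : KQ K (n + 1) b x y 0 := by
  have key := chain_flow (K := K) hb r F W rp Fp hx hc hF hr hW hR
  rwa [Finset.sum_eq_zero fun k _ => Nat.sub_eq_zero_of_le (hs _)] at key

theorem chain_sub {K : Type*} [Field K] [CharZero K] {n b x y c : ℕ} (hb : 3 ≤ b)
    (r F W : ℕ → ℕ) (rp : ∀ k, r (k + b) = r k) (Fp : ∀ k, F (k + b) = F k)
    (Wp : ∀ k, W (k + b) = W k)
    (hx : ∑ k ∈ Finset.range b, r k = x) (hc : x + y + c = (n + 2).choose 2)
    (hF : ∀ k, 2 * F k ≤ r k * (r k - 1)) (hr : ∀ k, r k ≤ n + 1)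
    (hW : ∀ k, F k + (r (k + 1)).choose 2 + n * r (k + 2) =
      W (k + 2) + (r (k + 2)).choose 2 + F (k + 1))
    (hR : ∀ k, RC (n + 1) (r (k + 2)) (r (k + 1)) (r k) (F (k + 1)) (F k))
    (hs : ∀ k, W k ≤ c) (hWs : ∑ k ∈ Finset.range b, W k = n * x) :
    KQ K (n + 1) b x y (b * c - n * x) := by
  have key := chain_flow (K := K) hb r F W rp Fp hx hc hF hr hW hR
  have h1 : ∑ k ∈ Finset.range b, W (k + 2) = ∑ k ∈ Finset.range b, W k := by
    have h1 : ∀ G : ℕ → ℕ, (∀ k, G (k + b) = G k) →
        ∑ k ∈ Finset.range b, G k = ∑ k ∈ Finset.range b, G (k + 1) := by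
      intro G hG
      have h2 := Finset.sum_range_succ G b
      have h3 := Finset.sum_range_succ' G b
      have h4 := hG 0
      rw [zero_add] at h4
      omega
    rw [h1 W Wp, h1 (fun k => W (k + 1)) (fun k => by rw [add_right_comm, Wp])]
  have h2 : ∑ k ∈ Finset.range b, (c - W (k + 2)) + ∑ k ∈ Finset.range b, W (k + 2) = b * c := by
    rw [← Finset.sum_add_distrib, Finset.sum_congr rfl fun k _ => Nat.sub_add_cancel (hs (k + 2))]
    simp
  have h3 : ∑ k ∈ Finset.range b, (c - W (k + 2)) = b * c - n * x := by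
    rw [h1, hWs] at h2
    omega
  rwa [h3] at key

end Pool.Agent.WarR
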