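import Pool.Agent.WarR.Tools
import Pool.Agent.War.Stmts

/-!
# From `KQ` to `War.Kill n 2`   (helper14)
-/

set_option autoImplicit false

open Module MvPolynomial

namespace Pool.Agent.WarR

open Pool.Agent.War

/-- the affine function with the coefficients `w` -/
noncomputable def aff {n : ℕ} (w : Fin (n + 1) → ℂ) : MvPolynomial (Fin n) ℂ :=
  C (w 0) + ∑ k, C (w k.succ) * X k

theorem eval_aff {n : ℕ} (w : Fin (n + 1) → ℂ) (p : Fin n → ℂ) :
    eval p (aff w) = ∑ k, w k * (Fin.cons 1 p : Fin (n + 1) → ℂ) k := by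
  simp only [aff, map_add, eval_C, map_sum, map_mul, eval_X, Fin.sum_univ_succ, Fin.cons_zero,
    Fin.cons_succ, mul_one]

theorem pderiv_aff {n : ℕ} (w : Fin (n + 1) → ℂ) (k : Fin n) :
    pderiv k (aff w) = C (w k.succ) := by
  classical
  simp only [aff, map_add, map_sum, pderiv_C, zero_add, pderiv_mul, zero_mul, pderiv_X]
  rw [Finset.sum_eq_single k]
  · simp
  · intro i _ hi
    simp [Pi.single_apply, hi.symm]
  · simp

/-- the quadratic form of a product -/
noncomputable def pr {n : ℕ} (u v : Fin (n + 1) → ℂ) : SF ℂ (n + 1) :=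
  ⟨fun i j => (u i * v j + u j * v i) / 2, fun i j => by ring⟩

theorem bf_pr {n : ℕ} (u v x y : Fin (n + 1) → ℂ) :
    bf (pr u v : Fin (n + 1) → Fin (n + 1) → ℂ) x y =
      ((∑ k, u k * x k) * (∑ k, v k * y k) + (∑ k, v k * x k) * ∑ k, u k * y k) / 2 := by
  unfold bf
  rw [Finset.sum_mul_sum, Finset.sum_mul_sum]
  simp only [pr, ← Finset.sum_add_distrib, Finset.sum_div]
  refine Finset.sum_congr rfl fun i _ => Finset.sum_congr rfl fun j _ => ?_
  ring

/-- the polynomials which are quadratic forms -/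
def TQ (n : ℕ) : Submodule ℂ (MvPolynomial (Fin n) ℂ) where
  carrier := {f | ∃ A : SF ℂ (n + 1),
    (∀ p, eval p f = bf (A : Fin (n + 1) → Fin (n + 1) → ℂ) (Fin.cons 1 p) (Fin.cons 1 p)) ∧
    ∀ p k, eval p (pderiv k f) =
      2 * bf (A : Fin (n + 1) → Fin (n + 1) → ℂ) (Fin.cons 1 p) (Pi.single k.succ 1)}
  add_mem' := by
    rintro f g ⟨A, h1, h2⟩ ⟨B, k1, k2⟩
    refine ⟨A + B, fun p => ?_, fun p k => ?_⟩
    · rw [map_add, h1, k1, Submodule.coe_add, bf_add]
    · rw [map_add, map_add, h2, k2, Submodule.coe_add, bf_add]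
      ring
  zero_mem' := ⟨0, fun p => by rw [Submodule.coe_zero, bf_zero, map_zero],
    fun p k => by rw [Submodule.coe_zero, bf_zero, map_zero, map_zero, mul_zero]⟩
  smul_mem' := by
    rintro c f ⟨A, h1, h2⟩
    refine ⟨c • A, fun p => ?_, fun p k => ?_⟩
    · rw [smul_eval, h1, Submodule.coe_smul, bf_smul]
    · rw [(pderiv k).map_smul, smul_eval, h2, Submodule.coe_smul, bf_smul]
      ring

theorem aff_mul_mem {n : ℕ} (u v : Fin (n + 1) → ℂ) : aff u * aff v ∈ TQ n := by
  classical
  refine ⟨pr u v, fun p => ?_, fun p k => ?_⟩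
  · rw [map_mul, eval_aff, eval_aff, bf_pr]
    ring
  · rw [pderiv_mul, map_add, map_mul, map_mul, pderiv_aff, pderiv_aff, eval_C, eval_C, eval_aff,
      eval_aff, bf_pr]
    have e : ∀ w : Fin (n + 1) → ℂ, ∑ i, w i * (Pi.single k.succ 1 : Fin (n + 1) → ℂ) i =
        w k.succ := by
      intro w
      rw [Finset.sum_eq_single k.succ]
      · rw [Pi.single_eq_same, mul_one]
      · intro i _ hi
        rw [Pi.single_eq_of_ne hi, mul_zero]
      · simp
    rw [e, e]
    ring

theorem aff_zero {n : ℕ} : aff (Pi.single 0 1 : Fin (n + 1) → ℂ) = 1 := by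
  classical
  unfold aff
  rw [Pi.single_eq_same, map_one, Finset.sum_eq_zero, add_zero]
  intro k _
  rw [Pi.single_eq_of_ne (Fin.succ_ne_zero k), map_zero, zero_mul]

theorem aff_succ {n : ℕ} (c : ℂ) (k : Fin n) :
    aff (Pi.single k.succ c : Fin (n + 1) → ℂ) = C c * X k := by
  classical
  unfold aff
  rw [Pi.single_eq_of_ne (Fin.succ_ne_zero k).symm, map_zero, zero_add, Finset.sum_eq_single k]
  · rw [Pi.single_eq_same]
  · intro i _ hi
    rw [Pi.single_eq_of_ne (fun h => hi (Fin.succ_injective _ h)), map_zero, zero_mul]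
  · simp

theorem aff_const {n : ℕ} (c : ℂ) : aff (Pi.single 0 c : Fin (n + 1) → ℂ) = C c := by
  classical
  unfold aff
  rw [Pi.single_eq_same, Finset.sum_eq_zero, add_zero]
  intro k _
  rw [Pi.single_eq_of_ne (Fin.succ_ne_zero k), map_zero, zero_mul]

theorem monomial_mem {n : ℕ} (m : Fin n →₀ ℕ) (c : ℂ) (hm : m.degree ≤ 2) :
    monomial m c ∈ TQ n := by
  classical
  by_cases h0 : m = 0
  · subst h0
    have := aff_mul_mem (Pi.single 0 c : Fin (n + 1) → ℂ) (Pi.single 0 1)
    rw [aff_zero, aff_const, mul_one] at this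
    exact this
  · obtain ⟨i, hi⟩ := Finsupp.ne_iff.1 h0
    have hi' : Finsupp.single i 1 ≤ m := by
      rw [Finsupp.single_le_iff]
      rw [Finsupp.zero_apply] at hi
      omega
    obtain ⟨m', rfl⟩ := exists_add_of_le hi'
    rw [map_add, Finsupp.degree_single] at hm
    by_cases h1 : m' = 0
    · subst h1
      have := aff_mul_mem (Pi.single i.succ c : Fin (n + 1) → ℂ) (Pi.single 0 1)
      rw [aff_zero, aff_succ, mul_one] at this
      rw [add_zero]
      have e : (monomial (Finsupp.single i 1)) c = C c * X i := by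
        rw [X, C_mul_monomial, mul_one]
      rw [e]
      exact this
    · obtain ⟨j, hj⟩ := Finsupp.ne_iff.1 h1
      have hj' : Finsupp.single j 1 ≤ m' := by
        rw [Finsupp.single_le_iff]
        rw [Finsupp.zero_apply] at hj
        omega
      obtain ⟨m'', rfl⟩ := exists_add_of_le hj'
      rw [map_add, Finsupp.degree_single] at hm
      have h2 : m'' = 0 := by
        rw [← Finsupp.degree_eq_zero_iff]
        omega
      subst h2
      have := aff_mul_mem (Pi.single i.succ c : Fin (n + 1) → ℂ) (Pi.single j.succ 1)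
      rw [aff_succ, aff_succ, map_one, one_mul] at this
      rw [add_zero]
      have e : (monomial (Finsupp.single i 1 + Finsupp.single j 1)) c = C c * X i * X j := by
        rw [X, X, C_mul_monomial, monomial_mul, mul_one, mul_one]
      rw [e]
      exact this

theorem mem_TQ {n : ℕ} {f : MvPolynomial (Fin n) ℂ} (hf : f.totalDegree ≤ 2) : f ∈ TQ n := by
  rw [f.as_sum]
  refine Submodule.sum_mem _ fun m hm => monomial_mem m _ ?_
  have := le_totalDegree hm
  rw [Finsupp.degree_eq_sum]
  exact ((Finsupp.sum_fintype m (fun _ e => e) fun _ => rfl).symm.le.trans this).trans hf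

theorem bf_smul_left {K : Type*} [Field K] {m : ℕ} (c : K) (A : Fin m → Fin m → K)
    (x y : Fin m → K) : bf A (c • x) y = c * bf A x y := by
  simp only [bf, Pi.smul_apply, smul_eq_mul, Finset.mul_sum]
  refine Finset.sum_congr rfl fun i _ => Finset.sum_congr rfl fun j _ => by ring

/-- points off the hyperplane `x 0 = 0` -/
theorem off_gen {K : Type*} [Field K] [Infinite K] {m b : ℕ} {I J : Type} [Finite I] [Finite J] :
    Gen K fun c : Cfg K (m + 1) b I J => (∀ i, c.1 i 0 ≠ 0) ∧ ∀ l, c.2.2 l 0 ≠ 0 := by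
  refine Gen.and (Gen.forall fun i => ?_) (Gen.forall fun l => ?_)
  · exact Gen.ne (LP_c1 i 0) (fun _ _ => 1, 0, 0) one_ne_zero
  · exact Gen.ne (LP_c3 l 0) (0, 0, fun _ _ => 1) one_ne_zero

/-- **The configurations of the affine space.** -/
theorem KQ.kill {n b x s : ℕ} (h : KQ ℂ (n + 1) b x s 0) :
    ∃ (z : Fin x → Fin n → ℂ) (a : Fin x → Fin b → ℂ) (y : Fin s → Fin n → ℂ),
      Kill n 2 z a y := by
  classical
  obtain ⟨⟨z, a, y⟩, k1, k2, k3⟩ := (h.gen.and off_gen).exists
  have hbot : ZK (z, a, y) = ⊥ := Submodule.finrank_eq_zero.1 (Nat.le_zero.1 k1)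
  change ∀ i, z i 0 ≠ 0 at k2
  change ∀ l, y l 0 ≠ 0 at k3
  have hz : ∀ i, z i = z i 0 • (Fin.cons 1 (fun k => z i k.succ / z i 0) : Fin (n + 1) → ℂ) := by
    intro i
    funext k
    refine Fin.cases ?_ (fun k => ?_) k
    · simp
    · simp only [Pi.smul_apply, Fin.cons_succ, smul_eq_mul]
      rw [mul_div_cancel₀ _ (k2 i)]
  have hy : ∀ i, y i = y i 0 • (Fin.cons 1 (fun k => y i k.succ / y i 0) : Fin (n + 1) → ℂ) := by
    intro i
    funext k
    refine Fin.cases ?_ (fun k => ?_) k
    · simp
    · simp only [Pi.smul_apply, Fin.cons_succ, smul_eq_mul]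
      rw [mul_div_cancel₀ _ (k3 i)]
  refine ⟨fun i k => z i k.succ / z i 0, a, fun l k => y l k.succ / y l 0, ?_⟩
  intro f hf h1 h2 h3
  choose A hA1 hA2 using fun j => mem_TQ (hf j)
  have hmem : A ∈ ZK (z, a, y) := by
    have v1 : ∀ i j, bf (A j : Fin (n + 1) → Fin (n + 1) → ℂ)
        (Fin.cons 1 fun k => z i k.succ / z i 0) (Fin.cons 1 fun k => z i k.succ / z i 0) = 0 := by
      intro i j
      rw [← hA1, h1]
    refine mem_ZK.2 ⟨fun i j => ?_, fun i => ?_, fun l j => ?_⟩
    · change bf (A j : Fin (n + 1) → Fin (n + 1) → ℂ) (z i) (z i) = 0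
      rw [hz i, bf_smul_left, bf_smul_right, v1, mul_zero, mul_zero]
    · rw [full_iff (fun j => (A j : Fin (n + 1) → Fin (n + 1) → ℂ))]
      have v2 : ∀ k : Fin n, ∑ j, a i j * bf (A j : Fin (n + 1) → Fin (n + 1) → ℂ)
          (Fin.cons 1 fun k => z i k.succ / z i 0) (Pi.single k.succ 1) = 0 := by
        intro k
        have := h2 i k
        simp only [hA2] at this
        have e : ∀ j, a i j * (2 * bf (A j : Fin (n + 1) → Fin (n + 1) → ℂ)
            (Fin.cons 1 fun k => z i k.succ / z i 0) (Pi.single k.succ 1)) =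
            2 * (a i j * bf (A j : Fin (n + 1) → Fin (n + 1) → ℂ)
            (Fin.cons 1 fun k => z i k.succ / z i 0) (Pi.single k.succ 1)) := fun j => by ring
        simp only [e, ← Finset.mul_sum] at this
        exact (mul_eq_zero.1 this).resolve_left two_ne_zero
      have v3 : ∑ j, a i j * bf (A j : Fin (n + 1) → Fin (n + 1) → ℂ)
          (Fin.cons 1 fun k => z i k.succ / z i 0) (Pi.single 0 1) = 0 := by
        have e1 : (Fin.cons 1 (fun k => z i k.succ / z i 0) : Fin (n + 1) → ℂ) =
            Pi.single 0 1 + ∑ k : Fin n, (z i k.succ / z i 0) •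
              (Pi.single k.succ 1 : Fin (n + 1) → ℂ) := by
          funext l
          rw [Pi.add_apply, Finset.sum_apply]
          refine Fin.cases ?_ (fun l => ?_) l
          · rw [Pi.single_eq_same, Finset.sum_eq_zero, Fin.cons_zero, add_zero]
            intro k _
            rw [Pi.smul_apply, Pi.single_eq_of_ne (Fin.succ_ne_zero k).symm, smul_zero]
          · rw [Pi.single_eq_of_ne (Fin.succ_ne_zero l), zero_add, Finset.sum_eq_single l]
            · rw [Pi.smul_apply, Pi.single_eq_same, Fin.cons_succ, smul_eq_mul, mul_one]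
            · intro k _ hk
              rw [Pi.smul_apply, Pi.single_eq_of_ne (fun h => hk (Fin.succ_injective _ h).symm),
                smul_zero]
            · simp
        have e2 : ∀ j, bf (A j : Fin (n + 1) → Fin (n + 1) → ℂ)
            (Fin.cons 1 fun k => z i k.succ / z i 0) (Fin.cons 1 fun k => z i k.succ / z i 0) =
            bf (A j : Fin (n + 1) → Fin (n + 1) → ℂ)
            (Fin.cons 1 fun k => z i k.succ / z i 0) (Pi.single 0 1) +
            ∑ k : Fin n, (z i k.succ / z i 0) * bf (A j : Fin (n + 1) → Fin (n + 1) → ℂ)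
            (Fin.cons 1 fun k => z i k.succ / z i 0) (Pi.single k.succ 1) := by
          intro j
          have e3 : ∀ (w : Fin (n + 1) → ℂ) (s : Finset (Fin n)),
              bf (A j : Fin (n + 1) → Fin (n + 1) → ℂ) w (∑ k ∈ s, (z i k.succ / z i 0) •
                (Pi.single k.succ 1 : Fin (n + 1) → ℂ)) = ∑ k ∈ s, (z i k.succ / z i 0) *
                bf (A j : Fin (n + 1) → Fin (n + 1) → ℂ) w (Pi.single k.succ 1) := by
            intro w s
            induction s using Finset.induction_on with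
            | empty => simp [bf]
            | insert k s hk ih =>
              rw [Finset.sum_insert hk, Finset.sum_insert hk, bf_add_right, bf_smul_right, ih]
          rw [← e3, ← bf_add_right, ← e1]
        have e4 : ∑ j, a i j * bf (A j : Fin (n + 1) → Fin (n + 1) → ℂ)
            (Fin.cons 1 fun k => z i k.succ / z i 0) (Pi.single 0 1) =
            ∑ j, a i j * bf (A j : Fin (n + 1) → Fin (n + 1) → ℂ)
            (Fin.cons 1 fun k => z i k.succ / z i 0) (Fin.cons 1 fun k => z i k.succ / z i 0) -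
            ∑ k : Fin n, (z i k.succ / z i 0) * ∑ j, a i j *
              bf (A j : Fin (n + 1) → Fin (n + 1) → ℂ)
            (Fin.cons 1 fun k => z i k.succ / z i 0) (Pi.single k.succ 1) := by
          simp only [e2, mul_add, Finset.sum_add_distrib, Finset.mul_sum]
          rw [Finset.sum_comm (s := (Finset.univ : Finset (Fin n)))]
          have : ∀ j (k : Fin n), z i k.succ / z i 0 * (a i j *
              bf (A j : Fin (n + 1) → Fin (n + 1) → ℂ)
              (Fin.cons 1 fun k => z i k.succ / z i 0) (Pi.single k.succ 1)) =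
              a i j * (z i k.succ / z i 0 * bf (A j : Fin (n + 1) → Fin (n + 1) → ℂ)
              (Fin.cons 1 fun k => z i k.succ / z i 0) (Pi.single k.succ 1)) := fun j k => by ring
          simp only [this]
          ring
        rw [e4]
        simp only [v1, v2, mul_zero, Finset.sum_const_zero, sub_zero]
      intro k
      change ∑ j, a i j * bf (A j : Fin (n + 1) → Fin (n + 1) → ℂ) (z i) (Pi.single k 1) = 0
      rw [hz i]
      simp only [bf_smul_left]
      have e : ∀ j, a i j * (z i 0 * bf (A j : Fin (n + 1) → Fin (n + 1) → ℂ)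
          (Fin.cons 1 fun k => z i k.succ / z i 0) (Pi.single k 1)) =
          z i 0 * (a i j * bf (A j : Fin (n + 1) → Fin (n + 1) → ℂ)
          (Fin.cons 1 fun k => z i k.succ / z i 0) (Pi.single k 1)) := fun j => by ring
      simp only [e, ← Finset.mul_sum]
      refine mul_eq_zero_of_right _ ?_
      refine Fin.cases v3 (fun k => v2 k) k
    · change bf (A j : Fin (n + 1) → Fin (n + 1) → ℂ) (y l) (y l) = 0
      rw [hy l, bf_smul_left, bf_smul_right, ← hA1, h3, mul_zero, mul_zero]
  rw [hbot, Submodule.mem_bot] at hmem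
  intro j
  refine MvPolynomial.funext fun p => ?_
  rw [hA1, congrFun hmem j, Pi.zero_apply, Submodule.coe_zero, bf_zero, map_zero]

end Pool.Agent.WarR
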