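import Pool.Agent.War.Tool

/-!
# Polynomial curves in kernel families, limits of subspaces   (helper14)
-/

set_option autoImplicit false

open Module

namespace Pool.Agent.WarR

open Pool.Agent.War

section

variable {K : Type*} [Field K]

theorem LP_eval (p : Polynomial K) : LP fun t : K => p.eval t := by
  intro x y
  refine ⟨p.comp (Polynomial.C x + Polynomial.X * Polynomial.C y), fun t => ?_⟩
  simp only [Polynomial.eval_comp, Polynomial.eval_add, Polynomial.eval_C, Polynomial.eval_mul,
    Polynomial.eval_X, smul_eq_mul]

theorem LP_poly {F : K → K} (hF : LP F) : ∃ p : Polynomial K, ∀ t, F t = p.eval t := by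
  obtain ⟨p, hp⟩ := hF 0 1
  refine ⟨p, fun t => ?_⟩
  have := hp t
  rwa [zero_add, smul_eq_mul, mul_one] at this

/-- continuity -/
theorem LP_zero_of [Infinite K] {F : K → K} (hF : LP F) (h : ∀ t, t ≠ 0 → F t = 0) : F 0 = 0 := by
  obtain ⟨p, hp⟩ := LP_poly hF
  have h1 : p * Polynomial.X = 0 := by
    refine Polynomial.funext fun t => ?_
    rw [Polynomial.eval_mul, Polynomial.eval_X, Polynomial.eval_zero, ← hp]
    by_cases ht : t = 0
    · rw [ht, mul_zero]
    · rw [h t ht, zero_mul]
  rw [hp, (mul_eq_zero.1 h1).resolve_right Polynomial.X_ne_zero, Polynomial.eval_zero]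

/-- division by the power of the variable -/
theorem primitive {σ : Type*} {g : σ → Polynomial K} (hg : g ≠ 0) :
    ∃ (k : ℕ) (g' : σ → Polynomial K), (∀ i, g i = Polynomial.X ^ k * g' i) ∧
      ∃ i, (g' i).eval 0 ≠ 0 := by
  classical
  have hex : ∃ k, ∃ i, (g i).coeff k ≠ 0 := by
    by_contra hcon
    push Not at hcon
    apply hg
    funext i
    exact Polynomial.ext fun k => by rw [hcon k i]; simp
  obtain ⟨i₀, hi₀⟩ := Nat.find_spec hex
  set k := Nat.find hex with hk
  have hdvd : ∀ i, Polynomial.X ^ k ∣ g i := by
    intro i
    rw [Polynomial.X_pow_dvd_iff]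
    intro d hd
    by_contra hne
    exact Nat.find_min hex hd ⟨i, hne⟩
  choose g' hg' using hdvd
  refine ⟨k, g', hg', i₀, ?_⟩
  rw [hg' i₀, Polynomial.coeff_X_pow_mul', if_pos le_rfl, Nat.sub_self] at hi₀
  rwa [← Polynomial.coeff_zero_eq_eval_zero]

variable {V : Type*} [AddCommGroup V] [Module K V]

/-- **a polynomial curve in a kernel family** -/
theorem curve [Infinite K] [FiniteDimensional K V] {Z : K → Submodule K V} (hZ : PK Z)
    (h : ¬ Gen K fun t => Z t = ⊥) :
    ∃ v : Fin (finrank K V) → Polynomial K, v ≠ 0 ∧
      ∀ t, (∑ k, (v k).eval t • finBasis K V k) ∈ Z t := by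
  classical
  obtain ⟨ι, _, φ, h1, h2⟩ := hZ
  let b := finBasis K V
  choose P hP using fun (i : ι) (k : Fin (finrank K V)) => LP_poly (h1 i (b k))
  let F := FractionRing (Polynomial K)
  let al : Polynomial K →+* F := algebraMap (Polynomial K) F
  have hal : Function.Injective al := IsFractionRing.injective (Polynomial K) F
  let f : (Fin (finrank K V) → F) →ₗ[F] (ι → F) :=
    Matrix.mulVecLin (Matrix.of fun i k => al (P i k))
  have hf : ∀ w i, f w i = ∑ k, al (P i k) * w k := fun w i => rfl
  by_cases hinj : LinearMap.ker f = ⊥
  · exfalso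
    apply h
    obtain ⟨g, hg⟩ := f.exists_leftInverse_of_injective hinj
    let N : Fin (finrank K V) × ι → F := fun q => g (Pi.single q.2 1) q.1
    have hN : ∀ w k, g w k = ∑ i, N (k, i) * w i := by
      intro w k
      have e : w = ∑ i, w i • (Pi.single i (1 : F) : ι → F) := by
        funext i
        simp [Finset.sum_apply, Pi.single_apply]
      conv_lhs => rw [e]
      rw [map_sum, Finset.sum_apply]
      refine Finset.sum_congr rfl fun i _ => ?_
      rw [map_smul, Pi.smul_apply, smul_eq_mul, mul_comm]
    obtain ⟨d, hd⟩ := IsLocalization.exist_integer_multiples_of_finite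
      (nonZeroDivisors (Polynomial K)) N
    have hd0 : (d : Polynomial K) ≠ 0 := nonZeroDivisors.ne_zero d.2
    choose D hD using hd
    have hD' : ∀ q, al (D q) = al (d : Polynomial K) * N q := by
      intro q
      have := hD q
      rw [Algebra.smul_def] at this
      exact this
    -- the identity of polynomials
    have key : ∀ k l, ∑ i, D (k, i) * P i l = if k = l then (d : Polynomial K) else 0 := by
      intro k l
      apply hal
      rw [map_sum]
      have e1 : ∀ i, al (D (k, i) * P i l) =
          al (d : Polynomial K) * (N (k, i) * f (Pi.single l 1) i) := by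
        intro i
        have e2 : f (Pi.single l 1) i = al (P i l) := by
          rw [hf, Finset.sum_eq_single l]
          · rw [Pi.single_eq_same, mul_one]
          · intro j _ hj
            rw [Pi.single_eq_of_ne hj, mul_zero]
          · simp
        rw [e2, map_mul, hD', mul_assoc]
      rw [Finset.sum_congr rfl fun i _ => e1 i, ← Finset.mul_sum, ← hN]
      have e3 : g (f (Pi.single l 1)) = Pi.single l 1 := LinearMap.congr_fun hg _
      rw [e3]
      by_cases hkl : k = l
      · subst hkl
        rw [Pi.single_eq_same, mul_one, if_pos rfl]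
      · rw [Pi.single_eq_of_ne hkl, mul_zero, if_neg hkl, map_zero]
    have hex : ∃ t₀ : K, (d : Polynomial K).eval t₀ ≠ 0 := by
      by_contra hcon
      push Not at hcon
      exact hd0 (Polynomial.funext fun t => by rw [hcon t, Polynomial.eval_zero])
    · obtain ⟨t₀, ht₀⟩ := hex
      refine ⟨fun t => (d : Polynomial K).eval t, LP_eval _, ⟨t₀, ht₀⟩, fun t ht => ?_⟩
      change Z t = ⊥
      rw [eq_bot_iff]
      intro v hv
      rw [Submodule.mem_bot]
      rw [h2] at hv
      have hv' : ∀ i, ∑ k, (P i k).eval t * b.repr v k = 0 := by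
        intro i
        have := hv i
        rw [← b.sum_repr v, map_sum] at this
        rw [← this]
        refine Finset.sum_congr rfl fun k _ => ?_
        rw [map_smul, smul_eq_mul, hP, mul_comm]
      have hz : ∀ k, b.repr v k = 0 := by
        intro k
        have e1 : ∑ i, (D (k, i)).eval t * (∑ l, (P i l).eval t * b.repr v l) =
            (d : Polynomial K).eval t * b.repr v k := by
          simp only [Finset.mul_sum]
          rw [Finset.sum_comm]
          have e2 : ∀ l, ∑ i, (D (k, i)).eval t * ((P i l).eval t * b.repr v l) =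
              (if k = l then (d : Polynomial K).eval t else 0) * b.repr v l := by
            intro l
            have := congrArg (Polynomial.eval t) (key k l)
            rw [Polynomial.eval_finsetSum] at this
            simp only [Polynomial.eval_mul] at this
            rw [show (if k = l then (d : Polynomial K).eval t else 0) =
              Polynomial.eval t (if k = l then (d : Polynomial K) else 0) by
                split_ifs <;> simp, ← this, Finset.sum_mul]
            exact Finset.sum_congr rfl fun i _ => by ring
          rw [Finset.sum_congr rfl fun l _ => e2 l, Finset.sum_eq_single k]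
          · rw [if_pos rfl]
          · intro l _ hl
            rw [if_neg (Ne.symm hl), zero_mul]
          · simp
        simp only [hv', mul_zero, Finset.sum_const_zero] at e1
        exact (mul_eq_zero.1 e1.symm).resolve_left ht
      have : b.repr v = 0 := Finsupp.ext hz
      exact b.repr.map_eq_zero_iff.1 this
  · obtain ⟨w, hw, hw0⟩ := (Submodule.ne_bot_iff _).1 hinj
    obtain ⟨d, hd⟩ := IsLocalization.exist_integer_multiples_of_finite
      (nonZeroDivisors (Polynomial K)) w
    have hd0 : (d : Polynomial K) ≠ 0 := nonZeroDivisors.ne_zero d.2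
    choose v hv using hd
    have hv' : ∀ k, al (v k) = al (d : Polynomial K) * w k := by
      intro k
      have := hv k
      rw [Algebra.smul_def] at this
      exact this
    refine ⟨v, fun h0 => hw0 ?_, fun t => ?_⟩
    · funext k
      have := hv' k
      rw [h0, Pi.zero_apply, map_zero] at this
      refine (mul_eq_zero.1 this.symm).resolve_left fun h => hd0 (hal ?_)
      rw [h, map_zero]
    · rw [h2]
      intro i
      have e1 : ∑ k, P i k * v k = 0 := by
        apply hal
        rw [map_sum, map_zero]
        have e2 : ∀ k, al (P i k * v k) = al (d : Polynomial K) * (al (P i k) * w k) := by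
          intro k
          rw [map_mul, hv']
          ring
        rw [Finset.sum_congr rfl fun k _ => e2 k, ← Finset.mul_sum, ← hf, LinearMap.mem_ker.1 hw,
          Pi.zero_apply, mul_zero]
      have e3 := congrArg (Polynomial.eval t) e1
      rw [Polynomial.eval_finsetSum, Polynomial.eval_zero] at e3
      rw [map_sum, ← e3]
      refine Finset.sum_congr rfl fun k _ => ?_
      rw [map_smul, smul_eq_mul, hP, Polynomial.eval_mul, mul_comm]

/-- the limit at `0` of a family of subspaces -/
def lim {b : ℕ} (T : K → Submodule K (Fin b → K)) : Submodule K (Fin b → K) where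
  carrier := {w | ∃ p : Fin b → Polynomial K,
    (∀ t, t ≠ 0 → (fun j => (p j).eval t) ∈ T t) ∧ ∀ j, w j = (p j).eval 0}
  add_mem' := by
    rintro v w ⟨p, hp, hv⟩ ⟨q, hq, hw⟩
    refine ⟨fun j => p j + q j, fun t ht => ?_, fun j => ?_⟩
    · have := (T t).add_mem (hp t ht) (hq t ht)
      refine (congrArg (· ∈ T t) ?_).mp this
      funext j
      simp
    · rw [Pi.add_apply, hv, hw, Polynomial.eval_add]
  zero_mem' := ⟨fun _ => 0, fun t _ => by
    have := (T t).zero_mem
    refine (congrArg (· ∈ T t) ?_).mp this
    funext j
    simp, fun j => by simp⟩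
  smul_mem' := by
    rintro r v ⟨p, hp, hv⟩
    refine ⟨fun j => Polynomial.C r * p j, fun t ht => ?_, fun j => ?_⟩
    · have := (T t).smul_mem r (hp t ht)
      refine (congrArg (· ∈ T t) ?_).mp this
      funext j
      simp
    · rw [Pi.smul_apply, hv, Polynomial.eval_mul, Polynomial.eval_C, smul_eq_mul]

theorem mem_lim {b : ℕ} {T : K → Submodule K (Fin b → K)} {w : Fin b → K} : w ∈ lim T ↔
    ∃ p : Fin b → Polynomial K, (∀ t, t ≠ 0 → (fun j => (p j).eval t) ∈ T t) ∧
      ∀ j, w j = (p j).eval 0 := Iff.rfl

theorem finrank_lim [Infinite K] {b k : ℕ} {T : K → Submodule K (Fin b → K)}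
    (h : Gen K fun t => finrank K (T t) ≤ k) : finrank K (lim T) ≤ k := by
  classical
  by_contra hcon
  push Not at hcon
  have hle : k + 1 ≤ finrank K (lim T) := hcon
  let e := finBasis K (lim T)
  let w : Fin (k + 1) → lim T := fun i => e (Fin.castLE hle i)
  have hw : LinearIndependent K w :=
    e.linearIndependent.comp _ (Fin.castLE_injective hle)
  have hw' : LinearIndependent K fun i => (w i : Fin b → K) :=
    hw.map' (lim T).subtype (Submodule.ker_subtype _)
  choose p hp hp0 using fun i => mem_lim.1 (w i).2
  let A : K → (Fin (k + 1) → K) →ₗ[K] (Fin b → K) := fun t =>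
    { toFun := fun c j => ∑ i, c i * (p i j).eval t
      map_add' := fun c d => by
        funext j
        simp only [Pi.add_apply, add_mul, Finset.sum_add_distrib]
      map_smul' := fun r c => by
        funext j
        simp only [Pi.smul_apply, smul_eq_mul, RingHom.id_apply, Finset.mul_sum]
        exact Finset.sum_congr rfl fun i _ => by ring }
  have hA : ∀ t c j, A t c j = ∑ i, c i * (p i j).eval t := fun t c j => rfl
  have hPK : PK fun t => LinearMap.ker (A t) := by
    have h1 : PK fun t => ⨅ j : Fin b, LinearMap.ker
        ((LinearMap.proj j : (Fin b → K) →ₗ[K] K).comp (A t)) := by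
      refine PK.iInf fun j => PK.one (φ := fun t =>
        (LinearMap.proj j : (Fin b → K) →ₗ[K] K).comp (A t)) fun c => ?_
      simp only [LinearMap.comp_apply, LinearMap.proj_apply, hA]
      exact LP.sum _ fun i _ => (LP.const _).mul (LP_eval _)
    refine h1.congr fun t => ?_
    ext c
    simp only [Submodule.mem_iInf, LinearMap.mem_ker, LinearMap.comp_apply, LinearMap.proj_apply]
    exact ⟨fun h => funext h, fun h j => congrFun h j⟩
  have h0 : LinearMap.ker (A 0) = ⊥ := by
    rw [LinearMap.ker_eq_bot']
    intro c hc
    have h1 : ∑ i, c i • (w i : Fin b → K) = 0 := by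
      funext j
      rw [Finset.sum_apply, Pi.zero_apply]
      have := congrFun hc j
      rw [hA, Pi.zero_apply] at this
      rw [← this]
      refine Finset.sum_congr rfl fun i _ => ?_
      rw [Pi.smul_apply, smul_eq_mul, hp0]
    funext i
    exact Fintype.linearIndependent_iff.1 hw' c h1 i
  obtain ⟨t, ⟨ht1, ht2⟩, ht3⟩ := (((hPK.gen_bot h0).and h).and
    (Gen.ne (K := K) (F := fun t : K => t) (LP.linear (LinearMap.id : K →ₗ[K] K)) 1
      one_ne_zero)).exists
  have hmem : ∀ c, A t c ∈ T t := by
    intro c
    have e1 : A t c = ∑ i, c i • (fun j => (p i j).eval t : Fin b → K) := by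
      funext j
      rw [hA, Finset.sum_apply]
      rfl
    rw [e1]
    exact (T t).sum_mem fun i _ => (T t).smul_mem _ (hp i t ht3)
  have h4 := LinearMap.finrank_le_finrank_of_injective
    (f := (A t).codRestrict (T t) hmem) (by
      rw [← LinearMap.ker_eq_bot, LinearMap.ker_codRestrict]
      exact ht1)
  rw [finrank_fintype_fun_eq_card, Fintype.card_fin] at h4
  omega

end

end Pool.Agent.WarR
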