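import Pool.Agent.War.Tool

/-!
# Tuples of quadratic forms with full and simple points (MP_db021c_ag, degree 2)   (helper14)

`SF K m`: symmetric `m × m` matrices; `bf A x y`: the bilinear form. A configuration consists of full
points `(z i, a i)` and simple points `y l`. `ZK` is the space of the `b`-tuples `F` of quadratic forms on
`K ^ m` with `F(z i, z i) = 0`, `∑_j a i j F_j(z i, ·) = 0` and `F(y l, y l) = 0`. `KQ m b x s r`: for some
(equivalently: for a general) configuration with `x` full and `s` simple points, `dim ZK ≤ r`.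
-/

set_option autoImplicit false

open Module

namespace Pool.Agent.WarR

open Pool.Agent.War

/-- symmetric matrices -/
def SF (K : Type*) [Field K] (m : ℕ) : Submodule K (Fin m → Fin m → K) where
  carrier := {A | ∀ i j, A i j = A j i}
  add_mem' := by
    intro A B hA hB i j
    simp only [Pi.add_apply, hA i j, hB i j]
  zero_mem' := fun _ _ => rfl
  smul_mem' := by
    intro c A hA i j
    simp only [Pi.smul_apply, hA i j]

section

variable {K : Type*} [Field K]

/-- the bilinear form with the matrix `A` -/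
def bf {m : ℕ} (A : Fin m → Fin m → K) (x y : Fin m → K) : K := ∑ i, ∑ j, x i * y j * A i j

theorem bf_add {m : ℕ} (A B : Fin m → Fin m → K) (x y : Fin m → K) :
    bf (A + B) x y = bf A x y + bf B x y := by
  simp only [bf, Pi.add_apply, mul_add, Finset.sum_add_distrib]

theorem bf_smul {m : ℕ} (c : K) (A : Fin m → Fin m → K) (x y : Fin m → K) :
    bf (c • A) x y = c * bf A x y := by
  simp only [bf, Pi.smul_apply, smul_eq_mul, Finset.mul_sum]
  refine Finset.sum_congr rfl fun i _ => Finset.sum_congr rfl fun j _ => by ring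

theorem bf_zero {m : ℕ} (x y : Fin m → K) : bf (0 : Fin m → Fin m → K) x y = 0 := by
  simp [bf]

theorem bf_add_right {m : ℕ} (A : Fin m → Fin m → K) (x y z : Fin m → K) :
    bf A x (y + z) = bf A x y + bf A x z := by
  simp only [bf, Pi.add_apply, mul_add, add_mul, Finset.sum_add_distrib]

theorem bf_smul_right {m : ℕ} (c : K) (A : Fin m → Fin m → K) (x y : Fin m → K) :
    bf A x (c • y) = c * bf A x y := by
  simp only [bf, Pi.smul_apply, smul_eq_mul, Finset.mul_sum]
  refine Finset.sum_congr rfl fun i _ => Finset.sum_congr rfl fun j _ => by ring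

theorem bf_comm {m : ℕ} {A : Fin m → Fin m → K} (hA : A ∈ SF K m) (x y : Fin m → K) :
    bf A x y = bf A y x := by
  unfold bf
  rw [Finset.sum_comm]
  refine Finset.sum_congr rfl fun i _ => Finset.sum_congr rfl fun j _ => ?_
  rw [hA j i]
  ring

theorem bf_single {m : ℕ} (A : Fin m → Fin m → K) (i j : Fin m) :
    bf A (Pi.single i 1) (Pi.single j 1) = A i j := by
  classical
  unfold bf
  rw [Finset.sum_eq_single i, Finset.sum_eq_single j]
  · simp
  · intro k _ hk
    simp [hk]
  · simp
  · intro k _ hk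
    simp [hk]
  · simp

/-- `bf` as a linear function of the matrix -/
def bfL {m : ℕ} (x y : Fin m → K) : (Fin m → Fin m → K) →ₗ[K] K where
  toFun A := bf A x y
  map_add' A B := bf_add A B x y
  map_smul' c A := bf_smul c A x y

@[simp] theorem bfL_apply {m : ℕ} (x y : Fin m → K) (A : Fin m → Fin m → K) :
    bfL x y A = bf A x y := rfl

/-- the parameters: full points, their vectors, simple points -/
abbrev Cfg (K : Type*) [Field K] (m b : ℕ) (I J : Type) : Type _ :=
  (I → Fin m → K) × (I → Fin b → K) × (J → Fin m → K)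

/-- the tuples of quadratic forms with the conditions -/
def ZK {m b : ℕ} {I J : Type} (c : Cfg K m b I J) : Submodule K (Fin b → SF K m) where
  carrier := {F | (∀ i j, bf (F j : Fin m → Fin m → K) (c.1 i) (c.1 i) = 0) ∧
    (∀ i v, ∑ j, c.2.1 i j * bf (F j : Fin m → Fin m → K) (c.1 i) v = 0) ∧
    ∀ l j, bf (F j : Fin m → Fin m → K) (c.2.2 l) (c.2.2 l) = 0}
  add_mem' := by
    rintro F G ⟨h1, h2, h3⟩ ⟨k1, k2, k3⟩
    refine ⟨fun i j => ?_, fun i v => ?_, fun l j => ?_⟩
    · rw [Pi.add_apply, Submodule.coe_add, bf_add, h1, k1, add_zero]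
    · simp only [Pi.add_apply, Submodule.coe_add, bf_add, mul_add, Finset.sum_add_distrib, h2 i v,
        k2 i v, add_zero]
    · rw [Pi.add_apply, Submodule.coe_add, bf_add, h3, k3, add_zero]
  zero_mem' := by
    refine ⟨fun i j => ?_, fun i v => ?_, fun l j => ?_⟩ <;> simp [bf_zero]
  smul_mem' := by
    rintro r F ⟨h1, h2, h3⟩
    refine ⟨fun i j => ?_, fun i v => ?_, fun l j => ?_⟩
    · rw [Pi.smul_apply, Submodule.coe_smul, bf_smul, h1, mul_zero]
    · simp only [Pi.smul_apply, Submodule.coe_smul, bf_smul]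
      have : ∀ j, c.2.1 i j * (r * bf (F j : Fin m → Fin m → K) (c.1 i) v) =
          r * (c.2.1 i j * bf (F j : Fin m → Fin m → K) (c.1 i) v) := fun j => by ring
      simp only [this, ← Finset.mul_sum, h2 i v, mul_zero]
    · rw [Pi.smul_apply, Submodule.coe_smul, bf_smul, h3, mul_zero]

theorem mem_ZK {m b : ℕ} {I J : Type} {c : Cfg K m b I J} {F : Fin b → SF K m} : F ∈ ZK c ↔
    (∀ i j, bf (F j : Fin m → Fin m → K) (c.1 i) (c.1 i) = 0) ∧
    (∀ i v, ∑ j, c.2.1 i j * bf (F j : Fin m → Fin m → K) (c.1 i) v = 0) ∧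
    ∀ l j, bf (F j : Fin m → Fin m → K) (c.2.2 l) (c.2.2 l) = 0 := Iff.rfl

/-- the basis vectors are enough -/
theorem full_iff {m b : ℕ} (F : Fin b → Fin m → Fin m → K) (a : Fin b → K) (z : Fin m → K) :
    (∀ v, ∑ j, a j * bf (F j) z v = 0) ↔ ∀ k : Fin m, ∑ j, a j * bf (F j) z (Pi.single k 1) = 0 := by
  classical
  constructor
  · intro h k
    exact h _
  · intro h v
    have e1 : v = ∑ k, v k • (Pi.single k (1 : K) : Fin m → K) := by
      funext i
      simp [Finset.sum_apply, Pi.single_apply]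
    have e2 : ∀ j, bf (F j) z v = ∑ k, v k * bf (F j) z (Pi.single k 1) := by
      intro j
      conv_lhs => rw [e1]
      have : ∀ s : Finset (Fin m), bf (F j) z (∑ k ∈ s, v k • (Pi.single k (1 : K) : Fin m → K)) =
          ∑ k ∈ s, v k * bf (F j) z (Pi.single k 1) := by
        intro s
        induction s using Finset.induction_on with
        | empty => simp [bf]
        | insert k s hk ih =>
          rw [Finset.sum_insert hk, Finset.sum_insert hk, bf_add_right, bf_smul_right, ih]
      exact this _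
    simp only [e2, Finset.mul_sum]
    rw [Finset.sum_comm]
    refine Finset.sum_eq_zero fun k _ => ?_
    have : ∀ j, a j * (v k * bf (F j) z (Pi.single k 1)) =
        v k * (a j * bf (F j) z (Pi.single k 1)) := fun j => by ring
    simp only [this, ← Finset.mul_sum, h k, mul_zero]

theorem LP_apply {X : Type*} [AddCommGroup X] [Module K X] {m : ℕ} (L : X →ₗ[K] (Fin m → K))
    (k : Fin m) : LP fun x => L x k :=
  LP.linear ((LinearMap.proj k : (Fin m → K) →ₗ[K] K).comp L)

theorem LP_bf {X : Type*} [AddCommGroup X] [Module K X] {m : ℕ} (A : Fin m → Fin m → K)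
    {x y : X → Fin m → K} (hx : ∀ k, LP fun p => x p k) (hy : ∀ k, LP fun p => y p k) :
    LP fun p => bf A (x p) (y p) := by
  unfold bf
  exact LP.sum _ fun i _ => LP.sum _ fun j _ => ((hx i).mul (hy j)).mul (LP.const _)

/-- a value of one form -/
def evF {m b : ℕ} (z : Fin m → K) (j : Fin b) : (Fin b → SF K m) →ₗ[K] K where
  toFun F := bf (F j : Fin m → Fin m → K) z z
  map_add' F G := by rw [Pi.add_apply, Submodule.coe_add, bf_add]
  map_smul' r F := by rw [Pi.smul_apply, Submodule.coe_smul, bf_smul]; rfl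

@[simp] theorem evF_apply {m b : ℕ} (z : Fin m → K) (j : Fin b) (F : Fin b → SF K m) :
    evF z j F = bf (F j : Fin m → Fin m → K) z z := rfl

/-- a mixed polar value -/
def dvF {m b : ℕ} (a : Fin b → K) (z v : Fin m → K) : (Fin b → SF K m) →ₗ[K] K where
  toFun F := ∑ j, a j * bf (F j : Fin m → Fin m → K) z v
  map_add' F G := by
    simp only [Pi.add_apply, Submodule.coe_add, bf_add, mul_add, Finset.sum_add_distrib]
  map_smul' r F := by
    simp only [Pi.smul_apply, Submodule.coe_smul, bf_smul, RingHom.id_apply, smul_eq_mul,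
      Finset.mul_sum]
    exact Finset.sum_congr rfl fun j _ => by ring

@[simp] theorem dvF_apply {m b : ℕ} (a : Fin b → K) (z v : Fin m → K) (F : Fin b → SF K m) :
    dvF a z v F = ∑ j, a j * bf (F j : Fin m → Fin m → K) z v := rfl

theorem LP_c1 {m b : ℕ} {I J : Type} (i : I) (k : Fin m) : LP fun c : Cfg K m b I J => c.1 i k :=
  LP_apply ((LinearMap.proj i : (I → Fin m → K) →ₗ[K] (Fin m → K)).comp
    (LinearMap.fst K (I → Fin m → K) ((I → Fin b → K) × (J → Fin m → K)))) k

theorem LP_c2 {m b : ℕ} {I J : Type} (i : I) (k : Fin b) :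
    LP fun c : Cfg K m b I J => c.2.1 i k :=
  LP_apply (((LinearMap.proj i : (I → Fin b → K) →ₗ[K] (Fin b → K)).comp
    (LinearMap.fst K (I → Fin b → K) (J → Fin m → K))).comp
    (LinearMap.snd K (I → Fin m → K) ((I → Fin b → K) × (J → Fin m → K)))) k

theorem LP_c3 {m b : ℕ} {I J : Type} (i : J) (k : Fin m) :
    LP fun c : Cfg K m b I J => c.2.2 i k :=
  LP_apply (((LinearMap.proj i : (J → Fin m → K) →ₗ[K] (Fin m → K)).comp
    (LinearMap.snd K (I → Fin b → K) (J → Fin m → K))).comp
    (LinearMap.snd K (I → Fin m → K) ((I → Fin b → K) × (J → Fin m → K)))) k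

/-- the configurations form a polynomial family -/
theorem PK_ZK {m b : ℕ} {I J : Type} [Finite I] [Finite J] :
    PK fun c : Cfg K m b I J => ZK c := by
  have h1 : PK fun c : Cfg K m b I J => ⨅ q : I × Fin b, LinearMap.ker (evF (c.1 q.1) q.2) := by
    refine PK.iInf fun q => PK.one (φ := fun c : Cfg K m b I J => evF (c.1 q.1) q.2) fun F => ?_
    simp only [evF_apply]
    exact LP_bf _ (LP_c1 q.1) (LP_c1 q.1)
  have h2 : PK fun c : Cfg K m b I J => ⨅ q : I × Fin m,
      LinearMap.ker (dvF (c.2.1 q.1) (c.1 q.1) (Pi.single q.2 1)) := by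
    refine PK.iInf fun q => PK.one (φ := fun c : Cfg K m b I J =>
      dvF (c.2.1 q.1) (c.1 q.1) (Pi.single q.2 1)) fun F => ?_
    simp only [dvF_apply]
    exact LP.sum _ fun j _ => (LP_c2 q.1 j).mul (LP_bf _ (LP_c1 q.1) fun k => LP.const _)
  have h3 : PK fun c : Cfg K m b I J => ⨅ q : J × Fin b, LinearMap.ker (evF (c.2.2 q.1) q.2) := by
    refine PK.iInf fun q => PK.one (φ := fun c : Cfg K m b I J => evF (c.2.2 q.1) q.2) fun F => ?_
    simp only [evF_apply]
    exact LP_bf _ (LP_c3 q.1) (LP_c3 q.1)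
  refine ((h1.inf h2).inf h3).congr fun c => ?_
  ext F
  have e : ∀ i : I, (∀ v, ∑ j, c.2.1 i j * bf (F j : Fin m → Fin m → K) (c.1 i) v = 0) ↔
      ∀ k : Fin m, ∑ j, c.2.1 i j * bf (F j : Fin m → Fin m → K) (c.1 i) (Pi.single k 1) = 0 :=
    fun i => full_iff (fun j => (F j : Fin m → Fin m → K)) _ _
  simp only [Submodule.mem_inf, Submodule.mem_iInf, LinearMap.mem_ker, evF_apply, dvF_apply,
    mem_ZK, e, Prod.forall, and_assoc]

/-- there are `x` full points and `s` simple points with `dim ZK ≤ r` -/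
def KQ (K : Type*) [Field K] (m b x s r : ℕ) : Prop :=
  ∃ c : Cfg K m b (Fin x) (Fin s), finrank K (ZK c) ≤ r

theorem KQ.gen {m b x s r : ℕ} (h : KQ K m b x s r) :
    Gen K fun c : Cfg K m b (Fin x) (Fin s) => finrank K (ZK c) ≤ r := by
  obtain ⟨c, hc⟩ := h
  exact PK_ZK.gen_finrank hc

/-- reindexing -/
theorem ZK_reindex {m b : ℕ} {I J I' J' : Type} (e : I' ≃ I) (e' : J' ≃ J) (c : Cfg K m b I J) :
    ZK (c.1 ∘ e, c.2.1 ∘ e, c.2.2 ∘ e') = ZK c := by
  ext F
  rw [mem_ZK, mem_ZK]
  refine and_congr ?_ (and_congr ?_ ?_)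
  · exact ⟨fun h i j => by simpa using h (e.symm i) j, fun h i j => h (e i) j⟩
  · exact ⟨fun h i j => by simpa using h (e.symm i) j, fun h i j => h (e i) j⟩
  · exact ⟨fun h i j => by simpa using h (e'.symm i) j, fun h i j => h (e' i) j⟩

theorem KQ.of_cfg {m b x s r : ℕ} {I J : Type} [Fintype I] [Fintype J] (c : Cfg K m b I J)
    (hI : Fintype.card I = x) (hJ : Fintype.card J = s) (h : finrank K (ZK c) ≤ r) :
    KQ K m b x s r := by
  refine ⟨(c.1 ∘ (Fintype.equivFinOfCardEq hI).symm, c.2.1 ∘ (Fintype.equivFinOfCardEq hI).symm,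
    c.2.2 ∘ (Fintype.equivFinOfCardEq hJ).symm), ?_⟩
  rw [ZK_reindex]
  exact h

end

end Pool.Agent.WarR
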