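import Pool.Agent.WarR.Step
import Pool.Agent.WarR.Curve

/-!
# HORACE: the limit argument   (helper14, after helper68)
-/

set_option autoImplicit false

open Module

namespace Pool.Agent.WarR

open Pool.Agent.War

section

variable {K : Type*} [Field K]

theorem finrank_inf_ker {V : Type*} [AddCommGroup V] [Module K V] [FiniteDimensional K V] {k : ℕ}
    (W : Submodule K V) (f : Fin k → V →ₗ[K] K) :
    finrank K W ≤ k + finrank K ↥(W ⊓ ⨅ i, LinearMap.ker (f i)) := by
  have h := finrank_le_map_add_ker (LinearMap.pi f) W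
  rw [LinearMap.ker_pi] at h
  have h2 : finrank K (W.map (LinearMap.pi f)) ≤ k := by
    refine (Submodule.finrank_le _).trans ?_
    rw [finrank_fintype_fun_eq_card, Fintype.card_fin]
  omega

/-- the functional of the split point in the limit -/
def gZ {m b : ℕ} (z0 : Fin m → K) (j : Fin b) :
    ((Fin b → SF K m) × (Fin b → Fin m → K)) →ₗ[K] K where
  toFun p := bf (p.1 j : Fin m → Fin m → K) z0 z0 + 2 * lv z0 p.2 j
  map_add' p q := by
    rw [Prod.fst_add, Prod.snd_add, Pi.add_apply, Submodule.coe_add, bf_add, map_add, Pi.add_apply]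
    ring
  map_smul' r p := by
    rw [Prod.smul_fst, Prod.smul_snd, Pi.smul_apply, Submodule.coe_smul, bf_smul, map_smul,
      Pi.smul_apply, smul_eq_mul, RingHom.id_apply, smul_eq_mul]
    ring

theorem gZ_apply {m b : ℕ} (z0 : Fin m → K) (j : Fin b)
    (p : (Fin b → SF K m) × (Fin b → Fin m → K)) : gZ z0 j p =
      bf (p.1 j : Fin m → Fin m → K) z0 z0 + 2 * lv z0 p.2 j := rfl

/-- the pairs (trace, residual) -/
def NL {m b x s : ℕ} (Z : Submodule K (Fin b → SF K m)) (z : Fin x → Fin m → K)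
    (a : Fin x → Fin b → K) (z0 : Fin m → K) (μ : Fin s → Fin m → K) :
    Submodule K ((Fin b → SF K m) × (Fin b → Fin m → K)) :=
  Z.comap (LinearMap.fst K _ _) ⊓ ((⨅ i : Fin x, (LinearMap.ker (ro (a i, z i))).comap
    (LinearMap.snd K (Fin b → SF K m) (Fin b → Fin m → K))) ⊓
    ((⨅ l : Fin s, (LinearMap.ker (lv (μ l))).comap
      (LinearMap.snd K (Fin b → SF K m) (Fin b → Fin m → K))) ⊓
      ⨅ j : Fin b, LinearMap.ker (gZ z0 j)))

theorem mem_NL {m b x s : ℕ} {Z : Submodule K (Fin b → SF K m)} {z : Fin x → Fin m → K}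
    {a : Fin x → Fin b → K} {z0 : Fin m → K} {μ : Fin s → Fin m → K}
    {q : (Fin b → SF K m) × (Fin b → Fin m → K)} : q ∈ NL Z z a z0 μ ↔
      q.1 ∈ Z ∧ (∀ i, ro (a i, z i) q.2 = 0) ∧ (∀ l, lv (μ l) q.2 = 0) ∧
        ∀ j, bf (q.1 j : Fin m → Fin m → K) z0 z0 + 2 * lv z0 q.2 j = 0 := by
  simp only [NL, Submodule.mem_inf, Submodule.mem_iInf, Submodule.mem_comap, LinearMap.mem_ker,
    LinearMap.fst_apply, LinearMap.snd_apply, gZ_apply]

theorem PK_NL {m b x s : ℕ} {Z : K → Submodule K (Fin b → SF K m)} (hZ : PK Z)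
    {z : K → Fin x → Fin m → K} (hz : ∀ i k, LP fun t => z t i k)
    {a : K → Fin x → Fin b → K} (ha : ∀ i k, LP fun t => a t i k)
    {z0 : K → Fin m → K} (hz0 : ∀ k, LP fun t => z0 t k) (μ : Fin s → Fin m → K) :
    PK fun t => NL (Z t) (z t) (a t) (z0 t) μ := by
  refine (hZ.comap _).inf ((PK.iInf fun i => (PK_ro (hz i) (ha i)).comap _).inf
    ((PK.iInf fun l => (PK_lv (v := fun _ : K => μ l) fun k => LP.const _).comap _).inf
      (PK.iInf fun j => PK.one (φ := fun t : K => gZ (z0 t) j) fun p => ?_)))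
  simp only [gZ_apply]
  exact (LP_bf _ hz0 hz0).add ((LP.const _).mul (LP_lv _ hz0 j))

theorem PK_evA {m b : ℕ} (f : (Fin b → K) →ₗ[K] K) {z0 : K → Fin m → K}
    (hz0 : ∀ k, LP fun t => z0 t k) : PK fun t => LinearMap.ker (f.comp (evA (b := b) (z0 t))) := by
  refine PK.one (φ := fun t : K => f.comp (evA (z0 t))) fun F => ?_
  have e : ∀ t, f.comp (evA (z0 t)) F = ∑ j, bf (F j : Fin m → Fin m → K) (z0 t) (z0 t) *
      f (Pi.single j 1) := by
    intro t
    have e1 : evA (z0 t) F = ∑ j, bf (F j : Fin m → Fin m → K) (z0 t) (z0 t) •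
        (Pi.single j (1 : K) : Fin b → K) := by
      funext i
      simp [Finset.sum_apply, Pi.single_apply, evA_apply]
    rw [LinearMap.comp_apply, e1, map_sum]
    exact Finset.sum_congr rfl fun j _ => by rw [map_smul, smul_eq_mul]
  simp only [e]
  exact LP.sum _ fun j _ => (LP_bf _ hz0 hz0).mul (LP.const _)

/-- the special configuration -/
def Spec (K : Type*) [Field K] (m b x s κ : ℕ) : Prop :=
  ∃ (z : Fin x → Fin m → K) (a : Fin x → Fin b → K) (z0 : Fin m → K),
    ∀ T0 : Submodule K (Fin b → K), finrank K T0 ≤ κ → ∃ μ : Fin s → Fin m → K,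
      ∀ G : Fin b → Fin m → K, (∀ i, ro (a i, z i) G = 0) → (∀ l, lv (μ l) G = 0) →
        lv z0 G ∈ T0 → G = 0

theorem hor_core [CharZero K] {m b x s κ y1 ρ : ℕ} (h1 : KQ K m b x y1 ρ)
    (h2 : KQ K m b x (y1 + 1) 0) (hJ : Spec K m b x s κ) :
    ∃ (z : Fin x → Fin m → K) (a : Fin x → Fin b → K) (y : Fin (y1 + 1) → Fin m → K)
      (μ : Fin s → Fin m → K), ZK (z, a, y) = ⊥ ∧
      finrank K (NL (ZK (z, a, fun l : Fin y1 => y l.castSucc)) z a (y (Fin.last y1)) μ) ≤
        ρ - κ := by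
  classical
  have h2K : (2 : K) ≠ 0 := two_ne_zero
  obtain ⟨zs, as, ws, hJ⟩ := hJ
  -- the general configuration
  let X : Type _ := Cfg K m b (Fin x) (Fin (y1 + 1))
  let C1 : X →ₗ[K] Cfg K m b (Fin x) (Fin y1) :=
    { toFun := fun q => (q.1, q.2.1, fun l => q.2.2 l.castSucc)
      map_add' := fun _ _ => rfl
      map_smul' := fun _ _ => rfl }
  have hC1 : Function.Surjective C1 := by
    rintro ⟨z, a, y⟩
    refine ⟨(z, a, Fin.snoc y 0), ?_⟩
    refine Prod.ext rfl (Prod.ext rfl ?_)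
    funext l
    change (Fin.snoc y 0 : Fin (y1 + 1) → Fin m → K) l.castSucc = y l
    rw [Fin.snoc_castSucc]
  obtain ⟨x1, k1, k2⟩ := ((h1.gen.comp C1 hC1).and h2.gen).exists
  have k2' : ZK x1 = ⊥ := Submodule.finrank_eq_zero.1 (Nat.le_zero.1 k2)
  -- the functionals
  have hred := red (K := K) (fun f : (Fin b → K) →ₗ[K] K => f.comp (evA (x1.2.2 (Fin.last y1))))
    (ZK (C1 x1)) ⊥ (fun w hw hw0 => by
      by_contra hcon
      push Not at hcon
      apply hw0
      rw [Submodule.mem_bot]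
      have hw1 : w ∈ ZK x1 := by
        obtain ⟨w1, w2, w3⟩ := mem_ZK.1 hw
        refine mem_ZK.2 ⟨w1, w2, fun l j => ?_⟩
        refine Fin.lastCases ?_ (fun l => w3 l j) l
        exact hcon (LinearMap.proj j)
      rw [k2', Submodule.mem_bot] at hw1
      exact hw1) (ρ - κ)
  obtain ⟨f, hf⟩ := hred
  rw [finrank_bot, max_eq_left (Nat.zero_le _)] at hf
  have hf' : finrank K ↥(ZK (C1 x1) ⊓ ⨅ i, LinearMap.ker ((f i).comp
      (evA (x1.2.2 (Fin.last y1))))) ≤ κ := by
    refine hf.trans ?_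
    omega
  -- the line
  let x0 : X := (zs, as, fun _ => ws)
  let L : K →ₗ[K] X := LinearMap.toSpanSingleton K X (x1 - x0)
  let c : K → X := fun t => L t + x0
  have hc0 : c 0 = x0 := by
    change L 0 + x0 = x0
    rw [map_zero, zero_add]
  have hc1 : c 1 = x1 := by
    change (1 : K) • (x1 - x0) + x0 = x1
    rw [one_smul, sub_add_cancel]
  have lz : ∀ i k, LP fun t => (c t).1 i k := fun i k =>
    (LP_c1 (K := K) (b := b) (J := Fin (y1 + 1)) i k).comp_affine L x0
  have la : ∀ i k, LP fun t => (c t).2.1 i k := fun i k =>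
    (LP_c2 (K := K) (m := m) (J := Fin (y1 + 1)) i k).comp_affine L x0
  have ly : ∀ k, LP fun t => (c t).2.2 (Fin.last y1) k := fun k =>
    (LP_c3 (K := K) (b := b) (I := Fin x) (Fin.last y1) k).comp_affine L x0
  let Z : K → Submodule K (Fin b → SF K m) := fun t => ZK (C1 (c t)) ⊓
    ⨅ i, LinearMap.ker ((f i).comp (evA ((c t).2.2 (Fin.last y1))))
  have hPK1 : PK fun t => ZK (C1 (c t)) := (PK_ZK.comp C1).comp_affine L x0
  have hPK2 : PK fun t => ZK (c t) := PK_ZK.comp_affine L x0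
  have hPK3 : PK Z := hPK1.inf (PK.iInf fun i => PK_evA (f i) ly)
  have hgen : Gen K fun t => finrank K (Z t) ≤ κ := by
    refine hPK3.gen_finrank (x₀ := 1) ?_
    change finrank K ↥(ZK (C1 (c 1)) ⊓ ⨅ i, LinearMap.ker ((f i).comp
      (evA ((c 1).2.2 (Fin.last y1))))) ≤ κ
    rw [hc1]
    exact hf'
  have hgen2 : Gen K fun t => ZK (c t) = ⊥ := hPK2.gen_bot (x₀ := 1) (by rw [hc1]; exact k2')
  let T : K → Submodule K (Fin b → K) := fun t => (Z t).map (evA ((c t).2.2 (Fin.last y1)))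
  have hT : Gen K fun t => finrank K (T t) ≤ κ := hgen.mono fun t ht =>
    (Submodule.finrank_map_le _ _).trans ht
  obtain ⟨μ, hμ⟩ := hJ (lim T) (finrank_lim hT)
  let N : K → Submodule K ((Fin b → SF K m) × (Fin b → Fin m → K)) := fun t =>
    NL (Z t) (c t).1 (c t).2.1 ((c t).2.2 (Fin.last y1)) μ
  have hPKN : PK N := PK_NL hPK3 lz la ly μ
  -- membership in the full kernel
  have hfull : ∀ t (F : Fin b → SF K m), F ∈ Z t → (∀ j, bf (F j : Fin m → Fin m → K)
      ((c t).2.2 (Fin.last y1)) ((c t).2.2 (Fin.last y1)) = 0) → F ∈ ZK (c t) := by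
    intro t F hF h0
    obtain ⟨w1, w2, w3⟩ := mem_ZK.1 hF.1
    refine mem_ZK.2 ⟨w1, w2, fun l j => ?_⟩
    refine Fin.lastCases (h0 j) (fun l => w3 l j) l
  have hNgen : Gen K fun t => N t = ⊥ := by
    by_contra hcon
    obtain ⟨v, hv0, hv⟩ := curve hPKN hcon
    let B := finBasis K ((Fin b → SF K m) × (Fin b → Fin m → K))
    let u : K → (Fin b → SF K m) × (Fin b → Fin m → K) := fun t => ∑ k, (v k).eval t • B k
    have hu : ∀ t, u t ∈ N t := hv
    let g : Fin b × Fin m → Polynomial K := fun q => ∑ k, v k * Polynomial.C ((B k).2 q.1 q.2)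
    have hg : ∀ t j k, (u t).2 j k = (g (j, k)).eval t := by
      intro t j k
      have e1 : (u t).2 = ∑ l, (v l).eval t • (B l).2 := by
        change (∑ l, (v l).eval t • B l).2 = _
        rw [Prod.snd_sum]
        rfl
      rw [e1, Finset.sum_apply, Finset.sum_apply, Polynomial.eval_finsetSum]
      refine Finset.sum_congr rfl fun l _ => ?_
      rw [Polynomial.eval_mul, Polynomial.eval_C]
      rfl
    have hg0 : g ≠ 0 := by
      intro h0
      obtain ⟨k, hk⟩ : ∃ k, v k ≠ 0 := by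
        by_contra hh
        push Not at hh
        exact hv0 (funext hh)
      have hex : ∃ t₀ : K, (v k).eval t₀ ≠ 0 := by
        by_contra hh
        push Not at hh
        exact hk (Polynomial.funext fun t => by rw [hh t, Polynomial.eval_zero])
      obtain ⟨t₀, ht₀⟩ := hex
      obtain ⟨t, ht1, ht2⟩ := (hgen2.and (Gen.ne (LP_eval (v k)) t₀ ht₀)).exists
      have hut := mem_NL.1 (hu t)
      have hG : (u t).2 = 0 := by
        funext j k
        rw [hg, h0]
        simp
      have hF : (u t).1 = 0 := by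
        have h5 : (u t).1 ∈ ZK (c t) := by
          refine hfull t _ hut.1 fun j => ?_
          have := hut.2.2.2 j
          rw [hG, map_zero, Pi.zero_apply, mul_zero, add_zero] at this
          exact this
        rw [ht1, Submodule.mem_bot] at h5
        exact h5
      have hut0 : u t = 0 := Prod.ext hF hG
      exact ht2 (Fintype.linearIndependent_iff.1 B.linearIndependent _ hut0 k)
    obtain ⟨n, g', hg', ⟨j₀, k₀⟩, hjk⟩ := primitive hg0
    let G : K → Fin b → Fin m → K := fun t j k => (g' (j, k)).eval t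
    have hGu : ∀ t, (u t).2 = t ^ n • G t := by
      intro t
      funext j k
      rw [hg, hg', Polynomial.eval_mul, Polynomial.eval_pow, Polynomial.eval_X]
      rfl
    have hGt : ∀ t, t ≠ 0 → ∀ (φ : (Fin b → Fin m → K) →ₗ[K] (Fin b → K)),
        φ (G t) = (t ^ n)⁻¹ • φ (u t).2 := by
      intro t ht φ
      rw [hGu, map_smul, smul_smul, inv_mul_cancel₀ (pow_ne_zero n ht), one_smul]
    have lG : ∀ {w : K → Fin m → K}, (∀ k, LP fun t => w t k) → ∀ j,
        LP fun t => lv (w t) (G t) j := by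
      intro w hw j
      simp only [lv_apply]
      exact LP.sum _ fun k _ => (hw k).mul (LP_eval _)
    -- the limit
    have e1 : ∀ i, ro (as i, zs i) (G 0) = 0 := by
      intro i
      have hLP : LP fun t => ro ((c t).2.1 i, (c t).1 i) (G t) := by
        have e : ∀ t, ro ((c t).2.1 i, (c t).1 i) (G t) =
            ∑ j, (c t).2.1 i j * lv ((c t).1 i) (G t) j := fun t => rfl
        simp only [e]
        exact LP.sum _ fun j _ => (la i j).mul (lG (lz i) j)
      have := LP_zero_of hLP fun t ht => by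
        have h5 := (mem_NL.1 (hu t)).2.1 i
        rw [hGu, map_smul, smul_eq_mul] at h5
        exact (mul_eq_zero.1 h5).resolve_left (pow_ne_zero n ht)
      rw [hc0] at this
      exact this
    have e2 : ∀ l, lv (μ l) (G 0) = 0 := by
      intro l
      funext j
      refine LP_zero_of (lG (w := fun _ => μ l) (fun k => LP.const _) j) fun t ht => ?_
      rw [hGt t ht (lv (μ l)), (mem_NL.1 (hu t)).2.2.1 l, smul_zero]
      rfl
    have e3 : lv ws (G 0) ∈ lim T := by
      choose p hp using fun j => LP_poly (lG ly j)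
      refine mem_lim.2 ⟨p, fun t ht => ?_, fun j => ?_⟩
      · have h6 : (fun j => (p j).eval t) = lv ((c t).2.2 (Fin.last y1)) (G t) :=
          funext fun j => (hp j t).symm
        rw [h6, hGt t ht (lv _)]
        have h7 := mem_NL.1 (hu t)
        have h8 : lv ((c t).2.2 (Fin.last y1)) (u t).2 =
            evA ((c t).2.2 (Fin.last y1)) ((-(2 : K)⁻¹) • (u t).1) := by
          funext j
          rw [map_smul, Pi.smul_apply, evA_apply, smul_eq_mul]
          have := h7.2.2.2 j
          rw [eq_neg_of_add_eq_zero_left this]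
          field_simp
        rw [h8]
        exact Submodule.smul_mem _ _ ⟨_, (Z t).smul_mem _ h7.1, rfl⟩
      · rw [← hp, hc0]
    have e4 := hμ (G 0) e1 e2 e3
    exact hjk (congrFun (congrFun e4 j₀) k₀)
  obtain ⟨t, ht1, ht2⟩ := (hgen2.and hNgen).exists
  refine ⟨(c t).1, (c t).2.1, (c t).2.2, μ, ht1, ?_⟩
  refine (finrank_inf_ker _ fun i => ((f i).comp (evA ((c t).2.2 (Fin.last y1)))).comp
    (LinearMap.fst K (Fin b → SF K m) (Fin b → Fin m → K))).trans ?_
  have h9 : NL (ZK ((c t).1, (c t).2.1, fun l : Fin y1 => (c t).2.2 l.castSucc)) (c t).1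
      (c t).2.1 ((c t).2.2 (Fin.last y1)) μ ⊓ ⨅ i, LinearMap.ker
        (((f i).comp (evA ((c t).2.2 (Fin.last y1)))).comp
          (LinearMap.fst K (Fin b → SF K m) (Fin b → Fin m → K))) ≤ N t := by
    rintro q ⟨hq1, hq2⟩
    obtain ⟨q1, q2, q3, q4⟩ := mem_NL.1 hq1
    refine mem_NL.2 ⟨⟨q1, ?_⟩, q2, q3, q4⟩
    rw [SetLike.mem_coe, Submodule.mem_iInf] at hq2 ⊢
    exact fun i => hq2 i
  have h10 := Submodule.finrank_mono h9
  rw [ht2, finrank_bot] at h10
  omega

/-- **HORACE**, from the special configuration. -/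
theorem hor_of_spec [CharZero K] {m b x s κ y1 ρ r : ℕ} (h1 : KQ K m b x y1 ρ)
    (h2 : KQ K m b x (y1 + 1) 0) (hr : ρ ≤ r + κ) (hJ : Spec K m b x s κ) :
    KQ K (m + 1) b x (y1 + 1 + (s + 1)) r := by
  classical
  have h2K : (2 : K) ≠ 0 := two_ne_zero
  obtain ⟨z, a, y, μ, k1, k2⟩ := hor_core h1 h2 hJ
  obtain ⟨z0, hz0⟩ : ∃ z0, z0 = y (Fin.last y1) := ⟨_, rfl⟩
  let c : Cfg K m b (Fin x) (Fin y1) := (z, a, fun l : Fin y1 => y l.castSucc)
  have k2' : finrank K (NL (ZK c) z a z0 μ) ≤ ρ - κ := by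
    rw [hz0]
    exact k2
  let O : Type := Unit ⊕ Fin s
  let lam : O → Fin m → K := Sum.elim (fun _ => 0) μ
  let Θ : ((Fin b → SF K m) × (Fin b → Fin (m + 1) → K)) →ₗ[K]
      ((Fin b → SF K m) × (Fin b → Fin m → K)) :=
    { toFun := fun q => (q.1, fun j k => q.2 j k.succ)
      map_add' := fun _ _ => rfl
      map_smul' := fun _ _ => rfl }
  have key : ∀ q ∈ NT c z0 lam 0, (∀ j, q.2 j 0 = 0) ∧ Θ q ∈ NL (ZK c) z a z0 μ := by
    intro q hq
    obtain ⟨⟨q1, q2⟩, q3, q4⟩ := mem_NT.1 hq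
    have hΘ : (fun j k => q.2 j k.succ : Fin b → Fin m → K) = (Θ q).2 := rfl
    have q3' : ∀ o j, q.2 j 0 + lv (lam o) (Θ q).2 j = 0 := by
      intro o j
      have := q3 o j
      rw [zero_mul, zero_add, lv_cons, one_mul, hΘ] at this
      exact (mul_eq_zero.1 this).resolve_left h2K
    have q30 : ∀ j, q.2 j 0 = 0 := by
      intro j
      have := q3' (Sum.inl ()) j
      have e : lv (lam (Sum.inl ())) (Θ q).2 j = 0 := by
        rw [lv_apply]
        exact Finset.sum_eq_zero fun k _ => by simp [lam]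
      rwa [e, add_zero] at this
    refine ⟨q30, mem_NL.2 ⟨q1, fun i => ?_, fun l => ?_, fun j => ?_⟩⟩
    · have := q2 i
      rw [ro_apply] at this ⊢
      simp only [Fin.sum_univ_succ, Fin.cons_zero, Fin.cons_succ, zero_mul, zero_add] at this
      exact this
    · funext j
      have := q3' (Sum.inr l) j
      rwa [q30 j, zero_add] at this
    · have := q4 j
      rw [lv_cons, zero_mul, zero_add, hΘ] at this
      exact this
  have hN0 : finrank K (NT c z0 lam 0) ≤ r := by
    have e1 := finrank_le_map_add_ker Θ (NT c z0 lam 0)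
    have e2 : NT c z0 lam 0 ⊓ LinearMap.ker Θ = ⊥ := by
      rw [eq_bot_iff]
      rintro q ⟨hq, hq0⟩
      rw [Submodule.mem_bot]
      have h3 : Θ q = 0 := hq0
      have h4 : q.1 = 0 := by
        have := congrArg Prod.fst h3
        exact this
      refine Prod.ext h4 ?_
      funext j k
      refine Fin.cases ((key q hq).1 j) (fun k => ?_) k
      exact congrFun (congrFun (congrArg Prod.snd h3) j) k
    have e3 : (NT c z0 lam 0).map Θ ≤ NL (ZK c) z a z0 μ := by
      rintro _ ⟨q, hq, rfl⟩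
      exact (key q hq).2
    have e4 := Submodule.finrank_mono e3
    rw [e2, finrank_bot] at e1
    omega
  obtain ⟨t, ht, ht0⟩ := (((PK_NT c z0 lam).gen_finrank hN0).and
    (Gen.ne (K := K) (F := fun t : K => t) (LP.linear (LinearMap.id : K →ₗ[K] K)) 1
      one_ne_zero)).exists
  refine KQ.of_cfg (cfgT c z0 lam t) (Fintype.card_fin x) ?_
    ((finrank_cfgT c z0 lam ht0).trans ht)
  change Fintype.card ((Fin y1 ⊕ Unit) ⊕ (Unit ⊕ Fin s)) = _
  rw [Fintype.card_sum, Fintype.card_sum, Fintype.card_sum,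
    Fintype.card_unit, Fintype.card_fin, Fintype.card_fin]
  omega

end

end Pool.Agent.WarR
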