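import Pool.Agent.WarR.Hor1
import Pool.Agent.WarR.HorLim

/-!
# The step `m → m + 1` for all `b ≤ 2 (m - w)`, every field of characteristic `0`   (helper68)

The special configuration of `Hor1.lean` and the limit argument of `HorLim.lean` (helper14).
-/

set_option autoImplicit false

open Module

namespace Pool.Agent.WarR

open Pool.Agent.War

section

variable {K : Type*} [Field K]

theorem exists_sup_finrank {V : Type*} [AddCommGroup V] [Module K V] [FiniteDimensional K V]
    (R : Submodule K V) {κ : ℕ} (h : finrank K R ≤ κ) (hκ : κ ≤ finrank K V) :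
    ∃ T0 : Submodule K V, R ≤ T0 ∧ finrank K T0 = κ := by
  obtain ⟨C, hC⟩ := Submodule.exists_isCompl R
  have h1 := Submodule.finrank_add_eq_of_isCompl hC
  have h0 : κ - finrank K R ≤ finrank K C := by omega
  let B := Module.finBasis K C
  let v : Fin (κ - finrank K R) → V := fun i => (B (Fin.castLE h0 i) : V)
  have hv : LinearIndependent K v :=
    (B.linearIndependent.comp _ (Fin.castLE_injective h0)).map' C.subtype C.ker_subtype
  have hvC : Submodule.span K (Set.range v) ≤ C := by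
    rw [Submodule.span_le]
    rintro _ ⟨i, rfl⟩
    exact (B (Fin.castLE h0 i)).2
  refine ⟨R ⊔ Submodule.span K (Set.range v), le_sup_left, ?_⟩
  have h2 : R ⊓ Submodule.span K (Set.range v) = ⊥ := (hC.disjoint.mono_right hvC).eq_bot
  have h3 := Submodule.finrank_sup_add_finrank_inf_eq R (Submodule.span K (Set.range v))
  rw [h2, finrank_bot, add_zero, finrank_span_eq_card hv, Fintype.card_fin] at h3
  omega

theorem spec [CharZero K] {m b x q p κ : ℕ} (hm : q + (1 + p) = m) (hx : x = b * p + κ)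
    (hκ : κ ≤ b) (hbx : b ≤ x) (hbq : b ≤ 2 * q) : Spec K m b x q κ := by
  obtain ⟨z, a, y, h⟩ := HOR1.special (K := K) hm hx hκ hbx hbq
  refine ⟨z, a, y, fun T0 hT0 => ?_⟩
  obtain ⟨T1, h1, h2⟩ := exists_sup_finrank T0 hT0 (by rw [Module.finrank_fin_fun]; exact hκ)
  let B : Basis (Fin κ) K T1 := (Module.finBasis K T1).reindex (finCongr h2)
  have hli : LinearIndependent K (fun k => (B k : Fin b → K)) :=
    B.linearIndependent.map' T1.subtype T1.ker_subtype
  obtain ⟨lam, hlam⟩ := h (fun k => (B k : Fin b → K)) hli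
  refine ⟨lam, fun G g1 g2 g3 => ?_⟩
  have h3 : (⟨lv y G, h1 g3⟩ : T1) = ∑ k, B.repr ⟨lv y G, h1 g3⟩ k • B k :=
    (B.sum_repr _).symm
  have h4 := congrArg Subtype.val h3
  refine (hlam G (fun k => B.repr ⟨lv y G, h1 g3⟩ k) ?_ g1 g2).1
  rw [Submodule.coe_sum] at h4
  exact h4

/-- **The step `m → m + 1`**: all `b ≤ 2 (m - w)`, `w = ⌈x / b⌉`. -/
theorem HORK [CharZero K] {m b x y1 w ρ r : ℕ} (h1 : KQ K m b x y1 ρ)
    (h2 : KQ K m b x (y1 + 1) 0) (hbx : b ≤ x) (hw1 : x ≤ b * w) (hw2 : b * (w - 1) < x)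
    (hb : b ≤ 2 * (m - w)) (hr : ρ + b * w ≤ r + b + x) :
    KQ K (m + 1) b x (y1 + 1 + (m + 1 - w)) r := by
  have hw0 : w ≠ 0 := by
    rintro rfl
    omega
  obtain ⟨p, rfl⟩ := Nat.exists_eq_succ_of_ne_zero hw0
  rw [Nat.succ_sub_one] at hw2
  have hb0 : 0 < b := by
    rcases Nat.eq_zero_or_pos b with h | h
    · subst h
      simp at hw1
      omega
    · exact h
  have hbw : b * p.succ = b * p + b := Nat.mul_succ b p
  rw [hbw] at hw1 hr
  obtain ⟨κ, hκ⟩ : ∃ κ, x = b * p + κ := ⟨x - b * p, by omega⟩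
  have h3 := hor_of_spec (s := m - p.succ) (κ := κ) h1 h2 (r := r) (by omega)
    (spec (p := p) (by omega) hκ (by omega) hbx hb)
  have e : y1 + 1 + (m + 1 - p.succ) = y1 + 1 + (m - p.succ + 1) := by omega
  rw [e]
  exact h3

end

end Pool.Agent.WarR
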