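import Pool.Agent.WarR.As
import Pool.Agent.WarR.Quad

/-!
# Quadratic forms in three and four variables: the base cases of degree 2   (helper96)
-/

set_option autoImplicit false

open Module

namespace Pool.Agent.WarR

open Pool.Agent.War

section

variable {K : Type*} [Field K]

/-- `b + 1` blocks with one form and one full point -/
theorem ones [CharZero K] (n : ℕ) : ∀ b y, NV n ≤ y + b → KQ K (n + 1) (b + 1) (b + 1) y 0 := by
  intro b
  induction b with
  | zero =>
    intro y hy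
    refine (one_one (K := K) n y).mono ?_
    omega
  | succ b ih =>
    intro y hy
    have h1 : KQ K (n + 1) (b + 1) (b + 1) (y + 1) 0 := ih (y + 1) (by omega)
    have h2 : KQ K (n + 1) 1 1 (y + (b + 1)) 0 := (one_one (K := K) n _).mono (by omega)
    simpa using h1.blocks h2

/-- one form, two full points, four variables -/
theorem one_two [CharZero K] (s : ℕ) : KQ K 4 1 2 s (3 - s) := by
  have h0 : KQ K 4 1 2 0 3 := by
    refine ⟨(fun i => if i = 0 then Pi.single 0 1 else Pi.single 1 1, fun _ _ => 1,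
      fun l => l.elim0), ?_⟩
    refine le_trans ?_ (finrank_SF_le (K := K) 2)
    let T : (Fin 1 → SF K 4) →ₗ[K] SF K 2 :=
      { toFun := fun F => ⟨fun i j => (F 0 : Fin 4 → Fin 4 → K) i.succ.succ j.succ.succ,
          fun i j => (F 0).2 _ _⟩
        map_add' := fun _ _ => rfl
        map_smul' := fun _ _ => rfl }
    refine LinearMap.finrank_le_finrank_of_injective (f := T.domRestrict _) ?_
    refine (injective_iff_map_eq_zero _).2 ?_
    rintro ⟨F, hF⟩ hT
    obtain ⟨-, h2, -⟩ := mem_ZK.1 hF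
    apply Subtype.ext
    change F = 0
    have h3 : ∀ k : Fin 4, (F 0 : Fin 4 → Fin 4 → K) 0 k = 0 := by
      intro k
      have := h2 0 (Pi.single k 1)
      simpa [bf_single] using this
    have h4 : ∀ k : Fin 4, (F 0 : Fin 4 → Fin 4 → K) 1 k = 0 := by
      intro k
      have := h2 1 (Pi.single k 1)
      simpa [bf_single] using this
    have h5 : ∀ i j : Fin 2, (F 0 : Fin 4 → Fin 4 → K) i.succ.succ j.succ.succ = 0 := by
      intro i j
      exact congrFun (congrFun (congrArg Subtype.val hT) i) j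
    have hs : ∀ i j : Fin 4, (F 0 : Fin 4 → Fin 4 → K) i j = (F 0 : Fin 4 → Fin 4 → K) j i :=
      fun i j => (F 0).2 i j
    funext l
    obtain rfl : l = 0 := Subsingleton.elim _ _
    apply Subtype.ext
    funext i j
    change (F 0 : Fin 4 → Fin 4 → K) i j = 0
    have a22 := h5 0 0
    have a23 := h5 0 1
    have a32 := h5 1 0
    have a33 := h5 1 1
    change (F 0 : Fin 4 → Fin 4 → K) 2 2 = 0 at a22
    change (F 0 : Fin 4 → Fin 4 → K) 2 3 = 0 at a23
    change (F 0 : Fin 4 → Fin 4 → K) 3 2 = 0 at a32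
    change (F 0 : Fin 4 → Fin 4 → K) 3 3 = 0 at a33
    have b2 := hs 2 0
    have b3 := hs 3 0
    have c2 := hs 2 1
    have c3 := hs 3 1
    rw [h3] at b2 b3
    rw [h4] at c2 c3
    fin_cases i
    · exact h3 j
    · exact h4 j
    · fin_cases j <;> assumption
    · fin_cases j <;> assumption
  simpa using h0.add_simple s

/-- four variables -/
theorem four_vars [CharZero K] :
    KQ K 4 3 6 0 0 ∧ KQ K 4 4 6 0 0 ∧ KQ K 4 5 7 0 0 ∧ KQ K 4 6 7 0 0 := by
  have p4 : ∀ y, KQ K 4 2 4 y 0 := fun y =>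
    (pencil (K := K) (m := 4) (x := 4) (by omega) (by omega) y).mono (by omega)
  have p3 : ∀ y, 3 ≤ y → KQ K 4 2 3 y 0 := fun y hy =>
    (pencil (K := K) (m := 4) (x := 3) (by omega) (by omega) y).mono (by omega)
  have p2 : ∀ y, 5 ≤ y → KQ K 4 2 2 y 0 := fun y hy =>
    (pencil (K := K) (m := 4) (x := 2) (by omega) (by omega) y).mono (by omega)
  have q2 : ∀ y, 3 ≤ y → KQ K 4 1 2 y 0 := fun y hy => (one_two (K := K) y).mono (by omega)
  have N3 : NV 3 = 6 := rfl
  have q1 : ∀ y, 6 ≤ y → KQ K 4 1 1 y 0 := fun y hy =>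
    (one_one (K := K) 3 y).mono (by omega)
  refine ⟨?_, ?_, ?_, ?_⟩
  · exact KQ.blocks (b1 := 2) (b2 := 1) (x1 := 4) (x2 := 2) (y := 0) (r1 := 0) (r2 := 0)
      (p4 _) (q2 _ (by omega))
  · exact KQ.blocks (b1 := 2) (b2 := 2) (x1 := 3) (x2 := 3) (y := 0) (r1 := 0) (r2 := 0)
      (p3 _ (by omega)) (p3 _ (by omega))
  · exact KQ.blocks (b1 := 4) (b2 := 1) (x1 := 6) (x2 := 1) (y := 0) (r1 := 0) (r2 := 0)
      (KQ.blocks (b1 := 2) (b2 := 2) (x1 := 3) (x2 := 3) (y := 1) (r1 := 0) (r2 := 0)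
        (p3 _ (by omega)) (p3 _ (by omega))) (q1 _ (by omega))
  · exact KQ.blocks (b1 := 4) (b2 := 2) (x1 := 4) (x2 := 3) (y := 0) (r1 := 0) (r2 := 0)
      (KQ.blocks (b1 := 2) (b2 := 2) (x1 := 2) (x2 := 2) (y := 3) (r1 := 0) (r2 := 0)
        (p2 _ (by omega)) (p2 _ (by omega))) (p3 _ (by omega))

/-- three variables -/
theorem three_vars [CharZero K] : KQ K 3 3 4 0 0 := by
  have N2 : NV 2 = 3 := rfl
  exact KQ.blocks (b1 := 2) (b2 := 1) (x1 := 3) (x2 := 1) (y := 0) (r1 := 0) (r2 := 0)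
    ((pencil (K := K) (m := 3) (x := 3) (by omega) (by omega) _).mono (by omega))
    ((one_one (K := K) 2 _).mono (by omega))

end

/-- **The base cases `n = 2`, `n = 3` of degree 2.** -/
theorem KQ_small : ∀ n s h, 2 ≤ n → n ≤ 3 → 3 ≤ s → s < NN n 2 → Crit n s h →
    (∀ h' < h, ¬ Crit n s h') → KQ ℂ (n + 1) s h 0 0 := by
  intro n s h hn hn3 hs hsN hc _
  obtain ⟨h1, h2, h3⟩ := hc
  have N2 : NV 2 = 3 := rfl
  have N3 : NV 3 = 6 := rfl
  have key : ∀ h0, h0 ≤ h → KQ ℂ (n + 1) s h0 0 0 → KQ ℂ (n + 1) s h 0 0 := by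
    intro h0 hh k
    obtain ⟨t, rfl⟩ := Nat.exists_eq_add_of_le hh
    exact k.more_full t
  have hn' : n = 2 ∨ n = 3 := by omega
  rcases hn' with rfl | rfl
  · have e := two_NN 2
    have e1 : NN 2 2 = 6 := by omega
    rw [e1] at hsN h2
    have hs' : s = 3 ∨ s = 4 ∨ s = 5 := by omega
    rcases hs' with rfl | rfl | rfl
    · exact key 4 (by omega) three_vars
    · exact key 4 h1 (ones 2 3 0 (by omega))
    · exact key 5 h1 (ones 2 4 0 (by omega))
  · have e := two_NN 3
    have e1 : NN 3 2 = 10 := by omega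
    rw [e1] at hsN h2
    obtain ⟨f3, f4, f5, f6⟩ := four_vars (K := ℂ)
    have hs' : s = 3 ∨ s = 4 ∨ s = 5 ∨ s = 6 ∨ s = 7 ∨ s = 8 ∨ s = 9 := by omega
    rcases hs' with rfl | rfl | rfl | rfl | rfl | rfl | rfl
    · refine key 6 ?_ f3
      by_contra hcon
      refine h3 ⟨rfl, ⟨1, rfl⟩, ?_⟩
      omega
    · exact key 6 (by omega) f4
    · exact key 7 (by omega) f5
    · exact key 7 (by omega) f6
    · exact key 7 h1 (ones 3 6 0 (by omega))
    · exact key 8 h1 (ones 3 7 0 (by omega))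
    · exact key 9 h1 (ones 3 8 0 (by omega))

end Pool.Agent.WarR
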