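import Pool.Agent.WarR.Lab

/-!
# Small windows of degree 2 (MP_db021c_ag), n = 15 ... 18: explicit assignments of the stars   (helper42)

`sd_n_b_x_y : KQ K (n+1) b x y r`, found by annealing, checked by the kernel through `lab_kq`.
-/

set_option autoImplicit false

namespace Pool.Agent.WarR

variable (K : Type*) [Field K] [CharZero K]

theorem sd_15_11_54_8 : KQ K 16 11 54 8 4 :=
  lab_kq
    [[10, 5, 9, 1, 0], [4, 6, 3, 0, 1], [0, 3, 1, 7, 2], [6, 4, 9, 7, 3], [8, 6, 1, 4], [1, 2, 7, 4, 5], [5, 8, 9, 1, 6], [10, 4, 0, 0, 7], [7, 3, 2, 10, 8], [2, 8, 5, 3, 9], [4, 4, 9, 7, 10]]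
    [[], [(5, 1)], [(9, 1)], [(8, 2)], [(1, 1), (5, 4), (7, 2)], [(9, 3)], [(4, 2)], [(8, 1)], [(9, 2)], [(10, 3)], [(8, 4)]]
    (by decide +kernel)

theorem sd_15_11_56_4 : KQ K 16 11 56 4 0 :=
  lab_kq
    [[5, 7, 2, 1, 0], [3, 3, 4, 2, 1], [10, 7, 7, 4, 2], [2, 8, 0, 4, 3], [8, 5, 10, 5, 4], [6, 3, 7, 0, 5], [1, 4, 9, 7, 6], [0, 6, 8, 5, 7], [2, 1, 5, 0, 8], [10, 6, 1, 3, 0, 9], [4, 0, 8, 8, 10]]
    [[(7, 1), (10, 2)], [(6, 1)], [(8, 1)], [(9, 4)], [(6, 2), (10, 1)], [(0, 1)], [(9, 2)], [(5, 3)], [(4, 1)], [], [(9, 1)]]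
    (by decide +kernel)

theorem sd_15_12_59_3 : KQ K 16 12 59 3 3 :=
  lab_kq
    [[9, 6, 4, 9, 0], [0, 5, 11, 3, 1], [3, 9, 10, 9, 2], [7, 8, 0, 5, 3], [8, 8, 7, 7, 4], [3, 1, 11, 0, 5], [2, 10, 5, 1, 6], [4, 6, 2, 5, 7], [4, 7, 1, 8], [11, 8, 8, 8, 9], [8, 1, 2, 2, 10], [10, 6, 0, 5, 11]]
    [[(11, 3)], [(10, 2)], [], [(5, 1)], [(8, 1)], [(6, 3)], [(11, 2)], [], [(3, 2), (10, 1)], [], [(11, 1)]]
    (by decide +kernel)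

theorem sd_15_13_58_11 : KQ K 16 13 58 11 1 :=
  lab_kq
    [[2, 7, 2, 0], [0, 0, 5, 1], [10, 7, 0, 2], [7, 5, 2, 8, 3], [10, 7, 3, 4], [4, 2, 0, 5], [5, 0, 11, 3, 6], [1, 9, 5, 7], [1, 1, 1, 10, 8], [4, 0, 6, 10, 9], [4, 12, 7, 10], [5, 10, 10, 8, 11], [2, 4, 7, 2, 12]]
    [[(6, 2), (9, 2)], [], [(12, 4)], [], [(10, 1), (12, 2)], [(6, 1), (11, 1)], [], [(3, 1), (10, 3), (12, 3)], [], [], [(4, 1), (9, 4)]]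
    (by decide +kernel)

theorem sd_15_13_59_9 : KQ K 16 13 59 9 0 :=
  lab_kq
    [[9, 2, 12, 9, 0], [11, 5, 6, 4, 1], [10, 4, 1, 2], [7, 1, 11, 3], [8, 11, 3, 9, 4], [7, 8, 11, 6, 5], [2, 3, 2, 2, 6], [9, 9, 9, 7], [7, 9, 12, 8], [0, 3, 11, 9], [2, 8, 3, 7, 10], [3, 3, 7, 11], [8, 11, 7, 8, 12]]
    [[], [], [(10, 1)], [(6, 2), (10, 3)], [], [], [], [(5, 1), (8, 1), (12, 3)], [(5, 2), (10, 2)], [(8, 2)], [], [(4, 2), (5, 3), (12, 2)]]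
    (by decide +kernel)

theorem sd_15_15_67_2 : KQ K 16 15 67 2 0 :=
  lab_kq
    [[7, 12, 8, 0], [10, 11, 13, 8, 1], [0, 5, 8, 3, 2], [8, 1, 11, 3], [13, 7, 13, 14, 4], [3, 11, 8, 5], [0, 8, 7, 0, 6], [3, 3, 2, 7], [10, 7, 11, 8], [0, 10, 4, 11, 9], [11, 9, 8, 10], [5, 13, 8, 11], [3, 5, 6, 14, 12], [10, 11, 7, 13], [5, 13, 7, 2, 14]]
    [[(9, 1)], [], [], [(12, 1)], [], [(12, 2), (14, 1)], [], [(4, 2), (8, 2), (14, 3)], [(2, 3), (3, 1), (6, 2), (11, 3)], [], [(9, 2), (13, 1)], [(1, 2), (10, 1), (13, 2)], [], [(14, 2)]]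
    (by decide +kernel)

theorem sd_15_15_68_0 : KQ K 16 15 68 0 0 :=
  lab_kq
    [[9, 10, 1, 5, 0], [12, 0, 11, 1], [9, 7, 0, 2], [5, 4, 1, 8, 3], [10, 9, 1, 14, 4], [1, 3, 2, 5], [2, 13, 9, 6], [5, 12, 10, 13, 7], [10, 6, 6, 3, 8], [12, 12, 11, 9], [1, 1, 11, 10], [5, 9, 14, 10, 11], [2, 2, 7, 12], [6, 12, 8, 5, 13], [6, 2, 2, 6, 14]]
    [[], [(4, 3), (5, 1)], [(6, 1)], [], [], [(7, 1), (11, 1)], [(14, 1)], [], [], [(0, 1), (11, 2)], [(4, 1), (8, 1)], [], [(7, 2), (13, 2)]]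
    (by decide +kernel)

theorem sd_16_12_61_11 : KQ K 17 12 61 11 0 :=
  lab_kq
    [[5, 11, 11, 3, 0], [3, 3, 9, 11, 1], [0, 10, 1, 2, 2], [4, 8, 4, 0, 3], [0, 2, 11, 11, 4], [1, 2, 7, 8, 5], [3, 10, 5, 1, 9, 6], [4, 2, 9, 10, 7], [5, 7, 9, 0, 8], [8, 7, 10, 0, 9], [9, 1, 11, 4, 10], [7, 8, 2, 10, 11]]
    [[(4, 1)], [(10, 2)], [(7, 2)], [(6, 1)], [], [(8, 1)], [], [(11, 1)], [(11, 2)], [(10, 1)], [(6, 2)]]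
    (by decide +kernel)

theorem sd_16_13_64_10 : KQ K 17 13 64 10 3 :=
  lab_kq
    [[11, 8, 12, 5, 0], [9, 7, 3, 10, 1], [10, 3, 8, 10, 2], [2, 1, 7, 3], [5, 11, 5, 7, 4], [4, 12, 6, 0, 5], [9, 10, 1, 0, 6], [2, 6, 5, 9, 7], [3, 0, 11, 3, 8], [1, 3, 8, 4, 9], [4, 12, 7, 12, 10], [6, 3, 8, 2, 11], [0, 3, 3, 2, 12]]
    [[(12, 1)], [], [(12, 4)], [(2, 2), (8, 1), (9, 2), (11, 2)], [], [], [], [], [(11, 3)]]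
    (by decide +kernel)

theorem sd_16_13_66_6 : KQ K 17 13 66 6 0 :=
  lab_kq
    [[3, 1, 5, 7, 0], [4, 6, 8, 10, 1], [6, 5, 6, 1, 2], [4, 5, 1, 0, 3], [8, 5, 1, 6, 4], [9, 7, 10, 6, 5], [9, 7, 0, 6, 6], [10, 1, 0, 4, 7], [2, 12, 9, 9, 8], [12, 8, 12, 0, 9], [2, 3, 4, 2, 10], [0, 10, 2, 12, 1, 11], [3, 7, 8, 7, 12]]
    [[(11, 1)], [(0, 2), (7, 2)], [(11, 3)], [(12, 1)], [(3, 1)], [(4, 2)], [(5, 4)], [(6, 2)], [(9, 2)], [(6, 1)], [(11, 2)]]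
    (by decide +kernel)

theorem sd_16_14_69_5 : KQ K 17 14 69 5 2 :=
  lab_kq
    [[7, 6, 12, 8, 0], [9, 3, 3, 7, 1], [6, 1, 9, 11, 2], [8, 4, 11, 8, 3], [1, 7, 12, 3, 4], [7, 13, 1, 9, 5], [10, 11, 10, 5, 6], [13, 13, 3, 7], [0, 0, 0, 9, 8], [7, 10, 4, 7, 9], [4, 8, 2, 9, 10], [2, 12, 3, 13, 11], [5, 11, 7, 7, 12], [5, 2, 6, 12, 13]]
    [[], [], [], [], [], [], [], [(0, 1), (4, 2), (5, 1)], [], [(2, 3)], [], [(12, 2)]]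
    (by decide +kernel)

theorem sd_16_14_71_1 : KQ K 17 14 71 1 0 :=
  lab_kq
    [[12, 6, 11, 12, 0], [3, 13, 2, 6, 1], [11, 7, 4, 1, 2], [4, 4, 4, 8, 3], [2, 7, 12, 2, 4], [1, 13, 13, 3, 5], [0, 13, 5, 4, 6], [0, 6, 8, 3, 7], [10, 3, 2, 5, 8], [10, 8, 8, 1, 1, 9], [6, 1, 0, 5, 10], [5, 5, 10, 0, 11], [11, 7, 2, 8, 12], [12, 7, 3, 11, 13]]
    [[(7, 1)], [(10, 2)], [(12, 3)], [(1, 1)], [], [], [(10, 1)], [(12, 2), (13, 2)], [], [], [(11, 3)], [(12, 1)], [(13, 1)]]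
    (by decide +kernel)

theorem sd_16_15_74_0 : KQ K 17 15 74 0 1 :=
  lab_kq
    [[8, 7, 7, 10, 0], [2, 4, 8, 4, 1], [14, 0, 6, 1, 2], [1, 4, 11, 0, 3], [0, 5, 8, 4], [14, 9, 1, 0, 5], [5, 4, 1, 14, 6], [4, 12, 3, 6, 7], [10, 9, 9, 13, 8], [11, 3, 8, 3, 9], [13, 3, 4, 6, 10], [10, 12, 2, 0, 11], [7, 4, 2, 9, 12], [6, 5, 11, 11, 13], [13, 12, 4, 6, 14]]
    [[(4, 1)], [(6, 3)], [], [], [(6, 2), (7, 1), (10, 3), (12, 2), (14, 3)], [], [(13, 1)], [], [(9, 3)]]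
    (by decide +kernel)

theorem sd_16_16_71_11 : KQ K 17 16 71 11 0 :=
  lab_kq
    [[15, 9, 14, 11, 0], [3, 8, 15, 14, 1], [15, 9, 5, 14, 2], [13, 9, 1, 3], [7, 14, 13, 0, 4], [13, 10, 6, 5], [10, 9, 8, 5, 6], [5, 8, 8, 7], [3, 15, 13, 8], [8, 8, 2, 9], [7, 9, 13, 10], [10, 13, 5, 7, 11], [14, 7, 7, 5, 12], [10, 5, 12, 13], [3, 5, 15, 14], [3, 14, 4, 15]]
    [[], [], [], [(1, 1)], [], [(7, 1), (13, 2), (14, 2)], [], [(10, 1)], [(6, 3)], [(6, 2), (10, 2)], [(11, 1)], [], [], [(5, 1), (11, 2)], [(12, 1), (15, 2)], [(2, 1), (14, 3)]]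
    (by decide +kernel)

theorem sd_16_16_73_7 : KQ K 17 16 73 7 0 :=
  lab_kq
    [[10, 8, 3, 0], [0, 8, 0, 10, 1], [10, 3, 0, 4, 2], [15, 0, 13, 3], [5, 15, 2, 0, 4], [11, 1, 2, 5], [0, 14, 15, 4, 6], [12, 6, 12, 10, 7], [5, 12, 3, 8], [12, 3, 5, 15, 9], [3, 15, 8, 10], [15, 3, 13, 7, 11], [9, 7, 4, 12], [5, 10, 5, 1, 13], [8, 12, 8, 8, 14], [10, 8, 3, 15]]
    [[(4, 4), (6, 1)], [], [], [(9, 2), (10, 1), (11, 2)], [], [(4, 1)], [], [], [(1, 2), (15, 2)], [], [(2, 1), (13, 2), (15, 1)], [], [(9, 1)], [], [], [(6, 3), (10, 2), (11, 1)]]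
    (by decide +kernel)

theorem sd_16_16_75_3 : KQ K 17 16 75 3 0 :=
  lab_kq
    [[2, 2, 3, 9, 0], [9, 2, 7, 12, 1], [6, 0, 5, 2], [14, 13, 11, 4, 3], [10, 7, 1, 14, 4], [14, 0, 10, 5], [14, 2, 13, 2, 6], [1, 15, 0, 7], [5, 7, 2, 7, 8], [7, 11, 12, 15, 9], [7, 14, 14, 3, 10], [5, 12, 3, 15, 11], [5, 6, 8, 12], [12, 5, 4, 8, 13], [12, 4, 15, 14], [12, 8, 5, 2, 15]]
    [[], [], [(1, 2), (8, 3)], [], [], [(11, 1), (12, 1), (13, 2)], [], [(9, 1), (10, 1)], [], [], [], [], [(13, 1), (14, 1), (15, 1)], [], [(5, 1), (6, 1)]]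
    (by decide +kernel)

theorem sd_17_15_76_9 : KQ K 18 15 76 9 0 :=
  lab_kq
    [[9, 11, 2, 9, 0], [10, 10, 6, 9, 1], [0, 0, 1, 6, 2], [14, 13, 10, 1, 3], [13, 14, 13, 9, 4], [7, 14, 10, 3, 5], [11, 5, 4, 3, 6], [4, 6, 4, 6, 7], [3, 9, 7, 12, 14, 8], [6, 4, 12, 13, 9], [5, 2, 0, 5, 10], [3, 1, 1, 12, 11], [11, 1, 0, 2, 12], [12, 5, 12, 13, 13], [7, 2, 2, 13, 14]]
    [[], [], [], [(11, 1)], [], [], [(9, 1)], [(14, 1)], [], [(8, 2)], [], [(12, 1)], [], [], [(5, 2)]]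
    (by decide +kernel)

theorem sd_17_16_79_8 : KQ K 18 16 79 8 1 :=
  lab_kq
    [[12, 14, 11, 12, 0], [13, 15, 0, 14, 1], [0, 5, 3, 4, 2], [7, 13, 10, 13, 3], [12, 9, 7, 9, 4], [2, 7, 2, 0, 5], [3, 1, 3, 12, 6], [9, 8, 11, 3, 7], [10, 6, 6, 5, 8], [12, 14, 8, 11, 9], [12, 5, 4, 2, 10], [12, 6, 0, 9, 11], [4, 2, 13, 12], [8, 15, 14, 1, 13], [1, 15, 4, 4, 14], [11, 10, 5, 1, 15]]
    [[], [], [], [], [], [], [], [], [], [], [], [], [(6, 4), (9, 1), (10, 1), (11, 1)]]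
    (by decide +kernel)

theorem sd_17_16_81_4 : KQ K 18 16 81 4 0 :=
  lab_kq
    [[9, 3, 12, 11, 2, 0], [4, 2, 6, 13, 1], [6, 8, 13, 4, 2], [7, 5, 11, 7, 3], [3, 14, 10, 8, 4], [8, 8, 10, 1, 5], [11, 13, 9, 2, 6], [15, 9, 15, 9, 7], [10, 1, 10, 10, 8], [14, 2, 15, 12, 9], [12, 4, 12, 13, 10], [13, 2, 1, 1, 11], [1, 5, 7, 15, 12], [14, 5, 15, 4, 13], [7, 11, 4, 12, 14], [6, 3, 5, 6, 15]]
    [[], [(12, 1)], [(11, 2)], [(15, 2)], [(10, 2)], [(15, 3)], [], [], [], [], [], [(14, 2)], [], [(11, 1)], [(13, 1)]]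
    (by decide +kernel)

theorem sd_17_17_79_13 : KQ K 18 17 79 13 0 :=
  lab_kq
    [[3, 3, 13, 13, 0], [9, 9, 0, 15, 1], [7, 10, 7, 1, 2], [7, 5, 9, 3], [6, 13, 3, 2, 4], [6, 10, 10, 14, 5], [13, 10, 0, 6], [13, 9, 11, 7], [7, 10, 11, 4, 8], [14, 10, 3, 9], [2, 5, 7, 10], [9, 15, 13, 12, 11], [6, 13, 6, 7, 12], [9, 7, 12, 13], [8, 3, 10, 4, 14], [16, 1, 12, 11, 15], [3, 6, 4, 0, 16]]
    [[], [], [], [(14, 2), (16, 1)], [], [], [(5, 1), (16, 2)], [(3, 1), (8, 1)], [], [(11, 1), (13, 1)], [(8, 2), (9, 2), (14, 3)], [], [], [(7, 1), (11, 3), (12, 2)]]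
    (by decide +kernel)

theorem sd_17_17_80_11 : KQ K 18 17 80 11 0 :=
  lab_kq
    [[4, 16, 10, 0], [9, 0, 6, 9, 1], [16, 8, 16, 15, 2], [9, 16, 0, 0, 3], [0, 9, 13, 4], [4, 14, 1, 16, 5], [4, 8, 10, 8, 6], [11, 0, 5, 1, 7], [4, 14, 7, 8], [2, 12, 8, 9], [8, 7, 16, 16, 10], [8, 5, 4, 3, 11], [0, 6, 2, 8, 12], [9, 9, 1, 8, 13], [15, 12, 4, 13, 14], [3, 16, 10, 11, 15], [13, 0, 7, 16]]
    [[(7, 2), (12, 1), (16, 2)], [], [], [], [(5, 1), (6, 1), (14, 3)], [], [], [], [(2, 2), (10, 1), (11, 1)], [(3, 1)], [], [], [], [], [], [], [(3, 2), (5, 4), (15, 2)]]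
    (by decide +kernel)

theorem sd_17_17_81_9 : KQ K 18 17 81 9 0 :=
  lab_kq
    [[8, 16, 12, 1, 0], [9, 10, 13, 0, 1], [9, 5, 3, 10, 2], [8, 5, 0, 4, 3], [9, 5, 5, 9, 4], [10, 12, 2, 5], [9, 7, 12, 16, 6], [14, 5, 8, 1, 7], [0, 11, 4, 8], [6, 10, 13, 9], [11, 14, 15, 10], [1, 13, 9, 7, 11], [4, 10, 6, 2, 12], [2, 8, 7, 11, 13], [8, 10, 8, 3, 14], [10, 3, 16, 6, 15], [5, 15, 15, 5, 16]]
    [[], [], [], [], [], [(3, 2), (7, 2), (16, 1)], [], [], [(0, 1), (3, 1)], [(2, 1), (6, 1), (11, 3)], [(9, 2), (12, 2), (14, 2), (15, 1)]]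
    (by decide +kernel)

theorem sd_17_17_82_7 : KQ K 18 17 82 7 0 :=
  lab_kq
    [[16, 16, 3, 0], [10, 16, 14, 0, 1], [16, 13, 10, 13, 2], [0, 9, 12, 12, 3], [0, 16, 2, 14, 4], [3, 9, 4, 2, 5], [11, 5, 13, 12, 6], [0, 9, 6, 0, 7], [7, 12, 16, 10, 8], [0, 4, 13, 9], [2, 9, 4, 4, 10], [9, 15, 7, 0, 11], [14, 15, 1, 1, 12], [1, 5, 6, 15, 13], [9, 16, 0, 5, 14], [8, 6, 3, 7, 15], [11, 8, 8, 16]]
    [[(3, 1), (4, 1), (9, 1), (14, 3)], [], [], [], [], [], [], [], [], [(7, 2), (10, 2), (11, 1), (14, 1)], [], [], [], [], [], [], [(2, 1), (4, 2), (14, 2)]]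
    (by decide +kernel)

theorem sd_17_17_83_5 : KQ K 18 17 83 5 0 :=
  lab_kq
    [[10, 12, 1, 4, 0], [15, 9, 7, 6, 1], [15, 0, 5, 4, 2], [9, 15, 6, 2, 3], [15, 5, 10, 4], [11, 4, 16, 3, 5], [14, 4, 4, 7, 6], [2, 4, 15, 5, 7], [14, 0, 7, 11, 8], [13, 11, 12, 6, 9], [16, 15, 8, 16, 10], [3, 6, 12, 16, 11], [13, 10, 8, 5, 12], [1, 7, 5, 9, 13], [4, 2, 15, 4, 14], [4, 1, 6, 15], [8, 3, 0, 12, 16]]
    [[], [], [], [], [(5, 2), (7, 2), (14, 1), (15, 1)], [], [], [], [], [], [], [], [], [], [], [(1, 1), (2, 1), (4, 1), (10, 2)]]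
    (by decide +kernel)

theorem sd_17_17_84_3 : KQ K 18 17 84 3 0 :=
  lab_kq
    [[6, 12, 6, 3, 0], [15, 16, 9, 9, 1], [11, 4, 7, 10, 2], [14, 13, 5, 0, 3], [16, 7, 16, 1, 4], [12, 8, 7, 8, 5], [4, 2, 12, 14, 6], [14, 13, 2, 15, 7], [10, 16, 11, 2, 8], [0, 0, 13, 13, 9], [3, 9, 9, 4, 10], [3, 2, 1, 0, 11], [5, 6, 1, 8, 12], [16, 5, 10, 1, 13], [15, 11, 10, 8, 14], [16, 8, 16, 4, 15], [1, 7, 9, 16]]
    [[], [(16, 1)], [], [], [], [], [], [], [], [], [], [], [], [], [], [], [(1, 2), (8, 2), (13, 1)]]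
    (by decide +kernel)

theorem sd_18_18_89_12 : KQ K 19 18 89 12 0 :=
  lab_kq
    [[3, 6, 4, 3, 0], [17, 5, 15, 15, 1], [8, 5, 17, 13, 2], [2, 13, 14, 11, 3], [9, 7, 10, 10, 4], [15, 12, 0, 5], [1, 14, 5, 8, 6], [11, 10, 17, 16, 7], [12, 4, 9, 16, 8], [5, 7, 10, 10, 9], [0, 9, 2, 1, 10], [16, 5, 4, 12, 11], [0, 15, 6, 1, 12], [5, 7, 12, 17, 13], [6, 1, 3, 4, 14], [8, 5, 11, 5, 15], [14, 2, 11, 4, 16], [13, 16, 3, 13, 17]]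
    [[], [], [], [], [], [(2, 2), (9, 1), (11, 2), (13, 1)]]
    (by decide +kernel)

theorem sd_18_18_95_0 : KQ K 19 18 95 0 0 :=
  lab_kq
    [[8, 5, 13, 12, 0], [3, 0, 13, 0, 1], [0, 14, 3, 3, 2], [8, 5, 5, 14, 3], [6, 15, 8, 3, 12, 4], [2, 2, 0, 13, 5], [1, 2, 16, 3, 6], [11, 6, 0, 3, 7], [16, 5, 17, 7, 8], [13, 11, 1, 4, 0, 9], [6, 14, 11, 13, 5, 10], [15, 8, 13, 16, 11], [2, 1, 14, 9, 1, 12], [16, 5, 10, 3, 13], [15, 3, 7, 16, 14], [11, 16, 6, 7, 15], [14, 1, 7, 8, 16], [7, 7, 15, 0, 13, 17]]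
    [[(2, 1), (17, 4)], [(6, 1)], [(12, 1)], [(1, 1), (14, 2)], [], [(10, 5), (13, 2)], [(10, 1)], [(16, 3)], [(4, 3), (11, 2)], [], [], [(10, 3), (15, 1)], [], [(9, 1), (11, 3), (17, 5)], [(12, 3), (16, 1)], [(14, 1), (17, 3)], [(13, 1), (15, 2)]]
    (by decide +kernel)

theorem sd_18_19_94_7 : KQ K 19 19 94 7 0 :=
  lab_kq
    [[2, 11, 12, 9, 0], [18, 17, 14, 0, 1], [0, 5, 8, 17, 2], [6, 9, 10, 9, 3], [11, 7, 5, 10, 4], [7, 12, 6, 15, 5], [8, 9, 7, 13, 6], [15, 17, 2, 16, 7], [3, 12, 14, 11, 8], [10, 4, 16, 9], [4, 18, 18, 4, 10], [16, 16, 1, 9, 11], [9, 13, 4, 9, 12], [0, 2, 5, 12, 13], [9, 13, 5, 9, 14], [3, 8, 14, 3, 15], [1, 10, 13, 11, 16], [15, 6, 14, 10, 17], [9, 1, 17, 14, 18]]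
    [[], [], [], [], [], [], [], [], [], [(6, 2), (12, 1), (14, 4), (18, 1)], [(17, 4)]]
    (by decide +kernel)

end Pool.Agent.WarR
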