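import Pool.Agent.WarR.Lab

/-!
# Small windows of degree 2 (MP_db021c_ag), n = 19 ... 22: explicit assignments of the stars   (helper42)

`sd_n_b_x_y : KQ K (n+1) b x y r`, found by annealing, checked by the kernel through `lab_kq`.
-/

set_option autoImplicit false

namespace Pool.Agent.WarR

variable (K : Type*) [Field K] [CharZero K]

theorem sd_19_15_89_8 : KQ K 20 15 89 8 4 :=
  lab_kq
    [[11, 8, 6, 12, 11, 0], [4, 0, 10, 3, 0, 1], [13, 5, 13, 14, 11, 2], [5, 2, 7, 6, 13, 3], [3, 7, 1, 3, 10, 4], [2, 7, 12, 9, 7, 5], [10, 13, 13, 0, 13, 6], [12, 9, 0, 14, 0, 7], [13, 5, 14, 9, 1, 8], [1, 12, 8, 8, 2, 9], [1, 4, 13, 11, 7, 10], [10, 14, 0, 8, 3, 11], [11, 3, 14, 13, 5, 12], [6, 2, 4, 8, 13], [6, 9, 4, 8, 2, 14]]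
    [[(11, 3)], [(10, 1)], [(5, 1)], [(12, 2)], [(10, 2)], [(8, 2)], [(14, 1)], [(5, 2)], [(0, 2)], [(14, 2)], [(11, 1)], [(12, 1)], [(9, 2)], [(3, 5), (8, 1), (10, 3), (12, 4)], [(11, 2), (12, 3)]]
    (by decide +kernel)

theorem sd_19_16_95_2 : KQ K 20 16 95 2 3 :=
  lab_kq
    [[4, 9, 3, 10, 7, 0], [9, 0, 8, 12, 7, 1], [15, 1, 10, 1, 15, 2], [1, 12, 13, 15, 10, 3], [6, 8, 12, 2, 12, 4], [14, 11, 11, 3, 13, 5], [14, 10, 3, 3, 6], [3, 4, 0, 13, 3, 7], [6, 11, 4, 0, 11, 8], [5, 7, 13, 11, 8, 9], [0, 2, 15, 5, 13, 10], [2, 5, 8, 5, 4, 11], [7, 13, 9, 9, 4, 12], [6, 12, 1, 6, 7, 13], [6, 10, 15, 2, 6, 14], [14, 6, 8, 7, 10, 15]]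
    [[(10, 1)], [(13, 3)], [(11, 1)], [(7, 1)], [(0, 1)], [], [(4, 1), (8, 1), (15, 2)], [(12, 1), (15, 4)], [(11, 3), (15, 3)], [(1, 1)], [(6, 2), (14, 2)], [], [(13, 2)], [(9, 3), (12, 2)], [(15, 1)], [(14, 3)]]
    (by decide +kernel)

theorem sd_19_17_93_13 : KQ K 20 17 93 13 1 :=
  lab_kq
    [[1, 15, 6, 3, 0], [11, 15, 9, 12, 1], [1, 1, 15, 7, 5, 2], [13, 11, 16, 14, 3], [8, 16, 0, 6, 1, 4], [2, 4, 9, 10, 15, 5], [8, 3, 8, 15, 6], [16, 8, 9, 0, 9, 7], [6, 10, 6, 12, 8], [1, 12, 3, 1, 9], [15, 3, 16, 11, 4, 10], [14, 3, 16, 6, 11], [11, 0, 8, 16, 13, 12], [3, 5, 9, 0, 16, 13], [0, 9, 0, 6, 8, 14], [6, 7, 6, 3, 15], [11, 9, 15, 11, 16]]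
    [[(12, 2), (13, 4)], [(0, 1)], [], [(10, 2), (11, 2), (13, 1)], [], [], [(0, 3), (4, 4), (14, 4)], [], [(7, 2), (12, 3)], [(13, 3), (14, 2), (16, 2)], [], [(3, 2), (12, 1)], [], [], [], [(2, 3), (10, 1), (16, 3)], [(4, 2), (7, 1), (12, 4)]]
    (by decide +kernel)

theorem sd_19_17_94_11 : KQ K 20 17 94 11 0 :=
  lab_kq
    [[10, 8, 14, 10, 0], [12, 8, 3, 9, 1], [15, 16, 16, 3, 16, 2], [6, 10, 12, 14, 3], [12, 13, 16, 2, 4], [1, 2, 4, 7, 4, 5], [12, 16, 9, 12, 5, 6], [4, 0, 5, 6, 1, 7], [3, 13, 0, 14, 9, 8], [1, 16, 1, 14, 9], [9, 16, 4, 5, 10], [10, 0, 12, 10, 15, 11], [7, 9, 0, 11, 12], [3, 1, 1, 11, 1, 13], [4, 9, 3, 4, 3, 14], [10, 9, 11, 4, 5, 15], [0, 0, 3, 2, 16]]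
    [[(8, 3), (11, 2)], [(5, 1)], [], [(8, 1), (13, 1)], [(7, 1), (15, 4)], [], [], [], [], [(10, 1), (14, 2), (15, 2)], [(11, 1), (15, 1)], [], [(1, 1), (4, 1)], [], [], [], [(9, 2), (10, 2)]]
    (by decide +kernel)

theorem sd_19_19_99_12 : KQ K 20 19 99 12 0 :=
  lab_kq
    [[1, 10, 10, 3, 11, 0], [13, 7, 18, 6, 1], [3, 7, 1, 5, 2], [8, 2, 7, 8, 3], [2, 2, 17, 18, 4], [17, 4, 2, 4, 5], [11, 14, 5, 4, 6], [13, 6, 5, 5, 7], [6, 18, 1, 13, 8], [7, 1, 7, 6, 9], [13, 14, 2, 8, 10], [9, 18, 5, 5, 11], [10, 8, 9, 10, 14, 12], [4, 9, 6, 14, 13], [11, 11, 9, 3, 14], [4, 18, 17, 6, 5, 15], [17, 3, 3, 11, 18, 16], [5, 14, 1, 13, 17], [8, 14, 9, 6, 18]]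
    [[], [(0, 1)], [], [], [(15, 1)], [(17, 1)], [(8, 1), (15, 4)], [(9, 1)], [(18, 1)], [(11, 1)], [], [], [], [(10, 1)], [(17, 2), (18, 2)], [], [], [(16, 1)], [(15, 2), (16, 5)]]
    (by decide +kernel)

theorem sd_19_19_100_10 : KQ K 20 19 100 10 0 :=
  lab_kq
    [[9, 17, 9, 11, 0], [16, 15, 18, 5, 1], [11, 12, 6, 15, 12, 2], [10, 1, 11, 16, 3], [6, 3, 16, 1, 14, 4], [16, 10, 18, 15, 2, 5], [8, 8, 9, 8, 6], [18, 15, 0, 10, 7], [7, 0, 3, 6, 8], [15, 17, 3, 8, 9], [0, 12, 16, 4, 10], [1, 7, 17, 15, 11], [11, 9, 11, 0, 12], [12, 18, 3, 6, 7, 13], [7, 17, 1, 0, 13, 14], [10, 17, 12, 8, 15], [3, 8, 7, 8, 16], [6, 0, 18, 8, 17], [9, 1, 10, 11, 18]]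
    [[(10, 1), (17, 2)], [(14, 3), (18, 2)], [], [(13, 3), (16, 1)], [], [], [(4, 1)], [(14, 1)], [], [(18, 1)], [(15, 1), (18, 3)], [(2, 1)], [(13, 1)], [], [], [(7, 2), (9, 1)], [(5, 1)], [(14, 2), (15, 2)], [(13, 2), (17, 3)]]
    (by decide +kernel)

theorem sd_19_19_101_8 : KQ K 20 19 101 8 0 :=
  lab_kq
    [[3, 12, 17, 10, 17, 0], [16, 13, 13, 4, 1], [1, 14, 15, 10, 5, 2], [18, 8, 7, 14, 3], [8, 12, 7, 6, 17, 4], [18, 14, 13, 15, 17, 5], [15, 17, 7, 18, 13, 6], [1, 11, 3, 14, 7], [16, 3, 12, 15, 8], [16, 7, 13, 10, 4, 9], [13, 18, 15, 3, 10], [10, 15, 3, 3, 11], [8, 14, 2, 0, 12], [17, 11, 12, 8, 13], [10, 8, 18, 5, 14], [11, 1, 9, 11, 15], [1, 14, 17, 0, 16], [11, 12, 10, 11, 17], [7, 16, 3, 12, 18]]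
    [[], [(2, 1)], [], [(0, 1), (18, 3)], [], [], [], [(9, 2), (18, 1)], [(12, 1), (14, 2)], [], [(11, 1), (14, 1)], [(13, 2)], [(4, 2), (17, 2)], [(10, 1)], [(5, 2), (16, 2)], [(6, 1), (11, 2)], [(9, 1)], [(13, 1), (16, 3)], [(5, 1), (14, 3)]]
    (by decide +kernel)

theorem sd_19_19_102_6 : KQ K 20 19 102 6 0 :=
  lab_kq
    [[18, 2, 4, 10, 17, 0], [7, 15, 16, 17, 17, 1], [16, 17, 7, 4, 2], [5, 4, 16, 8, 10, 3], [18, 2, 16, 1, 4], [9, 0, 7, 15, 5], [18, 16, 7, 3, 6], [18, 9, 3, 6, 7], [9, 6, 9, 13, 13, 8], [5, 14, 4, 1, 9], [15, 11, 4, 17, 11, 10], [2, 15, 16, 8, 11], [17, 5, 6, 13, 7, 12], [11, 7, 5, 6, 13], [13, 2, 13, 5, 7, 14], [11, 4, 9, 1, 15], [6, 12, 2, 4, 16], [13, 11, 6, 11, 17], [15, 17, 6, 7, 18]]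
    [[], [], [(11, 1), (14, 2)], [], [(3, 2), (10, 3), (15, 2)], [(9, 1), (12, 2)], [(12, 3), (16, 1), (18, 3)], [(1, 1), (6, 3), (13, 2)], [], [(7, 2)], [], [(15, 1)], [], [(17, 1)], [], [(11, 2), (18, 1)], [(3, 3), (6, 2), (11, 3)], [(12, 1), (18, 2)], [(6, 1), (7, 1)]]
    (by decide +kernel)

theorem sd_19_19_103_4 : KQ K 20 19 103 4 0 :=
  lab_kq
    [[17, 2, 8, 2, 12, 0], [18, 0, 12, 17, 14, 1], [7, 6, 16, 6, 2], [9, 18, 11, 15, 9, 3], [5, 14, 18, 18, 4], [15, 6, 16, 8, 5], [7, 15, 5, 8, 6], [4, 4, 1, 2, 7], [6, 2, 1, 15, 8], [18, 15, 15, 8, 9], [17, 13, 15, 2, 5, 10], [4, 7, 8, 3, 2, 11], [9, 5, 9, 6, 5, 12], [2, 4, 10, 6, 4, 13], [8, 16, 6, 5, 17, 14], [16, 7, 18, 4, 15], [5, 17, 3, 8, 16], [9, 8, 16, 10, 17], [16, 7, 17, 11, 18]]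
    [[], [], [(10, 4), (13, 1)], [], [(11, 1)], [(4, 1), (16, 1)], [(8, 1), (13, 4), (14, 3)], [(6, 1), (11, 2)], [(11, 3), (14, 1), (17, 2)], [(17, 1)], [], [], [], [], [], [(5, 1), (10, 3)], [(15, 1), (17, 3), (18, 1)], [(0, 1), (10, 1)], [(3, 2), (9, 1)]]
    (by decide +kernel)

theorem sd_19_19_104_2 : KQ K 20 19 104 2 0 :=
  lab_kq
    [[5, 6, 4, 5, 7, 0], [18, 7, 16, 12, 16, 1], [8, 18, 16, 10, 2], [12, 4, 7, 8, 16, 3], [0, 1, 15, 13, 4], [11, 16, 4, 17, 5], [2, 4, 5, 2, 6], [16, 10, 6, 10, 7], [13, 15, 18, 7, 8], [11, 7, 2, 5, 18, 9], [9, 18, 12, 5, 2, 10], [6, 17, 5, 16, 11], [7, 11, 5, 14, 12], [12, 2, 16, 3, 11, 13], [4, 8, 18, 4, 16, 14], [11, 14, 3, 5, 0, 15], [8, 8, 1, 11, 16], [6, 12, 2, 8, 18, 17], [6, 2, 7, 17, 18]]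
    [[], [], [(13, 2), (17, 3), (18, 2)], [], [(3, 2), (6, 2)], [(9, 4), (10, 4), (11, 3), (12, 3), (15, 4)], [(17, 1), (18, 1)], [(3, 3), (9, 2), (12, 1)], [(14, 2), (17, 4)], [], [], [(9, 1), (15, 1)], [(13, 1), (17, 2)], [], [], [], [(5, 2), (7, 1), (13, 3), (14, 5)], [], [(1, 1), (10, 2), (14, 3)]]
    (by decide +kernel)

theorem sd_19_19_105_0 : KQ K 20 19 105 0 0 :=
  lab_kq
    [[6, 5, 2, 2, 0], [3, 12, 14, 6, 1], [17, 14, 11, 15, 16, 2], [7, 9, 0, 15, 3], [8, 9, 1, 13, 17, 4], [6, 3, 0, 16, 14, 5], [1, 0, 11, 18, 6], [12, 12, 16, 10, 4, 7], [6, 12, 2, 11, 4, 8], [11, 11, 3, 14, 9], [16, 1, 14, 16, 9, 10], [16, 3, 14, 14, 11], [4, 15, 7, 18, 12], [11, 0, 0, 10, 11, 13], [1, 9, 3, 5, 14], [14, 13, 12, 5, 14, 15], [9, 0, 0, 9, 16], [1, 18, 16, 10, 12, 17], [6, 9, 3, 3, 8, 18]]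
    [[(5, 3), (6, 2)], [(10, 2), (14, 1), (17, 1)], [], [(5, 2), (11, 2), (14, 3)], [], [], [(8, 1), (18, 1)], [], [], [(4, 2), (16, 1), (18, 2)], [], [(2, 3), (13, 1)], [(8, 2), (15, 3)], [], [(2, 2), (10, 3), (15, 1)], [], [(10, 1), (11, 1), (17, 3)]]
    (by decide +kernel)

theorem sd_20_16_97_13 : KQ K 21 16 97 13 0 :=
  lab_kq
    [[9, 9, 11, 6, 7, 0], [4, 9, 4, 11, 4, 1], [11, 7, 6, 6, 7, 2], [12, 13, 2, 2, 2, 3], [15, 5, 14, 15, 12, 4], [3, 7, 2, 14, 3, 5], [12, 10, 13, 9, 11, 6], [14, 1, 8, 13, 5, 7], [7, 10, 14, 6, 15, 10, 8], [3, 13, 0, 15, 11, 9], [11, 15, 12, 0, 0, 10], [0, 4, 4, 14, 0, 11], [3, 5, 13, 2, 9, 12], [2, 6, 5, 0, 15, 13], [10, 5, 6, 12, 11, 14], [1, 1, 1, 0, 10, 15]]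
    [[(13, 4), (15, 4)], [], [(13, 1)], [(12, 1)], [], [(13, 3), (14, 2)], [(13, 2), (14, 3)], [(8, 1)], [], [(12, 5)], [(14, 1)], [(2, 1), (10, 1)], [(6, 1), (14, 4)], [(9, 2), (12, 3)], [(8, 3), (11, 4)], [(10, 2)]]
    (by decide +kernel)

theorem sd_20_17_101_11 : KQ K 21 17 101 11 3 :=
  lab_kq
    [[11, 2, 8, 12, 7, 0], [5, 16, 2, 2, 7, 1], [6, 0, 7, 3, 3, 2], [5, 16, 0, 0, 9, 3], [10, 9, 2, 14, 13, 4], [12, 10, 11, 13, 1, 5], [12, 4, 3, 15, 6], [1, 5, 12, 8, 11, 7], [15, 1, 7, 15, 6, 8], [7, 10, 14, 14, 10, 9], [6, 8, 6, 2, 11, 10], [6, 15, 3, 6, 15, 11], [9, 11, 14, 9, 3, 12], [16, 1, 6, 9, 4, 13], [8, 4, 3, 0, 13, 14], [6, 13, 4, 3, 13, 15], [13, 14, 4, 0, 15, 16]]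
    [[], [(13, 2)], [(10, 4)], [(14, 3), (15, 4)], [(14, 2)], [(7, 2)], [(2, 1), (11, 1), (13, 3), (15, 1)], [(9, 1)], [(14, 1)], [(13, 4)], [(9, 2)], [(12, 2)], [(7, 3)], [(16, 1)], [(16, 2)], [], [(13, 1)]]
    (by decide +kernel)

theorem sd_20_17_103_7 : KQ K 21 17 103 7 0 :=
  lab_kq
    [[15, 15, 14, 6, 0, 0], [11, 8, 0, 7, 7, 1], [14, 1, 10, 4, 6, 2], [13, 10, 16, 5, 9, 10, 3], [9, 1, 1, 7, 1, 4], [11, 15, 2, 2, 14, 5], [12, 0, 8, 16, 1, 6], [16, 2, 15, 14, 0, 7], [4, 5, 10, 13, 12, 8], [6, 6, 14, 0, 3, 9], [12, 5, 0, 8, 7, 10], [2, 0, 9, 7, 3, 11], [16, 4, 1, 14, 5, 12], [12, 8, 8, 7, 9, 13], [4, 13, 11, 5, 7, 14], [9, 6, 7, 7, 2, 15], [13, 10, 11, 5, 2, 16]]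
    [[(6, 2), (11, 2)], [(12, 3)], [(11, 1)], [], [(14, 1)], [(8, 2), (10, 2)], [(15, 2)], [(11, 4), (13, 4), (14, 5)], [(10, 4)], [(13, 5), (15, 1)], [(16, 2)], [(5, 1)], [(13, 1)], [(3, 1)], [(2, 1), (12, 4)], [], [(12, 1)]]
    (by decide +kernel)

theorem sd_20_18_107_5 : KQ K 21 18 107 5 2 :=
  lab_kq
    [[1, 14, 17, 5, 4, 0], [14, 10, 11, 13, 15, 1], [4, 3, 8, 5, 17, 2], [6, 17, 15, 5, 5, 3], [5, 5, 11, 12, 2, 4], [3, 0, 7, 12, 5], [5, 10, 7, 1, 10, 6], [11, 13, 4, 1, 15, 7], [10, 15, 12, 0, 17, 8], [8, 6, 13, 17, 13, 9], [5, 8, 11, 14, 8, 10], [16, 12, 14, 0, 9, 11], [2, 16, 3, 9, 15, 12], [4, 7, 1, 1, 8, 13], [16, 0, 6, 17, 2, 14], [9, 12, 13, 9, 13, 15], [2, 9, 3, 6, 17, 16], [7, 15, 0, 5, 5, 17]]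
    [[(14, 2)], [(7, 4)], [(16, 1)], [(16, 3)], [(13, 1)], [(4, 2), (6, 1), (10, 1)], [(14, 3)], [(17, 1)], [(10, 2)], [(16, 2)], [(8, 1)], [(10, 3)], [(15, 2)], [(15, 3)], [(11, 3)], [(12, 5), (17, 2)], [(14, 1)], [(3, 2), (14, 4)]]
    (by decide +kernel)

theorem sd_20_18_109_1 : KQ K 21 18 109 1 0 :=
  lab_kq
    [[5, 17, 1, 17, 1, 0], [0, 14, 16, 5, 5, 1], [14, 12, 3, 17, 10, 2], [7, 11, 16, 12, 1, 3], [11, 12, 7, 0, 2, 12, 4], [16, 10, 2, 3, 6, 5], [5, 10, 8, 10, 0, 6], [2, 9, 1, 3, 10, 7], [3, 10, 1, 2, 16, 8], [8, 8, 3, 12, 0, 9], [15, 13, 6, 9, 6, 10], [17, 13, 5, 4, 1, 11], [15, 9, 14, 2, 15, 12], [11, 9, 16, 7, 2, 13], [15, 8, 9, 0, 16, 14], [13, 0, 6, 17, 17, 15], [6, 14, 13, 3, 2, 16], [7, 1, 6, 12, 11, 17]]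
    [[(4, 4), (15, 2)], [(8, 3), (17, 2)], [(5, 3), (7, 1)], [(8, 1), (9, 3)], [], [(6, 1)], [(16, 1)], [(17, 1)], [], [(13, 2), (14, 3)], [(8, 2)], [(13, 1)], [(4, 2), (17, 4)], [(15, 1)], [(2, 1)], [(14, 1)], [(5, 1), (13, 3)], [(11, 1)]]
    (by decide +kernel)

theorem sd_20_20_109_13 : KQ K 21 20 109 13 0 :=
  lab_kq
    [[2, 13, 7, 11, 0], [15, 0, 7, 13, 1], [1, 17, 19, 17, 2], [0, 15, 0, 11, 4, 3], [14, 8, 1, 17, 4], [1, 2, 8, 2, 17, 5], [2, 17, 7, 18, 14, 6], [17, 14, 4, 3, 7], [16, 4, 12, 17, 8], [18, 1, 18, 12, 15, 9], [7, 4, 3, 8, 17, 10], [14, 9, 18, 15, 4, 11], [8, 6, 8, 0, 1, 12], [15, 5, 4, 10, 13], [7, 1, 10, 11, 14], [18, 7, 18, 0, 15], [4, 14, 17, 13, 4, 16], [0, 13, 19, 0, 17], [15, 8, 13, 10, 18], [13, 2, 13, 14, 5, 19]]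
    [[(12, 4), (17, 1)], [(5, 1), (9, 2)], [(6, 1)], [], [(10, 2), (13, 3), (16, 1)], [], [], [(10, 1), (14, 1)], [(10, 4), (18, 2)], [], [], [], [], [(0, 2), (17, 2)], [(11, 1), (16, 2)], [(11, 4), (13, 1), (18, 1)], [], [(6, 2), (7, 1), (16, 3)], [(11, 3)]]
    (by decide +kernel)

theorem sd_20_20_111_9 : KQ K 21 20 111 9 0 :=
  lab_kq
    [[2, 13, 4, 10, 0], [17, 15, 0, 8, 8, 1], [4, 11, 13, 6, 2], [8, 4, 2, 19, 3], [7, 1, 2, 11, 4], [12, 7, 12, 10, 19, 5], [0, 7, 0, 3, 5, 6], [17, 19, 9, 2, 7], [18, 5, 9, 11, 8], [0, 14, 4, 5, 11, 9], [3, 19, 3, 12, 13, 10], [8, 19, 19, 15, 18, 11], [7, 1, 19, 8, 12], [7, 3, 8, 8, 18, 13], [3, 4, 10, 6, 12, 14], [12, 17, 12, 9, 0, 15], [4, 17, 19, 14, 17, 16], [0, 6, 12, 2, 17], [2, 2, 17, 16, 3, 18], [16, 8, 2, 3, 19]]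
    [[(9, 1), (17, 1)], [], [(0, 1), (18, 2)], [(13, 2), (14, 1)], [(9, 3), (14, 2), (16, 1)], [], [], [(6, 2), (12, 1), (13, 1)], [(11, 1), (19, 2)], [], [], [], [(15, 3)], [], [], [], [], [(1, 1), (15, 2)], [], [(10, 2), (12, 3), (16, 3)]]
    (by decide +kernel)

theorem sd_21_19_113_15 : KQ K 22 19 113 15 2 :=
  lab_kq
    [[3, 16, 17, 4, 0], [0, 0, 6, 10, 8, 1], [12, 3, 17, 5, 0, 2], [2, 13, 15, 7, 16, 3], [12, 13, 11, 5, 6, 4], [1, 12, 7, 6, 0, 5], [17, 4, 9, 9, 17, 6], [14, 11, 10, 14, 5, 7], [18, 0, 14, 6, 0, 8], [15, 4, 5, 18, 17, 9], [8, 1, 6, 14, 9, 10], [16, 8, 18, 8, 13, 11], [7, 0, 6, 5, 11, 12], [2, 0, 11, 17, 0, 13], [9, 18, 3, 2, 10, 14], [13, 5, 3, 16, 8, 15], [10, 15, 11, 2, 10, 16], [4, 7, 9, 10, 1, 17], [0, 1, 16, 15, 14, 18]]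
    [[(8, 2), (12, 2), (13, 5), (18, 1)], [(18, 2)], [(16, 4)], [(15, 3)], [(17, 1)], [(15, 2)], [(10, 3), (12, 3)], [(17, 2)], [], [], [(17, 4)], [(16, 3)], [(5, 2)], [(15, 1)], [], [(18, 4)], [(18, 3)], [(13, 4)], [(14, 2)]]
    (by decide +kernel)

theorem sd_21_19_115_11 : KQ K 22 19 115 11 0 :=
  lab_kq
    [[8, 4, 3, 3, 14, 0], [0, 10, 0, 9, 4, 1], [13, 3, 7, 13, 18, 2], [1, 14, 18, 5, 7, 3], [5, 2, 14, 0, 7, 4], [13, 6, 1, 2, 6, 5], [9, 0, 16, 7, 15, 6], [10, 11, 17, 8, 17, 7], [10, 17, 12, 5, 18, 8], [17, 2, 12, 4, 14, 9], [5, 6, 18, 6, 4, 10], [9, 8, 7, 12, 9, 11], [11, 16, 7, 10, 4, 12], [4, 17, 1, 4, 16, 13], [3, 13, 1, 1, 6, 14], [2, 6, 11, 16, 3, 16, 15], [14, 18, 9, 0, 7, 16], [8, 18, 11, 7, 5, 17], [12, 16, 12, 14, 5, 18]]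
    [[(16, 4)], [(13, 3)], [(15, 1)], [(15, 5)], [(0, 2)], [(10, 1), (18, 5)], [(15, 2)], [(11, 3), (12, 3), (17, 4)], [(17, 1)], [(16, 3)], [(8, 1)], [(15, 3)], [(18, 1)], [(14, 2)], [(16, 1), (18, 4)], [], [(18, 2)], [(13, 2)], [(16, 2), (17, 2)]]
    (by decide +kernel)

theorem sd_21_20_119_9 : KQ K 22 20 119 9 1 :=
  lab_kq
    [[5, 14, 5, 4, 3, 0], [18, 3, 15, 5, 7, 1], [5, 16, 12, 7, 6, 2], [14, 19, 7, 9, 14, 3], [0, 15, 2, 5, 9, 4], [4, 19, 14, 11, 5], [9, 10, 17, 17, 2, 6], [5, 1, 6, 1, 18, 7], [13, 18, 3, 9, 19, 8], [5, 3, 10, 10, 13, 9], [13, 11, 1, 13, 2, 10], [12, 0, 15, 2, 13, 11], [4, 15, 16, 7, 3, 12], [10, 11, 16, 5, 16, 13], [17, 8, 4, 2, 8, 14], [19, 7, 6, 8, 19, 15], [11, 18, 9, 12, 3, 16], [6, 12, 8, 14, 5, 17], [1, 8, 16, 7, 9, 18], [2, 17, 0, 6, 0, 19]]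
    [[], [], [(19, 1)], [(9, 2)], [(14, 3)], [(2, 1), (7, 1), (9, 1), (13, 4), (17, 5)], [(17, 1)], [(15, 2)], [(18, 2)], [(6, 1)], [], [(16, 1)], [(17, 2)], [], [(17, 4)], [(12, 2)], [(18, 3)], [], [(16, 2)], [(15, 1)]]
    (by decide +kernel)

theorem sd_21_20_121_5 : KQ K 22 20 121 5 0 :=
  lab_kq
    [[9, 7, 5, 17, 6, 0], [13, 5, 17, 15, 7, 1], [12, 10, 7, 9, 18, 2], [9, 16, 13, 19, 5, 3], [5, 14, 15, 1, 11, 4], [17, 18, 16, 13, 4, 5], [12, 12, 2, 2, 7, 16, 6], [10, 0, 8, 11, 4, 7], [3, 13, 2, 2, 10, 8], [19, 4, 4, 17, 2, 9], [14, 9, 1, 4, 2, 10], [19, 15, 15, 1, 18, 11], [1, 7, 0, 13, 10, 12], [8, 14, 14, 17, 19, 13], [18, 11, 8, 18, 11, 14], [0, 4, 19, 11, 4, 15], [0, 15, 5, 11, 7, 16], [3, 10, 3, 2, 3, 17], [16, 11, 16, 3, 10, 18], [8, 1, 18, 17, 7, 19]]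
    [[(16, 1)], [(12, 1)], [], [], [(15, 2)], [(4, 1)], [], [(2, 3), (12, 2)], [(19, 1)], [(10, 2)], [(7, 1), (18, 5)], [(16, 4), (18, 2)], [], [(1, 1)], [], [(16, 2)], [(18, 1)], [(5, 1), (19, 4)], [(19, 3)], [(11, 1)]]
    (by decide +kernel)

theorem sd_21_21_122_9 : KQ K 22 21 122 9 0 :=
  lab_kq
    [[15, 6, 1, 12, 12, 0], [10, 2, 19, 18, 1], [19, 5, 12, 16, 17, 2], [15, 13, 11, 16, 20, 3], [16, 11, 9, 18, 17, 4], [9, 17, 6, 2, 13, 5], [13, 8, 20, 17, 19, 6], [1, 17, 3, 9, 18, 7], [0, 14, 1, 5, 16, 8], [4, 17, 4, 1, 11, 9], [12, 13, 1, 13, 15, 10], [20, 7, 7, 18, 7, 11], [1, 5, 19, 7, 9, 12], [1, 4, 1, 3, 13], [0, 16, 16, 17, 2, 14], [16, 13, 17, 17, 7, 15], [6, 3, 10, 0, 16], [13, 13, 11, 2, 17], [10, 17, 8, 20, 11, 18], [16, 2, 3, 18, 5, 19], [14, 8, 18, 14, 3, 20]]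
    [[], [(7, 1), (9, 4), (10, 3), (12, 1)], [], [], [], [], [], [], [], [], [], [], [], [(3, 2), (6, 1), (15, 2)], [], [], [(4, 1), (15, 1), (19, 1)], [(5, 2), (7, 2), (9, 2), (14, 4), (18, 2)], [(20, 3)]]
    (by decide +kernel)

theorem sd_21_21_124_5 : KQ K 22 21 124 5 0 :=
  lab_kq
    [[3, 11, 7, 16, 7, 0], [8, 0, 9, 16, 10, 1], [10, 5, 0, 14, 15, 2], [2, 9, 16, 10, 10, 3], [10, 18, 5, 10, 0, 4], [1, 19, 17, 11, 19, 5], [4, 8, 10, 9, 11, 6], [11, 15, 4, 0, 19, 7], [16, 9, 18, 20, 4, 8], [11, 12, 6, 0, 0, 9], [14, 19, 12, 19, 10], [20, 6, 12, 17, 11], [1, 3, 10, 15, 16, 12], [20, 11, 15, 20, 17, 13], [12, 13, 5, 8, 8, 14], [10, 7, 6, 18, 13, 15], [11, 6, 11, 17, 1, 16], [2, 18, 2, 10, 14, 17], [7, 14, 19, 5, 17, 18], [13, 4, 15, 1, 5, 19], [17, 3, 13, 14, 8, 20]]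
    [[(7, 4)], [(19, 4)], [], [], [(19, 2)], [(18, 4)], [(16, 2)], [], [], [(8, 2)], [(2, 1), (6, 3), (12, 3), (15, 1), (17, 4)], [(5, 4), (7, 1), (9, 1), (13, 2)], [(14, 1)], [(20, 3)], [(20, 4)], [(19, 3)], [(8, 1)], [(20, 1)], [(17, 2)]]
    (by decide +kernel)

theorem sd_21_21_125_3 : KQ K 22 21 125 3 0 :=
  lab_kq
    [[18, 19, 15, 1, 8, 0], [6, 3, 19, 18, 1], [12, 12, 1, 0, 18, 2], [8, 4, 8, 10, 13, 3], [19, 9, 1, 15, 20, 4], [0, 7, 9, 2, 19, 5], [4, 10, 7, 13, 3, 6], [17, 16, 20, 4, 8, 7], [1, 1, 5, 12, 10, 8], [11, 16, 17, 10, 15, 9], [20, 20, 17, 2, 16, 10], [6, 1, 7, 3, 15, 11], [14, 0, 0, 13, 16, 12], [5, 6, 3, 18, 5, 13], [3, 15, 1, 9, 12, 14], [18, 14, 17, 1, 20, 15], [9, 11, 15, 5, 12, 16], [2, 8, 5, 10, 6, 17], [13, 1, 10, 2, 2, 18], [14, 13, 7, 2, 7, 19], [11, 16, 4, 19, 12, 20]]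
    [[], [(2, 3), (4, 3), (11, 2), (14, 3), (18, 2)], [(19, 4)], [(14, 1)], [(20, 3)], [(17, 3)], [(13, 2)], [(19, 3)], [], [(16, 1)], [(6, 2)], [(20, 1)], [], [(19, 2)], [(19, 1)], [(14, 2)], [(20, 2)], [(15, 3)], [(15, 1)], [(4, 1)]]
    (by decide +kernel)

theorem sd_22_21_127_16 : KQ K 23 21 127 16 0 :=
  lab_kq
    [[7, 17, 18, 4, 1, 0], [12, 7, 6, 15, 8, 1], [14, 5, 3, 20, 4, 2], [8, 2, 1, 4, 2, 3], [17, 15, 20, 1, 14, 4], [0, 12, 19, 7, 12, 5], [5, 7, 18, 15, 1, 6], [12, 19, 10, 11, 16, 7], [16, 13, 1, 2, 13, 8], [3, 20, 17, 4, 4, 15, 9], [6, 6, 17, 0, 20, 10], [4, 16, 18, 10, 0, 11], [13, 15, 2, 1, 13, 12], [11, 0, 18, 16, 12, 13], [5, 19, 10, 0, 5, 14], [13, 18, 10, 1, 5, 15], [14, 2, 8, 20, 0, 16], [19, 16, 8, 1, 0, 17], [10, 6, 20, 7, 3, 18], [14, 3, 15, 3, 8, 19], [11, 11, 8, 2, 4, 20]]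
    [[(13, 2), (14, 4)], [(8, 3), (15, 4), (17, 4)], [(16, 2)], [(19, 2)], [(11, 1)], [(14, 1)], [], [(0, 1)], [(3, 1)], [], [(18, 1)], [], [(7, 1)], [], [(19, 1)], [(12, 2), (19, 3)], [(17, 2)], [(10, 3)], [(15, 2)], [(17, 1)], [(9, 2)]]
    (by decide +kernel)

theorem sd_22_22_131_14 : KQ K 23 22 131 14 0 :=
  lab_kq
    [[13, 8, 6, 7, 3, 0], [2, 14, 10, 4, 20, 1], [3, 9, 13, 7, 19, 2], [18, 20, 10, 2, 19, 3], [3, 0, 10, 14, 8, 4], [12, 19, 11, 18, 11, 5], [11, 18, 5, 4, 20, 6], [6, 16, 11, 13, 11, 7], [17, 0, 12, 5, 5, 8], [20, 1, 4, 10, 12, 9], [15, 20, 2, 13, 0, 10], [8, 1, 17, 15, 20, 11], [9, 0, 7, 19, 5, 12], [15, 16, 10, 3, 8, 13], [21, 7, 8, 17, 5, 14], [20, 5, 19, 6, 11, 15], [12, 17, 2, 20, 3, 16], [21, 21, 19, 5, 9, 17], [4, 6, 14, 15, 16, 18], [16, 1, 20, 4, 2, 19], [9, 18, 13, 14, 20],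 [20, 14, 7, 1, 0, 21]]
    [[(12, 2)], [(21, 4)], [(16, 3)], [(13, 4)], [(19, 4)], [(17, 4)], [(18, 2)], [(21, 3)], [(14, 3)], [(20, 1)], [(13, 3)], [], [(16, 1)], [(20, 3)], [(21, 2)], [(18, 4)], [(19, 1)], [(16, 2)], [(20, 2)], [(17, 3)], [(3, 2), (9, 1), (10, 2), (15, 1), (21, 1)]]
    (by decide +kernel)

theorem sd_22_22_133_10 : KQ K 23 22 133 10 0 :=
  lab_kq
    [[2, 16, 21, 9, 9, 0], [18, 21, 19, 19, 10, 1], [6, 7, 7, 12, 5, 2], [5, 2, 10, 17, 1, 3], [15, 0, 16, 11, 11, 4], [3, 13, 4, 20, 21, 5], [12, 19, 2, 1, 10, 6], [5, 21, 9, 16, 6, 7], [10, 14, 0, 20, 6, 17, 8], [4, 11, 18, 14, 20, 9], [17, 14, 3, 13, 17, 10], [14, 13, 18, 4, 13, 11], [13, 4, 21, 4, 11, 12], [1, 17, 17, 18, 21, 13], [5, 12, 6, 11, 12, 14], [19, 0, 7, 2, 18, 15], [10, 1, 11, 11, 7, 16], [20, 16, 1, 0, 0, 17], [15, 12, 15,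 19, 0, 18], [3, 9, 16, 18, 7, 19], [6, 7, 15, 2, 1, 20], [20, 9, 3, 9, 11, 21]]
    [[(15, 2)], [(13, 1)], [(3, 2)], [(21, 3)], [(12, 2)], [(14, 1)], [(20, 1)], [(20, 2)], [], [], [(16, 1)], [(14, 4)], [(18, 2)], [(12, 1)], [(11, 1)], [], [(17, 2)], [], [(1, 1)], [(18, 4)], [(21, 1)], [(7, 2), (13, 5)]]
    (by decide +kernel)

theorem sd_22_23_137_8 : KQ K 23 23 137 8 0 :=
  lab_kq
    [[3, 15, 4, 16, 21, 0], [14, 5, 5, 0, 13, 1], [15, 10, 19, 15, 4, 2], [10, 11, 15, 0, 7, 3], [17, 12, 7, 13, 10, 4], [15, 11, 8, 7, 13, 5], [15, 14, 21, 1, 0, 6], [6, 14, 16, 5, 5, 7], [9, 20, 9, 4, 16, 8], [8, 22, 6, 20, 8, 9], [20, 5, 8, 19, 4, 10], [16, 3, 12, 22, 12, 11], [0, 10, 22, 22, 20, 12], [18, 4, 12, 2, 9, 13], [13, 7, 11, 0, 18, 14], [21, 22, 2, 8, 15], [13, 7, 18, 15, 21, 16], [1, 6, 1, 4, 8, 17], [21, 11,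 12, 6, 4, 18], [3, 9, 16, 18, 2, 19], [17, 2, 19, 19, 9, 20], [2, 19, 17, 20, 17, 21], [15, 1, 18, 0, 14, 22]]
    [[(12, 1)], [], [(21, 1)], [], [(13, 2)], [], [(18, 4)], [(16, 2)], [(17, 5)], [], [(12, 2)], [(18, 2)], [], [(16, 1)], [(22, 5)], [(3, 3), (5, 1), (6, 1), (22, 1)], [(19, 3)], [], [(22, 3)], [], [(21, 4)], [(18, 1)]]
    (by decide +kernel)

theorem sd_22_23_139_4 : KQ K 23 23 139 4 1 :=
  lab_kq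
    [[9, 20, 16, 6, 10, 0], [7, 11, 14, 7, 3, 1], [9, 0, 4, 1, 19, 4, 2], [7, 14, 18, 17, 17, 3], [16, 8, 5, 12, 22, 4], [17, 4, 4, 21, 21, 5], [20, 15, 3, 16, 15, 6], [8, 16, 10, 1, 6, 7], [3, 13, 18, 13, 12, 8], [0, 11, 7, 0, 13, 9], [18, 17, 22, 22, 17, 10], [22, 1, 19, 5, 18, 11], [8, 10, 17, 3, 4, 12], [22, 6, 5, 20, 0, 13], [21, 10, 21, 19, 13, 14], [21, 6, 1, 9, 3, 15], [12, 19, 9, 19, 15, 16], [20, 3, 14, 13, 18, 17], [14, 5, 11, 12, 7, 18], [13, 10, 0, 16, 5, 19], [15, 12, 5, 8, 4, 20], [6, 11, 18, 12, 11, 21], [15, 1, 19, 4, 14, 22]]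
    [[(19, 3)], [(22, 2)], [], [(8, 1)], [], [(18, 2), (20, 3)], [(21, 1)], [(18, 5)], [(12, 1)], [(16, 3)], [(19, 2)], [(21, 2)], [(16, 1)], [(19, 1)], [(18, 1)], [(22, 1)], [(7, 2)], [(12, 3)], [(10, 1)], [(22, 3)], [(17, 1)], [], [(13, 1)]]
    (by decide +kernel)

end Pool.Agent.WarR
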