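import Pool.Agent.WarR.Lab

/-!
# Small windows of degree 2 (MP_db021c_ag), n = 23 ... 31: explicit assignments of the stars   (helper42)

`sd_n_b_x_y : KQ K (n+1) b x y r`, found by annealing, checked by the kernel through `lab_kq`.
-/

set_option autoImplicit false

namespace Pool.Agent.WarR

variable (K : Type*) [Field K] [CharZero K]

theorem sd_23_23_142_16 : KQ K 24 23 142 16 0 :=
  lab_kq
    [[11, 4, 4, 10, 21, 0], [14, 13, 14, 16, 17, 1], [19, 15, 10, 9, 19, 15, 2], [9, 13, 1, 14, 5, 3], [8, 10, 1, 18, 14, 4], [11, 20, 1, 17, 22, 9, 5], [7, 12, 7, 17, 11, 21, 6], [16, 13, 19, 8, 6, 7], [16, 3, 12, 12, 16, 8], [8, 12, 13, 8, 7, 9], [17, 21, 0, 21, 5, 10], [0, 10, 15, 22, 7, 11], [15, 16, 4, 4, 20, 12], [20, 9, 22, 9, 15, 13], [3, 8, 21, 9, 15, 14], [0, 22, 17, 3, 1, 15], [22, 20, 3, 2, 0, 16], [0, 19,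 21, 4, 22, 17], [11, 21, 20, 19, 22, 8, 18], [7, 1, 12, 12, 1, 19], [4, 14, 1, 16, 19, 20], [10, 14, 15, 9, 13, 21], [3, 17, 13, 7, 6, 22]]
    [[(16, 5), (17, 1)], [(5, 3), (20, 3)], [], [(16, 3), (22, 1)], [], [], [], [(22, 4)], [(14, 2)], [(3, 1)], [(11, 2), (21, 1)], [(18, 1)], [(9, 2)], [(7, 2), (22, 3)], [(21, 2)], [(12, 1), (21, 3)], [(7, 1)], [(15, 3), (22, 2)], [], [(17, 2)], [(16, 2), (18, 3)], [(18, 2)], [(15, 2), (16, 1)]]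
    (by decide +kernel)

theorem sd_23_23_143_14 : KQ K 24 23 143 14 0 :=
  lab_kq
    [[1, 11, 13, 6, 18, 0], [20, 6, 15, 6, 5, 1], [13, 20, 4, 10, 10, 2], [6, 18, 20, 17, 0, 22, 3], [17, 11, 5, 1, 1, 4], [15, 11, 4, 3, 1, 5], [7, 16, 11, 15, 13, 6], [18, 14, 16, 2, 11, 7], [1, 22, 20, 2, 12, 8], [8, 0, 2, 4, 20, 13, 9], [8, 7, 22, 12, 6, 16, 10], [15, 0, 4, 4, 4, 11], [16, 2, 22, 8, 17, 12], [8, 7, 9, 0, 4, 13], [15, 2, 17, 19, 3, 14], [5, 13, 16, 11, 8, 15], [7, 18, 22, 20, 12, 16], [14, 0, 13, 12, 14, 17], [14, 12, 1, 4, 13, 18], [5, 5, 2, 0, 4, 13, 19], [18, 16, 14, 14, 7, 20], [17, 22, 12, 1, 11, 13, 21], [12, 6, 21, 17, 19, 22]]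
    [[(11, 2), (17, 2)], [(8, 1), (21, 4)], [(14, 2), (19, 3)], [], [(5, 3), (9, 4)], [(15, 1)], [(3, 1)], [(13, 2), (16, 1)], [(12, 4), (13, 1)], [], [], [(5, 2), (6, 3), (21, 5)], [(21, 3), (22, 1)], [(2, 1), (15, 2), (17, 3)], [(18, 1)], [(11, 1), (14, 1)], [(12, 1), (20, 2)], [(21, 1), (22, 4)], [(16, 2), (20, 1)], [], [(2, 2), (3, 3)], [], [(16, 3), (21, 2)]]
    (by decide +kernel)

theorem sd_23_23_144_12 : KQ K 24 23 144 12 0 :=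
  lab_kq
    [[4, 17, 11, 22, 11, 0], [20, 12, 2, 6, 7, 1], [19, 14, 4, 3, 4, 2], [6, 13, 22, 4, 19, 3], [16, 14, 8, 17, 0, 4], [1, 2, 14, 19, 8, 5], [17, 9, 17, 13, 12, 6], [0, 4, 0, 13, 14, 14, 7], [22, 11, 13, 12, 20, 13, 8], [4, 2, 5, 22, 1, 9], [2, 12, 19, 16, 17, 1, 10], [5, 15, 17, 19, 19, 11], [20, 11, 0, 9, 6, 12], [6, 6, 3, 12, 21, 13], [16, 2, 7, 1, 22, 14], [3, 9, 3, 12, 21, 19, 15], [9, 5, 22, 13, 10, 16], [11, 5, 20, 5, 14, 17], [20, 14, 6, 12, 16, 5, 18], [13, 0, 0, 3, 21, 19], [9, 22, 1, 5, 14, 20], [1, 16, 3, 11, 1, 1, 21], [19, 18, 10, 17, 16, 22]]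
    [[], [(20, 3), (21, 1)], [(10, 1), (14, 2)], [(21, 3)], [(7, 2), (9, 1)], [(11, 1), (20, 4)], [(18, 3)], [], [], [(16, 1), (20, 1)], [], [(17, 1), (21, 4)], [(10, 2), (15, 4), (18, 4)], [(7, 4), (19, 1)], [(4, 2), (18, 2)], [], [(14, 1), (21, 2)], [(0, 2), (22, 4)], [], [(10, 3), (22, 1)], [(17, 3), (18, 1)], [], [(8, 1), (20, 2)]]
    (by decide +kernel)

theorem sd_23_23_145_10 : KQ K 24 23 145 10 0 :=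
  lab_kq
    [[2, 9, 22, 16, 21, 0], [0, 18, 7, 22, 20, 1], [15, 19, 9, 6, 19, 2], [4, 7, 20, 12, 5, 7, 3], [14, 11, 8, 8, 18, 4], [8, 11, 0, 18, 3, 2, 5], [12, 17, 11, 21, 17, 6], [18, 19, 17, 6, 11, 7], [4, 16, 16, 15, 15, 8], [20, 13, 6, 10, 13, 9], [16, 9, 6, 7, 2, 2, 10], [2, 6, 12, 19, 15, 11], [7, 4, 6, 16, 17, 12], [12, 0, 15, 15, 20, 18, 13], [20, 9, 18, 17, 20, 10, 14], [11, 0, 17, 20, 8, 15], [1, 8, 0, 21, 1, 16], [1, 18, 4, 9, 0, 17], [1, 11, 9, 17, 19, 18], [12, 4, 17, 17, 2, 19], [7, 6, 19, 3, 16, 20], [15, 19, 2, 2, 10, 3, 21], [1, 8, 16, 5, 19, 8, 22]]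
    [[(1, 1), (13, 2)], [(18, 1), (22, 1)], [(11, 1), (19, 5)], [], [(8, 1), (19, 2)], [], [(11, 2), (12, 3), (20, 2)], [(12, 1), (20, 1)], [(5, 1)], [(10, 2), (14, 2)], [], [(5, 2), (15, 1)], [(13, 1), (19, 1)], [], [], [(21, 1)], [(10, 1), (22, 3)], [(14, 4), (15, 3), (18, 4)], [(7, 1), (14, 3), (17, 2)], [(20, 3), (21, 2), (22, 5)], [(9, 1), (14, 1)]]
    (by decide +kernel)

theorem sd_23_23_146_8 : KQ K 24 23 146 8 0 :=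
  lab_kq
    [[3, 4, 19, 17, 21, 0], [18, 17, 15, 17, 18, 1], [16, 11, 4, 4, 4, 2], [2, 18, 19, 11, 19, 3], [16, 13, 7, 22, 10, 4], [4, 12, 20, 1, 6, 17, 5], [18, 16, 21, 19, 3, 6], [11, 1, 17, 6, 22, 18, 7], [3, 13, 3, 11, 4, 8], [1, 19, 19, 1, 14, 7, 9], [8, 11, 5, 16, 8, 17, 10], [2, 19, 6, 21, 19, 11], [0, 0, 3, 22, 1, 12], [15, 17, 15, 12, 12, 13], [0, 15, 6, 12, 9, 3, 14], [1, 11, 12, 5, 9, 15], [0, 18, 9, 14, 12, 16], [16, 13, 4, 14, 2, 17], [8, 3, 4, 7, 17, 18], [13, 2, 10, 12, 3, 19], [6, 12, 2, 0, 10, 12, 20], [8, 6, 8, 2, 15, 2, 21], [13, 15, 17, 18, 20, 16, 22]]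
    [[(16, 1)], [(9, 1), (15, 1)], [(3, 1), (11, 1)], [(0, 1), (18, 2)], [(5, 1), (18, 3)], [], [(20, 1), (21, 2)], [], [(18, 1)], [], [], [(7, 1), (10, 2)], [(5, 2), (19, 4), (20, 2)], [(19, 1), (22, 1)], [], [(21, 5), (22, 2)], [(6, 2), (10, 4), (17, 1)], [(7, 3), (13, 2), (22, 3)], [(6, 1), (16, 2), (22, 4)], [(9, 3)]]
    (by decide +kernel)

theorem sd_23_23_147_6 : KQ K 24 23 147 6 0 :=
  lab_kq
    [[3, 22, 21, 21, 7, 0], [0, 4, 15, 21, 7, 22, 1], [0, 4, 17, 13, 19, 2], [10, 21, 9, 4, 16, 12, 3], [7, 17, 15, 19, 7, 4], [8, 22, 12, 17, 12, 13, 5], [7, 2, 8, 22, 14, 20, 6], [2, 20, 20, 8, 0, 7], [6, 22, 14, 17, 12, 8], [14, 17, 11, 18, 17, 9], [7, 19, 14, 17, 12, 10], [0, 10, 7, 17, 8, 4, 11], [16, 11, 14, 9, 6, 12], [0, 12, 9, 4, 20, 3, 13], [21, 18, 21, 8, 17, 14], [2, 4, 9, 22, 22, 17, 15], [5, 2,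 9, 10, 3, 16], [20, 13, 10, 16, 18, 17], [8, 20, 10, 4, 5, 10, 18], [1, 14, 16, 21, 8, 22, 19], [12, 9, 9, 16, 1, 20], [12, 2, 10, 20, 22, 21], [16, 16, 14, 20, 6, 22]]
    [[(11, 1), (13, 1)], [], [(7, 1), (15, 1)], [], [(1, 2), (15, 2), (18, 4)], [], [], [(6, 1), (10, 1)], [(5, 1), (18, 1), (19, 5)], [(13, 3), (15, 3), (16, 3)], [(3, 1), (11, 2)], [], [(13, 2), (20, 1), (21, 1)], [], [(9, 1), (19, 2), (22, 3)], [], [(12, 1), (19, 3)], [(4, 2), (5, 4), (9, 2), (10, 4), (11, 4)], [], [], [(17, 1), (18, 2)], [(3, 2), (19, 4)], [(5, 2), (6, 4), (8, 2)]]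
    (by decide +kernel)

theorem sd_23_23_148_4 : KQ K 24 23 148 4 0 :=
  lab_kq
    [[21, 1, 11, 10, 21, 0], [19, 12, 13, 12, 4, 1], [14, 20, 20, 4, 13, 7, 2], [6, 21, 6, 14, 14, 4, 3], [19, 20, 0, 22, 17, 4], [8, 20, 3, 19, 22, 5], [11, 2, 11, 4, 16, 6], [21, 5, 12, 10, 17, 22, 7], [12, 5, 4, 15, 11, 0, 8], [20, 14, 2, 22, 20, 4, 9], [0, 12, 1, 6, 14, 22, 10], [15, 0, 4, 1, 4, 11], [19, 0, 15, 8, 17, 12], [19, 1, 5, 18, 22, 8, 13], [15, 4, 0, 9, 6, 14], [18, 11, 21, 17, 16, 15], [14, 6, 7, 13, 21, 14, 16], [16, 22, 11, 21, 19, 6, 17], [5, 5, 22, 11, 22, 17, 18], [6, 9, 1, 9, 11, 19], [4, 1, 22, 12, 22, 20], [3, 0, 7, 12, 1, 21], [15, 15, 10, 1, 17, 22]]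
    [[(10, 1), (12, 2), (21, 2)], [(10, 3), (13, 2), (20, 2), (22, 4)], [], [], [(6, 4), (8, 3), (14, 2), (20, 1)], [(8, 2), (13, 3)], [(16, 2), (19, 1)], [], [], [], [], [(15, 2), (17, 3), (18, 4)], [(8, 1), (10, 2)], [], [(9, 2), (16, 1)], [(12, 3), (14, 1)], [], [], [], [(12, 1), (13, 1), (17, 5)], [(9, 5)], [(7, 1), (15, 3), (17, 4)], [(9, 4), (13, 5), (17, 2), (18, 5)]]
    (by decide +kernel)

theorem sd_23_23_149_2 : KQ K 24 23 149 2 0 :=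
  lab_kq
    [[11, 14, 20, 6, 13, 6, 0], [6, 3, 13, 10, 18, 17, 1], [1, 16, 11, 5, 8, 2], [15, 2, 10, 18, 2, 3], [6, 19, 16, 10, 14, 4], [6, 15, 20, 13, 4, 5], [4, 9, 8, 3, 3, 6], [22, 12, 5, 3, 3, 7], [17, 15, 13, 20, 22, 3, 8], [15, 20, 7, 5, 7, 8, 9], [2, 20, 3, 16, 8, 10], [3, 10, 22, 8, 4, 14, 11], [4, 5, 3, 7, 17, 3, 12], [22, 6, 2, 4, 6, 13], [21, 15, 4, 15, 6, 14], [14, 13, 0, 20, 14, 15], [2, 5, 10, 4, 2, 10, 16], [22, 18, 7, 14, 13, 2, 17], [14, 7, 22, 5, 21, 4, 18], [7, 5, 1, 13, 21, 4, 19], [13, 2, 19, 4, 12, 20], [0, 10, 12, 10, 19, 7, 21], [20, 14, 9, 9, 7, 22]]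
    [[], [], [(10, 1), (16, 1), (20, 2)], [(1, 2), (11, 1), (12, 3)], [(6, 1), (12, 1), (14, 3), (16, 4), (20, 4)], [(12, 2), (16, 2), (19, 2)], [(4, 1), (5, 1), (13, 2)], [(17, 3), (18, 2), (19, 1)], [], [], [(3, 3), (11, 2), (16, 3)], [], [], [(8, 3), (15, 2), (19, 4), (20, 1)], [(0, 2), (18, 1), (22, 2)], [(8, 2), (9, 1)], [], [], [], [], [(9, 2), (10, 2), (15, 4), (22, 1)], [], [(13, 1), (17, 1), (18, 3)]]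
    (by decide +kernel)

theorem sd_24_24_155_15 : KQ K 25 24 155 15 0 :=
  lab_kq
    [[6, 2, 1, 21, 19, 0], [10, 17, 0, 6, 2, 1], [21, 5, 12, 15, 11, 2], [5, 1, 14, 8, 0, 3], [8, 17, 21, 23, 10, 5, 4], [12, 9, 20, 10, 1, 5], [14, 2, 5, 14, 3, 6], [17, 18, 9, 1, 14, 16, 7], [9, 2, 9, 13, 0, 5, 8], [23, 11, 20, 21, 6, 9], [12, 2, 18, 19, 0, 10], [20, 3, 13, 22, 14, 3, 11], [14, 9, 3, 11, 22, 12], [17, 16, 3, 7, 1, 21, 13], [21, 21, 4, 12, 12, 14], [14, 0, 6, 5, 17, 5, 15], [3, 6, 9, 1, 0, 14, 16], [1, 22, 21, 2, 2, 17], [10, 7, 0, 3, 4, 16, 18], [10, 2, 0, 17, 15, 11, 19], [6, 15, 12, 6, 16, 20], [19, 0, 4, 1, 3, 21], [20, 10, 20, 1, 3, 13, 22], [12, 5, 20, 5, 6, 12, 23]]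
    [[(15, 2), (18, 3), (19, 3), (21, 2)], [(7, 4), (16, 4), (17, 1), (21, 4), (22, 4)], [(8, 2), (10, 2), (19, 2)], [(13, 3), (16, 1), (18, 4), (22, 5)], [], [(2, 2), (3, 1), (23, 2)], [(0, 1), (16, 2), (23, 5)], [], [], [(12, 2), (16, 3)], [(18, 1), (19, 1), (22, 2)], [], [(10, 1), (20, 3), (23, 1)], [], [(12, 1), (15, 1), (16, 6)], [], [], [(7, 1), (13, 1), (19, 4)], [], [], [(11, 1), (23, 3)], [(2, 1), (9, 4), (17, 3)]]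
    (by decide +kernel)

theorem sd_25_23_160_17 : KQ K 26 23 160 17 2 :=
  lab_kq
    [[20, 18, 3, 14, 22, 1, 0], [10, 3, 18, 16, 16, 8, 1], [5, 17, 4, 12, 1, 14, 2], [0, 21, 4, 13, 9, 15, 3], [7, 0, 2, 12, 10, 1, 4], [6, 12, 21, 22, 21, 16, 5], [1, 10, 7, 9, 21, 11, 6], [4, 18, 2, 1, 9, 22, 7], [2, 15, 14, 14, 6, 7, 8], [13, 20, 17, 14, 13, 12, 9], [19, 17, 3, 16, 15, 19, 10], [9, 15, 18, 22, 6, 22, 11], [13, 11, 15, 15, 6, 9, 12], [9, 4, 8, 7, 10, 10, 13], [22, 19, 0, 17, 21, 10, 14], [18, 11, 6, 18, 19, 4, 15], [18, 11, 19, 1, 2, 3, 16], [20, 8, 12, 16, 19, 11, 17], [5, 5, 20, 8, 13, 18], [3, 14, 12, 22, 16, 2, 19], [16, 21, 18, 17, 8, 14, 20], [8, 5, 6, 10, 2, 13, 21], [7, 0, 1, 11, 18, 13, 22]]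
    [[(22, 2)], [(6, 1), (22, 3)], [(8, 1)], [(19, 1)], [(7, 1)], [], [(15, 3), (21, 3)], [(22, 1)], [(20, 5), (21, 1)], [(12, 6), (13, 1)], [(1, 1)], [(16, 2), (22, 4)], [(17, 3), (19, 3)], [(12, 1)], [(19, 2)], [(11, 2)], [(20, 1)], [(14, 4), (20, 4)], [(0, 2), (7, 2), (11, 3), (16, 1), (20, 3)], [(14, 2)], [(17, 1)], [(20, 2)], [(14, 1)]]
    (by decide +kernel)

theorem sd_25_24_167_10 : KQ K 26 24 167 10 1 :=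
  lab_kq
    [[13, 4, 11, 20, 22, 19, 0], [0, 12, 21, 8, 3, 19, 1], [5, 4, 23, 14, 15, 5, 2], [8, 4, 19, 17, 14, 3], [12, 6, 2, 7, 10, 22, 4], [18, 9, 22, 23, 15, 3, 5], [3, 21, 19, 16, 3, 20, 6], [2, 16, 21, 18, 3, 5, 7], [12, 11, 1, 21, 17, 18, 8], [23, 23, 14, 12, 11, 7, 9], [19, 7, 20, 15, 5, 16, 10], [10, 3, 6, 0, 7, 23, 11], [13, 18, 6, 15, 19, 9, 12], [15, 3, 15, 2, 14, 9, 13], [5, 2, 9, 22, 17, 11, 14], [8, 16, 1, 0, 16, 8, 15], [20, 3, 21, 3, 13, 23, 16], [7, 9, 10, 7, 4, 14, 17], [17, 3, 17, 22, 2, 20, 18], [13, 0, 4, 3, 9, 22, 19], [22, 8, 5, 11, 0, 11, 20], [10, 6, 17, 19, 10, 0, 21], [1, 18, 1, 14, 9, 11, 22], [14, 20, 16, 11, 6, 1, 23]]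
    [[(19, 2), (20, 5)], [], [(7, 1)], [(6, 1), (7, 5), (11, 2), (13, 2), (18, 2), (19, 4)], [(17, 5), (19, 3)], [(14, 1)], [(21, 2), (23, 5)], [(10, 2)], [(20, 2)], [(14, 3), (17, 2)], [(21, 1)], [(8, 2), (23, 4)], [(8, 1)], [(19, 1)], [(22, 4), (23, 1)], [(12, 4)], [(23, 3)], [(21, 3)], [(5, 1)], [(10, 1), (21, 4)], [(16, 1), (23, 2)], [(8, 4), (16, 3)], [(18, 4), (20, 1)], [(16, 6)]]
    (by decide +kernel)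

theorem sd_25_25_173_5 : KQ K 26 25 173 5 0 :=
  lab_kq
    [[12, 23, 11, 4, 12, 18, 0], [21, 20, 23, 21, 17, 3, 1], [7, 6, 7, 5, 3, 7, 2], [22, 4, 7, 19, 13, 19, 3], [8, 9, 6, 11, 3, 19, 4], [19, 2, 10, 22, 20, 20, 5], [10, 21, 11, 5, 9, 24, 6], [24, 10, 8, 1, 14, 7], [16, 20, 13, 10, 4, 4, 8], [3, 2, 7, 19, 10, 21, 9], [18, 7, 7, 20, 0, 18, 10], [17, 14, 24, 4, 14, 19, 11], [14, 8, 23, 0, 24, 8, 12], [16, 11, 7, 5, 8, 3, 13], [5, 23, 0, 11, 16, 23, 14], [3, 21, 18, 13, 22, 17, 15], [1, 2, 19, 15, 1, 0, 16], [12, 22, 14, 13, 9, 3, 17], [1, 21, 4, 24, 21, 16, 18], [7, 17, 16, 0, 8, 15, 19], [6, 9, 0, 24, 0, 13, 20], [17, 6, 1, 2, 24, 21], [21, 9, 15, 21, 21, 14, 22], [15, 15, 18, 18, 22, 22, 23], [13, 12, 5, 20, 2, 4, 24]]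
    [[(14, 3)], [(21, 3)], [(16, 2)], [(15, 1), (17, 6)], [(3, 2)], [(14, 1)], [(21, 2)], [(3, 3), (9, 3), (13, 3), (19, 1)], [(4, 1)], [(22, 2)], [(6, 1)], [(13, 2)], [(24, 2)], [(24, 1)], [(17, 3)], [], [(13, 1)], [(21, 1)], [], [(5, 1)], [(8, 2)], [(6, 2), (15, 2), (18, 2), (22, 1)], [(17, 2)], [(14, 2)], [(11, 3), (20, 4)]]
    (by decide +kernel)

theorem sd_25_25_174_3 : KQ K 26 25 174 3 0 :=
  lab_kq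
    [[9, 4, 6, 19, 24, 14, 0], [13, 0, 4, 21, 20, 16, 1], [10, 5, 20, 9, 24, 20, 2], [23, 20, 13, 10, 4, 15, 3], [7, 0, 9, 24, 19, 2, 4], [3, 1, 18, 12, 3, 14, 5], [23, 4, 16, 17, 17, 24, 6], [6, 19, 12, 12, 2, 15, 7], [14, 16, 18, 13, 17, 22, 8], [5, 6, 20, 17, 22, 9], [21, 16, 0, 15, 1, 15, 10], [8, 17, 1, 0, 24, 22, 11], [9, 19, 11, 4, 7, 22, 12], [8, 19, 17, 11, 15, 15, 13], [2, 16, 1, 3, 8, 1, 14], [13, 12, 10, 6, 22, 22, 15], [18, 2, 22, 23, 18, 0, 16], [8, 20, 24, 2, 9, 0, 17], [21, 22, 15, 15, 3, 6, 18], [24, 5, 5, 18, 21, 18, 19], [7, 11, 14, 9, 3, 13, 20], [10, 23, 1, 11, 6, 0, 21], [9, 12, 15, 21, 11, 4, 22], [14, 3, 22, 11, 17, 10, 23], [7, 9, 9, 2, 14, 5, 24]]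
    [[(4, 2), (11, 4)], [(5, 2)], [(16, 2), (24, 4)], [(23, 2)], [(6, 2), (12, 4)], [(24, 6)], [(9, 2), (15, 4)], [(24, 1)], [(17, 1)], [(0, 1), (12, 1), (17, 5), (20, 4), (22, 1)], [(21, 1)], [(20, 2), (23, 4)], [(22, 2)], [(15, 1)], [(23, 1), (24, 5)], [(22, 3)], [(10, 2), (14, 2)], [(11, 2)], [(16, 1)], [(12, 2), (13, 2)], [(17, 2)], [(18, 1)], [(18, 2), (23, 3)], [(21, 2)], [(17, 3), (19, 1)]]
    (by decide +kernel)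

theorem sd_26_25_176_19 : KQ K 27 25 176 19 0 :=
  lab_kq
    [[19, 24, 7, 15, 16, 7, 0], [20, 4, 17, 16, 3, 18, 1], [9, 22, 9, 14, 8, 9, 2], [5, 11, 22, 20, 2, 17, 3], [22, 3, 17, 12, 21, 3, 4], [1, 13, 8, 19, 24, 24, 5], [20, 23, 21, 14, 9, 4, 5, 6], [3, 18, 10, 6, 19, 4, 7], [15, 10, 13, 23, 20, 22, 8], [21, 24, 11, 5, 2, 21, 9], [17, 13, 1, 0, 13, 16, 10], [8, 2, 0, 17, 12, 24, 11], [11, 14, 3, 15, 11, 19, 12], [15, 21, 17, 2, 9, 5, 13], [8, 19, 4, 3, 4, 24, 14], [5, 23, 4, 16, 18, 10, 15], [1, 19, 2, 5, 13, 14, 16], [1, 7, 16, 7, 24, 3, 17], [10, 12, 20, 4, 5, 21, 18], [0, 22, 14, 8, 11, 12, 19], [10, 14, 18, 11, 21, 4, 20], [7, 0, 0, 18, 23, 12, 21], [23, 16, 16, 7, 18, 13, 22], [12, 18, 12, 24, 24, 22, 23], [2, 9, 15, 13, 9, 8, 24]]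
    [[(19, 1)], [(17, 1)], [(16, 3), (24, 1)], [(12, 3), (14, 4)], [(15, 3), (18, 4)], [(15, 1), (16, 4)], [], [(22, 4)], [(14, 1), (19, 4)], [], [(18, 1), (20, 1)], [(3, 2)], [(18, 2)], [(8, 3), (24, 4)], [(19, 3), (20, 2)], [(13, 1), (24, 3)], [(17, 3)], [(10, 1), (13, 3)], [(20, 3), (23, 2)], [(14, 2), (16, 2)], [(6, 1)], [(13, 2), (20, 5)], [(4, 1), (19, 2)], [(21, 5), (22, 1)], [(9, 2), (17, 5)]]
    (by decide +kernel)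

theorem sd_26_26_179_20 : KQ K 27 26 179 20 0 :=
  lab_kq
    [[9, 1, 1, 6, 9, 24, 0], [25, 16, 18, 19, 15, 1], [4, 18, 25, 22, 5, 9, 2], [19, 13, 10, 22, 15, 1, 3], [8, 8, 17, 0, 0, 17, 4], [7, 19, 22, 8, 7, 16, 5], [1, 13, 11, 9, 24, 5, 6], [0, 23, 19, 1, 2, 20, 7], [10, 22, 19, 21, 21, 20, 8], [4, 21, 13, 10, 18, 5, 9], [22, 15, 22, 12, 9, 24, 10], [24, 0, 3, 7, 5, 2, 11], [23, 14, 6, 2, 20, 9, 12], [11, 18, 12, 1, 19, 3, 13], [3, 11, 8, 24, 22, 18, 14], [17, 3, 22, 17, 22, 7, 15], [19, 14, 2, 24, 11, 6, 16], [12, 15, 23, 15, 21, 11, 17], [7, 20, 20, 5, 13, 6, 18], [6, 2, 16, 14, 6, 19], [21, 10, 2, 23, 24, 3, 20], [1, 22, 16, 19, 6, 12, 21], [25, 25, 9, 15, 19, 22], [1, 20, 5, 14, 18, 3, 23], [16, 19, 1, 14, 0, 6, 24], [4, 5, 17, 12, 13, 12, 25]]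
    [[], [(6, 1), (21, 1), (23, 1), (24, 3)], [(20, 3)], [(15, 2)], [(25, 1)], [(25, 2)], [(12, 3)], [], [], [(22, 3)], [(20, 2)], [(14, 2)], [(17, 1)], [(9, 3)], [(24, 4)], [], [(24, 1)], [], [(13, 2)], [(5, 2), (7, 3), (8, 3), (16, 1), (21, 4), (24, 2)], [], [], [(5, 3), (8, 2), (10, 3), (21, 2)], [(20, 4)], [(11, 1)]]
    (by decide +kernel)

theorem sd_26_26_181_16 : KQ K 27 26 181 16 0 :=
  lab_kq
    [[24, 19, 21, 21, 15, 20, 0], [4, 9, 12, 15, 20, 16, 1], [13, 9, 17, 17, 24, 3, 2], [18, 13, 4, 8, 5, 7, 3], [23, 21, 6, 24, 2, 9, 4], [22, 19, 14, 24, 8, 6, 5], [25, 3, 20, 4, 5, 21, 6], [4, 21, 11, 18, 1, 0, 7], [22, 23, 0, 7, 14, 11, 8], [5, 17, 0, 8, 16, 14, 9], [18, 19, 15, 15, 3, 24, 10], [20, 20, 1, 25, 23, 17, 11], [11, 10, 3, 16, 21, 23, 12], [15, 0, 12, 1, 11, 6, 13], [8, 2, 10, 11, 15, 11, 14],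 [22, 5, 22, 13, 18, 15], [12, 17, 14, 5, 13, 2, 16], [2, 10, 25, 16, 12, 4, 17], [6, 15, 15, 16, 9, 6, 18], [25, 15, 12, 5, 16, 10, 19], [16, 14, 6, 18, 0, 7, 20], [8, 24, 0, 9, 13, 15, 21], [23, 15, 7, 13, 20, 25, 22], [1, 1, 9, 11, 17, 10, 23], [3, 19, 10, 2, 3, 18, 24], [7, 7, 14, 2, 6, 6, 25]]
    [[(20, 5), (21, 3)], [], [(17, 1)], [(24, 1)], [(7, 1)], [(9, 1)], [(20, 3)], [], [(21, 1)], [(21, 4), (23, 3)], [(17, 2), (24, 3)], [(12, 1)], [(16, 1)], [(2, 1)], [(20, 2), (25, 3)], [(1, 4), (13, 1), (14, 5), (19, 2), (22, 2)], [(19, 5), (20, 1)], [(23, 5)], [(10, 1)], [(24, 2)], [], [(12, 5)], [], [(22, 1)], [(0, 1)], [(19, 1)]]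
    (by decide +kernel)

theorem sd_26_26_183_12 : KQ K 27 26 183 12 0 :=
  lab_kq
    [[19, 8, 22, 8, 16, 13, 0], [14, 6, 20, 23, 0, 6, 1], [15, 1, 12, 10, 0, 16, 2], [18, 11, 6, 14, 19, 11, 3], [3, 20, 9, 7, 13, 13, 4], [19, 12, 0, 10, 25, 10, 5], [7, 17, 3, 9, 8, 16, 6], [5, 13, 5, 9, 3, 0, 7], [6, 18, 16, 23, 7, 25, 8], [22, 13, 6, 25, 23, 16, 9], [4, 23, 15, 19, 5, 11, 10], [21, 5, 15, 20, 20, 12, 11], [14, 2, 16, 25, 5, 24, 12], [0, 23, 2, 21, 14, 23, 13], [12, 0, 22, 18, 24, 23, 14], [11, 11, 17, 3, 16, 17, 15], [25, 17, 15, 21, 0, 6, 16], [22, 7, 10, 10, 3, 25, 17], [12, 3, 1, 5, 22, 14, 18], [9, 8, 14, 20, 25, 17, 19], [17, 4, 11, 7, 10, 9, 20], [1, 2, 18, 1, 25, 15, 21], [2, 9, 4, 15, 4, 6, 22], [8, 4, 21, 13, 25, 18, 23], [16, 21, 19, 1, 18, 23, 8, 24], [10, 20, 13, 7, 2, 13, 25]]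
    [[(13, 1), (14, 2)], [(24, 4)], [(22, 1), (25, 5)], [(15, 4), (18, 2)], [(23, 2)], [(18, 4)], [(8, 1), (22, 6)], [(17, 2), (25, 4)], [(23, 1)], [(19, 1), (22, 2)], [(25, 1)], [], [(14, 1), (18, 1)], [(9, 2), (25, 3)], [(12, 1), (19, 3)], [(11, 3), (16, 3)], [(12, 3), (24, 1)], [(20, 1)], [(8, 2), (24, 5)], [(10, 4), (24, 3)], [(25, 2)], [(23, 3), (24, 2)], [(17, 1), (18, 5)], [(10, 2), (13, 2)], [], [(12, 4), (16, 1), (23, 5)]]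
    (by decide +kernel)

theorem sd_26_27_188_9 : KQ K 27 27 188 9 0 :=
  lab_kq
    [[14, 4, 1, 25, 8, 11, 0], [14, 15, 0, 26, 3, 11, 1], [22, 9, 5, 6, 8, 16, 2], [1, 20, 20, 11, 11, 3], [12, 19, 11, 13, 22, 18, 4], [3, 21, 14, 7, 6, 10, 5], [11, 7, 19, 24, 17, 13, 6], [23, 15, 9, 10, 6, 14, 7], [18, 17, 19, 24, 22, 13, 8], [16, 13, 20, 15, 10, 14, 9], [3, 25, 8, 9, 26, 15, 10], [23, 2, 3, 23, 1, 7, 11], [24, 23, 19, 19, 16, 15, 12], [20, 22, 6, 1, 2, 16, 13], [17, 11, 13, 2, 24, 7, 14], [26, 8, 3, 26, 17, 0, 15], [18, 3, 3, 12, 9, 25, 16], [26, 10, 16, 5, 20, 25, 17], [9, 12, 0, 12, 6, 2, 18], [4, 17, 0, 5, 4, 6, 19], [25, 4, 0, 13, 4, 18, 20], [5, 2, 5, 13, 2, 16, 21], [24, 3, 21, 8, 3, 14, 22], [6, 10, 15, 12, 7, 26, 23], [21, 22, 8, 1, 2, 14, 24], [7, 21, 10, 1, 3, 15, 25], [18, 16, 25, 0, 7, 20, 26]]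
    [[(20, 3), (26, 4)], [(24, 4), (25, 4)], [(11, 2)], [(5, 1), (10, 1), (11, 3), (15, 3), (25, 5)], [], [], [(19, 6), (23, 1)], [(25, 1), (26, 5)], [(22, 4), (24, 3)], [(18, 1)], [(23, 2), (25, 3)], [(14, 2)], [(23, 4)], [(14, 3), (21, 4)], [(1, 1), (24, 6)], [(9, 4), (23, 3)], [(17, 3), (26, 2)], [(19, 2)], [(26, 1)], [(8, 3)], [(17, 5)], [(25, 2)], [(24, 2)], [], [(22, 1)], [(20, 1)], [(17, 1)]]
    (by decide +kernel)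

theorem sd_26_27_190_5 : KQ K 27 27 190 5 1 :=
  lab_kq
    [[22, 22, 17, 10, 14, 1, 0], [25, 4, 22, 24, 21, 26, 1], [16, 13, 1, 15, 9, 5, 2], [0, 17, 19, 14, 22, 6, 3], [13, 25, 11, 23, 26, 5, 4], [14, 24, 7, 6, 17, 17, 5], [11, 7, 1, 9, 3, 10, 6], [5, 14, 5, 10, 17, 21, 7], [1, 21, 6, 25, 7, 21, 8], [16, 13, 4, 24, 21, 5, 9], [2, 11, 12, 8, 12, 7, 10], [3, 14, 24, 18, 21, 16, 11], [23, 5, 5, 3, 11, 16, 12], [16, 24, 19, 15, 0, 9, 13], [6, 18, 1, 23, 23, 18, 14], [20, 23, 12, 10, 10, 12, 15], [4, 2, 20, 25, 19, 12, 16], [15, 2, 11, 21, 6, 6, 17], [20, 21, 9, 4, 3, 8, 18], [0, 6, 22, 25, 24, 22, 19], [18, 19, 3, 19, 17, 11, 20], [20, 10, 17, 9, 0, 10, 21], [13, 9, 10, 19, 17, 1, 22], [0, 3, 8, 2, 16, 4, 23], [15, 7, 9, 4, 25, 19, 24], [8, 7, 15, 23, 8, 14, 25], [18, 8, 12, 12, 2, 1, 12, 26]]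
    [[(21, 5), (23, 1)], [(8, 1), (14, 3)], [(17, 2), (26, 5)], [(20, 3), (23, 2)], [(16, 1), (24, 4)], [], [(14, 1), (19, 2)], [(24, 2), (25, 2)], [(26, 2)], [(22, 2), (24, 3)], [(21, 2), (22, 3)], [(10, 2), (17, 3)], [], [(22, 1)], [(7, 2), (11, 2)], [(24, 1), (25, 3)], [(13, 1), (23, 5)], [(3, 2), (21, 3)], [(26, 1)], [(16, 5), (22, 4)], [(21, 1)], [(17, 4), (18, 2)], [], [(15, 2)], [(11, 3), (13, 2)], [(4, 2), (19, 4)]]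
    (by decide +kernel)

theorem sd_27_28_197_19 : KQ K 28 28 197 19 1 :=
  lab_kq
    [[23, 6, 1, 7, 11, 5, 0], [5, 17, 14, 27, 10, 17, 1], [23, 11, 20, 1, 24, 21, 2], [4, 8, 0, 10, 21, 15, 3], [15, 6, 16, 2, 8, 10, 4], [22, 15, 21, 8, 16, 27, 5], [24, 8, 20, 23, 26, 11, 6], [10, 0, 27, 12, 24, 19, 7], [3, 6, 17, 17, 19, 14, 8], [1, 22, 13, 4, 24, 15, 9], [15, 16, 18, 2, 19, 1, 10], [14, 5, 24, 15, 19, 23, 11], [11, 13, 27, 4, 16, 20, 12], [12, 20, 27, 4, 10, 3, 13], [19, 26, 3, 9, 7, 26, 14], [13, 22, 6, 8, 14, 10, 15], [23, 0, 8, 11, 9, 17, 16], [18, 10, 3, 22, 26, 22, 17], [14, 9, 1, 14, 5, 26, 18], [2, 17, 12, 13, 27, 26, 19], [9, 21, 4, 11, 25, 4, 20], [18, 19, 16, 1, 18, 7, 21], [7, 2, 18, 20, 3, 13, 22], [26, 3, 26, 7, 10, 22, 23], [12, 2, 21, 5, 12, 1, 24], [7, 9, 20, 27, 19, 11, 19, 25], [24, 5,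 0, 13, 17, 22, 26], [21, 16, 0, 6, 4, 17, 27]]
    [[(26, 3), (27, 3)], [(9, 1), (21, 4)], [(19, 1)], [(22, 5), (23, 2)], [(3, 1)], [(24, 4), (26, 2)], [(15, 3), (27, 4)], [(25, 1)], [(15, 4), (16, 3)], [(25, 2)], [(7, 1), (17, 2)], [(12, 1), (25, 6)], [(24, 1)], [(15, 1), (26, 4)], [(11, 1)], [(10, 1), (11, 4)], [(21, 3), (27, 2)], [(19, 2)], [(22, 3)], [(14, 1), (25, 5)], [(22, 4), (25, 3)], [(24, 3), (27, 1)], [(5, 1)], [(16, 1)], [(11, 3), (26, 1)], [], [(17, 5)], [(13, 3), (25, 4)]]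
    (by decide +kernel)

theorem sd_31_32_257_22 : KQ K 32 32 257 22 1 :=
  lab_kq
    [[9, 16, 11, 17, 12, 11, 25, 0], [14, 29, 30, 26, 27, 27, 8, 1], [19, 16, 15, 15, 30, 3, 20, 2], [5, 11, 28, 5, 11, 31, 13, 3], [25, 22, 24, 24, 30, 23, 19, 4], [12, 6, 30, 14, 31, 18, 6, 5], [25, 29, 16, 31, 20, 10, 7, 6], [31, 4, 9, 26, 21, 3, 0, 7], [18, 17, 4, 28, 16, 31, 25, 8], [6, 28, 16, 31, 12, 25, 4, 9], [18, 2, 9, 9, 9, 22, 20, 10], [29, 20, 15, 3, 8, 14, 20, 11], [3, 0, 2, 10, 5, 4, 7, 12], [6, 7, 8, 7, 5, 21, 7, 13], [31, 13, 26, 23, 18, 4, 3, 14], [30, 30, 17, 25, 1, 16, 27, 15], [7, 19, 10, 1, 8, 2, 6, 16], [21, 13, 14, 0, 12, 22, 27, 17], [3, 24, 21, 21, 20, 25, 3, 18], [2, 11, 24, 3, 20, 18, 10, 19], [8, 2, 29, 8, 12, 24, 10, 20], [27, 6, 17, 5, 24, 17, 2, 21], [4, 18, 27, 19, 10, 25, 20, 22], [15, 27, 22,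 4, 0, 25, 16, 4, 23], [0, 13, 22, 1, 27, 14, 18, 24], [26, 1, 22, 24, 20, 8, 10, 25], [15, 19, 14, 9, 22, 7, 18, 26], [0, 28, 5, 20, 21, 26, 6, 27], [11, 13, 29, 13, 5, 20, 9, 28], [17, 10, 21, 1, 12, 2, 3, 29], [12, 10, 28, 8, 19, 19, 7, 30], [26, 7, 1, 14, 28, 1, 1, 31]]
    [[(24, 1), (27, 1)], [(25, 2), (31, 3)], [(19, 1), (20, 2)], [(12, 1), (18, 1)], [(8, 3), (22, 1)], [(27, 3), (28, 5)], [(13, 1), (21, 2)], [(16, 1)], [(13, 3), (30, 4)], [(26, 4)], [(22, 5), (29, 2), (30, 2)], [(28, 1)], [(5, 1), (30, 1)], [(24, 2)], [(1, 1), (26, 3)], [(26, 1)], [(0, 2), (2, 2)], [(21, 3), (29, 1)], [(10, 1), (22, 2)], [(22, 4), (26, 2)], [(18, 5), (19, 5), (25, 5), (27, 4)], [(17, 1)], [(4, 2), (23, 3)], [], [(21, 5), (25, 4)], [(4, 1), (6, 1)], [(25, 1), (31, 1)], [(23, 2), (24, 5)], [(27, 2), (30, 3)], [(20, 3),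 (28, 3)], [(5, 3)], [(7, 1), (14, 1)]]
    (by decide +kernel)

end Pool.Agent.WarR
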