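import Pool.Agent.WarR.SeedT

/-!
# Seeds of degree two: star limits with plane transfers (MP_db021c_ag)   (helper31)

Data found by a search; every form is certified by an inverse matrix modulo 2 (`SeedD.form`).
-/

set_option autoImplicit false
set_option maxRecDepth 100000

namespace Pool.Agent.WarR

namespace T_5_5_9_3

def S : SeedD where
  m := 6
  b := 5
  x := 9
  y := 3
  rI := [[0], [1], [2], [3], [4], [5], [6], [7], [8]]
  rJ := [[9], [10], [11]]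
  g := [0, 0, 1, 1, 2, 2, 3, 3, 4]
  lab := [4, 0, 4, 1, 4, 2, 4, 3, 4]
  ord := [0, 1, 0, 1, 0, 1, 0, 1, 0]
  tr := []

def C0 : List ℕ := [1, 2, 20, 32, 36, 12, 16, 4, 40, 48, 8, 24]

def E0 : List (ℕ × ℕ × ℕ) := [(0, 0, 0), (2, 0, 1), (2, 0, 2), (2, 0, 3), (2, 0, 4), (2, 0, 5),
  (0, 1, 0), (2, 1, 2), (2, 1, 3), (2, 1, 4), (2, 1, 5), (0, 2, 0), (0, 3, 0), (0, 4, 0), (0, 5,
  0), (0, 6, 0), (0, 7, 0), (0, 8, 0), (1, 0, 0), (1, 1, 0), (1, 2, 0)]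

def T0 : List (List ℕ) := [[1, 2, 4, 8, 16, 32], [64, 128, 256, 512, 1024], [65536, 606208,
  100352, 77824], [524288, 1605632, 659456], [32768, 299008], [4096]]

theorem f0 : S.form 0 C0 E0 T0 0 = true := by decide +kernel

def C1 : List ℕ := [48, 40, 1, 2, 16, 20, 24, 32, 12, 4, 36, 8]

def E1 : List (ℕ × ℕ × ℕ) := [(0, 2, 0), (2, 2, 1), (2, 2, 2), (2, 2, 3), (2, 2, 4), (2, 2, 5),
  (0, 3, 0), (2, 3, 2), (2, 3, 3), (2, 3, 4), (2, 3, 5), (0, 0, 0), (0, 1, 0), (0, 4, 0), (0, 5,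
  0), (0, 6, 0), (0, 7, 0), (0, 8, 0), (1, 0, 0), (1, 1, 0), (1, 2, 0)]

def T1 : List (List ℕ) := [[1, 2, 4, 8, 16, 32], [64, 128, 256, 512, 1024], [262144, 1441792,
  286720, 851968], [1048576, 1089536, 1118208], [8192, 75776], [65536]]

theorem f1 : S.form 1 C1 E1 T1 0 = true := by decide +kernel

def C2 : List ℕ := [36, 12, 16, 48, 1, 2, 32, 24, 20, 8, 4, 40]

def E2 : List (ℕ × ℕ × ℕ) := [(0, 4, 0), (2, 4, 1), (2, 4, 2), (2, 4, 3), (2, 4, 4), (2, 4, 5),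
  (0, 5, 0), (2, 5, 2), (2, 5, 3), (2, 5, 4), (2, 5, 5), (0, 0, 0), (0, 1, 0), (0, 2, 0), (0, 3,
  0), (0, 6, 0), (0, 7, 0), (0, 8, 0), (1, 0, 0), (1, 1, 0), (1, 2, 0)]

def T2 : List (List ℕ) := [[1, 2, 4, 8, 16, 32], [64, 128, 256, 512, 1024], [524288, 790528,
  663552, 559104], [262144, 335872, 1343488], [8192, 57344], [32768]]

theorem f2 : S.form 2 C2 E2 T2 0 = true := by decide +kernel

def C3 : List ℕ := [24, 36, 8, 20, 32, 16, 1, 2, 40, 12, 48, 4]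

def E3 : List (ℕ × ℕ × ℕ) := [(0, 6, 0), (2, 6, 1), (2, 6, 2), (2, 6, 3), (2, 6, 4), (2, 6, 5),
  (0, 7, 0), (2, 7, 2), (2, 7, 3), (2, 7, 4), (2, 7, 5), (0, 0, 0), (0, 1, 0), (0, 2, 0), (0, 3,
  0), (0, 4, 0), (0, 5, 0), (0, 8, 0), (1, 0, 0), (1, 1, 0), (1, 2, 0)]

def T3 : List (List ℕ) := [[1, 2, 4, 8, 16, 32], [64, 128, 256, 512, 1024], [1048576, 1318912,
  1130496, 1085440], [8192, 75776, 172032], [65536, 622592], [32768]]

theorem f3 : S.form 3 C3 E3 T3 0 = true := by decide +kernel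

def C4 : List ℕ := [48, 8, 60, 6, 16, 2, 40, 4, 1, 34, 32, 36]

def E4 : List (ℕ × ℕ × ℕ) := [(0, 8, 0), (2, 8, 1), (2, 8, 2), (2, 8, 3), (2, 8, 4), (2, 8, 5),
  (0, 0, 0), (0, 1, 0), (0, 2, 0), (0, 3, 0), (0, 4, 0), (0, 5, 0), (0, 6, 0), (0, 7, 0), (1, 0,
  0), (1, 1, 0), (1, 2, 0), (3, 0, 1), (3, 2, 3), (3, 4, 5), (3, 6, 7)]

def T4 : List (List ℕ) := [[1, 2, 4, 8, 16, 32], [2048, 10752, 967616, 524288, 51200], [8192,
  1155072, 1188288, 106496], [128, 168064, 36992], [1024, 33856], [32768]]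

theorem f4 : S.form 4 C4 E4 T4 0 = true := by decide +kernel

theorem _root_.Pool.Agent.WarR.sd_5_5_9_3 {K : Type*} [Field K] [CharZero K] : KQ K 6 5 9 3 0 := by
  refine SeedD.main S (by decide +kernel) (fun k => ([0, 0, 0, 0, 0] : List ℕ).getD k 0) 0 ?_
    (by decide +kernel)
  intro k hk
  have hk' : k < 5 := hk
  interval_cases k
  · exact ⟨C0, E0, T0, f0⟩
  · exact ⟨C1, E1, T1, f1⟩
  · exact ⟨C2, E2, T2, f2⟩
  · exact ⟨C3, E3, T3, f3⟩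
  · exact ⟨C4, E4, T4, f4⟩

end T_5_5_9_3

namespace T_5_6_11_1

def S : SeedD where
  m := 6
  b := 6
  x := 11
  y := 1
  rI := [[0], [1], [2], [3], [4], [5], [6], [7], [8], [9], [10]]
  rJ := [[11]]
  g := [0, 0, 1, 1, 2, 2, 3, 3, 4, 4, 5]
  lab := [5, 0, 5, 1, 0, 2, 5, 3, 5, 4, 5]
  ord := [0, 1, 0, 1, 0, 1, 0, 1, 0, 1, 0]
  tr := []

def C0 : List ℕ := [1, 2, 32, 48, 16, 4, 12, 40, 36, 8, 24, 16]

def E0 : List (ℕ × ℕ × ℕ) := [(0, 0, 0), (2, 0, 1), (2, 0, 2), (2, 0, 3), (2, 0, 4), (2, 0, 5),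
  (0, 1, 0), (2, 1, 2), (2, 1, 3), (2, 1, 4), (2, 1, 5), (0, 2, 0), (0, 3, 0), (0, 4, 0), (0, 5,
  0), (0, 6, 0), (0, 7, 0), (0, 8, 0), (0, 9, 0), (0, 10, 0), (3, 4, 5)]

def T0 : List (List ℕ) := [[1, 2, 4, 8, 16, 32], [64, 128, 256, 512, 1024], [16384, 311296,
  1048576, 149504], [262144, 794624, 329728], [8192, 14336], [2048]]

theorem f0 : S.form 0 C0 E0 T0 0 = true := by decide +kernel

def C1 : List ℕ := [48, 40, 1, 2, 36, 20, 4, 8, 16, 32, 12, 24]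

def E1 : List (ℕ × ℕ × ℕ) := [(0, 2, 0), (2, 2, 1), (2, 2, 2), (2, 2, 3), (2, 2, 4), (2, 2, 5),
  (0, 3, 0), (2, 3, 2), (2, 3, 3), (2, 3, 4), (2, 3, 5), (0, 0, 0), (0, 1, 0), (0, 4, 0), (0, 5,
  0), (0, 6, 0), (0, 7, 0), (0, 8, 0), (0, 9, 0), (0, 10, 0), (1, 0, 0)]

def T1 : List (List ℕ) := [[1, 2, 4, 8, 16, 32], [64, 128, 256, 512, 1024], [32768, 622592,
  180224, 303104], [65536, 1245184, 331776], [131072, 395264], [262144]]

theorem f1 : S.form 1 C1 E1 T1 0 = true := by decide +kernel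

def C2 : List ℕ := [12, 48, 24, 4, 1, 2, 36, 40, 16, 32, 20, 8]

def E2 : List (ℕ × ℕ × ℕ) := [(0, 4, 0), (2, 4, 1), (2, 4, 2), (2, 4, 3), (2, 4, 4), (2, 4, 5),
  (0, 5, 0), (2, 5, 2), (2, 5, 3), (2, 5, 4), (2, 5, 5), (0, 0, 0), (0, 1, 0), (0, 2, 0), (0, 3,
  0), (0, 6, 0), (0, 7, 0), (0, 8, 0), (0, 9, 0), (0, 10, 0), (1, 0, 0)]

def T2 : List (List ℕ) := [[1, 2, 4, 8, 16, 32], [64, 128, 256, 512, 1024], [16384, 1067008,
  671744, 311296], [1048576, 1187840, 1376256], [131072, 397312], [262144]]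

theorem f2 : S.form 2 C2 E2 T2 0 = true := by decide +kernel

def C3 : List ℕ := [48, 24, 8, 16, 40, 20, 1, 2, 32, 36, 4, 12]

def E3 : List (ℕ × ℕ × ℕ) := [(0, 6, 0), (2, 6, 1), (2, 6, 2), (2, 6, 3), (2, 6, 4), (2, 6, 5),
  (0, 7, 0), (2, 7, 2), (2, 7, 3), (2, 7, 4), (2, 7, 5), (0, 0, 0), (0, 1, 0), (0, 2, 0), (0, 3,
  0), (0, 4, 0), (0, 5, 0), (0, 8, 0), (0, 9, 0), (0, 10, 0), (1, 0, 0)]

def T3 : List (List ℕ) := [[1, 2, 4, 8, 16, 32], [64, 128, 256, 512, 1024], [524288, 1581056,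
  606208, 917504], [8192, 28672, 172032], [16384, 149504], [131072]]

theorem f3 : S.form 3 C3 E3 T3 0 = true := by decide +kernel

def C4 : List ℕ := [8, 20, 40, 24, 36, 16, 32, 4, 1, 2, 12, 48]

def E4 : List (ℕ × ℕ × ℕ) := [(0, 8, 0), (2, 8, 1), (2, 8, 2), (2, 8, 3), (2, 8, 4), (2, 8, 5),
  (0, 9, 0), (2, 9, 2), (2, 9, 3), (2, 9, 4), (2, 9, 5), (0, 0, 0), (0, 1, 0), (0, 2, 0), (0, 3,
  0), (0, 4, 0), (0, 5, 0), (0, 6, 0), (0, 7, 0), (0, 10, 0), (1, 0, 0)]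

def T4 : List (List ℕ) := [[1, 2, 4, 8, 16, 32], [64, 128, 256, 512, 1024], [262144, 788480,
  331776, 425984], [2048, 83968, 141312], [65536, 1245184], [131072]]

theorem f4 : S.form 4 C4 E4 T4 0 = true := by decide +kernel

def C5 : List ℕ := [2, 44, 49, 6, 34, 18, 20, 30, 32, 40, 1, 16]

def E5 : List (ℕ × ℕ × ℕ) := [(0, 10, 0), (2, 10, 1), (2, 10, 2), (2, 10, 3), (2, 10, 4), (2, 10,
  5), (0, 0, 0), (0, 1, 0), (0, 2, 0), (0, 3, 0), (0, 4, 0), (0, 5, 0), (0, 6, 0), (0, 7, 0), (0,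
  8, 0), (0, 9, 0), (1, 0, 0), (3, 0, 1), (3, 2, 3), (3, 6, 7), (3, 8, 9)]

def T5 : List (List ℕ) := [[1, 2, 4, 8, 16, 32], [64, 1750016, 1634368, 67648, 17472], [1750592,
  318598, 1812032, 2026054], [1097728, 1532102, 1048576], [65536, 82225], [16384]]

theorem f5 : S.form 5 C5 E5 T5 0 = true := by decide +kernel

theorem _root_.Pool.Agent.WarR.sd_5_6_11_1 {K : Type*} [Field K] [CharZero K] : KQ K 6 6 11 1 0 := by
  refine SeedD.main S (by decide +kernel) (fun k => ([0, 0, 0, 0, 0, 0] : List ℕ).getD k 0) 0 ?_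
    (by decide +kernel)
  intro k hk
  have hk' : k < 6 := hk
  interval_cases k
  · exact ⟨C0, E0, T0, f0⟩
  · exact ⟨C1, E1, T1, f1⟩
  · exact ⟨C2, E2, T2, f2⟩
  · exact ⟨C3, E3, T3, f3⟩
  · exact ⟨C4, E4, T4, f4⟩
  · exact ⟨C5, E5, T5, f5⟩

end T_5_6_11_1

namespace T_6_5_11_4

def S : SeedD where
  m := 7
  b := 5
  x := 11
  y := 4
  rI := [[0], [1], [2], [3], [4], [5], [6], [7], [8], [9], [10]]
  rJ := [[11], [13, 1, 2], [12], [13]]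
  g := [0, 0, 0, 1, 1, 2, 2, 3, 3, 4, 4]
  lab := [1, 3, 0, 4, 1, 4, 2, 2, 3, 2, 4]
  ord := [0, 1, 2, 0, 1, 0, 1, 0, 1, 0, 1]
  tr := [(1, 2, 14, 12)]

def C0 : List ℕ := [1, 2, 4, 72, 80, 96, 32, 24, 48, 16, 40, 64, 16, 8]

def E0 : List (ℕ × ℕ × ℕ) := [(0, 0, 0), (2, 0, 1), (2, 0, 2), (2, 0, 3), (2, 0, 4), (2, 0, 5),
  (2, 0, 6), (0, 1, 0), (2, 1, 2), (2, 1, 3), (2, 1, 4), (2, 1, 5), (2, 1, 6), (0, 2, 0), (2, 2,
  3), (2, 2, 4), (2, 2, 5), (2, 2, 6), (0, 3, 0), (0, 4, 0), (0, 5, 0), (0, 6, 0), (0, 7, 0), (0,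
  8, 0), (0, 9, 0), (0, 10, 0), (1, 0, 0), (1, 1, 0)]

def T0 : List (List ℕ) := [[1, 2, 4, 8, 16, 32, 64], [128, 256, 512, 1024, 2048, 4096], [8192,
  16384, 32768, 65536, 131072], [134243200, 155214720, 169894784, 201614208], [16777216, 27262976,
  84410368], [2097152, 70254592], [67108864]]

theorem f0 : S.form 0 C0 E0 T0 0 = true := by decide +kernel

def C1 : List ℕ := [4, 32, 64, 1, 2, 24, 96, 40, 80, 20, 16, 48, 12, 8]

def E1 : List (ℕ × ℕ × ℕ) := [(0, 3, 0), (2, 3, 1), (2, 3, 2), (2, 3, 3), (2, 3, 4), (2, 3, 5),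
  (2, 3, 6), (0, 4, 0), (2, 4, 2), (2, 4, 3), (2, 4, 4), (2, 4, 5), (2, 4, 6), (0, 0, 0), (0, 1,
  0), (0, 2, 0), (0, 5, 0), (0, 6, 0), (0, 7, 0), (0, 8, 0), (0, 9, 0), (0, 10, 0), (1, 0, 0), (1,
  1, 0), (1, 2, 0), (1, 3, 0), (3, 0, 1), (3, 0, 2)]

def T1 : List (List ℕ) := [[1, 2, 4, 8, 16, 32, 64], [128, 256, 512, 1024, 2048, 4096], [8192,
  50339840, 3153920, 67108864, 134217728], [33554432, 35717120, 33832960, 8798208], [2097152,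
  6307840, 2654208], [16384, 180224], [32768]]

theorem f1 : S.form 1 C1 E1 T1 0 = true := by decide +kernel

def C2 : List ℕ := [40, 8, 24, 96, 64, 1, 2, 76, 16, 80, 4, 72, 36, 32]

def E2 : List (ℕ × ℕ × ℕ) := [(0, 5, 0), (2, 5, 1), (2, 5, 2), (2, 5, 3), (2, 5, 4), (2, 5, 5),
  (2, 5, 6), (0, 6, 0), (2, 6, 2), (2, 6, 3), (2, 6, 4), (2, 6, 5), (2, 6, 6), (0, 0, 0), (0, 1,
  0), (0, 2, 0), (0, 3, 0), (0, 4, 0), (0, 7, 0), (0, 8, 0), (0, 9, 0), (0, 10, 0), (1, 0, 0), (1,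
  1, 0), (1, 2, 0), (1, 3, 0), (3, 7, 8), (3, 9, 10)]

def T2 : List (List ℕ) := [[1, 2, 4, 8, 16, 32, 64], [128, 256, 512, 1024, 2048, 4096], [2097152,
  209108992, 68337664, 52428800, 202555392], [16384, 573440, 33579008, 4341760], [524288,
  42467328, 1703936], [33554432, 33751040], [131072]]

theorem f2 : S.form 2 C2 E2 T2 0 = true := by decide +kernel

def C3 : List ℕ := [32, 64, 4, 40, 24, 72, 48, 1, 2, 36, 8, 12, 96, 16]

def E3 : List (ℕ × ℕ × ℕ) := [(0, 7, 0), (2, 7, 1), (2, 7, 2), (2, 7, 3), (2, 7, 4), (2, 7, 5),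
  (2, 7, 6), (0, 8, 0), (2, 8, 2), (2, 8, 3), (2, 8, 4), (2, 8, 5), (2, 8, 6), (0, 0, 0), (0, 1,
  0), (0, 2, 0), (0, 3, 0), (0, 4, 0), (0, 5, 0), (0, 6, 0), (0, 9, 0), (0, 10, 0), (1, 0, 0), (1,
  1, 0), (1, 2, 0), (1, 3, 0), (3, 1, 2), (4, 0, 0)]

def T3 : List (List ℕ) := [[1, 2, 4, 8, 16, 32, 64], [128, 256, 512, 1024, 2048, 4096], [32768,
  6324224, 243318784, 1089536, 67108864], [2097152, 35782656, 2170880, 2375680], [33554432,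
  34086912, 134217728], [8192, 16801792], [16384]]

theorem f3 : S.form 3 C3 E3 T3 0 = true := by decide +kernel

def C4 : List ℕ := [24, 43, 80, 6, 22, 36, 96, 32, 72, 1, 2, 64, 8, 13]

def E4 : List (ℕ × ℕ × ℕ) := [(0, 9, 0), (2, 9, 1), (2, 9, 2), (2, 9, 3), (2, 9, 4), (2, 9, 5),
  (2, 9, 6), (0, 10, 0), (2, 10, 2), (2, 10, 3), (2, 10, 4), (2, 10, 5), (2, 10, 6), (0, 0, 0),
  (0, 1, 0), (0, 2, 0), (0, 3, 0), (0, 4, 0), (0, 5, 0), (0, 6, 0), (0, 7, 0), (0, 8, 0), (1, 0,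
  0), (1, 1, 0), (1, 2, 0), (1, 3, 0), (3, 3, 4), (3, 5, 6)]

def T4 : List (List ℕ) := [[1, 2, 4, 8, 16, 32, 64], [128, 256, 512, 1024, 2048, 4096], [65920,
  50397581, 67109888, 1376640, 139264384], [16777216, 84090880, 17844907, 23068672], [67305472,
  210868224, 71532544], [1048576, 5767168], [4194304]]

theorem f4 : S.form 4 C4 E4 T4 0 = true := by decide +kernel

theorem _root_.Pool.Agent.WarR.sd_6_5_11_4 {K : Type*} [Field K] [CharZero K] : KQ K 7 5 11 4 0 := by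
  refine SeedD.main S (by decide +kernel) (fun k => ([0, 0, 0, 0, 0] : List ℕ).getD k 0) 0 ?_
    (by decide +kernel)
  intro k hk
  have hk' : k < 5 := hk
  interval_cases k
  · exact ⟨C0, E0, T0, f0⟩
  · exact ⟨C1, E1, T1, f1⟩
  · exact ⟨C2, E2, T2, f2⟩
  · exact ⟨C3, E3, T3, f3⟩
  · exact ⟨C4, E4, T4, f4⟩

end T_6_5_11_4

namespace T_6_6_13_2

def S : SeedD where
  m := 7
  b := 6
  x := 13
  y := 2
  rI := [[0], [1], [2], [3], [4], [5], [8, 0, 1], [6], [7], [6, 4, 5], [8], [9], [10]]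
  rJ := [[9, 4, 5], [7, 1, 2]]
  g := [0, 0, 0, 1, 1, 1, 2, 2, 3, 3, 4, 4, 5]
  lab := [5, 2, 0, 4, 5, 1, 3, 2, 5, 3, 3, 4, 5]
  ord := [0, 1, 2, 0, 1, 2, 0, 1, 0, 1, 0, 1, 0]
  tr := [(0, 1, 10, 6), (1, 2, 8, 14), (4, 5, 11, 13), (4, 5, 7, 9)]

def C0 : List ℕ := [1, 2, 4, 80, 64, 16, 48, 40, 32, 8, 72]

def E0 : List (ℕ × ℕ × ℕ) := [(0, 0, 0), (2, 0, 1), (2, 0, 2), (2, 0, 3), (2, 0, 4), (2, 0, 5),
  (2, 0, 6), (0, 1, 0), (2, 1, 2), (2, 1, 3), (2, 1, 4), (2, 1, 5), (2, 1, 6), (0, 2, 0), (2, 2,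
  3), (2, 2, 4), (2, 2, 5), (2, 2, 6), (0, 3, 0), (0, 4, 0), (0, 5, 0), (0, 6, 0), (0, 7, 0), (0,
  8, 0), (0, 9, 0), (0, 11, 0), (0, 12, 0), (1, 0, 0)]

def T0 : List (List ℕ) := [[1, 2, 4, 8, 16, 32, 64], [128, 256, 512, 1024, 2048, 4096], [8192,
  16384, 32768, 65536, 131072], [33554432, 202113024, 44042403, 101187584], [1048576, 7342243,
  1835008], [2099363, 19400867], [524288]]

theorem f0 : S.form 0 C0 E0 T0 0 = true := by decide +kernel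

def C1 : List ℕ := [27, 15, 56, 1, 2, 4, 44, 66, 52, 72, 96]

def E1 : List (ℕ × ℕ × ℕ) := [(0, 3, 0), (2, 3, 1), (2, 3, 2), (2, 3, 3), (2, 3, 4), (2, 3, 5),
  (2, 3, 6), (0, 4, 0), (2, 4, 2), (2, 4, 3), (2, 4, 4), (2, 4, 5), (2, 4, 6), (0, 5, 0), (2, 5,
  3), (2, 5, 4), (2, 5, 5), (2, 5, 6), (0, 0, 0), (0, 1, 0), (0, 2, 0), (0, 6, 0), (0, 7, 0), (0,
  8, 0), (0, 10, 0), (0, 11, 0), (0, 12, 0), (1, 1, 0)]

def T1 : List (List ℕ) := [[1, 2, 4, 8, 16, 32, 64], [128, 256, 512, 1024, 2048, 4096], [8192,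
  16384, 32768, 65536, 131072], [549775, 24166400, 6882191, 42496783], [24945940, 6096148,
  220332149], [2097152, 77598848], [8392832]]

theorem f1 : S.form 1 C1 E1 T1 0 = true := by decide +kernel

def C2 : List ℕ := [51, 44, 64, 68, 12, 20, 2, 16, 30, 96, 4]

def E2 : List (ℕ × ℕ × ℕ) := [(0, 6, 0), (2, 6, 1), (2, 6, 2), (2, 6, 3), (2, 6, 4), (2, 6, 5),
  (2, 6, 6), (0, 7, 0), (2, 7, 2), (2, 7, 3), (2, 7, 4), (2, 7, 5), (2, 7, 6), (0, 0, 0), (0, 1,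
  0), (0, 2, 0), (0, 3, 0), (0, 4, 0), (0, 5, 0), (0, 8, 0), (0, 9, 0), (0, 10, 0), (0, 11, 0),
  (0, 12, 0), (1, 0, 0), (1, 1, 0), (3, 1, 2), (4, 1, 0)]

def T2 : List (List ℕ) := [[1, 2, 4, 8, 16, 32, 64], [128, 256, 512, 1024, 2048, 4096], [8388608,
  3932416, 9175040, 61964544, 8486912], [12452096, 10880896, 194112051, 216214323], [524288,
  136972160, 235454464], [136457011, 140684083], [32768]]

theorem f2 : S.form 2 C2 E2 T2 0 = true := by decide +kernel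

def C3 : List ℕ := [36, 64, 24, 48, 32, 8, 42, 1, 16, 4, 96]

def E3 : List (ℕ × ℕ × ℕ) := [(0, 8, 0), (2, 8, 1), (2, 8, 2), (2, 8, 3), (2, 8, 4), (2, 8, 5),
  (2, 8, 6), (0, 9, 0), (2, 9, 2), (2, 9, 3), (2, 9, 4), (2, 9, 5), (2, 9, 6), (0, 0, 0), (0, 1,
  0), (0, 2, 0), (0, 3, 0), (0, 4, 0), (0, 5, 0), (0, 6, 0), (0, 7, 0), (0, 10, 0), (0, 11, 0),
  (0, 12, 0), (1, 0, 0), (1, 1, 0), (3, 6, 7), (3, 10, 11)]

def T3 : List (List ℕ) := [[1, 2, 4, 8, 16, 32, 64], [128, 256, 512, 1024, 2048, 4096], [4194304,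
  17967744, 134217728, 4333568, 256523609], [262144, 2392064, 1444480, 96722176], [2097152,
  2293760, 130227545], [131072, 8536064], [16384]]

theorem f3 : S.form 3 C3 E3 T3 0 = true := by decide +kernel

def C4 : List ℕ := [102, 18, 96, 32, 5, 108, 24, 40, 1, 2, 8]

def E4 : List (ℕ × ℕ × ℕ) := [(0, 10, 0), (2, 10, 1), (2, 10, 2), (2, 10, 3), (2, 10, 4), (2, 10,
  5), (2, 10, 6), (0, 11, 0), (2, 11, 2), (2, 11, 3), (2, 11, 4), (2, 11, 5), (2, 11, 6), (0, 0,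
  0), (0, 1, 0), (0, 2, 0), (0, 3, 0), (0, 4, 0), (0, 5, 0), (0, 6, 0), (0, 7, 0), (0, 8, 0), (0,
  9, 0), (0, 12, 0), (1, 0, 0), (1, 1, 0), (3, 3, 4), (3, 3, 5)]

def T4 : List (List ℕ) := [[1, 2, 4, 8, 16, 32, 64], [128, 256, 512, 1024, 2048, 4096], [131077,
  17081195, 4766084, 67108896, 67287461], [8388608, 9454720, 10551296, 18979563], [17536,
  265406650, 261164107], [65536, 211877920], [211845152]]

theorem f4 : S.form 4 C4 E4 T4 0 = true := by decide +kernel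

def C5 : List ℕ := [96, 26, 36, 40, 75, 23, 16, 4, 67, 32, 1]

def E5 : List (ℕ × ℕ × ℕ) := [(0, 12, 0), (2, 12, 1), (2, 12, 2), (2, 12, 3), (2, 12, 4), (2, 12,
  5), (2, 12, 6), (0, 0, 0), (0, 1, 0), (0, 2, 0), (0, 3, 0), (0, 4, 0), (0, 5, 0), (0, 6, 0), (0,
  7, 0), (0, 8, 0), (0, 9, 0), (0, 10, 0), (0, 11, 0), (1, 0, 0), (1, 1, 0), (3, 0, 1), (3, 0, 2),
  (3, 4, 5), (3, 8, 9), (4, 0, 0), (4, 2, 0), (4, 3, 0)]

def T5 : List (List ℕ) := [[1, 2, 4, 8, 16, 32, 64], [178967416, 36395903, 154648659, 186769609,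
  145544155, 43817824], [32768, 158649051, 60864729, 295424, 141871835], [77111072, 203697602,
  77372192, 229463931], [16384, 203704827, 252038427], [262144, 137382107], [137644123]]

theorem f5 : S.form 5 C5 E5 T5 0 = true := by decide +kernel

theorem _root_.Pool.Agent.WarR.sd_6_6_13_2 {K : Type*} [Field K] [CharZero K] : KQ K 7 6 13 2 0 := by
  refine SeedD.main S (by decide +kernel) (fun k => ([0, 0, 0, 0, 0, 0] : List ℕ).getD k 0) 0 ?_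
    (by decide +kernel)
  intro k hk
  have hk' : k < 6 := hk
  interval_cases k
  · exact ⟨C0, E0, T0, f0⟩
  · exact ⟨C1, E1, T1, f1⟩
  · exact ⟨C2, E2, T2, f2⟩
  · exact ⟨C3, E3, T3, f3⟩
  · exact ⟨C4, E4, T4, f4⟩
  · exact ⟨C5, E5, T5, f5⟩

end T_6_6_13_2

namespace T_6_7_13_4

def S : SeedD where
  m := 7
  b := 7
  x := 13
  y := 4
  rI := [[0], [1], [2], [3], [4], [5], [6], [7], [8], [9], [10], [11], [12]]
  rJ := [[13], [14], [15], [16]]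
  g := [0, 0, 1, 1, 2, 2, 3, 3, 4, 4, 5, 5, 6]
  lab := [6, 0, 6, 1, 0, 2, 6, 3, 6, 4, 6, 5, 6]
  ord := [0, 1, 0, 1, 0, 1, 0, 1, 0, 1, 0, 1, 0]
  tr := []

def C0 : List ℕ := [1, 2, 96, 64, 4, 8, 68, 24, 80, 36, 20, 32, 40, 48, 72, 16, 16]

def E0 : List (ℕ × ℕ × ℕ) := [(0, 0, 0), (2, 0, 1), (2, 0, 2), (2, 0, 3), (2, 0, 4), (2, 0, 5),
  (2, 0, 6), (0, 1, 0), (2, 1, 2), (2, 1, 3), (2, 1, 4), (2, 1, 5), (2, 1, 6), (0, 2, 0), (0, 3,
  0), (0, 4, 0), (0, 5, 0), (0, 6, 0), (0, 7, 0), (0, 8, 0), (0, 9, 0), (0, 10, 0), (0, 11, 0),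
  (0, 12, 0), (1, 0, 0), (1, 1, 0), (1, 2, 0), (3, 4, 5)]

def T0 : List (List ℕ) := [[1, 2, 4, 8, 16, 32, 64], [128, 256, 512, 1024, 2048, 4096], [32768,
  134217728, 69238784, 5275648, 180224], [65536, 67436544, 12648448, 33636352], [67108864,
  88080384, 67649536], [4194304, 4218880], [16384]]

theorem f0 : S.form 0 C0 E0 T0 0 = true := by decide +kernel

def C1 : List ℕ := [40, 16, 1, 2, 8, 20, 80, 72, 64, 68, 36, 12, 4, 96, 24, 32, 48]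

def E1 : List (ℕ × ℕ × ℕ) := [(0, 2, 0), (2, 2, 1), (2, 2, 2), (2, 2, 3), (2, 2, 4), (2, 2, 5),
  (2, 2, 6), (0, 3, 0), (2, 3, 2), (2, 3, 3), (2, 3, 4), (2, 3, 5), (2, 3, 6), (0, 0, 0), (0, 1,
  0), (0, 4, 0), (0, 5, 0), (0, 6, 0), (0, 7, 0), (0, 8, 0), (0, 9, 0), (0, 10, 0), (0, 11, 0),
  (0, 12, 0), (1, 0, 0), (1, 1, 0), (1, 2, 0), (1, 3, 0)]

def T1 : List (List ℕ) := [[1, 2, 4, 8, 16, 32, 64], [128, 256, 512, 1024, 2048, 4096], [8388608,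
  12615680, 8470528, 77594624, 9961472], [32768, 33603584, 67149824, 819200], [16384, 201342976,
  671744], [67108864, 84410368], [524288]]

theorem f1 : S.form 1 C1 E1 T1 0 = true := by decide +kernel

def C2 : List ℕ := [16, 64, 24, 8, 1, 2, 20, 36, 68, 32, 96, 80, 40, 72, 4, 48, 12]

def E2 : List (ℕ × ℕ × ℕ) := [(0, 4, 0), (2, 4, 1), (2, 4, 2), (2, 4, 3), (2, 4, 4), (2, 4, 5),
  (2, 4, 6), (0, 5, 0), (2, 5, 2), (2, 5, 3), (2, 5, 4), (2, 5, 5), (2, 5, 6), (0, 0, 0), (0, 1,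
  0), (0, 2, 0), (0, 3, 0), (0, 6, 0), (0, 7, 0), (0, 8, 0), (0, 9, 0), (0, 10, 0), (0, 11, 0),
  (0, 12, 0), (1, 0, 0), (1, 1, 0), (1, 2, 0), (1, 3, 0)]

def T2 : List (List ℕ) := [[1, 2, 4, 8, 16, 32, 64], [128, 256, 512, 1024, 2048, 4096], [33554432,
  167837696, 33693696, 34865152, 34095104], [65536, 106496, 9502720, 16859136], [8192, 68165632,
  4218880], [1048576, 3162112], [16384]]

theorem f2 : S.form 2 C2 E2 T2 0 = true := by decide +kernel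

def C3 : List ℕ := [20, 96, 36, 12, 24, 64, 1, 2, 8, 80, 4, 48, 68, 40, 72, 16, 32]

def E3 : List (ℕ × ℕ × ℕ) := [(0, 6, 0), (2, 6, 1), (2, 6, 2), (2, 6, 3), (2, 6, 4), (2, 6, 5),
  (2, 6, 6), (0, 7, 0), (2, 7, 2), (2, 7, 3), (2, 7, 4), (2, 7, 5), (2, 7, 6), (0, 0, 0), (0, 1,
  0), (0, 2, 0), (0, 3, 0), (0, 4, 0), (0, 5, 0), (0, 8, 0), (0, 9, 0), (0, 10, 0), (0, 11, 0),
  (0, 12, 0), (1, 0, 0), (1, 1, 0), (1, 2, 0), (1, 3, 0)]

def T3 : List (List ℕ) := [[1, 2, 4, 8, 16, 32, 64], [128, 256, 512, 1024, 2048, 4096], [2097152,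
  2686976, 69214208, 136347648, 10747904], [524288, 67764224, 151519232, 34340864], [67108864,
  205520896, 68419584], [134217728, 134496256], [262144]]

theorem f3 : S.form 3 C3 E3 T3 0 = true := by decide +kernel

def C4 : List ℕ := [4, 72, 32, 8, 48, 68, 80, 64, 1, 2, 40, 36, 96, 24, 16, 12, 20]

def E4 : List (ℕ × ℕ × ℕ) := [(0, 8, 0), (2, 8, 1), (2, 8, 2), (2, 8, 3), (2, 8, 4), (2, 8, 5),
  (2, 8, 6), (0, 9, 0), (2, 9, 2), (2, 9, 3), (2, 9, 4), (2, 9, 5), (2, 9, 6), (0, 0, 0), (0, 1,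
  0), (0, 2, 0), (0, 3, 0), (0, 4, 0), (0, 5, 0), (0, 6, 0), (0, 7, 0), (0, 10, 0), (0, 11, 0),
  (0, 12, 0), (1, 0, 0), (1, 1, 0), (1, 2, 0), (1, 3, 0)]

def T4 : List (List ℕ) := [[1, 2, 4, 8, 16, 32, 64], [128, 256, 512, 1024, 2048, 4096], [8192,
  67182592, 167780352, 4235264, 1318912], [65536, 50397184, 2195456, 1130496], [33554432,
  33718272, 35127296], [32768, 9469952], [1048576]]

theorem f4 : S.form 4 C4 E4 T4 0 = true := by decide +kernel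

def C5 : List ℕ := [24, 48, 68, 36, 72, 96, 32, 40, 80, 64, 1, 2, 4, 20, 8, 16, 12]

def E5 : List (ℕ × ℕ × ℕ) := [(0, 10, 0), (2, 10, 1), (2, 10, 2), (2, 10, 3), (2, 10, 4), (2, 10,
  5), (2, 10, 6), (0, 11, 0), (2, 11, 2), (2, 11, 3), (2, 11, 4), (2, 11, 5), (2, 11, 6), (0, 0,
  0), (0, 1, 0), (0, 2, 0), (0, 3, 0), (0, 4, 0), (0, 5, 0), (0, 6, 0), (0, 7, 0), (0, 8, 0), (0,
  9, 0), (0, 12, 0), (1, 0, 0), (1, 1, 0), (1, 2, 0), (1, 3, 0)]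

def T5 : List (List ℕ) := [[1, 2, 4, 8, 16, 32, 64], [128, 256, 512, 1024, 2048, 4096], [8388608,
  176160768, 92274688, 8978432, 12615680], [33554432, 100671488, 35127296, 37879808], [67108864,
  67649536, 73400320], [524288, 4980736], [4194304]]

theorem f5 : S.form 5 C5 E5 T5 0 = true := by decide +kernel

def C6 : List ℕ := [16, 98, 4, 10, 80, 2, 6, 82, 8, 58, 36, 65, 1, 32, 18, 40, 72]

def E6 : List (ℕ × ℕ × ℕ) := [(0, 12, 0), (2, 12, 1), (2, 12, 2), (2, 12, 3), (2, 12, 4), (2, 12,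
  5), (2, 12, 6), (0, 0, 0), (0, 1, 0), (0, 2, 0), (0, 3, 0), (0, 4, 0), (0, 5, 0), (0, 6, 0), (0,
  7, 0), (0, 8, 0), (0, 9, 0), (0, 10, 0), (0, 11, 0), (1, 0, 0), (1, 1, 0), (1, 2, 0), (1, 3, 0),
  (3, 0, 1), (3, 2, 3), (3, 6, 7), (3, 8, 9), (3, 10, 11)]

def T6 : List (List ℕ) := [[1, 2, 4, 8, 16, 32, 64], [4096, 12800, 37888, 1052800, 76388417,
  1067136], [512, 16790016, 244427684, 655872, 210878884], [32768, 69735424, 2654208, 4489281],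
  [128, 9705537, 264385], [524288, 76661120], [262209]]

theorem f6 : S.form 6 C6 E6 T6 0 = true := by decide +kernel

theorem _root_.Pool.Agent.WarR.sd_6_7_13_4 {K : Type*} [Field K] [CharZero K] : KQ K 7 7 13 4 0 := by
  refine SeedD.main S (by decide +kernel) (fun k => ([0, 0, 0, 0, 0, 0, 0] : List ℕ).getD k 0) 0 ?_
    (by decide +kernel)
  intro k hk
  have hk' : k < 7 := hk
  interval_cases k
  · exact ⟨C0, E0, T0, f0⟩
  · exact ⟨C1, E1, T1, f1⟩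
  · exact ⟨C2, E2, T2, f2⟩
  · exact ⟨C3, E3, T3, f3⟩
  · exact ⟨C4, E4, T4, f4⟩
  · exact ⟨C5, E5, T5, f5⟩
  · exact ⟨C6, E6, T6, f6⟩

end T_6_7_13_4

namespace T_6_7_15_0

def S : SeedD where
  m := 7
  b := 7
  x := 15
  y := 0
  rI := [[0], [1], [2], [3], [4], [5], [9, 4, 5], [6], [7], [8, 0, 2], [8], [9], [10], [7, 3, 4],
    [6, 1, 2]]
  rJ := []
  g := [0, 0, 0, 1, 1, 1, 2, 2, 3, 3, 4, 4, 5, 5, 6]
  lab := [6, 3, 0, 6, 5, 1, 4, 2, 2, 3, 2, 4, 6, 5, 6]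
  ord := [0, 1, 2, 0, 1, 2, 0, 1, 0, 1, 0, 1, 0, 1, 0]
  tr := [(1, 2, 7, 14), (0, 2, 10, 9), (3, 4, 8, 13), (4, 5, 11, 6)]

def C0 : List ℕ := [1, 2, 4, 92, 80, 40, 16, 64, 32, 98, 48]

def E0 : List (ℕ × ℕ × ℕ) := [(0, 0, 0), (2, 0, 1), (2, 0, 2), (2, 0, 3), (2, 0, 4), (2, 0, 5),
  (2, 0, 6), (0, 1, 0), (2, 1, 2), (2, 1, 3), (2, 1, 4), (2, 1, 5), (2, 1, 6), (0, 2, 0), (2, 2,
  3), (2, 2, 4), (2, 2, 5), (2, 2, 6), (0, 3, 0), (0, 4, 0), (0, 5, 0), (0, 6, 0), (0, 7, 0), (0,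
  8, 0), (0, 9, 0), (0, 11, 0), (0, 12, 0), (0, 13, 0)]

def T0 : List (List ℕ) := [[1, 2, 4, 8, 16, 32, 64], [128, 256, 512, 1024, 2048, 4096], [8192,
  16384, 32768, 65536, 131072], [149718656, 143425536, 167618213, 7267968], [4194304, 88154149,
  13107200], [16850981, 58800293], [8388608]]

theorem f0 : S.form 0 C0 E0 T0 0 = true := by decide +kernel

def C1 : List ℕ := [32, 96, 64, 1, 2, 4, 24, 16, 77, 83, 8]

def E1 : List (ℕ × ℕ × ℕ) := [(0, 3, 0), (2, 3, 1), (2, 3, 2), (2, 3, 3), (2, 3, 4), (2, 3, 5),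
  (2, 3, 6), (0, 4, 0), (2, 4, 2), (2, 4, 3), (2, 4, 4), (2, 4, 5), (2, 4, 6), (0, 5, 0), (2, 5,
  3), (2, 5, 4), (2, 5, 5), (2, 5, 6), (0, 0, 0), (0, 1, 0), (0, 2, 0), (0, 6, 0), (0, 7, 0), (0,
  8, 0), (0, 9, 0), (0, 10, 0), (0, 12, 0), (0, 14, 0)]

def T1 : List (List ℕ) := [[1, 2, 4, 8, 16, 32, 64], [128, 256, 512, 1024, 2048, 4096], [8192,
  16384, 32768, 65536, 131072], [67108864, 79691776, 84238381, 101867597], [8388608, 222388269,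
  11706453], [262144, 1835008], [1048576]]

theorem f1 : S.form 1 C1 E1 T1 0 = true := by decide +kernel

def C2 : List ℕ := [64, 48, 46, 96, 36, 40, 2, 16, 4, 13, 80]

def E2 : List (ℕ × ℕ × ℕ) := [(0, 6, 0), (2, 6, 1), (2, 6, 2), (2, 6, 3), (2, 6, 4), (2, 6, 5),
  (2, 6, 6), (0, 7, 0), (2, 7, 2), (2, 7, 3), (2, 7, 4), (2, 7, 5), (2, 7, 6), (0, 0, 0), (0, 1,
  0), (0, 2, 0), (0, 3, 0), (0, 4, 0), (0, 5, 0), (0, 8, 0), (0, 9, 0), (0, 10, 0), (0, 11, 0),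
  (0, 12, 0), (0, 13, 0), (0, 14, 0), (3, 8, 9), (3, 10, 11)]

def T2 : List (List ℕ) := [[1, 2, 4, 8, 16, 32, 64], [128, 256, 512, 1024, 2048, 4096], [2097152,
  134217732, 248442761, 136612740, 258928521], [140509193, 210169732, 6458253, 135500036],
  [524288, 135187332, 8921088], [134646660, 134720388], [8192]]

theorem f2 : S.form 2 C2 E2 T2 0 = true := by decide +kernel

def C3 : List ℕ := [4, 32, 16, 80, 12, 54, 24, 1, 22, 72, 96]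

def E3 : List (ℕ × ℕ × ℕ) := [(0, 8, 0), (2, 8, 1), (2, 8, 2), (2, 8, 3), (2, 8, 4), (2, 8, 5),
  (2, 8, 6), (0, 9, 0), (2, 9, 2), (2, 9, 3), (2, 9, 4), (2, 9, 5), (2, 9, 6), (0, 0, 0), (0, 1,
  0), (0, 2, 0), (0, 3, 0), (0, 4, 0), (0, 5, 0), (0, 6, 0), (0, 7, 0), (0, 10, 0), (0, 11, 0),
  (0, 12, 0), (0, 13, 0), (0, 14, 0), (3, 1, 2), (4, 0, 0)]

def T3 : List (List ℕ) := [[1, 2, 4, 8, 16, 32, 64], [128, 256, 512, 1024, 2048, 4096], [8192,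
  235036672, 2139520, 69486592, 100284765], [234897408, 235978752, 201326592, 180968576], [32768,
  67108864, 76061824], [16384, 67722368], [76094592]]

theorem f3 : S.form 3 C3 E3 T3 0 = true := by decide +kernel

def C4 : List ℕ := [20, 32, 12, 72, 4, 68, 16, 36, 1, 2, 40]

def E4 : List (ℕ × ℕ × ℕ) := [(0, 10, 0), (2, 10, 1), (2, 10, 2), (2, 10, 3), (2, 10, 4), (2, 10,
  5), (2, 10, 6), (0, 11, 0), (2, 11, 2), (2, 11, 3), (2, 11, 4), (2, 11, 5), (2, 11, 6), (0, 0,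
  0), (0, 1, 0), (0, 2, 0), (0, 3, 0), (0, 4, 0), (0, 5, 0), (0, 6, 0), (0, 7, 0), (0, 8, 0), (0,
  9, 0), (0, 12, 0), (0, 13, 0), (0, 14, 0), (3, 6, 7)]

def T4 : List (List ℕ) := [[1, 2, 4, 8, 16, 32, 64], [128, 256, 512, 1024, 2048, 4096], [131072,
  0, 1187840, 2244608, 921728], [163840, 5406745, 8568832, 757888], [1048576, 49340441, 67109888],
  [16384, 25395200], [528512]]

theorem f4 : S.form 4 C4 E4 T4 1 = true := by decide +kernel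

def C5 : List ℕ := [9, 5, 36, 78, 15, 96, 18, 67, 102, 20, 1]

def E5 : List (ℕ × ℕ × ℕ) := [(0, 12, 0), (2, 12, 1), (2, 12, 2), (2, 12, 3), (2, 12, 4), (2, 12,
  5), (2, 12, 6), (0, 13, 0), (2, 13, 2), (2, 13, 3), (2, 13, 4), (2, 13, 5), (2, 13, 6), (0, 0,
  0), (0, 1, 0), (0, 2, 0), (0, 3, 0), (0, 4, 0), (0, 5, 0), (0, 6, 0), (0, 7, 0), (0, 8, 0), (0,
  9, 0), (0, 10, 0), (0, 11, 0), (0, 14, 0), (3, 4, 5), (4, 3, 0)]

def T5 : List (List ℕ) := [[1, 2, 4, 8, 16, 32, 64], [128, 256, 512, 1024, 2048, 4096], [16389,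
  156547, 17843333, 13073224, 4399821], [8201, 152183314, 82076644, 6300161], [1049728, 47690622,
  257813243], [13089613, 14920590], [2101443]]

theorem f5 : S.form 5 C5 E5 T5 0 = true := by decide +kernel

def C6 : List ℕ := [32, 10, 48, 36, 2, 96, 59, 64, 8, 12, 80]

def E6 : List (ℕ × ℕ × ℕ) := [(0, 14, 0), (2, 14, 1), (2, 14, 2), (2, 14, 3), (2, 14, 4), (2, 14,
  5), (2, 14, 6), (0, 0, 0), (0, 1, 0), (0, 2, 0), (0, 3, 0), (0, 4, 0), (0, 5, 0), (0, 6, 0), (0,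
  7, 0), (0, 8, 0), (0, 9, 0), (0, 10, 0), (0, 11, 0), (0, 12, 0), (0, 13, 0), (3, 0, 1), (3, 0,
  2), (3, 3, 4), (3, 3, 5), (3, 12, 13), (4, 1, 0), (4, 2, 0)]

def T6 : List (List ℕ) := [[1, 2, 4, 8, 16, 32, 64], [2048, 77594624, 133376, 6504891, 69206016,
  143690752], [150996096, 151389312, 50024251, 150994944, 134254720], [131072, 4391552, 67108864,
  219557248], [4194944, 4194304, 4752000], [128, 36992], [32768]]

theorem f6 : S.form 6 C6 E6 T6 0 = true := by decide +kernel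

theorem _root_.Pool.Agent.WarR.sd_6_7_15_0 {K : Type*} [Field K] [CharZero K] : KQ K 7 7 15 0 1 := by
  refine SeedD.main S (by decide +kernel) (fun k => ([0, 0, 0, 0, 1, 0, 0] : List ℕ).getD k 0) 1 ?_
    (by decide +kernel)
  intro k hk
  have hk' : k < 7 := hk
  interval_cases k
  · exact ⟨C0, E0, T0, f0⟩
  · exact ⟨C1, E1, T1, f1⟩
  · exact ⟨C2, E2, T2, f2⟩
  · exact ⟨C3, E3, T3, f3⟩
  · exact ⟨C4, E4, T4, f4⟩
  · exact ⟨C5, E5, T5, f5⟩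
  · exact ⟨C6, E6, T6, f6⟩

end T_6_7_15_0

namespace T_7_7_16_4

def S : SeedD where
  m := 8
  b := 7
  x := 16
  y := 4
  rI := [[0], [1], [2], [3], [4], [5], [6], [7], [8], [9], [10], [11], [12], [13], [14], [15]]
  rJ := [[8, 4, 5], [13, 1, 2], [4, 0, 2], [6, 3, 4]]
  g := [0, 0, 0, 1, 1, 1, 2, 2, 3, 3, 4, 4, 5, 5, 6, 6]
  lab := [3, 2, 0, 4, 5, 1, 6, 2, 6, 3, 5, 4, 6, 5, 2, 6]
  ord := [0, 1, 2, 0, 1, 2, 0, 1, 0, 1, 0, 1, 0, 1, 0, 1]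
  tr := [(1, 2, 13, 17), (3, 4, 6, 19), (0, 2, 4, 18), (4, 5, 8, 16)]

def C0 : List ℕ := [1, 2, 4, 128, 8, 32, 16, 24, 64, 160, 40, 48, 192, 96, 136, 80]

def E0 : List (ℕ × ℕ × ℕ) := [(0, 0, 0), (2, 0, 1), (2, 0, 2), (2, 0, 3), (2, 0, 4), (2, 0, 5),
  (2, 0, 6), (2, 0, 7), (0, 1, 0), (2, 1, 2), (2, 1, 3), (2, 1, 4), (2, 1, 5), (2, 1, 6), (2, 1,
  7), (0, 2, 0), (2, 2, 3), (2, 2, 4), (2, 2, 5), (2, 2, 6), (2, 2, 7), (0, 3, 0), (0, 4, 0), (0,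
  5, 0), (0, 6, 0), (0, 7, 0), (0, 8, 0), (0, 9, 0), (0, 10, 0), (0, 11, 0), (0, 12, 0), (0, 13,
  0), (0, 14, 0), (0, 15, 0), (1, 0, 0), (1, 3, 0)]

def T0 : List (List ℕ) := [[1, 2, 4, 8, 16, 32, 64, 128], [256, 512, 1024, 2048, 4096, 8192,
  16384], [32768, 65536, 131072, 262144, 524288, 1048576], [4194304, 54525952, 281018368,
  19604176896, 4301258752], [16777216, 562036736, 8673820672, 38692454400], [8388608, 2222981120,
  144703488], [67108864, 1142947840], [2097152]]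

theorem f0 : S.form 0 C0 E0 T0 0 = true := by decide +kernel

def C1 : List ℕ := [178, 128, 64, 1, 2, 4, 75, 80, 32, 144, 48, 40, 136, 16, 8, 24]

def E1 : List (ℕ × ℕ × ℕ) := [(0, 3, 0), (2, 3, 1), (2, 3, 2), (2, 3, 3), (2, 3, 4), (2, 3, 5),
  (2, 3, 6), (2, 3, 7), (0, 4, 0), (2, 4, 2), (2, 4, 3), (2, 4, 4), (2, 4, 5), (2, 4, 6), (2, 4,
  7), (0, 5, 0), (2, 5, 3), (2, 5, 4), (2, 5, 5), (2, 5, 6), (2, 5, 7), (0, 0, 0), (0, 1, 0), (0,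
  2, 0), (0, 6, 0), (0, 7, 0), (0, 8, 0), (0, 9, 0), (0, 10, 0), (0, 11, 0), (0, 12, 0), (0, 13,
  0), (0, 14, 0), (0, 15, 0), (1, 1, 0), (1, 2, 0)]

def T1 : List (List ℕ) := [[1, 2, 4, 8, 16, 32, 64, 128], [256, 512, 1024, 2048, 4096, 8192,
  16384], [32768, 65536, 131072, 262144, 524288, 1048576], [4294967296, 15032385536, 4898947072,
  4320142667, 5372903424], [2147483648, 2483027968, 2189426688, 2285895680], [67108864,
  51675945216, 2552256768], [8388608, 19495124992], [4194304]]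

theorem f1 : S.form 1 C1 E1 T1 0 = true := by decide +kernel

def C2 : List ℕ := [141, 16, 64, 33, 8, 68, 1, 2, 154, 96, 24, 72, 48, 144, 160, 4]

def E2 : List (ℕ × ℕ × ℕ) := [(0, 6, 0), (2, 6, 1), (2, 6, 2), (2, 6, 3), (2, 6, 4), (2, 6, 5),
  (2, 6, 6), (2, 6, 7), (0, 7, 0), (2, 7, 2), (2, 7, 3), (2, 7, 4), (2, 7, 5), (2, 7, 6), (2, 7,
  7), (0, 0, 0), (0, 1, 0), (0, 2, 0), (0, 3, 0), (0, 4, 0), (0, 5, 0), (0, 8, 0), (0, 9, 0), (0,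
  10, 0), (0, 11, 0), (0, 12, 0), (0, 13, 0), (0, 14, 0), (0, 15, 0), (1, 0, 0), (1, 1, 0), (1, 2,
  0), (1, 3, 0), (3, 1, 2), (3, 14, 15), (4, 0, 0)]

def T2 : List (List ℕ) := [[1, 2, 4, 8, 16, 32, 64, 128], [256, 512, 1024, 2048, 4096, 8192,
  16384], [268435456, 37861641544, 45634120645, 20402274501, 269615104, 3222405317], [524288,
  8978432, 4295753761, 17432576, 77679872], [65536, 33882145, 8589934592, 34359738368], [262177,
  4587553, 34561392673], [131072, 35500785664], [34426912768]]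

theorem f2 : S.form 2 C2 E2 T2 0 = true := by decide +kernel

def C3 : List ℕ := [32, 64, 196, 17, 25, 144, 160, 12, 1, 2, 72, 192, 20, 114, 8, 68]

def E3 : List (ℕ × ℕ × ℕ) := [(0, 8, 0), (2, 8, 1), (2, 8, 2), (2, 8, 3), (2, 8, 4), (2, 8, 5),
  (2, 8, 6), (2, 8, 7), (0, 9, 0), (2, 9, 2), (2, 9, 3), (2, 9, 4), (2, 9, 5), (2, 9, 6), (2, 9,
  7), (0, 0, 0), (0, 1, 0), (0, 2, 0), (0, 3, 0), (0, 4, 0), (0, 5, 0), (0, 6, 0), (0, 7, 0), (0,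
  10, 0), (0, 11, 0), (0, 12, 0), (0, 13, 0), (0, 14, 0), (0, 15, 0), (1, 0, 0), (1, 1, 0), (1, 2,
  0), (1, 3, 0), (3, 0, 1), (3, 0, 2), (4, 2, 0)]

def T3 : List (List ℕ) := [[1, 2, 4, 8, 16, 32, 64, 128], [256, 512, 1024, 2048, 4096, 8192,
  16384], [7665974261, 7527562229, 7699266532, 6691928565, 7934344181, 285409280], [134217728,
  135004168, 28703603189, 142671872, 32866449909], [262161, 63063341525, 54406119620,
  32462485988], [32768, 8589934592, 32461732341], [65536, 32480639477], [32463796725]]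

theorem f3 : S.form 3 C3 E3 T3 0 = true := by decide +kernel

def C4 : List ℕ := [128, 24, 72, 4, 64, 16, 32, 192, 8, 12, 1, 2, 40, 160, 144, 132]

def E4 : List (ℕ × ℕ × ℕ) := [(0, 10, 0), (2, 10, 1), (2, 10, 2), (2, 10, 3), (2, 10, 4), (2, 10,
  5), (2, 10, 6), (2, 10, 7), (0, 11, 0), (2, 11, 2), (2, 11, 3), (2, 11, 4), (2, 11, 5), (2, 11,
  6), (2, 11, 7), (0, 0, 0), (0, 1, 0), (0, 2, 0), (0, 3, 0), (0, 4, 0), (0, 5, 0), (0, 6, 0), (0,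
  7, 0), (0, 8, 0), (0, 9, 0), (0, 12, 0), (0, 13, 0), (0, 14, 0), (0, 15, 0), (1, 0, 0), (1, 1,
  0), (1, 2, 0), (1, 3, 0), (3, 3, 4), (3, 3, 5), (4, 1, 0)]

def T4 : List (List ℕ) := [[1, 2, 4, 8, 16, 32, 64, 128], [256, 512, 1024, 2048, 4096, 8192,
  16384], [262144, 25427968, 17179869184, 34359738368, 8589934592, 268730368], [8388608, 9502720,
  44040192, 9043968, 2155905024], [1048576, 49072242688, 545456128, 135299072], [2097152,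
  47247523840, 69238784], [524288, 4751360], [32768]]

theorem f4 : S.form 4 C4 E4 T4 0 = true := by decide +kernel

def C5 : List ℕ := [177, 135, 16, 128, 64, 96, 80, 40, 200, 36, 12, 6, 1, 2, 24, 68]

def E5 : List (ℕ × ℕ × ℕ) := [(0, 12, 0), (2, 12, 1), (2, 12, 2), (2, 12, 3), (2, 12, 4), (2, 12,
  5), (2, 12, 6), (2, 12, 7), (0, 13, 0), (2, 13, 2), (2, 13, 3), (2, 13, 4), (2, 13, 5), (2, 13,
  6), (2, 13, 7), (0, 0, 0), (0, 1, 0), (0, 2, 0), (0, 3, 0), (0, 4, 0), (0, 5, 0), (0, 6, 0), (0,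
  7, 0), (0, 8, 0), (0, 9, 0), (0, 10, 0), (0, 11, 0), (0, 14, 0), (0, 15, 0), (1, 0, 0), (1, 1,
  0), (1, 2, 0), (1, 3, 0), (3, 4, 5), (3, 10, 11), (4, 3, 0)]

def T5 : List (List ℕ) := [[1, 2, 4, 8, 16, 32, 64, 128], [256, 512, 1024, 2048, 4096, 8192,
  16384], [67109632, 17179870720, 5369053970, 8675394304, 336069376, 67453063], [17280533760,
  17414882560, 25876235520, 62928455137, 51649447168], [131072, 22126560689, 2752512, 4295360512],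
  [8591507456, 8589934592, 26419922176], [524288, 28568716769], [262144]]

theorem f5 : S.form 5 C5 E5 T5 0 = true := by decide +kernel

def C6 : List ℕ := [172, 30, 141, 160, 104, 144, 64, 39, 4, 16, 192, 48, 34, 9, 1, 2]

def E6 : List (ℕ × ℕ × ℕ) := [(0, 14, 0), (2, 14, 1), (2, 14, 2), (2, 14, 3), (2, 14, 4), (2, 14,
  5), (2, 14, 6), (2, 14, 7), (0, 15, 0), (2, 15, 2), (2, 15, 3), (2, 15, 4), (2, 15, 5), (2, 15,
  6), (2, 15, 7), (0, 0, 0), (0, 1, 0), (0, 2, 0), (0, 3, 0), (0, 4, 0), (0, 5, 0), (0, 6, 0), (0,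
  7, 0), (0, 8, 0), (0, 9, 0), (0, 10, 0), (0, 11, 0), (0, 12, 0), (0, 13, 0), (1, 0, 0), (1, 1,
  0), (1, 2, 0), (1, 3, 0), (3, 6, 7), (3, 8, 9), (3, 12, 13)]

def T6 : List (List ℕ) := [[1, 2, 4, 8, 16, 32, 64, 128], [256, 512, 1024, 2048, 4096, 8192,
  16384], [8388608, 57333499009, 17179869184, 146801191, 45231912235, 53046789132], [268435465,
  39876742024, 34359739426, 2418016320, 39070369409], [16777216, 218108160, 68583586440,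
  34524792456], [134222080, 36641969515, 34372491144], [2097152, 34542618248], [34506966664]]

theorem f6 : S.form 6 C6 E6 T6 0 = true := by decide +kernel

theorem _root_.Pool.Agent.WarR.sd_7_7_16_4 {K : Type*} [Field K] [CharZero K] : KQ K 8 7 16 4 0 := by
  refine SeedD.main S (by decide +kernel) (fun k => ([0, 0, 0, 0, 0, 0, 0] : List ℕ).getD k 0) 0 ?_
    (by decide +kernel)
  intro k hk
  have hk' : k < 7 := hk
  interval_cases k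
  · exact ⟨C0, E0, T0, f0⟩
  · exact ⟨C1, E1, T1, f1⟩
  · exact ⟨C2, E2, T2, f2⟩
  · exact ⟨C3, E3, T3, f3⟩
  · exact ⟨C4, E4, T4, f4⟩
  · exact ⟨C5, E5, T5, f5⟩
  · exact ⟨C6, E6, T6, f6⟩

end T_7_7_16_4

namespace T_7_7_17_2

def S : SeedD where
  m := 8
  b := 7
  x := 17
  y := 2
  rI := [[0], [1], [2], [3], [4], [5], [6], [7], [8], [9], [10], [11], [12], [13], [11, 6, 8], [14],
    [15]]
  rJ := [[14, 1, 2], [9, 4, 5]]
  g := [0, 0, 0, 1, 1, 1, 2, 2, 2, 3, 3, 4, 4, 5, 5, 6, 6]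
  lab := [5, 4, 0, 4, 6, 1, 3, 3, 2, 6, 3, 5, 4, 6, 5, 5, 6]
  ord := [0, 1, 2, 0, 1, 2, 0, 1, 2, 0, 1, 0, 1, 0, 1, 0, 1]
  tr := [(1, 2, 15, 17), (4, 5, 9, 18), (6, 8, 11, 14)]

def C0 : List ℕ := [1, 2, 4, 160, 136, 48, 144, 96, 128, 32, 72, 64, 24, 192, 8, 40]

def E0 : List (ℕ × ℕ × ℕ) := [(0, 0, 0), (2, 0, 1), (2, 0, 2), (2, 0, 3), (2, 0, 4), (2, 0, 5),
  (2, 0, 6), (2, 0, 7), (0, 1, 0), (2, 1, 2), (2, 1, 3), (2, 1, 4), (2, 1, 5), (2, 1, 6), (2, 1,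
  7), (0, 2, 0), (2, 2, 3), (2, 2, 4), (2, 2, 5), (2, 2, 6), (2, 2, 7), (0, 3, 0), (0, 4, 0), (0,
  5, 0), (0, 6, 0), (0, 7, 0), (0, 8, 0), (0, 9, 0), (0, 10, 0), (0, 11, 0), (0, 12, 0), (0, 13,
  0), (0, 14, 0), (0, 15, 0), (0, 16, 0), (1, 1, 0)]

def T0 : List (List ℕ) := [[1, 2, 4, 8, 16, 32, 64, 128], [256, 512, 1024, 2048, 4096, 8192,
  16384], [32768, 65536, 131072, 262144, 524288, 1048576], [8589934592, 34447818752, 25904021504,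
  9395240960, 8661237760], [44111495168, 44254101504, 48943333376, 44027609088], [134217728,
  704643072, 203423744], [536870912, 2751463424], [67108864]]

theorem f0 : S.form 0 C0 E0 T0 0 = true := by decide +kernel

def C1 : List ℕ := [72, 80, 144, 1, 2, 4, 165, 16, 132, 64, 192, 8, 24, 136, 32, 48]

def E1 : List (ℕ × ℕ × ℕ) := [(0, 3, 0), (2, 3, 1), (2, 3, 2), (2, 3, 3), (2, 3, 4), (2, 3, 5),
  (2, 3, 6), (2, 3, 7), (0, 4, 0), (2, 4, 2), (2, 4, 3), (2, 4, 4), (2, 4, 5), (2, 4, 6), (2, 4,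
  7), (0, 5, 0), (2, 5, 3), (2, 5, 4), (2, 5, 5), (2, 5, 6), (2, 5, 7), (0, 0, 0), (0, 1, 0), (0,
  2, 0), (0, 6, 0), (0, 7, 0), (0, 8, 0), (0, 9, 0), (0, 10, 0), (0, 11, 0), (0, 12, 0), (0, 13,
  0), (0, 14, 0), (0, 15, 0), (0, 16, 0), (1, 0, 0)]

def T1 : List (List ℕ) := [[1, 2, 4, 8, 16, 32, 64, 128], [256, 512, 1024, 2048, 4096, 8192,
  16384], [32768, 65536, 131072, 262144, 524288, 1048576], [536870912, 1644167168, 13421772841,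
  673185792, 2752544768], [33554432, 25803358208, 171966464, 110133248], [8589934592, 34712322213,
  8674082981], [134217728, 470843392], [68190208]]

theorem f1 : S.form 1 C1 E1 T1 0 = true := by decide +kernel

def C2 : List ℕ := [24, 16, 64, 96, 32, 136, 1, 2, 4, 128, 80, 48, 144, 160, 8, 192]

def E2 : List (ℕ × ℕ × ℕ) := [(0, 6, 0), (2, 6, 1), (2, 6, 2), (2, 6, 3), (2, 6, 4), (2, 6, 5),
  (2, 6, 6), (2, 6, 7), (0, 7, 0), (2, 7, 2), (2, 7, 3), (2, 7, 4), (2, 7, 5), (2, 7, 6), (2, 7,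
  7), (0, 8, 0), (2, 8, 3), (2, 8, 4), (2, 8, 5), (2, 8, 6), (2, 8, 7), (0, 0, 0), (0, 1, 0), (0,
  2, 0), (0, 3, 0), (0, 4, 0), (0, 5, 0), (0, 9, 0), (0, 10, 0), (0, 11, 0), (0, 12, 0), (0, 13,
  0), (0, 15, 0), (0, 16, 0), (1, 0, 0), (1, 1, 0)]

def T2 : List (List ℕ) := [[1, 2, 4, 8, 16, 32, 64, 128], [256, 512, 1024, 2048, 4096, 8192,
  16384], [32768, 65536, 131072, 262144, 524288, 1048576], [4294967296, 4301258752, 38688260096,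
  17454596096, 4496293888], [4194304, 574619648, 281018368, 1212153856], [33554432, 58720256,
  2315255808], [8388608, 8732540928], [134217728]]

theorem f2 : S.form 2 C2 E2 T2 0 = true := by decide +kernel

def C3 : List ℕ := [68, 240, 72, 64, 128, 36, 8, 32, 16, 1, 2, 4, 132, 192, 96, 80]

def E3 : List (ℕ × ℕ × ℕ) := [(0, 9, 0), (2, 9, 1), (2, 9, 2), (2, 9, 3), (2, 9, 4), (2, 9, 5),
  (2, 9, 6), (2, 9, 7), (0, 10, 0), (2, 10, 2), (2, 10, 3), (2, 10, 4), (2, 10, 5), (2, 10, 6),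
  (2, 10, 7), (0, 0, 0), (0, 1, 0), (0, 2, 0), (0, 3, 0), (0, 4, 0), (0, 5, 0), (0, 6, 0), (0, 7,
  0), (0, 8, 0), (0, 11, 0), (0, 12, 0), (0, 13, 0), (0, 14, 0), (0, 15, 0), (0, 16, 0), (1, 0,
  0), (1, 1, 0), (3, 6, 7), (3, 6, 8), (3, 7, 8), (4, 2, 0)]

def T3 : List (List ℕ) := [[1, 2, 4, 8, 16, 32, 64, 128], [256, 512, 1024, 2048, 4096, 8192,
  16384], [16777216, 34359738368, 43111153664, 22020096, 17072128, 50855936], [2097152,
  8589934592, 4294967296, 2490368, 29311041701], [8388608, 17179869184, 545521664, 20251213989],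
  [4194304, 272891904, 2198864037], [262144, 67895296], [524288]]

theorem f3 : S.form 3 C3 E3 T3 0 = true := by decide +kernel

def C4 : List ℕ := [40, 48, 64, 128, 4, 140, 24, 160, 85, 150, 20, 1, 2, 36, 34, 192]

def E4 : List (ℕ × ℕ × ℕ) := [(0, 11, 0), (2, 11, 1), (2, 11, 2), (2, 11, 3), (2, 11, 4), (2, 11,
  5), (2, 11, 6), (2, 11, 7), (0, 12, 0), (2, 12, 2), (2, 12, 3), (2, 12, 4), (2, 12, 5), (2, 12,
  6), (2, 12, 7), (0, 0, 0), (0, 1, 0), (0, 2, 0), (0, 3, 0), (0, 4, 0), (0, 5, 0), (0, 6, 0), (0,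
  7, 0), (0, 8, 0), (0, 9, 0), (0, 10, 0), (0, 13, 0), (0, 14, 0), (0, 15, 0), (0, 16, 0), (1, 0,
  0), (1, 1, 0), (3, 1, 2), (3, 3, 4), (3, 3, 5), (4, 0, 0)]

def T4 : List (List ℕ) := [[1, 2, 4, 8, 16, 32, 64, 128], [256, 512, 1024, 2048, 4096, 8192,
  16384], [524288, 36811376128, 34662320384, 336072960, 35743932501, 8589934592], [53993080320,
  19362746112, 53724681984, 53059461205, 25769803776], [34628241664, 34359744512, 35702120448,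
  8640547584], [268439808, 39997087744, 272896256], [131072, 537264128], [262144]]

theorem f4 : S.form 4 C4 E4 T4 0 = true := by decide +kernel

def C5 : List ℕ := [16, 32, 10, 68, 80, 72, 160, 12, 140, 192, 20, 46, 98, 1, 64, 209]

def E5 : List (ℕ × ℕ × ℕ) := [(0, 13, 0), (2, 13, 1), (2, 13, 2), (2, 13, 3), (2, 13, 4), (2, 13,
  5), (2, 13, 6), (2, 13, 7), (0, 14, 0), (2, 14, 2), (2, 14, 3), (2, 14, 4), (2, 14, 5), (2, 14,
  6), (2, 14, 7), (0, 0, 0), (0, 1, 0), (0, 2, 0), (0, 3, 0), (0, 4, 0), (0, 5, 0), (0, 6, 0), (0,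
  7, 0), (0, 8, 0), (0, 9, 0), (0, 10, 0), (0, 11, 0), (0, 12, 0), (0, 15, 0), (0, 16, 0), (1, 0,
  0), (1, 1, 0), (3, 0, 1), (3, 0, 2), (3, 11, 12), (3, 15, 16)]

def T5 : List (List ℕ) := [[1, 2, 4, 8, 16, 32, 64, 128], [256, 512, 1024, 2048, 4096, 8192,
  16384], [17655268608, 17650941952, 17688855808, 1548817152, 17386571008, 45933430929], [132352,
  8589936640, 1477444608, 269616384, 11543775441], [32768, 4294967296, 268992512, 822608081],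
  [65536, 402731264, 34379235392], [268435456, 34628730944], [34377072704]]

theorem f5 : S.form 5 C5 E5 T5 0 = true := by decide +kernel

def C6 : List ℕ := [20, 11, 144, 48, 16, 12, 32, 72, 192, 66, 161, 68, 40, 128, 1, 2]

def E6 : List (ℕ × ℕ × ℕ) := [(0, 15, 0), (2, 15, 1), (2, 15, 2), (2, 15, 3), (2, 15, 4), (2, 15,
  5), (2, 15, 6), (2, 15, 7), (0, 16, 0), (2, 16, 2), (2, 16, 3), (2, 16, 4), (2, 16, 5), (2, 16,
  6), (2, 16, 7), (0, 0, 0), (0, 1, 0), (0, 2, 0), (0, 3, 0), (0, 4, 0), (0, 5, 0), (0, 6, 0), (0,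
  7, 0), (0, 8, 0), (0, 9, 0), (0, 10, 0), (0, 11, 0), (0, 12, 0), (0, 13, 0), (0, 14, 0), (1, 0,
  0), (1, 1, 0), (3, 4, 5), (3, 9, 10), (3, 13, 14), (4, 1, 0)]

def T6 : List (List ℕ) := [[1, 2, 4, 8, 16, 32, 64, 128], [256, 512, 1024, 2048, 4096, 8192,
  16384], [40891908875, 40890795520, 40891417355, 58879181579, 40808030731, 17483956385], [66827,
  36596450059, 136381707, 21046283, 37670275840], [524288, 2883584, 34359740416, 269090816],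
  [2097152, 8883564866, 304087201], [16785664, 293609728], [268435456]]

theorem f6 : S.form 6 C6 E6 T6 0 = true := by decide +kernel

theorem _root_.Pool.Agent.WarR.sd_7_7_17_2 {K : Type*} [Field K] [CharZero K] : KQ K 8 7 17 2 0 := by
  refine SeedD.main S (by decide +kernel) (fun k => ([0, 0, 0, 0, 0, 0, 0] : List ℕ).getD k 0) 0 ?_
    (by decide +kernel)
  intro k hk
  have hk' : k < 7 := hk
  interval_cases k
  · exact ⟨C0, E0, T0, f0⟩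
  · exact ⟨C1, E1, T1, f1⟩
  · exact ⟨C2, E2, T2, f2⟩
  · exact ⟨C3, E3, T3, f3⟩
  · exact ⟨C4, E4, T4, f4⟩
  · exact ⟨C5, E5, T5, f5⟩
  · exact ⟨C6, E6, T6, f6⟩

end T_7_7_17_2

namespace T_7_8_17_4

def S : SeedD where
  m := 8
  b := 8
  x := 17
  y := 4
  rI := [[10, 3, 4], [0], [1], [2], [3], [4], [5], [6], [7], [9, 0, 1], [8], [9], [11, 3, 4], [10],
    [3, 6, 7], [9, 6, 7], [11]]
  rJ := [[10, 0, 1], [2, 0, 1], [5, 3, 4], [8, 6, 7]]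
  g := [0, 0, 0, 1, 1, 1, 2, 2, 2, 3, 3, 4, 4, 5, 5, 6, 6]
  lab := [6, 7, 0, 5, 7, 1, 4, 7, 2, 7, 3, 7, 4, 7, 5, 3, 6]
  ord := [0, 1, 2, 0, 1, 2, 0, 1, 2, 0, 1, 0, 1, 0, 1, 0, 1]
  tr := [(4, 5, 6, 19), (1, 2, 3, 18), (7, 8, 10, 20), (1, 2, 13, 17), (4, 5, 13, 0), (7, 8, 4, 14),
    (7, 8, 11, 15), (4, 5, 16, 12), (1, 2, 11, 9)]

def C0 : List ℕ := [2, 4, 20, 99, 24, 34, 10, 228, 212, 134, 122, 192]

def E0 : List (ℕ × ℕ × ℕ) := [(0, 0, 0), (2, 0, 1), (2, 0, 2), (2, 0, 3), (2, 0, 4), (2, 0, 5),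
  (2, 0, 6), (2, 0, 7), (0, 1, 0), (2, 1, 2), (2, 1, 3), (2, 1, 4), (2, 1, 5), (2, 1, 6), (2, 1,
  7), (0, 2, 0), (2, 2, 3), (2, 2, 4), (2, 2, 5), (2, 2, 6), (2, 2, 7), (0, 3, 0), (0, 4, 0), (0,
  5, 0), (0, 6, 0), (0, 7, 0), (0, 8, 0), (0, 9, 0), (0, 10, 0), (0, 12, 0), (0, 13, 0), (0, 14,
  0), (0, 15, 0), (0, 16, 0), (1, 2, 0), (1, 3, 0)]

def T0 : List (List ℕ) := [[1, 2, 4, 8, 16, 32, 64, 128], [256, 512, 1024, 2048, 4096, 8192,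
  16384], [32768, 65536, 131072, 262144, 524288, 1048576], [33555712, 44205312, 58866352239,
  54609146892, 2316404109], [2260992, 24515005551, 21335733359, 29654611055], [16781568,
  52621746265, 61297439065], [52642709562, 61366861882], [134217728]]

theorem f0 : S.form 0 C0 E0 T0 0 = true := by decide +kernel

def C1 : List ℕ := [42, 144, 1, 2, 4, 8, 16, 64, 161, 48, 32, 200]

def E1 : List (ℕ × ℕ × ℕ) := [(0, 3, 0), (2, 3, 1), (2, 3, 2), (2, 3, 3), (2, 3, 4), (2, 3, 5),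
  (2, 3, 6), (2, 3, 7), (0, 4, 0), (2, 4, 2), (2, 4, 3), (2, 4, 4), (2, 4, 5), (2, 4, 6), (2, 4,
  7), (0, 5, 0), (2, 5, 3), (2, 5, 4), (2, 5, 5), (2, 5, 6), (2, 5, 7), (0, 0, 0), (0, 1, 0), (0,
  2, 0), (0, 6, 0), (0, 7, 0), (0, 8, 0), (0, 9, 0), (0, 10, 0), (0, 11, 0), (0, 12, 0), (0, 14,
  0), (0, 15, 0), (1, 0, 0), (1, 1, 0), (1, 3, 0)]

def T1 : List (List ℕ) := [[1, 2, 4, 8, 16, 32, 64, 128], [256, 512, 1024, 2048, 4096, 8192,
  16384], [32768, 65536, 131072, 262144, 524288, 1048576], [16777216, 18182311194, 23365120,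
  67844542026, 26747093018], [33554432, 572822272, 2248157440, 26604471578], [2396928, 4364473088,
  26363598523], [67108864, 66702027850], [26629637402]]

theorem f1 : S.form 1 C1 E1 T1 0 = true := by decide +kernel

def C2 : List ℕ := [105, 132, 136, 144, 166, 1, 2, 4, 18, 116, 204, 57]

def E2 : List (ℕ × ℕ × ℕ) := [(0, 6, 0), (2, 6, 1), (2, 6, 2), (2, 6, 3), (2, 6, 4), (2, 6, 5),
  (2, 6, 6), (2, 6, 7), (0, 7, 0), (2, 7, 2), (2, 7, 3), (2, 7, 4), (2, 7, 5), (2, 7, 6), (2, 7,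
  7), (0, 8, 0), (2, 8, 3), (2, 8, 4), (2, 8, 5), (2, 8, 6), (2, 8, 7), (0, 0, 0), (0, 1, 0), (0,
  2, 0), (0, 3, 0), (0, 4, 0), (0, 5, 0), (0, 9, 0), (0, 10, 0), (0, 11, 0), (0, 12, 0), (0, 13,
  0), (0, 16, 0), (1, 0, 0), (1, 1, 0), (1, 2, 0)]

def T2 : List (List ℕ) := [[1, 2, 4, 8, 16, 32, 64, 128], [256, 512, 1024, 2048, 4096, 8192,
  16384], [32768, 65536, 131072, 262144, 524288, 1048576], [1073841935, 194019481, 39922932888,
  56033450907, 1100023567], [268437760, 43218539030, 60666714995, 311462144], [8589934625,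
  59964406628, 8665715489], [51374242592, 27865358523], [9469952]]

theorem f2 : S.form 2 C2 E2 T2 0 = true := by decide +kernel

def C3 : List ℕ := [24, 204, 4, 17, 48, 88, 14, 80, 2, 213, 20, 43]

def E3 : List (ℕ × ℕ × ℕ) := [(0, 9, 0), (2, 9, 1), (2, 9, 2), (2, 9, 3), (2, 9, 4), (2, 9, 5),
  (2, 9, 6), (2, 9, 7), (0, 10, 0), (2, 10, 2), (2, 10, 3), (2, 10, 4), (2, 10, 5), (2, 10, 6),
  (2, 10, 7), (0, 0, 0), (0, 1, 0), (0, 2, 0), (0, 3, 0), (0, 4, 0), (0, 5, 0), (0, 6, 0), (0, 7,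
  0), (0, 8, 0), (0, 11, 0), (0, 12, 0), (0, 13, 0), (0, 14, 0), (0, 15, 0), (0, 16, 0), (1, 0,
  0), (1, 1, 0), (1, 2, 0), (1, 3, 0), (3, 15, 16)]

def T3 : List (List ℕ) := [[1, 2, 4, 8, 16, 32, 64, 128], [256, 512, 1024, 2048, 4096, 8192,
  16384], [262144, 38011392, 67895313, 68714532, 8697676305, 10794304213], [33555712, 34145553, 0,
  11075601, 3319990229], [524305, 572002362, 8825676382, 12046377551], [570429483, 4298637416,
  20499879797], [8833540687, 11163559185], [3621996382]]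

theorem f3 : S.form 3 C3 E3 T3 1 = true := by decide +kernel

def C4 : List ℕ := [201, 86, 36, 48, 17, 64, 128, 4, 136, 1, 8, 35]

def E4 : List (ℕ × ℕ × ℕ) := [(0, 11, 0), (2, 11, 1), (2, 11, 2), (2, 11, 3), (2, 11, 4), (2, 11,
  5), (2, 11, 6), (2, 11, 7), (0, 12, 0), (2, 12, 2), (2, 12, 3), (2, 12, 4), (2, 12, 5), (2, 12,
  6), (2, 12, 7), (0, 0, 0), (0, 1, 0), (0, 2, 0), (0, 3, 0), (0, 4, 0), (0, 5, 0), (0, 6, 0), (0,
  7, 0), (0, 8, 0), (0, 9, 0), (0, 10, 0), (0, 13, 0), (0, 14, 0), (0, 15, 0), (0, 16, 0), (1, 0,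
  0), (1, 1, 0), (1, 2, 0), (1, 3, 0), (3, 6, 7), (3, 6, 8)]

def T4 : List (List ℕ) := [[1, 2, 4, 8, 16, 32, 64, 128], [256, 512, 1024, 2048, 4096, 8192,
  16384], [8388608, 8665432064, 12235102592, 545526051, 34359738368, 281018501], [67108864,
  9793701015, 604016906, 17215586505, 104857600], [1048593, 538448178, 46606512785, 10893955715],
  [536875299, 4833939778, 1755077285], [2097152, 17179869184], [4194304]]

theorem f4 : S.form 4 C4 E4 T4 0 = true := by decide +kernel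

def C5 : List ℕ := [76, 96, 128, 150, 8, 200, 16, 132, 32, 65, 1, 169]

def E5 : List (ℕ × ℕ × ℕ) := [(0, 13, 0), (2, 13, 1), (2, 13, 2), (2, 13, 3), (2, 13, 4), (2, 13,
  5), (2, 13, 6), (2, 13, 7), (0, 14, 0), (2, 14, 2), (2, 14, 3), (2, 14, 4), (2, 14, 5), (2, 14,
  6), (2, 14, 7), (0, 0, 0), (0, 1, 0), (0, 2, 0), (0, 3, 0), (0, 4, 0), (0, 5, 0), (0, 6, 0), (0,
  7, 0), (0, 8, 0), (0, 9, 0), (0, 10, 0), (0, 11, 0), (0, 12, 0), (0, 15, 0), (0, 16, 0), (1, 0,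
  0), (1, 1, 0), (1, 2, 0), (1, 3, 0), (3, 3, 4), (3, 3, 5)]

def T5 : List (List ℕ) := [[1, 2, 4, 8, 16, 32, 64, 128], [256, 512, 1024, 2048, 4096, 8192,
  16384], [63493659418, 62538603291, 46318243866, 60919339954, 57297497044, 63485008666],
  [1048576, 28178374532, 60835257246, 56173292436, 34359738368], [4194304, 43572480901,
  35756329877, 46305123098], [33554432, 100794433, 25904306999], [67108929, 21743561685],
  [262144]]

theorem f5 : S.form 5 C5 E5 T5 0 = true := by decide +kernel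

def C6 : List ℕ := [32, 8, 67, 36, 96, 202, 4, 128, 29, 133, 16, 2]

def E6 : List (ℕ × ℕ × ℕ) := [(0, 15, 0), (2, 15, 1), (2, 15, 2), (2, 15, 3), (2, 15, 4), (2, 15,
  5), (2, 15, 6), (2, 15, 7), (0, 16, 0), (2, 16, 2), (2, 16, 3), (2, 16, 4), (2, 16, 5), (2, 16,
  6), (2, 16, 7), (0, 0, 0), (0, 1, 0), (0, 2, 0), (0, 3, 0), (0, 4, 0), (0, 5, 0), (0, 6, 0), (0,
  7, 0), (0, 8, 0), (0, 9, 0), (0, 10, 0), (0, 11, 0), (0, 12, 0), (0, 13, 0), (0, 14, 0), (1, 0,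
  0), (1, 1, 0), (1, 2, 0), (1, 3, 0), (3, 0, 1), (3, 0, 2)]

def T6 : List (List ℕ) := [[1, 2, 4, 8, 16, 32, 64, 128], [256, 512, 1024, 2048, 4096, 8192,
  16384], [4194304, 55034319912, 41667883739, 4784128, 138674755, 79691909], [131072, 23380518638,
  4861806509, 7010480838, 59396543405], [268435456, 17185907011, 41533690331, 45992326618],
  [65536, 1384771, 545325056], [270659, 53505844520], [8388608]]

theorem f6 : S.form 6 C6 E6 T6 0 = true := by decide +kernel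

def C7 : List ℕ := [24, 104, 136, 4, 3, 2, 129, 35, 70, 80, 88, 204]

def E7 : List (ℕ × ℕ × ℕ) := [(0, 0, 0), (0, 1, 0), (0, 2, 0), (0, 3, 0), (0, 4, 0), (0, 5, 0),
  (0, 6, 0), (0, 7, 0), (0, 8, 0), (0, 9, 0), (0, 10, 0), (0, 11, 0), (0, 12, 0), (0, 13, 0), (0,
  14, 0), (0, 15, 0), (0, 16, 0), (1, 0, 0), (1, 1, 0), (1, 2, 0), (1, 3, 0), (3, 1, 2), (3, 4,
  5), (3, 7, 8), (3, 9, 10), (3, 11, 12), (3, 13, 14), (4, 0, 0), (4, 1, 0), (4, 2, 0), (4, 3, 0),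
  (4, 4, 0), (4, 5, 0), (4, 6, 0), (4, 7, 0), (4, 8, 0)]

def T7 : List (List ℕ) := [[138936336, 138936432, 138412032, 52995269547, 36432569254,
  54277906319, 2032951328, 61654797060], [64, 134217728, 63722160156, 44337227216, 54277905583,
  1353999824, 38446054771], [16, 21759279490, 23760732160, 4307566992, 414466434, 4433379328],
  [24208823609, 35433480192, 24208955193, 59642314041, 51276734117], [59642303803, 58566596409,
  58568572217, 15574818469], [512, 58568695103, 42992052616], [1073750018, 41388629283],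
  [61515860884]]

theorem f7 : S.form 7 C7 E7 T7 0 = true := by decide +kernel

theorem _root_.Pool.Agent.WarR.sd_7_8_17_4 {K : Type*} [Field K] [CharZero K] : KQ K 8 8 17 4 1 := by
  refine SeedD.main S (by decide +kernel) (fun k => ([0, 0, 0, 1, 0, 0, 0, 0] : List ℕ).getD k 0) 1 ?_
    (by decide +kernel)
  intro k hk
  have hk' : k < 8 := hk
  interval_cases k
  · exact ⟨C0, E0, T0, f0⟩
  · exact ⟨C1, E1, T1, f1⟩
  · exact ⟨C2, E2, T2, f2⟩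
  · exact ⟨C3, E3, T3, f3⟩
  · exact ⟨C4, E4, T4, f4⟩
  · exact ⟨C5, E5, T5, f5⟩
  · exact ⟨C6, E6, T6, f6⟩
  · exact ⟨C7, E7, T7, f7⟩

end T_7_8_17_4

end Pool.Agent.WarR
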