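import Mathlib

/-!
# MP_db021c_ag, d = 2: the numerical assignment of the stars   (helper4)

`stars`: every `F ≤ C(r,2)` is a sum of distinct star sizes `r-1-i` (greedy, few stars).
`flow`: the cyclic assignment with two suppliers (notes 2404, 2407, 2408), both sides at once.
-/

set_option autoImplicit false

namespace Pool.Agent.WarR.N4

/-- Every `F ≤ C(r,2)` is a sum of distinct star sizes `r-1-i`, and the greedy choice uses at most `t` stars
as soon as `F` is at most the sum of the `t` largest. -/
theorem stars (r : ℕ) : ∀ F : ℕ, 2 * F ≤ r * (r - 1) → ∃ S : Finset (Fin r),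
    (∑ i ∈ S, (r - 1 - (i : ℕ))) = F ∧ ∀ t : ℕ, t ≤ r → 2 * F ≤ t * (2 * r - 1 - t) → S.card ≤ t := by
  induction r with
  | zero =>
    intro F hF
    refine ⟨∅, ?_, fun t _ _ => by simp⟩
    simp at hF ⊢
    omega
  | succ r ih =>
    intro F hF
    rcases Nat.lt_or_ge F r with h | h
    · -- one star
      rcases Nat.eq_zero_or_pos F with h0 | h0
      · exact ⟨∅, by simp [h0], fun t _ _ => by simp⟩
      · refine ⟨{⟨r - F, by omega⟩}, ?_, fun t _ ht => ?_⟩
        · simp only [Finset.sum_singleton]
          omega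
        · rw [Finset.card_singleton]
          rcases Nat.eq_zero_or_pos t with h1 | h1
          · subst h1; omega
          · exact h1
    · rcases Nat.eq_zero_or_pos F with h0 | h0
      · exact ⟨∅, by simp [h0], fun t _ _ => by simp⟩
      obtain ⟨S, hS, hc⟩ := ih (F - r) (by
        have : (r + 1) * (r + 1 - 1) = r * (r - 1) + 2 * r := by
          rcases r with _ | r
          · simp
          · simp only [Nat.add_sub_cancel]; ring
        omega)
      refine ⟨insert 0 (S.map (Fin.succEmb r)), ?_, fun t ht h2 => ?_⟩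
      · rw [Finset.sum_insert (by simp [Fin.succ_ne_zero])]
        rw [Finset.sum_map]
        simp only [Fin.val_zero, Fin.coe_succEmb, Fin.val_succ]
        have h3 : ∀ i ∈ S, r + 1 - 1 - ((i : ℕ) + 1) = r - 1 - (i : ℕ) := fun i _ => by omega
        rw [Finset.sum_congr rfl h3, hS]
        omega
      · rw [Finset.card_insert_of_notMem (by simp [Fin.succ_ne_zero]), Finset.card_map]
        rcases t with _ | t
        · omega
        · have h4 : S.card ≤ t := by
            refine hc t (by omega) ?_
            have e1 : (t + 1) * (2 * (r + 1) - 1 - (t + 1)) = t * (2 * r - 1 - t) + 2 * r := by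
              obtain ⟨u, hu⟩ : ∃ u, r = t + u := ⟨r - t, by omega⟩
              subst hu
              rcases Nat.eq_zero_or_pos t with h5 | h5
              · subst h5
                simp
                omega
              · have a1 : 2 * (t + u + 1) - 1 - (t + 1) = t + 2 * u := by omega
                have a2 : 2 * (t + u) - 1 - t = t + 2 * u - 1 := by omega
                rw [a1, a2]
                obtain ⟨v, hv⟩ : ∃ v, t + 2 * u = v + 1 := ⟨t + 2 * u - 1, by omega⟩
                rw [hv, Nat.add_sub_cancel]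
                have : 2 * (t + u) = t + (v + 1) := by omega
                rw [this]
                ring
            omega
          omega

open Finset

section Flow

variable (n b x : ℕ)

/-- the residue `j x mod b` -/
def rho (j : ℕ) : ℕ := (j * x) % b
/-- `floor (j x / b)` -/
def RR (j : ℕ) : ℕ := (j * x) / b
/-- `floor (n ρ_j / b)` -/
def cc (j : ℕ) : ℕ := (n * rho b x j) / b
/-- the size of the group `j` -/
def rr (j : ℕ) : ℕ := RR b x (j + 1) - RR b x j
/-- the number `W_j`, the floor or the ceiling of `n x / b` -/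
def WW (j : ℕ) : ℕ := (j + 1) * (n * x) / b - j * (n * x) / b

theorem RR_rho (j : ℕ) : b * RR b x j + rho b x j = j * x := by
  unfold RR rho
  exact Nat.div_add_mod _ _

variable {b} (hb : 0 < b)
include hb

theorem rho_lt (j : ℕ) : rho b x j < b := Nat.mod_lt _ hb

/-- one step -/
theorem stepR {q s : ℕ} (hx : b * q + s = x) (hs : s < b) (j : ℕ) :
    (RR b x (j + 1) = RR b x j + q ∧ rho b x (j + 1) = rho b x j + s) ∨
    (RR b x (j + 1) = RR b x j + q + 1 ∧ rho b x (j + 1) + b = rho b x j + s) := by
  have h1 := RR_rho b x j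
  have h2 := RR_rho b x (j + 1)
  have h3 := rho_lt x hb j
  have h4 := rho_lt x hb (j + 1)
  have h7 : (j + 1) * x = j * x + x := by ring
  rw [h7] at h2
  rcases Nat.lt_or_ge (rho b x j + s) b with h | h
  · left
    have h8 : b * (RR b x j + q) + (rho b x j + s) = j * x + x := by
      rw [Nat.mul_add]; omega
    have h9 : RR b x (j + 1) = RR b x j + q := by
      have e1 : RR b x (j + 1) = (j * x + x) / b := by unfold RR; rw [h7]
      rw [e1, ← h8, Nat.mul_add_div hb, Nat.div_eq_of_lt h, Nat.add_zero]
    refine ⟨h9, ?_⟩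
    rw [h9] at h2
    omega
  · right
    have h8 : b * (RR b x j + q + 1) + (rho b x j + s - b) = j * x + x := by
      rw [Nat.mul_add, Nat.mul_add, Nat.mul_one]; omega
    have h9 : RR b x (j + 1) = RR b x j + q + 1 := by
      have e1 : RR b x (j + 1) = (j * x + x) / b := by unfold RR; rw [h7]
      have e3 : rho b x j + s - b < b := by omega
      rw [e1, ← h8, Nat.mul_add_div hb, Nat.div_eq_of_lt e3, Nat.add_zero]
    refine ⟨h9, ?_⟩
    rw [h9] at h2
    omega

theorem RR_mono (j : ℕ) : RR b x j ≤ RR b x (j + 1) := by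
  have h := stepR x hb (Nat.div_add_mod x b) (Nat.mod_lt x hb) j
  generalize x / b = q at h
  rcases h with ⟨h1, _⟩ | ⟨h1, _⟩
  · rw [h1]; exact Nat.le_add_right _ _
  · rw [h1, Nat.add_assoc]; exact Nat.le_add_right _ _

theorem rr_cases {q s : ℕ} (hx : b * q + s = x) (hs : s < b) (j : ℕ) :
    (rr b x j = q ∧ s ≤ rho b x (j + 1)) ∨ (rr b x j = q + 1 ∧ rho b x (j + 1) < s) := by
  have h := rho_lt x hb j
  unfold rr
  rcases stepR x hb hx hs j with ⟨h1, h2⟩ | ⟨h1, h2⟩
  · left; omega
  · right; omega

theorem cc_lt (hn : 0 < n) (j : ℕ) : cc n b x j < n := by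
  unfold cc
  rw [Nat.div_lt_iff_lt_mul hb]
  exact Nat.mul_lt_mul_of_pos_left (rho_lt x hb j) hn

theorem A_eq (j : ℕ) : j * (n * x) / b = n * RR b x j + cc n b x j := by
  have h : j * (n * x) = b * (n * RR b x j) + n * rho b x j := by
    have := RR_rho b x j
    calc j * (n * x) = n * (j * x) := by ring
      _ = n * (b * RR b x j + rho b x j) := by rw [this]
      _ = _ := by ring
  rw [h, Nat.mul_add_div hb]
  rfl

theorem WW_cc (j : ℕ) : WW n b x j + cc n b x j = cc n b x (j + 1) + n * rr b x j := by
  unfold WW rr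
  rw [A_eq n x hb, A_eq n x hb]
  have h1 : RR b x j ≤ RR b x (j + 1) := RR_mono x hb j
  have h2 : n * RR b x j + cc n b x j ≤ n * RR b x (j + 1) + cc n b x (j + 1) := by
    rw [← A_eq n x hb, ← A_eq n x hb]
    exact Nat.div_le_div_right (Nat.mul_le_mul_right _ (Nat.le_succ j))
  have h3 : n * (RR b x (j + 1) - RR b x j) + n * RR b x j = n * RR b x (j + 1) := by
    rw [← Nat.mul_add, Nat.sub_add_cancel h1]
  omega

theorem RR_add (j : ℕ) : RR b x (j + b) = RR b x j + x := by
  unfold RR
  rw [Nat.add_mul, Nat.add_mul_div_left _ _ hb]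

theorem rho_add (j : ℕ) : rho b x (j + b) = rho b x j := by
  unfold rho
  rw [Nat.add_mul, Nat.add_mul_mod_self_left]

theorem cc_add (j : ℕ) : cc n b x (j + b) = cc n b x j := by
  unfold cc
  rw [rho_add x hb]

theorem rr_add (j : ℕ) : rr b x (j + b) = rr b x j := by
  unfold rr
  have : j + b + 1 = j + 1 + b := by omega
  rw [this, RR_add x hb, RR_add x hb]
  omega

theorem WW_add (j : ℕ) : WW n b x (j + b) = WW n b x j := by
  unfold WW
  have e1 : (j + b + 1) * (n * x) = (j + 1) * (n * x) + b * (n * x) := by ring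
  have e2 : (j + b) * (n * x) = j * (n * x) + b * (n * x) := by ring
  rw [e1, e2, Nat.add_mul_div_left _ _ hb, Nat.add_mul_div_left _ _ hb]
  omega

theorem sum_rr : ∑ j ∈ range b, rr b x j = x := by
  have h : ∀ m, ∑ j ∈ range m, rr b x j = RR b x m := by
    intro m
    induction m with
    | zero => simp [RR]
    | succ m ih =>
      rw [sum_range_succ, ih]
      unfold rr
      have := RR_mono x hb m
      omega
  rw [h]
  unfold RR
  exact Nat.mul_div_cancel_left _ hb

theorem sum_WW : ∑ j ∈ range b, WW n b x j = n * x := by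
  have h : ∀ m, ∑ j ∈ range m, WW n b x j = m * (n * x) / b := by
    intro m
    induction m with
    | zero => simp
    | succ m ih =>
      rw [sum_range_succ, ih]
      unfold WW
      have : m * (n * x) / b ≤ (m + 1) * (n * x) / b :=
        Nat.div_le_div_right (Nat.mul_le_mul_right _ (Nat.le_succ m))
      omega
  rw [h]
  exact Nat.mul_div_cancel_left _ hb

theorem WW_bounds (j : ℕ) : (n * x) / b ≤ WW n b x j ∧ b * WW n b x j < n * x + b := by
  have h1 : (j + 1) * (n * x) = j * (n * x) + n * x := by ring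
  unfold WW
  rw [h1]
  have h2 := Nat.div_add_mod (j * (n * x)) b
  have h3 := Nat.div_add_mod (j * (n * x) + n * x) b
  have h4 := Nat.mod_lt (j * (n * x)) hb
  have h5 := Nat.mod_lt (j * (n * x) + n * x) hb
  have h6 : j * (n * x) / b + (n * x) / b ≤ (j * (n * x) + n * x) / b := Nat.div_add_div_le_add_div
  refine ⟨by omega, ?_⟩
  rw [Nat.mul_sub]
  omega

end Flow

/-- **The numerical assignment.** Groups and forms are numbered by integers mod `b` (all functions have period `b`),
`x = b q + s`. `r j` = size of the group `j`; group `j` sends `F j` pairs to the form `j + 2` and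
`C(r j, 2) - F j` pairs to the form `j + 1`; so the form `j + 2` receives
`F j + (C(r (j+1), 2) - F (j+1)) = W (j+2) + C(r (j+2), 2) - n r (j+2)`. -/
theorem flow (n b x q s : ℕ) (hn : 0 < n) (hx : b * q + s = x) (hs : s < b) : ∃ r F W : ℕ → ℕ,
    (∀ j, r (j + b) = r j) ∧ (∀ j, F (j + b) = F j) ∧ (∀ j, W (j + b) = W j) ∧
    (∀ j, r j = q ∨ r j = q + 1) ∧ (∑ j ∈ range b, r j = x) ∧
    (∑ j ∈ range b, W j = n * x) ∧ (∀ j, (n * x) / b ≤ W j ∧ b * W j < n * x + b) ∧
    (∀ j, F j ≤ max (n - 1) q) ∧
    ∀ j, F j + (r (j + 1)).choose 2 + n * r (j + 2) = W (j + 2) + (r (j + 2)).choose 2 + F (j + 1) := by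
  classical
  have hb : 0 < b := by omega
  let v : ℕ → ℕ := fun i => (rr b x i).choose 2 + cc n b x (i + 1)
  have vadd : ∀ i, v (i + b) = v i := by
    intro i
    simp only [v]
    have : i + b + 1 = i + 1 + b := by omega
    rw [this, rr_add x hb, cc_add n x hb]
  have hne : (range b).Nonempty := ⟨0, mem_range.2 hb⟩
  let M : ℕ := (range b).sup' hne v
  have vmod : ∀ i, v i = v (i % b) := by
    intro i
    induction i using Nat.strong_induction_on with
    | _ i ih =>
      rcases Nat.lt_or_ge i b with h | h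
      · rw [Nat.mod_eq_of_lt h]
      · have h1 := ih (i - b) (by omega)
        have h2 := vadd (i - b)
        rw [Nat.sub_add_cancel h] at h2
        rw [h2, h1, ← Nat.mod_eq_sub_mod h]
  have vM : ∀ i, v i ≤ M := by
    intro i
    rw [vmod i]
    exact le_sup' v (mem_range.2 (Nat.mod_lt _ hb))
  have Mv : ∃ i, M = v i := by
    obtain ⟨i, _, hi⟩ := exists_mem_eq_sup' hne v
    exact ⟨i, hi⟩
  have diff : ∀ i k, v i ≤ v k + max (n - 1) q := by
    intro i k
    have c1 := cc_lt n x hb hn (i + 1)
    have m1 : n - 1 ≤ max (n - 1) q := le_max_left _ _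
    have m2 : q ≤ max (n - 1) q := le_max_right _ _
    simp only [v]
    rcases rr_cases x hb hx hs i with ⟨h1, h2⟩ | ⟨h1, h2⟩ <;>
      rcases rr_cases x hb hx hs k with ⟨h3, h4⟩ | ⟨h3, h4⟩ <;> rw [h1, h3]
    · omega
    · have : q.choose 2 ≤ (q + 1).choose 2 := Nat.choose_le_choose 2 (Nat.le_succ _)
      omega
    · have e1 : (q + 1).choose 2 = q.choose 2 + q := by
        rw [Nat.choose_succ_succ' q 1, Nat.choose_one_right]
        exact Nat.add_comm _ _
      have e2 : cc n b x (i + 1) ≤ cc n b x (k + 1) := by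
        unfold cc
        exact Nat.div_le_div_right (Nat.mul_le_mul_left _ (by omega))
      omega
    · omega
  refine ⟨rr b x, fun j => M - v (j + 1), WW n b x, rr_add x hb, ?_, WW_add n x hb, ?_, sum_rr x hb,
    sum_WW n x hb, WW_bounds n x hb, ?_, ?_⟩
  · intro j
    have : j + b + 1 = j + 1 + b := by omega
    simp only [this, vadd]
  · intro j
    rcases rr_cases x hb hx hs j with ⟨h1, _⟩ | ⟨h1, _⟩
    · exact Or.inl h1
    · exact Or.inr h1
  · intro j
    obtain ⟨i, hi⟩ := Mv
    have := diff i (j + 1)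
    simp only
    omega
  · intro j
    have h1 := vM (j + 1)
    have h2 := vM (j + 2)
    have h3 := WW_cc n x hb (j + 2)
    simp only [v] at h1 h2 ⊢
    have e1 : j + 1 + 1 = j + 2 := rfl
    have e2 : j + 2 + 1 = j + 3 := rfl
    simp only [e1, e2] at h1 h2 h3 ⊢
    omega

end Pool.Agent.WarR.N4
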