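import Pool.Agent.WarR.ChainN
import Pool.Agent.WarR.Sdef
import Pool.Agent.WarR.Num4

/-!
# The windows of small level, `5 ≤ n ≤ 31`   (helper34)

A window `(n, b, x)`: `E(n - 1, b, x) < 0` and (`E(n, b, x) ≥ 0` or `x` is the first number with
`E(n, b, x) < 0`). The program `winOK` checks the rank condition of the chain theorem for the flow of
`Num4`, or a decomposition into two blocks of the same level, or looks into the list `seedL`.
-/

set_option autoImplicit false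

namespace Pool.Agent.WarR.SW

open Pool.Agent.WarR.N4

/-- the binomial coefficient `C(r, 2)` for the kernel -/
def c2 (r : ℕ) : ℕ := r * (r - 1) / 2

theorem c2_eq (r : ℕ) : c2 r = r.choose 2 := (Nat.choose_two_right r).symm

/-- the rank condition as a program -/
def rcb (m r₀ r₁ r₂ F₁ F₂ : ℕ) : Bool :=
  Nat.ble (r₀ + r₁ + r₂) m ||
    (Nat.beq F₂ 0 && Nat.ble (r₀ + (r₁ - gt r₁ F₁)) m) ||
    (Nat.ble (r₀ + r₂) m && Nat.ble (r₀ + (r₁ - gt r₁ F₁) + gs r₂ F₂) m &&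
      Nat.ble ((r₁ - gt r₁ F₁) + (r₂ - gs r₂ F₂) + (c2 r₁ - F₁)) (c2 (m - r₀ - gs r₂ F₂ + 1)))

theorem rcb_sound {m r₀ r₁ r₂ F₁ F₂ : ℕ} (h : rcb m r₀ r₁ r₂ F₁ F₂ = true) :
    RC m r₀ r₁ r₂ F₁ F₂ := by
  unfold rcb at h
  unfold RC
  simp only [Bool.or_eq_true, Bool.and_eq_true, Nat.ble_eq, Nat.beq_eq, c2_eq] at h
  tauto

/-- `C(r_k, 2) + c_(k+1)` -/
def vv (n b x k : ℕ) : ℕ := c2 (rr b x k) + cc n b x (k + 1)

/-- the flow -/
def FF (n b x κ j : ℕ) : ℕ := κ - vv n b x (j + 1)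

/-- the conditions for the form `k + 2` -/
def chk1 (n b x κ k : ℕ) : Bool :=
  Nat.ble (vv n b x (k + 1)) κ && Nat.ble (2 * FF n b x κ k) (rr b x k * (rr b x k - 1)) &&
    Nat.ble (rr b x k) (n + 1) &&
    rcb (n + 1) (rr b x (k + 2)) (rr b x (k + 1)) (rr b x k) (FF n b x κ (k + 1)) (FF n b x κ k)

/-- `f k` for all `k < N` -/
def allB (f : ℕ → Bool) : ℕ → Bool
  | 0 => true
  | k + 1 => f k && allB f k

theorem allB_iff (f : ℕ → Bool) (N : ℕ) : allB f N = true ↔ ∀ k < N, f k = true := by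
  induction N with
  | zero => simp [allB]
  | succ N ih =>
    rw [allB, Bool.and_eq_true, ih]
    constructor
    · rintro ⟨h1, h2⟩ k hk
      rcases Nat.lt_succ_iff_lt_or_eq.1 hk with h | rfl
      · exact h2 k h
      · exact h1
    · intro h
      exact ⟨h N (Nat.lt_succ_self N), fun k hk => h k (Nat.lt_succ_of_lt hk)⟩

/-- `f k` for some `k < N` -/
def anyB (f : ℕ → Bool) : ℕ → Bool
  | 0 => false
  | k + 1 => f k || anyB f k

theorem anyB_iff (f : ℕ → Bool) (N : ℕ) : anyB f N = true ↔ ∃ k < N, f k = true := by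
  induction N with
  | zero => simp [anyB]
  | succ N ih =>
    rw [anyB, Bool.or_eq_true, ih]
    constructor
    · rintro (h | ⟨k, hk, h⟩)
      · exact ⟨N, Nat.lt_succ_self N, h⟩
      · exact ⟨k, Nat.lt_succ_of_lt hk, h⟩
    · rintro ⟨k, hk, h⟩
      rcases Nat.lt_succ_iff_lt_or_eq.1 hk with h' | rfl
      · exact Or.inr ⟨k, h', h⟩
      · exact Or.inl h

/-- the maximum of the `vv` -/
def mxv (n b x : ℕ) : ℕ → ℕ
  | 0 => 0
  | k + 1 => bif Nat.ble (mxv n b x k) (vv n b x k) then vv n b x k else mxv n b x k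

/-- the check of the chain -/
def rcAll (n b x : ℕ) : Bool := allB (chk1 n b x (mxv n b x b)) b

theorem vv_add (n : ℕ) {b : ℕ} (x : ℕ) (hb : 0 < b) (k : ℕ) : vv n b x (k + b) = vv n b x k := by
  unfold vv
  rw [show k + b + 1 = k + 1 + b by omega, rr_add x hb, cc_add n x hb]

theorem FF_add (n : ℕ) {b : ℕ} (x κ : ℕ) (hb : 0 < b) (k : ℕ) :
    FF n b x κ (k + b) = FF n b x κ k := by
  unfold FF
  rw [show k + b + 1 = k + 1 + b by omega, vv_add n x hb]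

theorem chk1_add (n : ℕ) {b : ℕ} (x κ : ℕ) (hb : 0 < b) (k : ℕ) :
    chk1 n b x κ (k + b) = chk1 n b x κ k := by
  unfold chk1
  rw [show k + b + 1 = k + 1 + b by omega, show k + b + 2 = k + 2 + b by omega, vv_add n x hb,
    FF_add n x κ hb, FF_add n x κ hb, rr_add x hb, rr_add x hb, rr_add x hb]

theorem per_mod' {α : Type*} {b : ℕ} {r : ℕ → α} (h : ∀ k, r (k + b) = r k) (k : ℕ) :
    r (k % b) = r k := by
  have h1 : ∀ a j, r (j + b * a) = r j := by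
    intro a
    induction a with
    | zero => intro j; simp
    | succ a ih =>
      intro j
      rw [show j + b * (a + 1) = (j + b * a) + b by ring, h, ih]
  have h2 := h1 (k / b) (k % b)
  rw [Nat.mod_add_div] at h2
  exact h2.symm

/-- the chain theorem for the flow of `Num4`: both sides -/
theorem SS_of_chk {K : Type*} [Field K] [CharZero K] {n b x κ : ℕ} (hb : 3 ≤ b)
    (h : ∀ k < b, chk1 n b x κ k = true) : SS K (n + 1) b x := by
  have hb0 : 0 < b := by omega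
  have hall : ∀ k, chk1 n b x κ k = true := by
    intro k
    rw [← per_mod' (chk1_add n x κ hb0) k]
    exact h _ (Nat.mod_lt _ hb0)
  have hk : ∀ k, vv n b x (k + 1) ≤ κ ∧ 2 * FF n b x κ k ≤ rr b x k * (rr b x k - 1) ∧
      rr b x k ≤ n + 1 ∧ RC (n + 1) (rr b x (k + 2)) (rr b x (k + 1)) (rr b x k)
        (FF n b x κ (k + 1)) (FF n b x κ k) := by
    intro k
    have := hall k
    unfold chk1 at this
    simp only [Bool.and_eq_true, Nat.ble_eq] at this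
    exact ⟨this.1.1.1, this.1.1.2, this.1.2, rcb_sound this.2⟩
  have hW : ∀ k, FF n b x κ k + (rr b x (k + 1)).choose 2 + n * rr b x (k + 2) =
      WW n b x (k + 2) + (rr b x (k + 2)).choose 2 + FF n b x κ (k + 1) := by
    intro k
    have h1 := (hk k).1
    have h2 := (hk (k + 1)).1
    have h3 := WW_cc n x hb0 (k + 2)
    unfold FF
    unfold vv at *
    rw [c2_eq] at h1 h2
    rw [c2_eq, c2_eq]
    have e1 : k + 1 + 1 = k + 2 := rfl
    have e2 : k + 2 + 1 = k + 3 := rfl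
    rw [e1] at *
    rw [e2] at *
    omega
  have hN : NV (n + 1) = (n + 2).choose 2 := by
    rw [Nat.choose_two_right]
    unfold NV
    rw [show n + 2 - 1 = n + 1 by omega, Nat.mul_comm]
  constructor
  · intro s w hs hw
    rw [Nat.add_sub_cancel] at hw
    refine chain_sup (K := K) (c := w) hb (rr b x) (FF n b x κ) (WW n b x) (rr_add x hb0)
      (FF_add n x κ hb0) (sum_rr x hb0) (by rw [← hN]; omega) (fun k => (hk k).2.1)
      (fun k => (hk k).2.2.1) hW (fun k => (hk k).2.2.2) fun k => ?_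
    refine le_trans ?_ (WW_bounds n x hb0 k).1
    rw [Nat.le_div_iff_mul_le hb0, Nat.mul_comm]
    exact hw
  · intro s w hs hw
    rw [Nat.add_sub_cancel] at hw ⊢
    refine chain_sub (K := K) (c := w) hb (rr b x) (FF n b x κ) (WW n b x) (rr_add x hb0)
      (FF_add n x κ hb0) (WW_add n x hb0) (sum_rr x hb0) (by rw [← hN]; omega)
      (fun k => (hk k).2.1) (fun k => (hk k).2.2.1) hW (fun k => (hk k).2.2.2) (fun k => ?_)
      (sum_WW n x hb0)
    have h1 := (WW_bounds n x hb0 k).2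
    have h2 : b * WW n b x k < b * (w + 1) := by rw [Nat.mul_add]; omega
    exact Nat.lt_succ_iff.1 (Nat.lt_of_mul_lt_mul_left h2)

/-- not the exception `b = 3`, `2 x = 3 n + 1` -/
def goodb (n b x : ℕ) : Bool := !(Nat.beq b 3 && Nat.beq (2 * x) (3 * n + 1))

/-- two blocks `(b1, x1)`, `(b - b1, x - x1)` of the same level, kernel `0` -/
def bs1 (n b x w b1 x1 : ℕ) : Bool :=
  Nat.ble 2 b1 && Nat.ble (b1 + 2) b && Nat.ble b1 x1 && Nat.ble (b - b1 + x1) x &&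
    Nat.ble (b1 * w) (n * x1) && Nat.ble ((b - b1) * w) (n * (x - x1)) &&
    goodb n b1 x1 && goodb n (b - b1) (x - x1)

/-- two blocks, kernel of the expected dimension -/
def bs2 (n b x w b1 x1 : ℕ) : Bool :=
  Nat.ble 2 b1 && Nat.ble (b1 + 2) b && Nat.ble b1 x1 && Nat.ble (b - b1 + x1) x &&
    Nat.ble (n * x1) (b1 * w) && Nat.ble (n * (x - x1)) ((b - b1) * w) &&
    goodb n b1 x1 && goodb n (b - b1) (x - x1)

end SW

/-- the seeds `(n, b, x, y, r)`: `KQ K (n + 1) b x y r` -/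
def seedL : List (ℕ × ℕ × ℕ × ℕ × ℕ) := [
  (5, 5, 9, 3, 0), (5, 6, 11, 1, 0), (6, 5, 11, 4, 0), (6, 6, 13, 2, 0), (6, 7, 13, 4, 0),
  (6, 7, 15, 0, 1), (7, 5, 13, 5, 0), (7, 5, 14, 3, 0), (7, 5, 14, 2, 2), (7, 7, 16, 4, 0),
  (7, 7, 17, 2, 0), (7, 7, 18, 0, 0), (7, 8, 17, 4, 1), (8, 6, 17, 5, 2), (8, 6, 19, 1, 0),
  (8, 7, 20, 2, 1), (8, 8, 21, 3, 0), (9, 7, 22, 5, 0), (9, 7, 24, 0, 1), (9, 8, 23, 6, 1),
  (9, 8, 25, 2, 0), (9, 9, 25, 5, 0), (9, 9, 26, 3, 0), (9, 10, 29, 0, 0), (10, 7, 27, 0, 3),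
  (10, 9, 28, 7, 0), (10, 10, 29, 8, 0), (10, 10, 31, 4, 0), (10, 10, 33, 0, 0), (10, 11, 32, 5, 0),
  (10, 11, 34, 1, 1), (11, 8, 31, 4, 3), (11, 8, 33, 0, 0), (11, 9, 32, 7, 0), (11, 9, 35, 0, 2),
  (11, 11, 35, 8, 0), (11, 11, 36, 6, 0), (11, 11, 37, 4, 0), (11, 11, 38, 2, 0), (11, 11, 39, 0, 0),
  (11, 12, 37, 7, 1), (12, 8, 33, 9, 0), (12, 9, 37, 5, 0), (12, 10, 39, 5, 2), (12, 10, 41, 1, 0),
  (12, 11, 43, 1, 1), (12, 12, 41, 9, 0), (12, 12, 43, 5, 0), (13, 9, 40, 7, 2), (13, 10, 43, 6, 1),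
  (13, 11, 45, 7, 0), (13, 12, 47, 7, 1), (13, 12, 49, 3, 0), (13, 13, 48, 9, 0), (13, 13, 49, 7, 0),
  (13, 13, 50, 5, 0), (13, 13, 51, 3, 0), (14, 10, 49, 2, 4), (14, 13, 53, 10, 0), (14, 14, 55, 10, 0),
  (14, 14, 57, 6, 0), (14, 14, 59, 2, 0), (14, 15, 59, 6, 0), (14, 15, 61, 2, 1), (15, 11, 54, 8, 4),
  (15, 11, 56, 4, 0), (15, 12, 59, 3, 3), (15, 13, 58, 11, 1), (15, 13, 59, 9, 0), (15, 15, 64, 8, 0),
  (15, 15, 67, 2, 0), (15, 15, 68, 0, 0), (15, 16, 65, 10, 1), (16, 12, 61, 11, 0), (16, 13, 64, 10, 3),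
  (16, 13, 66, 6, 0), (16, 14, 69, 5, 2), (16, 14, 71, 1, 0), (16, 15, 74, 0, 1), (16, 16, 71, 11, 0),
  (16, 16, 73, 7, 0), (16, 16, 75, 3, 0), (17, 15, 76, 9, 0), (17, 16, 79, 8, 1), (17, 16, 81, 4, 0),
  (17, 17, 79, 13, 0), (17, 17, 80, 11, 0), (17, 17, 81, 9, 0), (17, 17, 82, 7, 0), (17, 17, 83, 5, 0),
  (17, 17, 84, 3, 0), (18, 17, 86, 13, 0), (18, 18, 89, 12, 0), (18, 18, 91, 8, 0), (18, 18, 95, 0, 0),
  (18, 19, 94, 7, 0), (18, 19, 96, 3, 1), (19, 15, 89, 8, 4), (19, 16, 95, 2, 3), (19, 17, 93, 13, 1),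
  (19, 17, 94, 11, 0), (19, 19, 98, 14, 0), (19, 19, 99, 12, 0), (19, 19, 100, 10, 0), (19, 19, 101, 8, 0),
  (19, 19, 102, 6, 0), (19, 19, 103, 4, 0), (19, 19, 104, 2, 0), (19, 19, 105, 0, 0), (19, 20, 101, 13, 1),
  (20, 16, 97, 13, 0), (20, 17, 101, 11, 3), (20, 17, 103, 7, 0), (20, 18, 107, 5, 2), (20, 18, 109, 1, 0),
  (20, 20, 109, 13, 0), (20, 20, 111, 9, 0), (21, 19, 113, 15, 2), (21, 19, 115, 11, 0), (21, 20, 119, 9, 1),
  (21, 20, 121, 5, 0), (21, 21, 122, 9, 0), (21, 21, 124, 5, 0), (21, 21, 125, 3, 0), (22, 21, 127, 16, 0),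
  (22, 22, 131, 14, 0), (22, 22, 133, 10, 0), (22, 23, 137, 8, 0), (22, 23, 139, 4, 1), (23, 23, 142, 16, 0),
  (23, 23, 143, 14, 0), (23, 23, 144, 12, 0), (23, 23, 145, 10, 0), (23, 23, 146, 8, 0), (23, 23, 147, 6, 0),
  (23, 23, 148, 4, 0), (23, 23, 149, 2, 0), (23, 24, 145, 16, 1), (24, 24, 155, 15, 0), (25, 23, 160, 17, 2),
  (25, 24, 167, 10, 1), (25, 25, 173, 5, 0), (25, 25, 174, 3, 0), (26, 25, 176, 19, 0), (26, 26, 179, 20, 0),
  (26, 26, 181, 16, 0), (26, 26, 183, 12, 0), (26, 27, 188, 9, 0), (26, 27, 190, 5, 1), (27, 28, 197, 19, 1),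
  (31, 32, 257, 22, 1)]

/-- the hypothesis: the seeds -/
def SeedH (K : Type*) [Field K] : Prop :=
  ∀ p ∈ seedL, KQ K (p.1 + 1) p.2.1 p.2.2.1 p.2.2.2.1 p.2.2.2.2

namespace SW

/-- membership in the list of the seeds -/
def memS (n b x y r : ℕ) : Bool :=
  seedL.any fun p => Nat.beq p.1 n && Nat.beq p.2.1 b && Nat.beq p.2.2.1 x &&
    Nat.beq p.2.2.2.1 y && Nat.beq p.2.2.2.2 r

/-- kernel `0` with `w` -/
def supAt (n b x w : ℕ) : Bool :=
  anyB (fun b1 => bs1 n b x w b1 ((b1 * w + n - 1) / n)) b || memS n b x (NV (n + 1) - x - w) 0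

/-- the expected kernel with `w` -/
def subAt (n b x w : ℕ) : Bool :=
  anyB (fun b1 => bs2 n b x w b1 (b1 * w / n)) b ||
    memS n b x (NV (n + 1) - x - w) (b * w - n * x)

/-- the check of one window -/
def winOK (n b x : ℕ) : Bool :=
  rcAll n b x ||
  bif Nat.blt (b * NV (n + 1)) (x * (n + b)) then supAt n b x (NV (n + 1) - x)
  else subAt n b x ((n * x + b - 1) / b) &&
    (Nat.beq (n * x % b) 0 || supAt n b x ((n * x + b - 1) / b - 1))

/-- all windows of the level `n` -/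
def lvl (n : ℕ) : Bool :=
  allB (fun i => allB (fun j => winOK n (5 + i) ((5 + i) * NV n / (n - 1 + (5 + i)) + 1 + j))
    ((5 + i) * NV (n + 1) / (n + (5 + i)) + 1 - (5 + i) * NV n / (n - 1 + (5 + i)))) (n - 3)

end Pool.Agent.WarR.SW
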