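import Pool.Agent.WarR.Win4k
import Pool.Agent.WarR.Win56
import Pool.Agent.WarR.As

/-!
# MP_db021c_ag, d = 2: all base windows for `n ≥ 32`   (helper4)
-/

set_option autoImplicit false

namespace Pool.Agent.WarR

open Finset

theorem N4.RS.rc {n a b c F F1 : ℕ} (h : N4.RS n a b c F) (hab : a ≤ b + 1) :
    RC (n + 1) c b a F1 F := by
  rcases h with h | ⟨h, t, h1, h2, h3⟩
  · exact Or.inl (by omega)
  · have g := gs_le a F t h2 h1
    refine Or.inr (Or.inr ⟨by omega, by omega, ?_⟩)
    have e1 : (b + 2).choose 2 = b.choose 2 + 2 * b + 1 := by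
      rw [choose_succ_two, choose_succ_two]
      omega
    have e2 : (b + 2).choose 2 ≤ (n + 1 - c - gs a F + 1).choose 2 :=
      Nat.choose_le_choose 2 (by omega)
    omega

theorem N4.CW.ss {K : Type*} [Field K] [CharZero K] {n b x : ℕ} (hb : 3 ≤ b) (hx : x ≤ b * n)
    (h : N4.CW n b x) : SS K (n + 1) b x := by
  obtain ⟨M, h1, h2⟩ := h
  have hb0 : 0 < b := by omega
  have hr : ∀ j, N4.rr b x j = x / b ∨ N4.rr b x j = x / b + 1 := fun j => by
    rcases N4.rr_cases x hb0 (Nat.div_add_mod x b) (Nat.mod_lt x hb0) j with ⟨h1, _⟩ | ⟨h1, _⟩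
    · exact Or.inl h1
    · exact Or.inr h1
  have hq : x / b ≤ n := by
    have := Nat.div_le_div_right (c := b) hx
    rwa [Nat.mul_div_cancel_left _ hb0] at this
  refine SS_of_flow (M := M) hb (fun j hj => h1 j hj) (fun j hj => (h2 j hj).1) (fun j _ => ?_)
    fun j hj => (h2 j hj).2.rc ?_
  · rcases hr j with h | h <;> omega
  · rcases hr j with h | h <;> rcases hr (j + 1) with h' | h' <;> omega

/-- **The base windows for `n ≥ 32`.** -/
theorem Win_large {K : Type*} [Field K] [CharZero K] {n : ℕ} (hn : 32 ≤ n) : Win K n := by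
  intro b x hb hbn hlo hhi _
  rcases Nat.lt_or_ge b 7 with h7 | h7
  · exact win56 n b x hn (by omega) hlo hhi
  · have n1 := two_NV n
    have n2 := two_NV (n + 1)
    have e0 : n - 1 + b = n + b - 1 := by omega
    rw [e0] at hlo
    have k1 : b * (n * (n + 1)) < 2 * (x * (n + b - 1)) := by
      rw [← n1]
      have : b * (2 * NV n) = 2 * (b * NV n) := by ring
      omega
    have hx1 : 1 ≤ x := by
      rcases Nat.eq_zero_or_pos x with h | h
      · subst h
        simp at hlo
      · exact h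
    have k2 : 2 * (x * (n + b)) ≤ b * ((n + 1) * (n + 2)) + 2 * (n + b) := by
      have e1 : (n + 1) * (n + 2) = 2 * NV (n + 1) := by
        rw [n2]
      rw [e1]
      obtain ⟨z, rfl⟩ : ∃ z, x = z + 1 := ⟨x - 1, by omega⟩
      rw [Nat.add_sub_cancel] at hhi
      have e2 : (z + 1) * (n + b) = z * (n + b) + (n + b) := by ring
      have e3 : b * (2 * NV (n + 1)) = 2 * (b * NV (n + 1)) := by ring
      omega
    have hx : x ≤ b * n := by
      by_contra hcon
      push Not at hcon
      have e1 : (b * n + 1) * (n + b) ≤ x * (n + b) := Nat.mul_le_mul_right _ hcon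
      have e2 : b * ((n + 1) * (n + 2)) + 2 * (n + b) < 2 * ((b * n + 1) * (n + b)) := by
        obtain ⟨u, rfl⟩ : ∃ u, n = u + 32 := ⟨n - 32, by omega⟩
        obtain ⟨w, rfl⟩ : ∃ w, b = w + 7 := ⟨b - 7, by omega⟩
        nlinarith [Nat.zero_le (w * u), Nat.zero_le (w * w * u), Nat.zero_le (w * u * u),
          Nat.zero_le (w * w), Nat.zero_le (u * u)]
      omega
    refine N4.CW.ss (by omega) hx ?_
    rcases Nat.lt_or_ge n 39 with h | h
    · exact N4.cw_small hn (by omega) h7 hbn k1 k2
    · exact N4.cw_large h h7 hbn k1 k2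

end Pool.Agent.WarR
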