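import Pool.Agent.WarR.WinT
import Pool.Agent.WarR.As

/-!
# The windows of small level in the form of `As.lean`   (helper34)
-/

set_option autoImplicit false

namespace Pool.Agent.WarR

theorem Win_small {K : Type*} [Field K] [CharZero K] (hS : SeedH K) (n : ℕ) (hn : 5 ≤ n)
    (hn' : n ≤ 31) : Win K n :=
  fun b x h1 h2 h3 h4 h5 => win_small hS n b x hn hn' h1 h2 h3 h4 h5

end Pool.Agent.WarR
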