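import Pool.Agent.WarR.Glue
import Pool.Agent.WarR.HorK
import Pool.Agent.WarR.N23
import Pool.Agent.WarR.B34
import Pool.Agent.WarR.WinU
import Pool.Agent.WarR.Win4f
import Pool.Agent.WarR.SeedAll

/-!
# Degree 2: the final theorem (MP_db021c_ag)   (helper9)
-/

set_option autoImplicit false

namespace Pool.Agent.WarR

open Pool.Agent.War

/-- the step of the induction, over every field of characteristic `0` -/
theorem horStmtK {K : Type*} [Field K] [CharZero K] : HorStmt K :=
  fun _ _ _ _ _ _ _ h1 h2 h3 h4 h5 h6 h7 => HORK h1 h2 h3 h4 h5 h6 h7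

/-- all windows -/
theorem win_all {K : Type*} [Field K] [CharZero K] {n : ℕ} (hn : 5 ≤ n) : Win K n := by
  rcases Nat.lt_or_ge n 32 with h | h
  · exact Win_small seedAll n hn (by omega)
  · exact Win_large h

/-- **All levels**: for `n ≥ 4`, `2 ≤ b ≤ n + 1` quadratic forms in `n + 1` variables have the
expected kernels for all numbers of full and simple points, except `b = 3`, `n` odd,
`x = (3 n + 1) / 2`. -/
theorem levels {K : Type*} [Field K] [CharZero K] : ∀ n, 4 ≤ n → LV K n :=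
  LV.all horStmtK (LV.four (ss34 le_rfl)) (fun n hn => ss34 (by omega)) fun n hn => win_all hn

/-- the hypothesis of `W_two_of` -/
theorem KQ_all : ∀ n s h, 2 ≤ n → 3 ≤ s → s < NN n 2 → Crit n s h →
    (∀ h' < h, ¬ Crit n s h') → KQ ℂ (n + 1) s h 0 0 :=
  KQ_of_levels KQ_small levels

/-- **Degree 2.** -/
theorem W_two (n s h : ℕ) (hn : 2 ≤ n) (hs : 2 ≤ s) :
    Waring.W 2 h n s ↔ (min s ((n + 2).choose n) ≤ h ∧ s * (n + 2).choose n ≤ h * (n + s)) ∧
      ¬ (s = 3 ∧ Odd n ∧ 2 * h = 3 * n + 1) :=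
  W_two_of KQ_all n s h hn hs

end Pool.Agent.WarR
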