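import Pool.Agent.WarR.Chain2

/-!
# Chain assignments given by flows (MP_db021c_ag, degree 2)   (helper41)

`st r u`: at most two stars of a group of `r` points, of total size `u`. `flow_chain`: the chain assignment in which
the group `j` gives stars of total size `u j` to the form `j + 2`, and all the other pairs to the form `j + 1`.
`chain3`, `chain4`: the numerical conditions for `b = 3, 4`.
-/

set_option autoImplicit false

open Module

namespace Pool.Agent.WarR

open Pool.Agent.War Chain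

/-- at most two stars of total size `u` -/
def st (r u : ℕ) : Finset (Fin r) :=
  Finset.univ.filter fun i => (0 < u ∧ (i : ℕ) + u + 1 = r) ∨
    (r ≤ u ∧ ((i : ℕ) = 0 ∨ (i : ℕ) + u + 2 = 2 * r))

theorem mem_st {r u : ℕ} {i : Fin r} : i ∈ st r u ↔ (0 < u ∧ (i : ℕ) + u + 1 = r) ∨
    (r ≤ u ∧ ((i : ℕ) = 0 ∨ (i : ℕ) + u + 2 = 2 * r)) := by
  unfold st
  rw [Finset.mem_filter]
  exact ⟨fun h => h.2, fun h => ⟨Finset.mem_univ _, h⟩⟩

/-- number of the stars -/
def nc (r u : ℕ) : ℕ := if u = 0 then 0 else if u < r then 1 else 2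

/-- is the largest star among them -/
def tpp (r u : ℕ) : ℕ := if 0 < u ∧ r ≤ u + 1 then 1 else 0

/-- number of points which are neither centres nor leaves -/
def tqq (r u : ℕ) : ℕ := if u < r then r - 1 - u else 0

theorem st_zero (r : ℕ) : st r 0 = ∅ := by
  rw [Finset.eq_empty_iff_forall_notMem]
  intro i hi
  have := i.2
  rcases mem_st.1 hi with h | h <;> omega

theorem st_one {r u : ℕ} (h0 : 0 < u) (h : u < r) : st r u = {⟨r - 1 - u, by omega⟩} := by
  ext i
  rw [Finset.mem_singleton, mem_st, Fin.ext_iff]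
  change _ ↔ (i : ℕ) = r - 1 - u
  omega

theorem st_two {r u : ℕ} (h : r ≤ u) (h2 : u + 3 ≤ 2 * r) :
    st r u = {⟨0, by omega⟩, ⟨2 * r - 2 - u, by omega⟩} := by
  ext i
  rw [Finset.mem_insert, Finset.mem_singleton, mem_st, Fin.ext_iff, Fin.ext_iff]
  change _ ↔ (i : ℕ) = 0 ∨ (i : ℕ) = 2 * r - 2 - u
  omega

theorem cs_st {r u : ℕ} (h : u < r ∨ u + 3 ≤ 2 * r) : cs (st r u) = u := by
  rcases Nat.eq_zero_or_pos u with rfl | h0
  · rw [st_zero]
    rfl
  rcases Nat.lt_or_ge u r with h1 | h1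
  · rw [st_one h0 h1, cs, Finset.sum_singleton]
    change r - 1 - (r - 1 - u) = u
    omega
  · have h2 : u + 3 ≤ 2 * r := by omega
    rw [st_two h1 h2, cs, Finset.sum_pair]
    · change r - 1 - 0 + (r - 1 - (2 * r - 2 - u)) = u
      omega
    · intro e
      have := congrArg Fin.val e
      change 0 = 2 * r - 2 - u at this
      omega

theorem card_st {r u : ℕ} (h : u < r ∨ u + 3 ≤ 2 * r) : (st r u).card = nc r u := by
  unfold nc
  rcases Nat.eq_zero_or_pos u with rfl | h0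
  · rw [st_zero, if_pos rfl]
    rfl
  rw [if_neg (by omega)]
  rcases Nat.lt_or_ge u r with h1 | h1
  · rw [st_one h0 h1, Finset.card_singleton, if_pos h1]
  · have h2 : u + 3 ≤ 2 * r := by omega
    rw [st_two h1 h2, Finset.card_pair, if_neg (by omega)]
    intro e
    have := congrArg Fin.val e
    change 0 = 2 * r - 2 - u at this
    omega

theorem tpp_st {r u : ℕ} (i : Fin r) (h : (i : ℕ) < tpp r u) : i ∈ st r u := by
  rw [mem_st]
  unfold tpp at h
  split_ifs at h with h1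
  · omega
  · omega

theorem tqq_st {r u : ℕ} (i : Fin r) (h : i ∈ st r u) : tqq r u ≤ (i : ℕ) := by
  rw [mem_st] at h
  unfold tqq
  split_ifs with h1
  · omega
  · omega

/-- the rank condition for a form with its own `rk` points, the previous group (`rp` points, flow `up`)
and the group before (`rpp` points, flow `upp`) -/
def cnd (m rk rp up rpp upp : ℕ) : Prop :=
  rk + rp + rpp ≤ m ∨ (upp = 0 ∧ rk + (rp - tpp rp up) ≤ m) ∨
    (rk + (rpp - tqq rpp upp) ≤ m ∧ rk + (rp - tpp rp up) + nc rpp upp ≤ m ∧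
      (rp - tpp rp up) + (rpp - tqq rpp upp - nc rpp upp) + (rp.choose 2 - up) ≤
        (m - rk - nc rpp upp + 1).choose 2)

/-- the dimension for this form -/
def dfc (m x y rk rp up upp : ℕ) : ℕ :=
  (m + 1 - rk).choose 2 - ((x - rk) + y + upp + (rp.choose 2 - up))

theorem flow_chain {K : Type*} [Field K] [CharZero K] {m b y : ℕ} [NeZero b] (hb : 3 ≤ b)
    (r u : Fin b → ℕ) (hu : ∀ j, u j < r j ∨ u j + 3 ≤ 2 * r j) (hr : ∀ k, r k ≤ m)
    (hR : ∀ k, cnd m (r k) (r (k - 1)) (u (k - 1)) (r (k - 2)) (u (k - 2))) :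
    KQ K m b (∑ k, r k) y
      (∑ k, dfc m (∑ j, r j) y (r k) (r (k - 1)) (u (k - 1)) (u (k - 2))) := by
  have hcc : ∀ j, cs (st (r j) (u j))ᶜ = (r j).choose 2 - u j := by
    intro j
    have h1 := cs_add_compl (st (r j) (u j))
    rw [cs_st (hu j)] at h1
    omega
  have h := chain_sets' (K := K) (y := y) hb r (fun j => st (r j) (u j)) (fun j => tpp (r j) (u j))
    (fun j => tqq (r j) (u j)) (fun j i hi => tpp_st i hi) (fun j i hi => tqq_st i hi) hr (by
      intro k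
      rcases hR k with h | ⟨h1, h2⟩ | ⟨h1, h2, h3⟩
      · exact Or.inl h
      · exact Or.inr (Or.inl ⟨by rw [h1, st_zero], h2⟩)
      · refine Or.inr (Or.inr ⟨h1, ?_, ?_⟩)
        · rw [card_st (hu _)]
          exact h2
        · rw [card_st (hu _), hcc]
          exact h3)
  simp only [cs_st (hu _), hcc] at h
  exact h

theorem chain3 {K : Type*} [Field K] [CharZero K] {m x y R : ℕ} (r0 r1 r2 u0 u1 u2 : ℕ)
    (hx : r0 + r1 + r2 = x) (hm : r0 ≤ m ∧ r1 ≤ m ∧ r2 ≤ m)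
    (h0 : u0 < r0 ∨ u0 + 3 ≤ 2 * r0) (h1 : u1 < r1 ∨ u1 + 3 ≤ 2 * r1)
    (h2 : u2 < r2 ∨ u2 + 3 ≤ 2 * r2)
    (c0 : cnd m r0 r2 u2 r1 u1) (c1 : cnd m r1 r0 u0 r2 u2) (c2 : cnd m r2 r1 u1 r0 u0)
    (hR : dfc m x y r0 r2 u2 u1 + dfc m x y r1 r0 u0 u2 + dfc m x y r2 r1 u1 u0 ≤ R) :
    KQ K m 3 x y R := by
  have h := flow_chain (K := K) (m := m) (b := 3) (y := y) le_rfl ![r0, r1, r2] ![u0, u1, u2] (by
    intro j
    fin_cases j
    · exact h0
    · exact h1
    · exact h2) (by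
    intro j
    fin_cases j
    · exact hm.1
    · exact hm.2.1
    · exact hm.2.2) (by
    intro j
    fin_cases j
    · exact c0
    · exact c1
    · exact c2)
  have e1 : ∑ k, ![r0, r1, r2] k = x := by
    rw [Fin.sum_univ_three]
    exact hx
  rw [e1, Fin.sum_univ_three] at h
  exact h.mono hR

theorem chain4 {K : Type*} [Field K] [CharZero K] {m x y R : ℕ} (r0 r1 r2 r3 u0 u1 u2 u3 : ℕ)
    (hx : r0 + r1 + r2 + r3 = x) (hm : r0 ≤ m ∧ r1 ≤ m ∧ r2 ≤ m ∧ r3 ≤ m)
    (h0 : u0 < r0 ∨ u0 + 3 ≤ 2 * r0) (h1 : u1 < r1 ∨ u1 + 3 ≤ 2 * r1)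
    (h2 : u2 < r2 ∨ u2 + 3 ≤ 2 * r2) (h3 : u3 < r3 ∨ u3 + 3 ≤ 2 * r3)
    (c0 : cnd m r0 r3 u3 r2 u2) (c1 : cnd m r1 r0 u0 r3 u3) (c2 : cnd m r2 r1 u1 r0 u0)
    (c3 : cnd m r3 r2 u2 r1 u1)
    (hR : dfc m x y r0 r3 u3 u2 + dfc m x y r1 r0 u0 u3 + dfc m x y r2 r1 u1 u0 +
      dfc m x y r3 r2 u2 u1 ≤ R) :
    KQ K m 4 x y R := by
  have h := flow_chain (K := K) (m := m) (b := 4) (y := y) (by norm_num) ![r0, r1, r2, r3]
    ![u0, u1, u2, u3] (by
    intro j
    fin_cases j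
    · exact h0
    · exact h1
    · exact h2
    · exact h3) (by
    intro j
    fin_cases j
    · exact hm.1
    · exact hm.2.1
    · exact hm.2.2.1
    · exact hm.2.2.2) (by
    intro j
    fin_cases j
    · exact c0
    · exact c1
    · exact c2
    · exact c3)
  have e1 : ∑ k, ![r0, r1, r2, r3] k = x := by
    rw [Fin.sum_univ_four]
    exact hx
  rw [e1, Fin.sum_univ_four] at h
  exact h.mono hR

end Pool.Agent.WarR
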