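import Pool.Agent.WarR.As
import Pool.Agent.WarR.Quad

/-!
# Degree 2: from the inputs of the induction to property `W`   (helper9)
-/

set_option autoImplicit false

namespace Pool.Agent.WarR

open Pool.Agent.War

theorem NN_two (n : ℕ) : NN n 2 = NV (n + 1) := by
  have h1 := two_NN n
  have h2 := two_NV (n + 1)
  have h3 : (n + 1) * (n + 2) = (n + 1) * (n + 1 + 1) := rfl
  omega

theorem Crit.good {n s h : ℕ} (hc : Crit n s h) : Good n s h := by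
  rintro ⟨h1, h2⟩
  exact hc.2.2 ⟨h1, ⟨n / 2, by omega⟩, h2⟩

/-- the hypothesis of `W_two_of` from the levels -/
theorem KQ_of_levels (h23 : ∀ n s h, 2 ≤ n → n ≤ 3 → 3 ≤ s → s < NN n 2 → Crit n s h →
      (∀ h' < h, ¬ Crit n s h') → KQ ℂ (n + 1) s h 0 0)
    (hl : ∀ n, 4 ≤ n → LV ℂ n) :
    ∀ n s h, 2 ≤ n → 3 ≤ s → s < NN n 2 → Crit n s h → (∀ h' < h, ¬ Crit n s h') →
      KQ ℂ (n + 1) s h 0 0 := by
  intro n s h hn hs hN hc hmin
  rcases Nat.lt_or_ge n 4 with h4 | h4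
  · exact h23 n s h hn (by omega) hs hN hc hmin
  · rw [NN_two] at hN
    have hc2 := hc.2.1
    rw [NN_two] at hc2
    exact (hl n h4).target h4 (by omega) hN.le hc.1 hc2 hc.good

/-- **Degree 2 from the inputs.** -/
theorem W_two_inputs (HH : HorStmt ℂ)
    (h23 : ∀ n s h, 2 ≤ n → n ≤ 3 → 3 ≤ s → s < NN n 2 → Crit n s h →
      (∀ h' < h, ¬ Crit n s h') → KQ ℂ (n + 1) s h 0 0)
    (h34 : ∀ n, 4 ≤ n → SS34 ℂ n) (hsmall : ∀ n, 5 ≤ n → n ≤ 31 → Win ℂ n)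
    (hlarge : ∀ n, 32 ≤ n → Win ℂ n) (n s h : ℕ) (hn : 2 ≤ n) (hs : 2 ≤ s) :
    Waring.W 2 h n s ↔ (min s ((n + 2).choose n) ≤ h ∧ s * (n + 2).choose n ≤ h * (n + s)) ∧
      ¬ (s = 3 ∧ Odd n ∧ 2 * h = 3 * n + 1) := by
  refine W_two_of (KQ_of_levels h23 (LV.all HH (LV.four (h34 4 le_rfl))
    (fun n hn => h34 n (by omega)) fun n hn => ?_)) n s h hn hs
  rcases Nat.lt_or_ge n 32 with h1 | h1
  · exact hsmall n hn (by omega)
  · exact hlarge n h1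

end Pool.Agent.WarR
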