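import Pool.Agent.WarR.Hor1

/-!
# The step `m → m + 1` for all `b ≤ 2 (m - w)`   (helper68)

All full points on the hyperplane, one split simple point, `m - w + 1` simple points off the
hyperplane. The special configuration of `Hor1.lean` and the compactness of the orthonormal frames
give the residual lemma for a general configuration.
-/

set_option autoImplicit false

open Module Filter Topology

namespace Pool.Agent.WarR

open Pool.Agent.War

namespace HOR2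

/-- orthonormal frames -/
def Fr (κ b : ℕ) : Set (Fin κ → Fin b → ℂ) :=
  {T | ∀ k l, ∑ j, (starRingEnd ℂ) (T k j) * T l j = if k = l then 1 else 0}

theorem isCompact_Fr (κ b : ℕ) : IsCompact (Fr κ b) := by
  have hcl : IsClosed (Fr κ b) := by
    have e : Fr κ b = ⋂ k, ⋂ l, {T : Fin κ → Fin b → ℂ |
        ∑ j, (starRingEnd ℂ) (T k j) * T l j = if k = l then 1 else 0} := by
      ext T
      simp [Fr]
    rw [e]
    refine isClosed_iInter fun k => isClosed_iInter fun l => isClosed_eq ?_ continuous_const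
    refine continuous_finsetSum _ fun j _ => ?_
    exact (Complex.continuous_conj.comp (by fun_prop)).mul (by fun_prop)
  refine (isCompact_closedBall (0 : Fin κ → Fin b → ℂ) 1).of_isClosed_subset hcl ?_
  intro T hT
  rw [mem_closedBall_zero_iff, pi_norm_le_iff_of_nonneg zero_le_one]
  intro k
  rw [pi_norm_le_iff_of_nonneg zero_le_one]
  intro j
  have h1 := hT k k
  rw [if_pos rfl] at h1
  have h2 : ∀ j, (starRingEnd ℂ) (T k j) * T k j = ((‖T k j‖ ^ 2 : ℝ) : ℂ) := by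
    intro j
    rw [← Complex.normSq_eq_conj_mul_self, Complex.normSq_eq_norm_sq]
  simp only [h2] at h1
  rw [← Complex.ofReal_sum] at h1
  have h3 : ∑ j, ‖T k j‖ ^ 2 = 1 := by exact_mod_cast h1
  have h4 : ‖T k j‖ ^ 2 ≤ ∑ j, ‖T k j‖ ^ 2 :=
    Finset.single_le_sum (f := fun j => ‖T k j‖ ^ 2) (fun j _ => sq_nonneg _) (Finset.mem_univ j)
  rw [h3] at h4
  nlinarith [norm_nonneg (T k j)]

theorem Fr_indep {κ b : ℕ} {T : Fin κ → Fin b → ℂ} (hT : T ∈ Fr κ b) : LinearIndependent ℂ T := by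
  rw [Fintype.linearIndependent_iff]
  intro c hc l
  have h1 : ∑ j, (starRingEnd ℂ) (T l j) * (∑ k, c k • T k) j = 0 := by
    rw [hc]
    simp
  have h2 : ∑ j, (starRingEnd ℂ) (T l j) * (∑ k, c k • T k) j =
      ∑ k, c k * ∑ j, (starRingEnd ℂ) (T l j) * T k j := by
    simp only [Finset.sum_apply, Pi.smul_apply, smul_eq_mul, Finset.mul_sum]
    rw [Finset.sum_comm]
    refine Finset.sum_congr rfl fun k _ => Finset.sum_congr rfl fun j _ => by ring
  rw [h2] at h1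
  have h3 : ∀ k, ∑ j, (starRingEnd ℂ) (T l j) * T k j = if l = k then 1 else 0 := fun k => hT l k
  simp only [h3] at h1
  simpa using h1

/-- every subspace has an orthonormal frame -/
theorem exists_frame {κ b : ℕ} (T0 : Submodule ℂ (Fin b → ℂ)) (h : finrank ℂ T0 = κ) :
    ∃ T ∈ Fr κ b, Submodule.span ℂ (Set.range T) = T0 := by
  classical
  let L : EuclideanSpace ℂ (Fin b) ≃ₗ[ℂ] (Fin b → ℂ) := WithLp.linearEquiv 2 ℂ (Fin b → ℂ)
  let T1 : Submodule ℂ (EuclideanSpace ℂ (Fin b)) := T0.map (L.symm : _ →ₗ[ℂ] _)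
  have h1 : finrank ℂ T1 = κ := (LinearEquiv.finrank_map_eq L.symm T0).trans h
  let B : OrthonormalBasis (Fin κ) ℂ T1 := (stdOrthonormalBasis ℂ T1).reindex (finCongr h1)
  let T : Fin κ → Fin b → ℂ := fun k => L (B k : EuclideanSpace ℂ (Fin b))
  have hT : T ∈ Fr κ b := by
    intro k l
    have h2 : inner ℂ (B k) (B l) = if k = l then (1 : ℂ) else 0 :=
      orthonormal_iff_ite.1 B.orthonormal k l
    rw [← h2, Submodule.coe_inner, PiLp.inner_apply]
    refine Finset.sum_congr rfl fun j _ => ?_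
    rw [RCLike.inner_apply, mul_comm]
    rfl
  refine ⟨T, hT, ?_⟩
  refine Submodule.eq_of_le_of_finrank_eq ?_ ?_
  · rw [Submodule.span_le]
    rintro _ ⟨k, rfl⟩
    obtain ⟨t, ht, he⟩ := (B k).2
    have : T k = t := by
      change L (B k : EuclideanSpace ℂ (Fin b)) = t
      rw [← he]
      exact L.apply_symm_apply t
    rw [this]
    exact ht
  · rw [finrank_span_eq_card (Fr_indep hT), Fintype.card_fin, h]

/-- generic properties hold at points of every neighbourhood -/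
theorem gen_nhds {X : Type*} [AddCommGroup X] [Module ℂ X] [TopologicalSpace X] [ContinuousAdd X]
    [ContinuousSMul ℂ X] {P R : X → Prop} (h : Gen ℂ P) {x₀ : X} (hR : ∀ᶠ x in 𝓝 x₀, R x) :
    ∃ x, P x ∧ R x := by
  obtain ⟨F, h1, ⟨x, hx⟩, h3⟩ := h
  obtain ⟨f, hf⟩ := h1 x₀ (x - x₀)
  have hf0 : f ≠ 0 := by
    rintro rfl
    have := hf 1
    rw [one_smul, add_sub_cancel, Polynomial.eval_zero] at this
    exact hx this
  have hc : Tendsto (fun t : ℂ => x₀ + t • (x - x₀)) (𝓝[≠] 0) (𝓝 x₀) := by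
    have h4 : Continuous fun t : ℂ => x₀ + t • (x - x₀) :=
      continuous_const.add (continuous_id.smul continuous_const)
    have h5 := (h4.tendsto 0).mono_left (nhdsWithin_le_nhds (s := {0}ᶜ))
    rw [zero_smul, add_zero] at h5
    exact h5
  have hfin : ∀ᶠ t in 𝓝[≠] (0 : ℂ), ¬ t ∈ f.rootSet ℂ := by
    have h6 : ∀ᶠ t in 𝓝[≠] (0 : ℂ), t ∈ ((f.rootSet ℂ) \ {0})ᶜ := by
      refine mem_nhdsWithin_of_mem_nhds ?_
      refine IsOpen.mem_nhds ?_ ?_
      · exact ((Polynomial.rootSet_finite f ℂ).subset Set.sdiff_subset).isClosed.isOpen_compl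
      · exact fun h => h.2 rfl
    filter_upwards [h6, self_mem_nhdsWithin] with t h7 h8 h9
    exact h7 ⟨h9, h8⟩
  obtain ⟨t, ht1, ht2⟩ := ((hc.eventually hR).and hfin).exists
  refine ⟨_, h3 _ ?_, ht1⟩
  rw [hf]
  intro h0
  apply ht2
  rw [Polynomial.mem_rootSet]
  refine ⟨hf0, ?_⟩
  rw [Polynomial.aeval_def, Polynomial.eval₂_eq_eval_map]
  simpa using h0

/-- the system as one map -/
noncomputable def Ph {m b x q κ : ℕ} (lam : Fin q → Fin m → ℂ)
    (P : ((Fin x → Fin m → ℂ) × (Fin x → Fin b → ℂ) × (Fin m → ℂ)) × (Fin κ → Fin b → ℂ))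
    (v : (Fin b → Fin m → ℂ) × (Fin κ → ℂ)) :
    (Fin b → ℂ) × (Fin x → ℂ) × (Fin q → Fin b → ℂ) :=
  (fun j => (∑ k, P.1.2.2 k * v.1 j k) - ∑ k, v.2 k * P.2 k j,
    fun i => ∑ j, P.1.2.1 i j * ∑ k, P.1.1 i k * v.1 j k,
    fun s j => ∑ k, lam s k * v.1 j k)

theorem Ph_smul {m b x q κ : ℕ} (lam : Fin q → Fin m → ℂ)
    (P : ((Fin x → Fin m → ℂ) × (Fin x → Fin b → ℂ) × (Fin m → ℂ)) × (Fin κ → Fin b → ℂ))
    (r : ℂ) (v : (Fin b → Fin m → ℂ) × (Fin κ → ℂ)) : Ph lam P (r • v) = r • Ph lam P v := by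
  refine Prod.ext ?_ (Prod.ext ?_ ?_)
  · funext j
    simp only [Ph, Prod.smul_fst, Prod.smul_snd, Pi.smul_apply, smul_eq_mul, mul_sub,
      Finset.mul_sum]
    congr 1 <;> exact Finset.sum_congr rfl fun k _ => by ring
  · funext i
    simp only [Ph, Prod.smul_fst, Prod.smul_snd, Pi.smul_apply, smul_eq_mul, Finset.mul_sum]
    exact Finset.sum_congr rfl fun j _ => Finset.sum_congr rfl fun k _ => by ring
  · funext s j
    simp only [Ph, Prod.smul_fst, Prod.smul_snd, Pi.smul_apply, smul_eq_mul, Finset.mul_sum]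
    exact Finset.sum_congr rfl fun k _ => by ring

theorem Ph_cont {m b x q κ : ℕ} (lam : Fin q → Fin m → ℂ) : Continuous fun
    w : (((Fin x → Fin m → ℂ) × (Fin x → Fin b → ℂ) × (Fin m → ℂ)) × (Fin κ → Fin b → ℂ)) ×
      ((Fin b → Fin m → ℂ) × (Fin κ → ℂ)) => Ph lam w.1 w.2 := by
  unfold Ph
  fun_prop

theorem HQ_iff {m b x q κ : ℕ} (lam : Fin q → Fin m → ℂ)
    (P : ((Fin x → Fin m → ℂ) × (Fin x → Fin b → ℂ) × (Fin m → ℂ)) × (Fin κ → Fin b → ℂ)) :
    HQ P.1.1 P.1.2.1 P.1.2.2 P.2 lam ↔ ∀ v, Ph lam P v = 0 → v = 0 := by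
  have key : ∀ v : (Fin b → Fin m → ℂ) × (Fin κ → ℂ), Ph lam P v = 0 ↔
      (lv P.1.2.2 v.1 = ∑ k, v.2 k • P.2 k ∧ (∀ i, ro (P.1.2.1 i, P.1.1 i) v.1 = 0) ∧
        ∀ s, lv (lam s) v.1 = 0) := by
    intro v
    constructor
    · intro h
      have h1 := congrArg Prod.fst h
      have h2 := congrArg Prod.fst (congrArg Prod.snd h)
      have h3 := congrArg Prod.snd (congrArg Prod.snd h)
      refine ⟨?_, fun i => congrFun h2 i, fun s => congrFun h3 s⟩
      funext j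
      have := congrFun h1 j
      rw [Finset.sum_apply]
      exact sub_eq_zero.1 this
    · rintro ⟨h1, h2, h3⟩
      refine Prod.ext ?_ (Prod.ext ?_ ?_)
      · funext j
        have := congrFun h1 j
        rw [Finset.sum_apply] at this
        exact sub_eq_zero.2 this
      · funext i
        exact h2 i
      · funext s
        exact h3 s
  constructor
  · intro h v hv
    obtain ⟨h1, h2, h3⟩ := (key v).1 hv
    obtain ⟨h4, h5⟩ := h v.1 v.2 h1 h2 h3
    exact Prod.ext h4 h5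
  · intro h g c h1 h2 h3
    have := h (g, c) ((key (g, c)).2 ⟨h1, h2, h3⟩)
    exact ⟨congrArg Prod.fst this, congrArg Prod.snd this⟩

/-- the condition is open -/
theorem HQ_open {m b x q κ : ℕ} (lam : Fin q → Fin m → ℂ)
    (P : ((Fin x → Fin m → ℂ) × (Fin x → Fin b → ℂ) × (Fin m → ℂ)) × (Fin κ → Fin b → ℂ))
    (h : HQ P.1.1 P.1.2.1 P.1.2.2 P.2 lam) :
    ∀ᶠ P' in 𝓝 P, HQ P'.1.1 P'.1.2.1 P'.1.2.2 P'.2 lam := by
  rw [HQ_iff] at h
  have h1 : ∀ᶠ P' in 𝓝 P, ∀ v ∈ Metric.sphere (0 : (Fin b → Fin m → ℂ) × (Fin κ → ℂ)) 1,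
      Ph lam P' v ≠ 0 := by
    refine (isCompact_sphere _ _).eventually_forall_of_forall_eventually fun v hv => ?_
    have h2 : Ph lam P v ≠ 0 := by
      intro h0
      have := h v h0
      rw [this] at hv
      simp at hv
    have h3 := (Ph_cont (m := m) (b := b) (x := x) (κ := κ) lam).continuousAt (x := (P, v))
    exact h3.eventually_ne h2
  filter_upwards [h1] with P' h2
  rw [HQ_iff]
  intro v hv
  by_contra hne
  have hn : ‖v‖ ≠ 0 := norm_ne_zero_iff.2 hne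
  refine h2 (((‖v‖⁻¹ : ℝ) : ℂ) • v) ?_ ?_
  · rw [mem_sphere_zero_iff_norm, norm_smul, Complex.norm_real, norm_inv, norm_norm,
      inv_mul_cancel₀ hn]
  · rw [Ph_smul, hv, smul_zero]

/-- all orthonormal frames at once -/
theorem HQ_nhds {m b x q κ : ℕ}
    (P : (Fin x → Fin m → ℂ) × (Fin x → Fin b → ℂ) × (Fin m → ℂ))
    (h : ∀ T : Fin κ → Fin b → ℂ, LinearIndependent ℂ T → ∃ lam : Fin q → Fin m → ℂ,
      HQ P.1 P.2.1 P.2.2 T lam) :
    ∀ᶠ P' in 𝓝 P, ∀ T ∈ Fr κ b, ∃ lam : Fin q → Fin m → ℂ, HQ P'.1 P'.2.1 P'.2.2 T lam := by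
  refine (isCompact_Fr κ b).eventually_forall_of_forall_eventually fun T hT => ?_
  obtain ⟨lam, hlam⟩ := h T (Fr_indep hT)
  exact (HQ_open lam (P, T) hlam).mono fun P' hP' => ⟨lam, hP'⟩

theorem exists_sub {V : Type*} [AddCommGroup V] [Module ℂ V] [FiniteDimensional ℂ V]
    (R : Submodule ℂ V) {κ : ℕ} (h : κ ≤ finrank ℂ R) :
    ∃ T0 : Submodule ℂ V, T0 ≤ R ∧ finrank ℂ T0 = κ := by
  let B := Module.finBasis ℂ R
  let v : Fin κ → V := fun i => (B (Fin.castLE h i) : V)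
  have hv : LinearIndependent ℂ v :=
    (B.linearIndependent.comp _ (Fin.castLE_injective h)).map' R.subtype R.ker_subtype
  refine ⟨Submodule.span ℂ (Set.range v), ?_, ?_⟩
  · rw [Submodule.span_le]
    rintro _ ⟨i, rfl⟩
    exact (B (Fin.castLE h i)).2
  · rw [finrank_span_eq_card hv, Fintype.card_fin]

theorem exists_sup {V : Type*} [AddCommGroup V] [Module ℂ V] [FiniteDimensional ℂ V]
    (R : Submodule ℂ V) {κ : ℕ} (h : finrank ℂ R ≤ κ) (hκ : κ ≤ finrank ℂ V) :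
    ∃ T0 : Submodule ℂ V, R ≤ T0 ∧ finrank ℂ T0 = κ := by
  obtain ⟨C, hC⟩ := Submodule.exists_isCompl R
  have h1 := Submodule.finrank_add_eq_of_isCompl hC
  obtain ⟨T1, hT1, hT1'⟩ := exists_sub C (κ := κ - finrank ℂ R) (by omega)
  refine ⟨R ⊔ T1, le_sup_left, ?_⟩
  have h2 : R ⊓ T1 = ⊥ := (hC.disjoint.mono_right hT1).eq_bot
  have h3 := Submodule.finrank_sup_add_finrank_inf_eq R T1
  rw [h2, finrank_bot, add_zero, hT1'] at h3
  omega

theorem finrank_mkQ {V : Type*} [AddCommGroup V] [Module ℂ V] [FiniteDimensional ℂ V]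
    (R T0 : Submodule ℂ V) (h : T0 ≤ R) :
    finrank ℂ (R.map T0.mkQ) + finrank ℂ T0 ≤ finrank ℂ R := by
  have h1 := (T0.mkQ.domRestrict R).finrank_range_add_finrank_ker
  have h2 : LinearMap.range (T0.mkQ.domRestrict R) = R.map T0.mkQ := by
    rw [LinearMap.domRestrict, LinearMap.range_comp, Submodule.range_subtype]
  have h3 : finrank ℂ T0 ≤ finrank ℂ (LinearMap.ker (T0.mkQ.domRestrict R)) := by
    have e : LinearMap.ker (T0.mkQ.domRestrict R) = T0.comap R.subtype := by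
      ext v
      simp
    rw [e]
    exact (Submodule.comapSubtypeEquivOfLe (p := T0) (q := R) h).finrank_eq.ge
  rw [h2] at h1
  omega

/-- the residual lemma -/
theorem resid2 {m b x q κ ρ : ℕ} (z : Fin x → Fin m → ℂ) (a : Fin x → Fin b → ℂ) (y : Fin m → ℂ)
    (h : ∀ T ∈ Fr κ b, ∃ lam : Fin q → Fin m → ℂ, HQ z a y T lam) (hκ : κ ≤ b)
    (R : Submodule ℂ (Fin b → ℂ)) (hR : finrank ℂ R ≤ ρ) : ∃ lam : Fin q → Fin m → ℂ,
      ∀ E : Submodule ℂ (Fin b → Fin m → ℂ), (∀ G ∈ E, (∀ i, ro (a i, z i) G = 0) ∧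
        (∀ s, lv (lam s) G = 0) ∧ lv y G ∈ R) → finrank ℂ E ≤ ρ - κ := by
  classical
  have key : ∀ T0 : Submodule ℂ (Fin b → ℂ), finrank ℂ T0 = κ → ∃ lam : Fin q → Fin m → ℂ,
      ∀ G : Fin b → Fin m → ℂ, (∀ i, ro (a i, z i) G = 0) → (∀ s, lv (lam s) G = 0) →
        lv y G ∈ T0 → G = 0 := by
    intro T0 hT0
    obtain ⟨T, hT, hsp⟩ := exists_frame T0 hT0
    obtain ⟨lam, hlam⟩ := h T hT
    refine ⟨lam, fun G h1 h2 h3 => ?_⟩
    rw [← hsp, Submodule.mem_span_range_iff_exists_fun] at h3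
    obtain ⟨c, hc⟩ := h3
    exact (hlam G c hc.symm h1 h2).1
  rcases le_total (finrank ℂ R) κ with hle | hle
  · obtain ⟨T0, hRT, hT0⟩ := exists_sup R hle (by rw [Module.finrank_fin_fun]; exact hκ)
    obtain ⟨lam, hlam⟩ := key T0 hT0
    refine ⟨lam, fun E hE => ?_⟩
    have : E = ⊥ := by
      rw [eq_bot_iff]
      intro G hG
      obtain ⟨h1, h2, h3⟩ := hE G hG
      rw [Submodule.mem_bot]
      exact hlam G h1 h2 (hRT h3)
    rw [this, finrank_bot]
    exact Nat.zero_le _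
  · obtain ⟨T0, hRT, hT0⟩ := exists_sub R hle
    obtain ⟨lam, hlam⟩ := key T0 hT0
    refine ⟨lam, fun E hE => ?_⟩
    have h1 := finrank_le_map_add_ker ((T0.mkQ).comp (lv y)) E
    have h2 : E ⊓ LinearMap.ker ((T0.mkQ).comp (lv y)) = ⊥ := by
      rw [eq_bot_iff]
      rintro G ⟨hG, hG2⟩
      obtain ⟨k1, k2, k3⟩ := hE G hG
      rw [Submodule.mem_bot]
      refine hlam G k1 k2 ?_
      rw [SetLike.mem_coe, LinearMap.mem_ker, LinearMap.comp_apply, Submodule.mkQ_apply,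
        Submodule.Quotient.mk_eq_zero] at hG2
      exact hG2
    have h3 : finrank ℂ (E.map ((T0.mkQ).comp (lv y))) ≤ finrank ℂ (R.map T0.mkQ) := by
      refine Submodule.finrank_mono ?_
      rintro _ ⟨G, hG, rfl⟩
      exact ⟨lv y G, (hE G hG).2.2, rfl⟩
    have h4 := finrank_mkQ R T0 hRT
    rw [h2, finrank_bot, add_zero] at h1
    omega

end HOR2

open HOR1 HOR2 in
/-- **The step `m → m + 1`**: all `b ≤ 2 (m - w)`, `w = ⌈x / b⌉`. -/
theorem HOR {m b x y1 w ρ r : ℕ} (h1 : KQ ℂ m b x y1 ρ) (h2 : KQ ℂ m b x (y1 + 1) 0)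
    (hbx : b ≤ x) (hw1 : x ≤ b * w) (hw2 : b * (w - 1) < x) (hb : b ≤ 2 * (m - w))
    (hr : ρ + b * w ≤ r + b + x) : KQ ℂ (m + 1) b x (y1 + 1 + (m + 1 - w)) r := by
  classical
  have hw0 : w ≠ 0 := by
    rintro rfl
    omega
  obtain ⟨p, rfl⟩ := Nat.exists_eq_succ_of_ne_zero hw0
  rw [Nat.succ_sub_one] at hw2
  have hb0 : 0 < b := by
    rcases Nat.eq_zero_or_pos b with h | h
    · subst h
      simp at hw1
      omega
    · exact h
  obtain ⟨q, hq⟩ : ∃ q, q = m - p.succ := ⟨_, rfl⟩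
  have hmq : q + (1 + p) = m := by omega
  have hbw : b * p.succ = b * p + b := Nat.mul_succ b p
  rw [hbw] at hw1 hr
  obtain ⟨κ, hκ⟩ : ∃ κ, x = b * p + κ := ⟨x - b * p, by omega⟩
  have hκb : κ ≤ b := by omega
  obtain ⟨zs, as, ys, hsp⟩ := special (K := ℂ) hmq hκ hκb hbx (by omega : b ≤ 2 * q)
  have hnh := HQ_nhds (zs, as, ys) hsp
  -- the space of configurations
  let X : Type := Cfg ℂ m b (Fin x) (Fin (y1 + 1))
  let L1 : X →ₗ[ℂ] Cfg ℂ m b (Fin x) (Fin y1) :=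
    { toFun := fun q => (q.1, q.2.1, fun l => q.2.2 l.castSucc)
      map_add' := fun _ _ => rfl
      map_smul' := fun _ _ => rfl }
  have hL1 : Function.Surjective L1 := by
    rintro ⟨z, a, y⟩
    refine ⟨(z, a, Fin.snoc y 0), ?_⟩
    refine Prod.ext rfl (Prod.ext rfl ?_)
    funext l
    change (Fin.snoc y 0 : Fin (y1 + 1) → Fin m → ℂ) l.castSucc = y l
    rw [Fin.snoc_castSucc]
  let π : X → (Fin x → Fin m → ℂ) × (Fin x → Fin b → ℂ) × (Fin m → ℂ) :=
    fun c => (c.1, c.2.1, c.2.2 (Fin.last y1))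
  have hπ : Continuous π := by
    change Continuous fun c : (Fin x → Fin m → ℂ) × (Fin x → Fin b → ℂ) ×
      (Fin (y1 + 1) → Fin m → ℂ) => (c.1, c.2.1, c.2.2 (Fin.last y1))
    fun_prop
  have hev : ∀ᶠ c in 𝓝 ((zs, as, fun _ => ys) : (Fin x → Fin m → ℂ) × (Fin x → Fin b → ℂ) ×
      (Fin (y1 + 1) → Fin m → ℂ)), ∀ T ∈ Fr κ b, ∃ lam : Fin q → Fin m → ℂ,
        HQ (π c).1 (π c).2.1 (π c).2.2 T lam :=
    (hπ.tendsto ((zs, as, fun _ => ys) : X)).eventually hnh
  obtain ⟨⟨z, a, y⟩, ⟨k1, k2⟩, k3⟩ := gen_nhds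
    (X := (Fin x → Fin m → ℂ) × (Fin x → Fin b → ℂ) × (Fin (y1 + 1) → Fin m → ℂ))
    ((h1.gen.comp L1 hL1).and h2.gen) hev
  change finrank ℂ (ZK (z, a, fun l : Fin y1 => y l.castSucc)) ≤ ρ at k1
  change finrank ℂ (ZK (z, a, y)) ≤ 0 at k2
  change ∀ T ∈ Fr κ b, ∃ lam : Fin q → Fin m → ℂ, HQ z a (y (Fin.last y1)) T lam at k3
  obtain ⟨z0, hz0⟩ : ∃ z0, z0 = y (Fin.last y1) := ⟨_, rfl⟩
  rw [← hz0] at k3
  let c : Cfg ℂ m b (Fin x) (Fin y1) := (z, a, fun l : Fin y1 => y l.castSucc)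
  -- the space of the values at `z0`
  let R : Submodule ℂ (Fin b → ℂ) := (ZK c).map (evA z0)
  have hR : finrank ℂ R ≤ ρ := (Submodule.finrank_map_le _ _).trans k1
  obtain ⟨μ, hμ⟩ := resid2 z a z0 k3 hκb R hR
  -- the off points
  let O : Type := Unit ⊕ Fin q
  let lam : O → Fin m → ℂ := Sum.elim (fun _ => 0) μ
  -- the limit system
  let Θ : ((Fin b → SF ℂ m) × (Fin b → Fin (m + 1) → ℂ)) →ₗ[ℂ] (Fin b → Fin m → ℂ) :=
    { toFun := fun q j k => q.2 j k.succ
      map_add' := fun _ _ => rfl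
      map_smul' := fun _ _ => rfl }
  have h2K : (2 : ℂ) ≠ 0 := two_ne_zero
  have key : ∀ q ∈ NT c z0 lam 0, (∀ j, q.2 j 0 = 0) ∧ (∀ i, ro (a i, z i) (Θ q) = 0) ∧
      (∀ l, lv (μ l) (Θ q) = 0) ∧
      ∀ j, bf (q.1 j : Fin m → Fin m → ℂ) z0 z0 + 2 * lv z0 (Θ q) j = 0 := by
    intro q hq
    obtain ⟨⟨q1, q2⟩, q3, q4⟩ := mem_NT.1 hq
    have hΘ : (fun j k => q.2 j k.succ : Fin b → Fin m → ℂ) = Θ q := rfl
    have q3' : ∀ o j, q.2 j 0 + lv (lam o) (Θ q) j = 0 := by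
      intro o j
      have := q3 o j
      rw [zero_mul, zero_add, lv_cons, one_mul, hΘ] at this
      exact (mul_eq_zero.1 this).resolve_left h2K
    have q30 : ∀ j, q.2 j 0 = 0 := by
      intro j
      have := q3' (Sum.inl ()) j
      have e : lv (lam (Sum.inl ())) (Θ q) j = 0 := by
        rw [lv_apply]
        exact Finset.sum_eq_zero fun k _ => by simp [lam]
      rwa [e, add_zero] at this
    refine ⟨q30, fun i => ?_, fun l => ?_, fun j => ?_⟩
    · have := q2 i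
      rw [ro_apply] at this ⊢
      simp only [Fin.sum_univ_succ, Fin.cons_zero, Fin.cons_succ, zero_mul, zero_add] at this
      exact this
    · funext j
      have := q3' (Sum.inr l) j
      rwa [q30 j, zero_add] at this
    · have := q4 j
      rw [lv_cons, zero_mul, zero_add, hΘ] at this
      exact this
  have hinj : ∀ q ∈ NT c z0 lam 0, Θ q = 0 → q = 0 := by
    intro q hq hq0
    obtain ⟨q1, -, -, q5⟩ := key q hq
    have hq2 : q.2 = 0 := by
      funext j k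
      refine Fin.cases (q1 j) (fun k => ?_) k
      exact congrFun (congrFun hq0 j) k
    have hq1 : q.1 ∈ ZK (z, a, y) := by
      obtain ⟨w1, w2, w3⟩ := mem_ZK.1 (mem_NT.1 hq).1.1
      refine mem_ZK.2 ⟨w1, w2, fun l j => ?_⟩
      refine Fin.lastCases ?_ (fun l => ?_) l
      · have := q5 j
        rw [hq0, map_zero, Pi.zero_apply, mul_zero, add_zero, hz0] at this
        exact this
      · exact w3 l j
    have hbot : ZK (z, a, y) = ⊥ := Submodule.finrank_eq_zero.1 (Nat.le_zero.1 k2)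
    rw [hbot, Submodule.mem_bot] at hq1
    exact Prod.ext hq1 hq2
  have hN0 : finrank ℂ (NT c z0 lam 0) ≤ r := by
    have e1 : finrank ℂ (NT c z0 lam 0) ≤ finrank ℂ ((NT c z0 lam 0).map Θ) := by
      have := finrank_le_map_add_ker Θ (NT c z0 lam 0)
      have e2 : NT c z0 lam 0 ⊓ LinearMap.ker Θ = ⊥ := by
        rw [eq_bot_iff]
        rintro q ⟨hq, hq0⟩
        rw [Submodule.mem_bot]
        exact hinj q hq hq0
      rw [e2, finrank_bot, add_zero] at this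
      exact this
    refine e1.trans ?_
    have e3 := hμ ((NT c z0 lam 0).map Θ) (by
        rintro _ ⟨q, hq, rfl⟩
        obtain ⟨-, q2, q4, q5⟩ := key q hq
        refine ⟨q2, q4, ?_⟩
        have hmem : evA z0 ((-(2 : ℂ)⁻¹) • q.1) = lv z0 (Θ q) := by
          funext j
          rw [map_smul, Pi.smul_apply, evA_apply, smul_eq_mul]
          have := q5 j
          have e : bf (q.1 j : Fin m → Fin m → ℂ) z0 z0 = -(2 * lv z0 (Θ q) j) :=
            eq_neg_of_add_eq_zero_left this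
          rw [e]
          field_simp
        rw [← hmem]
        exact ⟨_, (ZK c).smul_mem _ (mem_NT.1 hq).1.1, rfl⟩)
    refine e3.trans ?_
    omega
  obtain ⟨t, ht, ht0⟩ := (((PK_NT c z0 lam).gen_finrank hN0).and
    (Gen.ne (K := ℂ) (F := fun t : ℂ => t) (LP.linear (LinearMap.id : ℂ →ₗ[ℂ] ℂ)) 1
      one_ne_zero)).exists
  refine KQ.of_cfg (cfgT c z0 lam t) (Fintype.card_fin x) ?_
    ((finrank_cfgT c z0 lam ht0).trans ht)
  change Fintype.card ((Fin y1 ⊕ Unit) ⊕ (Unit ⊕ Fin q)) = _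
  rw [Fintype.card_sum, Fintype.card_sum, Fintype.card_sum,
    Fintype.card_unit, Fintype.card_fin, Fintype.card_fin]
  omega

end Pool.Agent.WarR
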