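import Pool.Agent.WarR.Step

/-!
# The residual space of a hyperplane with general off points, I: a special configuration  (helper68)

`H = K ^ m`, `m = q + 1 + p`, `x = b p + κ` full points, `b ≤ 2 q`. For a special configuration of
full points `(z i, a i)` and a point `y` in `H` every subspace `T` of `K ^ b` of dimension `κ` admits
`q` vectors `lam s` such that no linear map `g ≠ 0` from `H` to `K ^ b` satisfies `g (lam s) = 0`,
`a i · g (z i) = 0`, `g y ∈ T`.
-/

set_option autoImplicit false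

open Module

namespace Pool.Agent.WarR

open Pool.Agent.War

section

variable {K : Type*} [Field K]

/-- the condition: no linear map but `0` -/
def HQ {m b x q κ : ℕ} (z : Fin x → Fin m → K) (a : Fin x → Fin b → K) (y : Fin m → K)
    (T : Fin κ → Fin b → K) (lam : Fin q → Fin m → K) : Prop :=
  ∀ (g : Fin b → Fin m → K) (c : Fin κ → K), lv y g = ∑ k, c k • T k →
    (∀ i, ro (a i, z i) g = 0) → (∀ s, lv (lam s) g = 0) → g = 0 ∧ c = 0

namespace HOR1

theorem ro_eq {m b : ℕ} (a : Fin b → K) (z : Fin m → K) (G : Fin b → Fin m → K) :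
    ro (a, z) G = dt a (lv z G) := rfl

theorem dt_single {b : ℕ} (i : Fin b) (g : Fin b → K) : dt (Pi.single i 1) g = g i := by
  classical
  rw [dt_apply, Finset.sum_eq_single i]
  · rw [Pi.single_eq_same, one_mul]
  · intro l _ hl
    rw [Pi.single_eq_of_ne hl, zero_mul]
  · intro h
    exact absurd (Finset.mem_univ i) h

/-- the space of the maps `G` on `C` with `(G c₀) j = 0` for `j ∉ I` -/
def WI {b p : ℕ} (I : Finset (Fin b)) : Submodule K (Fin b → Fin p → K) where
  carrier := {G | ∀ j ∉ I, lv (fun _ => (1 : K)) G j = 0}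
  add_mem' := by
    intro G G' h h' j hj
    rw [map_add, Pi.add_apply, h j hj, h' j hj, add_zero]
  zero_mem' := by
    intro j _
    rw [map_zero, Pi.zero_apply]
  smul_mem' := by
    intro r G h j hj
    rw [map_smul, Pi.smul_apply, h j hj, smul_zero]

theorem mem_WI {b p : ℕ} {I : Finset (Fin b)} {G : Fin b → Fin p → K} :
    G ∈ WI I ↔ ∀ j ∉ I, lv (fun _ => (1 : K)) G j = 0 := Iff.rfl

theorem finrank_WI {b p κ : ℕ} (I : Finset (Fin b)) (hI : I.card = κ) :
    finrank K (WI (K := K) (p := p + 1) I) ≤ b * p + κ := by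
  classical
  let T : (Fin b → Fin (p + 1) → K) →ₗ[K] (Fin b → Fin p → K) × ({j // j ∈ I} → K) :=
    { toFun := fun G => (fun j l => G j l.succ, fun j => G j 0)
      map_add' := fun _ _ => rfl
      map_smul' := fun _ _ => rfl }
  have hinj : Function.Injective (T.comp (WI (K := K) (p := p + 1) I).subtype) := by
    rw [← LinearMap.ker_eq_bot, LinearMap.ker_eq_bot']
    rintro ⟨G, hG⟩ h
    have h1 : ∀ j l, G j (Fin.succ l) = 0 := fun j l =>
      congrFun (congrFun (congrArg Prod.fst h) j) l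
    have h2 : ∀ j (hj : j ∈ I), G j 0 = 0 := fun j hj =>
      congrFun (congrArg Prod.snd h) ⟨j, hj⟩
    have h3 : ∀ j, j ∉ I → G j 0 = 0 := by
      intro j hj
      have := mem_WI.1 hG j hj
      rw [lv_apply, Fin.sum_univ_succ] at this
      simpa [h1] using this
    apply Subtype.ext
    funext j l
    refine Fin.cases ?_ (fun l => h1 j l) l
    by_cases hj : j ∈ I
    · exact h2 j hj
    · exact h3 j hj
  refine (LinearMap.finrank_le_finrank_of_injective hinj).trans ?_
  rw [Module.finrank_prod, Module.finrank_pi_fintype, Module.finrank_pi]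
  simp [hI]

/-- the conditions on `C` -/
def CC {b x p : ℕ} (I : Finset (Fin b))
    (c : (Fin x → Fin p → K) × (Fin x → Fin b → K)) : Submodule K (Fin b → Fin p → K) :=
  WI I ⊓ ⨅ i : {i : Fin x // b ≤ (i : ℕ)}, LinearMap.ker (ro (c.2 i, c.1 i))

theorem mem_CC {b x p : ℕ} {I : Finset (Fin b)}
    {c : (Fin x → Fin p → K) × (Fin x → Fin b → K)} {G : Fin b → Fin p → K} :
    G ∈ CC I c ↔ (∀ j ∉ I, lv (fun _ => (1 : K)) G j = 0) ∧
      ∀ i : Fin x, b ≤ (i : ℕ) → ro (c.2 i, c.1 i) G = 0 := by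
  simp only [CC, Submodule.mem_inf, Submodule.mem_iInf, LinearMap.mem_ker, Subtype.forall, mem_WI]

theorem PK_CC {b x p : ℕ} (I : Finset (Fin b)) :
    PK fun c : (Fin x → Fin p → K) × (Fin x → Fin b → K) => CC I c := by
  classical
  have l1 : ∀ (i : Fin x) (k : Fin p),
      LP fun c : (Fin x → Fin p → K) × (Fin x → Fin b → K) => c.1 i k := fun i k =>
    LP_apply ((LinearMap.proj i : (Fin x → Fin p → K) →ₗ[K] (Fin p → K)).comp
      (LinearMap.fst K (Fin x → Fin p → K) (Fin x → Fin b → K))) k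
  have l2 : ∀ (i : Fin x) (k : Fin b),
      LP fun c : (Fin x → Fin p → K) × (Fin x → Fin b → K) => c.2 i k := fun i k =>
    LP_apply ((LinearMap.proj i : (Fin x → Fin b → K) →ₗ[K] (Fin b → K)).comp
      (LinearMap.snd K (Fin x → Fin p → K) (Fin x → Fin b → K))) k
  have h1 : PK fun _ : (Fin x → Fin p → K) × (Fin x → Fin b → K) => WI (K := K) (p := p) I := by
    have h : PK fun _ : (Fin x → Fin p → K) × (Fin x → Fin b → K) =>
        ⨅ j : {j // j ∉ I}, LinearMap.ker ((LinearMap.proj (j : Fin b) :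
          (Fin b → K) →ₗ[K] K).comp (lv (K := K) (m := p) (fun _ => (1 : K)))) :=
      PK.iInf fun j => PK.one (φ := fun _ => (LinearMap.proj (j : Fin b) :
          (Fin b → K) →ₗ[K] K).comp (lv (K := K) (m := p) (fun _ => (1 : K)))) fun G =>
            LP.const _
    refine h.congr fun c => ?_
    ext G
    simp only [Submodule.mem_iInf, LinearMap.mem_ker, LinearMap.comp_apply,
      LinearMap.proj_apply, Subtype.forall, mem_WI]
  exact h1.inf (PK.iInf fun i => PK_ro (l1 i) (l2 i))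

/-- general position on `C` -/
theorem CC_bot {b x p κ : ℕ} (I : Finset (Fin b)) (hI : I.card = κ) (hx : x = b * p + κ) :
    Gen K fun c : (Fin x → Fin p → K) × (Fin x → Fin b → K) => CC I c = ⊥ := by
  classical
  rcases p with _ | p
  · refine Gen.of_forall fun c => ?_
    rw [eq_bot_iff]
    intro G _
    rw [Submodule.mem_bot]
    funext j l
    exact l.elim0
  obtain ⟨y', hy'⟩ := red (K := K) (ro (K := K) (m := p + 1) (b := b)) (WI I) ⊥ (fun w _ hw => by
    rw [Submodule.mem_bot] at hw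
    by_contra hcon
    push Not at hcon
    apply hw
    funext j i
    have := hcon (Pi.single j 1, Pi.single i 1)
    rw [ro_eq, dt_single, lv_single] at this
    exact this) (b * p + κ)
  have hx' : x = b + (b * p + κ) := by rw [hx]; ring
  let z : Fin x → Fin (p + 1) → K := fun i => if h : b ≤ (i : ℕ) then
    (y' ⟨i - b, by omega⟩).2 else 0
  let a : Fin x → Fin b → K := fun i => if h : b ≤ (i : ℕ) then
    (y' ⟨i - b, by omega⟩).1 else 0
  refine (PK_CC I).gen_bot (x₀ := (z, a)) ?_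
  have h1 : CC I (z, a) ≤ WI I ⊓ ⨅ i, LinearMap.ker (ro (y' i)) := by
    intro G hG
    obtain ⟨g1, g2⟩ := mem_CC.1 hG
    refine ⟨mem_WI.2 g1, ?_⟩
    rw [SetLike.mem_coe, Submodule.mem_iInf]
    intro i
    have h2 := g2 ⟨b + i, by omega⟩ (Nat.le_add_right _ _)
    have h3 : (⟨b + (i : ℕ) - b, by omega⟩ : Fin (b * p + κ)) = i := by
      apply Fin.ext
      simp
    have e1 : z ⟨b + i, by omega⟩ = (y' i).2 := by
      simp only [z]
      rw [dif_pos (Nat.le_add_right _ _), h3]
    have e2 : a ⟨b + i, by omega⟩ = (y' i).1 := by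
      simp only [a]
      rw [dif_pos (Nat.le_add_right _ _), h3]
    change ro (a ⟨b + i, by omega⟩, z ⟨b + i, by omega⟩) G = 0 at h2
    rw [e1, e2] at h2
    exact h2
  have h2 : finrank K (CC I (z, a)) ≤ 0 := by
    refine (Submodule.finrank_mono h1).trans (hy'.trans ?_)
    rw [finrank_bot]
    refine max_le ?_ le_rfl
    have := finrank_WI (K := K) (p := p) I hI
    omega
  exact Submodule.finrank_eq_zero.1 (Nat.le_zero.1 h2)

/-- the functional of a full point of the first kind -/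
def f1 {b p κ : ℕ} (T : Fin κ → Fin b → K) (i : Fin b) (β γ : K) :
    ((Fin b → Fin p → K) × (Fin κ → K)) →ₗ[K] K where
  toFun v := β * (∑ k, v.2 k • T k) i + γ * lv (fun _ => (1 : K)) v.1 i
  map_add' v w := by
    simp only [Prod.snd_add, Prod.fst_add, Pi.add_apply, add_smul, Finset.sum_add_distrib, map_add]
    ring
  map_smul' r v := by
    have e : ∑ k, (r • v).2 k • T k = r • ∑ k, v.2 k • T k := by
      rw [Finset.smul_sum]
      refine Finset.sum_congr rfl fun k _ => ?_
      rw [Prod.smul_snd, Pi.smul_apply, smul_eq_mul, mul_smul]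
    rw [e, Prod.smul_fst, map_smul, Pi.smul_apply, Pi.smul_apply, smul_eq_mul, smul_eq_mul,
      RingHom.id_apply, smul_eq_mul]
    ring

theorem f1_apply {b p κ : ℕ} (T : Fin κ → Fin b → K) (i : Fin b) (β γ : K)
    (v : (Fin b → Fin p → K) × (Fin κ → K)) : f1 T i β γ v =
      β * (∑ k, v.2 k • T k) i + γ * lv (fun _ => (1 : K)) v.1 i := rfl

theorem choose_I {b κ : ℕ} (T : Fin κ → Fin b → K) (hT : LinearIndependent K T) (hκ : κ ≤ b) :
    ∃ I : Finset (Fin b), I.card = κ ∧
      ∀ c : Fin κ → K, (∀ i ∈ I, (∑ k, c k • T k) i = 0) → c = 0 := by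
  classical
  obtain ⟨I, hI, h⟩ := choose_cut (K := K) (b := b) (x := b) (fun i => Pi.single i 1)
    (fun g hg => by
      funext i
      have := hg i
      rw [dt_single] at this
      exact this) (Submodule.span K (Set.range T)) κ hκ
  refine ⟨I, hI, fun c hc => ?_⟩
  rw [finrank_span_eq_card hT, Fintype.card_fin, Nat.sub_self] at h
  have h0 := Submodule.finrank_eq_zero.1 (Nat.le_zero.1 h)
  have hmem : ∑ k, c k • T k ∈ Submodule.span K (Set.range T) ⊓
      ⨅ i ∈ I, LinearMap.ker (dt (Pi.single i 1 : Fin b → K)) := by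
    refine ⟨Submodule.sum_mem _ fun k _ => Submodule.smul_mem _ _
      (Submodule.subset_span ⟨k, rfl⟩), ?_⟩
    rw [SetLike.mem_coe, Submodule.mem_iInf]
    intro i
    rw [Submodule.mem_iInf]
    intro hi
    rw [LinearMap.mem_ker, dt_single]
    exact hc i hi
  rw [h0, Submodule.mem_bot] at hmem
  funext k
  exact (Fintype.linearIndependent_iff.1 hT) c hmem k

section special

variable {b : ℕ} (I : Finset (Fin b))

/-- membership for natural numbers -/
def inn (n : ℕ) : Prop := ∃ h : n < b, (⟨n, h⟩ : Fin b) ∈ I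

open Classical in
/-- coefficient of `e s` -/
noncomputable def al (ε : K) (s : ℕ) : K := if inn I (2 * s) ∧ inn I (2 * s + 1) then ε else 1

open Classical in
/-- coefficient of `y` -/
noncomputable def be (s : ℕ) : K := if inn I (2 * s) ∨ inn I (2 * s + 1) then -1 else 0

open Classical in
/-- coefficient of `c₀` -/
noncomputable def ga (s : ℕ) : K :=
  if inn I (2 * s) then 0 else if inn I (2 * s + 1) then 1 else -1

/-- the parity -/
def od (i : ℕ) : K := if i % 2 = 0 then 0 else 1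

theorem inn_iff (i : Fin b) : inn I (i : ℕ) ↔ i ∈ I :=
  ⟨fun ⟨_, h⟩ => h, fun h => ⟨i.2, h⟩⟩

theorem half (n : ℕ) : (n = 2 * (n / 2) ∧ (od n : K) = 0) ∨
    (n = 2 * (n / 2) + 1 ∧ (od n : K) = 1) := by
  unfold od
  rcases Nat.mod_two_eq_zero_or_one n with h | h
  · left
    exact ⟨by omega, by rw [if_pos h]⟩
  · right
    exact ⟨by omega, by rw [if_neg (by omega)]⟩

theorem coef_in (i : Fin b) (hi : i ∈ I) (ε : K) (hε : ε = 0) (u v : K)
    (h : be I ((i : ℕ) / 2) * u + (ga I ((i : ℕ) / 2) - al I ε ((i : ℕ) / 2) * od i) * v = 0) :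
    u = 0 := by
  classical
  subst hε
  have hi' := (inn_iff I i).2 hi
  rcases half (K := K) (i : ℕ) with ⟨h1, h2⟩ | ⟨h1, h2⟩
  · rw [h2] at h
    rw [h1] at hi'
    have e1 : be I ((i : ℕ) / 2) = (-1 : K) := if_pos (Or.inl hi')
    have e2 : ga I ((i : ℕ) / 2) = (0 : K) := if_pos hi'
    rw [e1, e2] at h
    linear_combination -h
  · rw [h2] at h
    rw [h1] at hi'
    have e1 : be I ((i : ℕ) / 2) = (-1 : K) := if_pos (Or.inr hi')
    by_cases hA : inn I (2 * ((i : ℕ) / 2))
    · have e2 : ga I ((i : ℕ) / 2) = (0 : K) := if_pos hA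
      have e3 : al I (0 : K) ((i : ℕ) / 2) = 0 := if_pos ⟨hA, hi'⟩
      rw [e1, e2, e3] at h
      linear_combination -h
    · have e2 : ga I ((i : ℕ) / 2) = (1 : K) := by
        unfold ga
        rw [if_neg hA, if_pos hi']
      have e3 : al I (0 : K) ((i : ℕ) / 2) = 1 := if_neg fun h => hA h.1
      rw [e1, e2, e3] at h
      linear_combination -h

theorem coef_out [CharZero K] (i : Fin b) (hi : i ∉ I) (v : K)
    (h : (ga I ((i : ℕ) / 2) - al I (0 : K) ((i : ℕ) / 2) * od i) * v = 0) : v = 0 := by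
  classical
  have hi' : ¬ inn I (i : ℕ) := fun h => hi ((inn_iff I i).1 h)
  rcases half (K := K) (i : ℕ) with ⟨h1, h2⟩ | ⟨h1, h2⟩
  · rw [h2] at h
    rw [h1] at hi'
    by_cases hB : inn I (2 * ((i : ℕ) / 2) + 1)
    · have e2 : ga I ((i : ℕ) / 2) = (1 : K) := by
        unfold ga
        rw [if_neg hi', if_pos hB]
      rw [e2] at h
      linear_combination h
    · have e2 : ga I ((i : ℕ) / 2) = (-1 : K) := by
        unfold ga
        rw [if_neg hi', if_neg hB]
      rw [e2] at h
      linear_combination -h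
  · rw [h2] at h
    rw [h1] at hi'
    have e3 : al I (0 : K) ((i : ℕ) / 2) = 1 := if_neg fun h => hi' h.2
    by_cases hA : inn I (2 * ((i : ℕ) / 2))
    · have e2 : ga I ((i : ℕ) / 2) = (0 : K) := if_pos hA
      rw [e2, e3] at h
      linear_combination -h
    · have e2 : ga I ((i : ℕ) / 2) = (-1 : K) := by
        unfold ga
        rw [if_neg hA, if_neg hi']
      rw [e2, e3] at h
      have h3 : (2 : K) * v = 0 := by linear_combination -h
      exact (mul_eq_zero.1 h3).resolve_left two_ne_zero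

theorem al_ne {ε : K} (hε : ε ≠ 0) (s : ℕ) : al I ε s ≠ 0 := by
  classical
  unfold al
  split_ifs
  · exact hε
  · exact one_ne_zero

theorem LP_al (s : ℕ) : LP fun ε : K => al I ε s := by
  classical
  by_cases h : inn I (2 * s) ∧ inn I (2 * s + 1)
  · have e : (fun ε : K => al I ε s) = fun ε => ε := by
      funext ε
      exact if_pos h
    rw [e]
    exact LP.linear (LinearMap.id : K →ₗ[K] K)
  · have e : (fun ε : K => al I ε s) = fun _ => 1 := by
      funext ε
      exact if_neg h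
    rw [e]
    exact LP.const _

end special

/-- the small system -/
noncomputable def SE {b x p κ : ℕ} (I : Finset (Fin b)) (T : Fin κ → Fin b → K) (zC : Fin x → Fin p → K)
    (aC : Fin x → Fin b → K) (ε : K) : Submodule K ((Fin b → Fin p → K) × (Fin κ → K)) :=
  (⨅ i : Fin b, LinearMap.ker (f1 T i (be I ((i : ℕ) / 2))
    (ga I ((i : ℕ) / 2) - al I ε ((i : ℕ) / 2) * od i))) ⊓
    (⨅ i : {i : Fin x // b ≤ (i : ℕ)}, LinearMap.ker (ro (aC i, zC i))).comap
      (LinearMap.fst K (Fin b → Fin p → K) (Fin κ → K))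

theorem mem_SE {b x p κ : ℕ} {I : Finset (Fin b)} {T : Fin κ → Fin b → K}
    {zC : Fin x → Fin p → K} {aC : Fin x → Fin b → K} {ε : K}
    {v : (Fin b → Fin p → K) × (Fin κ → K)} : v ∈ SE I T zC aC ε ↔
      (∀ i : Fin b, be I ((i : ℕ) / 2) * (∑ k, v.2 k • T k) i +
        (ga I ((i : ℕ) / 2) - al I ε ((i : ℕ) / 2) * od i) * lv (fun _ => (1 : K)) v.1 i = 0) ∧
      ∀ i : Fin x, b ≤ (i : ℕ) → ro (aC i, zC i) v.1 = 0 := by
  simp only [SE, Submodule.mem_inf, Submodule.mem_iInf, LinearMap.mem_ker, f1_apply,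
    Submodule.mem_comap, LinearMap.fst_apply, Subtype.forall]

theorem exists_eps [CharZero K] {b x p κ : ℕ} (I : Finset (Fin b)) (T : Fin κ → Fin b → K)
    (hT : ∀ c : Fin κ → K, (∀ i ∈ I, (∑ k, c k • T k) i = 0) → c = 0)
    (zC : Fin x → Fin p → K) (aC : Fin x → Fin b → K) (hC : CC I (zC, aC) = ⊥) :
    ∃ ε : K, ε ≠ 0 ∧ SE I T zC aC ε = ⊥ := by
  classical
  have hPK : PK fun ε : K => SE I T zC aC ε := by
    refine (PK.iInf fun i => PK.one (φ := fun ε : K => f1 T i (be I ((i : ℕ) / 2))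
      (ga I ((i : ℕ) / 2) - al I ε ((i : ℕ) / 2) * od i)) fun v => ?_).inf
      (PK.comap (Z := fun _ : K => ⨅ i : {i : Fin x // b ≤ (i : ℕ)},
        LinearMap.ker (ro (aC i, zC i))) ?_ _)
    · simp only [f1_apply]
      refine (LP.const _).add (LP.mul ?_ (LP.const _))
      have e : (fun ε : K => ga I ((i : ℕ) / 2) - al I ε ((i : ℕ) / 2) * od i) =
          fun ε : K => ga I ((i : ℕ) / 2) + al I ε ((i : ℕ) / 2) * (-od i) := by
        funext ε
        ring
      rw [e]
      exact (LP.const _).add ((LP_al I _).mul (LP.const _))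
    · exact PK.iInf fun i => PK.one (φ := fun _ : K => ro (aC i, zC i)) fun v => LP.const _
  have h0 : SE I T zC aC (0 : K) = ⊥ := by
    rw [eq_bot_iff]
    rintro ⟨G, c⟩ hv
    obtain ⟨h1, h2⟩ := mem_SE.1 hv
    have hc : c = 0 := hT c fun i hi => coef_in I i hi 0 rfl _ _ (h1 i)
    have hs : ∑ k, c k • T k = 0 := by
      rw [hc]
      simp
    have hG : G ∈ CC I (zC, aC) := by
      refine mem_CC.2 ⟨fun j hj => ?_, h2⟩
      have h3 := h1 j
      change be I ((j : ℕ) / 2) * (∑ k, c k • T k) j + _ = 0 at h3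
      rw [hs, Pi.zero_apply, mul_zero, zero_add] at h3
      exact coef_out I j hj _ h3
    rw [hC, Submodule.mem_bot] at hG
    rw [Submodule.mem_bot, hG, hc]
    rfl
  obtain ⟨ε, h1, h2⟩ := ((hPK.gen_bot h0).and (Gen.ne (K := K) (F := fun t : K => t)
    (LP.linear (LinearMap.id : K →ₗ[K] K)) 1 one_ne_zero)).exists
  exact ⟨ε, h2, h1⟩

/-- **The special configuration.** -/
theorem special [CharZero K] {m b x q p κ : ℕ} (hm : q + (1 + p) = m) (hx : x = b * p + κ)
    (hκ : κ ≤ b) (hbx : b ≤ x) (hbq : b ≤ 2 * q) :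
    ∃ (z : Fin x → Fin m → K) (a : Fin x → Fin b → K) (y : Fin m → K),
      ∀ T : Fin κ → Fin b → K, LinearIndependent K T → ∃ lam : Fin q → Fin m → K,
        HQ z a y T lam := by
  classical
  obtain ⟨⟨zC, aC⟩, hC⟩ := (Gen.forall (K := K) (ι := {I : Finset (Fin b) // I.card = κ})
    (P := fun I (c : (Fin x → Fin p → K) × (Fin x → Fin b → K)) => CC (I : Finset (Fin b)) c = ⊥)
    fun I => CC_bot (I : Finset (Fin b)) I.2 hx).exists
  have hcard : Fintype.card (Fin q ⊕ (Unit ⊕ Fin p)) = m := by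
    simp only [Fintype.card_sum, Fintype.card_unit, Fintype.card_fin]
    omega
  let e : Fin q ⊕ (Unit ⊕ Fin p) ≃ Fin m := Fintype.equivFinOfCardEq hcard
  let io : (Fin p → K) → Fin m → K := fun u i =>
    Sum.elim (fun _ => 0) (Sum.elim (fun _ => 0) u) (e.symm i)
  let re : (Fin b → Fin m → K) → Fin b → Fin p → K := fun g j l => g j (e (Sum.inr (Sum.inr l)))
  have hio : ∀ (u : Fin p → K) (g : Fin b → Fin m → K), lv (io u) g = lv u (re g) := by
    intro u g
    funext j
    rw [lv_apply, lv_apply, ← e.sum_comp, Fintype.sum_sum_type, Fintype.sum_sum_type]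
    have e1 : ∀ s : Fin q, io u (e (Sum.inl s)) = 0 := fun s => by simp [io]
    have e2 : ∀ s : Unit, io u (e (Sum.inr (Sum.inl s))) = 0 := fun s => by simp [io]
    have e3 : ∀ s : Fin p, io u (e (Sum.inr (Sum.inr s))) = u s := fun s => by simp [io]
    simp only [e1, e2, e3, zero_mul, Finset.sum_const_zero, zero_add, re]
  let es : Fin q → Fin m → K := fun s => Pi.single (e (Sum.inl s)) 1
  let yv : Fin m → K := Pi.single (e (Sum.inr (Sum.inl ()))) 1
  have hs : ∀ i : Fin x, (i : ℕ) < b → (i : ℕ) / 2 < q := fun i hi => by omega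
  let z : Fin x → Fin m → K := fun i => if h : (i : ℕ) < b then
    es ⟨(i : ℕ) / 2, hs i h⟩ + (od (i : ℕ) : K) • io (fun _ => 1) else io (zC i)
  let a : Fin x → Fin b → K := fun i => if h : (i : ℕ) < b then Pi.single ⟨i, h⟩ 1 else aC i
  refine ⟨z, a, yv, fun T hT => ?_⟩
  obtain ⟨I, hI, hT'⟩ := choose_I T hT hκ
  obtain ⟨ε, hε, hS⟩ := exists_eps I T hT' zC aC (hC ⟨I, hI⟩)
  refine ⟨fun s => al I ε (s : ℕ) • es s + ((be I (s : ℕ) : K) • yv +
    (ga I (s : ℕ) : K) • io fun _ => 1), ?_⟩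
  intro g c hy hro hlam
  -- the equations
  have h1 : ∀ s : Fin q, al I ε (s : ℕ) • lv (es s) g + ((be I (s : ℕ) : K) • lv yv g +
      (ga I (s : ℕ) : K) • lv (fun _ => (1 : K)) (re g)) = 0 := by
    intro s
    rw [← hio, ← lv_smul, ← lv_smul, ← lv_smul, ← lv_add, ← lv_add]
    exact hlam s
  have h2 : ∀ i : Fin b, lv (es ⟨(i : ℕ) / 2, by omega⟩) g i +
      od (i : ℕ) * lv (fun _ => (1 : K)) (re g) i = 0 := by
    intro i
    have hi : (i : ℕ) < x := i.2.trans_le hbx
    have := hro ⟨i, hi⟩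
    have e1 : z ⟨i, hi⟩ = es ⟨(i : ℕ) / 2, by omega⟩ + (od (i : ℕ) : K) • io (fun _ => 1) :=
      dif_pos i.2
    have e2 : a ⟨i, hi⟩ = Pi.single i 1 := dif_pos i.2
    rw [e1, e2, ro_eq, dt_single, lv_add, lv_smul, hio] at this
    exact this
  have h3 : ∀ i : Fin x, b ≤ (i : ℕ) → ro (aC i, zC i) (re g) = 0 := by
    intro i hi
    have := hro i
    have e1 : z i = io (zC i) := dif_neg (not_lt.2 hi)
    have e2 : a i = aC i := dif_neg (not_lt.2 hi)
    rw [e1, e2, ro_eq, hio] at this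
    exact this
  have hmem : ((re g, c) : (Fin b → Fin p → K) × (Fin κ → K)) ∈ SE I T zC aC ε := by
    refine mem_SE.2 ⟨fun i => ?_, h3⟩
    have k1 := congrFun (h1 ⟨(i : ℕ) / 2, by omega⟩) i
    have k2 := h2 i
    change al I ε ((i : ℕ) / 2) * lv (es ⟨(i : ℕ) / 2, by omega⟩) g i +
      (be I ((i : ℕ) / 2) * lv yv g i + ga I ((i : ℕ) / 2) *
        lv (fun _ => (1 : K)) (re g) i) = 0 at k1
    rw [hy] at k1
    linear_combination k1 - al I ε ((i : ℕ) / 2) * k2
  rw [hS, Submodule.mem_bot] at hmem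
  have hG : re g = 0 := congrArg Prod.fst hmem
  have hc : c = 0 := congrArg Prod.snd hmem
  have hy0 : lv yv g = 0 := by
    rw [hy, hc]
    simp
  refine ⟨?_, hc⟩
  funext j k
  obtain ⟨k, rfl⟩ := e.surjective k
  rcases k with s | u | l
  · have k1 := h1 s
    rw [hy0, hG, map_zero, smul_zero, smul_zero, add_zero, add_zero] at k1
    have k2 := (smul_eq_zero.1 k1).resolve_left (al_ne I hε s)
    have k3 := congrFun k2 j
    rw [lv_single] at k3
    exact k3
  · have k3 := congrFun hy0 j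
    rw [lv_single] at k3
    exact k3
  · exact congrFun (congrFun hG j) l

end HOR1

end

end Pool.Agent.WarR
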