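import Pool.Agent.WarR.Glue
import Pool.Agent.WarR.Hor

/-!
# Degree 2: the step over `ℂ` in the form used by the induction   (helper9)
-/

set_option autoImplicit false

namespace Pool.Agent.WarR

theorem horStmt : HorStmt ℂ :=
  fun _ _ _ _ _ _ _ h1 h2 hbx hw1 hw2 hb hr => HOR h1 h2 hbx hw1 hw2 hb hr

end Pool.Agent.WarR
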