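import Pool.Agent.WarR.Chain

/-!
# Arbitrary assignments of the stars, checked by the kernel (MP_db021c_ag, degree 2)   (helper42)

`rows`: one list for each group; the entry `i` of the row `j` is the form which gets the star of the point `i` of the
group `j` (the pairs `i < i'`; an entry which is not the number of a form, or the own number `j`, wastes the star).
For the form `k` and the group `j ≠ k` the centres `i < θ` (`θ = thl th j`) are peeled off. `rowU`: number of the points
of the row from the first centre on, `rowT`: number of the peeled centres, `rowP`: number of the points from the first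
centre `≥ θ` on, `rowE`: number of the pairs with centre `≥ θ`, `sA`: number of all pairs. `labCert` checks the rank
conditions of all forms and the value; `lab_kq`: `labCert m b x y r rows th = true → KQ K m b x y r`.
-/

set_option autoImplicit false

open Module

namespace Pool.Agent.WarR

open Pool.Agent.War Chain

/-! ### the theorem with sets -/

namespace Lab

section

variable {b : ℕ} {r : Fin b → ℕ}

/-- points of the groups different from `k` -/
def sg (y : ℕ) (k : Fin b) (A : ∀ j, Finset (Fin (r j))) : Finset (CI r ⊕ Fin y) :=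
  ((Finset.univ.filter fun j => j ≠ k).sigma A).map ⟨Sum.inl, Sum.inl_injective⟩

theorem mem_sg {y : ℕ} {k : Fin b} {A : ∀ j, Finset (Fin (r j))} {u : CI r ⊕ Fin y} :
    u ∈ sg y k A ↔ ∃ (j : Fin b) (i : Fin (r j)), j ≠ k ∧ i ∈ A j ∧ u = Sum.inl ⟨j, i⟩ := by
  unfold sg
  rw [Finset.mem_map]
  constructor
  · rintro ⟨⟨j, i⟩, h, rfl⟩
    rw [Finset.mem_sigma] at h
    exact ⟨j, i, (Finset.mem_filter.1 h.1).2, h.2, rfl⟩
  · rintro ⟨j, i, hj, hi, rfl⟩
    exact ⟨⟨j, i⟩, Finset.mem_sigma.2 ⟨Finset.mem_filter.2 ⟨Finset.mem_univ _, hj⟩, hi⟩, rfl⟩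

theorem mem_sg' {y : ℕ} {k j : Fin b} {A : ∀ j, Finset (Fin (r j))} {i : Fin (r j)} :
    (Sum.inl ⟨j, i⟩ : CI r ⊕ Fin y) ∈ sg y k A ↔ j ≠ k ∧ i ∈ A j := by
  rw [mem_sg]
  constructor
  · rintro ⟨j', i', hj, hi, h⟩
    have h1 : (⟨j, i⟩ : CI r) = ⟨j', i'⟩ := Sum.inl_injective h
    rw [Sigma.mk.injEq] at h1
    obtain ⟨rfl, h2⟩ := h1
    rw [eq_of_heq h2]
    exact ⟨hj, hi⟩
  · rintro ⟨hj, hi⟩
    exact ⟨j, i, hj, hi, rfl⟩

theorem card_sg {y : ℕ} (k : Fin b) (A : ∀ j, Finset (Fin (r j))) :
    (sg y k A).card = ∑ j ∈ Finset.univ.filter fun j => j ≠ k, (A j).card := by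
  unfold sg
  rw [Finset.card_map, Finset.card_sigma]

/-- the pairs of two points of one group -/
def em2 (y : ℕ) : ((j : Fin b) × (Fin (r j) × Fin (r j))) ↪ (CI r ⊕ Fin y) × (CI r ⊕ Fin y) :=
  ⟨fun p => (Sum.inl ⟨p.1, p.2.1⟩, Sum.inl ⟨p.1, p.2.2⟩), by
    rintro ⟨j, p⟩ ⟨j', q⟩ h
    have h' : ((Sum.inl ⟨j, p.1⟩, Sum.inl ⟨j, p.2⟩) : (CI r ⊕ Fin y) × (CI r ⊕ Fin y)) =
      (Sum.inl ⟨j', q.1⟩, Sum.inl ⟨j', q.2⟩) := h
    rw [Prod.mk.injEq] at h'
    have h1 : (⟨j, p.1⟩ : CI r) = ⟨j', q.1⟩ := Sum.inl_injective h'.1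
    have h2 : (⟨j, p.2⟩ : CI r) = ⟨j', q.2⟩ := Sum.inl_injective h'.2
    rw [Sigma.mk.injEq] at h1 h2
    obtain ⟨rfl, h3⟩ := h1
    rw [Prod.ext (eq_of_heq h3) (eq_of_heq h2.2)]⟩

theorem em2_apply {y : ℕ} (j : Fin b) (p : Fin (r j) × Fin (r j)) :
    em2 y ⟨j, p⟩ = (Sum.inl ⟨j, p.1⟩, Sum.inl ⟨j, p.2⟩) := rfl

/-- the pairs of the form `k` -/
theorem SE_lab {y : ℕ} (lab : CI r → Fin b) (k : Fin b) (u v : CI r ⊕ Fin y) :
    SE cg lab co k u v ↔ ∃ (j : Fin b) (i i' : Fin (r j)), lab ⟨j, i⟩ = k ∧ i < i' ∧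
      u = Sum.inl ⟨j, i⟩ ∧ v = Sum.inl ⟨j, i'⟩ := by
  constructor
  · intro h
    rcases u with ⟨j, i⟩ | l
    · rcases v with ⟨j', i'⟩ | l'
      · obtain ⟨h1, h2, h3⟩ := h
        have h1' : j = j' := h1
        subst h1'
        exact ⟨j, i, i', h3, h2, rfl, rfl⟩
      · exact absurd h id
    · exact absurd h id
  · rintro ⟨j, i, i', hl, hlt, rfl, rfl⟩
    exact ⟨rfl, hlt, hl⟩

/-- the centres -/
def ce (lab : CI r → Fin b) (k j : Fin b) : Finset (Fin (r j)) :=
  Finset.univ.filter fun i => lab ⟨j, i⟩ = k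

theorem mem_ce {lab : CI r → Fin b} {k j : Fin b} {i : Fin (r j)} :
    i ∈ ce lab k j ↔ lab ⟨j, i⟩ = k := by
  simp [ce]

/-- the rank condition for the form `k`, with sets -/
structure OK (lab : CI r → Fin b) (m : ℕ) (k : Fin b) (C V P : ∀ j, Finset (Fin (r j))) : Prop where
  CV : ∀ j, C j ⊆ V j
  PV : ∀ j, P j ⊆ V j
  CP : ∀ j, Disjoint (C j) (P j)
  AV : ∀ j, ce lab k j ⊆ V j
  up : ∀ j, ∀ i ∈ V j, ∀ i', i < i' → i' ∈ V j
  AP : ∀ j, ∀ i ∈ ce lab k j, i ∉ C j → ∀ i', i ≤ i' → i' ∈ P j
  le : r k + ∑ j ∈ Finset.univ.filter (fun j => j ≠ k), (C j).card ≤ m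
  nbr : ∀ j, j ≠ k → C j = ∅ ∨ (V j).card - (C j).card ≤
    m - r k - ∑ j ∈ Finset.univ.filter (fun j => j ≠ k), (C j).card
  cP : ∑ j ∈ Finset.univ.filter (fun j => j ≠ k), (P j).card ≤
    m - r k - ∑ j ∈ Finset.univ.filter (fun j => j ≠ k), (C j).card
  ct : ∑ j ∈ Finset.univ.filter (fun j => j ≠ k), ((V j).card - (C j).card) +
    ∑ j ∈ Finset.univ.filter (fun j => j ≠ k), cs (ce lab k j \ C j) ≤
    (m - r k - ∑ j ∈ Finset.univ.filter (fun j => j ≠ k), (C j).card + 1).choose 2

theorem card_ep_lab {y : ℕ} (lab : CI r → Fin b) (k : Fin b) :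
    ∑ j ∈ Finset.univ.filter (fun j => j ≠ k), cs (ce lab k j) ≤
      (ep (SE cg lab co k) (ST (J := Fin y) (cg (r := r)) k)).card := by
  classical
  have h1 : ((Finset.univ.filter fun j => j ≠ k).sigma fun j => Qp (ce lab k j)).map (em2 y) ⊆
      ep (SE cg lab co k) (ST (J := Fin y) (cg (r := r)) k) := by
    intro p hp
    obtain ⟨⟨j, q⟩, hq, rfl⟩ := Finset.mem_map.1 hp
    rw [Finset.mem_sigma, mem_Qp] at hq
    obtain ⟨hj, hq1, hq2⟩ := hq
    have hj' : j ≠ k := (Finset.mem_filter.1 hj).2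
    have hST : ∀ i : Fin (r j), (Sum.inl ⟨j, i⟩ : CI r ⊕ Fin y) ∈
        ST (J := Fin y) (cg (r := r)) k := by
      intro i
      refine mem_ST.2 ?_
      rintro i' h
      have : i' = ⟨j, i⟩ := (Sum.inl_injective h).symm
      subst this
      exact hj'
    rw [em2_apply, mem_ep]
    exact ⟨⟨hST _, hST _⟩, (SE_lab lab k _ _).2 ⟨j, q.1, q.2, mem_ce.1 hq1, hq2, rfl, rfl⟩⟩
  have h2 := Finset.card_le_card h1
  rw [Finset.card_map, Finset.card_sigma, Finset.sum_congr rfl fun j _ => card_Qp (ce lab k j)] at h2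
  exact h2

theorem OK.gen {K : Type*} [Field K] [CharZero K] {m y : ℕ} {lab : CI r → Fin b} {k : Fin b}
    {C V P : ∀ j, Finset (Fin (r j))} (h : OK lab m k C V P) :
    Gen K fun q : (CI r → Fin m → K) × (Fin y → Fin m → K) =>
      finrank K (SD q.1 q.2 cg lab co k) ≤ (m + 1 - r k).choose 2 -
        ((∑ j, r j - r k) + y + ∑ j ∈ Finset.univ.filter (fun j => j ≠ k), cs (ce lab k j)) := by
  classical
  have : Infinite K := CharZero.infinite K
  have hE := SE_asy (J := Fin y) (cg (r := r)) lab co k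
  have hle := h.le
  set t := ∑ j ∈ Finset.univ.filter (fun j => j ≠ k), (C j).card with ht
  obtain ⟨m', hm'⟩ : ∃ m', m = m' + r k := ⟨m - r k, by omega⟩
  obtain ⟨m₀, hm₀⟩ : ∃ m₀, m' = m₀ + t := ⟨m' - t, by omega⟩
  have hm1 : m - r k - t = m₀ := by omega
  have hnb := h.nbr
  have hcP := h.cP
  have hct := h.ct
  rw [← ht, hm1] at hnb hcP hct
  set Cs := sg y k C with hCs
  set Ps := sg y k P with hPs
  set Ls := sg y k (fun j => V j \ C j) with hLs
  have cC : Cs.card = t := card_sg k C
  have cP : Ps.card = ∑ j ∈ Finset.univ.filter (fun j => j ≠ k), (P j).card := card_sg k P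
  have hPL : Ps ∪ Ls = Ls := by
    rw [Finset.union_eq_right]
    intro u hu
    obtain ⟨j, i, hj, hi, rfl⟩ := mem_sg.1 hu
    exact mem_sg'.2 ⟨hj, Finset.mem_sdiff.2 ⟨h.PV j hi,
      fun hc => Finset.disjoint_left.1 (h.CP j) hc hi⟩⟩
  have cL : Ls.card = ∑ j ∈ Finset.univ.filter (fun j => j ≠ k), ((V j).card - (C j).card) := by
    rw [hLs, card_sg]
    refine Finset.sum_congr rfl fun j _ => ?_
    rw [Finset.card_sdiff_of_subset (h.CV j)]
  have hdis : Disjoint Cs (Ps ∪ Ls) := by
    rw [hPL, Finset.disjoint_left]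
    intro u hu hv
    obtain ⟨j, i, hj, hi, rfl⟩ := mem_sg.1 hu
    exact (Finset.mem_sdiff.1 (mem_sg'.1 hv).2).2 hi
  have hedge : ∀ u ∈ Ls, ∀ v ∈ Ls, SE cg lab co k u v → ∃ (j : Fin b) (i i' : Fin (r j)),
      j ≠ k ∧ i ∈ ce lab k j ∧ i ∉ C j ∧ i < i' ∧ u = Sum.inl ⟨j, i⟩ ∧ v = Sum.inl ⟨j, i'⟩ := by
    intro u hu v _ e
    obtain ⟨j, i, i', hl, hlt, rfl, rfl⟩ := (SE_lab lab k u v).1 e
    obtain ⟨hj, hi⟩ := mem_sg'.1 hu
    exact ⟨j, i, i', hj, mem_ce.2 hl, (Finset.mem_sdiff.1 hi).2, hlt, rfl, rfl⟩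
  have hInd : Ind K (m₀ + Cs.card) (SE cg lab co k) (Cs ∪ (Ps ∪ Ls)) := by
    refine Ind.note hE hdis ?_ (by rw [cP]; exact hcP) ?_ ?_
    · intro c hc
      obtain ⟨j, i, hj, hi, rfl⟩ := mem_sg.1 hc
      have h5 : nb (SE cg lab co k) (Ps ∪ Ls) (Sum.inl ⟨j, i⟩) ⊆ gi j (V j \ C j) := by
        intro u hu
        obtain ⟨hu1, hu2⟩ := mem_nb.1 hu
        rw [hPL] at hu1
        obtain ⟨j', i', hj', hi', rfl⟩ := mem_sg.1 hu1
        have hjj : j' = j := by
          rcases hu2 with e | e
          · obtain ⟨a, a1, a2, _, _, e1, e2⟩ := (SE_lab lab k _ _).1 e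
            have e3 : (⟨j, i⟩ : CI r) = ⟨a, a1⟩ := Sum.inl_injective e1
            have e4 : (⟨j', i'⟩ : CI r) = ⟨a, a2⟩ := Sum.inl_injective e2
            rw [Sigma.mk.injEq] at e3 e4
            rw [e3.1, e4.1]
          · obtain ⟨a, a1, a2, _, _, e1, e2⟩ := (SE_lab lab k _ _).1 e
            have e3 : (⟨j', i'⟩ : CI r) = ⟨a, a1⟩ := Sum.inl_injective e1
            have e4 : (⟨j, i⟩ : CI r) = ⟨a, a2⟩ := Sum.inl_injective e2
            rw [Sigma.mk.injEq] at e3 e4
            rw [e3.1, e4.1]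
        subst hjj
        exact mem_gi'.2 hi'
      refine (Finset.card_le_card h5).trans ?_
      rw [card_gi, Finset.card_sdiff_of_subset (h.CV j)]
      rcases hnb j hj with h6 | h6
      · rw [h6] at hi
        exact absurd hi (Finset.notMem_empty _)
      · exact h6
    · intro u hu v hv e
      rw [hPL] at hu hv
      obtain ⟨j, i, i', hj, hi, hiC, hlt, rfl, rfl⟩ := hedge u hu v hv e
      exact ⟨mem_sg'.2 ⟨hj, h.AP j i hi hiC i le_rfl⟩, mem_sg'.2 ⟨hj, h.AP j i hi hiC i' hlt.le⟩⟩
    · rw [hPL]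
      have h5 : ep (SE cg lab co k) Ls ⊆
          ((Finset.univ.filter fun j => j ≠ k).sigma fun j => Qp (ce lab k j \ C j)).map
            (em2 y) := by
        intro p hp
        obtain ⟨⟨hp1, hp2⟩, hp3⟩ := mem_ep.1 hp
        obtain ⟨j, i, i', hj, hi, hiC, hlt, e1, e2⟩ := hedge _ hp1 _ hp2 hp3
        refine Finset.mem_map.2 ⟨⟨j, (i, i')⟩, Finset.mem_sigma.2
          ⟨Finset.mem_filter.2 ⟨Finset.mem_univ _, hj⟩,
            mem_Qp.2 ⟨Finset.mem_sdiff.2 ⟨hi, hiC⟩, hlt⟩⟩, ?_⟩
        rw [em2_apply]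
        exact Prod.ext e1.symm e2.symm
      have h6 := Finset.card_le_card h5
      rw [Finset.card_map, Finset.card_sigma,
        Finset.sum_congr rfl fun j _ => card_Qp (ce lab k j \ C j)] at h6
      rw [cL]
      omega
  rw [cC, ← hm₀, hPL] at hInd
  have hsub : Cs ∪ Ls ⊆ ST cg k := by
    intro u hu
    have h7 : ∃ (j : Fin b) (i : Fin (r j)), j ≠ k ∧ u = Sum.inl ⟨j, i⟩ := by
      rcases Finset.mem_union.1 hu with hu | hu
      · obtain ⟨j, i, hj, _, rfl⟩ := mem_sg.1 hu
        exact ⟨j, i, hj, rfl⟩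
      · obtain ⟨j, i, hj, _, rfl⟩ := mem_sg.1 hu
        exact ⟨j, i, hj, rfl⟩
    obtain ⟨j, i, hj, rfl⟩ := h7
    refine mem_ST.2 ?_
    rintro i' h8
    have : i' = ⟨j, i⟩ := (Sum.inl_injective h8).symm
    subst this
    exact hj
  refine (SD_gen (m := m') (M := m) cg lab co k ?_ (Cs ∪ Ls) hsub ?_ hInd).mono fun q hq =>
    hq.trans ?_
  · rw [card_group]
    exact hm'
  · rintro ⟨j, i⟩ ⟨j', i'⟩ hj hjj hlt hl
    have hjj' : j = j' := hjj
    subst hjj'
    have hj' : j ≠ k := hj
    have hlt' : i < i' := hlt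
    have hV : ∀ a ∈ V j, (Sum.inl ⟨j, a⟩ : CI r ⊕ Fin y) ∈ Cs ∪ Ls := by
      intro a ha
      by_cases haC : a ∈ C j
      · exact Finset.mem_union_left _ (mem_sg'.2 ⟨hj', haC⟩)
      · exact Finset.mem_union_right _ (mem_sg'.2 ⟨hj', Finset.mem_sdiff.2 ⟨ha, haC⟩⟩)
    have hi : i ∈ V j := h.AV j (mem_ce.2 hl)
    exact ⟨hV i hi, hV i' (h.up j i hi i' hlt')⟩
  · have h1 := card_ST (r := r) (y := y) k
    have h2 := card_ep_lab (y := y) lab k
    have h3 : m + 1 - r k = m' + 1 := by omega
    have h4 : r k ≤ ∑ j, r j := Finset.single_le_sum (fun _ _ => Nat.zero_le _)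
      (Finset.mem_univ k)
    rw [h3]
    apply Nat.sub_le_sub_left
    omega

/-- **Arbitrary assignments**, with sets. -/
theorem sets {K : Type*} [Field K] [CharZero K] {m y : ℕ} (lab : CI r → Fin b)
    (C V P : ∀ _ j : Fin b, Finset (Fin (r j))) (h : ∀ k, OK lab m k (C k) (V k) (P k)) :
    KQ K m b (∑ k, r k) y (∑ k, ((m + 1 - r k).choose 2 -
      ((∑ j, r j - r k) + y + ∑ j ∈ Finset.univ.filter (fun j => j ≠ k), cs (ce lab k j)))) := by
  have : Infinite K := CharZero.infinite K
  obtain ⟨q, hq⟩ := (Gen.forall fun k => (h k).gen (K := K) (y := y)).exists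
  have hst := star q.1 q.2 cg lab co _ hq
  have e1 : Fintype.card (CI r) = ∑ k, r k := by
    rw [Fintype.card_sigma]
    simp
  rw [e1, Fintype.card_fin] at hst
  exact hst

end

end Lab

/-! ### lists -/

/-- number of the pairs with centre labelled `k` -/
def sA (k : ℕ) : List ℕ → ℕ
  | [] => 0
  | a :: l => (if a = k then l.length else 0) + sA k l

/-- number of the points from the first centre on -/
def rowU (k : ℕ) (l : List ℕ) : ℕ := (l.dropWhile fun a => a != k).length

/-- number of the centres before `θ` -/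
def rowT (k θ : ℕ) (l : List ℕ) : ℕ := (l.take θ).count k

/-- number of the points from the first centre after `θ` on -/
def rowP (k θ : ℕ) (l : List ℕ) : ℕ := rowU k (l.drop θ)

/-- number of the pairs with centre after `θ` -/
def rowE (k θ : ℕ) (l : List ℕ) : ℕ := sA k (l.drop θ)

namespace Lab

theorem rowU_nil (k : ℕ) : rowU k [] = 0 := rfl

theorem rowU_cons (k a : ℕ) (l : List ℕ) :
    rowU k (a :: l) = if a = k then l.length + 1 else rowU k l := by
  unfold rowU
  rw [List.dropWhile_cons]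
  by_cases h : a = k
  · simp [h]
  · simp [h]

theorem rowU_le (k : ℕ) (l : List ℕ) : rowU k l ≤ l.length := by
  induction l with
  | nil => simp [rowU_nil]
  | cons a l ih =>
    rw [rowU_cons, List.length_cons]
    split_ifs <;> omega

theorem le_of_get {k : ℕ} (l : List ℕ) : ∀ i : ℕ, l[i]? = some k → l.length - rowU k l ≤ i := by
  induction l with
  | nil => intro i h; simp at h
  | cons a l ih =>
    intro i h
    rw [rowU_cons, List.length_cons]
    by_cases ha : a = k
    · rw [if_pos ha]; omega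
    · rw [if_neg ha]
      rcases i with _ | i
      · simp at h
        exact absurd h ha
      · rw [List.getElem?_cons_succ] at h
        have := ih i h
        omega

theorem rowU_drop_le (k : ℕ) (l : List ℕ) : ∀ θ, rowU k (l.drop θ) ≤ rowU k l := by
  induction l with
  | nil => intro θ; simp
  | cons a l ih =>
    intro θ
    rcases θ with _ | θ
    · simp
    · rw [List.drop_succ_cons, rowU_cons]
      by_cases ha : a = k
      · rw [if_pos ha]
        have h1 := rowU_le k (l.drop θ)
        rw [List.length_drop] at h1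
        omega
      · rw [if_neg ha]
        exact ih θ

theorem rowP_le (k θ : ℕ) (l : List ℕ) : rowP k θ l ≤ l.length - θ := by
  have h1 := rowU_le k (l.drop θ)
  rw [List.length_drop] at h1
  exact h1

theorem le_of_get' {k θ : ℕ} (l : List ℕ) (i : ℕ) (h : l[i]? = some k) (hi : θ ≤ i) :
    l.length - rowP k θ l ≤ i := by
  have h1 : (l.drop θ)[i - θ]? = some k := by
    rw [List.getElem?_drop]
    have : θ + (i - θ) = i := by omega
    rw [this, h]
  have h2 := le_of_get _ _ h1
  rw [List.length_drop] at h2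
  unfold rowP
  omega

theorem sum_T (k : ℕ) (l : List ℕ) : ∀ θ : ℕ, ∑ i ∈ Finset.range l.length,
    (if l[i]? = some k ∧ i < θ then 1 else 0) = rowT k θ l := by
  induction l with
  | nil => intro θ; simp [rowT]
  | cons a l ih =>
    intro θ
    rw [List.length_cons, Finset.sum_range_succ']
    rcases θ with _ | θ
    · simp [rowT]
    · have h1 := ih θ
      have h2 : ∀ i ∈ Finset.range l.length, (if (a :: l)[i + 1]? = some k ∧ i + 1 < θ + 1 then 1
          else 0) = if l[i]? = some k ∧ i < θ then 1 else 0 := by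
        intro i _
        rw [List.getElem?_cons_succ]
        congr 1
        simp
      rw [Finset.sum_congr rfl h2, h1]
      unfold rowT
      rw [List.take_succ_cons, List.count_cons]
      simp only [List.getElem?_cons_zero, Option.some.injEq, Nat.zero_lt_succ, and_true,
        beq_iff_eq]

theorem sum_S (k : ℕ) (l : List ℕ) : ∀ θ : ℕ, ∑ i ∈ Finset.range l.length,
    (if l[i]? = some k ∧ θ ≤ i then l.length - 1 - i else 0) = sA k (l.drop θ) := by
  induction l with
  | nil => intro θ; simp [sA]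
  | cons a l ih =>
    intro θ
    rw [List.length_cons, Finset.sum_range_succ']
    rcases θ with _ | θ
    · have h1 := ih 0
      have h2 : ∀ i ∈ Finset.range l.length, (if (a :: l)[i + 1]? = some k ∧ 0 ≤ i + 1 then
          l.length + 1 - 1 - (i + 1) else 0) =
          if l[i]? = some k ∧ 0 ≤ i then l.length - 1 - i else 0 := by
        intro i _
        rw [List.getElem?_cons_succ]
        have e1 : l.length + 1 - 1 - (i + 1) = l.length - 1 - i := by omega
        rw [e1]
        simp
      rw [Finset.sum_congr rfl h2, h1]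
      simp only [List.drop_zero, sA, List.getElem?_cons_zero, Option.some.injEq, le_refl, and_true]
      split_ifs <;> omega
    · have h1 := ih θ
      have h2 : ∀ i ∈ Finset.range l.length, (if (a :: l)[i + 1]? = some k ∧ θ + 1 ≤ i + 1 then
          l.length + 1 - 1 - (i + 1) else 0) =
          if l[i]? = some k ∧ θ ≤ i then l.length - 1 - i else 0 := by
        intro i _
        rw [List.getElem?_cons_succ]
        have e1 : l.length + 1 - 1 - (i + 1) = l.length - 1 - i := by omega
        rw [e1]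
        congr 1
        simp
      rw [Finset.sum_congr rfl h2, h1, List.drop_succ_cons]
      simp

section

variable {b : ℕ} (R : Fin b → List ℕ)

/-- the label of a point -/
def lb (p : CI fun j => (R j).length) : Fin b :=
  if h : (R p.1)[(p.2 : ℕ)] < b then ⟨(R p.1)[(p.2 : ℕ)], h⟩ else p.1

theorem lb_eq {j k : Fin b} (hj : j ≠ k) (i : Fin (R j).length) :
    lb R ⟨j, i⟩ = k ↔ (R j)[(i : ℕ)]? = some (k : ℕ) := by
  rw [List.getElem?_eq_getElem i.2, Option.some.injEq]
  unfold lb
  simp only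
  split_ifs with h
  · rw [Fin.ext_iff]
  · constructor
    · intro e
      exact absurd e hj
    · intro e
      exact absurd (e ▸ k.2) h

theorem card_range {r : ℕ} (p : ℕ → Prop) [DecidablePred p] :
    (Finset.univ.filter fun i : Fin r => p (i : ℕ)).card =
      ∑ i ∈ Finset.range r, if p i then 1 else 0 := by
  rw [Finset.card_filter, Fin.sum_univ_eq_sum_range (fun i => if p i then 1 else 0) r]

theorem cs_range {r : ℕ} (p : ℕ → Prop) [DecidablePred p] :
    cs (Finset.univ.filter fun i : Fin r => p (i : ℕ)) =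
      ∑ i ∈ Finset.range r, if p i then r - 1 - i else 0 := by
  unfold cs
  rw [Finset.sum_filter, Fin.sum_univ_eq_sum_range (fun i => if p i then r - 1 - i else 0) r]

theorem card_ge {r a : ℕ} (h : a ≤ r) :
    (Finset.univ.filter fun i : Fin r => r - a ≤ (i : ℕ)).card = a := by
  have h5 : (Finset.univ.filter fun i : Fin r => r - a ≤ (i : ℕ)).map
      Fin.valEmbedding = Finset.Ico (r - a) r := by
    ext c
    simp only [Finset.mem_map, Finset.mem_filter, Finset.mem_univ, true_and,
      Fin.valEmbedding_apply, Finset.mem_Ico]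
    constructor
    · rintro ⟨i, hi, rfl⟩
      exact ⟨hi, i.2⟩
    · rintro ⟨ha, hb'⟩
      exact ⟨⟨c, hb'⟩, ha, rfl⟩
  rw [← Finset.card_map Fin.valEmbedding, h5, Nat.card_Ico]
  omega

/-- sum over the other groups -/
theorem fn {K : Type*} [Field K] [CharZero K] {m y : ℕ} (θ : Fin b → Fin b → ℕ)
    (h1 : ∀ k : Fin b, (R k).length + ∑ j ∈ Finset.univ.filter (fun j => j ≠ k),
      rowT k (θ k j) (R j) ≤ m)
    (h2 : ∀ k j : Fin b, j ≠ k → rowT k (θ k j) (R j) = 0 ∨ rowU k (R j) - rowT k (θ k j) (R j) ≤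
      m - (R k).length - ∑ j ∈ Finset.univ.filter (fun j => j ≠ k), rowT k (θ k j) (R j))
    (h3 : ∀ k : Fin b, ∑ j ∈ Finset.univ.filter (fun j => j ≠ k), rowP k (θ k j) (R j) ≤
      m - (R k).length - ∑ j ∈ Finset.univ.filter (fun j => j ≠ k), rowT k (θ k j) (R j))
    (h4 : ∀ k : Fin b, ∑ j ∈ Finset.univ.filter (fun j => j ≠ k),
        (rowU k (R j) - rowT k (θ k j) (R j)) +
      ∑ j ∈ Finset.univ.filter (fun j => j ≠ k), rowE k (θ k j) (R j) ≤
      (m - (R k).length - ∑ j ∈ Finset.univ.filter (fun j => j ≠ k),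
        rowT k (θ k j) (R j) + 1).choose 2) :
    KQ K m b (∑ k, (R k).length) y (∑ k : Fin b, ((m + 1 - (R k).length).choose 2 -
      ((∑ j, (R j).length - (R k).length) + y +
        ∑ j ∈ Finset.univ.filter (fun j => j ≠ k), sA k (R j)))) := by
  classical
  let C : ∀ _ j : Fin b, Finset (Fin (R j).length) := fun k j => if j = k then ∅ else
    Finset.univ.filter fun i : Fin (R j).length => (R j)[(i : ℕ)]? = some (k : ℕ) ∧ (i : ℕ) < θ k j
  let V : ∀ _ j : Fin b, Finset (Fin (R j).length) := fun k j => if j = k then Finset.univ else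
    Finset.univ.filter fun i : Fin (R j).length => (R j).length - rowU k (R j) ≤ (i : ℕ)
  let P : ∀ _ j : Fin b, Finset (Fin (R j).length) := fun k j => if j = k then Finset.univ else
    Finset.univ.filter fun i : Fin (R j).length => (R j).length - rowP k (θ k j) (R j) ≤ (i : ℕ)
  have hC : ∀ k j, j ≠ k → C k j = Finset.univ.filter fun i : Fin (R j).length =>
      (R j)[(i : ℕ)]? = some (k : ℕ) ∧ (i : ℕ) < θ k j := fun k j hj => if_neg hj
  have hV : ∀ k j, j ≠ k → V k j = Finset.univ.filter fun i : Fin (R j).length =>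
      (R j).length - rowU k (R j) ≤ (i : ℕ) := fun k j hj => if_neg hj
  have hP : ∀ k j, j ≠ k → P k j = Finset.univ.filter fun i : Fin (R j).length =>
      (R j).length - rowP k (θ k j) (R j) ≤ (i : ℕ) := fun k j hj => if_neg hj
  have cC : ∀ k j, j ≠ k → (C k j).card = rowT k (θ k j) (R j) := by
    intro k j hj
    rw [hC k j hj]
    have := card_range (r := (R j).length)
      (fun i => (R j)[i]? = some (k : ℕ) ∧ i < θ k j)
    rw [this, sum_T]
  have cV : ∀ k j, j ≠ k → (V k j).card = rowU k (R j) := by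
    intro k j hj
    rw [hV k j hj, card_ge (rowU_le _ _)]
  have cP : ∀ k j, j ≠ k → (P k j).card = rowP k (θ k j) (R j) := by
    intro k j hj
    rw [hP k j hj, card_ge ((rowP_le _ _ _).trans (Nat.sub_le _ _))]
  have cA : ∀ k j, j ≠ k → cs (ce (lb R) k j) = sA k (R j) := by
    intro k j hj
    have e1 : ce (lb R) k j = Finset.univ.filter fun i : Fin (R j).length =>
        (R j)[(i : ℕ)]? = some (k : ℕ) ∧ 0 ≤ (i : ℕ) := by
      ext i
      rw [mem_ce, lb_eq R hj, Finset.mem_filter]
      simp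
    rw [e1]
    have := cs_range (r := (R j).length) (fun i => (R j)[i]? = some (k : ℕ) ∧ 0 ≤ i)
    rw [this, sum_S, List.drop_zero]
  have cE : ∀ k j, j ≠ k → cs (ce (lb R) k j \ C k j) = rowE k (θ k j) (R j) := by
    intro k j hj
    have e1 : ce (lb R) k j \ C k j = Finset.univ.filter fun i : Fin (R j).length =>
        (R j)[(i : ℕ)]? = some (k : ℕ) ∧ θ k j ≤ (i : ℕ) := by
      ext i
      rw [Finset.mem_sdiff, mem_ce, lb_eq R hj, hC k j hj, Finset.mem_filter, Finset.mem_filter]
      constructor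
      · rintro ⟨a1, a2⟩
        refine ⟨Finset.mem_univ _, a1, ?_⟩
        by_contra hc
        exact a2 ⟨Finset.mem_univ _, a1, not_le.1 hc⟩
      · rintro ⟨_, a1, a2⟩
        exact ⟨a1, fun a3 => absurd a3.2.2 (not_lt.2 a2)⟩
    rw [e1]
    have := cs_range (r := (R j).length) (fun i => (R j)[i]? = some (k : ℕ) ∧ θ k j ≤ i)
    rw [this, sum_S]
    rfl
  have hsum : ∀ (k : Fin b) (f g : Fin b → ℕ), (∀ j, j ≠ k → f j = g j) →
      ∑ j ∈ Finset.univ.filter (fun j => j ≠ k), f j =
      ∑ j ∈ Finset.univ.filter (fun j => j ≠ k), g j := by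
    intro k f g hfg
    exact Finset.sum_congr rfl fun j hj => hfg j (Finset.mem_filter.1 hj).2
  have key := sets (K := K) (m := m) (y := y) (lb R) C V P (by
    intro k
    refine ⟨fun j => ?_, fun j => ?_, fun j => ?_, fun j => ?_, fun j i hi i' hlt => ?_,
      fun j i hi hiC i' hle => ?_, ?_, fun j hj => ?_, ?_, ?_⟩
    · by_cases hj : j = k
      · subst hj; simp [C]
      · rw [hC k j hj, hV k j hj]
        intro i hi
        rw [Finset.mem_filter] at hi ⊢
        exact ⟨Finset.mem_univ _, le_of_get _ _ hi.2.1⟩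
    · by_cases hj : j = k
      · subst hj; simp [V]
      · rw [hP k j hj, hV k j hj]
        intro i hi
        rw [Finset.mem_filter] at hi ⊢
        have := rowU_drop_le k (R j) (θ k j)
        have h5 : rowP k (θ k j) (R j) = rowU k ((R j).drop (θ k j)) := rfl
        exact ⟨Finset.mem_univ _, by omega⟩
    · by_cases hj : j = k
      · subst hj; simp [C]
      · rw [hC k j hj, hP k j hj, Finset.disjoint_left]
        intro i hi hi'
        rw [Finset.mem_filter] at hi hi'
        have h5 := rowP_le k (θ k j) (R j)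
        have h6 := i.2
        have h7 := hi.2.2
        have h8 := hi'.2
        omega
    · by_cases hj : j = k
      · subst hj; simp [V]
      · intro i hi
        rw [mem_ce, lb_eq R hj] at hi
        rw [hV k j hj, Finset.mem_filter]
        exact ⟨Finset.mem_univ _, le_of_get _ _ hi⟩
    · by_cases hj : j = k
      · subst hj; simp [V]
      · rw [hV k j hj, Finset.mem_filter] at hi ⊢
        have h5 : (i : ℕ) < i' := hlt
        exact ⟨Finset.mem_univ _, by omega⟩
    · by_cases hj : j = k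
      · subst hj; simp [P]
      · rw [mem_ce, lb_eq R hj] at hi
        rw [hC k j hj, Finset.mem_filter] at hiC
        rw [hP k j hj, Finset.mem_filter]
        have h5 : θ k j ≤ (i : ℕ) := by
          by_contra hc
          exact hiC ⟨Finset.mem_univ _, hi, not_le.1 hc⟩
        have h6 : (i : ℕ) ≤ i' := hle
        exact ⟨Finset.mem_univ _, (le_of_get' _ _ hi h5).trans h6⟩
    · rw [hsum k _ _ (cC k)]
      exact h1 k
    · rw [hsum k _ _ (cC k), cV k j hj, cC k j hj]
      rcases h2 k j hj with h5 | h5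
      · left
        rw [← Finset.card_eq_zero, cC k j hj]
        exact h5
      · exact Or.inr h5
    · rw [hsum k _ _ (cC k), hsum k _ _ (cP k)]
      exact h3 k
    · rw [hsum k _ _ (cC k), hsum k _ _ (cE k),
        hsum k (fun j => (V k j).card - (C k j).card)
          (fun j => rowU k (R j) - rowT k (θ k j) (R j)) (fun j hj => by rw [cV k j hj, cC k j hj])]
      exact h4 k)
  have e2 : ∀ k : Fin b, ∑ j ∈ Finset.univ.filter (fun j => j ≠ k), cs (ce (lb R) k j) =
      ∑ j ∈ Finset.univ.filter (fun j => j ≠ k), sA k (R j) := fun k => hsum k _ _ (cA k)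
  simp only [e2] at key
  exact key

end

end Lab

/-- sum over the rows with their numbers -/
def sumR (g : ℕ → List ℕ → ℕ) : ℕ → List (List ℕ) → ℕ
  | _, [] => 0
  | j, l :: rows => g j l + sumR g (j + 1) rows

/-- all rows -/
def allR (g : ℕ → List ℕ → Bool) : ℕ → List (List ℕ) → Bool
  | _, [] => true
  | j, l :: rows => g j l && allR g (j + 1) rows

/-- the threshold of the row `j` -/
def thl : List (ℕ × ℕ) → ℕ → ℕ
  | [], _ => 0
  | (a, θ) :: l, j => if a = j then θ else thl l j

/-- rank condition for the form `k` of a group of `rk` points -/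
def formOK (m : ℕ) (rows : List (List ℕ)) (k rk : ℕ) (tk : List (ℕ × ℕ)) : Bool :=
  let T := sumR (fun j l => if j = k then 0 else rowT k (thl tk j) l) 0 rows
  let M := m - rk - T
  decide (rk + T ≤ m) &&
  (allR (fun j l => decide (j = k) || (decide (rowT k (thl tk j) l = 0) ||
    decide (rowU k l - rowT k (thl tk j) l ≤ M))) 0 rows &&
  (decide (sumR (fun j l => if j = k then 0 else rowP k (thl tk j) l) 0 rows ≤ M) &&
  decide (sumR (fun j l => if j = k then 0 else rowU k l - rowT k (thl tk j) l) 0 rows +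
    sumR (fun j l => if j = k then 0 else rowE k (thl tk j) l) 0 rows ≤ (M + 1) * M / 2)))

/-- the bound for the dimension of the kernel -/
def labVal (m x y : ℕ) (rows : List (List ℕ)) : ℕ :=
  sumR (fun k l => (m + 1 - l.length) * (m - l.length) / 2 - ((x - l.length) + y +
    sumR (fun j l' => if j = k then 0 else sA k l') 0 rows)) 0 rows

/-- the certificate -/
def labCert (m b x y r : ℕ) (rows : List (List ℕ)) (th : List (List (ℕ × ℕ))) : Bool :=
  decide (rows.length = b) && (decide (sumR (fun _ l => l.length) 0 rows = x) &&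
  (allR (fun k l => formOK m rows k l.length (th.getD k [])) 0 rows &&
  decide (labVal m x y rows ≤ r)))

namespace Lab

theorem sumR_eq (g : ℕ → List ℕ → ℕ) (rows : List (List ℕ)) : ∀ j₀ : ℕ,
    sumR g j₀ rows = ∑ i : Fin rows.length, g (j₀ + i) rows[(i : ℕ)] := by
  induction rows with
  | nil => intro j₀; simp [sumR]
  | cons l rows ih =>
    intro j₀
    rw [sumR, ih]
    simp only [List.length_cons]
    rw [Fin.sum_univ_succ]
    simp only [Fin.val_zero, add_zero, List.getElem_cons_zero, Fin.val_succ,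
      List.getElem_cons_succ]
    congr 1
    refine Finset.sum_congr rfl fun i _ => ?_
    rw [show j₀ + 1 + (i : ℕ) = j₀ + ((i : ℕ) + 1) by ring]

theorem allR_iff (g : ℕ → List ℕ → Bool) (rows : List (List ℕ)) : ∀ j₀ : ℕ,
    allR g j₀ rows = true → ∀ i : Fin rows.length, g (j₀ + i) rows[(i : ℕ)] = true := by
  induction rows with
  | nil => intro j₀ _ i; exact i.elim0
  | cons l rows ih =>
    intro j₀ h i
    rw [allR, Bool.and_eq_true] at h
    refine Fin.cases ?_ (fun i => ?_) i
    · simpa using h.1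
    · have := ih (j₀ + 1) h.2 i
      simp only [Fin.val_succ, List.getElem_cons_succ]
      rw [show j₀ + 1 + (i : ℕ) = j₀ + ((i : ℕ) + 1) by ring] at this
      exact this

theorem sumR_other (g : ℕ → List ℕ → ℕ) (rows : List (List ℕ)) (k : Fin rows.length) :
    sumR (fun j l => if j = (k : ℕ) then 0 else g j l) 0 rows =
      ∑ j ∈ Finset.univ.filter (fun j : Fin rows.length => j ≠ k), g j rows[(j : ℕ)] := by
  rw [sumR_eq, Finset.sum_filter]
  refine Finset.sum_congr rfl fun j _ => ?_
  rw [zero_add]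
  by_cases h : j = k
  · subst h
    simp
  · have h' : (j : ℕ) ≠ k := fun e => h (Fin.ext e)
    rw [if_neg h', if_pos h]

end Lab

theorem KQ.weaken {K : Type*} [Field K] {m b x s r r' : ℕ} (h : KQ K m b x s r) (hr : r ≤ r') :
    KQ K m b x s r' := by
  obtain ⟨c, hc⟩ := h
  exact ⟨c, hc.trans hr⟩

/-- **Arbitrary assignments**, checked by the kernel. -/
theorem lab_kq {K : Type*} [Field K] [CharZero K] {m b x y r : ℕ} (rows : List (List ℕ))
    (th : List (List (ℕ × ℕ))) (h : labCert m b x y r rows th = true) : KQ K m b x y r := by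
  unfold labCert at h
  simp only [Bool.and_eq_true, decide_eq_true_eq] at h
  obtain ⟨hb, hx, hf, hv⟩ := h
  subst hb
  have hx' : ∑ k : Fin rows.length, (rows[(k : ℕ)]).length = x := by
    rw [← hx, Lab.sumR_eq]
  have hform := Lab.allR_iff _ _ _ hf
  have ht : ∀ k : Fin rows.length, formOK m rows k (rows[(k : ℕ)]).length (th.getD k []) = true := by
    intro k
    have := hform k
    rwa [zero_add] at this
  let θ : Fin rows.length → Fin rows.length → ℕ := fun k j => thl (th.getD k []) j
  have hT : ∀ k : Fin rows.length,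
      sumR (fun j l => if j = (k : ℕ) then 0 else rowT k (thl (th.getD k []) j) l) 0 rows =
      ∑ j ∈ Finset.univ.filter (fun j : Fin rows.length => j ≠ k),
        rowT k (θ k j) rows[(j : ℕ)] := fun k =>
    Lab.sumR_other (fun j l => rowT k (thl (th.getD k []) j) l) rows k
  have key := Lab.fn (K := K) (m := m) (y := y) (fun j : Fin rows.length => rows[(j : ℕ)]) θ
    (by
      intro k
      have := ht k
      unfold formOK at this
      simp only [Bool.and_eq_true, decide_eq_true_eq] at this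
      rw [hT k] at this
      exact this.1)
    (by
      intro k j hj
      have := ht k
      unfold formOK at this
      simp only [Bool.and_eq_true, decide_eq_true_eq] at this
      rw [hT k] at this
      have h2 := Lab.allR_iff _ _ _ this.2.1 j
      simp only [Bool.or_eq_true, decide_eq_true_eq, zero_add] at h2
      rcases h2 with h3 | h3 | h3
      · exact absurd (Fin.ext h3) hj
      · exact Or.inl h3
      · exact Or.inr h3)
    (by
      intro k
      have := ht k
      unfold formOK at this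
      simp only [Bool.and_eq_true, decide_eq_true_eq] at this
      rw [hT k, Lab.sumR_other (fun j l => rowP k (thl (th.getD k []) j) l) rows k] at this
      exact this.2.2.1)
    (by
      intro k
      have := ht k
      unfold formOK at this
      simp only [Bool.and_eq_true, decide_eq_true_eq] at this
      rw [hT k, Lab.sumR_other (fun j l => rowU k l - rowT k (thl (th.getD k []) j) l) rows k,
        Lab.sumR_other (fun j l => rowE k (thl (th.getD k []) j) l) rows k] at this
      rw [Nat.choose_two_right, Nat.add_sub_cancel]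
      exact this.2.2.2)
  rw [hx'] at key
  refine key.weaken (le_trans (le_of_eq ?_) hv)
  unfold labVal
  rw [Lab.sumR_eq]
  refine Finset.sum_congr rfl fun k _ => ?_
  rw [zero_add, Lab.sumR_other (fun _ l' => sA k l') rows k, Nat.choose_two_right]
  congr 3
  omega

end Pool.Agent.WarR
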