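import Pool.Agent.WarR.Tools

/-!
# Stars of general vectors in a linear system of quadratic forms (MP_db021c_ag, degree 2)   (helper95)

`L` a subspace of `SF K m`. For general `c` and `l 0, ..., l (e - 1)` the `2 e + 1` conditions
`A(c, c) = 0`, `A(c, l j) = 0`, `A(l j, l j) = 0` are independent on `L` as soon as `m + e ≤ dim L` and
`e (e + 1) < 2 dim L`.
-/

set_option autoImplicit false

open Module

namespace Pool.Agent.WarR

open Pool.Agent.War

namespace PROF

section

variable {K : Type*} [Field K]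

/-- a constant family -/
theorem PK_const {X V : Type*} [AddCommGroup X] [Module K X] [AddCommGroup V] [Module K V]
    [FiniteDimensional K V] (L : Submodule K V) : PK fun _ : X => L := by
  let b := Module.finBasis K (V ⧸ L)
  refine ⟨Fin (finrank K (V ⧸ L)), inferInstance, fun i _ => (b.coord i).comp L.mkQ,
    fun i v => LP.const _, fun x v => ?_⟩
  constructor
  · intro hv i
    rw [LinearMap.comp_apply, Submodule.mkQ_apply, (Submodule.Quotient.mk_eq_zero L).2 hv, map_zero]
  · intro h
    rw [← Submodule.Quotient.mk_eq_zero L]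
    refine b.ext_elem fun i => ?_
    rw [map_zero]
    exact h i

/-- rank-nullity for subspaces, equality -/
theorem finrank_map_add {V V' : Type*} [AddCommGroup V] [Module K V] [FiniteDimensional K V]
    [AddCommGroup V'] [Module K V'] (ρ : V →ₗ[K] V') (Z : Submodule K V) :
    finrank K (Z.map ρ) + finrank K ↥(Z ⊓ LinearMap.ker ρ) = finrank K Z := by
  have h := (ρ.domRestrict Z).finrank_range_add_finrank_ker
  have h1 : LinearMap.range (ρ.domRestrict Z) = Z.map ρ := by
    rw [LinearMap.domRestrict, LinearMap.range_comp, Submodule.range_subtype]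
  have h2 : finrank K (LinearMap.ker (ρ.domRestrict Z)) = finrank K ↥(Z ⊓ LinearMap.ker ρ) := by
    have e : LinearMap.ker (ρ.domRestrict Z) = (LinearMap.ker ρ).comap Z.subtype := by
      ext v; simp
    rw [e]
    have h3 := (Submodule.comapSubtypeEquivOfLe (p := Z ⊓ LinearMap.ker ρ) (q := Z) inf_le_left)
    have h4 : (LinearMap.ker ρ).comap Z.subtype = (Z ⊓ LinearMap.ker ρ).comap Z.subtype := by
      ext v; simp
    rw [h4, h3.finrank_eq]
  rw [h1, h2] at h
  exact h

/-- the polar map at `c` -/
def pol {m : ℕ} (c : Fin m → K) : SF K m →ₗ[K] (Fin m → K) where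
  toFun A k := bf (A : Fin m → Fin m → K) c (Pi.single k 1)
  map_add' A B := by
    funext k
    rw [Submodule.coe_add, bf_add]
    rfl
  map_smul' r A := by
    funext k
    rw [Submodule.coe_smul, bf_smul]
    rfl

theorem pol_apply {m : ℕ} (c : Fin m → K) (A : SF K m) (k : Fin m) :
    pol c A k = bf (A : Fin m → Fin m → K) c (Pi.single k 1) := rfl

theorem bf_eq_sum {m : ℕ} (A : Fin m → Fin m → K) (c v : Fin m → K) :
    bf A c v = ∑ k, v k * bf A c (Pi.single k 1) := by
  classical
  have e : ∀ k : Fin m, bf A c (Pi.single k 1) = ∑ i, c i * A i k := by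
    intro k
    unfold bf
    refine Finset.sum_congr rfl fun i _ => ?_
    rw [Finset.sum_eq_single k]
    · simp
    · intro j _ hj
      simp [hj]
    · simp
  simp only [e, Finset.mul_sum]
  unfold bf
  rw [Finset.sum_comm]
  refine Finset.sum_congr rfl fun k _ => Finset.sum_congr rfl fun i _ => ?_
  ring

theorem dot_pol {m : ℕ} (c v : Fin m → K) (A : SF K m) :
    ∑ k, v k * pol c A k = bf (A : Fin m → Fin m → K) c v := by
  rw [bf_eq_sum]
  rfl

theorem mem_ker_pol {m : ℕ} {c : Fin m → K} {A : SF K m} :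
    A ∈ LinearMap.ker (pol c) ↔ ∀ v, bf (A : Fin m → Fin m → K) c v = 0 := by
  rw [LinearMap.mem_ker]
  constructor
  · intro h v
    rw [← dot_pol, h]
    simp
  · intro h
    funext k
    rw [pol_apply, h]
    rfl

theorem bf_add_left {m : ℕ} (A : Fin m → Fin m → K) (x y z : Fin m → K) :
    bf A (x + y) z = bf A x z + bf A y z := by
  simp only [bf, Pi.add_apply, add_mul, Finset.sum_add_distrib]

theorem bf_smul_left {m : ℕ} (c : K) (A : Fin m → Fin m → K) (x y : Fin m → K) :
    bf A (c • x) y = c * bf A x y := by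
  simp only [bf, Pi.smul_apply, smul_eq_mul, Finset.mul_sum]
  refine Finset.sum_congr rfl fun i _ => Finset.sum_congr rfl fun j _ => by ring

theorem pol_add {m : ℕ} (c c' : Fin m → K) (t : K) (A : SF K m) :
    pol (c + t • c') A = pol c A + t • pol c' A := by
  funext k
  rw [Pi.add_apply, Pi.smul_apply, pol_apply, pol_apply, pol_apply, bf_add_left, bf_smul_left,
    smul_eq_mul]

/-- some value of a nonzero form is nonzero -/
theorem exists_value [NeZero (2 : K)] {m : ℕ} {A : SF K m} (h : A ≠ 0) :
    ∃ c, bf (A : Fin m → Fin m → K) c c ≠ 0 := by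
  by_contra hc
  push Not at hc
  exact h (eq_zero_of_values hc)

/-- if all polar maps have rank at most `k`, then `2 dim L ≤ k (k + 1)` -/
theorem polar_bound [NeZero (2 : K)] {m : ℕ} (k : ℕ) : ∀ L : Submodule K (SF K m),
    (∀ c, finrank K (L.map (pol c)) ≤ k) → 2 * finrank K L ≤ k * (k + 1) := by
  induction k with
  | zero =>
    intro L h
    have hL : L = ⊥ := by
      rw [eq_bot_iff]
      intro A hA
      rw [Submodule.mem_bot]
      refine eq_zero_of_values fun c => ?_
      have h1 : L.map (pol c) = ⊥ := Submodule.finrank_eq_zero.1 (Nat.le_zero.1 (h c))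
      have h2 : pol c A ∈ L.map (pol c) := Submodule.mem_map_of_mem hA
      rw [h1, Submodule.mem_bot] at h2
      rw [← dot_pol, h2]
      simp
    rw [hL, finrank_bot]
  | succ k ih =>
    intro L h
    by_cases hL : L = ⊥
    · rw [hL, finrank_bot]
      simp
    obtain ⟨A₀, hA₀, hne⟩ := L.ne_bot_iff.1 hL
    obtain ⟨c, hc⟩ := exists_value hne
    have h2 : (2 : K) ≠ 0 := NeZero.ne 2
    have key : ∀ c', finrank K ((L ⊓ LinearMap.ker (pol c)).map (pol c')) ≤ k := by
      intro c'
      by_contra hcon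
      push Not at hcon
      set M := (L ⊓ LinearMap.ker (pol c)).map (pol c') with hM
      have hMt : ∀ t : K, t ≠ 0 → ∀ A ∈ L, pol c A + t • pol c' A ∈ M := by
        intro t ht A hA
        have hle : M ≤ L.map (pol (c + t • c')) := by
          rintro _ ⟨B, ⟨hB, hB2⟩, rfl⟩
          refine ⟨t⁻¹ • B, L.smul_mem _ hB, ?_⟩
          have hB3 : pol c B = 0 := hB2
          rw [map_smul, pol_add, hB3, zero_add, smul_smul, inv_mul_cancel₀ ht, one_smul]
        have heq : M = L.map (pol (c + t • c')) := by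
          refine Submodule.eq_of_le_of_finrank_le hle ?_
          have := h (c + t • c')
          omega
        rw [heq]
        exact ⟨A, hA, pol_add _ _ _ _⟩
      have h1 := hMt 1 one_ne_zero A₀ hA₀
      have h3 := hMt 2 h2 A₀ hA₀
      have h4 : pol c' A₀ ∈ M := by
        have := M.sub_mem h3 h1
        rwa [show pol c A₀ + (2 : K) • pol c' A₀ - (pol c A₀ + (1 : K) • pol c' A₀) = pol c' A₀ by
          rw [one_smul, two_smul]; abel] at this
      have h5 : pol c A₀ ∈ M := by
        have := M.sub_mem h1 h4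
        rwa [one_smul, add_sub_cancel_right] at this
      obtain ⟨B, ⟨hB, hB2⟩, hB3⟩ := h5
      apply hc
      rw [← dot_pol, ← hB3, dot_pol, bf_comm B.2]
      exact mem_ker_pol.1 hB2 c'
    have h6 := ih _ key
    have h7 := finrank_map_add (pol c) L
    have h8 := h c
    nlinarith

/-- the star with the center `c` and the leaves `l j` -/
def ST {m e : ℕ} (c : Fin m → K) (l : Fin e → Fin m → K) : Submodule K (SF K m) where
  carrier := {A | bf (A : Fin m → Fin m → K) c c = 0 ∧
    ∀ j, bf (A : Fin m → Fin m → K) c (l j) = 0 ∧ bf (A : Fin m → Fin m → K) (l j) (l j) = 0}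
  add_mem' := by
    rintro A B ⟨h1, h2⟩ ⟨k1, k2⟩
    refine ⟨?_, fun j => ⟨?_, ?_⟩⟩
    · rw [Submodule.coe_add, bf_add, h1, k1, add_zero]
    · rw [Submodule.coe_add, bf_add, (h2 j).1, (k2 j).1, add_zero]
    · rw [Submodule.coe_add, bf_add, (h2 j).2, (k2 j).2, add_zero]
  zero_mem' := by
    refine ⟨?_, fun j => ⟨?_, ?_⟩⟩ <;> simp [bf_zero]
  smul_mem' := by
    rintro r A ⟨h1, h2⟩
    refine ⟨?_, fun j => ⟨?_, ?_⟩⟩
    · rw [Submodule.coe_smul, bf_smul, h1, mul_zero]
    · rw [Submodule.coe_smul, bf_smul, (h2 j).1, mul_zero]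
    · rw [Submodule.coe_smul, bf_smul, (h2 j).2, mul_zero]

theorem mem_ST {m e : ℕ} {c : Fin m → K} {l : Fin e → Fin m → K} {A : SF K m} :
    A ∈ ST c l ↔ bf (A : Fin m → Fin m → K) c c = 0 ∧
      ∀ j, bf (A : Fin m → Fin m → K) c (l j) = 0 ∧ bf (A : Fin m → Fin m → K) (l j) (l j) = 0 :=
  Iff.rfl

/-- the scalar product with `v` -/
def dot {m : ℕ} (v : Fin m → K) : (Fin m → K) →ₗ[K] K where
  toFun w := ∑ k, v k * w k
  map_add' w w' := by
    simp only [Pi.add_apply, mul_add, Finset.sum_add_distrib]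
  map_smul' r w := by
    simp only [Pi.smul_apply, smul_eq_mul, RingHom.id_apply, Finset.mul_sum]
    exact Finset.sum_congr rfl fun k _ => by ring

theorem dot_apply {m : ℕ} (v w : Fin m → K) : dot v w = ∑ k, v k * w k := rfl

/-- a value of a form -/
def evS {m : ℕ} (v : Fin m → K) : SF K m →ₗ[K] K where
  toFun A := bf (A : Fin m → Fin m → K) v v
  map_add' A B := by rw [Submodule.coe_add, bf_add]
  map_smul' r A := by rw [Submodule.coe_smul, bf_smul]; rfl

theorem evS_apply {m : ℕ} (v : Fin m → K) (A : SF K m) :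
    evS v A = bf (A : Fin m → Fin m → K) v v := rfl

/-- a polar value -/
def dvS {m : ℕ} (v w : Fin m → K) : SF K m →ₗ[K] K where
  toFun A := bf (A : Fin m → Fin m → K) v w
  map_add' A B := by rw [Submodule.coe_add, bf_add]
  map_smul' r A := by rw [Submodule.coe_smul, bf_smul]; rfl

theorem dvS_apply {m : ℕ} (v w : Fin m → K) (A : SF K m) :
    dvS v w A = bf (A : Fin m → Fin m → K) v w := rfl

theorem LP_coord {m : ℕ} (k : Fin m) : LP (K := K) fun c : Fin m → K => c k :=
  LP.linear (LinearMap.proj k : (Fin m → K) →ₗ[K] K)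

/-- the kernel of the polar map is a polynomial family -/
theorem PK_pol {m : ℕ} (L : Submodule K (SF K m)) :
    PK fun c : Fin m → K => L ⊓ LinearMap.ker (pol c) := by
  refine (PK_const L).inf ?_
  have h : PK fun c : Fin m → K => ⨅ k : Fin m, LinearMap.ker (dvS c (Pi.single k (1 : K))) := by
    refine PK.iInf fun k => PK.one (φ := fun c : Fin m → K => dvS c (Pi.single k (1 : K)))
      fun A => ?_
    simp only [dvS_apply]
    exact LP_bf _ LP_coord fun _ => LP.const _
  refine h.congr fun c => ?_
  ext A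
  rw [Submodule.mem_iInf, LinearMap.mem_ker]
  constructor
  · intro h
    funext k
    exact h k
  · intro h k
    exact congrFun h k

/-- the general polar map of a large system has a large rank -/
theorem exists_center [NeZero (2 : K)] [Infinite K] {m e : ℕ} (L : Submodule K (SF K m))
    (h : e * (e + 1) < 2 * finrank K L) :
    ∃ c : Fin m → K, e + 1 ≤ finrank K (L.map (pol c)) ∧
      ∃ A ∈ L, bf (A : Fin m → Fin m → K) c c ≠ 0 := by
  obtain ⟨c0, hc0⟩ : ∃ c : Fin m → K, e + 1 ≤ finrank K (L.map (pol c)) := by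
    by_contra hcon
    push Not at hcon
    have := polar_bound e L fun c => by have := hcon c; omega
    omega
  have hL : L ≠ ⊥ := by
    rintro rfl
    rw [finrank_bot] at h
    omega
  obtain ⟨A₀, hA₀, hne⟩ := L.ne_bot_iff.1 hL
  obtain ⟨c1, hc1⟩ := exists_value hne
  have g1 : Gen K fun c : Fin m → K =>
      finrank K ↥(L ⊓ LinearMap.ker (pol c)) ≤ finrank K L - (e + 1) := by
    refine (PK_pol L).gen_finrank (x₀ := c0) ?_
    have := finrank_map_add (pol c0) L
    omega
  have g2 : Gen K fun c : Fin m → K => bf (A₀ : Fin m → Fin m → K) c c ≠ 0 :=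
    Gen.ne (LP_bf _ LP_coord LP_coord) c1 hc1
  obtain ⟨c, h1, h2⟩ := (g1.and g2).exists
  have h3 := finrank_map_add (pol c) L
  have h4 := finrank_map_add (pol c0) L
  exact ⟨c, by omega, A₀, hA₀, h2⟩

/-- **Stars.** The `2 e + 1` conditions of a general star with `e` leaves are independent on `L`. -/
theorem star_exists [NeZero (2 : K)] [Infinite K] {m e : ℕ} (L : Submodule K (SF K m))
    (h1 : m + e ≤ finrank K L) (h2 : e * (e + 1) < 2 * finrank K L) :
    ∃ (c : Fin m → K) (l : Fin e → Fin m → K),
      finrank K ↥(L ⊓ ST c l) + (2 * e + 1) ≤ finrank K L := by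
  classical
  obtain ⟨c, hc, A₀, hA₀, hne⟩ := exists_center L h2
  set P := L.map (pol c) with hP
  have hadd := finrank_map_add (pol c) L
  rw [← hP] at hadd
  have hPm : finrank K P ≤ m := by
    refine (Submodule.finrank_le _).trans ?_
    rw [Module.finrank_fin_fun]
  -- the image
  set P1 := P ⊓ LinearMap.ker (dot c) with hP1
  have hP1r : finrank K P1 + 1 ≤ finrank K P := by
    have hlt : P1 < P := by
      refine lt_of_le_of_ne inf_le_left fun heq => hne ?_
      have h3 : pol c A₀ ∈ P1 := by
        rw [heq]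
        exact Submodule.mem_map_of_mem hA₀
      have h4 := h3.2
      rw [SetLike.mem_coe, LinearMap.mem_ker, dot_apply, dot_pol] at h4
      exact h4
    exact Submodule.finrank_lt_finrank_of_lt hlt
  have g1 : Gen K fun l : Fin e → Fin m → K =>
      finrank K ↥(P1 ⊓ ⨅ j, LinearMap.ker (dot (l j))) ≤ finrank K P1 - e := by
    obtain ⟨l0, hl0⟩ := red (K := K) (fun v : Fin m → K => dot v) P1 ⊥ (fun w _ hw => by
      by_contra hcon
      push Not at hcon
      apply hw
      rw [Submodule.mem_bot]
      funext k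
      have := hcon (Pi.single k 1)
      rw [dot_apply, Finset.sum_eq_single k] at this
      · simpa using this
      · intro j _ hj
        simp [hj]
      · simp) e
    refine PK.gen_finrank (x₀ := l0) ((PK_const P1).inf (PK.iInf fun j =>
      PK.one (φ := fun l : Fin e → Fin m → K => dot (l j)) fun w => ?_)) (hl0.trans (by
        rw [finrank_bot]; omega))
    simp only [dot_apply]
    refine LP.sum _ fun k _ => LP.mul ?_ (LP.const _)
    exact LP_apply (LinearMap.proj j : (Fin e → Fin m → K) →ₗ[K] (Fin m → K)) k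
  -- the kernel
  set B := L ⊓ LinearMap.ker (pol c) with hB
  have g2 : Gen K fun l : Fin e → Fin m → K =>
      finrank K ↥(B ⊓ ⨅ j, LinearMap.ker (evS (l j))) ≤ finrank K B - e := by
    obtain ⟨l0, hl0⟩ := red (K := K) (fun v : Fin m → K => evS v) B ⊥ (fun A _ hA => by
      by_contra hcon
      push Not at hcon
      apply hA
      rw [Submodule.mem_bot]
      exact eq_zero_of_values hcon) e
    refine PK.gen_finrank (x₀ := l0) ((PK_const B).inf (PK.iInf fun j =>
      PK.one (φ := fun l : Fin e → Fin m → K => evS (l j)) fun A => ?_)) (hl0.trans (by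
        rw [finrank_bot]; omega))
    simp only [evS_apply]
    exact LP_bf _ (LP_apply (LinearMap.proj j : (Fin e → Fin m → K) →ₗ[K] (Fin m → K)))
      (LP_apply (LinearMap.proj j : (Fin e → Fin m → K) →ₗ[K] (Fin m → K)))
  obtain ⟨l, k1, k2⟩ := (g1.and g2).exists
  refine ⟨c, l, ?_⟩
  have h5 := finrank_map_add (pol c) (L ⊓ ST c l)
  have h6 : finrank K ((L ⊓ ST c l).map (pol c)) ≤ finrank K P1 - e := by
    refine (Submodule.finrank_mono ?_).trans k1
    rintro _ ⟨A, ⟨hA, hA1, hA2⟩, rfl⟩
    refine ⟨⟨Submodule.mem_map_of_mem hA, ?_⟩, ?_⟩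
    · rw [SetLike.mem_coe, LinearMap.mem_ker, dot_apply, dot_pol]
      exact hA1
    · rw [SetLike.mem_coe, Submodule.mem_iInf]
      intro j
      rw [LinearMap.mem_ker, dot_apply, dot_pol]
      exact (hA2 j).1
  have h7 : finrank K ↥(L ⊓ ST c l ⊓ LinearMap.ker (pol c)) ≤ finrank K B - e := by
    refine (Submodule.finrank_mono ?_).trans k2
    rintro A ⟨⟨hA, hA1, hA2⟩, hA3⟩
    refine ⟨⟨hA, hA3⟩, ?_⟩
    rw [SetLike.mem_coe, Submodule.mem_iInf]
    intro j
    rw [LinearMap.mem_ker, evS_apply]
    exact (hA2 j).2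
  omega

end

end PROF

end Pool.Agent.WarR
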