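import Pool.Agent.WarR.Defs

/-!
# The residual lemma of the split simple point   (helper14, after note 2390 of helper51)

`H = K ^ m`, `G : H → K ^ b` linear, given by its rows `G j`.
-/

set_option autoImplicit false

open Module

namespace Pool.Agent.WarR

open Pool.Agent.War

section

variable {K : Type*} [Field K]

/-- the value of the linear map with the rows `G j` -/
def lv {m b : ℕ} (v : Fin m → K) : (Fin b → Fin m → K) →ₗ[K] (Fin b → K) where
  toFun G j := ∑ k, v k * G j k
  map_add' F G := by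
    funext j
    simp only [Pi.add_apply, mul_add, Finset.sum_add_distrib]
  map_smul' r F := by
    funext j
    simp only [Pi.smul_apply, smul_eq_mul, RingHom.id_apply, Finset.mul_sum]
    exact Finset.sum_congr rfl fun k _ => by ring

theorem lv_apply {m b : ℕ} (v : Fin m → K) (G : Fin b → Fin m → K) (j : Fin b) :
    lv v G j = ∑ k, v k * G j k := rfl

theorem lv_add {m b : ℕ} (v w : Fin m → K) (G : Fin b → Fin m → K) :
    lv (v + w) G = lv v G + lv w G := by
  funext j
  simp only [lv_apply, Pi.add_apply, add_mul, Finset.sum_add_distrib]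

theorem lv_smul {m b : ℕ} (r : K) (v : Fin m → K) (G : Fin b → Fin m → K) :
    lv (r • v) G = r • lv v G := by
  funext j
  simp only [lv_apply, Pi.smul_apply, smul_eq_mul, Finset.mul_sum]
  exact Finset.sum_congr rfl fun k _ => by ring

theorem lv_single {m b : ℕ} (k : Fin m) (G : Fin b → Fin m → K) (j : Fin b) :
    lv (Pi.single k 1) G j = G j k := by
  classical
  rw [lv_apply, Finset.sum_eq_single k]
  · simp
  · intro i _ hi
    simp [hi]
  · simp

/-- scalar product with `a` -/
def dt {b : ℕ} (a : Fin b → K) : (Fin b → K) →ₗ[K] K where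
  toFun g := ∑ j, a j * g j
  map_add' f g := by simp only [Pi.add_apply, mul_add, Finset.sum_add_distrib]
  map_smul' r f := by
    simp only [Pi.smul_apply, smul_eq_mul, RingHom.id_apply, Finset.mul_sum]
    exact Finset.sum_congr rfl fun k _ => by ring

theorem dt_apply {b : ℕ} (a g : Fin b → K) : dt a g = ∑ j, a j * g j := rfl

/-- a functional of rank one -/
def ro {m b : ℕ} (q : (Fin b → K) × (Fin m → K)) : (Fin b → Fin m → K) →ₗ[K] K :=
  (dt q.1).comp (lv q.2)

theorem ro_apply {m b : ℕ} (q : (Fin b → K) × (Fin m → K)) (G : Fin b → Fin m → K) :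
    ro q G = ∑ j, q.1 j * ∑ k, q.2 k * G j k := rfl

/-- choice of `k` vectors which cut down a subspace `R` -/
theorem choose_cut {b x : ℕ} (a : Fin x → Fin b → K) (ha : ∀ g, (∀ i, dt (a i) g = 0) → g = 0)
    (R : Submodule K (Fin b → K)) (k : ℕ) (hk : k ≤ x) :
    ∃ I : Finset (Fin x), I.card = k ∧
      finrank K ↥(R ⊓ ⨅ i ∈ I, LinearMap.ker (dt (a i))) ≤ finrank K R - k := by
  classical
  induction k with
  | zero => exact ⟨∅, rfl, Submodule.finrank_mono inf_le_left⟩
  | succ k ih =>
    obtain ⟨I, hI, hI2⟩ := ih (by omega)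
    set U := R ⊓ ⨅ i ∈ I, LinearMap.ker (dt (a i)) with hU
    have hmono : ∀ i₀, R ⊓ ⨅ i ∈ insert i₀ I, LinearMap.ker (dt (a i)) ≤ U := by
      intro i₀
      refine inf_le_inf_left _ ?_
      exact biInf_mono fun i hi => Finset.mem_insert_of_mem hi
    by_cases hU0 : U = ⊥
    · -- an arbitrary new element
      obtain ⟨i₀, hi₀⟩ : ∃ i₀, i₀ ∉ I := by
        by_contra hcon
        push Not at hcon
        have h1 : (Finset.univ : Finset (Fin x)) ⊆ I := fun i _ => hcon i
        have h2 := Finset.card_le_card h1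
        rw [Finset.card_univ, Fintype.card_fin] at h2
        omega
      refine ⟨insert i₀ I, by rw [Finset.card_insert_of_notMem hi₀, hI], ?_⟩
      refine (Submodule.finrank_mono (hmono i₀)).trans ?_
      rw [hU0, finrank_bot]
      exact Nat.zero_le _
    · obtain ⟨u, hu, hu0⟩ := (Submodule.ne_bot_iff U).1 hU0
      obtain ⟨i₀, hi₀⟩ : ∃ i₀, dt (a i₀) u ≠ 0 := by
        by_contra hcon
        push Not at hcon
        exact hu0 (ha u hcon)
      have hiI : i₀ ∉ I := by
        intro h
        apply hi₀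
        have h1 := hu.2
        rw [SetLike.mem_coe, Submodule.mem_iInf] at h1
        have h2 := h1 i₀
        rw [Submodule.mem_iInf] at h2
        exact h2 h
      refine ⟨insert i₀ I, by rw [Finset.card_insert_of_notMem hiI, hI], ?_⟩
      have hlt : finrank K ↥(R ⊓ ⨅ i ∈ insert i₀ I, LinearMap.ker (dt (a i))) < finrank K U := by
        refine Submodule.finrank_lt_finrank_of_lt (lt_of_le_of_ne (hmono i₀) ?_)
        intro he
        rw [← he] at hu
        have h1 := hu.2
        rw [SetLike.mem_coe, Submodule.mem_iInf] at h1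
        have h2 := h1 i₀
        rw [Submodule.mem_iInf] at h2
        exact hi₀ (h2 (Finset.mem_insert_self _ _))
      omega

/-- the last part of the residual space -/
def E1 {m b x s : ℕ} (I : Finset (Fin x)) (c : (Fin x → Fin m → K) × (Fin x → Fin b → K) ×
    (Fin m → K) × (Fin s → Fin m → K)) : Submodule K (Fin b → Fin m → K) :=
  (LinearMap.ker (lv c.2.2.1) ⊓ ⨅ l, LinearMap.ker (lv (c.2.2.2 l))) ⊓
    ((⨅ i : {i // i ∈ I}, LinearMap.ker (lv (c.1 i))) ⊓
      ⨅ i : {i // i ∉ I}, LinearMap.ker (ro (c.2.1 i, c.1 i)))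

theorem mem_E1 {m b x s : ℕ} {I : Finset (Fin x)} {c : (Fin x → Fin m → K) ×
    (Fin x → Fin b → K) × (Fin m → K) × (Fin s → Fin m → K)} {G : Fin b → Fin m → K} :
    G ∈ E1 I c ↔ (lv c.2.2.1 G = 0 ∧ ∀ l, lv (c.2.2.2 l) G = 0) ∧
      (∀ i ∈ I, lv (c.1 i) G = 0) ∧ ∀ i ∉ I, ro (c.2.1 i, c.1 i) G = 0 := by
  simp only [E1, Submodule.mem_inf, Submodule.mem_iInf, LinearMap.mem_ker, Subtype.forall]

theorem LP_lv {X : Type*} [AddCommGroup X] [Module K X] {m b : ℕ} (G : Fin b → Fin m → K)
    {v : X → Fin m → K} (hv : ∀ k, LP fun p => v p k) (j : Fin b) : LP fun p => lv (v p) G j := by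
  simp only [lv_apply]
  exact LP.sum _ fun k _ => (hv k).mul (LP.const _)

theorem PK_lv {X : Type*} [AddCommGroup X] [Module K X] {m b : ℕ} {v : X → Fin m → K}
    (hv : ∀ k, LP fun p => v p k) :
    PK fun p => LinearMap.ker (lv (K := K) (b := b) (v p)) := by
  have h : PK fun p => ⨅ j : Fin b, LinearMap.ker
      ((LinearMap.proj j : (Fin b → K) →ₗ[K] K).comp (lv (v p))) := by
    refine PK.iInf fun j => PK.one (φ := fun p =>
      (LinearMap.proj j : (Fin b → K) →ₗ[K] K).comp (lv (v p))) fun G => ?_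
    exact LP_lv G hv j
  refine h.congr fun p => ?_
  ext G
  simp only [Submodule.mem_iInf, LinearMap.mem_ker, LinearMap.comp_apply, LinearMap.proj_apply]
  exact ⟨fun h => funext h, fun h j => congrFun h j⟩

theorem PK_ro {X : Type*} [AddCommGroup X] [Module K X] {m b : ℕ} {v : X → Fin m → K}
    {a : X → Fin b → K} (hv : ∀ k, LP fun p => v p k) (ha : ∀ j, LP fun p => a p j) :
    PK fun p => LinearMap.ker (ro (a p, v p)) := by
  refine PK.one (φ := fun p => ro (a p, v p)) fun G => ?_
  simp only [ro_apply]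
  exact LP.sum _ fun j _ => (ha j).mul (LP.sum _ fun k _ => (hv k).mul (LP.const _))

theorem PK_E1 {m b x s : ℕ} (I : Finset (Fin x)) :
    PK fun c : (Fin x → Fin m → K) × (Fin x → Fin b → K) × (Fin m → K) × (Fin s → Fin m → K) =>
      E1 I c := by
  let X : Type _ := (Fin x → Fin m → K) × (Fin x → Fin b → K) × (Fin m → K) ×
    (Fin s → Fin m → K)
  have l1 : ∀ (i : Fin x) (k : Fin m), LP fun c : X => c.1 i k := fun i k =>
    LP_apply ((LinearMap.proj i : (Fin x → Fin m → K) →ₗ[K] (Fin m → K)).comp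
      (LinearMap.fst K (Fin x → Fin m → K) ((Fin x → Fin b → K) × (Fin m → K) ×
        (Fin s → Fin m → K)))) k
  have l2 : ∀ (i : Fin x) (k : Fin b), LP fun c : X => c.2.1 i k := fun i k =>
    LP_apply (((LinearMap.proj i : (Fin x → Fin b → K) →ₗ[K] (Fin b → K)).comp
      (LinearMap.fst K (Fin x → Fin b → K) ((Fin m → K) × (Fin s → Fin m → K)))).comp
      (LinearMap.snd K (Fin x → Fin m → K) ((Fin x → Fin b → K) × (Fin m → K) ×
        (Fin s → Fin m → K)))) k
  have l3 : ∀ (k : Fin m), LP fun c : X => c.2.2.1 k := fun k =>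
    LP_apply (((LinearMap.fst K (Fin m → K) (Fin s → Fin m → K)).comp
      (LinearMap.snd K (Fin x → Fin b → K) ((Fin m → K) × (Fin s → Fin m → K)))).comp
      (LinearMap.snd K (Fin x → Fin m → K) ((Fin x → Fin b → K) × (Fin m → K) ×
        (Fin s → Fin m → K)))) k
  have l4 : ∀ (i : Fin s) (k : Fin m), LP fun c : X => c.2.2.2 i k := fun i k =>
    LP_apply ((((LinearMap.proj i : (Fin s → Fin m → K) →ₗ[K] (Fin m → K)).comp
      (LinearMap.snd K (Fin m → K) (Fin s → Fin m → K))).comp
      (LinearMap.snd K (Fin x → Fin b → K) ((Fin m → K) × (Fin s → Fin m → K)))).comp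
      (LinearMap.snd K (Fin x → Fin m → K) ((Fin x → Fin b → K) × (Fin m → K) ×
        (Fin s → Fin m → K)))) k
  exact ((PK_lv l3).inf (PK.iInf fun l => PK_lv (l4 l))).inf
    ((PK.iInf fun i : {i // i ∈ I} => PK_lv (l1 i)).inf
      (PK.iInf fun i : {i // i ∉ I} => PK_ro (l1 i) (l2 i)))

/-- general position of the last part of the residual space -/
theorem E1_gen {m b x s k p : ℕ} (I : Finset (Fin x)) (hI : I.card = k) (hm : 1 + k + s + p = m) :
    Gen K fun c : (Fin x → Fin m → K) × (Fin x → Fin b → K) × (Fin m → K) ×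
      (Fin s → Fin m → K) => finrank K (E1 I c) ≤ b * p - (x - k) := by
  classical
  -- coordinates
  have hcard : Fintype.card (Unit ⊕ (Fin k ⊕ (Fin s ⊕ Fin p))) = m := by
    simp only [Fintype.card_sum, Fintype.card_unit, Fintype.card_fin]
    omega
  let e : Unit ⊕ (Fin k ⊕ (Fin s ⊕ Fin p)) ≃ Fin m := Fintype.equivFinOfCardEq hcard
  let W : Submodule K (Fin b → Fin m → K) :=
    ⨅ q : Fin b × (Unit ⊕ (Fin k ⊕ Fin s)), LinearMap.ker
      ((LinearMap.proj (e (Sum.elim Sum.inl (Sum.elim (fun i => Sum.inr (Sum.inl i))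
        fun i => Sum.inr (Sum.inr (Sum.inl i))) q.2)) : (Fin m → K) →ₗ[K] K).comp
        (LinearMap.proj q.1 : (Fin b → Fin m → K) →ₗ[K] (Fin m → K)))
  have hW : ∀ G, G ∈ W ↔ ∀ j, G j (e (Sum.inl ())) = 0 ∧ (∀ i, G j (e (Sum.inr (Sum.inl i))) = 0) ∧
      ∀ i, G j (e (Sum.inr (Sum.inr (Sum.inl i)))) = 0 := by
    intro G
    simp only [W, Submodule.mem_iInf, LinearMap.mem_ker, LinearMap.comp_apply,
      LinearMap.proj_apply, Prod.forall]
    constructor
    · intro h j
      exact ⟨h j (Sum.inl ()), fun i => h j (Sum.inr (Sum.inl i)),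
        fun i => h j (Sum.inr (Sum.inr i))⟩
    · rintro h j (u | i | i)
      · exact (h j).1
      · exact (h j).2.1 i
      · exact (h j).2.2 i
  have hWdim : finrank K W ≤ b * p := by
    let T : (Fin b → Fin m → K) →ₗ[K] (Fin b → Fin p → K) :=
      { toFun := fun G j l => G j (e (Sum.inr (Sum.inr (Sum.inr l))))
        map_add' := fun _ _ => rfl
        map_smul' := fun _ _ => rfl }
    have hinj : Function.Injective (T.comp W.subtype) := by
      rw [← LinearMap.ker_eq_bot, LinearMap.ker_eq_bot']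
      intro G hG
      have h1 := (hW G).1 G.2
      have h2 : ∀ j l, (G : Fin b → Fin m → K) j (e (Sum.inr (Sum.inr (Sum.inr l)))) = 0 :=
        fun j l => congrFun (congrFun hG j) l
      apply Subtype.ext
      funext j i
      obtain ⟨q, rfl⟩ := e.surjective i
      rcases q with u | i | i | i
      · exact (h1 j).1
      · exact (h1 j).2.1 i
      · exact (h1 j).2.2 i
      · exact h2 j i
    have := LinearMap.finrank_le_finrank_of_injective hinj
    refine this.trans ?_
    rw [Module.finrank_pi_fintype]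
    simp
  -- the free full points
  obtain ⟨y, hy⟩ := red (K := K) (ro (K := K) (m := m) (b := b)) W ⊥ (fun w _ hw => by
    rw [Submodule.mem_bot] at hw
    by_contra hcon
    push Not at hcon
    apply hw
    funext j i
    have := hcon (Pi.single j 1, Pi.single i 1)
    have h2 : ro ((Pi.single j 1 : Fin b → K), (Pi.single i 1 : Fin m → K)) w = w j i := by
      rw [ro_apply, Finset.sum_eq_single j]
      · have := lv_single i w j
        rw [lv_apply] at this
        simp only [Pi.single_eq_same, one_mul]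
        exact this
      · intro l _ hl
        simp [hl]
      · simp
    rw [← h2, this]
    rfl) (x - k)
  have hI2 : Fintype.card {i // i ∈ I} = k := by rw [Fintype.card_coe, hI]
  have hI3 : Fintype.card {i // i ∉ I} = x - k := by
    have h1 := Fintype.card_subtype_compl (fun i : Fin x => i ∈ I)
    rw [Fintype.card_fin] at h1
    rw [h1, ← hI2]
  let e1 : {i // i ∈ I} ≃ Fin k := Fintype.equivFinOfCardEq hI2
  let e2 : {i // i ∉ I} ≃ Fin (x - k) := Fintype.equivFinOfCardEq hI3
  let z : Fin x → Fin m → K := fun i => if h : i ∈ I then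
    Pi.single (e (Sum.inr (Sum.inl (e1 ⟨i, h⟩)))) 1 else (y (e2 ⟨i, h⟩)).2
  let a : Fin x → Fin b → K := fun i => if h : i ∈ I then 0 else (y (e2 ⟨i, h⟩)).1
  refine (PK_E1 I).gen_finrank (x₀ := (z, a, Pi.single (e (Sum.inl ())) 1,
    fun l => Pi.single (e (Sum.inr (Sum.inr (Sum.inl l)))) 1)) ?_
  have h3 : E1 I (z, a, Pi.single (e (Sum.inl ())) 1,
      fun l => Pi.single (e (Sum.inr (Sum.inr (Sum.inl l)))) 1) ≤
      W ⊓ ⨅ i, LinearMap.ker (ro (y i)) := by
    intro G hG
    rw [mem_E1] at hG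
    obtain ⟨⟨g1, g2⟩, g3, g4⟩ := hG
    refine ⟨(hW G).2 fun j => ⟨?_, fun i => ?_, fun i => ?_⟩, ?_⟩
    · rw [← lv_single (e (Sum.inl ())) G j]
      exact congrFun g1 j
    · have h4 := g3 (e1.symm i) (e1.symm i).2
      have h5 : z (e1.symm i) = Pi.single (e (Sum.inr (Sum.inl i))) 1 := by
        simp only [z]
        rw [dif_pos (e1.symm i).2]
        congr 4
        exact e1.apply_symm_apply i
      simp only [h5] at h4
      rw [← lv_single (e (Sum.inr (Sum.inl i))) G j]
      exact congrFun h4 j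
    · rw [← lv_single (e (Sum.inr (Sum.inr (Sum.inl i)))) G j]
      exact congrFun (g2 i) j
    · rw [SetLike.mem_coe, Submodule.mem_iInf]
      intro i
      have h4 := g4 (e2.symm i) (e2.symm i).2
      have h5 : z (e2.symm i) = (y i).2 := by
        simp only [z]
        rw [dif_neg (e2.symm i).2]
        congr 2
        exact e2.apply_symm_apply i
      have h6 : a (e2.symm i) = (y i).1 := by
        simp only [a]
        rw [dif_neg (e2.symm i).2]
        congr 2
        exact e2.apply_symm_apply i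
      simp only [h5, h6] at h4
      exact h4
  refine (Submodule.finrank_mono h3).trans (hy.trans ?_)
  rw [finrank_bot]
  refine max_le ?_ (Nat.zero_le _)
  omega

/-- the residual space -/
theorem resid {m b x s B1 B2 : ℕ} (I : Finset (Fin x)) (z : Fin x → Fin m → K)
    (a : Fin x → Fin b → K) (z0 : Fin m → K) (μ : Fin s → Fin m → K)
    (R : Submodule K (Fin b → K)) (h1 : finrank K (E1 I (z, a, z0, μ)) ≤ B1)
    (h2 : finrank K ↥(R ⊓ ⨅ i ∈ I, LinearMap.ker (dt (a i))) ≤ B2)
    (E : Submodule K (Fin b → Fin m → K)) (hE : ∀ G ∈ E, (∀ i, ro (a i, z i) G = 0) ∧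
      (∀ i ∈ I, lv (z i) G = lv z0 G) ∧ (∀ l, lv (μ l) G = 0) ∧ lv z0 G ∈ R) :
    finrank K E ≤ B2 + B1 := by
  refine (finrank_le_map_add_ker (lv z0) E).trans (Nat.add_le_add ?_ ?_)
  · refine (Submodule.finrank_mono ?_).trans h2
    rintro _ ⟨G, hG, rfl⟩
    obtain ⟨g1, g2, g3, g4⟩ := hE G hG
    refine ⟨g4, ?_⟩
    rw [SetLike.mem_coe, Submodule.mem_iInf]
    intro i
    rw [Submodule.mem_iInf]
    intro hi
    rw [LinearMap.mem_ker, ← g2 i hi]
    exact g1 i
  · refine (Submodule.finrank_mono ?_).trans h1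
    rintro G ⟨hG, hG0⟩
    obtain ⟨g1, g2, g3, g4⟩ := hE G hG
    rw [SetLike.mem_coe, LinearMap.mem_ker] at hG0
    rw [mem_E1]
    exact ⟨⟨hG0, g3⟩, fun i hi => by rw [g2 i hi, hG0], fun i _ => g1 i⟩

end

end Pool.Agent.WarR
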