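import Pool.Agent.WarR.Lab

/-!
# Small windows of degree 2 (MP_db021c_ag), n = 5 ... 14: explicit assignments of the stars   (helper42)

`sd_n_b_x_y : KQ K (n+1) b x y r`, found by annealing, checked by the kernel through `lab_kq`.
-/

set_option autoImplicit false

namespace Pool.Agent.WarR

variable (K : Type*) [Field K] [CharZero K]

theorem sd_7_5_13_5 : KQ K 8 5 13 5 0 :=
  lab_kq
    [[1, 4, 0], [1, 1], [4, 1, 2], [4, 1, 3], [1, 4]]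
    [[], [(0, 1), (4, 1)], [], [], [(3, 1)]]
    (by decide +kernel)

theorem sd_7_5_14_2 : KQ K 8 5 14 2 2 :=
  lab_kq
    [[3, 1, 0], [0, 1], [1, 0, 2], [2, 4, 3], [1, 1, 4]]
    [[], [(2, 1)]]
    (by decide +kernel)

theorem sd_7_5_14_3 : KQ K 8 5 14 3 0 :=
  lab_kq
    [[2, 1, 0], [3, 1], [1, 3, 2], [0, 4, 3], [1, 1, 4]]
    [[], [(2, 1)]]
    (by decide +kernel)

theorem sd_7_7_18_0 : KQ K 8 7 18 0 0 :=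
  lab_kq
    [[3, 0], [3, 0, 1], [0, 2], [2, 3], [2, 2, 4], [3, 0, 5], [0, 2, 6]]
    [[(5, 2), (6, 1)], [], [(6, 2)], [(5, 1)]]
    (by decide +kernel)

theorem sd_8_6_17_5 : KQ K 9 6 17 5 2 :=
  lab_kq
    [[2, 5, 0], [4, 1], [1, 4, 2], [1, 5, 3], [1, 1, 4], [3, 0, 5]]
    [[], [(3, 1)]]
    (by decide +kernel)

theorem sd_8_6_19_1 : KQ K 9 6 19 1 0 :=
  lab_kq
    [[5, 1, 0], [0, 5, 1], [4, 0, 1, 2], [4, 5, 3], [3, 3, 4], [1, 3, 5]]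
    [[], [(5, 1)], [], [], [(3, 1)], [(3, 2)]]
    (by decide +kernel)

theorem sd_8_7_20_2 : KQ K 9 7 20 2 1 :=
  lab_kq
    [[3, 0], [0, 5, 1], [6, 3, 2], [1, 4, 3], [0, 0, 4], [0, 4, 5], [2, 5, 6]]
    [[(5, 1)]]
    (by decide +kernel)

theorem sd_8_8_21_3 : KQ K 9 8 21 3 0 :=
  lab_kq
    [[5, 6, 0], [6, 1], [5, 6, 2], [6, 6, 3], [1, 5, 4], [1, 5], [1, 6], [1, 5, 7]]
    [[], [(6, 1), (7, 1)], [], [], [], [(2, 1), (7, 2)], [(1, 1), (2, 2)]]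
    (by decide +kernel)

theorem sd_9_7_22_5 : KQ K 10 7 22 5 0 :=
  lab_kq
    [[5, 1, 0], [3, 4, 1], [6, 0, 6, 2], [4, 5, 3], [0, 5, 4], [3, 1, 5], [1, 4, 6]]
    []
    (by decide +kernel)

theorem sd_9_7_24_0 : KQ K 10 7 24 0 1 :=
  lab_kq
    [[5, 4, 4, 0], [6, 2, 1], [6, 5, 4, 2], [4, 1, 1, 3], [5, 1, 4], [6, 3, 5], [1, 0, 6]]
    [[], [(6, 1)], [], [], [(3, 1)], [(0, 1)], [(2, 1)]]
    (by decide +kernel)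

theorem sd_9_8_23_6 : KQ K 10 8 23 6 1 :=
  lab_kq
    [[6, 1, 0], [7, 2, 1], [1, 2], [2, 0, 3], [2, 3, 4], [4, 3, 5], [2, 2, 6], [5, 2, 7]]
    [[], [], [(3, 1), (4, 1), (7, 2)]]
    (by decide +kernel)

theorem sd_9_9_25_5 : KQ K 10 9 25 5 0 :=
  lab_kq
    [[4, 7, 0], [4, 0, 1], [8, 4, 2], [8, 4, 3], [5, 4], [8, 1, 5], [8, 3, 6], [4, 6, 7], [2, 8]]
    [[], [], [], [], [(1, 1), (3, 2), (7, 1)], [], [], [], [(5, 1), (6, 1)]]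
    (by decide +kernel)

theorem sd_9_9_26_3 : KQ K 10 9 26 3 0 :=
  lab_kq
    [[6, 4, 0], [4, 0, 1], [4, 0, 2], [4, 1, 3], [3, 4], [8, 1, 5], [7, 2, 6], [4, 3, 7], [5, 2, 8]]
    [[], [], [], [], [(2, 1), (3, 1), (7, 1)]]
    (by decide +kernel)

theorem sd_9_10_29_0 : KQ K 10 10 29 0 0 :=
  lab_kq
    [[6, 7, 0], [6, 6, 1], [1, 5, 2], [9, 0, 3], [6, 5, 4], [6, 8, 5], [2, 6], [3, 0, 7], [7, 2, 8], [4, 8, 9]]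
    [[], [], [], [], [], [], [(4, 1), (5, 1)]]
    (by decide +kernel)

theorem sd_10_7_27_0 : KQ K 11 7 27 0 3 :=
  lab_kq
    [[6, 6, 0], [0, 0, 0, 1], [0, 0, 3, 2], [1, 5, 1, 3], [5, 6, 0, 4], [3, 4, 2, 5], [4, 2, 3, 6]]
    [[(2, 2)], [], [], [(6, 3)]]
    (by decide +kernel)

theorem sd_10_10_29_8 : KQ K 11 10 29 8 0 :=
  lab_kq
    [[3, 1, 0], [2, 0, 1], [3, 3, 2], [0, 3], [3, 3, 4], [6, 1, 5], [5, 7, 6], [8, 4, 7], [9, 7, 8], [3, 4, 9]]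
    [[], [], [], [(0, 1), (9, 1)]]
    (by decide +kernel)

theorem sd_10_11_32_5 : KQ K 11 11 32 5 0 :=
  lab_kq
    [[4, 4, 0], [4, 3, 1], [7, 0, 2], [6, 8, 3], [0, 4], [2, 4, 5], [4, 5, 6], [10, 3, 7], [4, 5, 8], [1, 8, 9], [9, 6, 10]]
    [[], [], [], [], [(5, 2), (6, 1), (8, 1)]]
    (by decide +kernel)

theorem sd_11_8_31_4 : KQ K 12 8 31 4 3 :=
  lab_kq
    [[2, 7, 7, 0], [7, 2, 3, 1], [1, 3, 5, 2], [5, 1, 4, 3], [6, 7, 3, 4], [7, 7, 0, 5], [4, 0, 3, 6], [0, 5, 7]]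
    [[], [], [], [(6, 3)], [], [], [], [(1, 1), (4, 2)]]
    (by decide +kernel)

theorem sd_11_8_33_0 : KQ K 12 8 33 0 0 :=
  lab_kq
    [[5, 6, 0, 0], [7, 3, 6, 2, 1], [5, 0, 0, 2], [0, 2, 7, 3], [6, 7, 2, 4], [2, 3, 5, 5], [4, 4, 0, 6], [3, 4, 5, 7]]
    [[(6, 3)], [], [(5, 1)], [(7, 1)], [], [(2, 1)], [(4, 1)], [(4, 2)]]
    (by decide +kernel)

theorem sd_11_9_32_7 : KQ K 12 9 32 7 0 :=
  lab_kq
    [[3, 3, 0], [7, 7, 4, 1], [0, 3, 6, 2], [0, 0, 3], [0, 3, 7, 4], [8, 1, 2, 5], [7, 8, 8, 6], [8, 8, 7], [3, 5, 8]]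
    [[(4, 1)], [], [], [(4, 2), (8, 1)], [], [], [], [(6, 1)], [(5, 1)]]
    (by decide +kernel)

theorem sd_11_9_35_0 : KQ K 12 9 35 0 2 :=
  lab_kq
    [[1, 3, 1, 0], [2, 5, 1], [1, 8, 6, 2], [6, 4, 0, 3], [2, 1, 5, 4], [7, 7, 6, 5], [1, 3, 5, 6], [8, 5, 3, 7], [0, 4, 0, 8]]
    [[], [(2, 1), (6, 1)], [], [], [], [(7, 2)]]
    (by decide +kernel)

theorem sd_11_11_38_2 : KQ K 12 11 38 2 0 :=
  lab_kq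
    [[3, 9, 0], [0, 6, 4, 1], [6, 8, 3, 2], [8, 4, 3], [9, 9, 4], [4, 8, 9, 5], [0, 8, 6], [3, 0, 8, 7], [9, 6, 8], [6, 0, 9], [4, 3, 9, 10]]
    [[(1, 1)], [], [], [(7, 1)], [(10, 1)], [], [(2, 1)], [], [(3, 1), (5, 2)], [(8, 1), (10, 3)]]
    (by decide +kernel)

theorem sd_11_11_39_0 : KQ K 12 11 39 0 0 :=
  lab_kq
    [[2, 2, 0], [5, 7, 10, 1], [0, 8, 2], [2, 1, 3], [7, 0, 3, 4], [3, 0, 5], [7, 0, 9, 6], [0, 6, 7], [3, 2, 5, 8], [3, 5, 4, 9], [5, 2, 7, 10]]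
    [[(5, 2), (6, 2), (7, 1)], [], [(8, 2), (10, 2)], [(8, 1), (9, 1)], [], [(9, 2), (10, 1)], [], [(6, 1), (10, 3)]]
    (by decide +kernel)

theorem sd_12_8_33_9 : KQ K 13 8 33 9 0 :=
  lab_kq
    [[1, 4, 2, 0], [5, 5, 3, 1], [6, 4, 6, 2], [5, 0, 2, 3], [0, 2, 2, 4], [4, 0, 1, 5], [1, 3, 5, 6], [6, 3, 2, 3, 7]]
    [[(5, 2)], [(6, 1)], [(7, 3)], [], [(5, 1)], [(6, 3)]]
    (by decide +kernel)

theorem sd_12_9_37_5 : KQ K 13 9 37 5 0 :=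
  lab_kq
    [[6, 4, 8, 4, 0], [7, 8, 8, 1], [1, 1, 3, 2], [6, 1, 3, 3], [2, 2, 3, 4], [3, 2, 1, 5], [7, 3, 7, 6], [5, 8, 5, 7], [5, 4, 4, 8]]
    [[], [], [], [(6, 2)]]
    (by decide +kernel)

theorem sd_12_10_39_5 : KQ K 13 10 39 5 2 :=
  lab_kq
    [[2, 3, 2, 0], [6, 4, 7, 1], [9, 0, 2], [1, 2, 6, 3], [9, 1, 3, 4], [0, 2, 6, 5], [8, 5, 8, 6], [2, 3, 5, 7], [7, 2, 0, 8], [4, 5, 2, 9]]
    [[], [], [(3, 2), (5, 2), (7, 1), (8, 2)]]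
    (by decide +kernel)

theorem sd_12_10_41_1 : KQ K 13 10 41 1 0 :=
  lab_kq
    [[6, 9, 2, 0], [7, 6, 5, 1], [1, 5, 8, 7, 2], [0, 4, 4, 3], [9, 6, 8, 4], [3, 4, 3, 5], [3, 0, 9, 6], [8, 0, 9, 7], [7, 1, 1, 8], [5, 4, 8, 9]]
    [[(7, 2)], [], [], [], [], [(9, 1)], [(4, 2)], [(8, 1)], [(7, 1)], [(4, 1)]]
    (by decide +kernel)

theorem sd_12_11_43_1 : KQ K 13 11 43 1 1 :=
  lab_kq
    [[1, 4, 0], [0, 6, 7, 1], [6, 9, 3, 2], [0, 0, 2, 3], [7, 0, 5, 4], [10, 4, 0, 5], [3, 0, 2, 6], [8, 8, 5, 7], [9, 4, 2, 8], [1, 10, 3, 9], [5, 2, 0, 10]]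
    [[(1, 1), (4, 2), (6, 2), (10, 3)]]
    (by decide +kernel)

theorem sd_12_12_43_5 : KQ K 13 12 43 5 0 :=
  lab_kq
    [[7, 10, 3, 0], [3, 11, 0, 1], [7, 6, 2], [2, 5, 3], [10, 3, 2, 4], [11, 2, 9, 5], [2, 7, 7, 6], [11, 1, 7], [11, 10, 3, 8], [10, 2, 4, 9], [7, 3, 10], [3, 8, 11]]
    [[], [], [(6, 1), (9, 2)], [(1, 1), (10, 2), (11, 1)], [], [], [], [(0, 1)], [], [], [(8, 2), (9, 1)], [(7, 1), (8, 1)]]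
    (by decide +kernel)

theorem sd_13_9_40_7 : KQ K 14 9 40 7 2 :=
  lab_kq
    [[7, 4, 5, 0], [8, 2, 5, 3, 1], [7, 6, 7, 2], [2, 7, 0, 8, 3], [0, 5, 2, 0, 4], [2, 1, 3, 5], [8, 8, 0, 5, 6], [0, 5, 6, 7], [5, 7, 3, 8]]
    [[(6, 3), (7, 1)], [], [(3, 1), (5, 1)], [], [], [(4, 2), (7, 2), (8, 1)], [], [(3, 2), (8, 2)], [(1, 1)]]
    (by decide +kernel)

theorem sd_13_10_43_6 : KQ K 14 10 43 6 1 :=
  lab_kq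
    [[3, 2, 8, 0], [9, 4, 4, 1], [1, 4, 0, 2], [2, 9, 7, 3], [1, 2, 0, 4], [7, 9, 4, 0, 5], [0, 3, 1, 1, 6], [2, 9, 1, 7], [3, 7, 4, 4, 8], [0, 7, 5, 9]]
    [[(6, 1), (9, 1)], [(4, 1)], [(4, 2), (7, 1)], [(8, 1)], [(5, 3)], [], [], [(5, 1)], [], [(5, 2), (7, 2)]]
    (by decide +kernel)

theorem sd_13_11_45_7 : KQ K 14 11 45 7 0 :=
  lab_kq
    [[10, 1, 5, 10, 0], [9, 3, 4, 1], [8, 6, 3, 2], [2, 5, 8, 3], [6, 3, 6, 4], [9, 4, 6, 5], [1, 5, 5, 6], [2, 10, 2, 7], [4, 7, 9, 8], [8, 7, 4, 9], [7, 3, 1, 10]]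
    [[], [], [], [(10, 2)], [(9, 3)]]
    (by decide +kernel)

theorem sd_13_12_47_7 : KQ K 14 12 47 7 1 :=
  lab_kq
    [[3, 6, 8, 0], [7, 10, 7, 1], [10, 4, 0, 2], [8, 2, 1, 3], [5, 5, 9, 4], [11, 9, 5], [9, 0, 8, 6], [11, 5, 4, 7], [2, 1, 3, 8], [6, 5, 7, 9], [5, 1, 4, 10], [5, 0, 4, 11]]
    [[], [], [], [], [], [(9, 2), (10, 1), (11, 1)]]
    (by decide +kernel)

theorem sd_13_13_48_9 : KQ K 14 13 48 9 0 :=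
  lab_kq
    [[11, 8, 0], [9, 11, 11, 1], [0, 7, 5, 2], [12, 4, 8, 3], [9, 12, 5, 4], [11, 12, 0, 5], [9, 12, 1, 6], [9, 12, 12, 7], [0, 2, 6, 8], [11, 3, 9], [0, 11, 6, 10], [10, 1, 11], [0, 3, 12]]
    [[(8, 1), (10, 1)], [], [], [], [], [], [], [], [], [(6, 1), (7, 1)], [], [(5, 1), (10, 2)], [(3, 1), (6, 2)]]
    (by decide +kernel)

theorem sd_13_13_49_7 : KQ K 14 13 49 7 0 :=
  lab_kq
    [[12, 1, 4, 0], [8, 3, 1], [5, 11, 1, 2], [1, 4, 6, 3], [1, 8, 4], [8, 1, 4, 5], [9, 3, 8, 6], [8, 6, 11, 7], [4, 1, 8], [0, 2, 4, 9], [4, 1, 7, 10], [4, 10, 2, 11], [8, 7, 10, 12]]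
    [[], [(3, 1), (4, 1), (5, 2), (10, 2)], [], [], [(8, 1), (9, 3), (10, 1), (11, 1)], [], [], [], [(5, 1), (7, 1), (12, 1)]]
    (by decide +kernel)

theorem sd_13_13_50_5 : KQ K 14 13 50 5 0 :=
  lab_kq
    [[12, 3, 4, 0], [12, 8, 7, 1], [9, 10, 12, 2], [4, 2, 8, 3], [8, 5, 3, 4], [8, 12, 10, 5], [0, 1, 10, 6], [6, 12, 0, 7], [11, 11, 8], [7, 2, 6, 9], [12, 5, 11, 10], [8, 8, 3, 11], [1, 9, 12]]
    [[], [], [], [], [], [], [], [], [(4, 1), (5, 1)], [], [], [], [(0, 1), (1, 1), (10, 1)]]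
    (by decide +kernel)

theorem sd_13_13_51_3 : KQ K 14 13 51 3 0 :=
  lab_kq
    [[7, 3, 5, 0], [0, 5, 9, 1], [10, 5, 12, 2], [2, 12, 11, 3], [5, 11, 6, 4], [8, 0, 5], [5, 7, 5, 6], [1, 12, 9, 7], [4, 6, 11, 8], [5, 10, 1, 9], [9, 6, 11, 10], [8, 4, 1, 11], [3, 2, 0, 12]]
    [[], [], [], [], [], [(2, 2), (4, 1), (6, 1), (9, 1)]]
    (by decide +kernel)

theorem sd_14_10_49_2 : KQ K 15 10 49 2 4 :=
  lab_kq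
    [[5, 6, 8, 1, 0], [3, 0, 8, 8, 1], [9, 7, 9, 4, 2], [7, 4, 9, 8, 3], [1, 0, 8, 6, 4], [3, 7, 0, 3, 5], [7, 2, 2, 0, 6], [6, 5, 4, 7], [2, 1, 4, 4, 8], [7, 5, 6, 7, 9]]
    [[(4, 2)], [(8, 2)], [], [], [(7, 3)], [(9, 2)], [(7, 1)], [(3, 1), (5, 2), (6, 1), (9, 1)], [(4, 3)]]
    (by decide +kernel)

theorem sd_14_14_55_10 : KQ K 15 14 55 10 0 :=
  lab_kq
    [[5, 1, 2, 0], [7, 0, 11, 1], [6, 6, 9, 2], [13, 9, 11, 3], [0, 3, 7, 4], [12, 1, 1, 5], [7, 9, 10, 6], [13, 8, 7], [4, 3, 7, 8], [7, 7, 8, 9], [2, 5, 7, 10], [8, 4, 2, 11], [10, 7, 3, 12], [11, 12, 10, 13]]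
    [[], [], [], [], [], [], [], [(1, 1), (6, 1), (10, 3), (12, 2)]]
    (by decide +kernel)

theorem sd_14_15_59_6 : KQ K 15 15 59 6 0 :=
  lab_kq
    [[6, 1, 5, 0], [9, 14, 5, 1], [3, 1, 3, 2], [0, 10, 3], [3, 6, 3, 4], [3, 14, 9, 5], [13, 7, 2, 6], [10, 11, 10, 7], [4, 2, 2, 8], [11, 8, 2, 9], [12, 0, 3, 10], [7, 13, 3, 11], [3, 0, 1, 12], [5, 4, 14, 13], [8, 12, 9, 14]]
    [[], [], [], [(5, 1), (10, 3), (11, 3), (12, 1)]]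
    (by decide +kernel)

end Pool.Agent.WarR
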