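import Pool.Agent.WarR.Cert2

/-!
# Seeds by the star limit with transfers and certificates modulo 2 (MP_db021c_ag, degree 2)   (helper31)

`SeedD`: the combinatorial data of a configuration (every point is a sum of free parameters, given by a list of
indices). `SeedD.form`: for the form `k` the parameters are 0/1 vectors (bit masks), `eqs` lists conditions of the
decoupled system and `T` the rows of the inverse matrix modulo 2.
-/

set_option autoImplicit false

open Module

namespace Pool.Agent.WarR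

open Pool.Agent.War

section Lin

variable {K : Type*} [Field K]

theorem PK_SDT_lin {m b : ℕ} {X : Type*} [AddCommGroup X] [Module K X] {I J T : Type} [Finite I]
    [Finite J] [Finite T] (M : I → X →ₗ[K] (Fin m → K)) (N : J → X →ₗ[K] (Fin m → K))
    (g lab : I → Fin b) (ord : I → ℕ) (p : T → I) (W : T → X →ₗ[K] (Fin m → K)) (k : Fin b) :
    PK fun c : X => SDT (fun i => M i c) (fun l => N l c) g lab ord p (fun t => W t c) k := by
  have hM : ∀ (i : I) (k : Fin m), LP fun c : X => M i c k := fun i k => LP_apply (M i) k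
  have hN : ∀ (i : J) (k : Fin m), LP fun c : X => N i c k := fun i k => LP_apply (N i) k
  have hW : ∀ (i : T) (k : Fin m), LP fun c : X => W i c k := fun i k => LP_apply (W i) k
  have h1 : PK fun c : X => ⨅ i : I, LinearMap.ker
      ((bfL (M i c) (M i c)).comp (SF K m).subtype) := by
    refine PK.iInf fun i => PK.one (φ := fun c : X =>
      (bfL (M i c) (M i c)).comp (SF K m).subtype) fun A => ?_
    simp only [LinearMap.comp_apply, bfL_apply]
    exact LP_bf _ (hM i) (hM i)
  have h2 : PK fun c : X => ⨅ l : J, LinearMap.ker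
      ((bfL (N l c) (N l c)).comp (SF K m).subtype) := by
    refine PK.iInf fun l => PK.one (φ := fun c : X =>
      (bfL (N l c) (N l c)).comp (SF K m).subtype) fun A => ?_
    simp only [LinearMap.comp_apply, bfL_apply]
    exact LP_bf _ (hN l) (hN l)
  have h3 : PK fun c : X => ⨅ s : {s : I × Fin m // g s.1 = k}, LinearMap.ker
      ((bfL (M s.1.1 c) (Pi.single s.1.2 1)).comp (SF K m).subtype) := by
    refine PK.iInf fun s => PK.one (φ := fun c : X =>
      (bfL (M s.1.1 c) (Pi.single s.1.2 1)).comp (SF K m).subtype) fun A => ?_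
    simp only [LinearMap.comp_apply, bfL_apply]
    exact LP_bf _ (hM s.1.1) fun k => LP.const _
  have h4 : PK fun c : X =>
      ⨅ s : {s : I × I // g s.1 = g s.2 ∧ ord s.1 < ord s.2 ∧ lab s.1 = k}, LinearMap.ker
      ((bfL (M s.1.1 c) (M s.1.2 c)).comp (SF K m).subtype) := by
    refine PK.iInf fun s => PK.one (φ := fun c : X =>
      (bfL (M s.1.1 c) (M s.1.2 c)).comp (SF K m).subtype) fun A => ?_
    simp only [LinearMap.comp_apply, bfL_apply]
    exact LP_bf _ (hM s.1.1) (hM s.1.2)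
  have h5 : PK fun c : X => ⨅ t : {t : T // lab (p t) = k}, LinearMap.ker
      ((bfL (M (p t.1) c) (W t.1 c)).comp (SF K m).subtype) := by
    refine PK.iInf fun t => PK.one (φ := fun c : X =>
      (bfL (M (p t.1) c) (W t.1 c)).comp (SF K m).subtype) fun A => ?_
    simp only [LinearMap.comp_apply, bfL_apply]
    exact LP_bf _ (hM (p t.1)) (hW t.1)
  refine ((h1.inf h2).inf (h3.inf (h4.inf h5))).congr fun c => ?_
  ext A
  have e : ∀ i : I, (∀ v, bf (A : Fin m → Fin m → K) (M i c) v = 0) ↔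
      ∀ j : Fin m, bf (A : Fin m → Fin m → K) (M i c) (Pi.single j 1) = 0 := by
    intro i
    have h := full_iff (b := 1) (fun _ => (A : Fin m → Fin m → K)) (fun _ => 1) (M i c)
    simpa using h
  simp only [Submodule.mem_inf, Submodule.mem_iInf, LinearMap.mem_ker, LinearMap.comp_apply,
    Submodule.subtype_apply, bfL_apply, mem_SDT, mem_SD, Subtype.forall, Prod.forall, e]
  constructor
  · rintro ⟨⟨a1, a2⟩, a3, a4, a5⟩
    exact ⟨⟨a1, a2, fun i hi j => a3 i j hi, fun i i' e1 e2 e3 => a4 i i' ⟨e1, e2, e3⟩⟩, a5⟩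
  · rintro ⟨⟨a1, a2, a3, a4⟩, a5⟩
    exact ⟨⟨a1, a2⟩, fun i j hi => a3 i hi j, fun i i' h => a4 i i' h.1 h.2.1 h.2.2, a5⟩

/-- **The star limit with transfers, points depending linearly on a parameter.** -/
theorem star_lin [Infinite K] (h2 : (2 : K) ≠ 0) {m b : ℕ} {X : Type*} [AddCommGroup X]
    [Module K X] {I J T : Type} [Fintype I] [Fintype J] [Finite T]
    (M : I → X →ₗ[K] (Fin m → K)) (N : J → X →ₗ[K] (Fin m → K)) (g lab : I → Fin b)
    (ord : I → ℕ) (p q : T → I) (W : T → X →ₗ[K] (Fin m → K))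
    (hpq : ∀ t, g (p t) = g (q t) ∧ ord (p t) < ord (q t))
    (hw : ∀ t, ∃ s : I ⊕ J, Sum.elim M N s = W t)
    (hu : ∀ t, ∃ s : I ⊕ J, Sum.elim M N s = W t + M (p t) + M (q t)) (r : Fin b → ℕ)
    (h : ∀ k, ∃ c : X, finrank K
      (SDT (fun i => M i c) (fun l => N l c) g lab ord p (fun t => W t c) k) ≤ r k) :
    KQ K m b (Fintype.card I) (Fintype.card J) (∑ k, r k) := by
  have hg : Gen K fun c : X => ∀ k, finrank K
      (SDT (fun i => M i c) (fun l => N l c) g lab ord p (fun t => W t c) k) ≤ r k := by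
    refine Gen.forall fun k => ?_
    obtain ⟨c, hc⟩ := h k
    exact (PK_SDT_lin M N g lab ord p W k).gen_finrank hc
  obtain ⟨c, hc⟩ := hg.exists
  have key : ∀ (s : I ⊕ J) (V : X →ₗ[K] (Fin m → K)), Sum.elim M N s = V →
      Sum.elim (fun i => M i c) (fun l => N l c) s = V c := by
    rintro (i | l) V rfl <;> rfl
  refine starT h2 (fun i => M i c) (fun l => N l c) g lab ord p q (fun t => W t c) hpq
    (fun t => ?_) (fun t => ?_) r hc
  · obtain ⟨s, hs⟩ := hw t
    exact ⟨s, key s _ hs⟩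
  · obtain ⟨s, hs⟩ := hu t
    exact ⟨s, key s _ hs⟩

end Lin

/-- the data of a seed -/
structure SeedD where
  m : ℕ
  b : ℕ
  x : ℕ
  y : ℕ
  rI : List (List ℕ)
  rJ : List (List ℕ)
  g : List ℕ
  lab : List ℕ
  ord : List ℕ
  tr : List (ℕ × ℕ × ℕ × ℕ)

namespace SeedD

/-- the parameters of the full points -/
def ri (S : SeedD) (i : ℕ) : List ℕ := S.rI.getD i []

/-- the parameters of the simple points -/
def rj (S : SeedD) (i : ℕ) : List ℕ := S.rJ.getD i []

/-- the parameters of all the points -/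
def row (S : SeedD) (s : ℕ) : List ℕ := if s < S.x then S.ri s else S.rj (s - S.x)

/-- the group -/
def gg (S : SeedD) (i : ℕ) : ℕ := S.g.getD i 0 % S.b

/-- the label -/
def ll (S : SeedD) (i : ℕ) : ℕ := S.lab.getD i 0 % S.b

/-- the position in the group -/
def oo (S : SeedD) (i : ℕ) : ℕ := S.ord.getD i 0

/-- the transfers -/
def tt (S : SeedD) (t : ℕ) : ℕ × ℕ × ℕ × ℕ := S.tr.getD t (0, 0, 0, 0)

/-- the check of the transfers -/
def glob (S : SeedD) : Bool :=
  decide (0 < S.b) && decide (0 < S.x) && S.tr.all fun t =>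
    decide (t.1 < S.x) && decide (t.2.1 < S.x) && decide (t.2.2.1 < S.x + S.y) &&
    decide (t.2.2.2 < S.x + S.y) && decide (S.gg t.1 = S.gg t.2.1) &&
    decide (S.oo t.1 < S.oo t.2.1) &&
    decide (S.row t.2.2.2 = S.row t.2.2.1 ++ S.ri t.1 ++ S.ri t.2.1)

/-- the mask of a sum of parameters -/
def msk (C : List ℕ) (l : List ℕ) : ℕ := xl (l.map fun a => C.getD a 0)

/-- the side conditions of an equation of the form `k` -/
def ok1 (S : SeedD) (k : ℕ) (e : ℕ × ℕ × ℕ) : Bool :=
  match e.1 with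
  | 0 => decide (e.2.1 < S.x)
  | 1 => decide (e.2.1 < S.y)
  | 2 => decide (e.2.1 < S.x) && decide (e.2.2 < S.m) && decide (S.gg e.2.1 = k)
  | 3 => decide (e.2.1 < S.x) && decide (e.2.2 < S.x) && decide (S.gg e.2.1 = S.gg e.2.2) &&
      decide (S.oo e.2.1 < S.oo e.2.2) && decide (S.ll e.2.1 = k)
  | _ => decide (e.2.1 < S.tr.length) && decide (S.ll (S.tt e.2.1).1 = k)

/-- the first vector of an equation -/
def ru (S : SeedD) (e : ℕ × ℕ × ℕ) : List ℕ :=
  match e.1 with
  | 0 => S.ri e.2.1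
  | 1 => S.rj e.2.1
  | 2 => S.ri e.2.1
  | 3 => S.ri e.2.1
  | _ => S.ri (S.tt e.2.1).1

/-- the second vector of an equation (not used for squares and for the kind 2) -/
def rv (S : SeedD) (e : ℕ × ℕ × ℕ) : List ℕ :=
  match e.1 with
  | 0 => []
  | 1 => []
  | 2 => []
  | 3 => S.ri e.2.2
  | _ => S.row (S.tt e.2.1).2.2.1

/-- the value of an equation -/
def val (S : SeedD) (C : List ℕ) (T : List (List ℕ)) (e : ℕ × ℕ × ℕ) : ℕ :=
  if e.1 < 2 then xsq S.m T (msk C (S.ru e)) else
    xpol S.m T (msk C (S.ru e)) (if e.1 = 2 then 2 ^ e.2.2 else msk C (S.rv e))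

/-- all elements of a list with their position -/
def goAll (f : ℕ → ℕ × ℕ × ℕ → Bool) : ℕ → List (ℕ × ℕ × ℕ) → Bool
  | _, [] => true
  | s, e :: l => f s e && goAll f (s + 1) l

theorem goAll_iff (f : ℕ → ℕ × ℕ × ℕ → Bool) (l : List (ℕ × ℕ × ℕ)) (s : ℕ)
    (h : goAll f s l = true) (i : ℕ) (hi : i < l.length) : f (s + i) l[i] = true := by
  induction l generalizing s i with
  | nil => simp at hi
  | cons e l ih =>
    rw [goAll, Bool.and_eq_true] at h
    cases i with
    | zero => exact h.1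
    | succ i =>
      have h1 := ih (s + 1) h.2 i (by simpa using hi)
      rw [show s + (i + 1) = s + 1 + i by omega]
      exact h1

/-- the check of the form `k`: masks `C`, equations `E`, table `T`, dimension `r` -/
def form (S : SeedD) (k : ℕ) (C : List ℕ) (E : List (ℕ × ℕ × ℕ)) (T : List (List ℕ)) (r : ℕ) :
    Bool :=
  decide (S.m * (S.m + 1) / 2 ≤ E.length + r) &&
    goAll (fun s e => S.ok1 k e && decide (S.val C T e = 2 ^ s)) 0 E

section

variable {K : Type*} [Field K]

/-- a sum of parameters -/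
def rowL (K : Type*) [Field K] (m : ℕ) (l : List ℕ) : (ℕ → Fin m → K) →ₗ[K] (Fin m → K) :=
  (l.map fun a => LinearMap.proj a).sum

theorem rowL_append (m : ℕ) (l l' : List ℕ) : rowL K m (l ++ l') = rowL K m l + rowL K m l' := by
  simp [rowL]

/-- the natural numbers -/
def nv (C : List ℕ) (l : List ℕ) (j : ℕ) : ℕ := (l.map fun a => bt ℕ j (C.getD a 0)).sum

theorem bt_cast (R : Type*) [Semiring R] (t n : ℕ) : ((bt ℕ t n : ℕ) : R) = bt R t n := by
  unfold bt
  split_ifs <;> simp

theorem rowL_apply {m : ℕ} (C : List ℕ) (l : List ℕ) (j : Fin m) :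
    rowL K m l (fun a j => bt K (j : ℕ) (C.getD a 0)) j = (nv C l j : K) := by
  induction l with
  | nil => simp [rowL, nv]
  | cons a l ih =>
    have h1 : rowL K m (a :: l) = LinearMap.proj a + rowL K m l := rfl
    have h2 : nv C (a :: l) j = bt ℕ j (C.getD a 0) + nv C l j := rfl
    rw [h1, h2, LinearMap.add_apply, Pi.add_apply, ih, Nat.cast_add, bt_cast]
    rfl

theorem nv_odd (C : List ℕ) (l : List ℕ) (j : ℕ) :
    (nv C l j : ZMod 2) = bt (ZMod 2) j (msk C l) := by
  rw [msk, bt_xl, nv]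
  induction l with
  | nil => simp
  | cons a l ih =>
    rw [List.map_cons, List.sum_cons, Nat.cast_add, ih, bt_cast]
    rfl

theorem bf_bound {m : ℕ} {A : Fin m → Fin m → K} {u u' v v' : Fin m → K} (h1 : u = u')
    (h2 : v = v') (h : bf A u' v' = 0) : bf A u v = 0 := by
  rw [h1, h2, h]

/-- **A seed.** -/
theorem main [CharZero K] (S : SeedD) (hg : S.glob = true) (r : ℕ → ℕ) (R : ℕ)
    (hf : ∀ k, k < S.b → ∃ C E T, S.form k C E T (r k) = true)
    (hR : ∑ k ∈ Finset.range S.b, r k ≤ R) : KQ K S.m S.b S.x S.y R := by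
  classical
  rw [glob, Bool.and_eq_true, Bool.and_eq_true, List.all_eq_true] at hg
  obtain ⟨⟨hb, hx⟩, ht⟩ := hg
  have hb' : 0 < S.b := of_decide_eq_true hb
  have hx' : 0 < S.x := of_decide_eq_true hx
  have htt : ∀ t : Fin S.tr.length, S.tt t = S.tr[t] := by
    intro t
    simp [tt]
  have ht' : ∀ t : Fin S.tr.length, (S.tt t).1 < S.x ∧ (S.tt t).2.1 < S.x ∧
      (S.tt t).2.2.1 < S.x + S.y ∧ (S.tt t).2.2.2 < S.x + S.y ∧
      S.gg (S.tt t).1 = S.gg (S.tt t).2.1 ∧ S.oo (S.tt t).1 < S.oo (S.tt t).2.1 ∧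
      S.row (S.tt t).2.2.2 = S.row (S.tt t).2.2.1 ++ S.ri (S.tt t).1 ++ S.ri (S.tt t).2.1 := by
    intro t
    have h := ht (S.tr[t]) (List.getElem_mem _)
    rw [← htt] at h
    simp only [Bool.and_eq_true, decide_eq_true_eq] at h
    obtain ⟨⟨⟨⟨⟨⟨h1, h2⟩, h3⟩, h4⟩, h5⟩, h6⟩, h7⟩ := h
    exact ⟨h1, h2, h3, h4, h5, h6, h7⟩
  let M : Fin S.x → (ℕ → Fin S.m → K) →ₗ[K] (Fin S.m → K) := fun i => rowL K S.m (S.ri i)
  let N : Fin S.y → (ℕ → Fin S.m → K) →ₗ[K] (Fin S.m → K) := fun i => rowL K S.m (S.rj i)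
  let g : Fin S.x → Fin S.b := fun i => ⟨S.gg i, Nat.mod_lt _ hb'⟩
  let lab : Fin S.x → Fin S.b := fun i => ⟨S.ll i, Nat.mod_lt _ hb'⟩
  let ord : Fin S.x → ℕ := fun i => S.oo i
  let p : Fin S.tr.length → Fin S.x := fun t => ⟨(S.tt t).1, (ht' t).1⟩
  let q : Fin S.tr.length → Fin S.x := fun t => ⟨(S.tt t).2.1, (ht' t).2.1⟩
  let W : Fin S.tr.length → (ℕ → Fin S.m → K) →ₗ[K] (Fin S.m → K) := fun t =>
    rowL K S.m (S.row (S.tt t).2.2.1)
  have hrow : ∀ s, s < S.x + S.y → ∃ s' : Fin S.x ⊕ Fin S.y,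
      Sum.elim M N s' = rowL K S.m (S.row s) := by
    intro s hs
    by_cases h : s < S.x
    · refine ⟨Sum.inl ⟨s, h⟩, ?_⟩
      simp only [Sum.elim_inl, M, row, if_pos h]
    · refine ⟨Sum.inr ⟨s - S.x, by omega⟩, ?_⟩
      simp only [Sum.elim_inr, N, row, if_neg h]
  have key := star_lin (K := K) two_ne_zero M N g lab ord p q W
    (fun t => ⟨Fin.ext (ht' t).2.2.2.2.1, (ht' t).2.2.2.2.2.1⟩)
    (fun t => hrow _ (ht' t).2.2.1)
    (fun t => by
      obtain ⟨s', hs'⟩ := hrow _ (ht' t).2.2.2.1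
      refine ⟨s', hs'.trans ?_⟩
      rw [(ht' t).2.2.2.2.2.2, rowL_append, rowL_append])
    (fun k => r k) (fun k => ?_)
  · rw [Fintype.card_fin, Fintype.card_fin] at key
    obtain ⟨c, hc⟩ := key
    refine ⟨c, hc.trans ?_⟩
    rw [Fin.sum_univ_eq_sum_range (fun k => r k) S.b]
    exact hR
  · obtain ⟨C, E, T, hF⟩ := hf k k.2
    rw [form, Bool.and_eq_true, decide_eq_true_eq] at hF
    obtain ⟨hF1, hF2⟩ := hF
    have hF3 : ∀ s : Fin E.length, S.ok1 k E[s] = true ∧ S.val C T E[s] = 2 ^ (s : ℕ) := by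
      intro s
      have h := goAll_iff _ E 0 hF2 s s.2
      simp only [Bool.and_eq_true, decide_eq_true_eq, Nat.zero_add] at h
      exact h
    let c : ℕ → Fin S.m → K := fun a j => bt K (j : ℕ) (C.getD a 0)
    refine ⟨c, ?_⟩
    set Z := SDT (fun i => M i c) (fun l => N l c) g lab ord p (fun t => W t c) k with hZ
    have hrl : ∀ l : List ℕ, rowL K S.m l c = fun j : Fin S.m => (nv C l j : K) := fun l =>
      funext fun j => rowL_apply C l j
    have hmem : ∀ A ∈ Z, (∀ i, bf (A : Fin S.m → Fin S.m → K) (M i c) (M i c) = 0) ∧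
        (∀ l, bf (A : Fin S.m → Fin S.m → K) (N l c) (N l c) = 0) ∧
        (∀ i, g i = k → ∀ v, bf (A : Fin S.m → Fin S.m → K) (M i c) v = 0) ∧
        (∀ i i', g i = g i' → ord i < ord i' → lab i = k →
          bf (A : Fin S.m → Fin S.m → K) (M i c) (M i' c) = 0) ∧
        ∀ t, lab (p t) = k → bf (A : Fin S.m → Fin S.m → K) (M (p t) c) (W t c) = 0 := by
      intro A hA
      rw [hZ, mem_SDT, mem_SD] at hA
      exact ⟨hA.1.1, hA.1.2.1, hA.1.2.2.1, hA.1.2.2.2, hA.2⟩
    have hfin := cert Z T (fun s : Fin E.length => decide (E[s].1 < 2))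
      (fun s j => nv C (S.ru E[s]) j)
      (fun s j => if E[s].1 = 2 then (if (j : ℕ) = E[s].2.2 then 1 else 0)
        else nv C (S.rv E[s]) j)
      (fun s => msk C (S.ru E[s])) (fun s => if E[s].1 = 2 then 2 ^ E[s].2.2 else msk C (S.rv E[s]))
      (fun s j => nv_odd C _ j)
      (fun s j => by
        by_cases h : E[s].1 = 2
        · simp only [if_pos h]
          rw [bt_two_pow]
          simp only [eq_comm (a := (j : ℕ))]
          split_ifs <;> simp
        · simp only [if_neg h]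
          exact nv_odd C _ j)
      (fun s hs A hA => ?_) (fun s hs A hA => ?_) (fun s => ?_)
    · have h10 : (S.m + 1).choose 2 = S.m * (S.m + 1) / 2 := by
        rw [Nat.choose_two_right, Nat.add_sub_cancel, Nat.mul_comm]
      omega
    · -- squares
      have h4 := (hF3 s).1
      have h5 : E[s].1 < 2 := of_decide_eq_true hs
      obtain ⟨m1, m2, -, -, -⟩ := hmem A hA
      rw [← hrl]
      rcases Nat.lt_or_ge E[s].1 1 with h6 | h6
      · have h7 : E[s].1 = 0 := by omega
        have h8 : S.ru E[s] = S.ri E[s].2.1 := by simp only [ru, h7]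
        have h9 : E[s].2.1 < S.x := by
          simp only [ok1, h7, decide_eq_true_eq] at h4
          exact h4
        rw [h8]
        exact m1 ⟨E[s].2.1, h9⟩
      · have h7 : E[s].1 = 1 := by omega
        have h8 : S.ru E[s] = S.rj E[s].2.1 := by simp only [ru, h7]
        have h9 : E[s].2.1 < S.y := by
          simp only [ok1, h7, decide_eq_true_eq] at h4
          exact h4
        rw [h8]
        exact m2 ⟨E[s].2.1, h9⟩
    · -- polar values
      have h4 := (hF3 s).1
      have h5 : ¬ E[s].1 < 2 := of_decide_eq_false hs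
      obtain ⟨-, -, m3, m4, m5⟩ := hmem A hA
      by_cases h6 : E[s].1 = 2
      · have h8 : S.ru E[s] = S.ri E[s].2.1 := by simp only [ru, h6]
        simp only [ok1, h6, Bool.and_eq_true, decide_eq_true_eq] at h4
        refine bf_bound (u' := M ⟨E[s].2.1, h4.1.1⟩ c) ?_ rfl (m3 ⟨E[s].2.1, h4.1.1⟩ ?_ _)
        · rw [← hrl, h8]
        · exact Fin.ext h4.2
      · by_cases h7 : E[s].1 = 3
        · have h8 : S.ru E[s] = S.ri E[s].2.1 := by simp only [ru, h7]
          have h8' : S.rv E[s] = S.ri E[s].2.2 := by simp only [rv, h7]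
          simp only [ok1, h7, Bool.and_eq_true, decide_eq_true_eq] at h4
          obtain ⟨⟨⟨⟨a1, a2⟩, a3⟩, a4⟩, a5⟩ := h4
          refine bf_bound ?_ ?_ (m4 ⟨E[s].2.1, a1⟩ ⟨E[s].2.2, a2⟩ (Fin.ext a3) a4 (Fin.ext a5))
          · rw [← hrl, h8]
          · simp only [if_neg h6]
            rw [← hrl, h8']
        · have h9 : ∃ n, E[s].1 = n + 4 := ⟨E[s].1 - 4, by omega⟩
          obtain ⟨n, hn⟩ := h9
          have h8 : S.ru E[s] = S.ri (S.tt E[s].2.1).1 := by simp only [ru, hn]
          have h8' : S.rv E[s] = S.row (S.tt E[s].2.1).2.2.1 := by simp only [rv, hn]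
          simp only [ok1, hn, Bool.and_eq_true, decide_eq_true_eq] at h4
          obtain ⟨a1, a2⟩ := h4
          refine bf_bound ?_ ?_ (m5 ⟨E[s].2.1, a1⟩ (Fin.ext a2))
          · rw [← hrl, h8]
          · simp only [if_neg h6]
            rw [← hrl, h8']
    · have h4 := (hF3 s).2
      rw [val] at h4
      rw [← h4]
      by_cases h5 : E[s].1 < 2
      · simp only [h5, decide_true, if_true]
      · simp only [h5, decide_false, if_false, Bool.false_eq_true]

end

end SeedD

end Pool.Agent.WarR
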