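import Pool.Agent.WarR.HorLim

/-!
# HORACE: the special configuration   (helper14, after helper68)
-/

set_option autoImplicit false

open Module

namespace Pool.Agent.WarR

open Pool.Agent.War

section

variable {K : Type*} [Field K]

/-- vectors in the coordinates `e` -/
def vec {m p d : ℕ} (e : Fin p ⊕ (Unit ⊕ Fin d) ≃ Fin m) (s : Fin p) (α v : K) (c : Fin d → K) :
    Fin m → K :=
  fun k => Sum.elim (Pi.single s α : Fin p → K) (Sum.elim (fun _ => v) c) (e.symm k)

theorem lv_vec {m p d b : ℕ} (e : Fin p ⊕ (Unit ⊕ Fin d) ≃ Fin m) (s : Fin p) (α v : K)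
    (c : Fin d → K) (G : Fin b → Fin m → K) (j : Fin b) : lv (vec e s α v c) G j =
      α * G j (e (Sum.inl s)) + (v * G j (e (Sum.inr (Sum.inl ()))) +
        lv c (fun j l => G j (e (Sum.inr (Sum.inr l)))) j) := by
  classical
  rw [lv_apply, lv_apply, ← Equiv.sum_comp e]
  simp only [vec, Equiv.symm_apply_apply, Fintype.sum_sum_type, Sum.elim_inl, Sum.elim_inr,
    Finset.univ_unique, Finset.sum_singleton]
  congr 1
  rw [Finset.sum_eq_single s]
  · rw [Pi.single_eq_same]
  · intro i _ hi
    rw [Pi.single_eq_of_ne hi, zero_mul]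
  · simp

theorem dt_lv {m b : ℕ} (a : Fin b → K) (v : Fin m → K) (G : Fin b → Fin m → K) :
    dt a (lv v G) = ro (a, v) G := rfl

/-- general rank one conditions kill everything -/
theorem kill_gen {b x d : ℕ} (I : Finset (Fin x)) (hI : b * d + I.card ≤ x)
    (par : Fin x → Option (Fin x)) (hpar : ∀ j i, par j = some i → i ∈ I) :
    Gen K fun q : (Fin x → Fin b → K) × (Fin x → Fin d → K) =>
      (⨅ j : {j // j ∉ I}, LinearMap.ker (ro (q.1 j, q.2 j - (par j).elim 0 q.2)) :
        Submodule K (Fin b → Fin d → K)) = ⊥ := by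
  classical
  have hPK : PK fun q : (Fin x → Fin b → K) × (Fin x → Fin d → K) =>
      (⨅ j : {j // j ∉ I}, LinearMap.ker (ro (q.1 j, q.2 j - (par j).elim 0 q.2)) :
        Submodule K (Fin b → Fin d → K)) := by
    refine PK.iInf fun j => PK_ro (fun k => ?_) fun k => ?_
    · have l2 : ∀ i : Fin x, LP fun q : (Fin x → Fin b → K) × (Fin x → Fin d → K) => q.2 i k :=
        fun i => LP_apply ((LinearMap.proj i : (Fin x → Fin d → K) →ₗ[K] (Fin d → K)).comp
          (LinearMap.snd K (Fin x → Fin b → K) (Fin x → Fin d → K))) k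
      rcases hj : par j with _ | i
      · simp only [Option.elim_none, sub_zero]
        exact l2 j
      · simp only [Option.elim_some, Pi.sub_apply, sub_eq_add_neg]
        have h3 : LP fun q : (Fin x → Fin b → K) × (Fin x → Fin d → K) => (-1 : K) * q.2 i k :=
          (LP.const _).mul (l2 i)
        simp only [neg_one_mul] at h3
        exact (l2 j).add h3
    · exact LP_apply ((LinearMap.proj (j : Fin x) : (Fin x → Fin b → K) →ₗ[K] (Fin b → K)).comp
          (LinearMap.fst K (Fin x → Fin b → K) (Fin x → Fin d → K))) k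
  obtain ⟨y, hy⟩ := red (K := K) (ro (K := K) (m := d) (b := b)) ⊤ ⊥ (fun w _ hw => by
    rw [Submodule.mem_bot] at hw
    by_contra hcon
    push Not at hcon
    apply hw
    funext j i
    have := hcon (Pi.single j 1, Pi.single i 1)
    have h2 : ro ((Pi.single j 1 : Fin b → K), (Pi.single i 1 : Fin d → K)) w = w j i := by
      rw [ro_apply, Finset.sum_eq_single j]
      · have := lv_single i w j
        rw [lv_apply] at this
        simp only [Pi.single_eq_same, one_mul]
        exact this
      · intro l _ hl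
        simp [hl]
      · simp
    rw [← h2, this]
    rfl) (x - I.card)
  rw [finrank_top, Module.finrank_pi_fintype, finrank_bot] at hy
  simp only [finrank_fintype_fun_eq_card, Fintype.card_fin, Finset.sum_const, Finset.card_univ,
    smul_eq_mul] at hy
  have hI3 : Fintype.card {i // i ∉ I} = x - I.card := by
    have h1 := Fintype.card_subtype_compl (fun i : Fin x => i ∈ I)
    rw [Fintype.card_fin, Fintype.card_coe] at h1
    exact h1
  let e2 : {i // i ∉ I} ≃ Fin (x - I.card) := Fintype.equivFinOfCardEq hI3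
  let z : Fin x → Fin d → K := fun i => if h : i ∈ I then 0 else (y (e2 ⟨i, h⟩)).2
  let a : Fin x → Fin b → K := fun i => if h : i ∈ I then 0 else (y (e2 ⟨i, h⟩)).1
  refine hPK.gen_bot (x₀ := (a, z)) ?_
  have h0 : (⊤ ⊓ ⨅ i, LinearMap.ker (ro (y i)) : Submodule K (Fin b → Fin d → K)) = ⊥ := by
    refine Submodule.finrank_eq_zero.1 ?_
    have : b * d - (x - I.card) = 0 := by omega
    rw [this] at hy
    simpa using hy
  rw [eq_bot_iff, ← h0]
  refine le_inf le_top (le_iInf fun i => ?_)
  refine (iInf_le _ (e2.symm i)).trans ?_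
  have hz : z (e2.symm i) = (y i).2 := by
    simp only [z]
    rw [dif_neg (e2.symm i).2]
    congr 2
    exact e2.apply_symm_apply i
  have ha : a (e2.symm i) = (y i).1 := by
    simp only [a]
    rw [dif_neg (e2.symm i).2]
    congr 2
    exact e2.apply_symm_apply i
  have hp : (par (e2.symm i)).elim 0 z = 0 := by
    rcases hj : par (e2.symm i) with _ | k
    · rfl
    · have := hpar _ _ hj
      simp only [Option.elim_some, z]
      rw [dif_pos this]
  change LinearMap.ker (ro (a (e2.symm i), z (e2.symm i) - (par (e2.symm i)).elim 0 z)) ≤ _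
  rw [hp, sub_zero, hz, ha]

/-- the class of a point -/
def sg (p i : ℕ) : ℕ := if i < p then i else if i - p < p then i - p else 0

theorem sg_lt {p : ℕ} (hp : 0 < p) (i : ℕ) : sg p i < p := by
  unfold sg
  split_ifs <;> omega

theorem sg_two {p b i j k : ℕ} (hb : b ≤ 2 * p) (hi : i < b) (hj : j < b) (hk : k < b)
    (h1 : sg p i = sg p j) (h2 : sg p j = sg p k) : i = j ∨ j = k ∨ i = k := by
  unfold sg at h1 h2
  split_ifs at h1 h2 <;> omega

theorem spec [Infinite K] {m b x p d : ℕ} (hm : p + (1 + d) = m) (hbx : b ≤ x) (h1 : b * d ≤ x)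
    (h2 : x ≤ b * (d + 1)) (hb : b ≤ 2 * p) : Spec K m b x p (x - b * d) := by
  classical
  rcases Nat.eq_zero_or_pos b with rfl | hb0
  · refine ⟨fun _ => 0, fun _ => 0, 0, fun T0 _ => ⟨fun _ => 0, fun G _ _ _ => ?_⟩⟩
    funext j
    exact j.elim0
  have hp : 0 < p := by omega
  have hcard : Fintype.card (Fin p ⊕ (Unit ⊕ Fin d)) = m := by
    simp only [Fintype.card_sum, Fintype.card_unit, Fintype.card_fin]
    exact hm
  let e : Fin p ⊕ (Unit ⊕ Fin d) ≃ Fin m := Fintype.equivFinOfCardEq hcard
  let κ := x - b * d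
  have hκ : κ ≤ b := by
    have : b * (d + 1) = b * d + b := by ring
    omega
  let σ : Fin x → Fin p := fun i => ⟨sg p i, sg_lt hp i⟩
  let em : Fin b → Fin x := Fin.castLE hbx
  have hem : Function.Injective em := Fin.castLE_injective hbx
  let cls : Finset (Fin b) → Fin p → Finset (Fin b) := fun I s => I.filter fun i => σ (em i) = s
  have hcls : ∀ I s i, i ∈ cls I s ↔ i ∈ I ∧ σ (em i) = s := fun I s i => Finset.mem_filter
  let par : Finset (Fin b) → Fin x → Option (Fin x) := fun I j =>
    if h : (j : ℕ) < b ∧ ∃ i, cls I (σ j) = {i} then some (em h.2.choose) else none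
  have hpar : ∀ I j i, par I j = some i → i ∈ I.map ⟨em, hem⟩ := by
    intro I j i h
    simp only [par] at h
    split_ifs at h with h3
    rw [Option.some.injEq] at h
    rw [← h, Finset.mem_map]
    refine ⟨_, ?_, rfl⟩
    have h4 : h3.2.choose ∈ cls I (σ j) :=
      (Finset.ext_iff.1 h3.2.choose_spec _).2 (Finset.mem_singleton_self _)
    exact ((hcls _ _ _).1 h4).1
  -- general data
  have g1 : Gen K fun q : (Fin x → Fin b → K) × (Fin x → Fin d → K) =>
      ∀ I : Finset (Fin b), I.card = κ →
        (⨅ j : {j // j ∉ I.map ⟨em, hem⟩}, LinearMap.ker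
          (ro (q.1 j, q.2 j - (par I j).elim 0 q.2)) : Submodule K (Fin b → Fin d → K)) = ⊥ := by
    refine Gen.forall fun I => ?_
    by_cases hI : I.card = κ
    · refine (kill_gen (K := K) (b := b) (d := d) (I.map ⟨em, hem⟩) ?_ (par I) (hpar I)).mono
        fun q hq _ => hq
      rw [Finset.card_map, hI]
      change b * d + (x - b * d) ≤ x
      omega
    · exact Gen.of_forall fun q h => absurd h hI
  let L : (Fin x → Fin b → K) × (Fin x → Fin d → K) →ₗ[K] (Fin b → Fin b → K) :=
    { toFun := fun q i => q.1 (em i)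
      map_add' := fun _ _ => rfl
      map_smul' := fun _ _ => rfl }
  have hL : Function.Surjective L := by
    intro a
    refine ⟨(fun i => if h : (i : ℕ) < b then a ⟨i, h⟩ else 0, 0), ?_⟩
    funext i
    change (if h : ((em i : Fin x) : ℕ) < b then a ⟨(em i : Fin x), h⟩ else 0) = a i
    rw [dif_pos (show ((em i : Fin x) : ℕ) < b from i.2)]
    rfl
  obtain ⟨⟨a, c⟩, ha1, ha2⟩ := (g1.and ((span_gen (K := K) (le_refl b)).comp L hL)).exists
  change ∀ I : Finset (Fin b), I.card = κ →
        (⨅ j : {j // j ∉ I.map ⟨em, hem⟩}, LinearMap.ker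
          (ro (a j, c j - (par I j).elim 0 c)) : Submodule K (Fin b → Fin d → K)) = ⊥ at ha1
  change ∀ g, (∀ i, dt (a (em i)) g = 0) → g = 0 at ha2
  refine ⟨fun i => vec e (σ i) (if (i : ℕ) < b then 1 else 0) 0 (c i), a,
    vec e ⟨0, hp⟩ 0 1 0, fun T0 hT0 => ?_⟩
  obtain ⟨I, hI, hIR⟩ := choose_cut (fun i => a (em i)) ha2 T0 κ hκ
  have hIR' : (T0 ⊓ ⨅ i ∈ I, LinearMap.ker (dt (a (em i))) : Submodule K (Fin b → K)) = ⊥ := by
    refine Submodule.finrank_eq_zero.1 ?_
    have : finrank K T0 - κ = 0 := by
      change finrank K T0 - (x - b * d) = 0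
      omega
    omega
  -- the small system
  let th : Fin b → K := fun i => if ∃ i', cls I (σ (em i)) = {i'} then 0 else 1
  let A : K → Fin b → (T0 × (Fin b → Fin d → K)) →ₗ[K] K := fun t i =>
    ((dt (a (em i))).comp (T0.subtype.comp (LinearMap.fst K T0 (Fin b → Fin d → K)))) +
      (t * th i) • ((ro (a (em i), c (em i))).comp (LinearMap.snd K T0 (Fin b → Fin d → K)))
  let B : Fin x → (T0 × (Fin b → Fin d → K)) →ₗ[K] K := fun j =>
    ((par I j).elim (0 : K) fun _ => 1) • ((dt (a j)).comp
      (T0.subtype.comp (LinearMap.fst K T0 (Fin b → Fin d → K)))) +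
      (ro (a j, c j - (par I j).elim 0 c)).comp (LinearMap.snd K T0 (Fin b → Fin d → K))
  let S : K → Submodule K (T0 × (Fin b → Fin d → K)) := fun t =>
    (⨅ i : {i // i ∈ I}, LinearMap.ker (A t i)) ⊓
      ⨅ j : {j // j ∉ I.map ⟨em, hem⟩}, LinearMap.ker (B j)
  have hS : ∀ t q, q ∈ S t ↔ (∀ i ∈ I, dt (a (em i)) (q.1 : Fin b → K) +
      (t * th i) * ro (a (em i), c (em i)) q.2 = 0) ∧
      ∀ j, j ∉ I.map ⟨em, hem⟩ → ((par I j).elim (0 : K) fun _ => 1) *
        dt (a j) (q.1 : Fin b → K) + ro (a j, c j - (par I j).elim 0 c) q.2 = 0 := by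
    intro t q
    simp only [S, Submodule.mem_inf, Submodule.mem_iInf, LinearMap.mem_ker, Subtype.forall]
    exact Iff.rfl
  have hPK : PK S := by
    have hA : PK fun t => ⨅ i : {i // i ∈ I}, LinearMap.ker (A t i) := by
      refine PK.iInf fun i => PK.one (φ := fun t => A t i) fun q => ?_
      have e1 : ∀ t, A t i q = dt (a (em i)) (q.1 : Fin b → K) +
          (t * th i) * ro (a (em i), c (em i)) q.2 := fun t => rfl
      simp only [e1]
      exact (LP.const _).add (((LP.linear (LinearMap.id : K →ₗ[K] K)).mul (LP.const _)).mul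
        (LP.const _))
    have hB : PK fun _ : K => ⨅ j : {j // j ∉ I.map ⟨em, hem⟩}, LinearMap.ker (B j) :=
      PK.iInf fun j => PK.one (φ := fun _ => B j) fun q => LP.const _
    exact hA.inf hB
  have hS0 : S 0 = ⊥ := by
    rw [eq_bot_iff]
    intro q hq
    rw [Submodule.mem_bot]
    obtain ⟨q1, q2⟩ := (hS 0 q).1 hq
    have hq1 : q.1 = 0 := by
      have h3 : (q.1 : Fin b → K) ∈
          (T0 ⊓ ⨅ i ∈ I, LinearMap.ker (dt (a (em i))) : Submodule K (Fin b → K)) := by
        refine ⟨q.1.2, ?_⟩
        rw [SetLike.mem_coe, Submodule.mem_iInf]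
        intro i
        rw [Submodule.mem_iInf]
        intro hi
        have := q1 i hi
        rw [zero_mul, zero_mul, add_zero] at this
        exact this
      rw [hIR', Submodule.mem_bot] at h3
      exact Subtype.ext h3
    have hq2 : q.2 = 0 := by
      have h3 : q.2 ∈ (⨅ j : {j // j ∉ I.map ⟨em, hem⟩}, LinearMap.ker
          (ro (a j, c j - (par I j).elim 0 c)) : Submodule K (Fin b → Fin d → K)) := by
        rw [Submodule.mem_iInf]
        rintro ⟨j, hj⟩
        have := q2 j hj
        rw [hq1, Submodule.coe_zero, map_zero, mul_zero, zero_add] at this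
        exact this
      rw [ha1 I hI, Submodule.mem_bot] at h3
      exact h3
    exact Prod.ext hq1 hq2
  obtain ⟨t, ht1, ht0⟩ := ((hPK.gen_bot hS0).and
    (Gen.ne (K := K) (F := fun t : K => t) (LP.linear (LinearMap.id : K →ₗ[K] K)) 1
      one_ne_zero)).exists
  refine ⟨fun s => if h : ∃ i, cls I s = {i} then vec e s 1 (-1) (c (em h.choose)) else
    if cls I s = ∅ then vec e s 1 0 0 else vec e s t (-1) 0, fun G hG1 hG2 hG3 => ?_⟩
  -- the three parts of `G`
  let T : Fin b → K := fun j => G j (e (Sum.inr (Sum.inl ())))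
  let E : Fin p → Fin b → K := fun s j => G j (e (Sum.inl s))
  let g : Fin b → Fin d → K := fun j l => G j (e (Sum.inr (Sum.inr l)))
  have hv : ∀ s α v (w : Fin d → K), lv (vec e s α v w) G = α • E s + (v • T + lv w g) := by
    intro s α v w
    funext j
    rw [lv_vec]
    rfl
  have hT : T ∈ T0 := by
    rw [hv, zero_smul, zero_add, one_smul] at hG3
    have h5 : lv (0 : Fin d → K) g = 0 := by
      funext j
      rw [lv_apply]
      exact Finset.sum_eq_zero fun k _ => by simp
    rwa [h5, add_zero] at hG3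
  have hlv0 : lv (0 : Fin d → K) g = 0 := by
    funext j
    rw [lv_apply]
    exact Finset.sum_eq_zero fun k _ => by simp
  -- the equations of `W`
  have m1 : ∀ s (h : ∃ i, cls I s = {i}), E s = T - lv (c (em h.choose)) g := by
    intro s h
    have := hG2 s
    beta_reduce at this
    rw [dif_pos h, hv, one_smul, neg_one_smul] at this
    rw [eq_sub_iff_add_eq]
    have h5 : E s + (-T + lv (c (em h.choose)) g) = (E s + lv (c (em h.choose)) g) - T := by
      abel
    rw [h5] at this
    exact sub_eq_zero.1 this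
  have m2 : ∀ s, cls I s = ∅ → E s = 0 := by
    intro s h
    have h' : ¬ ∃ i, cls I s = {i} := by
      rintro ⟨i, hi⟩
      rw [h] at hi
      exact Finset.singleton_ne_empty i hi.symm
    have := hG2 s
    beta_reduce at this
    rw [dif_neg h', if_pos h, hv, one_smul, zero_smul, hlv0, add_zero, add_zero] at this
    exact this
  have m3 : ∀ s, (¬ ∃ i, cls I s = {i}) → cls I s ≠ ∅ → t • E s = T := by
    intro s h h'
    have := hG2 s
    beta_reduce at this
    rw [dif_neg h, if_neg h', hv, neg_one_smul, hlv0, add_zero] at this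
    exact (sub_eq_zero.1 (by rw [sub_eq_add_neg]; exact this))
  have hmem : ((⟨T, hT⟩, g) : T0 × (Fin b → Fin d → K)) ∈ S t := by
    refine (hS _ _).2 ⟨fun i hi => ?_, fun j hj => ?_⟩
    · change dt (a (em i)) T + (t * th i) * ro (a (em i), c (em i)) g = 0
      have hi2 : i ∈ cls I (σ (em i)) := (hcls _ _ _).2 ⟨hi, rfl⟩
      have h3 := hG1 (em i)
      beta_reduce at h3
      rw [if_pos (show ((em i : Fin x) : ℕ) < b from i.2), ← dt_lv, hv, one_smul, zero_smul,
        zero_add] at h3
      by_cases h : ∃ i', cls I (σ (em i)) = {i'}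
      · have hth : th i = 0 := if_pos h
        have h4 : h.choose = i := by
          have := h.choose_spec
          rw [this, Finset.mem_singleton] at hi2
          exact hi2.symm
        rw [m1 _ h, h4, sub_add_cancel] at h3
        rw [hth, mul_zero, zero_mul, add_zero]
        exact h3
      · have hth : th i = 1 := if_neg h
        have h4 := m3 _ h (Finset.nonempty_iff_ne_empty.1 ⟨i, hi2⟩)
        rw [hth, mul_one, ← h4, map_smul, smul_eq_mul, ← mul_add, ← dt_lv, ← map_add, h3, mul_zero]
    · change ((par I j).elim (0 : K) fun _ => 1) * dt (a j) T +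
        ro (a j, c j - (par I j).elim 0 c) g = 0
      have h3 := hG1 j
      beta_reduce at h3
      by_cases hjb : (j : ℕ) < b
      · rw [if_pos hjb, ← dt_lv, hv, one_smul, zero_smul, zero_add] at h3
        by_cases h : ∃ i, cls I (σ j) = {i}
        · have hp1 : par I j = some (em h.choose) := dif_pos ⟨hjb, h⟩
          rw [hp1, Option.elim_some, Option.elim_some, one_mul, ← dt_lv, ← map_add]
          rw [m1 _ h] at h3
          have h5 : T + lv (c j - c (em h.choose)) g =
              T - lv (c (em h.choose)) g + lv (c j) g := by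
            rw [sub_eq_add_neg (c j), lv_add, ← neg_one_smul K, lv_smul, neg_one_smul]
            abel
          rw [h5]
          exact h3
        · have hp1 : par I j = none := dif_neg fun hh => h hh.2
          have hemp : cls I (σ j) = ∅ := by
            by_contra hne
            obtain ⟨i1, hi1⟩ := Finset.nonempty_iff_ne_empty.2 hne
            apply h
            refine ⟨i1, Finset.eq_singleton_iff_unique_mem.2 ⟨hi1, fun i2 hi2 => ?_⟩⟩
            obtain ⟨k1, k2⟩ := (hcls _ _ _).1 hi1
            obtain ⟨k3, k4⟩ := (hcls _ _ _).1 hi2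
            have k5 : sg p i1 = sg p j := congrArg Fin.val k2
            have k6 : sg p i2 = sg p j := congrArg Fin.val k4
            rcases sg_two hb i2.2 i1.2 hjb (k6.trans k5.symm) k5 with k7 | k7 | k7
            · exact Fin.ext k7
            · exfalso
              apply hj
              rw [Finset.mem_map]
              exact ⟨i1, k1, Fin.ext k7⟩
            · exfalso
              apply hj
              rw [Finset.mem_map]
              exact ⟨i2, k3, Fin.ext k7⟩
          rw [hp1, Option.elim_none, Option.elim_none, zero_mul, zero_add, sub_zero]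
          rw [m2 _ hemp, zero_add] at h3
          exact h3
      · rw [if_neg hjb, ← dt_lv, hv, zero_smul, zero_smul, zero_add, zero_add] at h3
        have hp1 : par I j = none := dif_neg fun hh => hjb hh.1
        rw [hp1, Option.elim_none, Option.elim_none, zero_mul, zero_add, sub_zero]
        exact h3
  rw [ht1, Submodule.mem_bot] at hmem
  have hT0' : T = 0 := congrArg Subtype.val (congrArg Prod.fst hmem)
  have hg0 : g = 0 := congrArg Prod.snd hmem
  have hE0 : ∀ s, E s = 0 := by
    intro s
    by_cases h : ∃ i, cls I s = {i}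
    · rw [m1 s h, hT0', hg0, map_zero, sub_zero]
    · by_cases h' : cls I s = ∅
      · exact m2 s h'
      · have := m3 s h h'
        rw [hT0'] at this
        exact (smul_eq_zero.1 this).resolve_left ht0
  funext j k
  obtain ⟨q, rfl⟩ := e.surjective k
  rcases q with s | u | l
  · exact congrFun (hE0 s) j
  · exact congrFun hT0' j
  · exact congrFun (congrFun hg0 j) l

/-- **HORACE** over any field of characteristic zero. -/
theorem horK [CharZero K] {m b x y1 w ρ r : ℕ} (h1 : KQ K m b x y1 ρ)
    (h2 : KQ K m b x (y1 + 1) 0) (hbx : b ≤ x) (hw1 : x ≤ b * w) (hw2 : b * (w - 1) < x)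
    (hb : b ≤ 2 * (m - w)) (hr : ρ + b * w ≤ r + b + x) :
    KQ K (m + 1) b x (y1 + 1 + (m + 1 - w)) r := by
  rcases Nat.eq_zero_or_pos b with rfl | hb0
  · omega
  rcases Nat.eq_zero_or_pos w with rfl | hw0
  · omega
  obtain ⟨d, rfl⟩ : ∃ d, w = d + 1 := ⟨w - 1, by omega⟩
  rw [Nat.add_sub_cancel] at hw2
  have e1 : b * (d + 1) = b * d + b := by ring
  have h3 := spec (K := K) (m := m) (b := b) (x := x) (p := m - (d + 1)) (d := d) (by omega) hbx
    hw2.le hw1 hb
  have h4 := hor_of_spec (r := r) h1 h2 (by omega) h3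
  have e2 : y1 + 1 + (m - (d + 1) + 1) = y1 + 1 + (m + 1 - (d + 1)) := by omega
  rwa [e2] at h4

end

end Pool.Agent.WarR
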