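import Pool.Agent.WarR.Res

/-!
# The split simple point: from the limit system to a configuration   (helper14)

`V = K ^ (m + 1)`, `H = {x 0 = 0}`, `F(p) = F_H(p') + 2 p_0 L(p)`. All full points and `y₁` simple points
on `H`, simple points `(1, lam o)` off `H`, one simple point `(t, z0)`. `NT t`: the system for
`(t⁻¹ F_H, L)`.
-/

set_option autoImplicit false

open Module

namespace Pool.Agent.WarR

open Pool.Agent.War

section

variable {K : Type*} [Field K]

/-- the functional of an off point -/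
def fO {m b : ℕ} (lam : Fin m → K) (j : Fin b) (t : K) :
    ((Fin b → SF K m) × (Fin b → Fin (m + 1) → K)) →ₗ[K] K where
  toFun p := t * bf (p.1 j : Fin m → Fin m → K) lam lam + 2 * lv (Fin.cons 1 lam) p.2 j
  map_add' p q := by
    rw [Prod.fst_add, Prod.snd_add, Pi.add_apply, Submodule.coe_add, bf_add, map_add, Pi.add_apply]
    ring
  map_smul' r p := by
    rw [Prod.smul_fst, Prod.smul_snd, Pi.smul_apply, Submodule.coe_smul, bf_smul, map_smul,
      Pi.smul_apply, smul_eq_mul, RingHom.id_apply, smul_eq_mul]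
    ring

theorem fO_apply {m b : ℕ} (lam : Fin m → K) (j : Fin b) (t : K)
    (p : (Fin b → SF K m) × (Fin b → Fin (m + 1) → K)) : fO lam j t p =
      t * bf (p.1 j : Fin m → Fin m → K) lam lam + 2 * lv (Fin.cons 1 lam) p.2 j := rfl

/-- the functional of the split point -/
def fZ {m b : ℕ} (z0 : Fin m → K) (j : Fin b) (t : K) :
    ((Fin b → SF K m) × (Fin b → Fin (m + 1) → K)) →ₗ[K] K where
  toFun p := bf (p.1 j : Fin m → Fin m → K) z0 z0 + 2 * lv (Fin.cons t z0) p.2 j
  map_add' p q := by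
    rw [Prod.fst_add, Prod.snd_add, Pi.add_apply, Submodule.coe_add, bf_add, map_add, Pi.add_apply]
    ring
  map_smul' r p := by
    rw [Prod.smul_fst, Prod.smul_snd, Pi.smul_apply, Submodule.coe_smul, bf_smul, map_smul,
      Pi.smul_apply, smul_eq_mul, RingHom.id_apply, smul_eq_mul]
    ring

theorem fZ_apply {m b : ℕ} (z0 : Fin m → K) (j : Fin b) (t : K)
    (p : (Fin b → SF K m) × (Fin b → Fin (m + 1) → K)) : fZ z0 j t p =
      bf (p.1 j : Fin m → Fin m → K) z0 z0 + 2 * lv (Fin.cons t z0) p.2 j := rfl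

/-- the system -/
def NT {m b : ℕ} {I J O : Type} (c : Cfg K m b I J) (z0 : Fin m → K) (lam : O → Fin m → K)
    (t : K) : Submodule K ((Fin b → SF K m) × (Fin b → Fin (m + 1) → K)) :=
  ((ZK c).comap (LinearMap.fst K _ _) ⊓
    ⨅ i : I, (LinearMap.ker (ro (c.2.1 i, Fin.cons 0 (c.1 i)))).comap (LinearMap.snd K _ _)) ⊓
    ((⨅ q : O × Fin b, LinearMap.ker (fO (lam q.1) q.2 t)) ⊓
      ⨅ j : Fin b, LinearMap.ker (fZ z0 j t))

theorem mem_NT {m b : ℕ} {I J O : Type} {c : Cfg K m b I J} {z0 : Fin m → K}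
    {lam : O → Fin m → K} {t : K} {p : (Fin b → SF K m) × (Fin b → Fin (m + 1) → K)} :
    p ∈ NT c z0 lam t ↔ (p.1 ∈ ZK c ∧ ∀ i, ro (c.2.1 i, Fin.cons 0 (c.1 i)) p.2 = 0) ∧
      (∀ o j, t * bf (p.1 j : Fin m → Fin m → K) (lam o) (lam o) +
        2 * lv (Fin.cons 1 (lam o)) p.2 j = 0) ∧
      ∀ j, bf (p.1 j : Fin m → Fin m → K) z0 z0 + 2 * lv (Fin.cons t z0) p.2 j = 0 := by
  simp only [NT, Submodule.mem_inf, Submodule.mem_iInf, Submodule.mem_comap, LinearMap.mem_ker,
    LinearMap.fst_apply, LinearMap.snd_apply, fO_apply, fZ_apply, Prod.forall]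

theorem PK_NT {m b : ℕ} {I J O : Type} [Finite I] [Finite J] [Finite O] (c : Cfg K m b I J)
    (z0 : Fin m → K) (lam : O → Fin m → K) : PK fun t : K => NT c z0 lam t := by
  have lt : LP fun t : K => t := LP.linear (LinearMap.id : K →ₗ[K] K)
  have h1 : PK fun _ : K => ZK c := by
    have := (PK_ZK (K := K) (m := m) (b := b) (I := I) (J := J)).comp_affine
      (0 : K →ₗ[K] Cfg K m b I J) c
    refine this.congr fun t => ?_
    rw [LinearMap.zero_apply, zero_add]
  have h2 : PK fun _ : K => ⨅ i : I,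
      (LinearMap.ker (ro (c.2.1 i, Fin.cons 0 (c.1 i)))).comap
        (LinearMap.snd K (Fin b → SF K m) (Fin b → Fin (m + 1) → K)) := by
    refine PK.iInf fun i => PK.comap ?_ _
    exact PK_ro (fun k => LP.const _) fun j => LP.const _
  refine ((h1.comap (LinearMap.fst K (Fin b → SF K m) (Fin b → Fin (m + 1) → K))).inf h2).inf
    ((PK.iInf fun q : O × Fin b => PK.one (φ := fun t : K => fO (lam q.1) q.2 t) fun p => ?_).inf
      (PK.iInf fun j : Fin b => PK.one (φ := fun t : K => fZ z0 j t) fun p => ?_))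
  · simp only [fO_apply]
    exact (lt.mul (LP.const _)).add (LP.const _)
  · simp only [fZ_apply]
    refine (LP.const _).add ((LP.const _).mul (LP_lv _ (fun k => ?_) j))
    refine Fin.cases ?_ (fun k => ?_) k
    · exact lt
    · exact LP.const _

/-- the part on the hyperplane -/
def resH {m : ℕ} : SF K (m + 1) →ₗ[K] SF K m where
  toFun A := ⟨fun i j => (A : Fin (m + 1) → Fin (m + 1) → K) i.succ j.succ,
    fun i j => A.2 i.succ j.succ⟩
  map_add' _ _ := rfl
  map_smul' _ _ := rfl

theorem resH_apply {m : ℕ} (A : SF K (m + 1)) (i j : Fin m) :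
    (resH A : Fin m → Fin m → K) i j = (A : Fin (m + 1) → Fin (m + 1) → K) i.succ j.succ := rfl

/-- the linear part -/
def linL {m : ℕ} : SF K (m + 1) →ₗ[K] (Fin (m + 1) → K) where
  toFun A := Fin.cons ((A : Fin (m + 1) → Fin (m + 1) → K) 0 0 / 2)
    fun k => (A : Fin (m + 1) → Fin (m + 1) → K) 0 k.succ
  map_add' A B := by
    funext k
    refine Fin.cases ?_ (fun k => ?_) k
    · simp only [Submodule.coe_add, Pi.add_apply, Fin.cons_zero]
      ring
    · simp only [Submodule.coe_add, Pi.add_apply, Fin.cons_succ]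
  map_smul' r A := by
    funext k
    refine Fin.cases ?_ (fun k => ?_) k
    · simp only [Submodule.coe_smul, Pi.smul_apply, Fin.cons_zero, smul_eq_mul, RingHom.id_apply]
      ring
    · simp only [Submodule.coe_smul, Pi.smul_apply, Fin.cons_succ, RingHom.id_apply]

theorem linL_zero {m : ℕ} (A : SF K (m + 1)) :
    linL A 0 = (A : Fin (m + 1) → Fin (m + 1) → K) 0 0 / 2 := rfl

theorem linL_succ {m : ℕ} (A : SF K (m + 1)) (k : Fin m) :
    linL A k.succ = (A : Fin (m + 1) → Fin (m + 1) → K) 0 k.succ := rfl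

/-- decomposition of the bilinear form -/
theorem bf_decomp [NeZero (2 : K)] {m : ℕ} (A : SF K (m + 1)) (x y : Fin (m + 1) → K) :
    bf (A : Fin (m + 1) → Fin (m + 1) → K) x y =
      bf (resH A : Fin m → Fin m → K) (fun k => x k.succ) (fun k => y k.succ) +
        x 0 * (∑ k, y k * linL A k) + y 0 * ∑ k, x k * linL A k := by
  have h2 : (2 : K) ≠ 0 := NeZero.ne 2
  have e0 : ∀ i : Fin m, (A : Fin (m + 1) → Fin (m + 1) → K) i.succ 0 =
      (A : Fin (m + 1) → Fin (m + 1) → K) 0 i.succ := fun i => A.2 i.succ 0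
  unfold bf
  simp only [Fin.sum_univ_succ, resH_apply, linL_zero, linL_succ, e0, Finset.sum_add_distrib,
    mul_add, Finset.mul_sum]
  have e1 : x 0 * (y 0 * ((A : Fin (m + 1) → Fin (m + 1) → K) 0 0 / 2)) +
      y 0 * (x 0 * ((A : Fin (m + 1) → Fin (m + 1) → K) 0 0 / 2)) =
      x 0 * y 0 * (A : Fin (m + 1) → Fin (m + 1) → K) 0 0 := by
    field_simp
    ring
  have e2 : ∀ i : Fin m, x 0 * (y i.succ * (A : Fin (m + 1) → Fin (m + 1) → K) 0 i.succ) =
      x 0 * y i.succ * (A : Fin (m + 1) → Fin (m + 1) → K) 0 i.succ := fun i => by ring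
  have e3 : ∀ i : Fin m, y 0 * (x i.succ * (A : Fin (m + 1) → Fin (m + 1) → K) 0 i.succ) =
      x i.succ * y 0 * (A : Fin (m + 1) → Fin (m + 1) → K) 0 i.succ := fun i => by ring
  simp only [e2, e3]
  linear_combination -e1

theorem resH_linL_inj [NeZero (2 : K)] {m : ℕ} {A : SF K (m + 1)} (h1 : resH A = 0)
    (h2 : linL A = 0) : A = 0 := by
  have h : ∀ x y : Fin (m + 1) → K, bf (A : Fin (m + 1) → Fin (m + 1) → K) x y = 0 := by
    intro x y
    rw [bf_decomp, h1, h2]
    simp [bf]
  apply Subtype.ext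
  funext i j
  have := h (Pi.single i 1) (Pi.single j 1)
  rw [bf_single] at this
  exact this

/-- the configuration with the parameter `t` -/
def cfgT {m b : ℕ} {I J O : Type} (c : Cfg K m b I J) (z0 : Fin m → K) (lam : O → Fin m → K)
    (t : K) : Cfg K (m + 1) b I ((J ⊕ Unit) ⊕ O) :=
  (fun i => Fin.cons 0 (c.1 i), c.2.1,
    Sum.elim (Sum.elim (fun l => Fin.cons 0 (c.2.2 l)) fun _ => Fin.cons t z0)
      fun o => Fin.cons 1 (lam o))

theorem finrank_cfgT [NeZero (2 : K)] {m b : ℕ} {I J O : Type} (c : Cfg K m b I J)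
    (z0 : Fin m → K) (lam : O → Fin m → K) {t : K} (ht : t ≠ 0) :
    finrank K (ZK (cfgT c z0 lam t)) ≤ finrank K (NT c z0 lam t) := by
  let Ψ : (Fin b → SF K (m + 1)) →ₗ[K] ((Fin b → SF K m) × (Fin b → Fin (m + 1) → K)) :=
    { toFun := fun F => (fun j => t⁻¹ • resH (F j), fun j => linL (F j))
      map_add' := fun F G => by
        refine Prod.ext ?_ ?_
        · funext j
          simp only [Pi.add_apply, map_add, smul_add, Prod.fst_add]
        · funext j
          simp only [Pi.add_apply, map_add, Prod.snd_add]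
      map_smul' := fun r F => by
        refine Prod.ext ?_ ?_
        · funext j
          simp only [Pi.smul_apply, map_smul, RingHom.id_apply, Prod.smul_fst]
          rw [smul_comm]
        · funext j
          simp only [Pi.smul_apply, map_smul, RingHom.id_apply, Prod.smul_snd] }
  have hinj : Function.Injective Ψ := by
    rw [← LinearMap.ker_eq_bot, LinearMap.ker_eq_bot']
    intro F hF
    funext j
    have h1 : t⁻¹ • resH (F j) = 0 := congrFun (congrArg Prod.fst hF) j
    have h2 : linL (F j) = 0 := congrFun (congrArg Prod.snd hF) j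
    have h3 : resH (F j) = 0 := by
      rcases smul_eq_zero.1 h1 with h | h
      · exact absurd h (inv_ne_zero ht)
      · exact h
    exact resH_linL_inj h3 h2
  have hmap : (ZK (cfgT c z0 lam t)).map Ψ ≤ NT c z0 lam t := by
    rintro _ ⟨F, hF, rfl⟩
    obtain ⟨h1, h2, h3⟩ := mem_ZK.1 hF
    have hbf : ∀ j x y, bf ((Ψ F).1 j : Fin m → Fin m → K) x y =
        t⁻¹ * bf (resH (F j) : Fin m → Fin m → K) x y := by
      intro j x y
      change bf (t⁻¹ • (resH (F j) : Fin m → Fin m → K)) x y = _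
      rw [bf_smul]
    have hlv : ∀ v j, lv v (Ψ F).2 j = ∑ k, v k * linL (F j) k := fun v j => rfl
    have hd : ∀ j (s : K) (v : Fin m → K), bf (F j : Fin (m + 1) → Fin (m + 1) → K)
        (Fin.cons s v) (Fin.cons s v) = bf (resH (F j) : Fin m → Fin m → K) v v +
          2 * s * lv (Fin.cons s v) (Ψ F).2 j := by
      intro j s v
      rw [bf_decomp, hlv]
      simp only [Fin.cons_zero, Fin.cons_succ]
      ring
    have hd2 : ∀ j (v w : Fin m → K), bf (F j : Fin (m + 1) → Fin (m + 1) → K)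
        (Fin.cons 0 v) (Fin.cons 0 w) = bf (resH (F j) : Fin m → Fin m → K) v w := by
      intro j v w
      rw [bf_decomp]
      simp only [Fin.cons_zero, Fin.cons_succ, zero_mul, add_zero]
    have hd3 : ∀ j (v : Fin m → K), bf (F j : Fin (m + 1) → Fin (m + 1) → K)
        (Fin.cons 0 v) (Pi.single 0 1) = lv (Fin.cons 0 v) (Ψ F).2 j := by
      intro j v
      rw [bf_decomp, hlv]
      have e1 : bf (resH (F j) : Fin m → Fin m → K) (fun k => (Fin.cons 0 v : Fin (m + 1) → K) k.succ)
          (fun k : Fin m => (Pi.single 0 1 : Fin (m + 1) → K) k.succ) = 0 := by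
        unfold bf
        refine Finset.sum_eq_zero fun i _ => Finset.sum_eq_zero fun k _ => ?_
        have : (Pi.single 0 1 : Fin (m + 1) → K) k.succ = 0 :=
          Pi.single_eq_of_ne (Fin.succ_ne_zero k) 1
        simp only [this, mul_zero, zero_mul]
      rw [e1, Fin.cons_zero, Pi.single_eq_same]
      ring
    rw [mem_NT]
    refine ⟨⟨mem_ZK.2 ⟨fun i j => ?_, fun i v => ?_, fun l j => ?_⟩, fun i => ?_⟩,
      fun o j => ?_, fun j => ?_⟩
    · have := h1 i j
      change bf (F j : Fin (m + 1) → Fin (m + 1) → K) (Fin.cons 0 (c.1 i)) (Fin.cons 0 (c.1 i)) = 0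
        at this
      rw [hd2] at this
      rw [hbf, this, mul_zero]
    · have := h2 i (Fin.cons 0 v)
      change ∑ j, c.2.1 i j * bf (F j : Fin (m + 1) → Fin (m + 1) → K) (Fin.cons 0 (c.1 i))
        (Fin.cons 0 v) = 0 at this
      simp only [hd2] at this
      have e : ∀ j, c.2.1 i j * bf ((Ψ F).1 j : Fin m → Fin m → K) (c.1 i) v =
          t⁻¹ * (c.2.1 i j * bf (resH (F j) : Fin m → Fin m → K) (c.1 i) v) := fun j => by
        rw [hbf]; ring
      simp only [e, ← Finset.mul_sum, this, mul_zero]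
    · have := h3 (Sum.inl (Sum.inl l)) j
      change bf (F j : Fin (m + 1) → Fin (m + 1) → K) (Fin.cons 0 (c.2.2 l))
        (Fin.cons 0 (c.2.2 l)) = 0 at this
      rw [hd2] at this
      rw [hbf, this, mul_zero]
    · have := h2 i (Pi.single 0 1)
      change ∑ j, c.2.1 i j * bf (F j : Fin (m + 1) → Fin (m + 1) → K) (Fin.cons 0 (c.1 i))
        (Pi.single 0 1) = 0 at this
      simp only [hd3] at this
      exact this
    · have := h3 (Sum.inr o) j
      change bf (F j : Fin (m + 1) → Fin (m + 1) → K) (Fin.cons 1 (lam o))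
        (Fin.cons 1 (lam o)) = 0 at this
      rw [hd, mul_one] at this
      rw [hbf, mul_inv_cancel_left₀ ht]
      exact this
    · have := h3 (Sum.inl (Sum.inr ())) j
      change bf (F j : Fin (m + 1) → Fin (m + 1) → K) (Fin.cons t z0)
        (Fin.cons t z0) = 0 at this
      rw [hd] at this
      rw [hbf]
      have e : t⁻¹ * (bf (resH (F j) : Fin m → Fin m → K) z0 z0 +
          2 * t * lv (Fin.cons t z0) (Ψ F).2 j) = t⁻¹ * bf (resH (F j) : Fin m → Fin m → K) z0 z0 +
          2 * lv (Fin.cons t z0) (Ψ F).2 j := by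
        field_simp
      rw [← e, this, mul_zero]
  have h := LinearMap.finrank_le_finrank_of_injective
    (f := (Ψ.restrict (p := ZK (cfgT c z0 lam t)) (q := NT c z0 lam t)
      fun F hF => hmap ⟨F, hF, rfl⟩)) (fun F G hFG => by
      apply Subtype.ext
      apply hinj
      exact congrArg Subtype.val hFG)
  exact h

end

end Pool.Agent.WarR
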