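import Pool.Agent.WarR.Defs

/-!
# The star limit (MP_db021c_ag, degree 2)   (helper26)

The full points `z i` are divided in groups, `g i : Fin b` is the group of the point `i`, `ord` orders every group, and
every point has a label `lab i : Fin b`. The vectors of the full points are `e_(g i) + ε η ^ (ord i) e_(lab i)`.
For two points `i, i'` of one group, `ord i < ord i'`, the difference of the full condition of `i` in the direction
`z i'` and of the full condition of `i'` in the direction `z i` says (for `ε η ≠ 0`) that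
`F_(lab i)(z i, z i') = η ^ (ord i' - ord i) F_(lab i')(z i, z i')`. In the limit `ε = η = 0` the system is
decoupled: the form `k` is singular at the points of the group `k`, vanishes at all points, and `F_k(z i, z i') = 0`
for all `i, i'` in one group with `ord i < ord i'` and `lab i = k` (`SD`). So the kernel of a general configuration has
at most the dimension `∑ k, dim SD k` (`star`).
-/

set_option autoImplicit false

open Module

namespace Pool.Agent.WarR

open Pool.Agent.War

section Star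

variable {K : Type*} [Field K]

/-- the decoupled system for the form `k` -/
def SD {m b : ℕ} {I J : Type} (z : I → Fin m → K) (y : J → Fin m → K) (g lab : I → Fin b)
    (ord : I → ℕ) (k : Fin b) : Submodule K (SF K m) where
  carrier := {A | (∀ i, bf (A : Fin m → Fin m → K) (z i) (z i) = 0) ∧
    (∀ l, bf (A : Fin m → Fin m → K) (y l) (y l) = 0) ∧
    (∀ i, g i = k → ∀ v, bf (A : Fin m → Fin m → K) (z i) v = 0) ∧
    ∀ i i', g i = g i' → ord i < ord i' → lab i = k →
      bf (A : Fin m → Fin m → K) (z i) (z i') = 0}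
  add_mem' := by
    rintro A B ⟨h1, h2, h3, h4⟩ ⟨k1, k2, k3, k4⟩
    refine ⟨fun i => ?_, fun l => ?_, fun i hi v => ?_, fun i i' e1 e2 e3 => ?_⟩
    · rw [Submodule.coe_add, bf_add, h1, k1, add_zero]
    · rw [Submodule.coe_add, bf_add, h2, k2, add_zero]
    · rw [Submodule.coe_add, bf_add, h3 i hi, k3 i hi, add_zero]
    · rw [Submodule.coe_add, bf_add, h4 i i' e1 e2 e3, k4 i i' e1 e2 e3, add_zero]
  zero_mem' := by
    refine ⟨fun i => ?_, fun l => ?_, fun i hi v => ?_, fun i i' e1 e2 e3 => ?_⟩ <;>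
      simp [bf_zero]
  smul_mem' := by
    rintro r A ⟨h1, h2, h3, h4⟩
    refine ⟨fun i => ?_, fun l => ?_, fun i hi v => ?_, fun i i' e1 e2 e3 => ?_⟩
    · rw [Submodule.coe_smul, bf_smul, h1, mul_zero]
    · rw [Submodule.coe_smul, bf_smul, h2, mul_zero]
    · rw [Submodule.coe_smul, bf_smul, h3 i hi, mul_zero]
    · rw [Submodule.coe_smul, bf_smul, h4 i i' e1 e2 e3, mul_zero]

theorem mem_SD {m b : ℕ} {I J : Type} {z : I → Fin m → K} {y : J → Fin m → K} {g lab : I → Fin b}
    {ord : I → ℕ} {k : Fin b} {A : SF K m} : A ∈ SD z y g lab ord k ↔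
    (∀ i, bf (A : Fin m → Fin m → K) (z i) (z i) = 0) ∧
    (∀ l, bf (A : Fin m → Fin m → K) (y l) (y l) = 0) ∧
    (∀ i, g i = k → ∀ v, bf (A : Fin m → Fin m → K) (z i) v = 0) ∧
    ∀ i i', g i = g i' → ord i < ord i' → lab i = k →
      bf (A : Fin m → Fin m → K) (z i) (z i') = 0 := Iff.rfl

theorem LP_pow {X : Type*} [AddCommGroup X] [Module K X] {f : X → K} (hf : LP f) (n : ℕ) :
    LP fun x => f x ^ n := by
  have h := LP.prod (Finset.range n) (F := fun _ : ℕ => f) fun _ _ => hf
  simpa using h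

/-- the vectors of the full points -/
def starA {b : ℕ} {I : Type} (g lab : I → Fin b) (ord : I → ℕ) (q : K × K) (i : I) (j : Fin b) :
    K :=
  (if j = g i then 1 else 0) + q.1 * q.2 ^ ord i * (if j = lab i then 1 else 0)

/-- the vectors of the pair conditions -/
def starC {b : ℕ} {I : Type} (lab : I → Fin b) (ord : I → ℕ) (q : K × K) (i i' : I) (j : Fin b) :
    K :=
  (if j = lab i then 1 else 0) + (-1) * q.2 ^ (ord i' - ord i) * (if j = lab i' then 1 else 0)

theorem sum_two {b : ℕ} (k l : Fin b) (c : K) (x : Fin b → K) :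
    ∑ j, ((if j = k then 1 else 0) + c * (if j = l then 1 else 0)) * x j = x k + c * x l := by
  simp [add_mul, Finset.sum_add_distrib]

/-- the family of systems which contains the kernels and whose member at `0` is decoupled -/
def starZ {m b : ℕ} {I J : Type} (z : I → Fin m → K) (y : J → Fin m → K) (g lab : I → Fin b)
    (ord : I → ℕ) (q : K × K) : Submodule K (Fin b → SF K m) :=
  ((⨅ p : I × Fin b, LinearMap.ker (evF (z p.1) p.2)) ⊓
    ⨅ p : J × Fin b, LinearMap.ker (evF (y p.1) p.2)) ⊓
    ((⨅ p : I × Fin m, LinearMap.ker (dvF (starA g lab ord q p.1) (z p.1) (Pi.single p.2 1))) ⊓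
    ⨅ p : {p : I × I // g p.1 = g p.2 ∧ ord p.1 < ord p.2},
      LinearMap.ker (dvF (starC lab ord q p.1.1 p.1.2) (z p.1.1) (z p.1.2)))

theorem PK_starZ {m b : ℕ} {I J : Type} [Finite I] [Finite J] (z : I → Fin m → K)
    (y : J → Fin m → K) (g lab : I → Fin b) (ord : I → ℕ) :
    PK fun q : K × K => starZ z y g lab ord q := by
  have hε : LP fun q : K × K => q.1 := LP.linear (LinearMap.fst K K K)
  have hη : LP fun q : K × K => q.2 := LP.linear (LinearMap.snd K K K)
  have h1 : PK fun _ : K × K => ⨅ p : I × Fin b, LinearMap.ker (evF (z p.1) p.2) := by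
    refine PK.iInf fun p => PK.one (φ := fun _ : K × K => evF (z p.1) p.2) fun F => LP.const _
  have h2 : PK fun _ : K × K => ⨅ p : J × Fin b, LinearMap.ker (evF (y p.1) p.2) := by
    refine PK.iInf fun p => PK.one (φ := fun _ : K × K => evF (y p.1) p.2) fun F => LP.const _
  have h3 : PK fun q : K × K => ⨅ p : I × Fin m,
      LinearMap.ker (dvF (starA g lab ord q p.1) (z p.1) (Pi.single p.2 1)) := by
    refine PK.iInf fun p => PK.one (φ := fun q : K × K =>
      dvF (starA g lab ord q p.1) (z p.1) (Pi.single p.2 1)) fun F => ?_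
    simp only [dvF_apply, starA]
    exact LP.sum _ fun j _ => ((LP.const _).add
      ((hε.mul (LP_pow hη _)).mul (LP.const _))).mul (LP.const _)
  have h4 : PK fun q : K × K => ⨅ p : {p : I × I // g p.1 = g p.2 ∧ ord p.1 < ord p.2},
      LinearMap.ker (dvF (starC lab ord q p.1.1 p.1.2) (z p.1.1) (z p.1.2)) := by
    refine PK.iInf fun p => PK.one (φ := fun q : K × K =>
      dvF (starC lab ord q p.1.1 p.1.2) (z p.1.1) (z p.1.2)) fun F => ?_
    simp only [dvF_apply, starC]
    exact LP.sum _ fun j _ => ((LP.const _).add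
      (((LP.const _).mul (LP_pow hη _)).mul (LP.const _))).mul (LP.const _)
  exact (h1.inf h2).inf (h3.inf h4)

theorem mem_starZ {m b : ℕ} {I J : Type} {z : I → Fin m → K} {y : J → Fin m → K}
    {g lab : I → Fin b} {ord : I → ℕ} {q : K × K} {F : Fin b → SF K m} :
    F ∈ starZ z y g lab ord q ↔
    ((∀ i j, bf (F j : Fin m → Fin m → K) (z i) (z i) = 0) ∧
    ∀ l j, bf (F j : Fin m → Fin m → K) (y l) (y l) = 0) ∧
    (∀ i v, bf (F (g i) : Fin m → Fin m → K) (z i) v +
      q.1 * q.2 ^ ord i * bf (F (lab i) : Fin m → Fin m → K) (z i) v = 0) ∧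
    ∀ i i', g i = g i' → ord i < ord i' →
      bf (F (lab i) : Fin m → Fin m → K) (z i) (z i') +
      (-1) * q.2 ^ (ord i' - ord i) * bf (F (lab i') : Fin m → Fin m → K) (z i) (z i') = 0 := by
  have e : ∀ i : I, (∀ k : Fin m, ∑ j, starA g lab ord q i j *
      bf (F j : Fin m → Fin m → K) (z i) (Pi.single k 1) = 0) ↔
      ∀ v, bf (F (g i) : Fin m → Fin m → K) (z i) v +
      q.1 * q.2 ^ ord i * bf (F (lab i) : Fin m → Fin m → K) (z i) v = 0 := by
    intro i
    rw [← full_iff (fun j => (F j : Fin m → Fin m → K))]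
    refine forall_congr' fun v => ?_
    simp only [starA]
    rw [sum_two (g i) (lab i) (q.1 * q.2 ^ ord i)
      (fun j => bf (F j : Fin m → Fin m → K) (z i) v)]
  have e' : ∀ i i' : I, (∑ j, starC lab ord q i i' j *
      bf (F j : Fin m → Fin m → K) (z i) (z i')) =
      bf (F (lab i) : Fin m → Fin m → K) (z i) (z i') +
      (-1) * q.2 ^ (ord i' - ord i) * bf (F (lab i') : Fin m → Fin m → K) (z i) (z i') := by
    intro i i'
    simp only [starC]
    rw [sum_two (lab i) (lab i') ((-1) * q.2 ^ (ord i' - ord i))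
      (fun j => bf (F j : Fin m → Fin m → K) (z i) (z i'))]
  simp only [starZ, Submodule.mem_inf, Submodule.mem_iInf, LinearMap.mem_ker, evF_apply,
    dvF_apply, Prod.forall, e, e', Subtype.forall]
  refine and_congr Iff.rfl (and_congr Iff.rfl ?_)
  exact ⟨fun h i i' h1 h2 => h i i' ⟨h1, h2⟩, fun h i i' h1 => h i i' h1.1 h1.2⟩

theorem finrank_starZ_zero {m b : ℕ} {I J : Type} (z : I → Fin m → K)
    (y : J → Fin m → K) (g lab : I → Fin b) (ord : I → ℕ) (r : Fin b → ℕ)
    (h : ∀ k, finrank K (SD z y g lab ord k) ≤ r k) :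
    finrank K (starZ z y g lab ord (0 : K × K)) ≤ ∑ k, r k := by
  have hm : ∀ F : Fin b → SF K m, F ∈ starZ z y g lab ord (0 : K × K) →
      ∀ k, F k ∈ SD z y g lab ord k := by
    intro F hF k
    obtain ⟨⟨h1, h2⟩, h3, h4⟩ := mem_starZ.1 hF
    refine mem_SD.2 ⟨fun i => h1 i k, fun l => h2 l k, fun i hi v => ?_, fun i i' e1 e2 e3 => ?_⟩
    · have h5 := h3 i v
      rw [hi] at h5
      simpa using h5
    · have h5 := h4 i i' e1 e2
      have h6 : ord i' - ord i ≠ 0 := by omega
      rw [e3] at h5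
      simpa [h6] using h5
  let L : starZ z y g lab ord (0 : K × K) →ₗ[K] ((k : Fin b) → SD z y g lab ord k) :=
    LinearMap.pi fun k => LinearMap.codRestrict (SD z y g lab ord k)
      ((LinearMap.proj k : (Fin b → SF K m) →ₗ[K] SF K m).comp
        (starZ z y g lab ord (0 : K × K)).subtype) fun F => hm F.1 F.2 k
  have hL : Function.Injective L := by
    intro F G hFG
    apply Subtype.ext
    funext k
    have h1 := congrFun hFG k
    exact congrArg Subtype.val h1
  have h1 := LinearMap.finrank_le_finrank_of_injective hL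
  have hf : ∀ k : Fin b, Module.Free K (SD z y g lab ord k) := fun k =>
    Module.Free.of_divisionRing K (SD z y g lab ord k)
  rw [Module.finrank_pi_fintype] at h1
  exact h1.trans (Finset.sum_le_sum fun k _ => h k)

theorem ZK_le_starZ {m b : ℕ} {I J : Type} (z : I → Fin m → K)
    (y : J → Fin m → K) (g lab : I → Fin b) (ord : I → ℕ) (q : K × K) (h1 : q.1 ≠ 0)
    (h2 : q.2 ≠ 0) :
    ZK (z, starA g lab ord q, y) ≤ starZ z y g lab ord q := by
  intro F hF
  obtain ⟨k1, k2, k3⟩ := mem_ZK.1 hF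
  have k2' : ∀ i v, bf (F (g i) : Fin m → Fin m → K) (z i) v +
      q.1 * q.2 ^ ord i * bf (F (lab i) : Fin m → Fin m → K) (z i) v = 0 := by
    intro i v
    have h := k2 i v
    simp only [starA] at h
    rw [sum_two (g i) (lab i) (q.1 * q.2 ^ ord i)
      (fun j => bf (F j : Fin m → Fin m → K) (z i) v)] at h
    exact h
  refine mem_starZ.2 ⟨⟨k1, k3⟩, k2', fun i i' e1 e2 => ?_⟩
  have a1 := k2' i (z i')
  have a2 := k2' i' (z i)
  rw [bf_comm (F (g i')).2 (z i') (z i), bf_comm (F (lab i')).2 (z i') (z i), ← e1] at a2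
  have a3 : q.2 ^ ord i' = q.2 ^ ord i * q.2 ^ (ord i' - ord i) := by
    rw [← pow_add]
    congr 1
    omega
  rw [a3] at a2
  have a4 : q.1 * q.2 ^ ord i * (bf (F (lab i) : Fin m → Fin m → K) (z i) (z i') +
      (-1) * q.2 ^ (ord i' - ord i) * bf (F (lab i') : Fin m → Fin m → K) (z i) (z i')) = 0 := by
    linear_combination a1 - a2
  exact (mul_eq_zero.1 a4).resolve_left (mul_ne_zero h1 (pow_ne_zero _ h2))

/-- the star limit, for given points -/
theorem star_cfg [Infinite K] {m b : ℕ} {I J : Type} [Finite I] [Finite J] (z : I → Fin m → K)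
    (y : J → Fin m → K) (g lab : I → Fin b) (ord : I → ℕ) (r : Fin b → ℕ)
    (h : ∀ k, finrank K (SD z y g lab ord k) ≤ r k) :
    ∃ a : I → Fin b → K, finrank K (ZK ((z, a, y) : Cfg K m b I J)) ≤ ∑ k, r k := by
  have hg := (PK_starZ z y g lab ord).gen_finrank (finrank_starZ_zero z y g lab ord r h)
  have hε : Gen K fun q : K × K => q.1 ≠ 0 :=
    Gen.ne (LP.linear (LinearMap.fst K K K)) (1, 1) one_ne_zero
  have hη : Gen K fun q : K × K => q.2 ≠ 0 :=
    Gen.ne (LP.linear (LinearMap.snd K K K)) (1, 1) one_ne_zero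
  obtain ⟨q, hq, h1, h2⟩ := (hg.and (hε.and hη)).exists
  exact ⟨starA g lab ord q,
    (Submodule.finrank_mono (ZK_le_starZ z y g lab ord q h1 h2)).trans hq⟩

/-- **The star limit.** -/
theorem star [Infinite K] {m b : ℕ} {I J : Type} [Fintype I] [Fintype J] (z : I → Fin m → K)
    (y : J → Fin m → K) (g lab : I → Fin b) (ord : I → ℕ) (r : Fin b → ℕ)
    (h : ∀ k, finrank K (SD z y g lab ord k) ≤ r k) :
    KQ K m b (Fintype.card I) (Fintype.card J) (∑ k, r k) := by
  obtain ⟨a, ha⟩ := star_cfg z y g lab ord r h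
  exact KQ.of_cfg (z, a, y) rfl rfl ha

end Star

end Pool.Agent.WarR
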