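import Pool.Agent.WarR.Star

/-!
# The star limit with plane transfers (MP_db021c_ag, degree 2)   (helper31)

As in `Star.lean`: the vectors of the full points are `e_(g i) + ε η ^ (ord i) e_(lab i)`. Let `p, q` be two full
points of one group, `ord p < ord q`, let `w` be another point (full or simple) and let `w + z p + z q` be a further
point of the configuration. Then for `ε η ≠ 0` (and `2 ≠ 0`)
`F_(lab p)(z p, w) = η ^ (ord q - ord p) F_(lab q)(z p, w)`, so in the limit the form `lab p` gets the additional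
condition `F_(lab p)(z p, w) = 0`, while the form `g p` loses the condition at the point `w + z p + z q`
(a transfer of exactly one condition from the form `g p` to the form `lab p`).

`star_param`: the points depend linearly on parameters `c` (with constant coefficients), and the decoupled system of
every form `k` may be estimated at its own parameters `c k`.
-/

set_option autoImplicit false

open Module

namespace Pool.Agent.WarR

open Pool.Agent.War

section StarT

variable {K : Type*} [Field K]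

/-- the decoupled system for the form `k` with the transfers `t : T` -/
def SDT {m b : ℕ} {I J T : Type} (z : I → Fin m → K) (y : J → Fin m → K) (g lab : I → Fin b)
    (ord : I → ℕ) (p : T → I) (w : T → Fin m → K) (k : Fin b) : Submodule K (SF K m) :=
  SD z y g lab ord k ⊓ ⨅ t : {t : T // lab (p t) = k},
    LinearMap.ker ((bfL (z (p t.1)) (w t.1)).comp (SF K m).subtype)

theorem mem_SDT {m b : ℕ} {I J T : Type} {z : I → Fin m → K} {y : J → Fin m → K}
    {g lab : I → Fin b} {ord : I → ℕ} {p : T → I} {w : T → Fin m → K} {k : Fin b} {A : SF K m} :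
    A ∈ SDT z y g lab ord p w k ↔ A ∈ SD z y g lab ord k ∧
      ∀ t, lab (p t) = k → bf (A : Fin m → Fin m → K) (z (p t)) (w t) = 0 := by
  simp only [SDT, Submodule.mem_inf, Submodule.mem_iInf, LinearMap.mem_ker,
    LinearMap.comp_apply, Submodule.subtype_apply, bfL_apply, Subtype.forall]

/-- the family of systems with the transfers -/
def starTZ {m b : ℕ} {I J T : Type} (z : I → Fin m → K) (y : J → Fin m → K) (g lab : I → Fin b)
    (ord : I → ℕ) (p q : T → I) (w : T → Fin m → K) (e : K × K) :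
    Submodule K (Fin b → SF K m) :=
  starZ z y g lab ord e ⊓
    ⨅ t : T, LinearMap.ker (dvF (starC lab ord e (p t) (q t)) (z (p t)) (w t))

theorem PK_starTZ {m b : ℕ} {I J T : Type} [Finite I] [Finite J] [Finite T] (z : I → Fin m → K)
    (y : J → Fin m → K) (g lab : I → Fin b) (ord : I → ℕ) (p q : T → I) (w : T → Fin m → K) :
    PK fun e : K × K => starTZ z y g lab ord p q w e := by
  have hη : LP fun e : K × K => e.2 := LP.linear (LinearMap.snd K K K)
  refine (PK_starZ z y g lab ord).inf (PK.iInf fun t => PK.one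
    (φ := fun e : K × K => dvF (starC lab ord e (p t) (q t)) (z (p t)) (w t)) fun F => ?_)
  simp only [dvF_apply, starC]
  exact LP.sum _ fun j _ => ((LP.const _).add
    (((LP.const _).mul (LP_pow hη _)).mul (LP.const _))).mul (LP.const _)

theorem mem_starTZ {m b : ℕ} {I J T : Type} {z : I → Fin m → K} {y : J → Fin m → K}
    {g lab : I → Fin b} {ord : I → ℕ} {p q : T → I} {w : T → Fin m → K} {e : K × K}
    {F : Fin b → SF K m} :
    F ∈ starTZ z y g lab ord p q w e ↔ F ∈ starZ z y g lab ord e ∧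
    ∀ t, bf (F (lab (p t)) : Fin m → Fin m → K) (z (p t)) (w t) +
      (-1) * e.2 ^ (ord (q t) - ord (p t)) *
        bf (F (lab (q t)) : Fin m → Fin m → K) (z (p t)) (w t) = 0 := by
  have e' : ∀ t : T, (∑ j, starC lab ord e (p t) (q t) j *
      bf (F j : Fin m → Fin m → K) (z (p t)) (w t)) =
      bf (F (lab (p t)) : Fin m → Fin m → K) (z (p t)) (w t) +
      (-1) * e.2 ^ (ord (q t) - ord (p t)) *
        bf (F (lab (q t)) : Fin m → Fin m → K) (z (p t)) (w t) := by
    intro t
    simp only [starC]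
    rw [sum_two (lab (p t)) (lab (q t)) ((-1) * e.2 ^ (ord (q t) - ord (p t)))
      (fun j => bf (F j : Fin m → Fin m → K) (z (p t)) (w t))]
  simp only [starTZ, Submodule.mem_inf, Submodule.mem_iInf, LinearMap.mem_ker, dvF_apply, e']

theorem finrank_starTZ_zero {m b : ℕ} {I J T : Type} (z : I → Fin m → K)
    (y : J → Fin m → K) (g lab : I → Fin b) (ord : I → ℕ) (p q : T → I) (w : T → Fin m → K)
    (hpq : ∀ t, g (p t) = g (q t) ∧ ord (p t) < ord (q t)) (r : Fin b → ℕ)
    (h : ∀ k, finrank K (SDT z y g lab ord p w k) ≤ r k) :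
    finrank K (starTZ z y g lab ord p q w (0 : K × K)) ≤ ∑ k, r k := by
  have hm : ∀ F : Fin b → SF K m, F ∈ starTZ z y g lab ord p q w (0 : K × K) →
      ∀ k, F k ∈ SDT z y g lab ord p w k := by
    intro F hF k
    obtain ⟨hF', h5⟩ := mem_starTZ.1 hF
    obtain ⟨⟨h1, h2⟩, h3, h4⟩ := mem_starZ.1 hF'
    refine mem_SDT.2 ⟨mem_SD.2 ⟨fun i => h1 i k, fun l => h2 l k, fun i hi v => ?_,
      fun i i' e1 e2 e3 => ?_⟩, fun t ht => ?_⟩
    · have h6 := h3 i v
      rw [hi] at h6
      simpa using h6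
    · have h6 := h4 i i' e1 e2
      have h7 : ord i' - ord i ≠ 0 := by omega
      rw [e3] at h6
      simpa [h7] using h6
    · have h6 := h5 t
      have h7 : ord (q t) - ord (p t) ≠ 0 := by have := (hpq t).2; omega
      rw [ht] at h6
      simpa [h7] using h6
  let L : starTZ z y g lab ord p q w (0 : K × K) →ₗ[K]
      ((k : Fin b) → SDT z y g lab ord p w k) :=
    LinearMap.pi fun k => LinearMap.codRestrict (SDT z y g lab ord p w k)
      ((LinearMap.proj k : (Fin b → SF K m) →ₗ[K] SF K m).comp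
        (starTZ z y g lab ord p q w (0 : K × K)).subtype) fun F => hm F.1 F.2 k
  have hL : Function.Injective L := by
    intro F G hFG
    apply Subtype.ext
    funext k
    have h1 := congrFun hFG k
    exact congrArg Subtype.val h1
  have h1 := LinearMap.finrank_le_finrank_of_injective hL
  have hf : ∀ k : Fin b, Module.Free K (SDT z y g lab ord p w k) := fun k =>
    Module.Free.of_divisionRing K (SDT z y g lab ord p w k)
  rw [Module.finrank_pi_fintype] at h1
  exact h1.trans (Finset.sum_le_sum fun k _ => h k)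

theorem bf_add_left {m : ℕ} (A : Fin m → Fin m → K) (x y z : Fin m → K) :
    bf A (x + y) z = bf A x z + bf A y z := by
  simp only [bf, Pi.add_apply, add_mul, Finset.sum_add_distrib]

/-- the value at `w + x + y` -/
theorem bf_three {m : ℕ} {A : Fin m → Fin m → K} (hA : A ∈ SF K m) (w x y : Fin m → K)
    (hw : bf A w w = 0) (hx : bf A x x = 0) (hy : bf A y y = 0)
    (h : bf A (w + x + y) (w + x + y) = 0) :
    2 * (bf A x w + bf A y w + bf A x y) = 0 := by
  simp only [bf_add_left, bf_add_right] at h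
  rw [bf_comm hA w x, bf_comm hA w y, bf_comm hA y x, hw, hx, hy] at h
  linear_combination h

theorem ZK_le_starTZ {m b : ℕ} {I J T : Type} (h2 : (2 : K) ≠ 0) (z : I → Fin m → K)
    (y : J → Fin m → K) (g lab : I → Fin b) (ord : I → ℕ) (p q : T → I) (w : T → Fin m → K)
    (hpq : ∀ t, g (p t) = g (q t) ∧ ord (p t) < ord (q t))
    (hw : ∀ t, ∃ s : I ⊕ J, Sum.elim z y s = w t)
    (hu : ∀ t, ∃ s : I ⊕ J, Sum.elim z y s = w t + z (p t) + z (q t))
    (e : K × K) (he1 : e.1 ≠ 0) (he2 : e.2 ≠ 0) :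
    ZK (z, starA g lab ord e, y) ≤ starTZ z y g lab ord p q w e := by
  intro F hF
  have hF' := ZK_le_starZ z y g lab ord e he1 he2 hF
  refine mem_starTZ.2 ⟨hF', fun t => ?_⟩
  obtain ⟨⟨k1, k2⟩, k3, k4⟩ := mem_starZ.1 hF'
  have k0 : ∀ (s : I ⊕ J) (j : Fin b),
      bf (F j : Fin m → Fin m → K) (Sum.elim z y s) (Sum.elim z y s) = 0 := by
    rintro (i | l) j
    · exact k1 i j
    · exact k2 l j
  have hw' : ∀ j, bf (F j : Fin m → Fin m → K) (w t) (w t) = 0 := by
    obtain ⟨s, hs⟩ := hw t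
    intro j
    rw [← hs]
    exact k0 s j
  have hR : ∀ j, bf (F j : Fin m → Fin m → K) (z (p t)) (w t) +
      bf (F j : Fin m → Fin m → K) (z (q t)) (w t) +
      bf (F j : Fin m → Fin m → K) (z (p t)) (z (q t)) = 0 := by
    obtain ⟨s, hs⟩ := hu t
    intro j
    have h3 := bf_three (F j).2 (w t) (z (p t)) (z (q t)) (hw' j) (k1 _ j) (k1 _ j)
      (by rw [← hs]; exact k0 s j)
    exact (mul_eq_zero.1 h3).resolve_left h2
  obtain ⟨h3, h4⟩ := hpq t
  have a1 := k3 (p t) (w t)
  have a2 := k3 (q t) (w t)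
  have a3 := k3 (p t) (z (q t))
  have a4 := k4 (p t) (q t) h3 h4
  rw [← h3] at a2
  have a5 : e.2 ^ ord (q t) = e.2 ^ ord (p t) * e.2 ^ (ord (q t) - ord (p t)) := by
    rw [← pow_add]
    congr 1
    omega
  rw [a5] at a2
  have r1 := hR (g (p t))
  have r2 := hR (lab (q t))
  have a6 : e.1 * e.2 ^ ord (p t) * (bf (F (lab (p t)) : Fin m → Fin m → K) (z (p t)) (w t) +
      (-1) * e.2 ^ (ord (q t) - ord (p t)) *
        bf (F (lab (q t)) : Fin m → Fin m → K) (z (p t)) (w t)) = 0 := by
    linear_combination a1 + a2 + a3 - r1 - e.1 * e.2 ^ ord (p t) *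
      e.2 ^ (ord (q t) - ord (p t)) * r2 - e.1 * e.2 ^ ord (p t) * a4
  exact (mul_eq_zero.1 a6).resolve_left (mul_ne_zero he1 (pow_ne_zero _ he2))

/-- the star limit with transfers, for given points -/
theorem starT_cfg [Infinite K] (h2 : (2 : K) ≠ 0) {m b : ℕ} {I J T : Type} [Finite I] [Finite J]
    [Finite T] (z : I → Fin m → K) (y : J → Fin m → K) (g lab : I → Fin b) (ord : I → ℕ)
    (p q : T → I) (w : T → Fin m → K)
    (hpq : ∀ t, g (p t) = g (q t) ∧ ord (p t) < ord (q t))
    (hw : ∀ t, ∃ s : I ⊕ J, Sum.elim z y s = w t)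
    (hu : ∀ t, ∃ s : I ⊕ J, Sum.elim z y s = w t + z (p t) + z (q t)) (r : Fin b → ℕ)
    (h : ∀ k, finrank K (SDT z y g lab ord p w k) ≤ r k) :
    ∃ a : I → Fin b → K, finrank K (ZK ((z, a, y) : Cfg K m b I J)) ≤ ∑ k, r k := by
  have hg := (PK_starTZ z y g lab ord p q w).gen_finrank
    (finrank_starTZ_zero z y g lab ord p q w hpq r h)
  have hε : Gen K fun e : K × K => e.1 ≠ 0 :=
    Gen.ne (LP.linear (LinearMap.fst K K K)) (1, 1) one_ne_zero
  have hη : Gen K fun e : K × K => e.2 ≠ 0 :=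
    Gen.ne (LP.linear (LinearMap.snd K K K)) (1, 1) one_ne_zero
  obtain ⟨e, he, h3, h4⟩ := (hg.and (hε.and hη)).exists
  exact ⟨starA g lab ord e,
    (Submodule.finrank_mono (ZK_le_starTZ h2 z y g lab ord p q w hpq hw hu e h3 h4)).trans he⟩

/-- **The star limit with transfers.** -/
theorem starT [Infinite K] (h2 : (2 : K) ≠ 0) {m b : ℕ} {I J T : Type} [Fintype I] [Fintype J]
    [Finite T] (z : I → Fin m → K) (y : J → Fin m → K) (g lab : I → Fin b) (ord : I → ℕ)
    (p q : T → I) (w : T → Fin m → K)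
    (hpq : ∀ t, g (p t) = g (q t) ∧ ord (p t) < ord (q t))
    (hw : ∀ t, ∃ s : I ⊕ J, Sum.elim z y s = w t)
    (hu : ∀ t, ∃ s : I ⊕ J, Sum.elim z y s = w t + z (p t) + z (q t)) (r : Fin b → ℕ)
    (h : ∀ k, finrank K (SDT z y g lab ord p w k) ≤ r k) :
    KQ K m b (Fintype.card I) (Fintype.card J) (∑ k, r k) := by
  obtain ⟨a, ha⟩ := starT_cfg h2 z y g lab ord p q w hpq hw hu r h
  exact KQ.of_cfg (z, a, y) rfl rfl ha

/-- points depending linearly on parameters -/
def lin {m : ℕ} {X I : Type} [Fintype X] (M : I → X → K) (c : X → Fin m → K) (i : I) :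
    Fin m → K := ∑ x, M i x • c x

theorem LP_lin {m : ℕ} {X I : Type} [Fintype X] (M : I → X → K) (i : I) (k : Fin m) :
    LP fun c : X → Fin m → K => lin M c i k := by
  have h : ∀ c : X → Fin m → K, lin M c i k = ∑ x, M i x * c x k := by
    intro c
    simp [lin, Finset.sum_apply]
  simp only [h]
  refine LP.sum _ fun x _ => (LP.const _).mul ?_
  exact LP_apply (LinearMap.proj x : (X → Fin m → K) →ₗ[K] (Fin m → K)) k

theorem PK_SDT {m b : ℕ} {X I J T : Type} [Fintype X] [Finite I] [Finite J] [Finite T]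
    (M : I → X → K) (N : J → X → K) (g lab : I → Fin b) (ord : I → ℕ) (p : T → I)
    (W : T → X → K) (k : Fin b) :
    PK fun c : X → Fin m → K => SDT (lin M c) (lin N c) g lab ord p (lin W c) k := by
  have h1 : PK fun c : X → Fin m → K => ⨅ i : I, LinearMap.ker
      ((bfL (lin M c i) (lin M c i)).comp (SF K m).subtype) := by
    refine PK.iInf fun i => PK.one (φ := fun c : X → Fin m → K =>
      (bfL (lin M c i) (lin M c i)).comp (SF K m).subtype) fun A => ?_
    simp only [LinearMap.comp_apply, bfL_apply]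
    exact LP_bf _ (LP_lin M i) (LP_lin M i)
  have h2 : PK fun c : X → Fin m → K => ⨅ l : J, LinearMap.ker
      ((bfL (lin N c l) (lin N c l)).comp (SF K m).subtype) := by
    refine PK.iInf fun l => PK.one (φ := fun c : X → Fin m → K =>
      (bfL (lin N c l) (lin N c l)).comp (SF K m).subtype) fun A => ?_
    simp only [LinearMap.comp_apply, bfL_apply]
    exact LP_bf _ (LP_lin N l) (LP_lin N l)
  have h3 : PK fun c : X → Fin m → K => ⨅ s : {s : I × Fin m // g s.1 = k}, LinearMap.ker
      ((bfL (lin M c s.1.1) (Pi.single s.1.2 1)).comp (SF K m).subtype) := by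
    refine PK.iInf fun s => PK.one (φ := fun c : X → Fin m → K =>
      (bfL (lin M c s.1.1) (Pi.single s.1.2 1)).comp (SF K m).subtype) fun A => ?_
    simp only [LinearMap.comp_apply, bfL_apply]
    exact LP_bf _ (LP_lin M s.1.1) fun k => LP.const _
  have h4 : PK fun c : X → Fin m → K =>
      ⨅ s : {s : I × I // g s.1 = g s.2 ∧ ord s.1 < ord s.2 ∧ lab s.1 = k}, LinearMap.ker
      ((bfL (lin M c s.1.1) (lin M c s.1.2)).comp (SF K m).subtype) := by
    refine PK.iInf fun s => PK.one (φ := fun c : X → Fin m → K =>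
      (bfL (lin M c s.1.1) (lin M c s.1.2)).comp (SF K m).subtype) fun A => ?_
    simp only [LinearMap.comp_apply, bfL_apply]
    exact LP_bf _ (LP_lin M s.1.1) (LP_lin M s.1.2)
  have h5 : PK fun c : X → Fin m → K =>
      ⨅ t : {t : T // lab (p t) = k}, LinearMap.ker
      ((bfL (lin M c (p t.1)) (lin W c t.1)).comp (SF K m).subtype) := by
    refine PK.iInf fun t => PK.one (φ := fun c : X → Fin m → K =>
      (bfL (lin M c (p t.1)) (lin W c t.1)).comp (SF K m).subtype) fun A => ?_
    simp only [LinearMap.comp_apply, bfL_apply]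
    exact LP_bf _ (LP_lin M (p t.1)) (LP_lin W t.1)
  refine ((h1.inf h2).inf (h3.inf (h4.inf h5))).congr fun c => ?_
  ext A
  have e : ∀ i : I, (∀ v, bf (A : Fin m → Fin m → K) (lin M c i) v = 0) ↔
      ∀ j : Fin m, bf (A : Fin m → Fin m → K) (lin M c i) (Pi.single j 1) = 0 := by
    intro i
    have h := full_iff (b := 1) (fun _ => (A : Fin m → Fin m → K)) (fun _ => 1) (lin M c i)
    simpa using h
  simp only [Submodule.mem_inf, Submodule.mem_iInf, LinearMap.mem_ker, LinearMap.comp_apply,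
    Submodule.subtype_apply, bfL_apply, mem_SDT, mem_SD, Subtype.forall, Prod.forall, e]
  constructor
  · rintro ⟨⟨a1, a2⟩, a3, a4, a5⟩
    exact ⟨⟨a1, a2, fun i hi j => a3 i j hi, fun i i' e1 e2 e3 => a4 i i' ⟨e1, e2, e3⟩⟩, a5⟩
  · rintro ⟨⟨a1, a2, a3, a4⟩, a5⟩
    exact ⟨⟨a1, a2⟩, fun i j hi => a3 i hi j, fun i i' h => a4 i i' h.1 h.2.1 h.2.2, a5⟩

/-- **The star limit with transfers, every form at its own parameters.** -/
theorem star_param [Infinite K] (h2 : (2 : K) ≠ 0) {m b : ℕ} {X I J T : Type} [Fintype X]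
    [Fintype I] [Fintype J] [Finite T] (M : I → X → K) (N : J → X → K) (g lab : I → Fin b)
    (ord : I → ℕ) (p q : T → I) (W : T → X → K)
    (hpq : ∀ t, g (p t) = g (q t) ∧ ord (p t) < ord (q t))
    (hw : ∀ t, ∃ s : I ⊕ J, Sum.elim M N s = W t)
    (hu : ∀ t, ∃ s : I ⊕ J, Sum.elim M N s = W t + M (p t) + M (q t)) (r : Fin b → ℕ)
    (h : ∀ k, ∃ c : X → Fin m → K,
      finrank K (SDT (lin M c) (lin N c) g lab ord p (lin W c) k) ≤ r k) :
    KQ K m b (Fintype.card I) (Fintype.card J) (∑ k, r k) := by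
  have hg : Gen K fun c : X → Fin m → K => ∀ k,
      finrank K (SDT (lin M c) (lin N c) g lab ord p (lin W c) k) ≤ r k := by
    refine Gen.forall fun k => ?_
    obtain ⟨c, hc⟩ := h k
    exact (PK_SDT M N g lab ord p W k).gen_finrank hc
  obtain ⟨c, hc⟩ := hg.exists
  have key : ∀ (s : I ⊕ J) (V : X → K), Sum.elim M N s = V →
      Sum.elim (lin M c) (lin N c) s = ∑ x, V x • c x := by
    rintro (i | l) V rfl <;> rfl
  refine starT h2 (lin M c) (lin N c) g lab ord p q (lin W c) hpq (fun t => ?_) (fun t => ?_) r hc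
  · obtain ⟨s, hs⟩ := hw t
    exact ⟨s, key s _ hs⟩
  · obtain ⟨s, hs⟩ := hu t
    refine ⟨s, (key s _ hs).trans ?_⟩
    simp only [lin, Pi.add_apply, add_smul, Finset.sum_add_distrib]

end StarT

end Pool.Agent.WarR
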