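import Pool.Agent.WarR.Split

/-!
# The split simple point: a lossless step `n - 1 → n`   (helper14, after note 2390 of helper51)
-/

set_option autoImplicit false

open Module

namespace Pool.Agent.WarR

open Pool.Agent.War

section

variable {K : Type*} [Field K]

/-- the values of all the forms at a point -/
def evA {m b : ℕ} (z : Fin m → K) : (Fin b → SF K m) →ₗ[K] (Fin b → K) where
  toFun F j := bf (F j : Fin m → Fin m → K) z z
  map_add' F G := by
    funext j
    rw [Pi.add_apply, Submodule.coe_add, bf_add, Pi.add_apply]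
  map_smul' r F := by
    funext j
    rw [Pi.smul_apply, Submodule.coe_smul, bf_smul]; rfl

theorem evA_apply {m b : ℕ} (z : Fin m → K) (F : Fin b → SF K m) (j : Fin b) :
    evA z F j = bf (F j : Fin m → Fin m → K) z z := rfl

theorem bf_zero_zero {m : ℕ} (A : Fin m → Fin m → K) : bf A 0 0 = 0 := by simp [bf]

theorem lv_cons {m b : ℕ} (s : K) (v : Fin m → K) (L : Fin b → Fin (m + 1) → K) (j : Fin b) :
    lv (Fin.cons s v) L j = s * L j 0 + lv v (fun j k => L j k.succ) j := by
  rw [lv_apply, lv_apply, Fin.sum_univ_succ]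
  simp only [Fin.cons_zero, Fin.cons_succ]

/-- spanning vectors -/
theorem span_gen {b x : ℕ} (hbx : b ≤ x) : Gen K fun a : Fin x → Fin b → K =>
    ∀ g, (∀ i, dt (a i) g = 0) → g = 0 := by
  classical
  have h : PK fun a : Fin x → Fin b → K => ⨅ i, LinearMap.ker (dt (a i)) := by
    refine PK.iInf fun i => PK.one (φ := fun a : Fin x → Fin b → K => dt (a i)) fun g => ?_
    simp only [dt_apply]
    exact LP.sum _ fun j _ => (LP_apply (LinearMap.proj i : (Fin x → Fin b → K) →ₗ[K] (Fin b → K))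
      j).mul (LP.const _)
  refine (h.gen_bot (x₀ := fun i => if hi : (i : ℕ) < b then Pi.single ⟨i, hi⟩ 1 else 0) ?_).mono
    fun a ha g hg => ?_
  · rw [eq_bot_iff]
    intro g hg
    rw [Submodule.mem_iInf] at hg
    rw [Submodule.mem_bot]
    funext j
    have h1 := hg (Fin.castLE hbx j)
    rw [LinearMap.mem_ker, dt_apply] at h1
    have h2 : ((Fin.castLE hbx j : Fin x) : ℕ) < b := j.2
    beta_reduce at h1
    rw [dif_pos h2, Finset.sum_eq_single j] at h1
    · have h3 : (⟨((Fin.castLE hbx j : Fin x) : ℕ), h2⟩ : Fin b) = j := rfl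
      rw [h3, Pi.single_eq_same, one_mul] at h1
      exact h1
    · intro l _ hl
      have h3 : (⟨((Fin.castLE hbx j : Fin x) : ℕ), h2⟩ : Fin b) = j := rfl
      rw [h3, Pi.single_eq_of_ne hl, zero_mul]
    · simp
  · have : g ∈ (⨅ i, LinearMap.ker (dt (a i)) : Submodule K (Fin b → K)) :=
      (Submodule.mem_iInf _).2 fun i => hg i
    rw [ha] at this
    exact this

/-- **The split simple point.** Both sides in dimension `m` imply the bound in dimension `m + 1`. -/
theorem step' [CharZero K] {m b x y1 p ρ r : ℕ} (h1 : KQ K m b x y1 ρ) (h2 : KQ K m b x (y1 + 1) 0)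
    (hbx : b ≤ x) (hp : min ρ (x - b * p) + p + 1 ≤ m) (hr : b * p + ρ ≤ r + x) :
    KQ K (m + 1) b x (y1 + 1 + (m - p)) r := by
  classical
  obtain ⟨k, hk⟩ : ∃ k, k = min ρ (x - b * p) := ⟨_, rfl⟩
  have hkρ : k ≤ ρ := hk ▸ min_le_left _ _
  have hkx : k ≤ x := (hk ▸ min_le_right _ _ : k ≤ x - b * p).trans (Nat.sub_le _ _)
  obtain ⟨s, hs⟩ : ∃ s, 1 + k + s + p = m := ⟨m - (1 + k + p), by omega⟩
  -- general configuration
  let X : Type _ := Cfg K m b (Fin x) (Fin (y1 + 1)) × (Fin s → Fin m → K)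
  let L1 : X →ₗ[K] Cfg K m b (Fin x) (Fin y1) :=
    { toFun := fun q => (q.1.1, q.1.2.1, fun l => q.1.2.2 l.castSucc)
      map_add' := fun _ _ => rfl
      map_smul' := fun _ _ => rfl }
  have hL1 : Function.Surjective L1 := by
    rintro ⟨z, a, y⟩
    refine ⟨((z, a, Fin.snoc y 0), 0), ?_⟩
    refine Prod.ext rfl (Prod.ext rfl ?_)
    funext l
    change (Fin.snoc y 0 : Fin (y1 + 1) → Fin m → K) l.castSucc = y l
    rw [Fin.snoc_castSucc]
  let L2 : X →ₗ[K] (Fin x → Fin m → K) × (Fin x → Fin b → K) × (Fin m → K) ×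
      (Fin s → Fin m → K) :=
    { toFun := fun q => (q.1.1, q.1.2.1, q.1.2.2 (Fin.last y1), q.2)
      map_add' := fun _ _ => rfl
      map_smul' := fun _ _ => rfl }
  have hL2 : Function.Surjective L2 := by
    rintro ⟨z, a, z0, μ⟩
    exact ⟨((z, a, fun _ => z0), μ), rfl⟩
  let L3 : X →ₗ[K] (Fin x → Fin b → K) :=
    { toFun := fun q => q.1.2.1
      map_add' := fun _ _ => rfl
      map_smul' := fun _ _ => rfl }
  have hL3 : Function.Surjective L3 := fun a => ⟨((0, a, 0), 0), rfl⟩
  have hL4 : Function.Surjective (LinearMap.fst K (Cfg K m b (Fin x) (Fin (y1 + 1)))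
      (Fin s → Fin m → K)) := fun c => ⟨(c, 0), rfl⟩
  have g4 : Gen K fun q : X => ∀ I : Finset (Fin x), I.card = k →
      finrank K (E1 I (L2 q)) ≤ b * p - (x - k) := by
    refine Gen.forall fun I => ?_
    by_cases hI : I.card = k
    · exact ((E1_gen (p := p) I hI hs).comp L2 hL2).mono fun q hq _ => hq
    · exact Gen.of_forall fun q h => absurd h hI
  obtain ⟨⟨⟨z, a, y⟩, μ⟩, ⟨⟨k1, k2⟩, k3⟩, k4⟩ := (((h1.gen.comp L1 hL1).and
    (h2.gen.comp _ hL4)).and ((span_gen hbx).comp L3 hL3)).and g4 |>.exists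
  change finrank K (ZK (z, a, fun l : Fin y1 => y l.castSucc)) ≤ ρ at k1
  change finrank K (ZK (z, a, y)) ≤ 0 at k2
  change ∀ g, (∀ i, dt (a i) g = 0) → g = 0 at k3
  change ∀ I : Finset (Fin x), I.card = k →
      finrank K (E1 I (z, a, y (Fin.last y1), μ)) ≤ b * p - (x - k) at k4
  obtain ⟨z0, hz0⟩ : ∃ z0, z0 = y (Fin.last y1) := ⟨_, rfl⟩
  rw [← hz0] at k4
  let c : Cfg K m b (Fin x) (Fin y1) := (z, a, fun l : Fin y1 => y l.castSucc)
  -- the space of the values at `z0`
  let R : Submodule K (Fin b → K) := (ZK c).map (evA z0)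
  have hR : finrank K R ≤ ρ := (Submodule.finrank_map_le _ _).trans k1
  obtain ⟨I, hI, hIR⟩ := choose_cut a k3 R k hkx
  -- the off points
  let O : Type := Unit ⊕ ({i // i ∈ I} ⊕ Fin s)
  let lam : O → Fin m → K := Sum.elim (fun _ => 0) (Sum.elim (fun i => z i - z0) μ)
  -- the limit system
  let Θ : ((Fin b → SF K m) × (Fin b → Fin (m + 1) → K)) →ₗ[K] (Fin b → Fin m → K) :=
    { toFun := fun q j k => q.2 j k.succ
      map_add' := fun _ _ => rfl
      map_smul' := fun _ _ => rfl }
  have h2K : (2 : K) ≠ 0 := two_ne_zero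
  have key : ∀ q ∈ NT c z0 lam 0, (∀ j, q.2 j 0 = 0) ∧ (∀ i, ro (a i, z i) (Θ q) = 0) ∧
      (∀ i ∈ I, lv (z i) (Θ q) = lv z0 (Θ q)) ∧ (∀ l, lv (μ l) (Θ q) = 0) ∧
      ∀ j, bf (q.1 j : Fin m → Fin m → K) z0 z0 + 2 * lv z0 (Θ q) j = 0 := by
    intro q hq
    obtain ⟨⟨q1, q2⟩, q3, q4⟩ := mem_NT.1 hq
    have hΘ : (fun j k => q.2 j k.succ : Fin b → Fin m → K) = Θ q := rfl
    have q3' : ∀ o j, q.2 j 0 + lv (lam o) (Θ q) j = 0 := by
      intro o j
      have := q3 o j
      rw [zero_mul, zero_add, lv_cons, one_mul, hΘ] at this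
      exact (mul_eq_zero.1 this).resolve_left h2K
    have q30 : ∀ j, q.2 j 0 = 0 := by
      intro j
      have := q3' (Sum.inl ()) j
      have e : lv (lam (Sum.inl ())) (Θ q) j = 0 := by
        rw [lv_apply]
        exact Finset.sum_eq_zero fun k _ => by simp [lam]
      rwa [e, add_zero] at this
    have q31 : ∀ o j, lv (lam o) (Θ q) j = 0 := by
      intro o j
      have := q3' o j
      rwa [q30 j, zero_add] at this
    refine ⟨q30, fun i => ?_, fun i hi => ?_, fun l => ?_, fun j => ?_⟩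
    · have := q2 i
      rw [ro_apply] at this ⊢
      simp only [Fin.sum_univ_succ, Fin.cons_zero, Fin.cons_succ, zero_mul, zero_add] at this
      exact this
    · funext j
      have := q31 (Sum.inr (Sum.inl ⟨i, hi⟩)) j
      have e : lv (lam (Sum.inr (Sum.inl ⟨i, hi⟩))) (Θ q) j = lv (z i) (Θ q) j -
          lv z0 (Θ q) j := by
        simp only [lv_apply, ← Finset.sum_sub_distrib]
        refine Finset.sum_congr rfl fun k _ => ?_
        change (z i k - z0 k) * _ = _
        ring
      rw [e] at this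
      exact sub_eq_zero.1 this
    · funext j
      exact q31 (Sum.inr (Sum.inr l)) j
    · have := q4 j
      rw [lv_cons, zero_mul, zero_add, hΘ] at this
      exact this
  have hinj : ∀ q ∈ NT c z0 lam 0, Θ q = 0 → q = 0 := by
    intro q hq hq0
    obtain ⟨q1, -, -, -, q5⟩ := key q hq
    have hq2 : q.2 = 0 := by
      funext j k
      refine Fin.cases (q1 j) (fun k => ?_) k
      exact congrFun (congrFun hq0 j) k
    have hq1 : q.1 ∈ ZK (z, a, y) := by
      obtain ⟨w1, w2, w3⟩ := mem_ZK.1 (mem_NT.1 hq).1.1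
      refine mem_ZK.2 ⟨w1, w2, fun l j => ?_⟩
      refine Fin.lastCases ?_ (fun l => ?_) l
      · have := q5 j
        rw [hq0, map_zero, Pi.zero_apply, mul_zero, add_zero, hz0] at this
        exact this
      · exact w3 l j
    have hbot : ZK (z, a, y) = ⊥ := Submodule.finrank_eq_zero.1 (Nat.le_zero.1 k2)
    rw [hbot, Submodule.mem_bot] at hq1
    exact Prod.ext hq1 hq2
  have hN0 : finrank K (NT c z0 lam 0) ≤ r := by
    have e1 : finrank K (NT c z0 lam 0) ≤ finrank K ((NT c z0 lam 0).map Θ) := by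
      have := finrank_le_map_add_ker Θ (NT c z0 lam 0)
      have e2 : NT c z0 lam 0 ⊓ LinearMap.ker Θ = ⊥ := by
        rw [eq_bot_iff]
        rintro q ⟨hq, hq0⟩
        rw [Submodule.mem_bot]
        exact hinj q hq hq0
      rw [e2, finrank_bot, add_zero] at this
      exact this
    refine e1.trans ?_
    have e3 := resid (B1 := b * p - (x - k)) (B2 := ρ - k) I z a z0 μ R (k4 I hI)
      (hIR.trans (by omega)) ((NT c z0 lam 0).map Θ) (by
        rintro _ ⟨q, hq, rfl⟩
        obtain ⟨-, q2, q3, q4, q5⟩ := key q hq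
        refine ⟨q2, q3, q4, ?_⟩
        have hmem : evA z0 ((-(2 : K)⁻¹) • q.1) = lv z0 (Θ q) := by
          funext j
          rw [map_smul, Pi.smul_apply, evA_apply, smul_eq_mul]
          have := q5 j
          have e : bf (q.1 j : Fin m → Fin m → K) z0 z0 = -(2 * lv z0 (Θ q) j) :=
            eq_neg_of_add_eq_zero_left this
          rw [e]
          field_simp
        rw [← hmem]
        exact ⟨_, (ZK c).smul_mem _ (mem_NT.1 hq).1.1, rfl⟩)
    refine e3.trans ?_
    rcases le_total x (b * p) with hc | hc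
    · have : k = 0 := by rw [hk]; simp [Nat.sub_eq_zero_of_le hc]
      omega
    · rcases le_total ρ (x - b * p) with hc2 | hc2
      · have : k = ρ := by rw [hk, min_eq_left hc2]
        omega
      · have : k = x - b * p := by rw [hk, min_eq_right hc2]
        omega
  obtain ⟨t, ht, ht0⟩ := (((PK_NT c z0 lam).gen_finrank hN0).and
    (Gen.ne (K := K) (F := fun t : K => t) (LP.linear (LinearMap.id : K →ₗ[K] K)) 1
      one_ne_zero)).exists
  refine KQ.of_cfg (cfgT c z0 lam t) (Fintype.card_fin x) ?_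
    ((finrank_cfgT c z0 lam ht0).trans ht)
  have hc1 : Fintype.card {i // i ∈ I} = k := by rw [Fintype.card_coe, hI]
  change Fintype.card ((Fin y1 ⊕ Unit) ⊕ (Unit ⊕ ({i // i ∈ I} ⊕ Fin s))) = _
  rw [Fintype.card_sum, Fintype.card_sum, Fintype.card_sum, Fintype.card_sum, hc1,
    Fintype.card_unit, Fintype.card_fin, Fintype.card_fin]
  omega

theorem step [CharZero K] {m b x y1 p ρ r : ℕ} (h1 : KQ K m b x y1 ρ) (h2 : KQ K m b x (y1 + 1) 0)
    (hbx : b ≤ x) (hp : ρ + p + 1 ≤ m) (hr : b * p + ρ ≤ r + x) :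
    KQ K (m + 1) b x (y1 + 1 + (m - p)) r :=
  step' h1 h2 hbx (by have := min_le_left ρ (x - b * p); omega) hr

end

end Pool.Agent.WarR
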