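import Pool.Agent.WarR.Num4

/-!
# MP_db021c_ag, d = 2: the windows, arithmetic   (helper4)

`CW n b x`: the numerical data of the chain (closed form `flow`) with all its side conditions.
`cw_large`: they exist for `39 ≤ n`, `7 ≤ b ≤ n + 1` and all `x` in the window
`b N(n-1) < x (n-1+b)`, `(x - 1) (n+b) ≤ b N(n)`.
-/

set_option autoImplicit false

namespace Pool.Agent.WarR.N4

open Finset

/-- The rank condition for the form `j + 2`: `a`, `b`, `c` points in the groups `j`, `j + 1`, `j + 2`, and `F` pairs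
of the group `j` go to this form. -/
def RS (n a b c F : ℕ) : Prop :=
  a + b + c ≤ n + 1 ∨ (a + c ≤ n + 1 ∧ ∃ t, t ≤ a ∧ 2 * F ≤ t * (2 * a - 1 - t) ∧ b + t + c ≤ n)

/-- the closed form -/
def vv (n b x i : ℕ) : ℕ := (rr b x i).choose 2 + cc n b x (i + 1)

section

variable (n : ℕ) {b : ℕ} (x : ℕ) (hb : 0 < b)
include hb

theorem vv_add (i : ℕ) : vv n b x (i + b) = vv n b x i := by
  unfold vv
  have : i + b + 1 = i + 1 + b := by omega
  rw [this, rr_add x hb, cc_add n x hb]

theorem vv_mod (i : ℕ) : vv n b x i = vv n b x (i % b) := by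
  induction i using Nat.strong_induction_on with
  | _ i ih =>
    rcases Nat.lt_or_ge i b with h | h
    · rw [Nat.mod_eq_of_lt h]
    · have h1 := ih (i - b) (by omega)
      have h2 := vv_add n x hb (i - b)
      rw [Nat.sub_add_cancel h] at h2
      rw [h2, h1, ← Nat.mod_eq_sub_mod h]

theorem rr_mod (i : ℕ) : rr b x i = rr b x (i % b) := by
  induction i using Nat.strong_induction_on with
  | _ i ih =>
    rcases Nat.lt_or_ge i b with h | h
    · rw [Nat.mod_eq_of_lt h]
    · have h1 := ih (i - b) (by omega)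
      have h2 := rr_add x hb (i - b)
      rw [Nat.sub_add_cancel h] at h2
      rw [h2, h1, ← Nat.mod_eq_sub_mod h]

/-- the values `vv` differ by at most `n - 1` -/
theorem vv_diff {q s : ℕ} (hn : 0 < n) (hx : b * q + s = x) (hs : s < b) (hq : q ≤ n - 1) (i k : ℕ) :
    vv n b x i ≤ vv n b x k + (n - 1) := by
  have c1 := cc_lt n x hb hn (i + 1)
  simp only [vv]
  rcases rr_cases x hb hx hs i with ⟨h1, h2⟩ | ⟨h1, h2⟩ <;>
    rcases rr_cases x hb hx hs k with ⟨h3, h4⟩ | ⟨h3, h4⟩ <;> rw [h1, h3]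
  · omega
  · have : q.choose 2 ≤ (q + 1).choose 2 := Nat.choose_le_choose 2 (Nat.le_succ _)
    omega
  · have e1 : (q + 1).choose 2 = q.choose 2 + q := by
      rw [Nat.choose_succ_succ' q 1, Nat.choose_one_right]
      exact Nat.add_comm _ _
    have e2 : cc n b x (i + 1) ≤ cc n b x (k + 1) := by
      unfold cc
      exact Nat.div_le_div_right (Nat.mul_le_mul_left _ (by omega))
    omega
  · omega

/-- two neighbouring groups -/
theorem rr_two (j : ℕ) : b * (rr b x j + rr b x (j + 1)) < 2 * x + b := by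
  have h0 := RR_mono x hb j
  have h1 := RR_mono x hb (j + 1)
  have h2 := RR_rho b x j
  have h3 := RR_rho b x (j + 2)
  have h4 := rho_lt x hb j
  have e : rr b x j + rr b x (j + 1) + RR b x j = RR b x (j + 2) := by
    unfold rr
    have e1 : j + 1 + 1 = j + 2 := rfl
    rw [e1] at h1 ⊢
    omega
  have h5 : b * (rr b x j + rr b x (j + 1)) + b * RR b x j = b * RR b x (j + 2) := by
    rw [← Nat.mul_add, e]
  have h6 : (j + 2) * x = j * x + 2 * x := by ring
  omega

end

theorem vv_max (n b x : ℕ) (hb : 0 < b) : ∃ i, i < b ∧ ∀ j, vv n b x j ≤ vv n b x i := by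
  have hne : (range b).Nonempty := ⟨0, mem_range.2 hb⟩
  obtain ⟨i, hi, hi'⟩ := exists_max_image (range b) (vv n b x) hne
  refine ⟨i, mem_range.1 hi, fun j => ?_⟩
  rw [vv_mod n x hb]
  exact hi' _ (mem_range.2 (Nat.mod_lt _ hb))

/-- the conditions for one `j`, with the upper bound `M` -/
def CJ (n b x M j : ℕ) : Prop :=
  2 * (M - vv n b x (j + 1)) ≤ rr b x j * (rr b x j - 1) ∧
  RS n (rr b x j) (rr b x (j + 1)) (rr b x (j + 2)) (M - vv n b x (j + 1))

/-- the data of the chain for `(n, b, x)` -/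
def CW (n b x : ℕ) : Prop := ∃ M, (∀ j, j < b → vv n b x j ≤ M) ∧ ∀ j, j < b → CJ n b x M j

theorem cw_large {n b x : ℕ} (hn : 39 ≤ n) (hb : 7 ≤ b) (hbn : b ≤ n + 1)
    (h1 : b * (n * (n + 1)) < 2 * (x * (n + b - 1)))
    (h2 : 2 * (x * (n + b)) ≤ b * ((n + 1) * (n + 2)) + 2 * (n + b)) : CW n b x := by
  have hb0 : 0 < b := by omega
  obtain ⟨q, s, hx, hs⟩ : ∃ q s, b * q + s = x ∧ s < b :=
    ⟨x / b, x % b, Nat.div_add_mod x b, Nat.mod_lt x (by omega)⟩
  -- the lower bound of `q`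
  have c1 : n ≤ 4 * q + 2 := by
    by_contra hcon
    push Not at hcon
    have e1 : 4 * x ≤ b * (n + 1) := by
      have : b * (4 * (q + 1)) ≤ b * (n + 1) := Nat.mul_le_mul_left _ (by omega)
      have e : b * (4 * (q + 1)) = 4 * (b * q) + 4 * b := by ring
      omega
    have e2 : x * (n + b - 1) ≤ x * (2 * n) := Nat.mul_le_mul_left _ (by omega)
    have e3 : 2 * (x * (2 * n)) = 4 * x * n := by ring
    have e4 : 4 * x * n ≤ b * (n + 1) * n := Nat.mul_le_mul_right _ e1
    have e5 : b * (n + 1) * n = b * (n * (n + 1)) := by ring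
    omega
  -- the upper bound of two groups
  have c2 : ∀ B, b * B < 2 * x + b → B + 3 ≤ n := by
    intro B hB
    by_contra hcon
    push Not at hcon
    have e1 : b * (n - 2) ≤ b * B := Nat.mul_le_mul_left _ (by omega)
    have e2 : (b * (n - 2) + 1) * (n + b) ≤ (2 * x + b) * (n + b) := Nat.mul_le_mul_right _ (by omega)
    have e3 : (2 * x + b) * (n + b) = 2 * (x * (n + b)) + b * (n + b) := by ring
    obtain ⟨u, rfl⟩ : ∃ u, n = u + 39 := ⟨n - 39, by omega⟩
    obtain ⟨w, rfl⟩ : ∃ w, b = w + 7 := ⟨b - 7, by omega⟩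
    have e4 : u + 39 - 2 = u + 37 := by omega
    rw [e4] at e2
    have e5 : ((w + 7) * (u + 37) + 1) * (u + 39 + (w + 7)) ≤
        (w + 7) * ((u + 39 + 1) * (u + 39 + 2)) + 2 * (u + 39 + (w + 7)) +
          (w + 7) * (u + 39 + (w + 7)) := by omega
    nlinarith [Nat.zero_le (w * u), Nat.zero_le (w * w * u), Nat.zero_le (w * w)]
  have hr2 : ∀ j, rr b x j + rr b x (j + 1) + 3 ≤ n := fun j => c2 _ (rr_two x hb0 j)
  have hr : ∀ j, q ≤ rr b x j ∧ rr b x j ≤ q + 1 := fun j => by
    rcases rr_cases x hb0 hx hs j with ⟨h, _⟩ | ⟨h, _⟩ <;> omega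
  have c3 : 2 * q + 3 ≤ n := by
    have a1 := hr2 0
    have a2 := hr 0
    have a3 := hr (0 + 1)
    omega
  have hq : 10 ≤ q := by omega
  obtain ⟨i, _, hi⟩ := vv_max n b x hb0
  have hF : ∀ j, vv n b x i - vv n b x (j + 1) ≤ n - 1 := fun j => by
    have := vv_diff n x hb0 (by omega) hx hs (by omega) i (j + 1)
    omega
  refine ⟨vv n b x i, fun j _ => hi j, fun j _ => ?_⟩
  have a1 := hF j
  obtain ⟨a2, a3⟩ := hr j
  obtain ⟨b2, b3⟩ := hr (j + 1)
  obtain ⟨d2, d3⟩ := hr (j + 2)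
  have a4 := hr2 (j + 1)
  have e0 : j + 1 + 1 = j + 2 := rfl
  rw [e0] at a4
  unfold CJ RS
  generalize vv n b x i - vv n b x (j + 1) = F at *
  generalize rr b x j = r at *
  generalize rr b x (j + 1) = r' at *
  generalize rr b x (j + 2) = r'' at *
  constructor
  · obtain ⟨p, rfl⟩ : ∃ p, r = p + 10 := ⟨r - 10, by omega⟩
    have e1 : p + 10 - 1 = p + 9 := by omega
    rw [e1]
    have e2 : (p + 10) * (p + 9) = p * p + 19 * p + 90 := by ring
    have e3 : 0 ≤ p * p := Nat.zero_le _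
    omega
  · rcases Nat.lt_or_ge (n + 1) (3 * q + 3) with h | h
    · right
      refine ⟨by omega, ?_⟩
      rcases Nat.lt_or_ge (3 * q) (n + 5) with h' | h'
      · exact ⟨4, by omega, by omega, by omega⟩
      · exact ⟨3, by omega, by omega, by omega⟩
    · left
      omega

end Pool.Agent.WarR.N4
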