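import Pool.Agent.WarR.Win4

/-!
# MP_db021c_ag, d = 2: the windows for `32 ≤ n ≤ 38`, by the kernel   (helper4)
-/

set_option autoImplicit false

namespace Pool.Agent.WarR.N4

open Finset

/-- for the kernel -/
def allN (p : ℕ → Bool) : ℕ → Bool
  | 0 => true
  | k + 1 => p k && allN p k

theorem allN_spec {p : ℕ → Bool} : ∀ {m : ℕ}, allN p m = true → ∀ j, j < m → p j = true
  | 0, _, j, hj => absurd hj (Nat.not_lt_zero j)
  | m + 1, h, j, hj => by
    rw [allN, Bool.and_eq_true] at h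
    rcases Nat.lt_succ_iff_lt_or_eq.1 hj with h1 | h1
    · exact allN_spec h.2 j h1
    · rw [h1]
      exact h.1

/-- the maximum -/
def mxN (f : ℕ → ℕ) : ℕ → ℕ
  | 0 => 0
  | k + 1 => if f k ≤ mxN f k then mxN f k else f k

theorem mxN_spec {f : ℕ → ℕ} : ∀ {m : ℕ} (j : ℕ), j < m → f j ≤ mxN f m
  | 0, j, hj => absurd hj (Nat.not_lt_zero j)
  | m + 1, j, hj => by
    rw [mxN]
    rcases Nat.lt_succ_iff_lt_or_eq.1 hj with h1 | h1
    · have := mxN_spec (f := f) j h1
      split_ifs with h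
      · exact this
      · omega
    · subst h1
      split_ifs with h
      · exact h
      · exact le_rfl

/-- `rr` for the kernel -/
def rk (b x i : ℕ) : ℕ := (i + 1) * x / b - i * x / b

/-- `vv` for the kernel -/
def vk (n b x i : ℕ) : ℕ := rk b x i * (rk b x i - 1) / 2 + n * ((i + 1) * x % b) / b

theorem rk_eq (b x i : ℕ) : rk b x i = rr b x i := rfl

theorem vk_eq (n b x i : ℕ) : vk n b x i = vv n b x i := by
  unfold vk vv
  rw [Nat.choose_two_right, rk_eq]
  rfl

/-- the rank condition for the kernel -/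
def rsk (n a b c F : ℕ) : Bool :=
  Nat.ble (a + b + c) (n + 1) ||
    (Nat.ble (a + c) (n + 1) && (Nat.ble (b + c) n &&
      Nat.ble (2 * F) (Nat.min a (n - b - c) * (2 * a - 1 - Nat.min a (n - b - c)))))

theorem rsk_spec {n a b c F : ℕ} (h : rsk n a b c F = true) : RS n a b c F := by
  unfold rsk at h
  simp only [Bool.and_eq_true, Bool.or_eq_true, Nat.ble_eq] at h
  unfold RS
  rcases h with h2 | ⟨h2, h3, h4⟩
  · exact Or.inl h2
  · refine Or.inr ⟨h2, _, Nat.min_le_left _ _, h4, ?_⟩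
    have := Nat.min_le_right a (n - b - c)
    change b + min a (n - b - c) + _ ≤ _
    omega

/-- the check for one `j` -/
def cj (n b x M j : ℕ) : Bool :=
  Nat.ble (2 * (M - vk n b x (j + 1))) (rk b x j * (rk b x j - 1)) &&
    rsk n (rk b x j) (rk b x (j + 1)) (rk b x (j + 2)) (M - vk n b x (j + 1))

theorem cj_spec {n b x M j : ℕ} (h : cj n b x M j = true) : CJ n b x M j := by
  unfold cj at h
  rw [Bool.and_eq_true] at h
  have h1 := rsk_spec h.2
  have h2 := h.1
  rw [Nat.ble_eq] at h2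
  simp only [vk_eq, rk_eq] at h1 h2
  exact ⟨h2, h1⟩

/-- the check for one triple -/
def okW (n b x : ℕ) : Bool := allN (cj n b x (mxN (vk n b x) b)) b

theorem okW_spec {n b x : ℕ} (h : okW n b x = true) : CW n b x := by
  refine ⟨mxN (vk n b x) b, fun j hj => ?_, fun j hj => ?_⟩
  · rw [← vk_eq]
    exact mxN_spec j hj
  · exact cj_spec (allN_spec h j hj)

/-- lower end of the window -/
def loW (n b : ℕ) : ℕ := b * (n * (n + 1)) / (2 * (n + b - 1)) + 1

/-- upper end of the window -/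
def hiW (n b : ℕ) : ℕ := (b * ((n + 1) * (n + 2)) + 2 * (n + b)) / (2 * (n + b))

theorem mem_win {n b x : ℕ} (hn : 1 ≤ n) (hb : 1 ≤ b) (h1 : b * (n * (n + 1)) < 2 * (x * (n + b - 1)))
    (h2 : 2 * (x * (n + b)) ≤ b * ((n + 1) * (n + 2)) + 2 * (n + b)) :
    loW n b ≤ x ∧ x ≤ hiW n b := by
  constructor
  · unfold loW
    rw [Nat.succ_le_iff, Nat.div_lt_iff_lt_mul (by omega)]
    calc _ < _ := h1
      _ = _ := by ring
  · unfold hiW
    rw [Nat.le_div_iff_mul_le (by omega)]
    have : x * (2 * (n + b)) = 2 * (x * (n + b)) := by ring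
    omega

/-- all `x` of the window of `(n, b)`, except the `x` with `ex` -/
def okB (ex : ℕ → ℕ → Bool) (n b : ℕ) : Bool :=
  allN (fun k => ex b (loW n b + k) || okW n b (loW n b + k)) (hiW n b + 1 - loW n b)

/-- all `b` with `lo ≤ b < lo + m` -/
def okN (ex : ℕ → ℕ → Bool) (n lo m : ℕ) : Bool := allN (fun k => okB ex n (lo + k)) m

theorem okN_spec {ex : ℕ → ℕ → Bool} {n lo m : ℕ} (h : okN ex n lo m = true) {b x : ℕ} (hn : 1 ≤ n)
    (hb : 1 ≤ b) (hlo : lo ≤ b) (hm : b < lo + m) (h1 : b * (n * (n + 1)) < 2 * (x * (n + b - 1)))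
    (h2 : 2 * (x * (n + b)) ≤ b * ((n + 1) * (n + 2)) + 2 * (n + b)) (hex : ex b x = false) :
    CW n b x := by
  have k1 := allN_spec h (b - lo) (by omega)
  rw [show lo + (b - lo) = b by omega] at k1
  obtain ⟨w1, w2⟩ := mem_win hn hb h1 h2
  have k2 := allN_spec k1 (x - loW n b) (by omega)
  rw [show loW n b + (x - loW n b) = x by omega, hex, Bool.false_or] at k2
  exact okW_spec k2

/-- no exceptions -/
def ex0 (_ _ : ℕ) : Bool := false

theorem k32 : okN ex0 32 7 27 = true := by decide +kernel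

theorem k33 : okN ex0 33 7 28 = true := by decide +kernel

theorem k34 : okN ex0 34 7 29 = true := by decide +kernel

theorem k35 : okN ex0 35 7 30 = true := by decide +kernel

theorem k36 : okN ex0 36 7 31 = true := by decide +kernel

theorem k37 : okN ex0 37 7 32 = true := by decide +kernel

theorem k38 : okN ex0 38 7 33 = true := by decide +kernel

/-- **The windows for `32 ≤ n ≤ 38`.** -/
theorem cw_small {n b x : ℕ} (hn : 32 ≤ n) (hn' : n ≤ 38) (hb : 7 ≤ b) (hbn : b ≤ n + 1)
    (h1 : b * (n * (n + 1)) < 2 * (x * (n + b - 1)))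
    (h2 : 2 * (x * (n + b)) ≤ b * ((n + 1) * (n + 2)) + 2 * (n + b)) : CW n b x := by
  obtain rfl | rfl | rfl | rfl | rfl | rfl | rfl :
      n = 32 ∨ n = 33 ∨ n = 34 ∨ n = 35 ∨ n = 36 ∨ n = 37 ∨ n = 38 := by omega
  · exact okN_spec k32 (by omega) (by omega) hb (by omega) h1 h2 rfl
  · exact okN_spec k33 (by omega) (by omega) hb (by omega) h1 h2 rfl
  · exact okN_spec k34 (by omega) (by omega) hb (by omega) h1 h2 rfl
  · exact okN_spec k35 (by omega) (by omega) hb (by omega) h1 h2 rfl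
  · exact okN_spec k36 (by omega) (by omega) hb (by omega) h1 h2 rfl
  · exact okN_spec k37 (by omega) (by omega) hb (by omega) h1 h2 rfl
  · exact okN_spec k38 (by omega) (by omega) hb (by omega) h1 h2 rfl

end Pool.Agent.WarR.N4
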