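import Pool.Agent.WarR.ChainN
import Pool.Agent.WarR.Sdef
import Pool.Agent.WarR.Num4

/-!
# Both sides from the chain with the mechanical sizes (MP_db021c_ag, degree 2)   (helper10)

`vv n b x j = C(r_j, 2) + floor (n ρ_(j+1) / b)`; group `j` sends `M - vv (j + 1)` pairs to the form `j + 2`.
`SS_of_flow`: if the flow is admissible and the rank condition `RC` holds (finitely many checks), then both sides hold.
-/

set_option autoImplicit false

open Finset

namespace Pool.Agent.WarR

open Pool.Agent.WarR.N4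

/-- the potential -/
def vv (n b x j : ℕ) : ℕ := (rr b x j).choose 2 + cc n b x (j + 1)

theorem vv_add (n : ℕ) {b : ℕ} (x : ℕ) (hb : 0 < b) (j : ℕ) : vv n b x (j + b) = vv n b x j := by
  unfold vv
  have : j + b + 1 = j + 1 + b := by omega
  rw [this, rr_add x hb, cc_add n x hb]

theorem all_of_range {b : ℕ} (hb : 0 < b) {P : ℕ → Prop} (hP : ∀ k, P (k + b) ↔ P k)
    (h : ∀ k < b, P k) (k : ℕ) : P k := by
  induction k using Nat.strong_induction_on with
  | _ k ih =>
    rcases Nat.lt_or_ge k b with h1 | h1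
    · exact h k h1
    · have h2 := ih (k - b) (by omega)
      have h3 := hP (k - b)
      rw [Nat.sub_add_cancel h1] at h3
      exact h3.2 h2

theorem NV_choose (n : ℕ) : NV (n + 1) = (n + 2).choose 2 := by
  unfold NV
  rw [Nat.choose_two_right]
  congr 1
  rw [Nat.mul_comm]
  rfl

/-- **Both sides from the flow.** -/
theorem SS_of_flow {K : Type*} [Field K] [CharZero K] {n b x M : ℕ} (hb : 3 ≤ b)
    (hM : ∀ j < b, vv n b x j ≤ M)
    (hF : ∀ j < b, 2 * (M - vv n b x (j + 1)) ≤ rr b x j * (rr b x j - 1))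
    (hr : ∀ j < b, rr b x j ≤ n + 1)
    (hR : ∀ k < b, RC (n + 1) (rr b x (k + 2)) (rr b x (k + 1)) (rr b x k)
      (M - vv n b x (k + 2)) (M - vv n b x (k + 1))) :
    SS K (n + 1) b x := by
  have hb0 : 0 < b := by omega
  have rp : ∀ k, rr b x (k + b) = rr b x k := rr_add x hb0
  have vp : ∀ k, vv n b x (k + b) = vv n b x k := vv_add n x hb0
  have a1 : ∀ k, k + b + 1 = k + 1 + b := fun k => by omega
  have a2 : ∀ k, k + b + 2 = k + 2 + b := fun k => by omega
  have hM' : ∀ j, vv n b x j ≤ M := all_of_range hb0 (fun k => by rw [vp]) hM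
  have hF' : ∀ j, 2 * (M - vv n b x (j + 1)) ≤ rr b x j * (rr b x j - 1) :=
    all_of_range hb0 (fun k => by rw [rp, a1, vp]) hF
  have hr' : ∀ j, rr b x j ≤ n + 1 := all_of_range hb0 (fun k => by rw [rp]) hr
  have hR' : ∀ k, RC (n + 1) (rr b x (k + 2)) (rr b x (k + 1)) (rr b x k)
      (M - vv n b x (k + 2)) (M - vv n b x (k + 1)) :=
    all_of_range hb0 (fun k => by rw [a1, a2, rp, rp, rp, vp, vp]) hR
  have hW : ∀ k, (M - vv n b x (k + 1)) + (rr b x (k + 1)).choose 2 + n * rr b x (k + 2) =
      WW n b x (k + 2) + (rr b x (k + 2)).choose 2 + (M - vv n b x (k + 1 + 1)) := by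
    intro k
    have h1 := hM' (k + 1)
    have h2 := hM' (k + 2)
    have h3 := WW_cc n x hb0 (k + 2)
    have e1 : k + 1 + 1 = k + 2 := rfl
    rw [e1]
    unfold vv at h1 h2 ⊢
    have e2 : k + 2 + 1 = k + 3 := rfl
    rw [e1] at h1 ⊢
    rw [e2] at h2 h3 ⊢
    omega
  have Fp : ∀ k, M - vv n b x (k + b + 1) = M - vv n b x (k + 1) := fun k => by rw [a1, vp]
  have hsub : ∀ s w, s + x + w = NV (n + 1) → (n + 1 - 1) * x ≤ b * w →
      b * w < (n + 1 - 1) * x + b → KQ K (n + 1) b x s (b * w - n * x) := by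
    intro s w hs h1 h2
    refine chain_sub (K := K) hb (rr b x) (fun k => M - vv n b x (k + 1)) (WW n b x) rp Fp
      (WW_add n x hb0) (sum_rr x hb0) (by rw [← NV_choose]; omega) hF' hr' hW hR' ?_
      (sum_WW n x hb0)
    intro k
    obtain ⟨_, h3⟩ := WW_bounds n x hb0 k
    rw [Nat.add_sub_cancel] at h1 h2
    have h4 : b * WW n b x k < b * (w + 1) := by
      rw [Nat.mul_add, Nat.mul_one]
      omega
    have := Nat.lt_of_mul_lt_mul_left h4
    omega
  have hsup : ∀ s w, s + x + w = NV (n + 1) → b * w ≤ n * x → KQ K (n + 1) b x s 0 := by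
    intro s w hs h1
    refine chain_sup (K := K) (c := w) hb (rr b x) (fun k => M - vv n b x (k + 1)) (WW n b x) rp Fp
      (sum_rr x hb0) (by rw [← NV_choose]; omega) hF' hr' hW hR' ?_
    intro k
    obtain ⟨h3, _⟩ := WW_bounds n x hb0 k
    refine le_trans ?_ h3
    rw [Nat.le_div_iff_mul_le hb0]
    rw [Nat.mul_comm]
    exact h1
  refine ⟨fun s w hs h => hsup s w hs (by simpa using h), ?_⟩
  intro s w hs h
  rw [Nat.add_sub_cancel] at h
  -- reduction to the critical number
  rcases Nat.lt_or_ge (b * w) (n * x + b) with h1 | h1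
  · have := hsub s w hs (by simpa using h) (by simpa using h1)
    simpa using this
  · obtain ⟨w', k, hk, h2, h3⟩ : ∃ w' k, w = w' + k ∧ n * x ≤ b * w' ∧ b * w' < n * x + b := by
      refine ⟨(n * x + b - 1) / b, w - (n * x + b - 1) / b, ?_, ?_, ?_⟩
      · have h4 : (n * x + b - 1) / b ≤ w := by
          have h5 : (n * x + b - 1) / b < w + 1 := by
            rw [Nat.div_lt_iff_lt_mul hb0, Nat.add_mul, Nat.one_mul, Nat.mul_comm w b]
            omega
          omega
        omega
      · have := Nat.div_add_mod (n * x + b - 1) b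
        have := Nat.mod_lt (n * x + b - 1) hb0
        omega
      · have := Nat.div_add_mod (n * x + b - 1) b
        omega
    have h6 := (hsub (s + k) w' (by omega) (by simpa using h2) (by simpa using h3)).less_simple k
    have e : b * w' - n * x + b * k = b * w - n * x := by
      rw [hk, Nat.mul_add]
      omega
    rw [e] at h6
    simpa using h6

end Pool.Agent.WarR
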