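import Pool.Agent.WarR.WinC

/-!
# The windows of small level, `5 ≤ n ≤ 31`: soundness of the program   (helper34)
-/

set_option autoImplicit false

namespace Pool.Agent.WarR.SW

open Pool.Agent.WarR.N4

theorem goodb_sound {n b x : ℕ} (h : goodb n b x = true) : Good n b x := by
  rintro ⟨rfl, h2⟩
  unfold goodb at h
  simp only [Bool.not_eq_true', Bool.and_eq_false_iff] at h
  rcases h with h | h
  · simp at h
  · rw [Bool.eq_false_iff] at h
    exact h (Nat.beq_eq ▸ h2)

theorem memS_sound {K : Type*} [Field K] (hS : SeedH K) {n b x y r : ℕ}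
    (h : memS n b x y r = true) : KQ K (n + 1) b x y r := by
  unfold memS at h
  rw [List.any_eq_true] at h
  obtain ⟨p, hp, h⟩ := h
  simp only [Bool.and_eq_true, Nat.beq_eq] at h
  obtain ⟨⟨⟨⟨h1, h2⟩, h3⟩, h4⟩, h5⟩ := h
  have := hS p hp
  rw [h1, h2, h3, h4, h5] at this
  exact this

section

variable {K : Type*} [Field K] [CharZero K]

theorem supAt_sound (hS : SeedH K) {n b x w : ℕ} (h : supAt n b x w = true)
    (hx : x + w ≤ NV (n + 1))
    (IH : ∀ b' x', 2 ≤ b' → b' < b → b' ≤ x' → Good n b' x' → SS K (n + 1) b' x') :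
    KQ K (n + 1) b x (NV (n + 1) - x - w) 0 := by
  unfold supAt at h
  rw [Bool.or_eq_true] at h
  rcases h with h | h
  · obtain ⟨b1, hb1, h⟩ := (anyB_iff _ _).1 h
    generalize (b1 * w + n - 1) / n = x1 at h
    unfold bs1 at h
    simp only [Bool.and_eq_true, Nat.ble_eq] at h
    obtain ⟨⟨⟨⟨⟨⟨⟨h1, h2⟩, h3⟩, h4⟩, h5⟩, h6⟩, h7⟩, h8⟩ := h
    have S1 := (IH b1 x1 h1 (by omega) h3 (goodb_sound h7)).1
    have S2 := (IH (b - b1) (x - x1) (by omega) (by omega) (by omega) (goodb_sound h8)).1
    have k1 := S1 (NV (n + 1) - x - w + (x - x1)) w (by omega) (by rw [Nat.add_sub_cancel]; exact h5)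
    have k2 := S2 (NV (n + 1) - x - w + x1) w (by omega) (by rw [Nat.add_sub_cancel]; exact h6)
    have := KQ.blocks k1 k2
    rwa [show b1 + (b - b1) = b by omega, show x1 + (x - x1) = x by omega] at this
  · exact memS_sound hS h

theorem subAt_sound (hS : SeedH K) {n b x w : ℕ} (h : subAt n b x w = true)
    (hx : x + w ≤ NV (n + 1))
    (IH : ∀ b' x', 2 ≤ b' → b' < b → b' ≤ x' → Good n b' x' → SS K (n + 1) b' x') :
    KQ K (n + 1) b x (NV (n + 1) - x - w) (b * w - n * x) := by
  unfold subAt at h
  rw [Bool.or_eq_true] at h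
  rcases h with h | h
  · obtain ⟨b1, hb1, h⟩ := (anyB_iff _ _).1 h
    generalize b1 * w / n = x1 at h
    unfold bs2 at h
    simp only [Bool.and_eq_true, Nat.ble_eq] at h
    obtain ⟨⟨⟨⟨⟨⟨⟨h1, h2⟩, h3⟩, h4⟩, h5⟩, h6⟩, h7⟩, h8⟩ := h
    have S1 := (IH b1 x1 h1 (by omega) h3 (goodb_sound h7)).2
    have S2 := (IH (b - b1) (x - x1) (by omega) (by omega) (by omega) (goodb_sound h8)).2
    have k1 := S1 (NV (n + 1) - x - w + (x - x1)) w (by omega) (by rw [Nat.add_sub_cancel]; exact h5)
    have k2 := S2 (NV (n + 1) - x - w + x1) w (by omega) (by rw [Nat.add_sub_cancel]; exact h6)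
    have := KQ.blocks k1 k2
    rw [show b1 + (b - b1) = b by omega, show x1 + (x - x1) = x by omega] at this
    refine this.mono ?_
    rw [Nat.add_sub_cancel]
    have e1 : b * w = b1 * w + (b - b1) * w := by
      rw [← Nat.add_mul]; congr 1; omega
    have e2 : n * x = n * x1 + n * (x - x1) := by
      rw [← Nat.mul_add]; congr 1; omega
    omega
  · exact memS_sound hS h

theorem winOK_sound (hS : SeedH K) {n b x : ℕ} (hn : 1 ≤ n) (hb : 5 ≤ b) (hx1 : 1 ≤ x)
    (h : winOK n b x = true) (hhi : (x - 1) * (n + b) ≤ b * NV (n + 1))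
    (IH : ∀ b' x', 2 ≤ b' → b' < b → b' ≤ x' → Good n b' x' → SS K (n + 1) b' x') :
    SS K (n + 1) b x := by
  unfold winOK at h
  rw [Bool.or_eq_true] at h
  rcases h with h | h
  · exact SS_of_chk (by omega) ((allB_iff _ _).1 h)
  · rcases hE : Nat.blt (b * NV (n + 1)) (x * (n + b)) with _ | _
    · rw [hE, cond_false, Bool.and_eq_true, Bool.or_eq_true] at h
      have hE' : x * (n + b) ≤ b * NV (n + 1) := by
        by_contra hc
        have : Nat.blt (b * NV (n + 1)) (x * (n + b)) = true := by
          rw [Nat.blt_eq]; omega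
        rw [this] at hE
        cases hE
      obtain ⟨h1, h2⟩ := h
      obtain ⟨s, w, hs, hw1, hw2⟩ := exists_crit (m := n + 1) (b := b) (x := x) (by omega)
        (by rw [Nat.add_sub_cancel]; exact hE')
      rw [Nat.add_sub_cancel] at hw1 hw2
      have hw : (n * x + b - 1) / b = w := by
        refine Nat.div_eq_of_lt_le ?_ ?_
        · rw [Nat.mul_comm]; omega
        · rw [Nat.add_mul, Nat.mul_comm w b]; omega
      rw [hw] at h1 h2
      have k1 := subAt_sound hS h1 (by omega) IH
      have es : NV (n + 1) - x - w = s := by omega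
      rw [es] at k1
      refine SS.of_crit hs (by rw [Nat.add_sub_cancel]; exact hw1)
        (by rw [Nat.add_sub_cancel]; exact hw2) (by rw [Nat.add_sub_cancel]; exact k1) ?_
      rcases h2 with h2 | h2
      · have h3 : n * x % b = 0 := by
          rw [Nat.beq_eq] at h2
          exact h2
        have h4 : b * w = n * x := by
          obtain ⟨c, hc⟩ := Nat.dvd_of_mod_eq_zero h3
          rw [hc] at hw1 hw2 ⊢
          have a1 : c ≤ w := Nat.le_of_mul_le_mul_left hw1 (by omega)
          have a2 : w < c + 1 := by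
            refine Nat.lt_of_mul_lt_mul_left (a := b) ?_
            rw [Nat.mul_add]; omega
          have : w = c := by omega
          rw [this]
        rw [h4, Nat.sub_self] at k1
        simpa using k1.add_simple 1
      · have hw0 : 1 ≤ w := by
          by_contra hc
          have : w = 0 := by omega
          subst this
          have h3 : 0 < n * x := Nat.mul_pos hn hx1
          omega
        have k2 := supAt_sound hS h2 (by omega) IH
        rwa [show NV (n + 1) - x - (w - 1) = s + 1 by omega] at k2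
    · rw [hE, cond_true] at h
      rw [Nat.blt_eq] at hE
      have hx : x ≤ NV (n + 1) := by
        by_contra hc
        have h1 : NV (n + 1) ≤ x - 1 := by omega
        have h2 : NV (n + 1) * (n + b) ≤ b * NV (n + 1) := (Nat.mul_le_mul_right _ h1).trans hhi
        have h3 : 0 < NV (n + 1) := by
          have := two_NV (n + 1)
          have : 0 < (n + 1) * (n + 1 + 1) := by positivity
          omega
        have h4 : NV (n + 1) * (n + b) = NV (n + 1) * n + b * NV (n + 1) := by ring
        have h5 : 0 < NV (n + 1) * n := Nat.mul_pos h3 hn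
        omega
      have k := supAt_sound hS h (by omega) IH
      rw [show NV (n + 1) - x - (NV (n + 1) - x) = 0 by omega] at k
      exact SS.of_neg (by rw [Nat.add_sub_cancel]; exact hE) hx k

end

/-- one level -/
theorem win_of_lvl {K : Type*} [Field K] [CharZero K] (hS : SeedH K) {n b x : ℕ} (hn : 5 ≤ n)
    (hl : lvl n = true) (hb : 5 ≤ b) (hbn : b ≤ n + 1) (hlo : b * NV n < x * (n - 1 + b))
    (hhi : (x - 1) * (n + b) ≤ b * NV (n + 1))
    (IH : ∀ b' x', 2 ≤ b' → b' < b → b' ≤ x' → Good n b' x' → SS K (n + 1) b' x') :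
    SS K (n + 1) b x := by
  unfold lvl at hl
  have h1 := (allB_iff _ _).1 hl (b - 5) (by omega)
  beta_reduce at h1
  rw [show 5 + (b - 5) = b by omega] at h1
  have hx0 : 1 ≤ x := by
    by_contra hc
    have : x = 0 := by omega
    subst this
    simp at hlo
  have a1 : b * NV n / (n - 1 + b) < x := by
    rw [Nat.div_lt_iff_lt_mul (by omega)]
    exact hlo
  have a2 : x - 1 ≤ b * NV (n + 1) / (n + b) := by
    rw [Nat.le_div_iff_mul_le (by omega)]
    exact hhi
  have h2 := (allB_iff _ _).1 h1 (x - (b * NV n / (n - 1 + b) + 1)) (by omega)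
  beta_reduce at h2
  rw [show b * NV n / (n - 1 + b) + 1 + (x - (b * NV n / (n - 1 + b) + 1)) = x by omega] at h2
  exact winOK_sound hS (by omega) hb hx0 h2 hhi IH

end Pool.Agent.WarR.SW
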