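import Pool.Agent.WarR.WinS

/-!
# The windows of small level, `5 ≤ n ≤ 31`: evaluation in the kernel   (helper34)
-/

set_option autoImplicit false
set_option maxRecDepth 100000

namespace Pool.Agent.WarR

open Pool.Agent.WarR.SW

theorem lvl_a : allB (fun i => lvl (5 + i)) 17 = true := by decide +kernel

theorem lvl_b : allB (fun i => lvl (22 + i)) 6 = true := by decide +kernel

theorem lvl_c : allB (fun i => lvl (28 + i)) 4 = true := by decide +kernel

theorem lvl_all {n : ℕ} (h1 : 5 ≤ n) (h2 : n ≤ 31) : lvl n = true := by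
  rcases Nat.lt_or_ge n 22 with h | h
  · have := (allB_iff _ _).1 lvl_a (n - 5) (by omega)
    beta_reduce at this
    rwa [show 5 + (n - 5) = n by omega] at this
  rcases Nat.lt_or_ge n 28 with h' | h'
  · have := (allB_iff _ _).1 lvl_b (n - 22) (by omega)
    beta_reduce at this
    rwa [show 22 + (n - 22) = n by omega] at this
  · have := (allB_iff _ _).1 lvl_c (n - 28) (by omega)
    beta_reduce at this
    rwa [show 28 + (n - 28) = n by omega] at this

/-- **All windows with `5 ≤ n ≤ 31`**, from the seeds. -/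
theorem win_small {K : Type*} [Field K] [CharZero K] (hS : SeedH K) (n b x : ℕ) (hn : 5 ≤ n)
    (hn' : n ≤ 31) (hb : 5 ≤ b) (hbn : b ≤ n + 1) (hlo : b * NV n < x * (n - 1 + b))
    (hhi : (x - 1) * (n + b) ≤ b * NV (n + 1))
    (IH : ∀ b' x', 2 ≤ b' → b' < b → b' ≤ x' → Good n b' x' → SS K (n + 1) b' x') :
    SS K (n + 1) b x :=
  win_of_lvl hS hn (lvl_all hn hn') hb hbn hlo hhi IH

end Pool.Agent.WarR
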